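import Pool.Agent.Lib.TFS.StmtsA

set_option autoImplicit false

open MeasureTheory Set Filter Topology

namespace Pool.Agent.TFS

namespace A1

noncomputable def g (t : ℝ) : ℝ := Real.exp (-(Real.pi * t ^ 2))

lemma g_cont : Continuous g := by unfold g; fun_prop

lemma g_int : Integrable g := by
  have := integrable_exp_neg_mul_sq Real.pi_pos
  have h : g = fun x : ℝ ↦ Real.exp (-Real.pi * x ^ 2) := by
    funext x; simp [g]
  rw [h]; exact this

lemma g_total : ∫ t, g t = 1 := by
  have := integral_gaussian Real.pi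
  rw [div_self Real.pi_ne_zero, Real.sqrt_one] at this
  simpa [g, neg_mul] using this

lemma g_pos (t : ℝ) : 0 < g t := Real.exp_pos _

lemma g_neg (t : ℝ) : g (-t) = g t := by simp [g]

lemma Phi_eq (y : ℝ) : Phi y = ∫ t in Iic y, g t := rfl

lemma Phi_neg_eq (y : ℝ) : Phi (-y) = ∫ t in Ioi y, g t := by
  rw [Phi_eq]
  have := integral_comp_neg_Iic (-y) g
  simp only [neg_neg, g_neg] at this
  exact this

lemma Phi_add (y : ℝ) : Phi y + Phi (-y) = 1 := by
  rw [Phi_neg_eq, Phi_eq,
    intervalIntegral.integral_Iic_add_Ioi g_int.integrableOn g_int.integrableOn, g_total]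

lemma Phi_nonneg (y : ℝ) : 0 ≤ Phi y := by
  rw [Phi_eq]
  exact setIntegral_nonneg measurableSet_Iic (fun t _ ↦ (g_pos t).le)

lemma Phi_mono : Monotone Phi := by
  intro a b hab
  rw [Phi_eq, Phi_eq]
  exact setIntegral_mono_set g_int.integrableOn (Eventually.of_forall (fun t ↦ (g_pos t).le))
    (LE.le.eventuallyLE (Iic_subset_Iic.2 hab))

lemma Phi_zero : Phi 0 = 1 / 2 := by
  have := Phi_add 0
  simp only [neg_zero] at this
  linarith

lemma Phi_neg_le (y : ℝ) (hy : 0 ≤ y) : Phi (-y) ≤ g y / 2 := by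
  have h1 : Phi (-y) = ∫ t, (Ioi y).indicator g t := by
    rw [Phi_neg_eq, integral_indicator measurableSet_Ioi]
  have h2 : (∫ t, (Ioi y).indicator g t) = ∫ t, (Ioi y).indicator g (t + y) :=
    (integral_add_right_eq_self (fun t ↦ (Ioi y).indicator g t) y).symm
  have h3 : (∫ t, (Ioi (0 : ℝ)).indicator (fun t ↦ g y * g t) t) = g y / 2 := by
    rw [integral_indicator measurableSet_Ioi, integral_const_mul]
    have := Phi_neg_eq 0
    rw [neg_zero, Phi_zero] at this
    rw [← this]; ring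
  rw [h1, h2, ← h3]
  apply integral_mono_of_nonneg
  · exact Eventually.of_forall (fun t ↦ indicator_nonneg (fun t _ ↦ (g_pos t).le) _)
  · exact (g_int.const_mul _).indicator measurableSet_Ioi
  · refine Eventually.of_forall (fun t ↦ ?_)
    show (Ioi y).indicator g (t + y) ≤ (Ioi (0 : ℝ)).indicator (fun t ↦ g y * g t) t
    by_cases ht : 0 < t
    · rw [indicator_of_mem (show t + y ∈ Ioi y by simp [ht]), indicator_of_mem (show t ∈ Ioi 0 from ht)]
      unfold g
      rw [← Real.exp_add]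
      apply Real.exp_le_exp.2
      have : 0 ≤ Real.pi * (t * y) := by positivity
      nlinarith
    · rw [indicator_of_notMem (show t + y ∉ Ioi y by simpa using not_lt.1 ht),
        indicator_of_notMem (show t ∉ Ioi 0 from ht)]

lemma Phi_deriv (y : ℝ) : HasDerivAt Phi (g y) y := by
  have h1 : ∀ z, Phi z = Phi 0 + ∫ t in (0 : ℝ)..z, g t := by
    intro z
    have := intervalIntegral.integral_Iic_sub_Iic (μ := volume) (f := g) (a := 0) (b := z)
      g_int.integrableOn g_int.integrableOn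
    rw [← this, Phi_eq, Phi_eq]; ring
  have h2 : Phi = fun z ↦ Phi 0 + ∫ t in (0 : ℝ)..z, g t := funext h1
  rw [h2]
  exact (intervalIntegral.integral_hasDerivAt_right (g_cont.intervalIntegrable _ _)
    g_cont.aestronglyMeasurable.stronglyMeasurableAtFilter g_cont.continuousAt).const_add _

lemma Phi_cont : Continuous Phi := continuous_iff_continuousAt.2 (fun y ↦ (Phi_deriv y).continuousAt)

lemma g_deriv (y : ℝ) : HasDerivAt g (-(2 * Real.pi * y) * g y) y := by
  unfold g
  have h1 : HasDerivAt (fun t : ℝ ↦ -(Real.pi * t ^ 2)) (-(Real.pi * (2 * y))) y := by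
    have := ((hasDerivAt_pow 2 y).const_mul Real.pi).fun_neg
    simpa using this
  have := h1.exp
  convert this using 1
  ring

noncomputable def G (y : ℝ) : ℝ := y * Phi y + g y / (2 * Real.pi)

lemma G_deriv (y : ℝ) : HasDerivAt G (Phi y) y := by
  have h := ((hasDerivAt_id y).mul (Phi_deriv y)).add ((g_deriv y).div_const (2 * Real.pi))
  have hpi := Real.pi_pos
  have h2 : Phi y = 1 * Phi y + id y * g y + -(2 * Real.pi * y) * g y / (2 * Real.pi) := by
    simp only [id]
    field_simp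
    ring
  rw [h2]
  exact h

lemma Phi_intOn0 : IntegrableOn Phi (Iic 0) := by
  apply Integrable.mono' (g_int.integrableOn (s := Iic 0)) Phi_cont.aestronglyMeasurable
  rw [ae_restrict_iff' measurableSet_Iic]
  refine Eventually.of_forall (fun t ht ↦ ?_)
  rw [Real.norm_of_nonneg (Phi_nonneg t)]
  have := Phi_neg_le (-t) (by simpa using ht)
  rw [neg_neg, g_neg] at this
  linarith [g_pos t]

lemma Phi_intOn (y : ℝ) : IntegrableOn Phi (Iic y) := by
  have h1 : IntegrableOn Phi (Icc 0 y) := Phi_cont.continuousOn.integrableOn_Icc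
  refine (Phi_intOn0.union h1).mono_set ?_
  intro t ht
  rcases le_total t 0 with h | h
  · exact Or.inl h
  · exact Or.inr ⟨h, ht⟩

lemma g_le (t : ℝ) (ht : t ≠ 0) : g t ≤ 1 / (Real.pi * t ^ 2) := by
  unfold g
  have hp : 0 < Real.pi * t ^ 2 := by positivity
  rw [Real.exp_neg, one_div]
  apply inv_anti₀ hp
  linarith [Real.add_one_le_exp (Real.pi * t ^ 2)]

lemma g_tendsto : Tendsto g atBot (𝓝 0) := by
  have h1 : Tendsto (fun t : ℝ ↦ Real.pi * t ^ 2) atBot atTop := by
    apply Tendsto.const_mul_atTop Real.pi_pos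
    have := tendsto_pow_atTop (α := ℝ) (n := 2) (by norm_num)
    have h2 := this.comp tendsto_neg_atBot_atTop
    refine h2.congr (fun t ↦ ?_)
    simp
  have := Real.tendsto_exp_neg_atTop_nhds_zero.comp h1
  exact this

lemma G_tendsto : Tendsto G atBot (𝓝 0) := by
  have h2 : Tendsto (fun y : ℝ ↦ y * Phi y) atBot (𝓝 0) := by
    have h3 : Tendsto (fun y : ℝ ↦ y⁻¹ / (2 * Real.pi)) atBot (𝓝 0) := by
      have := (tendsto_inv_atBot_zero (𝕜 := ℝ)).div_const (2 * Real.pi)
      simpa using this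
    refine tendsto_of_tendsto_of_tendsto_of_le_of_le' h3 tendsto_const_nhds ?_ ?_
    · filter_upwards [eventually_lt_atBot (0 : ℝ)] with y hy
      have h4 := Phi_neg_le (-y) (by linarith)
      rw [neg_neg, g_neg] at h4
      have h5 := g_le y hy.ne
      have h6 : Phi y ≤ 1 / (Real.pi * y ^ 2) / 2 := by linarith
      have h7 : y * (1 / (Real.pi * y ^ 2) / 2) ≤ y * Phi y :=
        mul_le_mul_of_nonpos_left h6 hy.le
      refine le_trans (le_of_eq ?_) h7
      have := Real.pi_pos
      have := hy.ne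
      field_simp
    · filter_upwards [eventually_lt_atBot (0 : ℝ)] with y hy
      exact mul_nonpos_of_nonpos_of_nonneg hy.le (Phi_nonneg y)
  have h4 := h2.add (g_tendsto.div_const (2 * Real.pi))
  rw [zero_div, add_zero] at h4
  exact h4

lemma Hf_eq (y : ℝ) : Hf y = G y := by
  have := integral_Iic_of_hasDerivAt_of_tendsto' (a := y) (f := G) (f' := Phi)
    (fun x _ ↦ G_deriv x) (Phi_intOn y) G_tendsto
  rw [sub_zero] at this
  exact this

lemma Hf_eq' : Hf = G := funext Hf_eq

lemma Hf_nonneg (y : ℝ) : 0 ≤ Hf y :=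
  setIntegral_nonneg measurableSet_Iic (fun t _ ↦ Phi_nonneg t)

lemma Hf_sub (y : ℝ) : Hf y - Hf (-y) = y := by
  rw [Hf_eq, Hf_eq, G, G, g_neg]
  have := Phi_add y
  linear_combination y * this

lemma Hf_neg_le (y : ℝ) (hy : 0 ≤ y) : Hf (-y) ≤ g y / (2 * Real.pi) := by
  rw [Hf_eq, G, g_neg]
  have := mul_nonneg hy (Phi_nonneg (-y))
  linarith

/-! ### the integral representation -/

open Complex in
noncomputable def w (η t : ℝ) : ℂ := (η : ℂ) + t * Complex.I

noncomputable def E (k : ℕ) (η y t : ℝ) : ℂ :=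
  Complex.exp (Real.pi * (w η t) ^ 2 + 2 * Real.pi * w η t * y) / (2 * Real.pi * w η t) ^ k

lemma w_re (η t : ℝ) : (w η t).re = η := by simp [w]

lemma w_ne (η t : ℝ) (hη : 0 < η) : w η t ≠ 0 := by
  intro h
  have := w_re η t
  rw [h] at this
  simp at this
  linarith

lemma w_cont (η : ℝ) : Continuous (w η) := by unfold w; fun_prop

lemma norm_w_ge (η t : ℝ) (hη : 0 < η) : η ≤ ‖w η t‖ := by
  have := Complex.abs_re_le_norm (w η t)
  rw [w_re, abs_of_pos hη] at this
  exact this

lemma norm_E (k : ℕ) (η y t : ℝ) : ‖E k η y t‖ =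
    Real.exp (Real.pi * (η ^ 2 - t ^ 2) + 2 * Real.pi * η * y) / ‖2 * Real.pi * w η t‖ ^ k := by
  unfold E
  rw [norm_div, norm_pow, Complex.norm_exp]
  congr 2
  unfold w
  simp [pow_two]

lemma norm_E_le (k : ℕ) (η y t : ℝ) (hη : 0 < η) : ‖E k η y t‖ ≤
    (Real.exp (Real.pi * η ^ 2) / (2 * Real.pi * η) ^ k) *
      (Real.exp (2 * Real.pi * η * y) * g t) := by
  rw [norm_E]
  have h1 : Real.exp (Real.pi * (η ^ 2 - t ^ 2) + 2 * Real.pi * η * y) =
      Real.exp (Real.pi * η ^ 2) * (Real.exp (2 * Real.pi * η * y) * g t) := by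
    unfold g
    rw [← Real.exp_add, ← Real.exp_add]
    congr 1; ring
  rw [h1, div_mul_eq_mul_div]
  have hpi := Real.pi_pos
  have h2 : 2 * Real.pi * η ≤ ‖2 * Real.pi * w η t‖ := by
    rw [norm_mul, norm_mul]
    simp only [Complex.norm_ofNat, Complex.norm_real, Real.norm_eq_abs, abs_of_pos hpi]
    exact mul_le_mul_of_nonneg_left (norm_w_ge η t hη) (by positivity)
  have h3 : (2 * Real.pi * η) ^ k ≤ ‖2 * Real.pi * w η t‖ ^ k :=
    pow_le_pow_left₀ (by positivity) h2 k
  have h4 : 0 ≤ Real.exp (Real.pi * η ^ 2) * (Real.exp (2 * Real.pi * η * y) * g t) := by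
    have := g_pos t
    positivity
  exact div_le_div_of_nonneg_left h4 (by positivity) h3

lemma E_cont (k : ℕ) (η : ℝ) (hη : 0 < η) : Continuous (fun p : ℝ × ℝ ↦ E k η p.1 p.2) := by
  unfold E
  apply Continuous.div
  · have := w_cont η
    fun_prop
  · have := w_cont η
    fun_prop
  · intro p
    have h1 := w_ne η p.2 hη
    have hpi : (Real.pi : ℂ) ≠ 0 := by exact_mod_cast Real.pi_ne_zero
    exact pow_ne_zero _ (mul_ne_zero (mul_ne_zero two_ne_zero hpi) h1)

lemma E_int (k : ℕ) (η y : ℝ) (hη : 0 < η) : Integrable (E k η y) := by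
  refine Integrable.mono' (((g_int.const_mul (Real.exp (2 * Real.pi * η * y)))).const_mul
    (Real.exp (Real.pi * η ^ 2) / (2 * Real.pi * η) ^ k)) ?_ ?_
  · exact ((E_cont k η hη).comp (by fun_prop : Continuous (fun t : ℝ ↦ (y, t)))).aestronglyMeasurable
  · exact Eventually.of_forall (fun t ↦ norm_E_le k η y t hη)

lemma E_int2 (k : ℕ) (η y : ℝ) (hη : 0 < η) :
    Integrable (Function.uncurry (fun s t : ℝ ↦ E k η s t)) ((volume.restrict (Iic y)).prod volume) := by
  have h1 : IntegrableOn (fun s : ℝ ↦ Real.exp (2 * Real.pi * η * s)) (Iic y) :=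
    integrableOn_exp_mul_Iic (by positivity) y
  have h2 := (Integrable.mul_prod h1 g_int).const_mul
    (Real.exp (Real.pi * η ^ 2) / (2 * Real.pi * η) ^ k)
  refine Integrable.mono' h2 ?_ ?_
  · exact (E_cont k η hη).aestronglyMeasurable
  · exact Eventually.of_forall (fun p ↦ norm_E_le k η p.1 p.2 hη)

lemma E_inner (k : ℕ) (η y t : ℝ) (hη : 0 < η) :
    ∫ s in Iic y, E k η s t = E (k + 1) η y t := by
  have h1 : 0 < (2 * Real.pi * w η t).re := by
    have : (2 * Real.pi * w η t).re = 2 * Real.pi * η := by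
      unfold w
      simp
    rw [this]
    have := Real.pi_pos
    positivity
  have h2 := integral_exp_mul_complex_Iic h1 y
  have h3 : ∀ s : ℝ, E k η s t = Complex.exp (Real.pi * (w η t) ^ 2) / (2 * Real.pi * w η t) ^ k *
      Complex.exp (2 * Real.pi * w η t * s) := by
    intro s
    unfold E
    rw [Complex.exp_add]
    ring
  simp_rw [h3]
  rw [integral_const_mul, h2]
  unfold E
  rw [Complex.exp_add, div_mul_div_comm, pow_succ (2 * ↑Real.pi * w η t) k]

lemma E_succ (k : ℕ) (η y : ℝ) (hη : 0 < η) :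
    ∫ t, E (k + 1) η y t = ∫ s in Iic y, ∫ t, E k η s t := by
  have := integral_integral_swap (μ := volume.restrict (Iic y)) (ν := volume) (E_int2 k η y hη)
  rw [this]
  exact integral_congr_ae (Eventually.of_forall (fun t ↦ (E_inner k η y t hη).symm))

lemma E_zero (η y : ℝ) : ∫ t, E 0 η y t = (g y : ℂ) := by
  have h1 := GaussianFourier.integral_cexp_neg_mul_sq_add_real_mul_I (b := (Real.pi : ℂ)) (by simpa using Real.pi_pos)
    (-(η + y))
  have hpi : (Real.pi : ℂ) ≠ 0 := by exact_mod_cast Real.pi_ne_zero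
  rw [div_self hpi, Complex.one_cpow] at h1
  have h2 : ∀ t : ℝ, E 0 η y t = (g y : ℂ) *
      Complex.exp (-(Real.pi : ℂ) * ((t : ℂ) + ((-(η + y) : ℝ) : ℂ) * Complex.I) ^ 2) := by
    intro t
    unfold E g w
    rw [Complex.ofReal_exp, ← Complex.exp_add, pow_zero, div_one]
    congr 1
    push_cast
    linear_combination (Real.pi * ((η : ℂ) ^ 2 + 2 * η * y + y ^ 2 + t ^ 2)) * Complex.I_sq
  simp_rw [h2]
  rw [integral_const_mul, h1, mul_one]

lemma E_one (η y : ℝ) (hη : 0 < η) : ∫ t, E 1 η y t = (Phi y : ℂ) := by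
  have := E_succ 0 η y hη
  rw [zero_add] at this
  rw [this]
  simp_rw [E_zero]
  rw [Phi_eq]
  exact integral_ofReal

lemma E_two (η y : ℝ) (hη : 0 < η) : ∫ t, E 2 η y t = (Hf y : ℂ) := by
  have := E_succ 1 η y hη
  rw [this]
  simp_rw [E_one η _ hη]
  exact integral_ofReal

end A1

open A1 in
theorem stPhi : StPhi := by
  refine ⟨Phi_add, Phi_nonneg, Phi_mono, Phi_neg_le, Phi_deriv, ?_, Hf_nonneg, Hf_sub, Hf_eq,
    Hf_neg_le, ?_⟩
  · intro y
    rw [Hf_eq']
    exact G_deriv y
  · intro η y hη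
    refine ⟨?_, ?_, ?_⟩
    · have := E_int 1 η y hη
      unfold E w at this
      simpa only [pow_one] using this
    · have := E_one η y hη
      unfold E w at this
      simpa only [pow_one] using this.symm
    · have := E_two η y hη
      unfold E w at this
      exact this.symm

end Pool.Agent.TFS
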