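import Pool.Agent.Lib.TFS.StmtsA

/-!
Group A2: from Gaussian counting to counting with the smoothing function.
Blueprint: team-store `tfs_A.md`.
-/

set_option autoImplicit false

open Finset MeasureTheory

namespace Pool.Agent.TFS

open Pool.Agent.Lib.MP_0e0027_nt

/-- the Gaussian kernel on the vertical line of abscissa `η` -/
private noncomputable def Kn (η y t : ℝ) : ℂ :=
  Complex.exp (Real.pi * ((η : ℂ) + t * Complex.I) ^ 2 +
    2 * Real.pi * ((η : ℂ) + t * Complex.I) * y) / (2 * Real.pi * ((η : ℂ) + t * Complex.I))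

private lemma w_re (η t : ℝ) : ((η : ℂ) + t * Complex.I).re = η := by simp

private lemma w_im (η t : ℝ) : ((η : ℂ) + t * Complex.I).im = t := by simp

private lemma w_ne {η : ℝ} (hη : 0 < η) (t : ℝ) : (η : ℂ) + t * Complex.I ≠ 0 := by
  intro h
  have := congrArg Complex.re h
  rw [w_re] at this
  simp at this
  linarith

private lemma w_norm {η : ℝ} (hη : 0 < η) (t : ℝ) : η ≤ ‖(η : ℂ) + t * Complex.I‖ := by
  have h1 := Complex.abs_re_le_norm ((η : ℂ) + t * Complex.I)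
  rw [w_re, abs_of_pos hη] at h1
  exact h1

private lemma exp_norm (η y t : ℝ) :
    ‖Complex.exp (Real.pi * ((η : ℂ) + t * Complex.I) ^ 2 +
      2 * Real.pi * ((η : ℂ) + t * Complex.I) * y)‖ =
      Real.exp (Real.pi * η ^ 2 + 2 * Real.pi * η * y) * Real.exp (-Real.pi * t ^ 2) := by
  rw [Complex.norm_exp, ← Real.exp_add]
  congr 1
  have h1 : (Real.pi * ((η : ℂ) + t * Complex.I) ^ 2 +
      2 * Real.pi * ((η : ℂ) + t * Complex.I) * y) =
      ((Real.pi * (η ^ 2 - t ^ 2) + 2 * Real.pi * η * y : ℝ) : ℂ) +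
      ((Real.pi * (2 * η * t) + 2 * Real.pi * t * y : ℝ) : ℂ) * Complex.I := by
    have hI : Complex.I ^ 2 = -1 := Complex.I_sq
    push_cast
    linear_combination (Real.pi * (t : ℂ) ^ 2) * hI
  rw [h1]
  simp only [Complex.add_re, Complex.ofReal_re, Complex.mul_re, Complex.I_re, Complex.I_im,
    Complex.ofReal_im]
  ring

private lemma Kn_norm {η : ℝ} (hη : 0 < η) (y t : ℝ) :
    ‖Kn η y t‖ * ‖(η : ℂ) + t * Complex.I‖ / η = Kf η y * Real.exp (-Real.pi * t ^ 2) := by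
  have hw : 0 < ‖(η : ℂ) + t * Complex.I‖ := norm_pos_iff.mpr (w_ne hη t)
  have hpi := Real.pi_pos
  unfold Kn Kf
  rw [norm_div, exp_norm, norm_mul, norm_mul]
  have h2 : ‖(2 : ℂ)‖ = 2 := by simp
  have h3 : ‖(Real.pi : ℂ)‖ = Real.pi := by
    rw [Complex.norm_real, Real.norm_eq_abs, abs_of_pos hpi]
  rw [h2, h3]
  field_simp

private lemma Kn_le {η : ℝ} (hη : 0 < η) (y t : ℝ) :
    ‖Kn η y t‖ ≤ Kf η y * Real.exp (-Real.pi * t ^ 2) := by
  rw [← Kn_norm hη]
  rw [le_div_iff₀ hη]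
  exact mul_le_mul_of_nonneg_left (w_norm hη t) (norm_nonneg _)

private lemma Kf_pos {η : ℝ} (hη : 0 < η) (y : ℝ) : 0 < Kf η y := by
  unfold Kf
  have := Real.pi_pos
  positivity

private lemma gauss_int : Integrable (fun t : ℝ ↦ Real.exp (-Real.pi * t ^ 2)) :=
  integrable_exp_neg_mul_sq Real.pi_pos

private lemma gauss_one : ∫ t : ℝ, Real.exp (-Real.pi * t ^ 2) = 1 := by
  rw [integral_gaussian, div_self Real.pi_pos.ne', Real.sqrt_one]

private lemma Kn_cont {η : ℝ} (hη : 0 < η) (y : ℝ) : Continuous (Kn η y) := by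
  unfold Kn
  refine Continuous.div (by fun_prop) (by fun_prop) ?_
  intro t
  have := w_ne hη t
  have hpi : (Real.pi : ℂ) ≠ 0 := by exact_mod_cast Real.pi_pos.ne'
  exact mul_ne_zero (mul_ne_zero two_ne_zero hpi) this

private lemma Kn_shift {η σ : ℝ} (hσ : 0 < σ) (X t : ℝ) (N : ℤ) :
    Kn η ((X - N) / σ) t = Kn η (X / σ) t *
      Complex.exp (-(Real.pi * (2 * ((η : ℂ) + t * Complex.I) / σ) * (N : ℂ))) := by
  unfold Kn
  rw [div_mul_eq_mul_div, ← Complex.exp_add]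
  congr 2
  have hs : (σ : ℂ) ≠ 0 := by exact_mod_cast hσ.ne'
  push_cast
  field_simp
  ring

private instance : Countable GI := by
  have : Function.Injective (fun x : GI ↦ ((x.re, x.im) : ℤ × ℤ)) := by
    intro x y hxy
    have h1 : x.re = y.re := congrArg Prod.fst hxy
    have h2 : x.im = y.im := congrArg Prod.snd hxy
    exact Zsqrtd.ext h1 h2
  exact this.countable

private lemma Kf_summable {W : Set GI} {D₀ E₀ : ℝ} (hGC : GC W D₀ E₀) (X : ℝ) {σ η : ℝ}
    (hσ : 0 < σ) (hη : 0 < η) :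
    Summable (fun x : W ↦ Kf η ((X - (N2 x : ℝ)) / σ)) := by
  have hz : 0 < ((2 * η / σ : ℝ) : ℂ).re := by
    rw [Complex.ofReal_re]; positivity
  have h1 := (hGC ((2 * η / σ : ℝ) : ℂ) hz).1.norm.mul_left (Kf η (X / σ))
  refine h1.congr ?_
  intro x
  rw [Complex.norm_exp]
  have h2 : (-((Real.pi : ℂ) * ((2 * η / σ : ℝ) : ℂ) * ((N2 (x : GI) : ℤ) : ℂ))) =
      ((-(Real.pi * (2 * η / σ) * (N2 (x : GI) : ℝ)) : ℝ) : ℂ) := by
    push_cast
    ring
  rw [h2, Complex.ofReal_re]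
  unfold Kf
  rw [div_mul_eq_mul_div, ← Real.exp_add]
  congr 2
  field_simp
  ring

/-- A2: superposition of Gaussians -/
theorem stD (h : StPhi) : StD := by
  obtain ⟨-, hnn, -, -, -, -, -, -, -, -, hint⟩ := h
  intro W D₀ E₀ hGC hE X σ hσ
  have hI : ∀ η y : ℝ, 0 < η → Integrable (Kn η y) := fun η y hη ↦ (hint η y hη).1
  have hP : ∀ η y : ℝ, 0 < η → (Phi y : ℂ) = ∫ t : ℝ, Kn η y t := fun η y hη ↦ (hint η y hη).2.1
  have hKint : ∀ η y : ℝ, 0 < η → ∫ t : ℝ, ‖Kn η y t‖ ≤ Kf η y := by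
    intro η y hη
    calc ∫ t : ℝ, ‖Kn η y t‖ ≤ ∫ t : ℝ, Kf η y * Real.exp (-Real.pi * t ^ 2) :=
          integral_mono (hI η y hη).norm (gauss_int.const_mul _) (fun t ↦ Kn_le hη y t)
      _ = Kf η y := by rw [integral_const_mul, gauss_one, mul_one]
  have hPhi : ∀ η y : ℝ, 0 < η → Phi y ≤ Kf η y := by
    intro η y hη
    have h1 : ‖(Phi y : ℂ)‖ ≤ Kf η y := by
      rw [hP η y hη]
      exact (norm_integral_le_integral_norm _).trans (hKint η y hη)
    rw [Complex.norm_real, Real.norm_eq_abs] at h1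
    exact (le_abs_self _).trans h1
  have hsum : Summable (fun x : W ↦ Phi ((X - (N2 x : ℝ)) / σ)) :=
    Summable.of_nonneg_of_le (fun x ↦ hnn _) (fun x ↦ hPhi 1 _ one_pos)
      (Kf_summable hGC X hσ one_pos)
  refine ⟨hsum, ?_⟩
  intro η hη
  set Y : ℝ := X / σ with hY
  -- exchange of sum and integral
  have hKs := Kf_summable hGC X hσ hη
  have hex : HasSum (fun x : W ↦ ∫ t : ℝ, Kn η ((X - (N2 x : ℝ)) / σ) t)
      (∫ t : ℝ, ∑' x : W, Kn η ((X - (N2 x : ℝ)) / σ) t) := by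
    apply hasSum_integral_of_summable_integral_norm
    · exact fun x ↦ hI η _ hη
    · exact Summable.of_nonneg_of_le (fun x ↦ integral_nonneg fun t ↦ norm_nonneg _)
        (fun x ↦ hKint η _ hη) hKs
  have hS1 : (((∑' x : W, Phi ((X - (N2 x : ℝ)) / σ)) : ℝ) : ℂ) =
      ∫ t : ℝ, ∑' x : W, Kn η ((X - (N2 x : ℝ)) / σ) t := by
    rw [← hex.tsum_eq, Complex.ofReal_tsum]
    exact tsum_congr fun x ↦ hP η _ hη
  -- the summed kernel
  have hFt : ∀ t : ℝ, Summable (fun x : W ↦ Kn η ((X - (N2 x : ℝ)) / σ) t) := by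
    intro t
    refine Summable.of_norm_bounded hKs ?_
    intro x
    refine (Kn_le hη _ t).trans ?_
    have h1 : Real.exp (-Real.pi * t ^ 2) ≤ 1 := by
      rw [Real.exp_le_one_iff]
      nlinarith [Real.pi_pos, sq_nonneg t]
    exact mul_le_of_le_one_right (Kf_pos hη _).le h1
  have hcont : Continuous (fun t : ℝ ↦ ∑' x : W, Kn η ((X - (N2 x : ℝ)) / σ) t) := by
    refine continuous_tsum (fun x ↦ Kn_cont hη _) hKs ?_
    intro x t
    refine (Kn_le hη _ t).trans ?_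
    have h1 : Real.exp (-Real.pi * t ^ 2) ≤ 1 := by
      rw [Real.exp_le_one_iff]
      nlinarith [Real.pi_pos, sq_nonneg t]
    exact mul_le_of_le_one_right (Kf_pos hη _).le h1
  have hintS : Integrable (fun t : ℝ ↦ ∑' x : W, Kn η ((X - (N2 x : ℝ)) / σ) t) := by
    refine Integrable.mono' (gauss_int.const_mul (∑' x : W, Kf η ((X - (N2 x : ℝ)) / σ)))
      hcont.aestronglyMeasurable ?_
    refine Filter.Eventually.of_forall fun t ↦ ?_
    rw [← tsum_mul_right]
    refine tsum_of_norm_bounded (hKs.mul_right _).hasSum ?_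
    exact fun x ↦ Kn_le hη _ t
  -- the main term
  have hm1 : ((D₀ * Real.pi * σ * Hf Y : ℝ) : ℂ) =
      ∫ t : ℝ, Kn η Y t * (D₀ / (2 * ((η : ℂ) + t * Complex.I) / σ)) := by
    have h1 := (hint η Y hη).2.2
    push_cast
    rw [h1, ← integral_const_mul]
    refine integral_congr_ae (Filter.Eventually.of_forall fun t ↦ ?_)
    have hw := w_ne hη t
    have hpi : (Real.pi : ℂ) ≠ 0 := by exact_mod_cast Real.pi_pos.ne'
    have hs : (σ : ℂ) ≠ 0 := by exact_mod_cast hσ.ne'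
    simp only [Kn]
    generalize Complex.exp (Real.pi * ((η : ℂ) + t * Complex.I) ^ 2 +
      2 * Real.pi * ((η : ℂ) + t * Complex.I) * Y) = E
    generalize (η : ℂ) + t * Complex.I = w at hw
    field_simp
  have hm2 : Integrable (fun t : ℝ ↦ Kn η Y t * (D₀ / (2 * ((η : ℂ) + t * Complex.I) / σ))) := by
    have hc : Continuous (fun t : ℝ ↦ Kn η Y t * (D₀ / (2 * ((η : ℂ) + t * Complex.I) / σ))) := by
      refine (Kn_cont hη Y).mul (Continuous.div continuous_const (by fun_prop) ?_)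
      intro t
      have hw := w_ne hη t
      have hs : (σ : ℂ) ≠ 0 := by exact_mod_cast hσ.ne'
      exact div_ne_zero (mul_ne_zero two_ne_zero hw) hs
    refine Integrable.mono' ((hI η Y hη).norm.mul_const (|D₀| * σ / (2 * η)))
      hc.aestronglyMeasurable ?_
    refine Filter.Eventually.of_forall fun t ↦ ?_
    rw [norm_mul]
    refine mul_le_mul_of_nonneg_left ?_ (norm_nonneg _)
    rw [norm_div, norm_div, norm_mul, Complex.norm_real, Complex.norm_real, Real.norm_eq_abs,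
      Real.norm_eq_abs, abs_of_pos hσ]
    have h2 : ‖(2 : ℂ)‖ = 2 := by simp
    rw [h2, div_div_eq_mul_div]
    have := w_norm hη t
    gcongr
  have hdiff : (((∑' x : W, Phi ((X - (N2 x : ℝ)) / σ)) - D₀ * Real.pi * σ * Hf Y : ℝ) : ℂ) =
      ∫ t : ℝ, ((∑' x : W, Kn η ((X - (N2 x : ℝ)) / σ) t) -
        Kn η Y t * (D₀ / (2 * ((η : ℂ) + t * Complex.I) / σ))) := by
    rw [integral_sub hintS hm2, ← hS1, ← hm1]
    push_cast
    rfl
  have hfin : ‖(((∑' x : W, Phi ((X - (N2 x : ℝ)) / σ)) -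
      D₀ * Real.pi * σ * Hf Y : ℝ) : ℂ)‖ ≤ E₀ * Kf η Y := by
    rw [hdiff]
    have hb : ∀ t : ℝ, ‖(∑' x : W, Kn η ((X - (N2 x : ℝ)) / σ) t) -
        Kn η Y t * (D₀ / (2 * ((η : ℂ) + t * Complex.I) / σ))‖ ≤
        E₀ * Kf η Y * Real.exp (-Real.pi * t ^ 2) := by
      intro t
      have h1 : ∑' x : W, Kn η ((X - (N2 x : ℝ)) / σ) t =
          Kn η Y t * ∑' x : W, Complex.exp (-(Real.pi * (2 * ((η : ℂ) + t * Complex.I) / σ) *
            ((N2 (x : GI) : ℤ) : ℂ))) := by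
        rw [← tsum_mul_left]
        exact tsum_congr fun x ↦ Kn_shift hσ X t (N2 x)
      have hre : (2 * ((η : ℂ) + t * Complex.I) / σ).re = 2 * η / σ := by
        rw [Complex.div_ofReal_re]
        simp
      have hz : 0 < (2 * ((η : ℂ) + t * Complex.I) / σ).re := by
        rw [hre]; positivity
      have h2 := (hGC _ hz).2
      rw [h1, ← mul_sub, norm_mul]
      calc ‖Kn η Y t‖ * _ ≤ ‖Kn η Y t‖ * (E₀ * (‖2 * ((η : ℂ) + t * Complex.I) / σ‖ /
            (2 * ((η : ℂ) + t * Complex.I) / σ).re)) :=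
            mul_le_mul_of_nonneg_left h2 (norm_nonneg _)
        _ = E₀ * (‖Kn η Y t‖ * ‖(η : ℂ) + t * Complex.I‖ / η) := by
            rw [hre, norm_div, norm_mul, Complex.norm_real, Real.norm_eq_abs, abs_of_pos hσ]
            have h2 : ‖(2 : ℂ)‖ = 2 := by simp
            rw [h2]
            field_simp
        _ = E₀ * Kf η Y * Real.exp (-Real.pi * t ^ 2) := by
            rw [Kn_norm hη]; ring
    refine (norm_integral_le_of_norm_le (gauss_int.const_mul (E₀ * Kf η Y))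
      (Filter.Eventually.of_forall hb)).trans ?_
    rw [integral_const_mul, gauss_one, mul_one]
  rw [Complex.norm_real, Real.norm_eq_abs] at hfin
  exact hfin

end Pool.Agent.TFS
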