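import Pool.Agent.Lib.TFS.StmtsA

/-!
A3: the identity of divisor switching (blueprint: team-store `tfs_A.md`).
-/

set_option autoImplicit false

open Finset MeasureTheory

namespace Pool.Agent.TFS

open Pool.Agent.Lib.MP_0e0027_nt

theorem A3.ch_c4 (n : ℕ) : ch n = (c4 n : ℝ) := rfl

theorem A3.ch_abs (n : ℕ) : |ch n| ≤ 1 := by
  rw [A3.ch_c4]
  exact_mod_cast abs_c4_le n

/-- the switching identity for one number -/
theorem A3.switch (hP : ∀ y : ℝ, Phi y + Phi (-y) = 1) (a : ℤ) (ha : a % 4 = 1) (Δ : ℝ) :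
    ∑ d ∈ a.natAbs.divisors, ch d * Phi (((a : ℝ) / d - d) / Δ) =
      if 0 < a then (R2 a.natAbs : ℝ) / 2 else 0 := by
  set n := a.natAbs with hn
  have hn0 : n ≠ 0 := by
    rw [hn, Int.natAbs_ne_zero]
    rintro rfl
    simp at ha
  have hnodd : n % 2 = 1 := by omega
  -- the swapped sum
  have hswap : ∑ d ∈ n.divisors, ch d * Phi (((a : ℝ) / d - d) / Δ) =
      ∑ d ∈ n.divisors, ch (n / d) * Phi (((a : ℝ) / ((n / d : ℕ) : ℝ) - ((n / d : ℕ) : ℝ)) / Δ) :=
    (Nat.sum_div_divisors n (fun d ↦ ch d * Phi (((a : ℝ) / d - d) / Δ))).symm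
  have hfac : ∀ d ∈ n.divisors, d * (n / d) = n ∧ d % 2 = 1 ∧ 0 < d ∧ 0 < n / d := by
    intro d hd
    have h1 := Nat.dvd_of_mem_divisors hd
    have h2 : d * (n / d) = n := Nat.mul_div_cancel' h1
    have h3 : d % 2 = 1 := by
      have : Odd d := (Nat.odd_iff.mpr hnodd).of_dvd_nat h1
      exact Nat.odd_iff.mp this
    refine ⟨h2, h3, by omega, ?_⟩
    apply Nat.pos_of_ne_zero
    intro h
    rw [h, mul_zero] at h2
    exact hn0 h2.symm
  have hch : ∀ d ∈ n.divisors, ch (n / d) = ch n * ch d := by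
    intro d hd
    obtain ⟨h1, h2, _, _⟩ := hfac d hd
    have h3 : ch n = ch d * ch (n / d) := by
      conv_lhs => rw [← h1]
      rw [A3.ch_c4, A3.ch_c4, A3.ch_c4, c4_mul]
      push_cast
      rfl
    have h4 : ch d * ch d = 1 := by
      rw [A3.ch_c4]
      exact_mod_cast c4_sq_odd h2
    rw [h3]
    linear_combination (-ch (n / d)) * h4
  split_ifs with hpos
  · have han : (a : ℝ) = n := by
      rw [hn]
      have : ((a.natAbs : ℤ) : ℝ) = (a : ℝ) := by rw [Int.natAbs_of_nonneg hpos.le]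
      rw [← this]
      simp
    have hn4 : n % 4 = 1 := by omega
    have hchn : ch n = 1 := by
      rw [A3.ch_c4, c4_of_one hn4]; simp
    have h2 : ∑ d ∈ n.divisors, ch d * Phi (((a : ℝ) / d - d) / Δ) +
        ∑ d ∈ n.divisors, ch d * Phi (((a : ℝ) / d - d) / Δ) = (R2 n : ℝ) := by
      nth_rewrite 2 [hswap]
      rw [← sum_add_distrib]
      unfold R2
      rw [Int.cast_sum]
      refine sum_congr rfl (fun d hd ↦ ?_)
      obtain ⟨h1, _, hd0, hd1⟩ := hfac d hd
      have hd0' : (0 : ℝ) < d := by exact_mod_cast hd0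
      have hd1' : (0 : ℝ) < ((n / d : ℕ) : ℝ) := by exact_mod_cast hd1
      have h1' : (n : ℝ) = (d : ℝ) * ((n / d : ℕ) : ℝ) := by exact_mod_cast h1.symm
      rw [hch d hd, hchn, one_mul, ← mul_add, han]
      have e1 : (n : ℝ) / d = ((n / d : ℕ) : ℝ) := by
        rw [h1']
        field_simp
      have e2 : (n : ℝ) / ((n / d : ℕ) : ℝ) = d := by
        rw [div_eq_iff hd1'.ne']
        exact h1'
      rw [e1, e2]
      have e3 : ((d : ℝ) - ((n / d : ℕ) : ℝ)) / Δ = -((((n / d : ℕ) : ℝ) - d) / Δ) := by ring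
      rw [e3, hP, mul_one]
      rfl
    linarith
  · have hneg : a < 0 := by
      rcases lt_trichotomy a 0 with h | h | h
      · exact h
      · rw [h] at ha; simp at ha
      · exact absurd h hpos
    have han : (a : ℝ) = -n := by
      rw [hn]
      have : ((a.natAbs : ℤ) : ℝ) = -(a : ℝ) := by
        rw [Int.ofNat_natAbs_of_nonpos hneg.le]
        push_cast
        rfl
      have h2 : (a : ℝ) = -((a.natAbs : ℤ) : ℝ) := by rw [this]; ring
      rw [h2]
      simp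
    have hn4 : n % 4 = 3 := by omega
    have hchn : ch n = -1 := by
      rw [A3.ch_c4, c4_of_three hn4]; simp
    have h2 : ∑ d ∈ n.divisors, ch d * Phi (((a : ℝ) / d - d) / Δ) +
        ∑ d ∈ n.divisors, ch d * Phi (((a : ℝ) / d - d) / Δ) = 0 := by
      nth_rewrite 2 [hswap]
      rw [← sum_add_distrib]
      apply sum_eq_zero
      intro d hd
      obtain ⟨h1, _, hd0, hd1⟩ := hfac d hd
      have hd0' : (0 : ℝ) < d := by exact_mod_cast hd0
      have hd1' : (0 : ℝ) < ((n / d : ℕ) : ℝ) := by exact_mod_cast hd1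
      have h1' : (n : ℝ) = (d : ℝ) * ((n / d : ℕ) : ℝ) := by exact_mod_cast h1.symm
      rw [hch d hd, hchn, han]
      have e1 : (-(n : ℝ)) / d = -((n / d : ℕ) : ℝ) := by
        rw [h1']
        field_simp
      have e2 : (-(n : ℝ)) / ((n / d : ℕ) : ℝ) = -d := by
        rw [div_eq_iff hd1'.ne', h1']
        ring
      rw [e1, e2]
      have e3 : (-(d : ℝ) - ((n / d : ℕ) : ℝ)) / Δ = (-((n / d : ℕ) : ℝ) - d) / Δ := by ring
      rw [e3]
      ring
    linarith

/-! ### Summability of Gaussians -/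

theorem A3.summable_nat (c : ℝ) (hc : 0 < c) : Summable (fun n : ℕ ↦ Real.exp (-(c * (n : ℝ) ^ 2))) := by
  have h1 : Summable (fun n : ℕ ↦ (Real.exp (-c)) ^ n) :=
    summable_geometric_of_lt_one (Real.exp_pos _).le (by
      rw [Real.exp_lt_one_iff]; linarith)
  refine Summable.of_nonneg_of_le (fun n ↦ (Real.exp_pos _).le) (fun n ↦ ?_) h1
  rw [← Real.exp_nat_mul]
  apply Real.exp_le_exp.mpr
  have h2 : (n : ℝ) ≤ (n : ℝ) ^ 2 := by
    have : n ≤ n ^ 2 := Nat.le_self_pow (by norm_num) n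
    exact_mod_cast this
  nlinarith

theorem A3.summable_int (c : ℝ) (hc : 0 < c) : Summable (fun n : ℤ ↦ Real.exp (-(c * (n : ℝ) ^ 2))) := by
  apply Summable.of_nat_of_neg
  · simpa using A3.summable_nat c hc
  · simpa using A3.summable_nat c hc

/-- pairs of integers are Gaussian integers -/
def A3.eGI : ℤ × ℤ ≃ GI where
  toFun z := ⟨z.1, z.2⟩
  invFun x := (x.re, x.im)
  left_inv _ := rfl
  right_inv _ := rfl

theorem A3.summable_GI (c : ℝ) (hc : 0 < c) :
    Summable (fun x : GI ↦ Real.exp (-(c * (N2 x : ℝ)))) := by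
  rw [← A3.eGI.summable_iff]
  have h1 := (A3.summable_int c hc).mul_of_nonneg (A3.summable_int c hc)
    (fun _ ↦ (Real.exp_pos _).le) (fun _ ↦ (Real.exp_pos _).le)
  refine h1.congr (fun z ↦ ?_)
  simp only [Function.comp, A3.eGI, Equiv.coe_fn_mk, N2]
  rw [← Real.exp_add]
  congr 1
  push_cast
  ring

/-! ### The class -/

/-- the class of `x` -/
def A3.W1 (par m p ν : ℕ) : Set GI := {x | UP par x ∧ UM m x ∧ (p : ℤ) ^ 2 ∣ (ν : ℤ) - N2 x ∧ ¬ dv p x}

theorem A3.exists_a {par m κ p ν : ℕ} (hp : p % 2 = 1) (hH : HypU par m κ ν) {x : GI}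
    (hx : x ∈ A3.W1 par m p ν) : ∃ a : ℤ, (ν : ℤ) - N2 x = κ * p ^ 2 * a ∧ a % 4 = 1 ∧
      (m ≠ 0 → ¬ (3 : ℤ) ∣ a) ∧ 0 < κ ∧ κ ≤ 2 := by
  obtain ⟨hUP, hUM, ⟨t, ht⟩, _⟩ := hx
  obtain ⟨hH1, hH2⟩ := hH
  have hp8 : ((p : ℤ) ^ 2) % 8 = 1 := by
    have h1 : (p : ℤ) % 8 = 1 ∨ (p : ℤ) % 8 = 3 ∨ (p : ℤ) % 8 = 5 ∨ (p : ℤ) % 8 = 7 := by omega
    rw [sq, Int.mul_emod]
    rcases h1 with h | h | h | h <;> rw [h] <;> norm_num
  obtain ⟨u, hu⟩ : ∃ u : ℤ, (p : ℤ) ^ 2 = 8 * u + 1 := ⟨(p : ℤ) ^ 2 / 8, by omega⟩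
  have ht8 : ((ν : ℤ) - N2 x) % 8 = t % 8 := by
    rw [ht, hu]
    have : (8 * u + 1) * t = 8 * (u * t) + t := by ring
    rw [this]
    omega
  have h3 : m ≠ 0 → ¬ (3 : ℤ) ∣ (ν : ℤ) - N2 x := by
    intro hm
    unfold UM at hUM
    rcases hH2 with h | ⟨h, h'⟩ | ⟨h, h'⟩ | ⟨h, h'⟩
    · exact absurd h hm
    · subst h
      simp only [if_true] at hUM
      omega
    · subst h
      rw [if_neg (by norm_num), if_pos rfl] at hUM
      omega
    · subst h
      rw [if_neg (by norm_num), if_neg (by norm_num), if_pos rfl] at hUM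
      omega
  have hmod4 : par = 4 → N2 x % 4 = 1 := by
    intro h
    subst h
    unfold UP at hUP
    rw [if_neg (by norm_num), if_neg (by norm_num), if_neg (by norm_num), if_pos rfl] at hUP
    unfold N2 at hUP ⊢
    have sq4 : ∀ y : ℤ, y ^ 2 % 4 = 0 ∨ y ^ 2 % 4 = 1 := by
      intro y
      have h1 : y % 4 = 0 ∨ y % 4 = 1 ∨ y % 4 = 2 ∨ y % 4 = 3 := by omega
      rw [sq, Int.mul_emod]
      rcases h1 with h | h | h | h <;> rw [h] <;> norm_num
    rcases sq4 x.re with h1 | h1 <;> rcases sq4 x.im with h2 | h2 <;> omega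
  rcases hH1 with ⟨h1, h2, h4⟩ | ⟨h1, h2, h4⟩ | ⟨h1, h2, h4⟩ | ⟨h1, h2, h4⟩
  · subst h1; subst h2
    unfold UP at hUP
    rw [if_pos rfl] at hUP
    refine ⟨t, by rw [ht]; push_cast; ring, by omega, ?_, by norm_num, by norm_num⟩
    intro hm h
    exact h3 hm (by rw [ht]; exact Dvd.dvd.mul_left h _)
  · subst h1; subst h2
    unfold UP at hUP
    rw [if_neg (by norm_num), if_pos rfl] at hUP
    obtain ⟨a, ha⟩ : ∃ a : ℤ, t = 2 * a := ⟨t / 2, by omega⟩
    refine ⟨a, by rw [ht, ha]; push_cast; ring, by omega, ?_, by norm_num, by norm_num⟩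
    intro hm h
    exact h3 hm (by rw [ht, ha]; exact Dvd.dvd.mul_left (Dvd.dvd.mul_left h _) _)
  · subst h1; subst h2
    unfold UP at hUP
    rw [if_neg (by norm_num), if_neg (by norm_num), if_pos rfl] at hUP
    obtain ⟨a, ha⟩ : ∃ a : ℤ, t = 2 * a := ⟨t / 2, by omega⟩
    refine ⟨a, by rw [ht, ha]; push_cast; ring, by omega, ?_, by norm_num, by norm_num⟩
    intro hm h
    exact h3 hm (by rw [ht, ha]; exact Dvd.dvd.mul_left (Dvd.dvd.mul_left h _) _)
  · have h5 := hmod4 h1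
    subst h2
    refine ⟨t, by rw [ht]; push_cast; ring, by omega, ?_, by norm_num, by norm_num⟩
    intro hm h
    exact h3 hm (by rw [ht]; exact Dvd.dvd.mul_left h _)

/-- the moduli are the divisors -/
theorem A3.mem_iff {par m κ p ν : ℕ} (hp : p % 2 = 1) {x : GI}
    (hx : x ∈ A3.W1 par m p ν) {a : ℤ} (ha : (ν : ℤ) - N2 x = κ * p ^ 2 * a) (ha4 : a % 4 = 1)
    (ha3 : m ≠ 0 → ¬ (3 : ℤ) ∣ a) (hκ : 0 < κ) (hκ2 : κ ≤ 2) (d : ℕ) :
    (DD m d ∧ x ∈ WU par m ν p (p ^ 2 * d)) ↔ d ∈ a.natAbs.divisors := by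
  have hp0 : 0 < p := by omega
  have hpp : (0 : ℤ) < (p : ℤ) ^ 2 := by positivity
  have ha0 : a ≠ 0 := by rintro rfl; simp at ha4
  rw [Nat.mem_divisors]
  have key : (((p ^ 2 * d : ℕ) : ℤ) ∣ (ν : ℤ) - N2 x) ↔ (d : ℤ) ∣ κ * a := by
    rw [ha]
    have e1 : ((p ^ 2 * d : ℕ) : ℤ) = (p : ℤ) ^ 2 * d := by push_cast; ring
    have e2 : (κ : ℤ) * (p : ℤ) ^ 2 * a = (p : ℤ) ^ 2 * (κ * a) := by ring
    rw [e1, e2]
    exact mul_dvd_mul_iff_left hpp.ne'
  constructor
  · rintro ⟨⟨hd2, _⟩, hxW⟩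
    refine ⟨?_, Int.natAbs_ne_zero.mpr ha0⟩
    have h1 := key.mp hxW.2.2.1
    have hcop : IsCoprime (d : ℤ) (κ : ℤ) := by
      rw [Nat.isCoprime_iff_coprime]
      have : κ = 1 ∨ κ = 2 := by omega
      rcases this with h | h
      · rw [h]; exact Nat.coprime_one_right d
      · rw [h]; exact (Nat.coprime_two_right).mpr (Nat.odd_iff.mpr hd2)
    have h2 := hcop.dvd_of_dvd_mul_left h1
    exact Int.natCast_dvd.mp h2
  · rintro ⟨hd, _⟩
    have h1 : (d : ℤ) ∣ a := Int.natCast_dvd.mpr hd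
    refine ⟨⟨?_, ?_⟩, hx.1, hx.2.1, key.mpr (Dvd.dvd.mul_left h1 _), hx.2.2.2⟩
    · have : ¬ 2 ∣ d := by
        intro h
        have h2 : (2 : ℤ) ∣ a := dvd_trans (by exact_mod_cast h) h1
        omega
      omega
    · intro hm h3
      apply ha3 hm
      exact dvd_trans (by exact_mod_cast Nat.dvd_of_mod_eq_zero h3) h1

theorem stSW (h : StPhi) : StSW := by
  intro par m κ p ν _ hp2 hmp hH Δ hΔ
  classical
  have hpr : p.Prime := Fact.out
  have hp : p % 2 = 1 := Nat.odd_iff.mp (hpr.odd_of_ne_two hp2)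
  have hPP := h.1
  have hP0 := h.2.1
  have hPe := h.2.2.2.1
  have hP1 : ∀ y, Phi y ≤ 1 := fun y ↦ by
    have h1 := hPP y
    have h2 := hP0 (-y)
    linarith
  have hκ : 0 < κ := by
    rcases hH.1 with ⟨_, h2, _⟩ | ⟨_, h2, _⟩ | ⟨_, h2, _⟩ | ⟨_, h2, _⟩ <;> omega
  have hκ' : (0 : ℝ) < κ := by exact_mod_cast hκ
  have hp' : (0 : ℝ) < p := by exact_mod_cast hpr.pos
  -- a choice of `a`
  have hex : ∀ x : GI, ∃ a : ℤ, x ∈ A3.W1 par m p ν → ((ν : ℤ) - N2 x = κ * p ^ 2 * a ∧ a % 4 = 1 ∧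
      (m ≠ 0 → ¬ (3 : ℤ) ∣ a) ∧ 0 < κ ∧ κ ≤ 2) := by
    intro x
    by_cases hx : x ∈ A3.W1 par m p ν
    · obtain ⟨a, ha⟩ := A3.exists_a hp hH hx
      exact ⟨a, fun _ ↦ ha⟩
    · exact ⟨0, fun h ↦ absurd h hx⟩
  choose a ha using hex
  have hWW : ∀ d x, x ∈ WU par m ν p (p ^ 2 * d) → x ∈ A3.W1 par m p ν := by
    intro d x hx
    refine ⟨hx.1, hx.2.1, dvd_trans ?_ hx.2.2.1, hx.2.2.2⟩
    push_cast
    exact dvd_mul_right _ _
  have hiff : ∀ d x, x ∈ A3.W1 par m p ν →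
      ((DD m d ∧ x ∈ WU par m ν p (p ^ 2 * d)) ↔ d ∈ (a x).natAbs.divisors) := by
    intro d x hx
    obtain ⟨h1, h2, h3, h4, h5⟩ := ha x hx
    exact A3.mem_iff hp hx h1 h2 h3 h4 h5 d
  -- the argument
  have harg : ∀ (d : ℕ) (x : GI), 0 < d → x ∈ A3.W1 par m p ν →
      ((ν : ℝ) - (N2 x : ℝ) - κ * p ^ 2 * d ^ 2) / (κ * p ^ 2 * d * Δ) =
        (((a x : ℤ) : ℝ) / d - d) / Δ := by
    intro d x hd hx
    have hd' : (0 : ℝ) < d := by exact_mod_cast hd
    have h1 : (ν : ℝ) - (N2 x : ℝ) = κ * p ^ 2 * ((a x : ℤ) : ℝ) := by exact_mod_cast (ha x hx).1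
    rw [h1]
    field_simp
  set F : ℕ × GI → ℝ := fun z ↦ if DD m z.1 ∧ z.2 ∈ WU par m ν p (p ^ 2 * z.1) then
    ch z.1 * Phi (((ν : ℝ) - (N2 z.2 : ℝ) - κ * p ^ 2 * z.1 ^ 2) / (κ * p ^ 2 * z.1 * Δ)) else 0 with hF
  -- summability
  set c2 : ℝ := Real.pi / Δ ^ 2 with hc2
  have hc2pos : 0 < c2 := by positivity
  set c1 : ℝ := 2 * c2 / (κ * p ^ 2) with hc1
  have hc1pos : 0 < c1 := by positivity
  have hbound : ∀ z : ℕ × GI, ‖F z‖ ≤ Real.exp (c1 * ν + c2 * ν ^ 2) *
      (Real.exp (-(c2 * (z.1 : ℝ) ^ 2)) * Real.exp (-(c1 * (N2 z.2 : ℝ)))) := by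
    rintro ⟨d, x⟩
    simp only [hF]
    split_ifs with hc
    · have hx := hWW d x hc.2
      have hdm := (hiff d x hx).mp hc
      have hd1 := Nat.dvd_of_mem_divisors hdm
      have hd0 : 0 < d := by
        have := hc.1.1
        omega
      have hd' : (0 : ℝ) < d := by exact_mod_cast hd0
      rw [harg d x hd0 hx]
      obtain ⟨h1, h2, _, _, _⟩ := ha x hx
      have h1' : (ν : ℝ) - (N2 x : ℝ) = κ * p ^ 2 * ((a x : ℤ) : ℝ) := by exact_mod_cast h1
      rw [norm_mul, Real.norm_eq_abs, Real.norm_eq_abs, abs_of_nonneg (hP0 _)]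
      have hstep : |ch d| * Phi ((((a x : ℤ) : ℝ) / d - d) / Δ) ≤ Phi ((((a x : ℤ) : ℝ) / d - d) / Δ) := by
        calc _ ≤ 1 * Phi ((((a x : ℤ) : ℝ) / d - d) / Δ) :=
              mul_le_mul_of_nonneg_right (A3.ch_abs d) (hP0 _)
          _ = _ := one_mul _
      refine le_trans hstep ?_
      rw [← Real.exp_add, ← Real.exp_add]
      rcases lt_or_ge 0 (a x) with hpos | hneg
      · refine le_trans (hP1 _) ?_
        rw [← Real.exp_zero]
        apply Real.exp_le_exp.mpr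
        have hapos : (1 : ℝ) ≤ ((a x : ℤ) : ℝ) := by exact_mod_cast hpos
        have h3 : (0 : ℝ) ≤ (ν : ℝ) - (N2 x : ℝ) := by rw [h1']; positivity
        have h4 : (d : ℝ) ≤ ν := by
          have h5 : (d : ℤ) ≤ a x := Int.le_of_dvd hpos (Int.natCast_dvd.mpr hd1)
          have h6 : (d : ℝ) ≤ ((a x : ℤ) : ℝ) := by exact_mod_cast h5
          have h7 : (0 : ℝ) ≤ (N2 x : ℝ) := by
            unfold N2; push_cast; positivity
          have h8 : (1 : ℝ) ≤ κ * p ^ 2 := by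
            have : 1 ≤ κ * p ^ 2 := Nat.mul_pos hκ (pow_pos hpr.pos 2)
            exact_mod_cast this
          nlinarith
        have h5 : (d : ℝ) ^ 2 ≤ (ν : ℝ) ^ 2 := by gcongr
        nlinarith
      · have hneg' : ((a x : ℤ) : ℝ) ≤ 0 := by exact_mod_cast hneg
        set b : ℝ := -((a x : ℤ) : ℝ) with hb
        have hb0 : 0 ≤ b := by linarith
        have e1 : (((a x : ℤ) : ℝ) / d - d) / Δ = -((b / d + d) / Δ) := by
          rw [hb]; ring
        rw [e1]
        have h3 := hPe ((b / d + d) / Δ) (by positivity)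
        refine le_trans h3 ?_
        have h4 : Real.exp (-(Real.pi * ((b / d + d) / Δ) ^ 2)) / 2 ≤
            Real.exp (-(Real.pi * ((b / d + d) / Δ) ^ 2)) := by
          have := Real.exp_pos (-(Real.pi * ((b / d + d) / Δ) ^ 2))
          linarith
        refine le_trans h4 ?_
        apply Real.exp_le_exp.mpr
        have h5 : Real.pi * ((b / d + d) / Δ) ^ 2 = c2 * (b / d + d) ^ 2 := by
          rw [hc2]; field_simp
        rw [h5]
        have h6 : 2 * b + (d : ℝ) ^ 2 ≤ (b / d + d) ^ 2 := by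
          have : (b / d + d) ^ 2 = (b / d) ^ 2 + 2 * b + (d : ℝ) ^ 2 := by field_simp; ring
          rw [this]
          have := sq_nonneg (b / d)
          linarith
        have h7 : c2 * (2 * b + (d : ℝ) ^ 2) ≤ c2 * (b / d + d) ^ 2 :=
          mul_le_mul_of_nonneg_left h6 hc2pos.le
        have h8 : c1 * ((N2 x : ℝ) - ν) = 2 * c2 * b := by
          have : (N2 x : ℝ) - ν = κ * p ^ 2 * b := by rw [hb]; linarith
          rw [this, hc1]
          field_simp
        have h9 : 0 ≤ c2 * (ν : ℝ) ^ 2 := by positivity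
        nlinarith
    · rw [norm_zero]
      positivity
  have hFs : Summable F := by
    apply Summable.of_norm_bounded _ hbound
    apply Summable.mul_left
    exact (A3.summable_nat c2 hc2pos).mul_of_nonneg (A3.summable_GI c1 hc1pos)
      (fun _ ↦ (Real.exp_pos _).le) (fun _ ↦ (Real.exp_pos _).le)
  -- the inner sums
  have hin : ∀ d : ℕ, (if DD m d then ch d *
      ∑' x : WU par m ν p (p ^ 2 * d),
      Phi (((ν : ℝ) - (N2 x : ℝ) - κ * p ^ 2 * d ^ 2) / (κ * p ^ 2 * d * Δ)) else 0) =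
      ∑' x : GI, F (d, x) := by
    intro d
    split_ifs with hd
    · rw [← tsum_mul_left]
      rw [tsum_subtype (WU par m ν p (p ^ 2 * d)) (fun x : GI ↦ ch d *
        Phi (((ν : ℝ) - (N2 x : ℝ) - κ * p ^ 2 * d ^ 2) / (κ * p ^ 2 * d * Δ)))]
      congr 1
      funext x
      simp only [hF, Set.indicator]
      by_cases hx : x ∈ WU par m ν p (p ^ 2 * d)
      · rw [if_pos hx, if_pos ⟨hd, hx⟩]
      · rw [if_neg hx, if_neg (fun h ↦ hx h.2)]
    · rw [← tsum_zero (α := ℝ) (β := GI)]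
      congr 1
      funext x
      simp only [hF]
      rw [if_neg (fun h ↦ hd h.1)]
  have hS1 : Summable (fun d : ℕ ↦ if DD m d then ch d *
      ∑' x : WU par m ν p (p ^ 2 * d),
      Phi (((ν : ℝ) - (N2 x : ℝ) - κ * p ^ 2 * d ^ 2) / (κ * p ^ 2 * d * Δ)) else 0) := by
    simp only [hin]
    exact hFs.prod
  -- the outer sums
  have hout : ∀ x : GI, ∑' d : ℕ, F (d, x) =
      if x ∈ A3.W1 par m p ν ∧ 0 < a x then (R2 (a x).natAbs : ℝ) / 2 else 0 := by
    intro x
    by_cases hx : x ∈ A3.W1 par m p ν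
    · obtain ⟨h1, h2, _, _, _⟩ := ha x hx
      rw [tsum_eq_sum (s := (a x).natAbs.divisors)]
      · have h3 : ∑ d ∈ (a x).natAbs.divisors, F (d, x) =
            ∑ d ∈ (a x).natAbs.divisors, ch d * Phi ((((a x : ℤ) : ℝ) / d - d) / Δ) := by
          refine sum_congr rfl (fun d hd ↦ ?_)
          have hc := (hiff d x hx).mpr hd
          have hd0 : 0 < d := by
            have := hc.1.1
            omega
          simp only [hF]
          rw [if_pos hc, harg d x hd0 hx]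
        rw [h3, A3.switch hPP (a x) h2 Δ]
        simp only [hx, true_and]
      · intro d hd
        simp only [hF]
        rw [if_neg]
        intro hc
        exact hd ((hiff d x hx).mp hc)
    · rw [if_neg (fun h ↦ hx h.1), ← tsum_zero (α := ℝ) (β := ℕ)]
      congr 1
      funext d
      simp only [hF]
      rw [if_neg]
      intro hc
      exact hx (hWW d x hc.2)
  -- the finite set of pairs
  set BX : Finset GI := ((Icc (-(ν : ℤ)) ν) ×ˢ (Icc (-(ν : ℤ)) ν)).image A3.eGI with hBX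
  have hmemBX : ∀ x : GI, N2 x ≤ ν → x ∈ BX := by
    intro x hx
    rw [hBX, mem_image]
    refine ⟨(x.re, x.im), ?_, rfl⟩
    have hsq : ∀ y : ℤ, y ^ 2 ≤ ν → y ∈ Icc (-(ν : ℤ)) ν := by
      intro y hy
      rw [mem_Icc]
      constructor <;> nlinarith [sq_nonneg (y - 1), sq_nonneg (y + 1), sq_nonneg y]
    unfold N2 at hx
    rw [mem_product]
    exact ⟨hsq _ (by nlinarith [sq_nonneg x.im]), hsq _ (by nlinarith [sq_nonneg x.re])⟩
  have hN0 : ∀ x : GI, 0 ≤ N2 x := by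
    intro x
    unfold N2
    positivity
  have hκp : (1 : ℤ) ≤ κ * p ^ 2 := by
    have : 1 ≤ κ * p ^ 2 := Nat.mul_pos hκ (pow_pos hpr.pos 2)
    exact_mod_cast this
  have hsub : NS par m κ p ν ⊆ ((BX ×ˢ BX : Finset (GI × GI)) : Set (GI × GI)) := by
    rintro ⟨x, y⟩ hxy
    have h1 : N2 x + κ * p ^ 2 * N2 y = ν := hxy.2.2.2
    have h2 := hN0 x
    have h3 := hN0 y
    rw [coe_product]
    refine Set.mk_mem_prod ?_ ?_
    · apply hmemBX
      nlinarith
    · apply hmemBX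
      nlinarith
  have hfin : (NS par m κ p ν).Finite := (BX ×ˢ BX : Finset (GI × GI)).finite_toSet.subset hsub
  refine ⟨hfin, hS1, ?_⟩
  simp only [hin]
  have hcomm : ∑' d : ℕ, ∑' x : GI, F (d, x) = ∑' x : GI, ∑' d : ℕ, F (d, x) := by
    symm
    exact Summable.tsum_comm (f := fun d x ↦ F (d, x)) hFs
  rw [hcomm]
  simp only [hout]
  rw [tsum_eq_sum (s := BX)]
  · rw [Set.ncard_eq_toFinset_card _ hfin]
    rw [card_eq_sum_card_fiberwise (f := Prod.fst) (t := BX)]
    · push_cast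
      rw [mul_sum]
      refine sum_congr rfl (fun x _ ↦ ?_)
      split_ifs with hc
      · obtain ⟨hx, hpos⟩ := hc
        obtain ⟨h1, h2, _, _, _⟩ := ha x hx
        have hn0 : 0 < (a x).natAbs := Int.natAbs_pos.mpr hpos.ne'
        have hr := r2_eq (a x).natAbs hn0
        have hcard : (hfin.toFinset.filter (fun z ↦ z.1 = x)).card = (r2set (a x).natAbs).card := by
          apply card_bij (fun (z : GI × GI) _ ↦ ((z.2.re, z.2.im) : ℤ × ℤ))
          · rintro ⟨x', y⟩ hz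
            simp only [mem_filter, Set.Finite.mem_toFinset] at hz
            obtain ⟨hz, rfl⟩ := hz
            rw [mem_r2set]
            have h4 : N2 x' + κ * p ^ 2 * N2 y = ν := hz.2.2.2
            have h5 : ((κ : ℤ) * p ^ 2) * N2 y = (κ * p ^ 2) * a x' := by linarith
            have h6 : N2 y = a x' := mul_left_cancel₀ (by omega) h5
            rw [Int.natAbs_of_nonneg hpos.le, ← h6]
            rfl
          · rintro ⟨x', y⟩ hz ⟨x'', y'⟩ hz' heq
            simp only [mem_filter, Set.Finite.mem_toFinset] at hz hz'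
            obtain ⟨_, rfl⟩ := hz
            obtain ⟨_, h7⟩ := hz'
            simp only [Prod.mk.injEq] at heq
            have h8 : y = y' := Zsqrtd.ext heq.1 heq.2
            rw [h7, h8]
          · rintro ⟨u, v⟩ huv
            rw [mem_r2set, Int.natAbs_of_nonneg hpos.le] at huv
            refine ⟨(x, ⟨u, v⟩), ?_, rfl⟩
            simp only [mem_filter, Set.Finite.mem_toFinset, and_true]
            refine ⟨hx.1, hx.2.1, hx.2.2.2, ?_⟩
            have h4 : N2 (⟨u, v⟩ : GI) = a x := huv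
            simp only
            rw [h4, ← h1]
            ring
        rw [hcard]
        have hr' : ((r2set (a x).natAbs).card : ℝ) = 4 * (R2 (a x).natAbs : ℝ) := by exact_mod_cast hr
        rw [hr']
        ring
      · rw [mul_zero, Nat.cast_eq_zero, card_eq_zero, filter_eq_empty_iff]
        rintro ⟨x', y⟩ hz heq
        simp only at heq
        subst heq
        rw [Set.Finite.mem_toFinset] at hz
        apply hc
        have h4 : N2 x' + κ * p ^ 2 * N2 y = ν := hz.2.2.2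
        have hx : x' ∈ A3.W1 par m p ν := by
          refine ⟨hz.1, hz.2.1, ⟨κ * N2 y, ?_⟩, hz.2.2.1⟩
          rw [← h4]
          ring
        refine ⟨hx, ?_⟩
        obtain ⟨h1, h2, _, _, _⟩ := ha x' hx
        have h5 : ((κ : ℤ) * p ^ 2) * N2 y = (κ * p ^ 2) * a x' := by linarith
        have h6 : N2 y = a x' := mul_left_cancel₀ (by omega) h5
        have h7 := hN0 y
        rw [h6] at h7
        rcases h7.lt_or_eq with h8 | h8
        · exact h8
        · rw [← h8] at h2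
          simp at h2
    · intro z hz
      have h1 := hsub ((Set.Finite.mem_toFinset hfin).mp hz)
      rw [coe_product] at h1
      exact h1.1
  · intro x hx
    rw [if_neg]
    rintro ⟨hx1, hpos⟩
    apply hx
    apply hmemBX
    obtain ⟨h1, _⟩ := ha x hx1
    have : 0 < (κ : ℤ) * p ^ 2 * a x := by positivity
    linarith

end Pool.Agent.TFS
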