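import Pool.Agent.Lib.TFS.StmtsA

/-!
Module A4: explicit divisor sums.
-/

set_option autoImplicit false

open Finset

namespace Pool.Agent.TFS

namespace A4

/-! ### Combinatorial part -/

section Comb

variable (P : ℕ → Prop) [DecidablePred P]

/-- the condition is compatible with products -/
def Mult : Prop := ∀ a b : ℕ, a ≠ 0 → b ≠ 0 → (P (a * b) ↔ P a ∧ P b)

/-- number of integers with the condition up to `n` -/
def cnt (n : ℕ) : ℕ := ((Icc 1 n).filter P).card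

/-- divisor sum -/
def TT (n : ℕ) : ℕ := ∑ d ∈ (Icc 1 n).filter P, tau d

variable {P}

theorem reorganise (hP : Mult P) (Q : ℕ → Prop) [DecidablePred Q] (F : ℕ → ℕ → ℝ) (n : ℕ) :
    ∑ d ∈ (Icc 1 n).filter P, ∑ e ∈ d.divisors.filter Q, F e (d / e) =
      ∑ e ∈ (Icc 1 n).filter (fun e => P e ∧ Q e), ∑ m ∈ (Icc 1 (n / e)).filter P, F e m := by
  rw [Finset.sum_sigma', Finset.sum_sigma']
  refine Finset.sum_bij' (fun x _ => ⟨x.2, x.1 / x.2⟩) (fun x _ => ⟨x.1 * x.2, x.1⟩) ?_ ?_ ?_ ?_ ?_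
  · rintro ⟨d, e⟩ hx
    simp only [Finset.mem_sigma, Finset.mem_filter, Finset.mem_Icc, Nat.mem_divisors] at hx ⊢
    obtain ⟨⟨⟨h1, h2⟩, h3⟩, ⟨⟨m, rfl⟩, h5⟩, h6⟩ := hx
    have he : e ≠ 0 := by rintro rfl; simp at h5
    have hm : m ≠ 0 := by rintro rfl; simp at h5
    have he' : 0 < e := Nat.pos_of_ne_zero he
    rw [Nat.mul_div_cancel_left m he']
    have h7 := (hP e m he hm).mp h3
    refine ⟨⟨⟨he', le_trans (Nat.le_mul_of_pos_right e (Nat.pos_of_ne_zero hm)) h2⟩, h7.1, h6⟩,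
      ⟨Nat.pos_of_ne_zero hm, ?_⟩, h7.2⟩
    rw [Nat.le_div_iff_mul_le he', mul_comm]
    exact h2
  · rintro ⟨e, m⟩ hx
    simp only [Finset.mem_sigma, Finset.mem_filter, Finset.mem_Icc, Nat.mem_divisors] at hx ⊢
    obtain ⟨⟨⟨h1, h2⟩, h3, h4⟩, ⟨h5, h6⟩, h7⟩ := hx
    have he : e ≠ 0 := by omega
    have hm : m ≠ 0 := by omega
    rw [Nat.le_div_iff_mul_le h1, mul_comm] at h6
    exact ⟨⟨⟨Nat.mul_pos h1 h5, h6⟩, (hP e m he hm).mpr ⟨h3, h7⟩⟩,
      ⟨dvd_mul_right e m, Nat.mul_ne_zero he hm⟩, h4⟩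
  · rintro ⟨d, e⟩ hx
    simp only [Finset.mem_sigma, Finset.mem_filter, Finset.mem_Icc, Nat.mem_divisors] at hx
    obtain ⟨-, ⟨h4, -⟩, -⟩ := hx
    simp only [Nat.mul_div_cancel' h4]
  · rintro ⟨e, m⟩ hx
    simp only [Finset.mem_sigma, Finset.mem_filter, Finset.mem_Icc] at hx
    obtain ⟨⟨⟨h1, -⟩, -⟩, -⟩ := hx
    simp only [Nat.mul_div_cancel_left m h1]
  · rintro ⟨d, e⟩ _
    rfl

theorem TT_eq (hP : Mult P) (n : ℕ) : (TT P n : ℝ) = ∑ a ∈ (Icc 1 n).filter P, (cnt P (n / a) : ℝ) := by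
  have h := reorganise hP (fun _ => True) (fun _ _ => 1) n
  have h1 : (TT P n : ℝ) = ∑ d ∈ (Icc 1 n).filter P, ∑ e ∈ d.divisors.filter (fun _ => True), (1 : ℝ) := by
    unfold TT tau
    push_cast
    refine Finset.sum_congr rfl fun d _ => ?_
    rw [Finset.sum_const, Finset.filter_true, nsmul_eq_mul, mul_one]
  rw [h1, h]
  have h2 : (Icc 1 n).filter (fun e => P e ∧ True) = (Icc 1 n).filter P := by
    refine Finset.filter_congr fun x _ => ?_
    simp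
  rw [h2]
  refine Finset.sum_congr rfl fun a _ => ?_
  rw [Finset.sum_const, nsmul_eq_mul, mul_one]
  rfl

/-- the hyperbola method (upper bound) -/
theorem hyperbola (hP : Mult P) (n : ℕ) :
    (TT P n : ℝ) ≤ 2 * ∑ a ∈ (Icc 1 (Nat.sqrt n)).filter P, (cnt P (n / a) : ℝ) -
      (cnt P (Nat.sqrt n) : ℝ) ^ 2 := by
  set R := Nat.sqrt n with hR
  have hRn : R ≤ n := Nat.sqrt_le_self n
  have hRR : R * R ≤ n := Nat.sqrt_le n
  rw [TT_eq hP]
  let S := (Icc 1 n).filter P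
  let B := (Icc 1 R).filter P
  have hBS : B ⊆ S := by
    intro x hx
    simp only [B, S, Finset.mem_filter, Finset.mem_Icc] at hx ⊢
    exact ⟨⟨hx.1.1, hx.1.2.trans hRn⟩, hx.2⟩
  have hsplit : ∑ a ∈ S, (cnt P (n / a) : ℝ) = ∑ a ∈ B, (cnt P (n / a) : ℝ) +
      ∑ a ∈ S \ B, (cnt P (n / a) : ℝ) := by
    rw [add_comm]
    exact (Finset.sum_sdiff hBS).symm
  -- the pairs with large first coordinate
  have h2 : ∑ a ∈ S \ B, (cnt P (n / a) : ℝ) ≤ ∑ b ∈ B, ((cnt P (n / b) : ℝ) - cnt P R) := by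
    have h3 : ∀ a ∈ S \ B, (cnt P (n / a) : ℝ) = ∑ b ∈ B, if a * b ≤ n then (1 : ℝ) else 0 := by
      intro a ha
      simp only [S, B, Finset.mem_sdiff, Finset.mem_filter, Finset.mem_Icc] at ha
      obtain ⟨⟨⟨h1, h2⟩, h3⟩, h4⟩ := ha
      have haR : R < a := by
        by_contra h
        exact h4 ⟨⟨h1, not_lt.mp h⟩, h3⟩
      rw [Finset.sum_boole]
      unfold cnt
      congr 2
      ext b
      simp only [B, Finset.mem_filter, Finset.mem_Icc]
      constructor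
      · rintro ⟨⟨h5, h6⟩, h7⟩
        rw [Nat.le_div_iff_mul_le h1, mul_comm] at h6
        refine ⟨⟨⟨h5, ?_⟩, h7⟩, h6⟩
        by_contra hb
        rw [not_le] at hb
        have : (R + 1) * (R + 1) ≤ a * b := Nat.mul_le_mul haR hb
        have := Nat.lt_succ_sqrt n
        rw [← hR] at this
        simp only [Nat.succ_eq_add_one] at this
        omega
      · rintro ⟨⟨⟨h5, -⟩, h7⟩, h6⟩
        refine ⟨⟨h5, ?_⟩, h7⟩
        rw [Nat.le_div_iff_mul_le h1, mul_comm]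
        exact h6
    rw [Finset.sum_congr rfl h3, Finset.sum_comm]
    refine Finset.sum_le_sum fun b hb => ?_
    simp only [B, Finset.mem_filter, Finset.mem_Icc] at hb
    obtain ⟨⟨hb1, hb2⟩, hb3⟩ := hb
    rw [Finset.sum_boole, le_sub_iff_add_le]
    have h4 : ((S \ B).filter (fun a => a * b ≤ n)).card + cnt P R ≤ cnt P (n / b) := by
      unfold cnt
      rw [← Finset.card_union_of_disjoint]
      · refine Finset.card_le_card fun a ha => ?_
        simp only [Finset.mem_union, S, B, Finset.mem_sdiff, Finset.mem_filter,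
          Finset.mem_Icc] at ha ⊢
        rcases ha with ⟨⟨⟨⟨h1, h2⟩, h3⟩, h4⟩, h5⟩ | ⟨⟨h1, h2⟩, h3⟩
        · refine ⟨⟨h1, ?_⟩, h3⟩
          rw [Nat.le_div_iff_mul_le hb1]
          exact h5
        · refine ⟨⟨h1, ?_⟩, h3⟩
          rw [Nat.le_div_iff_mul_le hb1]
          exact (Nat.mul_le_mul h2 hb2).trans hRR
      · rw [Finset.disjoint_left]
        intro a ha ha'
        rw [Finset.mem_filter, Finset.mem_sdiff] at ha
        exact ha.1.2 ha'
    exact_mod_cast h4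
  rw [hsplit]
  rw [Finset.sum_sub_distrib, Finset.sum_const, nsmul_eq_mul] at h2
  have h5 : (B.card : ℝ) = cnt P R := rfl
  rw [h5] at h2
  change ∑ a ∈ B, (cnt P (n / a) : ℝ) + ∑ a ∈ S \ B, (cnt P (n / a) : ℝ) ≤
    2 * ∑ a ∈ B, (cnt P (n / a) : ℝ) - (cnt P R : ℝ) ^ 2
  nlinarith [h2]

end Comb

/-! ### The factor `hh` -/

theorem tau_mul_prime_le (l m : ℕ) (hl : l.Prime) : tau (l * m) ≤ 2 * tau m := by
  unfold tau
  rw [Nat.divisors_mul]
  refine (Finset.card_mul_le).trans ?_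
  rw [Nat.Prime.divisors hl, Finset.card_pair hl.one_lt.ne]

theorem tau_prod_le (t : Finset ℕ) (ht : ∀ l ∈ t, l.Prime) (m : ℕ) :
    tau ((∏ l ∈ t, l) * m) ≤ 2 ^ t.card * tau m := by
  classical
  induction t using Finset.induction_on with
  | empty => simp
  | insert l t hl ih =>
    rw [Finset.prod_insert hl, Finset.card_insert_of_notMem hl, mul_assoc]
    refine (tau_mul_prime_le l _ (ht l (Finset.mem_insert_self l t))).trans ?_
    have := ih (fun l' hl' => ht l' (Finset.mem_insert_of_mem hl'))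
    rw [pow_succ]
    nlinarith

theorem squarefree_prod_primes (t : Finset ℕ) (ht : ∀ l ∈ t, l.Prime) :
    Squarefree (∏ l ∈ t, l) := by
  classical
  induction t using Finset.induction_on with
  | empty => simp
  | insert l t hl ih =>
    rw [Finset.prod_insert hl]
    have hlp := ht l (Finset.mem_insert_self l t)
    rw [Nat.squarefree_mul_iff]
    refine ⟨?_, hlp.squarefree, ih (fun l' hl' => ht l' (Finset.mem_insert_of_mem hl'))⟩
    refine Nat.Coprime.prod_right fun l' hl' => ?_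
    exact (Nat.coprime_primes hlp (ht l' (Finset.mem_insert_of_mem hl'))).mpr
      (fun h => hl (h ▸ hl'))

theorem prod_injOn (t t' : Finset ℕ) (ht : ∀ l ∈ t, l.Prime) (ht' : ∀ l ∈ t', l.Prime)
    (h : ∏ l ∈ t, l = ∏ l ∈ t', l) : t = t' := by
  rw [← Nat.primeFactors_prod ht, ← Nat.primeFactors_prod ht', h]

/-- `τ hh` is dominated by a convolution -/
theorem tau_hh_le (d : ℕ) (hd : d ≠ 0) :
    (tau d : ℝ) * hh d ≤ ∑ e ∈ d.divisors.filter Squarefree,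
      1 / ((e : ℝ) * √(e : ℝ)) * (tau (d / e) : ℝ) := by
  classical
  have h1 : hh d = ∑ t ∈ d.primeFactors.powerset, ∏ l ∈ t, 1 / (2 * ((l : ℝ) * √(l : ℝ))) := by
    unfold hh hl
    rw [Finset.prod_one_add]
  have hprime : ∀ t ∈ d.primeFactors.powerset, ∀ l ∈ t, l.Prime := fun t ht l hl =>
    Nat.prime_of_mem_primeFactors (Finset.mem_powerset.mp ht hl)
  have hdvd : ∀ t ∈ d.primeFactors.powerset, (∏ l ∈ t, l) ∣ d := fun t ht =>
    (Finset.prod_dvd_prod_of_subset t d.primeFactors (fun l => l)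
      (Finset.mem_powerset.mp ht)).trans (Nat.prod_primeFactors_dvd d)
  have hsqrt : ∀ t : Finset ℕ, ∏ l ∈ t, (1 / (2 * ((l : ℝ) * √(l : ℝ)))) =
      (1 / 2 ^ t.card) * (1 / (((∏ l ∈ t, l : ℕ) : ℝ) * √((∏ l ∈ t, l : ℕ) : ℝ))) := by
    intro t
    induction t using Finset.induction_on with
    | empty => simp
    | insert l t hl ih =>
      rw [Finset.prod_insert hl, ih, Finset.prod_insert hl, Finset.card_insert_of_notMem hl]
      push_cast
      rw [Real.sqrt_mul (by positivity), pow_succ]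
      simp only [one_div, mul_inv]
      ring
  rw [h1, Finset.mul_sum]
  calc ∑ t ∈ d.primeFactors.powerset, (tau d : ℝ) * ∏ l ∈ t, 1 / (2 * ((l : ℝ) * √(l : ℝ)))
      ≤ ∑ t ∈ d.primeFactors.powerset, 1 / (((∏ l ∈ t, l : ℕ) : ℝ) * √((∏ l ∈ t, l : ℕ) : ℝ)) *
          (tau (d / ∏ l ∈ t, l) : ℝ) := by
        refine Finset.sum_le_sum fun t ht => ?_
        rw [hsqrt]
        have h2 : tau d ≤ 2 ^ t.card * tau (d / ∏ l ∈ t, l) := by
          have := tau_prod_le t (hprime t ht) (d / ∏ l ∈ t, l)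
          rwa [Nat.mul_div_cancel' (hdvd t ht)] at this
        have h3 : (tau d : ℝ) ≤ 2 ^ t.card * (tau (d / ∏ l ∈ t, l) : ℝ) := by exact_mod_cast h2
        have h4 : 0 ≤ 1 / (((∏ l ∈ t, l : ℕ) : ℝ) * √((∏ l ∈ t, l : ℕ) : ℝ)) := by positivity
        calc (tau d : ℝ) * (1 / 2 ^ t.card * (1 / (((∏ l ∈ t, l : ℕ) : ℝ) *
              √((∏ l ∈ t, l : ℕ) : ℝ))))
            = (tau d : ℝ) * (1 / 2 ^ t.card) * (1 / (((∏ l ∈ t, l : ℕ) : ℝ) *
              √((∏ l ∈ t, l : ℕ) : ℝ))) := by ring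
          _ ≤ (2 ^ t.card * (tau (d / ∏ l ∈ t, l) : ℝ)) * (1 / 2 ^ t.card) *
              (1 / (((∏ l ∈ t, l : ℕ) : ℝ) * √((∏ l ∈ t, l : ℕ) : ℝ))) := by gcongr
          _ = _ := by field_simp
    _ = ∑ e ∈ d.primeFactors.powerset.image (fun t => ∏ l ∈ t, l),
          1 / ((e : ℝ) * √(e : ℝ)) * (tau (d / e) : ℝ) := by
        rw [Finset.sum_image]
        intro t ht t' ht' h
        exact prod_injOn t t' (hprime t ht) (hprime t' ht') h
    _ ≤ _ := by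
        refine Finset.sum_le_sum_of_subset_of_nonneg ?_ (fun _ _ _ => by positivity)
        intro e he
        rw [Finset.mem_image] at he
        obtain ⟨t, ht, rfl⟩ := he
        rw [Finset.mem_filter, Nat.mem_divisors]
        exact ⟨⟨hdvd t ht, hd⟩, squarefree_prod_primes t (hprime t ht)⟩

/-! ### Analytic part -/

section Ana

variable {P : ℕ → Prop} [DecidablePred P]

/-- sum of reciprocals -/
noncomputable def rs (P : ℕ → Prop) [DecidablePred P] (n : ℕ) : ℝ :=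
  ∑ a ∈ (Icc 1 n).filter P, 1 / (a : ℝ)

theorem floor_sqrt (y : ℝ) (hy : 0 ≤ y) : ⌊√y⌋₊ = Nat.sqrt ⌊y⌋₊ := by
  rw [Nat.floor_eq_iff (Real.sqrt_nonneg y)]
  constructor
  · apply Real.le_sqrt_of_sq_le
    have h1 : Nat.sqrt ⌊y⌋₊ ^ 2 ≤ ⌊y⌋₊ := Nat.sqrt_le' _
    have h2 : ((Nat.sqrt ⌊y⌋₊ : ℕ) : ℝ) ^ 2 ≤ (⌊y⌋₊ : ℝ) := by exact_mod_cast h1
    exact h2.trans (Nat.floor_le hy)
  · rw [Real.sqrt_lt' (by positivity)]
    have h1 : ⌊y⌋₊ + 1 ≤ (Nat.sqrt ⌊y⌋₊ + 1) ^ 2 := Nat.lt_succ_sqrt' _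
    have h2 : (⌊y⌋₊ : ℝ) + 1 ≤ ((Nat.sqrt ⌊y⌋₊ : ℕ) + 1 : ℝ) ^ 2 := by exact_mod_cast h1
    exact (Nat.lt_floor_add_one y).trans_le h2

theorem TT_le (hP : Mult P) (α β κ c : ℝ) (hα : 0 ≤ α) (hβ : 0 ≤ β)
    (hup : ∀ n : ℕ, (cnt P n : ℝ) ≤ α * n + β)
    (hlow : ∀ t : ℝ, 1 ≤ t → |α * t - β| ≤ (cnt P ⌊t⌋₊ : ℝ))
    (hrec : ∀ t : ℝ, 1 ≤ t → rs P ⌊t⌋₊ ≤ α * (Real.log t + κ) + c / t) (y : ℝ) (hy : 1 ≤ y) :
    (TT P ⌊y⌋₊ : ℝ) ≤ α ^ 2 * y * (Real.log y + (2 * κ - 1)) + (2 * α * c + 4 * α * β) * √y +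
      β ^ 2 := by
  have hy0 : 0 ≤ y := by linarith
  have hs1 : 1 ≤ √y := by
    rw [show (1 : ℝ) = √1 by simp]
    exact Real.sqrt_le_sqrt hy
  have hss : √y * √y = y := Real.mul_self_sqrt hy0
  have h := hyperbola hP ⌊y⌋₊
  rw [← floor_sqrt y hy0] at h
  set R := ⌊√y⌋₊ with hR
  have hRs : (R : ℝ) ≤ √y := Nat.floor_le (Real.sqrt_nonneg y)
  have h1 : ∑ a ∈ (Icc 1 R).filter P, (cnt P (⌊y⌋₊ / a) : ℝ) ≤ α * y * rs P R + β * cnt P R := by
    have h2 : ∑ a ∈ (Icc 1 R).filter P, (cnt P (⌊y⌋₊ / a) : ℝ) ≤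
        ∑ a ∈ (Icc 1 R).filter P, (α * y * (1 / (a : ℝ)) + β) := by
      refine Finset.sum_le_sum fun a ha => ?_
      rw [Finset.mem_filter, Finset.mem_Icc] at ha
      refine (hup _).trans ?_
      have h3 : ((⌊y⌋₊ / a : ℕ) : ℝ) ≤ y * (1 / (a : ℝ)) := by
        refine Nat.cast_div_le.trans ?_
        rw [mul_one_div]
        gcongr
        exact Nat.floor_le hy0
      nlinarith
    refine h2.trans (le_of_eq ?_)
    rw [Finset.sum_add_distrib, ← Finset.mul_sum, Finset.sum_const, nsmul_eq_mul]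
    unfold rs cnt
    ring
  have h3 : (cnt P R : ℝ) ≤ α * √y + β := by
    refine (hup R).trans ?_
    nlinarith
  have h4 := hrec (√y) hs1
  rw [← hR, Real.log_sqrt hy0] at h4
  have h5 : (α * √y - β) ^ 2 ≤ (cnt P R : ℝ) ^ 2 := by
    have := hlow (√y) hs1
    rw [← hR] at this
    exact sq_le_sq' (by linarith [neg_abs_le (α * √y - β)]) (by linarith [le_abs_self (α * √y - β)])
  have h6 : α * y * rs P R ≤ α * y * (α * (Real.log y / 2 + κ) + c / √y) :=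
    mul_le_mul_of_nonneg_left h4 (mul_nonneg hα hy0)
  have h7 : y * (c / √y) = c * √y := by
    have h0 : √y ≠ 0 := by positivity
    nth_rewrite 1 [← hss]
    field_simp
  have h8 : β * (cnt P R : ℝ) ≤ β * (α * √y + β) := mul_le_mul_of_nonneg_left h3 hβ
  have h9 : α * y * (α * (Real.log y / 2 + κ) + c / √y) =
      α ^ 2 * y * (Real.log y / 2 + κ) + α * (c * √y) := by
    rw [← h7]; ring
  have h10 : (α * √y - β) ^ 2 = α ^ 2 * y - 2 * α * β * √y + β ^ 2 := by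
    nlinarith [hss]
  nlinarith [h, h1, h6, h8, h5]

/-- the sum with `hh`, in terms of three convergent sums -/
theorem M_le (hP : Mult P) (a2 c0 b1 b0 A5 A2 A1 : ℝ) (ha2 : 0 ≤ a2) (hc0 : 0 ≤ c0) (hb1 : 0 ≤ b1)
    (hb0 : 0 ≤ b0)
    (hT : ∀ y : ℝ, 1 ≤ y → (TT P ⌊y⌋₊ : ℝ) ≤ a2 * y * (Real.log y + c0) + b1 * √y + b0)
    (hA5 : ∀ n : ℕ, ∑ e ∈ (Icc 1 n).filter (fun e => P e ∧ Squarefree e),
      1 / ((e : ℝ) ^ 2 * √(e : ℝ)) ≤ A5)
    (hA2 : ∀ n : ℕ, ∑ e ∈ (Icc 1 n).filter (fun e => P e ∧ Squarefree e),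
      1 / ((e : ℝ) ^ 2) ≤ A2)
    (hA1 : ∀ n : ℕ, ∑ e ∈ (Icc 1 n).filter (fun e => P e ∧ Squarefree e),
      1 / ((e : ℝ) * √(e : ℝ)) ≤ A1) (x : ℝ) (hx : 1 ≤ x) :
    ∑ d ∈ (Icc 1 ⌊x⌋₊).filter P, (tau d : ℝ) * hh d ≤
      a2 * x * (Real.log x + c0) * A5 + b1 * √x * A2 + b0 * A1 := by
  have hx0 : 0 ≤ x := by linarith
  have hlog : 0 ≤ Real.log x := Real.log_nonneg hx
  have h1 : ∑ d ∈ (Icc 1 ⌊x⌋₊).filter P, (tau d : ℝ) * hh d ≤
      ∑ d ∈ (Icc 1 ⌊x⌋₊).filter P, ∑ e ∈ d.divisors.filter Squarefree,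
        1 / ((e : ℝ) * √(e : ℝ)) * (tau (d / e) : ℝ) := by
    refine Finset.sum_le_sum fun d hd => tau_hh_le d ?_
    rw [Finset.mem_filter, Finset.mem_Icc] at hd
    omega
  have h2 := reorganise hP Squarefree (fun e m => 1 / ((e : ℝ) * √(e : ℝ)) * (tau m : ℝ)) ⌊x⌋₊
  rw [h2] at h1
  refine h1.trans ?_
  have h3 : ∀ e ∈ (Icc 1 ⌊x⌋₊).filter (fun e => P e ∧ Squarefree e),
      ∑ m ∈ (Icc 1 (⌊x⌋₊ / e)).filter P, 1 / ((e : ℝ) * √(e : ℝ)) * (tau m : ℝ) ≤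
        a2 * x * (Real.log x + c0) * (1 / ((e : ℝ) ^ 2 * √(e : ℝ))) +
          b1 * √x * (1 / ((e : ℝ) ^ 2)) + b0 * (1 / ((e : ℝ) * √(e : ℝ))) := by
    intro e he
    rw [Finset.mem_filter, Finset.mem_Icc] at he
    obtain ⟨⟨he1, he2⟩, -⟩ := he
    have he0 : (0 : ℝ) < e := by exact_mod_cast he1
    have he1' : (1 : ℝ) ≤ e := by exact_mod_cast he1
    have hex : (e : ℝ) ≤ x := (Nat.cast_le.mpr he2).trans (Nat.floor_le hx0)
    have hy : 1 ≤ x / e := by rw [le_div_iff₀ he0]; linarith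
    have h4 : ∑ m ∈ (Icc 1 (⌊x⌋₊ / e)).filter P, 1 / ((e : ℝ) * √(e : ℝ)) * (tau m : ℝ) =
        1 / ((e : ℝ) * √(e : ℝ)) * (TT P ⌊x / e⌋₊ : ℝ) := by
      rw [← Finset.mul_sum, Nat.floor_div_natCast]
      unfold TT
      push_cast
      rfl
    rw [h4]
    have h5 := hT (x / e) hy
    have h6 : Real.log (x / e) ≤ Real.log x := by
      apply Real.log_le_log (by positivity)
      exact div_le_self hx0 he1'
    have hs0 : 0 < √(e : ℝ) := Real.sqrt_pos.mpr he0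
    have hse : √(e : ℝ) * √(e : ℝ) = e := Real.mul_self_sqrt he0.le
    have h7 : a2 * (x / e) * (Real.log (x / e) + c0) ≤ a2 * (x / e) * (Real.log x + c0) := by
      apply mul_le_mul_of_nonneg_left (by linarith)
      positivity
    have h8 : (TT P ⌊x / e⌋₊ : ℝ) ≤ a2 * (x / e) * (Real.log x + c0) + b1 * (√x / √(e : ℝ)) + b0 := by
      have : √(x / e) = √x / √(e : ℝ) := Real.sqrt_div hx0 _
      rw [this] at h5
      linarith
    calc 1 / ((e : ℝ) * √(e : ℝ)) * (TT P ⌊x / e⌋₊ : ℝ)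
        ≤ 1 / ((e : ℝ) * √(e : ℝ)) *
          (a2 * (x / e) * (Real.log x + c0) + b1 * (√x / √(e : ℝ)) + b0) := by gcongr
      _ = a2 * x * (Real.log x + c0) * (1 / ((e : ℝ) ^ 2 * √(e : ℝ))) +
          b1 * √x * (1 / ((e : ℝ) * (√(e : ℝ) * √(e : ℝ)))) +
            b0 * (1 / ((e : ℝ) * √(e : ℝ))) := by
          field_simp
      _ = _ := by rw [hse]; ring
  refine (Finset.sum_le_sum h3).trans ?_
  rw [Finset.sum_add_distrib, Finset.sum_add_distrib, ← Finset.mul_sum, ← Finset.mul_sum,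
    ← Finset.mul_sum]
  have h9 : 0 ≤ a2 * x * (Real.log x + c0) := by positivity
  have h10 : 0 ≤ b1 * √x := by positivity
  have h11 := mul_le_mul_of_nonneg_left (hA5 ⌊x⌋₊) h9
  have h12 := mul_le_mul_of_nonneg_left (hA2 ⌊x⌋₊) h10
  have h13 := mul_le_mul_of_nonneg_left (hA1 ⌊x⌋₊) hb0
  linarith

end Ana

/-! ### Sums over odd numbers -/

theorem odd_sum_le (S : Finset ℕ) (k0 : ℕ) (hS : ∀ e ∈ S, e % 2 = 1 ∧ 2 * k0 + 1 ≤ e)
    (f g : ℕ → ℝ) (hfg : ∀ k, k0 ≤ k → f (2 * k + 1) ≤ g k - g (k + 1)) (hg0 : ∀ k, 0 ≤ g k)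
    (hg : ∀ k, k0 ≤ k → g (k + 1) ≤ g k) : ∑ e ∈ S, f e ≤ g k0 := by
  classical
  obtain ⟨N, hN⟩ : ∃ N, ∀ e ∈ S, e ≤ N := ⟨S.sup id, fun e he => Finset.le_sup (f := id) he⟩
  have h1 : ∑ e ∈ S, f e ≤ ∑ e ∈ S, (g (e / 2) - g (e / 2 + 1)) := by
    refine Finset.sum_le_sum fun e he => ?_
    obtain ⟨h1, h2⟩ := hS e he
    have h3 : 2 * (e / 2) + 1 = e := by omega
    have h4 := hfg (e / 2) (by omega)
    rwa [h3] at h4
  have h2 : ∑ e ∈ S, (g (e / 2) - g (e / 2 + 1)) =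
      ∑ k ∈ S.image (fun e => e / 2), (g k - g (k + 1)) := by
    rw [Finset.sum_image]
    intro e he e' he' h
    have := (hS e he).1
    have := (hS e' he').1
    simp only at h
    omega
  have h3 : ∑ k ∈ S.image (fun e => e / 2), (g k - g (k + 1)) ≤
      ∑ k ∈ Ico k0 (k0 + N + 1), (g k - g (k + 1)) := by
    refine Finset.sum_le_sum_of_subset_of_nonneg ?_ ?_
    · intro k hk
      rw [Finset.mem_image] at hk
      obtain ⟨e, he, rfl⟩ := hk
      have := hN e he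
      have := (hS e he).2
      rw [Finset.mem_Ico]
      omega
    · intro k hk _
      rw [Finset.mem_Ico] at hk
      linarith [hg k hk.1]
  have h4 : ∀ n : ℕ, ∑ k ∈ Ico k0 (k0 + n), (g k - g (k + 1)) = g k0 - g (k0 + n) := by
    intro n
    induction n with
    | zero => simp
    | succ n ih =>
      rw [← add_assoc, Finset.sum_Ico_succ_top (by omega), ih]
      ring
  rw [h2] at h1
  rw [add_assoc, h4] at h3
  linarith [hg0 (k0 + (N + 1))]

theorem tail2 (S : Finset ℕ) (k0 : ℕ) (hk0 : 1 ≤ k0) (hS : ∀ e ∈ S, e % 2 = 1 ∧ 2 * k0 + 1 ≤ e) :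
    ∑ e ∈ S, 1 / ((e : ℝ) ^ 2) ≤ 1 / (4 * (k0 : ℝ)) := by
  refine odd_sum_le S k0 hS _ (fun k => 1 / (4 * (k : ℝ))) ?_ (fun k => by positivity) ?_
  · intro k hk
    have hk' : (1 : ℝ) ≤ k := by exact_mod_cast (hk0.trans hk)
    push_cast
    rw [div_sub_div _ _ (by positivity) (by positivity), div_le_div_iff₀ (by positivity)
      (by positivity)]
    nlinarith
  · intro k hk
    have hk' : (1 : ℝ) ≤ k := by exact_mod_cast (hk0.trans hk)
    push_cast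
    apply one_div_le_one_div_of_le (by positivity)
    linarith

theorem tail1 (S : Finset ℕ) (hS : ∀ e ∈ S, e % 2 = 1 ∧ 3 ≤ e) :
    ∑ e ∈ S, 1 / ((e : ℝ) * √(e : ℝ)) ≤ 1 := by
  have h := odd_sum_le S 1 (fun e he => by have := hS e he; omega)
    (fun e => 1 / ((e : ℝ) * √(e : ℝ))) (fun k => 1 / √(2 * (k : ℝ) - 1)) ?_
    (fun k => by positivity) ?_
  · norm_num at h
    simpa using h
  · intro k hk
    have hk' : (1 : ℝ) ≤ k := by exact_mod_cast hk
    have h1 : (0 : ℝ) < 2 * k - 1 := by linarith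
    have h2 : (0 : ℝ) < 2 * k + 1 := by linarith
    push_cast
    have e2 : 2 * ((k : ℝ) + 1) - 1 = 2 * k + 1 := by ring
    rw [e2]
    set a := √(2 * (k : ℝ) - 1) with ha
    set b := √(2 * (k : ℝ) + 1) with hb
    have ha0 : 0 < a := Real.sqrt_pos.mpr h1
    have hb0 : 0 < b := Real.sqrt_pos.mpr h2
    have haa : a * a = 2 * k - 1 := Real.mul_self_sqrt h1.le
    have hbb : b * b = 2 * k + 1 := Real.mul_self_sqrt h2.le
    have hab : a ≤ b := Real.sqrt_le_sqrt (by linarith)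
    rw [← hbb, div_sub_div _ _ ha0.ne' hb0.ne', div_le_div_iff₀ (by positivity) (by positivity)]
    have h3 : (b - a) * (b + a) = 2 := by nlinarith
    have h4 : 0 ≤ b - a := by linarith
    have h5 : 1 ≤ (b - a) * b := by nlinarith
    have h6 : 1 * (a * b) ≤ ((b - a) * b) * (b * b) := by
      have : a * b ≤ b * b := by nlinarith
      nlinarith [mul_pos hb0 hb0]
    nlinarith [h6]
  · intro k hk
    have hk' : (1 : ℝ) ≤ k := by exact_mod_cast hk
    push_cast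
    apply one_div_le_one_div_of_le
    · exact Real.sqrt_pos.mpr (by linarith)
    · exact Real.sqrt_le_sqrt (by linarith)

/-! ### The sums of `e^(-5/2)` -/

theorem term_le (e : ℕ) (r q : ℝ) (hr : 0 < r) (h : r ^ 2 ≤ (e : ℝ))
    (hq : 1 / ((e : ℝ) ^ 2 * r) ≤ q) : 1 / ((e : ℝ) ^ 2 * √(e : ℝ)) ≤ q := by
  have h1 : r ≤ √(e : ℝ) := Real.le_sqrt_of_sq_le h
  have h2 : (0 : ℝ) < e := lt_of_lt_of_le (by positivity) h
  refine le_trans ?_ hq
  apply one_div_le_one_div_of_le (by positivity)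
  gcongr

/-- the finite part of the sum of `e^(-5/2)` -/
theorem fin_six : ∑ e ∈ ({1, 5, 7, 11, 13, 17, 19, 23, 25, 29, 31, 35, 37, 41} : Finset ℕ),
    1 / ((e : ℝ) ^ 2 * √(e : ℝ)) ≤ 1.03268270 := by
  have h5 : 1 / (((5 : ℕ) : ℝ) ^ 2 * √((5 : ℕ) : ℝ)) ≤ 0.01788856 :=
    term_le 5 2.236067 0.01788856 (by norm_num) (by norm_num) (by norm_num)
  have h7 : 1 / (((7 : ℕ) : ℝ) ^ 2 * √((7 : ℕ) : ℝ)) ≤ 0.00771357 :=
    term_le 7 2.645751 0.00771357 (by norm_num) (by norm_num) (by norm_num)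
  have h11 : 1 / (((11 : ℕ) : ℝ) ^ 2 * √((11 : ℕ) : ℝ)) ≤ 0.00249183 :=
    term_le 11 3.316624 0.00249183 (by norm_num) (by norm_num) (by norm_num)
  have h13 : 1 / (((13 : ℕ) : ℝ) ^ 2 * √((13 : ℕ) : ℝ)) ≤ 0.00164113 :=
    term_le 13 3.605551 0.00164113 (by norm_num) (by norm_num) (by norm_num)
  have h17 : 1 / (((17 : ℕ) : ℝ) ^ 2 * √((17 : ℕ) : ℝ)) ≤ 0.00083923 :=
    term_le 17 4.123105 0.00083923 (by norm_num) (by norm_num) (by norm_num)
  have h19 : 1 / (((19 : ℕ) : ℝ) ^ 2 * √((19 : ℕ) : ℝ)) ≤ 0.00063551 :=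
    term_le 19 4.358898 0.00063551 (by norm_num) (by norm_num) (by norm_num)
  have h23 : 1 / (((23 : ℕ) : ℝ) ^ 2 * √((23 : ℕ) : ℝ)) ≤ 0.00039417 :=
    term_le 23 4.795831 0.00039417 (by norm_num) (by norm_num) (by norm_num)
  have h25 : 1 / (((25 : ℕ) : ℝ) ^ 2 * √((25 : ℕ) : ℝ)) ≤ 0.00032000 :=
    term_le 25 5.000000 0.00032000 (by norm_num) (by norm_num) (by norm_num)
  have h29 : 1 / (((29 : ℕ) : ℝ) ^ 2 * √((29 : ℕ) : ℝ)) ≤ 0.00022081 :=
    term_le 29 5.385164 0.00022081 (by norm_num) (by norm_num) (by norm_num)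
  have h31 : 1 / (((31 : ℕ) : ℝ) ^ 2 * √((31 : ℕ) : ℝ)) ≤ 0.00018690 :=
    term_le 31 5.567764 0.00018690 (by norm_num) (by norm_num) (by norm_num)
  have h35 : 1 / (((35 : ℕ) : ℝ) ^ 2 * √((35 : ℕ) : ℝ)) ≤ 0.00013799 :=
    term_le 35 5.916079 0.00013799 (by norm_num) (by norm_num) (by norm_num)
  have h37 : 1 / (((37 : ℕ) : ℝ) ^ 2 * √((37 : ℕ) : ℝ)) ≤ 0.00012009 :=
    term_le 37 6.082762 0.00012009 (by norm_num) (by norm_num) (by norm_num)
  have h41 : 1 / (((41 : ℕ) : ℝ) ^ 2 * √((41 : ℕ) : ℝ)) ≤ 0.00009291 :=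
    term_le 41 6.403124 0.00009291 (by norm_num) (by norm_num) (by norm_num)
  have h1 : 1 / (((1 : ℕ) : ℝ) ^ 2 * √((1 : ℕ) : ℝ)) = 1 := by simp
  rw [Finset.sum_insert (by decide)]
  rw [Finset.sum_insert (by decide)]
  rw [Finset.sum_insert (by decide)]
  rw [Finset.sum_insert (by decide)]
  rw [Finset.sum_insert (by decide)]
  rw [Finset.sum_insert (by decide)]
  rw [Finset.sum_insert (by decide)]
  rw [Finset.sum_insert (by decide)]
  rw [Finset.sum_insert (by decide)]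
  rw [Finset.sum_insert (by decide)]
  rw [Finset.sum_insert (by decide)]
  rw [Finset.sum_insert (by decide)]
  rw [Finset.sum_insert (by decide)]
  rw [Finset.sum_singleton]
  linarith

/-- the finite part of the sum of `e^(-5/2)` -/
theorem fin_two : ∑ e ∈ ({1, 3, 5, 7, 11, 13, 15, 17, 19, 21, 23, 29, 31, 33, 35, 37, 39, 41, 43, 47, 51} : Finset ℕ),
    1 / ((e : ℝ) ^ 2 * √(e : ℝ)) ≤ 1.09862265 := by
  have h3 : 1 / (((3 : ℕ) : ℝ) ^ 2 * √((3 : ℕ) : ℝ)) ≤ 0.06415006 :=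
    term_le 3 1.732050 0.06415006 (by norm_num) (by norm_num) (by norm_num)
  have h5 : 1 / (((5 : ℕ) : ℝ) ^ 2 * √((5 : ℕ) : ℝ)) ≤ 0.01788856 :=
    term_le 5 2.236067 0.01788856 (by norm_num) (by norm_num) (by norm_num)
  have h7 : 1 / (((7 : ℕ) : ℝ) ^ 2 * √((7 : ℕ) : ℝ)) ≤ 0.00771357 :=
    term_le 7 2.645751 0.00771357 (by norm_num) (by norm_num) (by norm_num)
  have h11 : 1 / (((11 : ℕ) : ℝ) ^ 2 * √((11 : ℕ) : ℝ)) ≤ 0.00249183 :=
    term_le 11 3.316624 0.00249183 (by norm_num) (by norm_num) (by norm_num)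
  have h13 : 1 / (((13 : ℕ) : ℝ) ^ 2 * √((13 : ℕ) : ℝ)) ≤ 0.00164113 :=
    term_le 13 3.605551 0.00164113 (by norm_num) (by norm_num) (by norm_num)
  have h15 : 1 / (((15 : ℕ) : ℝ) ^ 2 * √((15 : ℕ) : ℝ)) ≤ 0.00114756 :=
    term_le 15 3.872983 0.00114756 (by norm_num) (by norm_num) (by norm_num)
  have h17 : 1 / (((17 : ℕ) : ℝ) ^ 2 * √((17 : ℕ) : ℝ)) ≤ 0.00083923 :=
    term_le 17 4.123105 0.00083923 (by norm_num) (by norm_num) (by norm_num)
  have h19 : 1 / (((19 : ℕ) : ℝ) ^ 2 * √((19 : ℕ) : ℝ)) ≤ 0.00063551 :=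
    term_le 19 4.358898 0.00063551 (by norm_num) (by norm_num) (by norm_num)
  have h21 : 1 / (((21 : ℕ) : ℝ) ^ 2 * √((21 : ℕ) : ℝ)) ≤ 0.00049483 :=
    term_le 21 4.582575 0.00049483 (by norm_num) (by norm_num) (by norm_num)
  have h23 : 1 / (((23 : ℕ) : ℝ) ^ 2 * √((23 : ℕ) : ℝ)) ≤ 0.00039417 :=
    term_le 23 4.795831 0.00039417 (by norm_num) (by norm_num) (by norm_num)
  have h29 : 1 / (((29 : ℕ) : ℝ) ^ 2 * √((29 : ℕ) : ℝ)) ≤ 0.00022081 :=
    term_le 29 5.385164 0.00022081 (by norm_num) (by norm_num) (by norm_num)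
  have h31 : 1 / (((31 : ℕ) : ℝ) ^ 2 * √((31 : ℕ) : ℝ)) ≤ 0.00018690 :=
    term_le 31 5.567764 0.00018690 (by norm_num) (by norm_num) (by norm_num)
  have h33 : 1 / (((33 : ℕ) : ℝ) ^ 2 * √((33 : ℕ) : ℝ)) ≤ 0.00015986 :=
    term_le 33 5.744562 0.00015986 (by norm_num) (by norm_num) (by norm_num)
  have h35 : 1 / (((35 : ℕ) : ℝ) ^ 2 * √((35 : ℕ) : ℝ)) ≤ 0.00013799 :=
    term_le 35 5.916079 0.00013799 (by norm_num) (by norm_num) (by norm_num)
  have h37 : 1 / (((37 : ℕ) : ℝ) ^ 2 * √((37 : ℕ) : ℝ)) ≤ 0.00012009 :=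
    term_le 37 6.082762 0.00012009 (by norm_num) (by norm_num) (by norm_num)
  have h39 : 1 / (((39 : ℕ) : ℝ) ^ 2 * √((39 : ℕ) : ℝ)) ≤ 0.00010528 :=
    term_le 39 6.244997 0.00010528 (by norm_num) (by norm_num) (by norm_num)
  have h41 : 1 / (((41 : ℕ) : ℝ) ^ 2 * √((41 : ℕ) : ℝ)) ≤ 0.00009291 :=
    term_le 41 6.403124 0.00009291 (by norm_num) (by norm_num) (by norm_num)
  have h43 : 1 / (((43 : ℕ) : ℝ) ^ 2 * √((43 : ℕ) : ℝ)) ≤ 0.00008248 :=
    term_le 43 6.557438 0.00008248 (by norm_num) (by norm_num) (by norm_num)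
  have h47 : 1 / (((47 : ℕ) : ℝ) ^ 2 * √((47 : ℕ) : ℝ)) ≤ 0.00006604 :=
    term_le 47 6.855654 0.00006604 (by norm_num) (by norm_num) (by norm_num)
  have h51 : 1 / (((51 : ℕ) : ℝ) ^ 2 * √((51 : ℕ) : ℝ)) ≤ 0.00005384 :=
    term_le 51 7.141428 0.00005384 (by norm_num) (by norm_num) (by norm_num)
  have h1 : 1 / (((1 : ℕ) : ℝ) ^ 2 * √((1 : ℕ) : ℝ)) = 1 := by simp
  rw [Finset.sum_insert (by decide)]
  rw [Finset.sum_insert (by decide)]
  rw [Finset.sum_insert (by decide)]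
  rw [Finset.sum_insert (by decide)]
  rw [Finset.sum_insert (by decide)]
  rw [Finset.sum_insert (by decide)]
  rw [Finset.sum_insert (by decide)]
  rw [Finset.sum_insert (by decide)]
  rw [Finset.sum_insert (by decide)]
  rw [Finset.sum_insert (by decide)]
  rw [Finset.sum_insert (by decide)]
  rw [Finset.sum_insert (by decide)]
  rw [Finset.sum_insert (by decide)]
  rw [Finset.sum_insert (by decide)]
  rw [Finset.sum_insert (by decide)]
  rw [Finset.sum_insert (by decide)]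
  rw [Finset.sum_insert (by decide)]
  rw [Finset.sum_insert (by decide)]
  rw [Finset.sum_insert (by decide)]
  rw [Finset.sum_insert (by decide)]
  rw [Finset.sum_singleton]
  linarith

theorem tail5 (S : Finset ℕ) (k0 : ℕ) (hk0 : 1 ≤ k0)
    (hS : ∀ e ∈ S, e % 2 = 1 ∧ 2 * k0 + 1 ≤ e) :
    ∑ e ∈ S, 1 / ((e : ℝ) ^ 2 * √(e : ℝ)) ≤ 1 / √(2 * (k0 : ℝ) + 1) * (1 / (4 * (k0 : ℝ))) := by
  have h1 : ∑ e ∈ S, 1 / ((e : ℝ) ^ 2 * √(e : ℝ)) ≤
      ∑ e ∈ S, 1 / √(2 * (k0 : ℝ) + 1) * (1 / ((e : ℝ) ^ 2)) := by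
    refine Finset.sum_le_sum fun e he => ?_
    have h2 := (hS e he).2
    have h3 : 2 * (k0 : ℝ) + 1 ≤ e := by exact_mod_cast h2
    have h4 : (0 : ℝ) < 2 * (k0 : ℝ) + 1 := by positivity
    have h5 : √(2 * (k0 : ℝ) + 1) ≤ √(e : ℝ) := Real.sqrt_le_sqrt h3
    have h6 : 0 < √(2 * (k0 : ℝ) + 1) := Real.sqrt_pos.mpr h4
    have h7 : (0 : ℝ) < e := by linarith
    rw [← one_div_mul_one_div, mul_comm]
    gcongr
  refine h1.trans ?_
  rw [← Finset.mul_sum]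
  gcongr
  exact tail2 S k0 hk0 hS

theorem sum5_le (Q : ℕ → Prop) [DecidablePred Q] (F : Finset ℕ) (k0 : ℕ) (hk0 : 1 ≤ k0)
    (hQ : ∀ e, 1 ≤ e → Q e → e % 2 = 1 ∧ (e ≤ 2 * k0 → e ∈ F)) (n : ℕ) :
    ∑ e ∈ (Icc 1 n).filter Q, 1 / ((e : ℝ) ^ 2 * √(e : ℝ)) ≤
      ∑ e ∈ F, 1 / ((e : ℝ) ^ 2 * √(e : ℝ)) + 1 / √(2 * (k0 : ℝ) + 1) * (1 / (4 * (k0 : ℝ))) := by
  classical
  rw [← Finset.sum_filter_add_sum_filter_not ((Icc 1 n).filter Q) (fun e => e ≤ 2 * k0)]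
  refine add_le_add ?_ ?_
  · refine Finset.sum_le_sum_of_subset_of_nonneg ?_ (fun _ _ _ => by positivity)
    intro e he
    simp only [Finset.mem_filter, Finset.mem_Icc] at he
    exact (hQ e he.1.1.1 he.1.2).2 he.2
  · refine tail5 _ k0 hk0 ?_
    intro e he
    simp only [Finset.mem_filter, Finset.mem_Icc] at he
    exact ⟨(hQ e he.1.1.1 he.1.2).1, by omega⟩

/-! ### The two classes -/

/-- prime to 6 -/
def P6 (d : ℕ) : Prop := d % 6 = 1 ∨ d % 6 = 5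

instance : DecidablePred P6 := fun _ => inferInstanceAs (Decidable (_ ∨ _))

/-- odd -/
def P2 (d : ℕ) : Prop := d % 2 = 1

instance : DecidablePred P2 := fun _ => inferInstanceAs (Decidable (_ = _))

theorem coprime_six (d : ℕ) : d.Coprime 6 ↔ P6 d := by
  have h1 : d.Coprime 6 ↔ (d % 6).Coprime 6 := by
    unfold Nat.Coprime
    rw [← Nat.gcd_rec, Nat.gcd_comm 6 d]
  have h2 : d % 6 < 6 := Nat.mod_lt _ (by norm_num)
  rw [h1]
  unfold P6
  generalize d % 6 = r at h2 ⊢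
  interval_cases r <;> decide

theorem mult6 : Mult P6 := by
  intro a b _ _
  rw [← coprime_six, ← coprime_six, ← coprime_six]
  exact Nat.coprime_mul_iff_left

theorem mult2 : Mult P2 := by
  intro a b _ _
  unfold P2
  rw [← Nat.odd_iff, ← Nat.odd_iff, ← Nat.odd_iff]
  exact Nat.odd_mul

theorem cnt_succ (P : ℕ → Prop) [DecidablePred P] (n : ℕ) :
    cnt P (n + 1) = cnt P n + if P (n + 1) then 1 else 0 := by
  unfold cnt
  rw [← Finset.insert_Icc_right_eq_Icc_add_one (by omega), Finset.filter_insert]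
  split_ifs with h
  · rw [Finset.card_insert_of_notMem]
    simp
  · rfl

theorem rs_succ (P : ℕ → Prop) [DecidablePred P] (n : ℕ) :
    rs P (n + 1) = rs P n + if P (n + 1) then 1 / ((n : ℝ) + 1) else 0 := by
  unfold rs
  rw [Finset.sum_filter, Finset.sum_filter, Finset.sum_Icc_succ_top (by omega)]
  push_cast
  rfl

theorem cnt6 (n : ℕ) : cnt P6 n = (n + 5) / 6 + (n + 1) / 6 := by
  induction n with
  | zero => simp [cnt]
  | succ n ih =>
    rw [cnt_succ, ih]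
    unfold P6
    split_ifs with h <;> omega

theorem cnt2 (n : ℕ) : cnt P2 n = (n + 1) / 2 := by
  induction n with
  | zero => simp [cnt]
  | succ n ih =>
    rw [cnt_succ, ih]
    unfold P2
    split_ifs with h <;> omega

theorem up6 (n : ℕ) : (cnt P6 n : ℝ) ≤ 1 / 3 * n + 2 / 3 := by
  have h : 3 * cnt P6 n ≤ n + 2 := by rw [cnt6]; omega
  have h' : 3 * (cnt P6 n : ℝ) ≤ n + 2 := by exact_mod_cast h
  linarith

theorem up2 (n : ℕ) : (cnt P2 n : ℝ) ≤ 1 / 2 * n + 1 / 2 := by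
  have h : 2 * cnt P2 n ≤ n + 1 := by rw [cnt2]; omega
  have h' : 2 * (cnt P2 n : ℝ) ≤ n + 1 := by exact_mod_cast h
  linarith

theorem low6 (t : ℝ) (ht : 1 ≤ t) : |1 / 3 * t - 2 / 3| ≤ (cnt P6 ⌊t⌋₊ : ℝ) := by
  have h1 : 1 ≤ ⌊t⌋₊ := Nat.le_floor (by exact_mod_cast ht)
  have h2 := Nat.lt_floor_add_one t
  have h : ⌊t⌋₊ + 1 ≤ 3 * cnt P6 ⌊t⌋₊ + 2 := by rw [cnt6]; omega
  have h' : (⌊t⌋₊ : ℝ) + 1 ≤ 3 * (cnt P6 ⌊t⌋₊ : ℝ) + 2 := by exact_mod_cast h
  have h3 : 1 ≤ cnt P6 ⌊t⌋₊ := by rw [cnt6]; omega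
  have h3' : (1 : ℝ) ≤ (cnt P6 ⌊t⌋₊ : ℝ) := by exact_mod_cast h3
  rw [abs_le]
  constructor <;> linarith

theorem low2 (t : ℝ) (ht : 1 ≤ t) : |1 / 2 * t - 1 / 2| ≤ (cnt P2 ⌊t⌋₊ : ℝ) := by
  have h2 := Nat.lt_floor_add_one t
  have h : ⌊t⌋₊ ≤ 2 * cnt P2 ⌊t⌋₊ := by rw [cnt2]; omega
  have h' : (⌊t⌋₊ : ℝ) ≤ 2 * (cnt P2 ⌊t⌋₊ : ℝ) := by exact_mod_cast h
  have h3 : (0 : ℝ) ≤ (cnt P2 ⌊t⌋₊ : ℝ) := by positivity
  rw [abs_le]
  constructor <;> linarith

/-- `2 (z + z³/3) ≤ log ((1+z)/(1-z))` for `z = (u-v)/(u+v)` -/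
theorem log_ge (u v : ℝ) (hv : 0 < v) (huv : v ≤ u) :
    2 * ((u - v) / (u + v)) + 2 / 3 * ((u - v) / (u + v)) ^ 3 ≤ Real.log u - Real.log v := by
  have hu : 0 < u := hv.trans_le huv
  have h0 : 0 ≤ (u - v) / (u + v) := div_nonneg (by linarith) (by linarith)
  have h1 : (u - v) / (u + v) < 1 := by rw [div_lt_one (by linarith)]; linarith
  have h := Real.sum_range_le_log_div h0 h1 2
  have h2 : (1 + (u - v) / (u + v)) / (1 - (u - v) / (u + v)) = u / v := by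
    have h3 : u + v ≠ 0 := by positivity
    have h4 : v ≠ 0 := hv.ne'
    have h5 : 1 + (u - v) / (u + v) = 2 * u / (u + v) := by field_simp; ring
    have h6 : 1 - (u - v) / (u + v) = 2 * v / (u + v) := by field_simp; ring
    rw [h5, h6]
    field_simp
  rw [h2, Real.log_div hu.ne' hv.ne'] at h
  rw [Finset.sum_range_succ, Finset.sum_range_succ, Finset.sum_range_zero] at h
  norm_num at h
  linarith

/-- `log u ≥ log v + 1 - v / u` -/
theorem log_ge' (u v : ℝ) (hv : 0 < v) (hu : 0 < u) : Real.log v + 1 - v / u ≤ Real.log u := by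
  have h := Real.log_le_sub_one_of_pos (div_pos hv hu)
  rw [Real.log_div hv.ne' hu.ne'] at h
  linarith

theorem log3 : (1.09 : ℝ) ≤ Real.log 3 := by
  have h := log_ge 3 2 (by norm_num) (by norm_num)
  have := Real.log_two_gt_d9
  norm_num at h
  linarith

theorem log4 : (1.386294 : ℝ) ≤ Real.log 4 := by
  have h : Real.log 4 = 2 * Real.log 2 := by
    rw [show (4 : ℝ) = 2 ^ 2 by norm_num, Real.log_pow]; norm_num
  have := Real.log_two_gt_d9
  linarith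

theorem log5 : (1.6094 : ℝ) ≤ Real.log 5 := by
  have h := log_ge 5 4 (by norm_num) (by norm_num)
  have := log4
  norm_num at h
  linarith

theorem log7 : (1.94 : ℝ) ≤ Real.log 7 := by
  have h := log_ge 7 5 (by norm_num) (by norm_num)
  have := log5
  norm_num at h
  linarith

theorem log11 : (2.39 : ℝ) ≤ Real.log 11 := by
  have h := log_ge 11 8 (by norm_num) (by norm_num)
  have h2 : Real.log 8 = 3 * Real.log 2 := by
    rw [show (8 : ℝ) = 2 ^ 3 by norm_num, Real.log_pow]; norm_num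
  have := Real.log_two_gt_d9
  norm_num at h
  linarith

/-! ### Sums of reciprocals -/

theorem rs2_succ (K : ℕ) : rs P2 (2 * (K + 1) + 1) = rs P2 (2 * K + 1) + 1 / (2 * (K : ℝ) + 3) := by
  have h1 : rs P2 (2 * K + 1 + 1) = rs P2 (2 * K + 1) := by
    rw [rs_succ, if_neg (by unfold P2; omega), add_zero]
  have h2 : 2 * (K + 1) + 1 = 2 * K + 1 + 1 + 1 := by ring
  rw [h2, rs_succ, if_pos (by unfold P2; omega), h1]
  push_cast
  congr 2
  ring

theorem rs2_floor (K n : ℕ) (h : n = 2 * K + 1 ∨ n = 2 * K + 2) : rs P2 n = rs P2 (2 * K + 1) := by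
  rcases h with rfl | rfl
  · rfl
  · rw [show 2 * K + 2 = (2 * K + 1) + 1 by ring, rs_succ, if_neg (by unfold P2; omega), add_zero]

theorem rs2_zero : rs P2 1 = 1 := by
  have h := rs_succ P2 0
  rw [if_pos (by unfold P2; omega)] at h
  rw [zero_add] at h
  rw [h]
  simp [rs]

theorem rs2_one : rs P2 3 = 4 / 3 := by
  have := rs2_succ 0
  norm_num [rs2_zero] at this
  exact this

theorem rs2_two : rs P2 5 = 23 / 15 := by
  have := rs2_succ 1
  norm_num [rs2_one] at this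
  exact this

theorem rs2_three : rs P2 7 = 176 / 105 := by
  have := rs2_succ 2
  norm_num [rs2_two] at this
  exact this

theorem rs2_large (K : ℕ) (hK : 3 ≤ K) :
    rs P2 (2 * K + 1) ≤ 1 / 2 * (Real.log (2 * K + 2) + 1.275) := by
  induction K, hK using Nat.le_induction with
  | base =>
    norm_num [rs2_three]
    have h2 : Real.log 8 = 3 * Real.log 2 := by
      rw [show (8 : ℝ) = 2 ^ 3 by norm_num, Real.log_pow]; norm_num
    have := Real.log_two_gt_d9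
    rw [h2]
    linarith
  | succ K hK ih =>
    rw [rs2_succ]
    have hK0 : (0 : ℝ) ≤ K := by positivity
    have h := log_ge (2 * K + 4) (2 * K + 2) (by positivity) (by linarith)
    have h1 : ((2 * (K : ℝ) + 4) - (2 * K + 2)) / ((2 * K + 4) + (2 * K + 2)) = 1 / (2 * K + 3) := by
      rw [div_eq_div_iff (by positivity) (by positivity)]
      ring
    rw [h1] at h
    have h2 : 0 ≤ (1 / (2 * (K : ℝ) + 3)) ^ 3 := by positivity
    push_cast
    have h3 : 2 * ((K : ℝ) + 1) + 2 = 2 * K + 4 := by ring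
    rw [h3]
    linarith

theorem rec2 (t : ℝ) (ht : 1 ≤ t) :
    rs P2 ⌊t⌋₊ ≤ 1 / 2 * (Real.log t + 1.275) + (1 / 2) / t := by
  have ht0 : 0 < t := by linarith
  have hn1 : 1 ≤ ⌊t⌋₊ := Nat.le_floor (by exact_mod_cast ht)
  have hn2 : (⌊t⌋₊ : ℝ) ≤ t := Nat.floor_le ht0.le
  obtain ⟨K, hK⟩ : ∃ K, ⌊t⌋₊ = 2 * K + 1 ∨ ⌊t⌋₊ = 2 * K + 2 := ⟨(⌊t⌋₊ - 1) / 2, by omega⟩
  rw [rs2_floor K _ hK]
  have hKt : 2 * (K : ℝ) + 1 ≤ t := by
    have h : 2 * K + 1 ≤ ⌊t⌋₊ := by omega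
    have h' : 2 * (K : ℝ) + 1 ≤ (⌊t⌋₊ : ℝ) := by exact_mod_cast h
    linarith
  have hinv : ∀ a : ℝ, a / t = a * (1 / t) := fun a => by ring
  have hi0 : 0 < 1 / t := by positivity
  by_cases h3 : 3 ≤ K
  · have h := rs2_large K h3
    have h4 := log_ge' t (2 * K + 2) (by positivity) ht0
    have h5 : (2 * (K : ℝ) + 2) / t ≤ 1 + 1 / t := by
      rw [div_le_iff₀ ht0]
      have : (1 + 1 / t) * t = t + 1 := by field_simp
      linarith
    rw [hinv (1 / 2)]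
    linarith
  · have h4 : K = 0 ∨ K = 1 ∨ K = 2 := by omega
    rcases h4 with rfl | rfl | rfl
    · norm_num [rs2_zero]
      have h := log_ge' t 1 (by norm_num) ht0
      rw [Real.log_one] at h
      rw [hinv (1 / 2)]
      linarith
    · have h := log_ge' t 3 (by norm_num) ht0
      have := log3
      have h6 : 1 / t ≤ 1 / 3 := by
        apply one_div_le_one_div_of_le (by norm_num)
        norm_num at hKt
        exact hKt
      rw [show 2 * 1 + 1 = 3 by rfl, rs2_one, hinv (1 / 2)]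
      rw [hinv 3] at h
      linarith
    · have h := log_ge' t 5 (by norm_num) ht0
      have := log5
      have h6 : 1 / t ≤ 1 / 5 := by
        apply one_div_le_one_div_of_le (by norm_num)
        norm_num at hKt
        exact hKt
      rw [show 2 * 2 + 1 = 5 by rfl, rs2_two, hinv (1 / 2)]
      rw [hinv 5] at h
      linarith

theorem rs6_succ (K : ℕ) : rs P6 (6 * (K + 1) + 1) =
    rs P6 (6 * K + 1) + 1 / (6 * (K : ℝ) + 5) + 1 / (6 * (K : ℝ) + 7) := by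
  have e1 : 6 * (K + 1) + 1 = 6 * K + 1 + 1 + 1 + 1 + 1 + 1 + 1 := by ring
  rw [e1]
  rw [rs_succ, if_pos (by unfold P6; omega)]
  rw [rs_succ, if_neg (by unfold P6; omega)]
  rw [rs_succ, if_pos (by unfold P6; omega)]
  rw [rs_succ, if_neg (by unfold P6; omega)]
  rw [rs_succ, if_neg (by unfold P6; omega)]
  rw [rs_succ, if_neg (by unfold P6; omega)]
  push_cast
  ring_nf

theorem rs6_floor (K n : ℕ) (h : 6 * K + 1 ≤ n) (h' : n ≤ 6 * K + 4) :
    rs P6 n = rs P6 (6 * K + 1) := by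
  obtain ⟨r, rfl⟩ : ∃ r, n = 6 * K + 1 + r := ⟨n - (6 * K + 1), by omega⟩
  have hr : r ≤ 3 := by omega
  interval_cases r
  · rfl
  · rw [rs_succ, if_neg (by unfold P6; omega), add_zero]
  · rw [show 6 * K + 1 + 2 = 6 * K + 1 + 1 + 1 by ring, rs_succ, if_neg (by unfold P6; omega),
      rs_succ, if_neg (by unfold P6; omega), add_zero, add_zero]
  · rw [show 6 * K + 1 + 3 = 6 * K + 1 + 1 + 1 + 1 by ring, rs_succ,
      if_neg (by unfold P6; omega), rs_succ, if_neg (by unfold P6; omega),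
      rs_succ, if_neg (by unfold P6; omega), add_zero, add_zero, add_zero]

theorem rs6_floor' (K n : ℕ) (h : 6 * K + 5 ≤ n) (h' : n ≤ 6 * K + 6) :
    rs P6 n = rs P6 (6 * K + 1) + 1 / (6 * (K : ℝ) + 5) := by
  have h1 : rs P6 (6 * K + 5) = rs P6 (6 * K + 1) + 1 / (6 * (K : ℝ) + 5) := by
    rw [show 6 * K + 5 = 6 * K + 4 + 1 by ring, rs_succ, if_pos (by unfold P6; omega),
      rs6_floor K (6 * K + 4) (by omega) (by omega)]
    push_cast
    ring_nf
  rcases (show n = 6 * K + 5 ∨ n = 6 * K + 5 + 1 by omega) with rfl | rfl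
  · exact h1
  · rw [rs_succ, if_neg (by unfold P6; omega), add_zero, h1]

theorem rs6_zero : rs P6 1 = 1 := by
  have h := rs_succ P6 0
  rw [if_pos (by unfold P6; omega)] at h
  rw [zero_add] at h
  rw [h]
  simp [rs]

theorem rs6_one : rs P6 7 = 47 / 35 := by
  have := rs6_succ 0
  norm_num [rs6_zero] at this
  exact this

theorem rs6_two : rs P6 13 = 47 / 35 + 1 / 11 + 1 / 13 := by
  have := rs6_succ 1
  norm_num [rs6_one] at this ⊢
  exact this

theorem rs6_large (K : ℕ) (hK : 2 ≤ K) :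
    rs P6 (6 * K + 1) ≤ 1 / 3 * (Real.log (6 * K + 3) + 1.825) := by
  induction K, hK using Nat.le_induction with
  | base =>
    norm_num [rs6_two]
    have h := log_ge 16 15 (by norm_num) (by norm_num)
    have h' := log_ge 15 16
    have h15 : Real.log 15 = Real.log 3 + Real.log 5 := by
      rw [← Real.log_mul (by norm_num) (by norm_num)]; norm_num
    have h3 := log_ge 3 2 (by norm_num) (by norm_num)
    have h5 := log_ge 5 4 (by norm_num) (by norm_num)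
    have := Real.log_two_gt_d9
    have := log4
    norm_num at h3 h5
    rw [h15]
    linarith
  | succ K hK ih =>
    rw [rs6_succ]
    have hK0 : (0 : ℝ) ≤ K := by positivity
    have h := log_ge (6 * K + 9) (6 * K + 3) (by positivity) (by linarith)
    have h1 : ((6 * (K : ℝ) + 9) - (6 * K + 3)) / ((6 * K + 9) + (6 * K + 3)) =
        1 / (2 * (K + 1)) := by
      rw [div_eq_div_iff (by positivity) (by positivity)]
      ring
    rw [h1] at h
    have h2 : 1 / (6 * (K : ℝ) + 5) + 1 / (6 * (K : ℝ) + 7) ≤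
        1 / 3 * (2 * (1 / (2 * ((K : ℝ) + 1))) + 2 / 3 * (1 / (2 * ((K : ℝ) + 1))) ^ 3) := by
      set m : ℝ := (K : ℝ) + 1 with hm
      have hm1 : 1 ≤ m := by linarith
      have e1 : 6 * (K : ℝ) + 5 = 6 * m - 1 := by rw [hm]; ring
      have e2 : 6 * (K : ℝ) + 7 = 6 * m + 1 := by rw [hm]; ring
      have e3 : 1 / 3 * (2 * (1 / (2 * m)) + 2 / 3 * (1 / (2 * m)) ^ 3) =
          (12 * m ^ 2 + 1) / (36 * m ^ 3) := by
        field_simp
        ring
      have p1 : 0 < 6 * m - 1 := by linarith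
      have p2 : 0 < 6 * m + 1 := by linarith
      rw [e1, e2, e3, div_add_div _ _ p1.ne' p2.ne', div_le_div_iff₀ (by positivity) (by positivity)]
      nlinarith [mul_pos p1 p2, pow_pos (lt_of_lt_of_le one_pos hm1) 2,
        pow_pos (lt_of_lt_of_le one_pos hm1) 3]
    push_cast
    have h3 : 6 * ((K : ℝ) + 1) + 3 = 6 * K + 9 := by ring
    rw [h3]
    linarith

theorem rec6 (t : ℝ) (ht : 1 ≤ t) :
    rs P6 ⌊t⌋₊ ≤ 1 / 3 * (Real.log t + 1.825) + 0.74 / t := by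
  have ht0 : 0 < t := by linarith
  have hn1 : 1 ≤ ⌊t⌋₊ := Nat.le_floor (by exact_mod_cast ht)
  have hn2 : (⌊t⌋₊ : ℝ) ≤ t := Nat.floor_le ht0.le
  have hn3 : t < (⌊t⌋₊ : ℝ) + 1 := Nat.lt_floor_add_one t
  obtain ⟨K, hK1, hK2⟩ : ∃ K, 6 * K + 1 ≤ ⌊t⌋₊ ∧ ⌊t⌋₊ ≤ 6 * K + 6 :=
    ⟨(⌊t⌋₊ - 1) / 6, by omega, by omega⟩
  have hinv : ∀ a : ℝ, a / t = a * (1 / t) := fun a => by ring
  have hi0 : 0 < 1 / t := by positivity
  by_cases hr : ⌊t⌋₊ ≤ 6 * K + 4
  · rw [rs6_floor K _ hK1 hr]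
    have hKt : 6 * (K : ℝ) + 1 ≤ t := by
      have h' : 6 * (K : ℝ) + 1 ≤ (⌊t⌋₊ : ℝ) := by exact_mod_cast hK1
      linarith
    by_cases h2 : 2 ≤ K
    · have h := rs6_large K h2
      have h4 := log_ge' t (6 * K + 3) (by positivity) ht0
      have h5 : (6 * (K : ℝ) + 3) / t ≤ 1 + 2 * (1 / t) := by
        rw [div_le_iff₀ ht0]
        have : (1 + 2 * (1 / t)) * t = t + 2 := by field_simp
        linarith
      rw [hinv 0.74]
      linarith
    · have h4 : K = 0 ∨ K = 1 := by omega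
      rcases h4 with rfl | rfl
      · rw [show 6 * 0 + 1 = 1 by rfl, rs6_zero]
        have h := log_ge' t 1 (by norm_num) ht0
        rw [Real.log_one] at h
        have hup : t < 5 := by
          have h' : (⌊t⌋₊ : ℝ) ≤ 4 := by exact_mod_cast hr
          linarith
        have h6 : 1 / 5 ≤ 1 / t := one_div_le_one_div_of_le ht0 hup.le
        rw [hinv 0.74]
        linarith
      · rw [show 6 * 1 + 1 = 7 by rfl, rs6_one]
        have h := log_ge' t 7 (by norm_num) ht0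
        have := log7
        have h6 : 1 / t ≤ 1 / 7 := by
          apply one_div_le_one_div_of_le (by norm_num)
          norm_num at hKt
          exact hKt
        rw [hinv 0.74]
        rw [hinv 7] at h
        linarith
  · rw [rs6_floor' K _ (by omega) hK2]
    have hK5 : 6 * K + 5 ≤ ⌊t⌋₊ := by omega
    have hKt : 6 * (K : ℝ) + 5 ≤ t := by
      have h' : 6 * (K : ℝ) + 5 ≤ (⌊t⌋₊ : ℝ) := by exact_mod_cast hK5
      linarith
    have hup : t < 6 * (K : ℝ) + 7 := by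
      have h' : (⌊t⌋₊ : ℝ) ≤ 6 * (K : ℝ) + 6 := by exact_mod_cast hK2
      linarith
    by_cases h2 : 2 ≤ K
    · have h := rs6_large K h2
      have hK2' : (2 : ℝ) ≤ K := by exact_mod_cast h2
      have h4 := log_ge' t (6 * K + 3) (by positivity) ht0
      have h5 : (6 * (K : ℝ) + 3) / t ≤ 1 - 2 * (1 / t) := by
        rw [div_le_iff₀ ht0]
        have : (1 - 2 * (1 / t)) * t = t - 2 := by field_simp
        linarith
      have h6 : 1 / (6 * (K : ℝ) + 5) ≤ 19 / 17 * (1 / t) := by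
        rw [mul_one_div, div_le_div_iff₀ (by positivity) ht0]
        linarith
      rw [hinv 0.74]
      linarith
    · have h4 : K = 0 ∨ K = 1 := by omega
      rcases h4 with rfl | rfl
      · rw [show 6 * 0 + 1 = 1 by rfl, rs6_zero]
        have h := log_ge' t 5 (by norm_num) ht0
        have := log5
        have h6 : 1 / t ≤ 1 / 5 := by
          apply one_div_le_one_div_of_le (by norm_num)
          norm_num at hKt
          exact hKt
        rw [hinv 0.74]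
        rw [hinv 5] at h
        generalize 1 / t = w at h h6 hi0 ⊢
        norm_num
        linarith
      · rw [show 6 * 1 + 1 = 7 by rfl, rs6_one]
        have h := log_ge' t 11 (by norm_num) ht0
        have := log11
        have h6 : 1 / t ≤ 1 / 11 := by
          apply one_div_le_one_div_of_le (by norm_num)
          norm_num at hKt
          exact hKt
        rw [hinv 0.74]
        rw [hinv 11] at h
        generalize 1 / t = w at h h6 hi0 ⊢
        norm_num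
        linarith

/-! ### Conclusion -/

theorem sumA2 (Q : ℕ → Prop) [DecidablePred Q] (hQ : ∀ e, 1 ≤ e → Q e → e % 2 = 1) (n : ℕ) :
    ∑ e ∈ (Icc 1 n).filter Q, 1 / ((e : ℝ) ^ 2) ≤ 1.25 := by
  rw [← Finset.sum_filter_add_sum_filter_not ((Icc 1 n).filter Q) (fun e => e ≤ 1)]
  have h1 : ∑ e ∈ ((Icc 1 n).filter Q).filter (fun e => e ≤ 1), 1 / ((e : ℝ) ^ 2) ≤
      ∑ e ∈ ({1} : Finset ℕ), 1 / ((e : ℝ) ^ 2) := by
    refine Finset.sum_le_sum_of_subset_of_nonneg ?_ (fun _ _ _ => by positivity)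
    intro e he
    simp only [Finset.mem_filter, Finset.mem_Icc] at he
    rw [Finset.mem_singleton]
    omega
  have h2 := tail2 (((Icc 1 n).filter Q).filter (fun e => ¬ e ≤ 1)) 1 le_rfl (by
    intro e he
    simp only [Finset.mem_filter, Finset.mem_Icc] at he
    have := hQ e he.1.1.1 he.1.2
    omega)
  rw [Finset.sum_singleton] at h1
  norm_num at h1 h2 ⊢
  linarith

theorem sumA1 (Q : ℕ → Prop) [DecidablePred Q] (hQ : ∀ e, 1 ≤ e → Q e → e % 2 = 1) (n : ℕ) :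
    ∑ e ∈ (Icc 1 n).filter Q, 1 / ((e : ℝ) * √(e : ℝ)) ≤ 2 := by
  rw [← Finset.sum_filter_add_sum_filter_not ((Icc 1 n).filter Q) (fun e => e ≤ 1)]
  have h1 : ∑ e ∈ ((Icc 1 n).filter Q).filter (fun e => e ≤ 1), 1 / ((e : ℝ) * √(e : ℝ)) ≤
      ∑ e ∈ ({1} : Finset ℕ), 1 / ((e : ℝ) * √(e : ℝ)) := by
    refine Finset.sum_le_sum_of_subset_of_nonneg ?_ (fun _ _ _ => by positivity)
    intro e he
    simp only [Finset.mem_filter, Finset.mem_Icc] at he
    rw [Finset.mem_singleton]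
    omega
  have h2 := tail1 (((Icc 1 n).filter Q).filter (fun e => ¬ e ≤ 1)) (by
    intro e he
    simp only [Finset.mem_filter, Finset.mem_Icc] at he
    have := hQ e he.1.1.1 he.1.2
    omega)
  rw [Finset.sum_singleton] at h1
  have h3 : 1 / (((1 : ℕ) : ℝ) * √((1 : ℕ) : ℝ)) = 1 := by simp
  rw [h3] at h1
  linarith

theorem sumA5six (n : ℕ) : ∑ e ∈ (Icc 1 n).filter (fun e => P6 e ∧ Squarefree e),
    1 / ((e : ℝ) ^ 2 * √(e : ℝ)) ≤ 1.035 := by
  refine (sum5_le _ ({1, 5, 7, 11, 13, 17, 19, 23, 25, 29, 31, 35, 37, 41} : Finset ℕ) 21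
    (by norm_num) ?_ n).trans ?_
  · rintro e h1 ⟨h2, -⟩
    unfold P6 at h2
    refine ⟨by omega, fun h3 => ?_⟩
    interval_cases e <;> simp_all
  · have h1 := fin_six
    have h2 : (6.557 : ℝ) ≤ √(2 * ((21 : ℕ) : ℝ) + 1) := by
      apply Real.le_sqrt_of_sq_le
      norm_num
    have h3 : 1 / √(2 * ((21 : ℕ) : ℝ) + 1) ≤ 1 / 6.557 :=
      one_div_le_one_div_of_le (by norm_num) h2
    have h4 : 1 / √(2 * ((21 : ℕ) : ℝ) + 1) * (1 / (4 * ((21 : ℕ) : ℝ))) ≤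
        1 / 6.557 * (1 / (4 * ((21 : ℕ) : ℝ))) := by gcongr
    refine (add_le_add h1 h4).trans ?_
    norm_num

theorem sumA5two (n : ℕ) : ∑ e ∈ (Icc 1 n).filter (fun e => P2 e ∧ Squarefree e),
    1 / ((e : ℝ) ^ 2 * √(e : ℝ)) ≤ 1.1 := by
  refine (sum5_le _ ({1, 3, 5, 7, 11, 13, 15, 17, 19, 21, 23, 29, 31, 33, 35, 37, 39, 41, 43, 47,
    51} : Finset ℕ) 26 (by norm_num) ?_ n).trans ?_
  · rintro e h1 ⟨h2, h3⟩
    unfold P2 at h2
    refine ⟨h2, fun h4 => ?_⟩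
    by_contra h5
    have h6 : ∀ d : ℕ, 1 < d → ¬ (d * d ∣ e) := fun d hd hde => by
      have := Nat.isUnit_iff.mp (h3 d hde)
      omega
    have h7 := h6 3 (by norm_num)
    have h8 := h6 5 (by norm_num)
    have h9 := h6 7 (by norm_num)
    interval_cases e <;> simp_all
  · have h1 := fin_two
    have h2 : (7.28 : ℝ) ≤ √(2 * ((26 : ℕ) : ℝ) + 1) := by
      apply Real.le_sqrt_of_sq_le
      norm_num
    have h3 : 1 / √(2 * ((26 : ℕ) : ℝ) + 1) ≤ 1 / 7.28 :=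
      one_div_le_one_div_of_le (by norm_num) h2
    have h4 : 1 / √(2 * ((26 : ℕ) : ℝ) + 1) * (1 / (4 * ((26 : ℕ) : ℝ))) ≤
        1 / 7.28 * (1 / (4 * ((26 : ℕ) : ℝ))) := by gcongr
    refine (add_le_add h1 h4).trans ?_
    norm_num

end A4

/-- A4 -/
theorem stMdiv : StMdiv := by
  constructor
  · intro x hx
    have hx0 : 0 ≤ x := by linarith
    have hf : (Icc 1 ⌊x⌋₊).filter (fun d ↦ d.Coprime 6) = (Icc 1 ⌊x⌋₊).filter A4.P6 :=
      Finset.filter_congr fun d _ => A4.coprime_six d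
    rw [hf]
    have h := A4.M_le A4.mult6 ((1 / 3) ^ 2) (2 * 1.825 - 1)
      (2 * (1 / 3) * 0.74 + 4 * (1 / 3) * (2 / 3)) ((2 / 3) ^ 2) 1.035 1.25 2 (by norm_num)
      (by norm_num) (by norm_num) (by norm_num)
      (fun y hy => A4.TT_le A4.mult6 (1 / 3) (2 / 3) 1.825 0.74 (by norm_num) (by norm_num)
        A4.up6 A4.low6 A4.rec6 y hy) A4.sumA5six
      (A4.sumA2 _ (fun e _ h => by
        have := h.1
        unfold A4.P6 at this
        omega))
      (A4.sumA1 _ (fun e _ h => by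
        have := h.1
        unfold A4.P6 at this
        omega)) x hx
    refine h.trans ?_
    have hs : 0 ≤ √x := Real.sqrt_nonneg x
    have e1 : (1 / 3 : ℝ) ^ 2 * x * (Real.log x + (2 * 1.825 - 1)) * 1.035 =
        0.115 * x * (Real.log x + 2.65) := by ring
    rw [e1]
    norm_num
    linarith
  · intro x hx
    have hx0 : 0 ≤ x := by linarith
    have h := A4.M_le A4.mult2 ((1 / 2) ^ 2) (2 * 1.275 - 1)
      (2 * (1 / 2) * (1 / 2) + 4 * (1 / 2) * (1 / 2)) ((1 / 2) ^ 2) 1.1 1.25 2 (by norm_num)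
      (by norm_num) (by norm_num) (by norm_num)
      (fun y hy => A4.TT_le A4.mult2 (1 / 2) (1 / 2) 1.275 (1 / 2) (by norm_num) (by norm_num)
        A4.up2 A4.low2 A4.rec2 y hy) A4.sumA5two
      (A4.sumA2 _ (fun e _ h => h.1)) (A4.sumA1 _ (fun e _ h => h.1)) x hx
    refine h.trans ?_
    have hs : 0 ≤ √x := Real.sqrt_nonneg x
    have e1 : (1 / 2 : ℝ) ^ 2 * x * (Real.log x + (2 * 1.275 - 1)) * 1.1 =
        0.275 * x * (Real.log x + 1.55) := by ring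
    rw [e1]
    norm_num
    linarith

end Pool.Agent.TFS
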