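import Pool.Agent.Lib.TFS.A5d

/-!
A5: the error sums.
-/

set_option autoImplicit false

open Finset

namespace Pool.Agent.TFS

namespace A5

lemma BB_scale (al be cs c1 : ℝ) (ha : 0 ≤ al) (hb : 0 ≤ be) (hc : 0 ≤ cs) (h1 : 0 ≤ c1)
    (x : ℝ) (k : ℕ) (hx : 2.7182818286 ≤ x) :
    BB al be cs c1 (2 ^ k * x) ≤ 4 ^ k * BB al be cs c1 x := by
  have hx0 : 0 < x := by linarith
  have h2k : (1 : ℝ) ≤ 2 ^ k := one_le_pow₀ (by norm_num)
  have h2k0 : (0 : ℝ) < 2 ^ k := by positivity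
  have hl1 : 1 ≤ Real.log x := by
    rw [Real.le_log_iff_exp_le hx0]
    linarith [Real.exp_one_lt_d9]
  have hl2 : Real.log (2 ^ k * x) ≤ 2 ^ k * Real.log x := by
    rw [Real.log_mul (by positivity) (by positivity)]
    have := Real.log_le_sub_one_of_pos h2k0
    nlinarith
  have h44 : (4 : ℝ) ^ k = 2 ^ k * 2 ^ k := by
    rw [← mul_pow]; norm_num
  have hsq : √(2 ^ k * x) ≤ 2 ^ k * √x := by
    rw [Real.sqrt_mul h2k0.le]
    apply mul_le_mul_of_nonneg_right _ (Real.sqrt_nonneg x)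
    rw [Real.sqrt_le_left h2k0.le]
    nlinarith
  have hsx := Real.sqrt_nonneg x
  unfold BB
  have e1 : al * (2 ^ k * x) * (Real.log (2 ^ k * x) + be) ≤
      4 ^ k * (al * x * (Real.log x + be)) := by
    have h3 : Real.log (2 ^ k * x) + be ≤ 2 ^ k * (Real.log x + be) := by nlinarith
    calc al * (2 ^ k * x) * (Real.log (2 ^ k * x) + be)
        ≤ al * (2 ^ k * x) * (2 ^ k * (Real.log x + be)) :=
          mul_le_mul_of_nonneg_left h3 (by positivity)
      _ = _ := by rw [h44]; ring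
  have e2 : cs * √(2 ^ k * x) ≤ 4 ^ k * (cs * √x) := by
    calc cs * √(2 ^ k * x) ≤ cs * (2 ^ k * √x) := mul_le_mul_of_nonneg_left hsq hc
      _ ≤ 2 ^ k * (cs * (2 ^ k * √x)) := by
          have : 0 ≤ cs * (2 ^ k * √x) := by positivity
          nlinarith
      _ = _ := by rw [h44]; ring
  have e3 : c1 ≤ 4 ^ k * c1 := by
    have : (1 : ℝ) ≤ 4 ^ k := one_le_pow₀ (by norm_num)
    nlinarith
  have e4 : 4 ^ k * (al * x * (Real.log x + be) + cs * √x + c1) =
      4 ^ k * (al * x * (Real.log x + be)) + 4 ^ k * (cs * √x) + 4 ^ k * c1 := by ring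
  rw [e4]
  linarith

lemma geom_two (K : ℕ) : ∑ k ∈ range K, (4 : ℝ) ^ k / 8 ^ k ≤ 2 := by
  have e : ∀ k ∈ range K, (4 : ℝ) ^ k / 8 ^ k = (1 / 2) ^ k := by
    intro k _
    rw [← div_pow]; norm_num
  rw [Finset.sum_congr rfl e]
  have h := geom_sum_eq (by norm_num : (1 / 2 : ℝ) ≠ 1) K
  rw [h]
  have : (0 : ℝ) ≤ (1 / 2) ^ K := by positivity
  rw [show (1 / 2 - 1 : ℝ) = -(1 / 2) by norm_num, div_neg, ← neg_div, div_le_iff₀ (by norm_num)]
  linarith

/-- the sum of the majorant -/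
lemma sum_GG (a : ℕ → ℝ) (ha : ∀ d, 0 ≤ a d) (h0 : a 0 = 0) (al be cs c1 : ℝ) (hal : 0 ≤ al)
    (hb : 0 ≤ be) (hc : 0 ≤ cs) (hc1 : 0 ≤ c1)
    (hB : ∀ x : ℝ, 1 ≤ x → ∑ d ∈ Icc 1 ⌊x⌋₊, a d ≤ BB al be cs c1 x) (D : ℝ) (hD : 10000 ≤ D)
    (K n : ℕ) :
    ∑ d ∈ range n, a d * GG K (d / D) ≤
      13963 / 20000 * (√D * (EE al be cs c1 D - EE al be cs c1 1)) +
      ∑ j ∈ range 53, ww j * BB al be cs c1 (qq ^ j * D) + 2 * ta * BB al be cs c1 (16 * D) := by
  have hD0 : 0 < D := by linarith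
  have hsD : 0 < √D := Real.sqrt_pos.mpr hD0
  have hind : ∀ t : ℝ, 1 ≤ t → ∑ d ∈ range n, a d * (if (d : ℝ) / D ≤ t then 1 else 0) ≤
      BB al be cs c1 (t * D) := by
    intro t ht
    have h1 := sum_ind_le a ha h0 n (t * D) (by positivity)
    have h2 := hB (t * D) (by nlinarith)
    have e : ∀ d ∈ range n, a d * (if (d : ℝ) / D ≤ t then (1 : ℝ) else 0) =
        a d * (if (d : ℝ) ≤ t * D then 1 else 0) := by
      intro d _
      simp only [div_le_iff₀ hD0]
    rw [Finset.sum_congr rfl e]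
    exact h1.trans h2
  have hroot : ∑ d ∈ range n, a d * (if (d : ℝ) / D ≤ 1 then 1 / √((d : ℝ) / D) - 1 else 0) ≤
      √D * (EE al be cs c1 D - EE al be cs c1 1) := by
    have h1 := sum_root_le a ha h0 n D hD0.le
    have h2 := sumQ a al be cs c1 hal hb hc hB D (by linarith)
    have e : ∑ d ∈ range n, a d * (if (d : ℝ) / D ≤ 1 then 1 / √((d : ℝ) / D) - 1 else 0) =
        √D * ∑ d ∈ range n, a d * (if (d : ℝ) ≤ D then 1 / √(d : ℝ) - 1 / √D else 0) := by
      rw [Finset.mul_sum]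
      apply Finset.sum_congr rfl
      intro d _
      simp only [div_le_iff₀ hD0, one_mul]
      split_ifs with h
      · rw [Real.sqrt_div (Nat.cast_nonneg d)]
        field_simp
      · simp
    rw [e]
    exact mul_le_mul_of_nonneg_left (h1.trans h2) hsD.le
  have hsplit : ∑ d ∈ range n, a d * GG K (d / D) =
      13963 / 20000 * (∑ d ∈ range n, a d *
        (if (d : ℝ) / D ≤ 1 then 1 / √((d : ℝ) / D) - 1 else 0)) +
      ∑ j ∈ range 53, ww j * (∑ d ∈ range n, a d * (if (d : ℝ) / D ≤ qq ^ j then 1 else 0)) +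
      ∑ k ∈ range (K + 1), ta / 8 ^ k *
        (∑ d ∈ range n, a d * (if (d : ℝ) / D ≤ qq ^ 52 * 2 ^ (k + 1) then 1 else 0)) := by
    have e1 : ∑ j ∈ range 53, ww j *
        (∑ d ∈ range n, a d * (if (d : ℝ) / D ≤ qq ^ j then 1 else 0)) =
        ∑ d ∈ range n, a d * ∑ j ∈ range 53, ww j * (if (d : ℝ) / D ≤ qq ^ j then 1 else 0) := by
      simp only [Finset.mul_sum]
      rw [Finset.sum_comm]
      apply Finset.sum_congr rfl
      intro d _
      apply Finset.sum_congr rfl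
      intro j _
      ring
    have e2 : ∑ k ∈ range (K + 1), ta / 8 ^ k *
        (∑ d ∈ range n, a d * (if (d : ℝ) / D ≤ qq ^ 52 * 2 ^ (k + 1) then (1 : ℝ) else 0)) =
        ∑ d ∈ range n, a d * ∑ k ∈ range (K + 1), ta / 8 ^ k *
          (if (d : ℝ) / D ≤ qq ^ 52 * 2 ^ (k + 1) then (1 : ℝ) else 0) := by
      simp only [Finset.mul_sum]
      rw [Finset.sum_comm]
      apply Finset.sum_congr rfl
      intro d _
      apply Finset.sum_congr rfl
      intro j _
      ring
    rw [e1, e2, Finset.mul_sum, ← Finset.sum_add_distrib, ← Finset.sum_add_distrib]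
    apply Finset.sum_congr rfl
    intro d _
    unfold GG
    ring
  rw [hsplit]
  have p1 := mul_le_mul_of_nonneg_left hroot (by norm_num : (0 : ℝ) ≤ 13963 / 20000)
  have p2 : ∑ j ∈ range 53, ww j *
      (∑ d ∈ range n, a d * (if (d : ℝ) / D ≤ qq ^ j then 1 else 0)) ≤
      ∑ j ∈ range 53, ww j * BB al be cs c1 (qq ^ j * D) := by
    apply Finset.sum_le_sum
    intro j hj
    rw [Finset.mem_range] at hj
    apply mul_le_mul_of_nonneg_left _ (ww_nonneg j hj)
    exact hind _ (one_le_pow₀ one_lt_qq.le)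
  have p3 : ∑ k ∈ range (K + 1), ta / 8 ^ k *
      (∑ d ∈ range n, a d * (if (d : ℝ) / D ≤ qq ^ 52 * 2 ^ (k + 1) then 1 else 0)) ≤
      2 * ta * BB al be cs c1 (16 * D) := by
    have hBB0 : 0 ≤ BB al be cs c1 (16 * D) := by
      unfold BB
      have : 0 ≤ Real.log (16 * D) := Real.log_nonneg (by linarith)
      positivity
    have hta : 0 ≤ ta := by unfold ta; norm_num
    have h1 : ∀ k ∈ range (K + 1), ta / 8 ^ k *
        (∑ d ∈ range n, a d * (if (d : ℝ) / D ≤ qq ^ 52 * 2 ^ (k + 1) then (1 : ℝ) else 0)) ≤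
        ta * BB al be cs c1 (16 * D) * (4 ^ k / 8 ^ k) := by
      intro k _
      have hk1 : (1 : ℝ) ≤ 2 ^ (k + 1) := one_le_pow₀ (by norm_num)
      have h2 := hind (qq ^ 52 * 2 ^ (k + 1)) (by nlinarith [qq52.1])
      have h3 : BB al be cs c1 (qq ^ 52 * 2 ^ (k + 1) * D) ≤ BB al be cs c1 (2 ^ k * (16 * D)) := by
        apply BB_mono al be cs c1 hal hb hc
        · have : 1 ≤ qq ^ 52 * 2 ^ (k + 1) := by nlinarith [qq52.1]
          nlinarith
        · have h4 : qq ^ 52 * 2 ^ (k + 1) ≤ 8 * 2 ^ (k + 1) :=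
            mul_le_mul_of_nonneg_right qq52.2 (by positivity)
          calc qq ^ 52 * 2 ^ (k + 1) * D ≤ 8 * 2 ^ (k + 1) * D :=
                mul_le_mul_of_nonneg_right h4 hD0.le
            _ = 2 ^ k * (16 * D) := by ring
      have h5 := BB_scale al be cs c1 hal hb hc hc1 (16 * D) k (by linarith)
      calc ta / 8 ^ k *
          (∑ d ∈ range n, a d * (if (d : ℝ) / D ≤ qq ^ 52 * 2 ^ (k + 1) then (1 : ℝ) else 0))
          ≤ ta / 8 ^ k * (4 ^ k * BB al be cs c1 (16 * D)) :=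
            mul_le_mul_of_nonneg_left (h2.trans (h3.trans h5)) (by positivity)
        _ = _ := by ring
    refine (Finset.sum_le_sum h1).trans ?_
    rw [← Finset.mul_sum]
    have h6 := geom_two (K + 1)
    have h7 := mul_le_mul_of_nonneg_left h6 (mul_nonneg hta hBB0)
    linarith
  linarith

/-- evaluation of the step sum -/
lemma sum_steps (al be cs c1 : ℝ) (hal : 0 ≤ al) (hb : 0 ≤ be) (hc : 0 ≤ cs) (D : ℝ)
    (hD : 10000 ≤ D) :
    ∑ j ∈ range 53, ww j * BB al be cs c1 (qq ^ j * D) ≤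
      al * D * ((Real.log D + be) * 1.40783 + 0.039606 * 27.9898) + cs * √D * 0.97044 +
        c1 * (13963 / 20000) := by
  have hD0 : 0 < D := by linarith
  have hL : 0 ≤ Real.log D := Real.log_nonneg (by linarith)
  have hq0 : 0 < qq := by linarith [one_lt_qq]
  have hsD := Real.sqrt_nonneg D
  have hlq : 0 ≤ Real.log qq := Real.log_nonneg one_lt_qq.le
  have e : ∑ j ∈ range 53, ww j * BB al be cs c1 (qq ^ j * D) =
      al * D * ((Real.log D + be) * ∑ j ∈ range 53, ww j * qq ^ j +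
        Real.log qq * ∑ j ∈ range 53, ww j * qq ^ j * j) +
      cs * √D * ∑ j ∈ range 53, ww j * (51 / 50) ^ j + c1 * ∑ j ∈ range 53, ww j := by
    simp only [Finset.mul_sum, ← Finset.sum_add_distrib]
    apply Finset.sum_congr rfl
    intro j _
    unfold BB
    rw [Real.log_mul (by positivity) (by positivity), Real.log_pow,
      Real.sqrt_mul (by positivity)]
    have h2 : √(qq ^ j) = (51 / 50 : ℝ) ^ j := by
      rw [show qq = (51 / 50 : ℝ) ^ 2 by unfold qq; norm_num, ← pow_mul, mul_comm 2 j, pow_mul,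
        Real.sqrt_sq (by positivity)]
    rw [h2]
    ring
  rw [e, S4]
  have h2n : 0 ≤ ∑ j ∈ range 53, ww j * qq ^ j * (j : ℝ) := by
    apply Finset.sum_nonneg
    intro j hj
    rw [Finset.mem_range] at hj
    have := ww_nonneg j hj
    positivity
  have k1 : (Real.log D + be) * ∑ j ∈ range 53, ww j * qq ^ j ≤ (Real.log D + be) * 1.40783 :=
    mul_le_mul_of_nonneg_left S1 (by linarith)
  have k2 : Real.log qq * ∑ j ∈ range 53, ww j * qq ^ j * (j : ℝ) ≤ 0.039606 * 27.9898 :=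
    mul_le_mul log_qq S2 h2n (by norm_num)
  have k3 : cs * √D * ∑ j ∈ range 53, ww j * (51 / 50) ^ j ≤ cs * √D * 0.97044 :=
    mul_le_mul_of_nonneg_left S3 (by positivity)
  have k4 : al * D * ((Real.log D + be) * ∑ j ∈ range 53, ww j * qq ^ j +
        Real.log qq * ∑ j ∈ range 53, ww j * qq ^ j * (j : ℝ)) ≤
      al * D * ((Real.log D + be) * 1.40783 + 0.039606 * 27.9898) :=
    mul_le_mul_of_nonneg_left (by linarith) (by positivity)
  linarith

/-- the total in terms of `R = √D` and `L = log D` -/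
lemma total_le (a : ℕ → ℝ) (ha : ∀ d, 0 ≤ a d) (h0 : a 0 = 0) (al be cs c1 : ℝ) (hal : 0 ≤ al)
    (hb : 0 ≤ be) (hc : 0 ≤ cs) (hc1 : 0 ≤ c1)
    (hB : ∀ x : ℝ, 1 ≤ x → ∑ d ∈ Icc 1 ⌊x⌋₊, a d ≤ BB al be cs c1 x) (D : ℝ) (hD : 10000 ≤ D)
    (K n : ℕ) :
    ∑ d ∈ range n, a d * GG K (d / D) ≤
      13963 / 20000 * (al * D * (Real.log D + be - 2) +
        √D * (cs / 2 * Real.log D + c1 + al * (2 - be))) +
      (al * D * ((Real.log D + be) * 1.40783 + 0.039606 * 27.9898) + cs * √D * 0.97044 +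
        c1 * (13963 / 20000)) +
      1 / 180000 * (al * (16 * D) * (Real.log D + 2.7726 + be) + cs * (4 * √D) + c1) := by
  have hD0 : 0 < D := by linarith
  have hsD : 0 < √D := Real.sqrt_pos.mpr hD0
  have hq : √D * √D = D := Real.mul_self_sqrt hD0.le
  have h1 := sum_GG a ha h0 al be cs c1 hal hb hc hc1 hB D hD K n
  have h2 := sum_steps al be cs c1 hal hb hc D hD
  have h3 : √D * (EE al be cs c1 D - EE al be cs c1 1) ≤ al * D * (Real.log D + be - 2) +
        √D * (cs / 2 * Real.log D + c1 + al * (2 - be)) := by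
    unfold EE
    rw [Real.log_one, Real.sqrt_one]
    have e : √D * (al * √D * (Real.log D + be - 2) + cs / 2 * Real.log D - c1 / √D -
        (al * 1 * (0 + be - 2) + cs / 2 * 0 - c1 / 1)) =
        al * (√D * √D) * (Real.log D + be - 2) +
        √D * (cs / 2 * Real.log D + c1 + al * (2 - be)) - c1 := by
      field_simp
      ring
    rw [e, hq]
    linarith
  have h4 : 2 * ta * BB al be cs c1 (16 * D) ≤
      1 / 180000 * (al * (16 * D) * (Real.log D + 2.7726 + be) + cs * (4 * √D) + c1) := by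
    have e : BB al be cs c1 (16 * D) = al * (16 * D) * (Real.log 16 + Real.log D + be) +
        cs * (4 * √D) + c1 := by
      unfold BB
      rw [Real.log_mul (by norm_num) hD0.ne', Real.sqrt_mul (by norm_num)]
      rw [show √(16 : ℝ) = 4 by
        rw [show (16 : ℝ) = 4 ^ 2 by norm_num, Real.sqrt_sq (by norm_num)]]
    rw [e]
    have h5 := log_sixteen
    have h6 : al * (16 * D) * (Real.log 16 + Real.log D + be) ≤
        al * (16 * D) * (Real.log D + 2.7726 + be) :=
      mul_le_mul_of_nonneg_left (by linarith) (by positivity)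
    unfold ta
    linarith
  linarith

/-- summability and value -/
lemma core (a : ℕ → ℝ) (ha : ∀ d, 0 ≤ a d) (h0 : a 0 = 0) (al be cs c1 : ℝ) (hal : 0 ≤ al)
    (hb : 0 ≤ be) (hc : 0 ≤ cs) (hc1 : 0 ≤ c1)
    (hB : ∀ x : ℝ, 1 ≤ x → ∑ d ∈ Icc 1 ⌊x⌋₊, a d ≤ BB al be cs c1 x) (D : ℝ) (hD : 10000 ≤ D)
    (η : ℕ → ℝ) (hη0 : ∀ d, 0 < η d)
    (hη : ∀ d : ℕ, 1 ≤ d → ∀ K : ℕ, (d : ℝ) / D ≤ qq ^ 52 * 2 ^ K →
      √((d : ℝ) / D) * Kf (η d) ((1 / ((d : ℝ) / D) - (d : ℝ) / D) / 4) ≤ GG K ((d : ℝ) / D))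
    (T : ℝ)
    (hT : 13963 / 20000 * (al * D * (Real.log D + be - 2) +
        √D * (cs / 2 * Real.log D + c1 + al * (2 - be))) +
      (al * D * ((Real.log D + be) * 1.40783 + 0.039606 * 27.9898) + cs * √D * 0.97044 +
        c1 * (13963 / 20000)) +
      1 / 180000 * (al * (16 * D) * (Real.log D + 2.7726 + be) + cs * (4 * √D) + c1) ≤ T) :
    Summable (fun d : ℕ ↦ √(d : ℝ) * a d * Kf (η d) ((D / d - d / D) / 4)) ∧
    ∑' d : ℕ, √(d : ℝ) * a d * Kf (η d) ((D / d - d / D) / 4) ≤ √D * T := by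
  have hD0 : 0 < D := by linarith
  have hsD : 0 < √D := Real.sqrt_pos.mpr hD0
  have hnn : ∀ d : ℕ, 0 ≤ √(d : ℝ) * a d * Kf (η d) ((D / d - d / D) / 4) := by
    intro d
    apply mul_nonneg (mul_nonneg (Real.sqrt_nonneg _) (ha d))
    unfold Kf
    have := hη0 d
    have := Real.pi_pos
    positivity
  have hpart : ∀ n : ℕ, ∑ d ∈ range n, √(d : ℝ) * a d * Kf (η d) ((D / d - d / D) / 4) ≤
      √D * T := by
    intro n
    have hq0 : 0 < qq ^ 52 := by linarith [qq52.1]
    obtain ⟨K, hK⟩ := pow_unbounded_of_one_lt ((n : ℝ) / D / qq ^ 52) (by norm_num : (1 : ℝ) < 2)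
    rw [div_lt_iff₀ hq0] at hK
    have h1 : ∀ d ∈ range n, √(d : ℝ) * a d * Kf (η d) ((D / d - d / D) / 4) ≤
        √D * (a d * GG K (d / D)) := by
      intro d hd
      rw [Finset.mem_range] at hd
      rcases Nat.eq_zero_or_pos d with h | h
      · subst h
        simp [h0]
      · have hd1 : (0 : ℝ) < d := by exact_mod_cast h
        have hdn : (d : ℝ) ≤ n := by exact_mod_cast hd.le
        have h2 := hη d h K (by
          have : (d : ℝ) / D ≤ (n : ℝ) / D := div_le_div_of_nonneg_right hdn hD0.le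
          linarith)
        have e1 : (1 / ((d : ℝ) / D) - (d : ℝ) / D) / 4 = (D / d - d / D) / 4 := by
          rw [one_div_div]
        rw [e1] at h2
        have e2 : √(d : ℝ) = √D * √((d : ℝ) / D) := by
          rw [← Real.sqrt_mul hD0.le, mul_div_cancel₀ _ hD0.ne']
        have h3 := mul_le_mul_of_nonneg_left h2 (mul_nonneg hsD.le (ha d))
        calc √(d : ℝ) * a d * Kf (η d) ((D / d - d / D) / 4)
            = √D * a d * (√((d : ℝ) / D) * Kf (η d) ((D / d - d / D) / 4)) := by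
              rw [e2]; ring
          _ ≤ √D * a d * GG K (d / D) := h3
          _ = _ := by ring
    refine (Finset.sum_le_sum h1).trans ?_
    rw [← Finset.mul_sum]
    apply mul_le_mul_of_nonneg_left _ hsD.le
    exact (total_le a ha h0 al be cs c1 hal hb hc hc1 hB D hD K n).trans hT
  refine ⟨summable_of_sum_range_le hnn hpart, Real.tsum_le_of_sum_range_le hnn hpart⟩

end A5

open A5 in
/-- A5 -/
theorem stES (h : StMdiv) : StES := by
  intro D hD
  have hD0 : 0 < D := by linarith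
  have hsD : 100 ≤ √D := by
    apply Real.le_sqrt_of_sq_le
    linarith
  have hq : √D * √D = D := Real.mul_self_sqrt hD0.le
  have hL := nine_le_log D hD
  have hex : ∀ d : ℕ, ∃ η : ℝ, 0 < η ∧ (1 ≤ d → ∀ K : ℕ, (d : ℝ) / D ≤ qq ^ 52 * 2 ^ K →
      √((d : ℝ) / D) * Kf η ((1 / ((d : ℝ) / D) - (d : ℝ) / D) / 4) ≤ GG K ((d : ℝ) / D)) := by
    intro d
    rcases Nat.eq_zero_or_pos d with hd | hd
    · exact ⟨1, one_pos, fun h1 ↦ by omega⟩
    · have hd1 : (0 : ℝ) < d := by exact_mod_cast hd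
      obtain ⟨η, h1, h2⟩ := eta_exists ((d : ℝ) / D) (by positivity)
      exact ⟨η, h1, fun _ ↦ h2⟩
  choose η hη0 hη using hex
  have hhn : ∀ d : ℕ, 0 ≤ (tau d : ℝ) * hh d := by
    intro d
    apply mul_nonneg (Nat.cast_nonneg _)
    unfold hh
    apply Finset.prod_nonneg
    intro l _
    unfold hl
    positivity
  have htau0 : (tau 0 : ℝ) * hh 0 = 0 := by simp [tau]
  refine ⟨η, hη0, ?_, ?_⟩
  · set a : ℕ → ℝ := fun d ↦ if d.Coprime 6 then (tau d : ℝ) * hh d else 0 with hadef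
    have ha : ∀ d, 0 ≤ a d := by
      intro d
      simp only [hadef]
      split_ifs
      · exact hhn d
      · exact le_rfl
    have h0 : a 0 = 0 := by simp [hadef]
    have hB : ∀ x : ℝ, 1 ≤ x → ∑ d ∈ Icc 1 ⌊x⌋₊, a d ≤ BB 0.115 2.65 2 2 x := by
      intro x hx
      have h1 := h.1 x hx
      rw [Finset.sum_filter] at h1
      exact h1
    have hc := core a ha h0 0.115 2.65 2 2 (by norm_num) (by norm_num) (by norm_num) (by norm_num)
      hB D hD η hη0 hη (D * (0.26 * Real.log D + 0.6)) (by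
        set L := Real.log D
        set R := √D
        rw [← hq]
        have h1 : 0 ≤ R * (R - 100) := mul_nonneg (by linarith) (by linarith)
        have h2 : 0 ≤ R * (R - 100) * (L - 9) := mul_nonneg h1 (by linarith)
        have h3 : 0 ≤ R * R * (L - 9) := mul_nonneg (by positivity) (by linarith)
        nlinarith)
    have e : (fun d : ℕ ↦ if d.Coprime 6 then
        √(d : ℝ) * tau d * hh d * Kf (η d) ((D / d - d / D) / 4) else 0) =
        (fun d : ℕ ↦ √(d : ℝ) * a d * Kf (η d) ((D / d - d / D) / 4)) := by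
      funext d
      simp only [hadef]
      split_ifs
      · ring
      · ring
    rw [e]
    refine ⟨hc.1, hc.2.trans (le_of_eq ?_)⟩
    unfold SB6
    ring
  · set a : ℕ → ℝ := fun d ↦ if d % 2 = 1 then (tau d : ℝ) * hh d else 0 with hadef
    have ha : ∀ d, 0 ≤ a d := by
      intro d
      simp only [hadef]
      split_ifs
      · exact hhn d
      · exact le_rfl
    have h0 : a 0 = 0 := by simp [hadef]
    have hB : ∀ x : ℝ, 1 ≤ x → ∑ d ∈ Icc 1 ⌊x⌋₊, a d ≤ BB 0.275 1.55 3 3 x := by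
      intro x hx
      have h1 := h.2 x hx
      rw [Finset.sum_filter] at h1
      exact h1
    have hc := core a ha h0 0.275 1.55 3 3 (by norm_num) (by norm_num) (by norm_num) (by norm_num)
      hB D hD η hη0 hη (D * (0.6 * Real.log D + 0.8)) (by
        set L := Real.log D
        set R := √D
        rw [← hq]
        have h1 : 0 ≤ R * (R - 100) := mul_nonneg (by linarith) (by linarith)
        have h2 : 0 ≤ R * (R - 100) * (L - 9) := mul_nonneg h1 (by linarith)
        have h3 : 0 ≤ R * R * (L - 9) := mul_nonneg (by positivity) (by linarith)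
        nlinarith)
    have e : (fun d : ℕ ↦ if d % 2 = 1 then
        √(d : ℝ) * tau d * hh d * Kf (η d) ((D / d - d / D) / 4) else 0) =
        (fun d : ℕ ↦ √(d : ℝ) * a d * Kf (η d) ((D / d - d / D) / 4)) := by
      funext d
      simp only [hadef]
      split_ifs
      · ring
      · ring
    rw [e]
    refine ⟨hc.1, hc.2.trans (le_of_eq ?_)⟩
    unfold SB2
    ring

end Pool.Agent.TFS
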