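import Pool.Agent.Lib.TFS.StmtsA

/-!
A5, part a: partial summation and the error function `Kf`.
-/

set_option autoImplicit false

open Finset

namespace Pool.Agent.TFS

namespace A5

/-- the bound for the summatory function -/
noncomputable def BB (al be cs c1 x : ℝ) : ℝ := al * x * (Real.log x + be) + cs * √x + c1

/-- antiderivative of `BB / (2 x^(3/2))` -/
noncomputable def EE (al be cs c1 x : ℝ) : ℝ :=
  al * √x * (Real.log x + be - 2) + cs / 2 * Real.log x - c1 / √x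

lemma BB_mono (al be cs c1 : ℝ) (ha : 0 ≤ al) (hb : 0 ≤ be) (hc : 0 ≤ cs) {x y : ℝ}
    (hx : 1 ≤ x) (hxy : x ≤ y) : BB al be cs c1 x ≤ BB al be cs c1 y := by
  unfold BB
  have h1 : Real.log x ≤ Real.log y := Real.log_le_log (by linarith) hxy
  have h2 : √x ≤ √y := Real.sqrt_le_sqrt hxy
  have h3 : 0 ≤ Real.log x := Real.log_nonneg hx
  have h4 : al * x * (Real.log x + be) ≤ al * y * (Real.log y + be) := by
    apply mul_le_mul
    · exact mul_le_mul_of_nonneg_left hxy ha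
    · linarith
    · linarith
    · exact mul_nonneg ha (by linarith)
  have h5 : cs * √x ≤ cs * √y := mul_le_mul_of_nonneg_left h2 hc
  linarith

lemma EE_diff (al be cs c1 : ℝ) (ha : 0 ≤ al) (hb : 0 ≤ be) (hc : 0 ≤ cs) {x y : ℝ}
    (hx : 1 ≤ x) (hxy : x ≤ y) :
    BB al be cs c1 x * (1 / √x - 1 / √y) ≤ EE al be cs c1 y - EE al be cs c1 x := by
  set b : ℝ := BB al be cs c1 x with hbdef
  set F : ℝ → ℝ := fun u ↦ al * u * (2 * Real.log u + be - 2) + cs * Real.log u - c1 * u⁻¹ + b * u⁻¹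
    with hF
  have hsx : 1 ≤ √x := by
    rw [show (1 : ℝ) = √1 by simp]
    exact Real.sqrt_le_sqrt hx
  have hsxy : √x ≤ √y := Real.sqrt_le_sqrt hxy
  have key : F (√x) ≤ F (√y) := by
    have hmono : MonotoneOn F (Set.Icc (√x) (√y)) := by
      have hder : ∀ u : ℝ, 0 < u → HasDerivAt F
          (al * (2 * Real.log u + be - 2) + al * u * (2 * u⁻¹) + cs * u⁻¹ - c1 * (-(u ^ 2)⁻¹) +
            b * (-(u ^ 2)⁻¹)) u := by
        intro u hu
        have hl := Real.hasDerivAt_log hu.ne'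
        have hi := hasDerivAt_inv hu.ne'
        have h1 : HasDerivAt (fun u : ℝ ↦ al * u * (2 * Real.log u + be - 2))
            (al * (2 * Real.log u + be - 2) + al * u * (2 * u⁻¹)) u := by
          have h1a : HasDerivAt (fun u : ℝ ↦ al * u) al u := by
            simpa using (hasDerivAt_id u).const_mul al
          have h1b : HasDerivAt (fun u : ℝ ↦ 2 * Real.log u + be - 2) (2 * u⁻¹) u :=
            ((hl.const_mul 2).add_const be).sub_const 2
          exact h1a.mul h1b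
        exact ((h1.add (hl.const_mul cs)).sub (hi.const_mul c1)).add (hi.const_mul b)
      apply monotoneOn_of_deriv_nonneg (convex_Icc _ _)
      · intro u hu
        exact (hder u (by linarith [hu.1])).continuousAt.continuousWithinAt
      · intro u hu
        rw [interior_Icc] at hu
        exact (hder u (by linarith [hu.1])).differentiableAt.differentiableWithinAt
      · intro u hu
        rw [interior_Icc] at hu
        have hu0 : 0 < u := by linarith [hu.1]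
        rw [(hder u hu0).deriv]
        have hbu : b ≤ BB al be cs c1 (u ^ 2) := by
          apply BB_mono al be cs c1 ha hb hc hx
          have : √x ^ 2 ≤ u ^ 2 := by
            apply pow_le_pow_left₀ (Real.sqrt_nonneg x) hu.1.le
          rwa [Real.sq_sqrt (by linarith)] at this
        have hB2 : BB al be cs c1 (u ^ 2) = al * u ^ 2 * (2 * Real.log u + be) + cs * u + c1 := by
          unfold BB
          rw [Real.log_pow, Real.sqrt_sq hu0.le]
          push_cast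
          ring
        have e1 : al * (2 * Real.log u + be - 2) + al * u * (2 * u⁻¹) + cs * u⁻¹ -
            c1 * (-(u ^ 2)⁻¹) + b * (-(u ^ 2)⁻¹) = (BB al be cs c1 (u ^ 2) - b) / u ^ 2 := by
          rw [hB2]
          field_simp
          ring
        rw [e1]
        exact div_nonneg (by linarith) (by positivity)
    exact hmono ⟨le_rfl, hsxy⟩ ⟨hsxy, le_rfl⟩ hsxy
  have hE : ∀ z : ℝ, 1 ≤ z → F (√z) = EE al be cs c1 z + b * (1 / √z) := by
    intro z hz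
    have hz0 : 0 ≤ z := by linarith
    have hl : Real.log z = 2 * Real.log (√z) := by
      rw [Real.log_sqrt hz0]; ring
    simp only [hF, EE]
    rw [hl]
    ring
  rw [hE x hx, hE y (by linarith)] at key
  nlinarith [key]

/-- partial summation -/
lemma sumQ_nat (a : ℕ → ℝ) (al be cs c1 : ℝ) (ha : 0 ≤ al) (hb : 0 ≤ be)
    (hc : 0 ≤ cs)
    (hB : ∀ x : ℝ, 1 ≤ x → ∑ d ∈ Icc 1 ⌊x⌋₊, a d ≤ BB al be cs c1 x) (N : ℕ) (hN : 1 ≤ N) :
    ∑ d ∈ Icc 1 N, a d * (1 / √(d : ℝ) - 1 / √(N : ℝ)) ≤ EE al be cs c1 N - EE al be cs c1 1 := by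
  induction N, hN using Nat.le_induction with
  | base => simp
  | succ N hN ih =>
    have hN1 : (1 : ℝ) ≤ N := by exact_mod_cast hN
    rw [Finset.sum_Icc_succ_top (by omega : 1 ≤ N + 1)]
    have e1 : ∑ d ∈ Icc 1 N, a d * (1 / √(d : ℝ) - 1 / √((N + 1 : ℕ) : ℝ)) =
        ∑ d ∈ Icc 1 N, a d * (1 / √(d : ℝ) - 1 / √(N : ℝ)) +
          (∑ d ∈ Icc 1 N, a d) * (1 / √(N : ℝ) - 1 / √((N + 1 : ℕ) : ℝ)) := by
      rw [Finset.sum_mul, ← Finset.sum_add_distrib]
      apply Finset.sum_congr rfl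
      intro d _
      ring
    rw [e1, sub_self, mul_zero, add_zero]
    have hNN : (N : ℝ) ≤ ((N + 1 : ℕ) : ℝ) := by push_cast; linarith
    have h2 := hB N hN1
    rw [Nat.floor_natCast] at h2
    have h3 : (0 : ℝ) ≤ 1 / √(N : ℝ) - 1 / √((N + 1 : ℕ) : ℝ) := by
      have : 1 / √((N + 1 : ℕ) : ℝ) ≤ 1 / √(N : ℝ) := by
        apply one_div_le_one_div_of_le
        · exact Real.sqrt_pos.mpr (by linarith)
        · exact Real.sqrt_le_sqrt hNN
      linarith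
    have h4 := EE_diff al be cs c1 ha hb hc hN1 hNN
    have h5 : (∑ d ∈ Icc 1 N, a d) * (1 / √(N : ℝ) - 1 / √((N + 1 : ℕ) : ℝ)) ≤
        BB al be cs c1 N * (1 / √(N : ℝ) - 1 / √((N + 1 : ℕ) : ℝ)) :=
      mul_le_mul_of_nonneg_right h2 h3
    linarith

lemma sumQ (a : ℕ → ℝ) (al be cs c1 : ℝ) (ha : 0 ≤ al) (hb : 0 ≤ be)
    (hc : 0 ≤ cs)
    (hB : ∀ x : ℝ, 1 ≤ x → ∑ d ∈ Icc 1 ⌊x⌋₊, a d ≤ BB al be cs c1 x) (X : ℝ) (hX : 1 ≤ X) :
    ∑ d ∈ Icc 1 ⌊X⌋₊, a d * (1 / √(d : ℝ) - 1 / √X) ≤ EE al be cs c1 X - EE al be cs c1 1 := by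
  have hN : 1 ≤ ⌊X⌋₊ := by
    rw [Nat.one_le_floor_iff]
    exact hX
  have hN1 : (1 : ℝ) ≤ (⌊X⌋₊ : ℝ) := by exact_mod_cast hN
  have h1 := sumQ_nat a al be cs c1 ha hb hc hB ⌊X⌋₊ hN
  have e1 : ∑ d ∈ Icc 1 ⌊X⌋₊, a d * (1 / √(d : ℝ) - 1 / √X) =
      ∑ d ∈ Icc 1 ⌊X⌋₊, a d * (1 / √(d : ℝ) - 1 / √(⌊X⌋₊ : ℝ)) +
        (∑ d ∈ Icc 1 ⌊X⌋₊, a d) * (1 / √(⌊X⌋₊ : ℝ) - 1 / √X) := by
    rw [Finset.sum_mul, ← Finset.sum_add_distrib]
    apply Finset.sum_congr rfl
    intro d _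
    ring
  have hNN : (⌊X⌋₊ : ℝ) ≤ X := Nat.floor_le (by linarith)
  have h2 := hB (⌊X⌋₊ : ℝ) hN1
  rw [Nat.floor_natCast] at h2
  have h3 : (0 : ℝ) ≤ 1 / √(⌊X⌋₊ : ℝ) - 1 / √X := by
    have : 1 / √X ≤ 1 / √(⌊X⌋₊ : ℝ) := by
      apply one_div_le_one_div_of_le
      · exact Real.sqrt_pos.mpr (by linarith)
      · exact Real.sqrt_le_sqrt hNN
    linarith
  have h4 := EE_diff al be cs c1 ha hb hc hN1 hNN
  have h5 : (∑ d ∈ Icc 1 ⌊X⌋₊, a d) * (1 / √(⌊X⌋₊ : ℝ) - 1 / √X) ≤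
      BB al be cs c1 (⌊X⌋₊ : ℝ) * (1 / √(⌊X⌋₊ : ℝ) - 1 / √X) :=
    mul_le_mul_of_nonneg_right h2 h3
  rw [e1]
  linarith

lemma sum_ind_le (a : ℕ → ℝ) (ha : ∀ d, 0 ≤ a d) (h0 : a 0 = 0) (n : ℕ) (X : ℝ) (hX : 0 ≤ X) :
    ∑ d ∈ range n, a d * (if (d : ℝ) ≤ X then 1 else 0) ≤ ∑ d ∈ Icc 1 ⌊X⌋₊, a d := by
  have e1 : ∑ d ∈ range n, a d * (if (d : ℝ) ≤ X then 1 else 0) =
      ∑ d ∈ (range n).filter (fun d : ℕ ↦ 1 ≤ d ∧ (d : ℝ) ≤ X), a d := by
    rw [Finset.sum_filter]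
    apply Finset.sum_congr rfl
    intro d _
    by_cases hd : 1 ≤ d
    · by_cases h : (d : ℝ) ≤ X <;> simp [hd, h]
    · have : d = 0 := by omega
      subst this
      simp [h0]
  rw [e1]
  apply Finset.sum_le_sum_of_subset_of_nonneg
  · intro d hd
    rw [Finset.mem_filter] at hd
    rw [Finset.mem_Icc]
    exact ⟨hd.2.1, Nat.le_floor hd.2.2⟩
  · intro d _ _
    exact ha d

lemma sum_root_le (a : ℕ → ℝ) (ha : ∀ d, 0 ≤ a d) (h0 : a 0 = 0) (n : ℕ) (X : ℝ) (hX : 0 ≤ X) :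
    ∑ d ∈ range n, a d * (if (d : ℝ) ≤ X then 1 / √(d : ℝ) - 1 / √X else 0) ≤
      ∑ d ∈ Icc 1 ⌊X⌋₊, a d * (1 / √(d : ℝ) - 1 / √X) := by
  have e1 : ∑ d ∈ range n, a d * (if (d : ℝ) ≤ X then 1 / √(d : ℝ) - 1 / √X else 0) =
      ∑ d ∈ (range n).filter (fun d : ℕ ↦ 1 ≤ d ∧ (d : ℝ) ≤ X), a d * (1 / √(d : ℝ) - 1 / √X) := by
    rw [Finset.sum_filter]
    apply Finset.sum_congr rfl
    intro d _
    by_cases hd : 1 ≤ d
    · by_cases h : (d : ℝ) ≤ X <;> simp [hd, h]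
    · have : d = 0 := by omega
      subst this
      simp [h0]
  rw [e1]
  apply Finset.sum_le_sum_of_subset_of_nonneg
  · intro d hd
    rw [Finset.mem_filter] at hd
    rw [Finset.mem_Icc]
    exact ⟨hd.2.1, Nat.le_floor hd.2.2⟩
  · intro d hd _
    rw [Finset.mem_Icc] at hd
    have hd1 : (1 : ℝ) ≤ d := by exact_mod_cast hd.1
    have hd2 : (d : ℝ) ≤ X := (Nat.le_floor_iff hX).mp hd.2
    apply mul_nonneg (ha d)
    have : 1 / √X ≤ 1 / √(d : ℝ) := by
      apply one_div_le_one_div_of_le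
      · exact Real.sqrt_pos.mpr (by linarith)
      · exact Real.sqrt_le_sqrt hd2
    linarith

lemma Kf_eq (c s : ℝ) (hs : 0 < s) (hc : 0 < c) :
    √s * Kf (c * s) ((1 / s - s) / 4) =
      Real.exp (Real.pi * c / 2 + Real.pi * c * (c - 1 / 2) * s ^ 2) / (2 * Real.pi * c * √s) := by
  unfold Kf
  have e1 : Real.pi * (c * s) ^ 2 + 2 * Real.pi * (c * s) * ((1 / s - s) / 4) =
      Real.pi * c / 2 + Real.pi * c * (c - 1 / 2) * s ^ 2 := by
    field_simp
    ring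
  rw [e1]
  have hq : √s * √s = s := Real.mul_self_sqrt hs.le
  have hq0 : 0 < √s := Real.sqrt_pos.mpr hs
  have hpi := Real.pi_pos
  rw [mul_div_assoc', div_eq_div_iff (by positivity) (by positivity)]
  calc √s * Real.exp (Real.pi * c / 2 + Real.pi * c * (c - 1 / 2) * s ^ 2) * (2 * Real.pi * c * √s)
      = (√s * √s) * (Real.exp (Real.pi * c / 2 + Real.pi * c * (c - 1 / 2) * s ^ 2) *
          (2 * Real.pi * c)) := by ring
    _ = _ := by rw [hq]; ring

lemma exp_half_le : Real.exp (1 / 2) ≤ 1.648722 := by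
  have h1 : Real.exp (1 / 2) * Real.exp (1 / 2) = Real.exp 1 := by
    rw [← Real.exp_add]; norm_num
  have h2 := Real.exp_one_lt_d9
  have h3 := Real.exp_pos (1 / 2)
  by_contra h
  push Not at h
  nlinarith

/-- bound on a step -/
lemma step_bound (n : ℕ) (u c x v s : ℝ) (hu : 0 < u) (hc : 0 < c) (hc' : c ≤ 1 / 2)
    (hs : u ^ 2 ≤ s) (hx : 0 ≤ x)
    (h1 : 3.141593 * c / 2 - 1 / 2 + x ≤ 3.141592 * c * (1 / 2 - c) * u ^ 4)
    (h2 : 1.648722 ≤ v * (2 * 3.141592 * c * u) * ∑ i ∈ range n, x ^ i / (Nat.factorial i : ℝ)) :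
    √s * Kf (c * s) ((1 / s - s) / 4) ≤ v := by
  have hs0 : 0 < s := lt_of_lt_of_le (by positivity) hs
  rw [Kf_eq c s hs0 hc]
  have hp1 := Real.pi_gt_d6
  have hp2 := Real.pi_lt_d6
  have hpi := Real.pi_pos
  have hus : u ≤ √s := Real.le_sqrt_of_sq_le hs
  have hS : ∑ i ∈ range n, x ^ i / (Nat.factorial i : ℝ) ≤ Real.exp x :=
    Real.sum_le_exp_of_nonneg hx n
  have hS0 : 0 ≤ ∑ i ∈ range n, x ^ i / (Nat.factorial i : ℝ) := by
    apply Finset.sum_nonneg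
    intro i _
    positivity
  have hv : 0 < v := by
    by_contra h
    push Not at h
    have : v * (2 * 3.141592 * c * u) * ∑ i ∈ range n, x ^ i / (Nat.factorial i : ℝ) ≤ 0 := by
      apply mul_nonpos_of_nonpos_of_nonneg _ hS0
      apply mul_nonpos_of_nonpos_of_nonneg h
      positivity
    linarith
  have hs4 : u ^ 4 ≤ s ^ 2 := by
    have : (u ^ 2) ^ 2 ≤ s ^ 2 := pow_le_pow_left₀ (by positivity) hs 2
    calc u ^ 4 = (u ^ 2) ^ 2 := by ring
      _ ≤ s ^ 2 := this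
  have hexp : Real.pi * c / 2 + Real.pi * c * (c - 1 / 2) * s ^ 2 ≤ 1 / 2 - x := by
    have a1 : Real.pi * c / 2 ≤ 3.141593 * c / 2 := by nlinarith
    have a2 : 3.141592 * c * (1 / 2 - c) * u ^ 4 ≤ Real.pi * c * (1 / 2 - c) * s ^ 2 := by
      apply mul_le_mul _ hs4 (by positivity) (by
        apply mul_nonneg (by positivity) (by linarith))
      apply mul_le_mul_of_nonneg_right _ (by linarith)
      apply mul_le_mul_of_nonneg_right hp1.le hc.le
    nlinarith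
  have hE : Real.exp (Real.pi * c / 2 + Real.pi * c * (c - 1 / 2) * s ^ 2) ≤
      1.648722 / Real.exp x := by
    calc Real.exp (Real.pi * c / 2 + Real.pi * c * (c - 1 / 2) * s ^ 2)
        ≤ Real.exp (1 / 2 - x) := Real.exp_le_exp.mpr hexp
      _ = Real.exp (1 / 2) / Real.exp x := Real.exp_sub _ _
      _ ≤ 1.648722 / Real.exp x := by
        apply div_le_div_of_nonneg_right exp_half_le (Real.exp_pos x).le
  rw [div_le_iff₀ (by positivity)]
  refine hE.trans ?_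
  rw [div_le_iff₀ (Real.exp_pos x)]
  refine h2.trans ?_
  apply mul_le_mul _ hS hS0 (by positivity)
  apply mul_le_mul_of_nonneg_left _ hv.le
  apply mul_le_mul _ hus hu.le (by positivity)
  apply mul_le_mul_of_nonneg_right _ hc.le
  linarith

end A5

end Pool.Agent.TFS
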