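import Pool.Agent.Lib.TFS.A5a

/-!
A5, part b: values of the step function.
-/

set_option autoImplicit false

open Finset

namespace Pool.Agent.TFS

namespace A5

lemma step_bound' (m n : ℕ) (c x v s : ℝ) (hc : 0 < c) (hc' : c ≤ 1 / 2)
    (hs : (2601 / 2500 : ℝ) ^ m ≤ s) (hx : 0 ≤ x)
    (h1 : 3.141593 * c / 2 - 1 / 2 + x ≤ 3.141592 * c * (1 / 2 - c) * (51 / 50) ^ (4 * m))
    (h2 : 1.648722 ≤ v * (2 * 3.141592 * c * (51 / 50) ^ m) *
      ∑ i ∈ range n, x ^ i / (Nat.factorial i : ℝ)) :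
    ∃ η : ℝ, 0 < η ∧ √s * Kf η ((1 / s - s) / 4) ≤ v := by
  have hs0 : 0 < s := lt_of_lt_of_le (by positivity) hs
  refine ⟨c * s, by positivity, ?_⟩
  apply step_bound n ((51 / 50 : ℝ) ^ m) c x v s (by positivity) hc hc' _ hx _ h2
  · have e : ((51 / 50 : ℝ) ^ m) ^ 2 = (2601 / 2500 : ℝ) ^ m := by
      rw [← pow_mul, mul_comm, pow_mul]
      norm_num
    rw [e]
    exact hs
  · have e : ((51 / 50 : ℝ) ^ m) ^ 4 = (51 / 50 : ℝ) ^ (4 * m) := by
      rw [← pow_mul, mul_comm]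
    rw [e]
    exact h1

/-- values of the step function -/
def Vl : List ℚ :=
  [13963/20000, 65779/100000, 31903/50000, 3863/6250, 59783/100000, 11547/20000,
   55659/100000, 53557/100000, 51431/100000, 1971/4000, 47101/100000, 22451/50000,
   42689/100000, 2023/5000, 19111/50000, 1439/4000, 33733/100000, 31497/100000,
   183/625, 13543/50000, 24923/100000, 5701/25000, 20737/100000, 18731/100000,
   8401/50000, 2991/20000, 13193/100000, 577/5000, 4997/50000, 4281/50000,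
   7253/100000, 6069/100000, 5009/100000, 51/1250, 3271/100000, 2573/100000,
   1991/100000, 377/25000, 7/625, 40879/5000000, 58133/10000000, 19899/5000000,
   13383/5000000, 17247/10000000, 10877/10000000, 3263/5000000, 1883/5000000, 2083/10000000,
   11/100000, 279/5000000, 53/2000000, 59/5000000, 1/200000]

/-- values of the step function -/
noncomputable def V (j : ℕ) : ℝ := ((Vl.getD j 0 : ℚ) : ℝ)

lemma st0 (s : ℝ) (hs : (2601 / 2500 : ℝ) ^ 0 ≤ s) :
    ∃ η : ℝ, 0 < η ∧ √s * Kf η ((1 / s - s) / 4) ≤ 65779/100000 :=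
  step_bound' 0 6 (199/500) (23/10000) (65779/100000) s (by norm_num) (by norm_num) hs (by norm_num) (by norm_num)
    (by norm_num [Finset.sum_range_succ, Nat.factorial])

lemma st1 (s : ℝ) (hs : (2601 / 2500 : ℝ) ^ 1 ≤ s) :
    ∃ η : ℝ, 0 < η ∧ √s * Kf η ((1 / s - s) / 4) ≤ 31903/50000 :=
  step_bound' 1 6 (393/1000) (16/625) (31903/50000) s (by norm_num) (by norm_num) hs (by norm_num) (by norm_num)
    (by norm_num [Finset.sum_range_succ, Nat.factorial])

lemma st2 (s : ℝ) (hs : (2601 / 2500 : ℝ) ^ 2 ≤ s) :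
    ∃ η : ℝ, 0 < η ∧ √s * Kf η ((1 / s - s) / 4) ≤ 3863/6250 :=
  step_bound' 2 6 (387/1000) (53/1000) (3863/6250) s (by norm_num) (by norm_num) hs (by norm_num) (by norm_num)
    (by norm_num [Finset.sum_range_succ, Nat.factorial])

lemma st3 (s : ℝ) (hs : (2601 / 2500 : ℝ) ^ 3 ≤ s) :
    ∃ η : ℝ, 0 < η ∧ √s * Kf η ((1 / s - s) / 4) ≤ 59783/100000 :=
  step_bound' 3 6 (191/500) (159/2000) (59783/100000) s (by norm_num) (by norm_num) hs (by norm_num) (by norm_num)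
    (by norm_num [Finset.sum_range_succ, Nat.factorial])

lemma st4 (s : ℝ) (hs : (2601 / 2500 : ℝ) ^ 4 ≤ s) :
    ∃ η : ℝ, 0 < η ∧ √s * Kf η ((1 / s - s) / 4) ≤ 11547/20000 :=
  step_bound' 4 6 (47/125) (69/625) (11547/20000) s (by norm_num) (by norm_num) hs (by norm_num) (by norm_num)
    (by norm_num [Finset.sum_range_succ, Nat.factorial])

lemma st5 (s : ℝ) (hs : (2601 / 2500 : ℝ) ^ 5 ≤ s) :
    ∃ η : ℝ, 0 < η ∧ √s * Kf η ((1 / s - s) / 4) ≤ 55659/100000 :=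
  step_bound' 5 6 (371/1000) (703/5000) (55659/100000) s (by norm_num) (by norm_num) hs (by norm_num) (by norm_num)
    (by norm_num [Finset.sum_range_succ, Nat.factorial])

lemma st6 (s : ℝ) (hs : (2601 / 2500 : ℝ) ^ 6 ≤ s) :
    ∃ η : ℝ, 0 < η ∧ √s * Kf η ((1 / s - s) / 4) ≤ 53557/100000 :=
  step_bound' 6 6 (73/200) (439/2500) (53557/100000) s (by norm_num) (by norm_num) hs (by norm_num) (by norm_num)
    (by norm_num [Finset.sum_range_succ, Nat.factorial])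

lemma st7 (s : ℝ) (hs : (2601 / 2500 : ℝ) ^ 7 ≤ s) :
    ∃ η : ℝ, 0 < η ∧ √s * Kf η ((1 / s - s) / 4) ≤ 51431/100000 :=
  step_bound' 7 6 (9/25) (2101/10000) (51431/100000) s (by norm_num) (by norm_num) hs (by norm_num) (by norm_num)
    (by norm_num [Finset.sum_range_succ, Nat.factorial])

lemma st8 (s : ℝ) (hs : (2601 / 2500 : ℝ) ^ 8 ≤ s) :
    ∃ η : ℝ, 0 < η ∧ √s * Kf η ((1 / s - s) / 4) ≤ 1971/4000 :=
  step_bound' 8 6 (71/200) (2471/10000) (1971/4000) s (by norm_num) (by norm_num) hs (by norm_num) (by norm_num)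
    (by norm_num [Finset.sum_range_succ, Nat.factorial])

lemma st9 (s : ℝ) (hs : (2601 / 2500 : ℝ) ^ 9 ≤ s) :
    ∃ η : ℝ, 0 < η ∧ √s * Kf η ((1 / s - s) / 4) ≤ 47101/100000 :=
  step_bound' 9 6 (7/20) (1433/5000) (47101/100000) s (by norm_num) (by norm_num) hs (by norm_num) (by norm_num)
    (by norm_num [Finset.sum_range_succ, Nat.factorial])

lemma st10 (s : ℝ) (hs : (2601 / 2500 : ℝ) ^ 10 ≤ s) :
    ∃ η : ℝ, 0 < η ∧ √s * Kf η ((1 / s - s) / 4) ≤ 22451/50000 :=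
  step_bound' 10 6 (69/200) (329/1000) (22451/50000) s (by norm_num) (by norm_num) hs (by norm_num) (by norm_num)
    (by norm_num [Finset.sum_range_succ, Nat.factorial])

lemma st11 (s : ℝ) (hs : (2601 / 2500 : ℝ) ^ 11 ≤ s) :
    ∃ η : ℝ, 0 < η ∧ √s * Kf η ((1 / s - s) / 4) ≤ 42689/100000 :=
  step_bound' 11 6 (341/1000) (1857/5000) (42689/100000) s (by norm_num) (by norm_num) hs (by norm_num) (by norm_num)
    (by norm_num [Finset.sum_range_succ, Nat.factorial])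

lemma st12 (s : ℝ) (hs : (2601 / 2500 : ℝ) ^ 12 ≤ s) :
    ∃ η : ℝ, 0 < η ∧ √s * Kf η ((1 / s - s) / 4) ≤ 2023/5000 :=
  step_bound' 12 6 (42/125) (21/50) (2023/5000) s (by norm_num) (by norm_num) hs (by norm_num) (by norm_num)
    (by norm_num [Finset.sum_range_succ, Nat.factorial])

lemma st13 (s : ℝ) (hs : (2601 / 2500 : ℝ) ^ 13 ≤ s) :
    ∃ η : ℝ, 0 < η ∧ √s * Kf η ((1 / s - s) / 4) ≤ 19111/50000 :=
  step_bound' 13 6 (83/250) (4691/10000) (19111/50000) s (by norm_num) (by norm_num) hs (by norm_num) (by norm_num)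
    (by norm_num [Finset.sum_range_succ, Nat.factorial])

lemma st14 (s : ℝ) (hs : (2601 / 2500 : ℝ) ^ 14 ≤ s) :
    ∃ η : ℝ, 0 < η ∧ √s * Kf η ((1 / s - s) / 4) ≤ 1439/4000 :=
  step_bound' 14 6 (41/125) (261/500) (1439/4000) s (by norm_num) (by norm_num) hs (by norm_num) (by norm_num)
    (by norm_num [Finset.sum_range_succ, Nat.factorial])

lemma st15 (s : ℝ) (hs : (2601 / 2500 : ℝ) ^ 15 ≤ s) :
    ∃ η : ℝ, 0 < η ∧ √s * Kf η ((1 / s - s) / 4) ≤ 33733/100000 :=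
  step_bound' 15 7 (81/250) (1447/2500) (33733/100000) s (by norm_num) (by norm_num) hs (by norm_num) (by norm_num)
    (by norm_num [Finset.sum_range_succ, Nat.factorial])

lemma st16 (s : ℝ) (hs : (2601 / 2500 : ℝ) ^ 16 ≤ s) :
    ∃ η : ℝ, 0 < η ∧ √s * Kf η ((1 / s - s) / 4) ≤ 31497/100000 :=
  step_bound' 16 7 (8/25) (16/25) (31497/100000) s (by norm_num) (by norm_num) hs (by norm_num) (by norm_num)
    (by norm_num [Finset.sum_range_succ, Nat.factorial])

lemma st17 (s : ℝ) (hs : (2601 / 2500 : ℝ) ^ 17 ≤ s) :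
    ∃ η : ℝ, 0 < η ∧ √s * Kf η ((1 / s - s) / 4) ≤ 183/625 :=
  step_bound' 17 7 (79/250) (3529/5000) (183/625) s (by norm_num) (by norm_num) hs (by norm_num) (by norm_num)
    (by norm_num [Finset.sum_range_succ, Nat.factorial])

lemma st18 (s : ℝ) (hs : (2601 / 2500 : ℝ) ^ 18 ≤ s) :
    ∃ η : ℝ, 0 < η ∧ √s * Kf η ((1 / s - s) / 4) ≤ 13543/50000 :=
  step_bound' 18 7 (39/125) (3883/5000) (13543/50000) s (by norm_num) (by norm_num) hs (by norm_num) (by norm_num)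
    (by norm_num [Finset.sum_range_succ, Nat.factorial])

lemma st19 (s : ℝ) (hs : (2601 / 2500 : ℝ) ^ 19 ≤ s) :
    ∃ η : ℝ, 0 < η ∧ √s * Kf η ((1 / s - s) / 4) ≤ 24923/100000 :=
  step_bound' 19 8 (309/1000) (8497/10000) (24923/100000) s (by norm_num) (by norm_num) hs (by norm_num) (by norm_num)
    (by norm_num [Finset.sum_range_succ, Nat.factorial])

lemma st20 (s : ℝ) (hs : (2601 / 2500 : ℝ) ^ 20 ≤ s) :
    ∃ η : ℝ, 0 < η ∧ √s * Kf η ((1 / s - s) / 4) ≤ 5701/25000 :=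
  step_bound' 20 8 (153/500) (1857/2000) (5701/25000) s (by norm_num) (by norm_num) hs (by norm_num) (by norm_num)
    (by norm_num [Finset.sum_range_succ, Nat.factorial])

lemma st21 (s : ℝ) (hs : (2601 / 2500 : ℝ) ^ 21 ≤ s) :
    ∃ η : ℝ, 0 < η ∧ √s * Kf η ((1 / s - s) / 4) ≤ 20737/100000 :=
  step_bound' 21 8 (151/500) (10169/10000) (20737/100000) s (by norm_num) (by norm_num) hs (by norm_num) (by norm_num)
    (by norm_num [Finset.sum_range_succ, Nat.factorial])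

lemma st22 (s : ℝ) (hs : (2601 / 2500 : ℝ) ^ 22 ≤ s) :
    ∃ η : ℝ, 0 < η ∧ √s * Kf η ((1 / s - s) / 4) ≤ 18731/100000 :=
  step_bound' 22 9 (299/1000) (693/625) (18731/100000) s (by norm_num) (by norm_num) hs (by norm_num) (by norm_num)
    (by norm_num [Finset.sum_range_succ, Nat.factorial])

lemma st23 (s : ℝ) (hs : (2601 / 2500 : ℝ) ^ 23 ≤ s) :
    ∃ η : ℝ, 0 < η ∧ √s * Kf η ((1 / s - s) / 4) ≤ 8401/50000 :=
  step_bound' 23 7 (37/125) (151/125) (8401/50000) s (by norm_num) (by norm_num) hs (by norm_num) (by norm_num)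
    (by norm_num [Finset.sum_range_succ, Nat.factorial])

lemma st24 (s : ℝ) (hs : (2601 / 2500 : ℝ) ^ 24 ≤ s) :
    ∃ η : ℝ, 0 < η ∧ √s * Kf η ((1 / s - s) / 4) ≤ 2991/20000 :=
  step_bound' 24 7 (147/500) (3279/2500) (2991/20000) s (by norm_num) (by norm_num) hs (by norm_num) (by norm_num)
    (by norm_num [Finset.sum_range_succ, Nat.factorial])

lemma st25 (s : ℝ) (hs : (2601 / 2500 : ℝ) ^ 25 ≤ s) :
    ∃ η : ℝ, 0 < η ∧ √s * Kf η ((1 / s - s) / 4) ≤ 13193/100000 :=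
  step_bound' 25 8 (291/1000) (14271/10000) (13193/100000) s (by norm_num) (by norm_num) hs (by norm_num) (by norm_num)
    (by norm_num [Finset.sum_range_succ, Nat.factorial])

lemma st26 (s : ℝ) (hs : (2601 / 2500 : ℝ) ^ 26 ≤ s) :
    ∃ η : ℝ, 0 < η ∧ √s * Kf η ((1 / s - s) / 4) ≤ 577/5000 :=
  step_bound' 26 8 (36/125) (15517/10000) (577/5000) s (by norm_num) (by norm_num) hs (by norm_num) (by norm_num)
    (by norm_num [Finset.sum_range_succ, Nat.factorial])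

lemma st27 (s : ℝ) (hs : (2601 / 2500 : ℝ) ^ 27 ≤ s) :
    ∃ η : ℝ, 0 < η ∧ √s * Kf η ((1 / s - s) / 4) ≤ 4997/50000 :=
  step_bound' 27 8 (143/500) (4207/2500) (4997/50000) s (by norm_num) (by norm_num) hs (by norm_num) (by norm_num)
    (by norm_num [Finset.sum_range_succ, Nat.factorial])

lemma st28 (s : ℝ) (hs : (2601 / 2500 : ℝ) ^ 28 ≤ s) :
    ∃ η : ℝ, 0 < η ∧ √s * Kf η ((1 / s - s) / 4) ≤ 4281/50000 :=
  step_bound' 28 9 (71/250) (3649/2000) (4281/50000) s (by norm_num) (by norm_num) hs (by norm_num) (by norm_num)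
    (by norm_num [Finset.sum_range_succ, Nat.factorial])

lemma st29 (s : ℝ) (hs : (2601 / 2500 : ℝ) ^ 29 ≤ s) :
    ∃ η : ℝ, 0 < η ∧ √s * Kf η ((1 / s - s) / 4) ≤ 7253/100000 :=
  step_bound' 29 9 (141/500) (9889/5000) (7253/100000) s (by norm_num) (by norm_num) hs (by norm_num) (by norm_num)
    (by norm_num [Finset.sum_range_succ, Nat.factorial])

lemma st30 (s : ℝ) (hs : (2601 / 2500 : ℝ) ^ 30 ≤ s) :
    ∃ η : ℝ, 0 < η ∧ √s * Kf η ((1 / s - s) / 4) ≤ 6069/100000 :=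
  step_bound' 30 9 (7/25) (10717/5000) (6069/100000) s (by norm_num) (by norm_num) hs (by norm_num) (by norm_num)
    (by norm_num [Finset.sum_range_succ, Nat.factorial])

lemma st31 (s : ℝ) (hs : (2601 / 2500 : ℝ) ^ 31 ≤ s) :
    ∃ η : ℝ, 0 < η ∧ √s * Kf η ((1 / s - s) / 4) ≤ 5009/100000 :=
  step_bound' 31 10 (139/500) (929/400) (5009/100000) s (by norm_num) (by norm_num) hs (by norm_num) (by norm_num)
    (by norm_num [Finset.sum_range_succ, Nat.factorial])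

lemma st32 (s : ℝ) (hs : (2601 / 2500 : ℝ) ^ 32 ≤ s) :
    ∃ η : ℝ, 0 < η ∧ √s * Kf η ((1 / s - s) / 4) ≤ 51/1250 :=
  step_bound' 32 9 (69/250) (12581/5000) (51/1250) s (by norm_num) (by norm_num) hs (by norm_num) (by norm_num)
    (by norm_num [Finset.sum_range_succ, Nat.factorial])

lemma st33 (s : ℝ) (hs : (2601 / 2500 : ℝ) ^ 33 ≤ s) :
    ∃ η : ℝ, 0 < η ∧ √s * Kf η ((1 / s - s) / 4) ≤ 3271/100000 :=
  step_bound' 33 9 (137/500) (3407/1250) (3271/100000) s (by norm_num) (by norm_num) hs (by norm_num) (by norm_num)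
    (by norm_num [Finset.sum_range_succ, Nat.factorial])

lemma st34 (s : ℝ) (hs : (2601 / 2500 : ℝ) ^ 34 ≤ s) :
    ∃ η : ℝ, 0 < η ∧ √s * Kf η ((1 / s - s) / 4) ≤ 2573/100000 :=
  step_bound' 34 10 (273/1000) (29483/10000) (2573/100000) s (by norm_num) (by norm_num) hs (by norm_num) (by norm_num)
    (by norm_num [Finset.sum_range_succ, Nat.factorial])

lemma st35 (s : ℝ) (hs : (2601 / 2500 : ℝ) ^ 35 ≤ s) :
    ∃ η : ℝ, 0 < η ∧ √s * Kf η ((1 / s - s) / 4) ≤ 1991/100000 :=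
  step_bound' 35 10 (271/1000) (3193/1000) (1991/100000) s (by norm_num) (by norm_num) hs (by norm_num) (by norm_num)
    (by norm_num [Finset.sum_range_succ, Nat.factorial])

lemma st36 (s : ℝ) (hs : (2601 / 2500 : ℝ) ^ 36 ≤ s) :
    ∃ η : ℝ, 0 < η ∧ √s * Kf η ((1 / s - s) / 4) ≤ 377/25000 :=
  step_bound' 36 11 (27/100) (34539/10000) (377/25000) s (by norm_num) (by norm_num) hs (by norm_num) (by norm_num)
    (by norm_num [Finset.sum_range_succ, Nat.factorial])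

lemma st37 (s : ℝ) (hs : (2601 / 2500 : ℝ) ^ 37 ≤ s) :
    ∃ η : ℝ, 0 < η ∧ √s * Kf η ((1 / s - s) / 4) ≤ 7/625 :=
  step_bound' 37 11 (67/250) (187/50) (7/625) s (by norm_num) (by norm_num) hs (by norm_num) (by norm_num)
    (by norm_num [Finset.sum_range_succ, Nat.factorial])

lemma st38 (s : ℝ) (hs : (2601 / 2500 : ℝ) ^ 38 ≤ s) :
    ∃ η : ℝ, 0 < η ∧ √s * Kf η ((1 / s - s) / 4) ≤ 40879/5000000 :=
  step_bound' 38 10 (267/1000) (8091/2000) (40879/5000000) s (by norm_num) (by norm_num) hs (by norm_num) (by norm_num)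
    (by norm_num [Finset.sum_range_succ, Nat.factorial])

lemma st39 (s : ℝ) (hs : (2601 / 2500 : ℝ) ^ 39 ≤ s) :
    ∃ η : ℝ, 0 < η ∧ √s * Kf η ((1 / s - s) / 4) ≤ 58133/10000000 :=
  step_bound' 39 10 (133/500) (21881/5000) (58133/10000000) s (by norm_num) (by norm_num) hs (by norm_num) (by norm_num)
    (by norm_num [Finset.sum_range_succ, Nat.factorial])

lemma st40 (s : ℝ) (hs : (2601 / 2500 : ℝ) ^ 40 ≤ s) :
    ∃ η : ℝ, 0 < η ∧ √s * Kf η ((1 / s - s) / 4) ≤ 19899/5000000 :=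
  step_bound' 40 11 (53/200) (47341/10000) (19899/5000000) s (by norm_num) (by norm_num) hs (by norm_num) (by norm_num)
    (by norm_num [Finset.sum_range_succ, Nat.factorial])

lemma st41 (s : ℝ) (hs : (2601 / 2500 : ℝ) ^ 41 ≤ s) :
    ∃ η : ℝ, 0 < η ∧ √s * Kf η ((1 / s - s) / 4) ≤ 13383/5000000 :=
  step_bound' 41 11 (33/125) (25607/5000) (13383/5000000) s (by norm_num) (by norm_num) hs (by norm_num) (by norm_num)
    (by norm_num [Finset.sum_range_succ, Nat.factorial])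

lemma st42 (s : ℝ) (hs : (2601 / 2500 : ℝ) ^ 42 ≤ s) :
    ∃ η : ℝ, 0 < η ∧ √s * Kf η ((1 / s - s) / 4) ≤ 17247/10000000 :=
  step_bound' 42 12 (263/1000) (13851/2500) (17247/10000000) s (by norm_num) (by norm_num) hs (by norm_num) (by norm_num)
    (by norm_num [Finset.sum_range_succ, Nat.factorial])

lemma st43 (s : ℝ) (hs : (2601 / 2500 : ℝ) ^ 43 ≤ s) :
    ∃ η : ℝ, 0 < η ∧ √s * Kf η ((1 / s - s) / 4) ≤ 10877/10000000 :=
  step_bound' 43 12 (131/500) (59939/10000) (10877/10000000) s (by norm_num) (by norm_num) hs (by norm_num) (by norm_num)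
    (by norm_num [Finset.sum_range_succ, Nat.factorial])

lemma st44 (s : ℝ) (hs : (2601 / 2500 : ℝ) ^ 44 ≤ s) :
    ∃ η : ℝ, 0 < η ∧ √s * Kf η ((1 / s - s) / 4) ≤ 3263/5000000 :=
  step_bound' 44 13 (261/1000) (32423/5000) (3263/5000000) s (by norm_num) (by norm_num) hs (by norm_num) (by norm_num)
    (by norm_num [Finset.sum_range_succ, Nat.factorial])

lemma st45 (s : ℝ) (hs : (2601 / 2500 : ℝ) ^ 45 ≤ s) :
    ∃ η : ℝ, 0 < η ∧ √s * Kf η ((1 / s - s) / 4) ≤ 1883/5000000 :=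
  step_bound' 45 14 (13/50) (70157/10000) (1883/5000000) s (by norm_num) (by norm_num) hs (by norm_num) (by norm_num)
    (by norm_num [Finset.sum_range_succ, Nat.factorial])

lemma st46 (s : ℝ) (hs : (2601 / 2500 : ℝ) ^ 46 ≤ s) :
    ∃ η : ℝ, 0 < η ∧ √s * Kf η ((1 / s - s) / 4) ≤ 2083/10000000 :=
  step_bound' 46 15 (13/50) (9483/1250) (2083/10000000) s (by norm_num) (by norm_num) hs (by norm_num) (by norm_num)
    (by norm_num [Finset.sum_range_succ, Nat.factorial])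

lemma st47 (s : ℝ) (hs : (2601 / 2500 : ℝ) ^ 47 ≤ s) :
    ∃ η : ℝ, 0 < η ∧ √s * Kf η ((1 / s - s) / 4) ≤ 11/100000 :=
  step_bound' 47 16 (259/1000) (82083/10000) (11/100000) s (by norm_num) (by norm_num) hs (by norm_num) (by norm_num)
    (by norm_num [Finset.sum_range_succ, Nat.factorial])

lemma st48 (s : ℝ) (hs : (2601 / 2500 : ℝ) ^ 48 ≤ s) :
    ∃ η : ℝ, 0 < η ∧ √s * Kf η ((1 / s - s) / 4) ≤ 279/5000000 :=
  step_bound' 48 16 (129/500) (22203/2500) (279/5000000) s (by norm_num) (by norm_num) hs (by norm_num) (by norm_num)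
    (by norm_num [Finset.sum_range_succ, Nat.factorial])

lemma st49 (s : ℝ) (hs : (2601 / 2500 : ℝ) ^ 49 ≤ s) :
    ∃ η : ℝ, 0 < η ∧ √s * Kf η ((1 / s - s) / 4) ≤ 53/2000000 :=
  step_bound' 49 17 (129/500) (19211/2000) (53/2000000) s (by norm_num) (by norm_num) hs (by norm_num) (by norm_num)
    (by norm_num [Finset.sum_range_succ, Nat.factorial])

lemma st50 (s : ℝ) (hs : (2601 / 2500 : ℝ) ^ 50 ≤ s) :
    ∃ η : ℝ, 0 < η ∧ √s * Kf η ((1 / s - s) / 4) ≤ 59/5000000 :=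
  step_bound' 50 19 (257/1000) (6496/625) (59/5000000) s (by norm_num) (by norm_num) hs (by norm_num) (by norm_num)
    (by norm_num [Finset.sum_range_succ, Nat.factorial])

lemma st51 (s : ℝ) (hs : (2601 / 2500 : ℝ) ^ 51 ≤ s) :
    ∃ η : ℝ, 0 < η ∧ √s * Kf η ((1 / s - s) / 4) ≤ 1/200000 :=
  step_bound' 51 20 (257/1000) (14053/1250) (1/200000) s (by norm_num) (by norm_num) hs (by norm_num) (by norm_num)
    (by norm_num [Finset.sum_range_succ, Nat.factorial])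

lemma steps (j : ℕ) (hj : j ≤ 51) (s : ℝ) (hs : (2601 / 2500 : ℝ) ^ j ≤ s) :
    ∃ η : ℝ, 0 < η ∧ √s * Kf η ((1 / s - s) / 4) ≤ V (j + 1) := by
  interval_cases j
  · simpa [V, Vl] using st0 s hs
  · simpa [V, Vl] using st1 s hs
  · simpa [V, Vl] using st2 s hs
  · simpa [V, Vl] using st3 s hs
  · simpa [V, Vl] using st4 s hs
  · simpa [V, Vl] using st5 s hs
  · simpa [V, Vl] using st6 s hs
  · simpa [V, Vl] using st7 s hs
  · simpa [V, Vl] using st8 s hs
  · simpa [V, Vl] using st9 s hs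
  · simpa [V, Vl] using st10 s hs
  · simpa [V, Vl] using st11 s hs
  · simpa [V, Vl] using st12 s hs
  · simpa [V, Vl] using st13 s hs
  · simpa [V, Vl] using st14 s hs
  · simpa [V, Vl] using st15 s hs
  · simpa [V, Vl] using st16 s hs
  · simpa [V, Vl] using st17 s hs
  · simpa [V, Vl] using st18 s hs
  · simpa [V, Vl] using st19 s hs
  · simpa [V, Vl] using st20 s hs
  · simpa [V, Vl] using st21 s hs
  · simpa [V, Vl] using st22 s hs
  · simpa [V, Vl] using st23 s hs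
  · simpa [V, Vl] using st24 s hs
  · simpa [V, Vl] using st25 s hs
  · simpa [V, Vl] using st26 s hs
  · simpa [V, Vl] using st27 s hs
  · simpa [V, Vl] using st28 s hs
  · simpa [V, Vl] using st29 s hs
  · simpa [V, Vl] using st30 s hs
  · simpa [V, Vl] using st31 s hs
  · simpa [V, Vl] using st32 s hs
  · simpa [V, Vl] using st33 s hs
  · simpa [V, Vl] using st34 s hs
  · simpa [V, Vl] using st35 s hs
  · simpa [V, Vl] using st36 s hs
  · simpa [V, Vl] using st37 s hs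
  · simpa [V, Vl] using st38 s hs
  · simpa [V, Vl] using st39 s hs
  · simpa [V, Vl] using st40 s hs
  · simpa [V, Vl] using st41 s hs
  · simpa [V, Vl] using st42 s hs
  · simpa [V, Vl] using st43 s hs
  · simpa [V, Vl] using st44 s hs
  · simpa [V, Vl] using st45 s hs
  · simpa [V, Vl] using st46 s hs
  · simpa [V, Vl] using st47 s hs
  · simpa [V, Vl] using st48 s hs
  · simpa [V, Vl] using st49 s hs
  · simpa [V, Vl] using st50 s hs
  · simpa [V, Vl] using st51 s hs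

end A5

end Pool.Agent.TFS
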