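import Pool.Agent.Lib.TFS.A5b

/-!
A5, part c: the majorant.
-/

set_option autoImplicit false

open Finset

namespace Pool.Agent.TFS

namespace A5

/-- the ratio of the steps -/
noncomputable def qq : ℝ := 2601 / 2500

/-- weights of the steps -/
noncomputable def ww (j : ℕ) : ℝ := V j - V (j + 1)

/-- constant of the tail -/
noncomputable def ta : ℝ := 1 / 360000

/-- the majorant -/
noncomputable def GG (K : ℕ) (s : ℝ) : ℝ :=
  13963 / 20000 * (if s ≤ 1 then 1 / √s - 1 else 0) +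
    ∑ j ∈ range 53, ww j * (if s ≤ qq ^ j then 1 else 0) +
    ∑ k ∈ range (K + 1), ta / 8 ^ k * (if s ≤ qq ^ 52 * 2 ^ (k + 1) then 1 else 0)

lemma ww_nonneg (j : ℕ) (hj : j < 53) : 0 ≤ ww j := by
  unfold ww V
  interval_cases j <;> norm_num [Vl]

lemma V0 : V 0 = 13963 / 20000 := by norm_num [V, Vl]

lemma V53 : V 53 = 0 := by norm_num [V, Vl]

lemma sum_ww (j : ℕ) (hj : j ≤ 53) : ∑ i ∈ Ico j 53, ww i = V j := by
  unfold ww
  rw [Finset.sum_Ico_eq_sum_range]
  have h := Finset.sum_range_sub' (fun i ↦ V (j + i)) (53 - j)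
  simp only [add_zero] at h
  rw [show j + (53 - j) = 53 by omega, V53, sub_zero] at h
  exact h

lemma one_lt_qq : 1 < qq := by unfold qq; norm_num

lemma step_part_nonneg (s : ℝ) : 0 ≤ ∑ j ∈ range 53, ww j * (if s ≤ qq ^ j then 1 else 0) := by
  apply Finset.sum_nonneg
  intro j hj
  rw [Finset.mem_range] at hj
  apply mul_nonneg (ww_nonneg j hj)
  split_ifs <;> norm_num

lemma tail_part_nonneg (K : ℕ) (s : ℝ) :
    0 ≤ ∑ k ∈ range (K + 1), ta / 8 ^ k * (if s ≤ qq ^ 52 * 2 ^ (k + 1) then (1 : ℝ) else 0) := by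
  apply Finset.sum_nonneg
  intro j _
  apply mul_nonneg
  · unfold ta; positivity
  · split_ifs <;> norm_num

lemma root_part_nonneg (s : ℝ) (hs : 0 < s) :
    0 ≤ 13963 / 20000 * (if s ≤ 1 then 1 / √s - 1 else 0) := by
  apply mul_nonneg (by norm_num)
  split_ifs with h
  · have : (1 : ℝ) ≤ 1 / √s := by
      rw [le_div_iff₀ (Real.sqrt_pos.mpr hs), one_mul]
      exact Real.sqrt_le_one.mpr h
    linarith
  · exact le_rfl

lemma step_part_ge (j : ℕ) (hj : j ≤ 53) (s : ℝ) (hs : s ≤ qq ^ j) :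
    V j ≤ ∑ j ∈ range 53, ww j * (if s ≤ qq ^ j then 1 else 0) := by
  rw [← sum_ww j hj]
  have e : ∑ i ∈ Ico j 53, ww i = ∑ i ∈ Ico j 53, ww i * (if s ≤ qq ^ i then 1 else 0) := by
    apply Finset.sum_congr rfl
    intro i hi
    rw [Finset.mem_Ico] at hi
    have : s ≤ qq ^ i := hs.trans (pow_le_pow_right₀ one_lt_qq.le hi.1)
    rw [if_pos this, mul_one]
  rw [e]
  apply Finset.sum_le_sum_of_subset_of_nonneg
  · intro i hi
    rw [Finset.mem_Ico] at hi
    rw [Finset.mem_range]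
    exact hi.2
  · intro i hi _
    rw [Finset.mem_range] at hi
    apply mul_nonneg (ww_nonneg i hi)
    split_ifs <;> norm_num

/-- the case `s ≤ 1` -/
lemma small_bound (s : ℝ) (hs : 0 < s) :
    √s * Kf (1 / 2 * s) ((1 / s - s) / 4) ≤ 13963 / 20000 / √s := by
  rw [Kf_eq (1 / 2) s hs (by norm_num)]
  have hp1 := Real.pi_gt_d6
  have hp2 := Real.pi_lt_d6
  have hpi := Real.pi_pos
  have hq0 : 0 < √s := Real.sqrt_pos.mpr hs
  have e1 : Real.pi * (1 / 2) / 2 + Real.pi * (1 / 2) * (1 / 2 - 1 / 2) * s ^ 2 = Real.pi / 4 := by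
    ring
  rw [e1]
  have hx : (0.2146017 : ℝ) ≤ 1 - Real.pi / 4 := by linarith
  have hS : ∑ i ∈ range 7, (0.2146017 : ℝ) ^ i / (Nat.factorial i : ℝ) ≤ Real.exp 0.2146017 :=
    Real.sum_le_exp_of_nonneg (by norm_num) 7
  have hS' : (1.239367 : ℝ) ≤ ∑ i ∈ range 7, (0.2146017 : ℝ) ^ i / (Nat.factorial i : ℝ) := by
    norm_num [Finset.sum_range_succ, Nat.factorial]
  have h1 : Real.exp (Real.pi / 4) ≤ Real.exp 1 / Real.exp 0.2146017 := by
    rw [← Real.exp_sub]
    apply Real.exp_le_exp.mpr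
    linarith
  have h2 := Real.exp_one_lt_d9
  have h3 : Real.exp 1 / Real.exp 0.2146017 ≤ 2.7182818286 / 1.239367 := by
    apply div_le_div₀ (by norm_num) h2.le (by norm_num) (hS'.trans hS)
  have h4 : Real.exp (Real.pi / 4) ≤ 13963 / 20000 * Real.pi := by
    refine h1.trans (h3.trans ?_)
    have : (2.7182818286 : ℝ) / 1.239367 ≤ 13963 / 20000 * 3.141592 := by norm_num
    linarith
  rw [div_le_div_iff₀ (by positivity) hq0]
  nlinarith [mul_le_mul_of_nonneg_right h4 hq0.le]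

lemma exp_tail (k : ℕ) : Real.exp (-(12 * 4 ^ k)) ≤ 1 / 150000 / 8 ^ k := by
  have h1 : Real.exp (-(12 * (4 : ℝ) ^ k)) = (Real.exp (-12)) ^ (4 ^ k) := by
    rw [← Real.exp_nat_mul]
    congr 1
    push_cast
    ring
  have h2 : Real.exp (-12) ≤ 1 / 150000 := by
    have h3 : Real.exp 12 = (Real.exp 1) ^ 12 := by
      rw [← Real.exp_nat_mul]; norm_num
    have h4 := Real.exp_one_gt_d9
    have h5 : (2.7 : ℝ) ^ 12 ≤ (Real.exp 1) ^ 12 := by
      apply pow_le_pow_left₀ (by norm_num)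
      linarith
    rw [Real.exp_neg, h3, ← one_div]
    apply one_div_le_one_div_of_le (by norm_num)
    refine le_trans ?_ h5
    norm_num
  rw [h1]
  have h6 : (1 / 150000 : ℝ) ^ (4 ^ k) ≤ 1 / 150000 / 8 ^ k := by
    have h7 : k + 1 ≤ 4 ^ k := by
      have := Nat.lt_pow_self (n := k) (a := 4) (by norm_num)
      omega
    calc (1 / 150000 : ℝ) ^ (4 ^ k) ≤ (1 / 150000 : ℝ) ^ (k + 1) :=
          pow_le_pow_of_le_one (by norm_num) (by norm_num) h7
      _ = 1 / 150000 * (1 / 150000) ^ k := by rw [pow_succ, mul_comm]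
      _ ≤ 1 / 150000 * (1 / 8) ^ k := by
          apply mul_le_mul_of_nonneg_left _ (by norm_num)
          exact pow_le_pow_left₀ (by norm_num) (by norm_num) k
      _ = _ := by rw [one_div_pow, mul_one_div]
  exact (pow_le_pow_left₀ (Real.exp_pos _).le h2 _).trans h6

lemma qq52 : (7.84 : ℝ) ≤ qq ^ 52 ∧ qq ^ 52 ≤ 8 := by
  unfold qq
  constructor <;> norm_num

/-- the tail -/
lemma large_bound (s : ℝ) (k : ℕ) (hs : qq ^ 52 * 2 ^ k ≤ s) :
    √s * Kf (1 / 4 * s) ((1 / s - s) / 4) ≤ ta / 8 ^ k := by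
  have hq := qq52.1
  have hp1 := Real.pi_gt_d6
  have hp2 := Real.pi_lt_d6
  have hpi := Real.pi_pos
  have h2k : (1 : ℝ) ≤ 2 ^ k := one_le_pow₀ (by norm_num)
  have hs1 : 7.84 * 2 ^ k ≤ s := by
    refine le_trans ?_ hs
    apply mul_le_mul_of_nonneg_right hq (by positivity)
  have hs0 : 7.84 ≤ s := by nlinarith
  have hspos : 0 < s := by linarith
  rw [Kf_eq (1 / 4) s hspos (by norm_num)]
  have hsq : 2.8 ≤ √s := by
    apply Real.le_sqrt_of_sq_le
    norm_num
    linarith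
  have hs2 : 61.4 * 4 ^ k ≤ s ^ 2 := by
    have h1 : (7.84 * 2 ^ k) ^ 2 ≤ s ^ 2 := pow_le_pow_left₀ (by positivity) hs1 2
    have h2 : ((7.84 : ℝ) * 2 ^ k) ^ 2 = 61.4656 * 4 ^ k := by
      rw [mul_pow, ← pow_mul, mul_comm k 2, pow_mul]
      norm_num
    rw [h2] at h1
    have : (0 : ℝ) < 4 ^ k := by positivity
    linarith
  have hexp : Real.pi * (1 / 4) / 2 + Real.pi * (1 / 4) * (1 / 4 - 1 / 2) * s ^ 2 ≤
      1 / 2 + -(12 * 4 ^ k) := by
    have h4k : (0 : ℝ) < 4 ^ k := by positivity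
    have h5 : 3.141592 * (61.4 * 4 ^ k) ≤ Real.pi * s ^ 2 :=
      mul_le_mul hp1.le hs2 (by positivity) hpi.le
    nlinarith
  have hE : Real.exp (Real.pi * (1 / 4) / 2 + Real.pi * (1 / 4) * (1 / 4 - 1 / 2) * s ^ 2) ≤
      1.648722 * (1 / 150000 / 8 ^ k) := by
    refine (Real.exp_le_exp.mpr hexp).trans ?_
    rw [Real.exp_add]
    exact mul_le_mul exp_half_le (exp_tail k) (Real.exp_pos _).le (by norm_num)
  rw [div_le_iff₀ (by positivity)]
  refine hE.trans ?_
  have h8 : (0 : ℝ) < 8 ^ k := by positivity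
  have h6 : (4 : ℝ) ≤ 2 * Real.pi * (1 / 4) * √s := by nlinarith
  have h7 : ta / 8 ^ k * 4 ≤ ta / 8 ^ k * (2 * Real.pi * (1 / 4) * √s) :=
    mul_le_mul_of_nonneg_left h6 (by unfold ta; positivity)
  refine le_trans ?_ h7
  unfold ta
  rw [div_div, mul_one_div, div_mul_eq_mul_div, div_le_div_iff₀ (by positivity) (by positivity)]
  nlinarith

/-- the choice of `η` -/
lemma eta_exists (s : ℝ) (hs : 0 < s) : ∃ η : ℝ, 0 < η ∧ ∀ K : ℕ, s ≤ qq ^ 52 * 2 ^ K →
    √s * Kf η ((1 / s - s) / 4) ≤ GG K s := by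
  rcases le_or_gt s 1 with h1 | h1
  · refine ⟨1 / 2 * s, by positivity, fun K _ ↦ ?_⟩
    refine (small_bound s hs).trans ?_
    have h2 := step_part_ge 0 (by norm_num) s (by simpa using h1)
    rw [V0] at h2
    have h3 := tail_part_nonneg K s
    unfold GG
    rw [if_pos h1]
    have e : (13963 / 20000 : ℝ) / √s = 13963 / 20000 * (1 / √s - 1) + 13963 / 20000 := by ring
    rw [e]
    linarith
  · rcases lt_or_ge s (qq ^ 52) with h2 | h2
    · obtain ⟨j, hj1, hj2⟩ := exists_nat_pow_near h1.le one_lt_qq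
      have hj : j ≤ 51 := by
        by_contra hj
        push Not at hj
        have : qq ^ 52 ≤ qq ^ j := pow_le_pow_right₀ one_lt_qq.le (by omega)
        linarith
      obtain ⟨η, hη, hb⟩ := steps j hj s (by simpa [qq] using hj1)
      refine ⟨η, hη, fun K _ ↦ ?_⟩
      refine hb.trans ?_
      have h3 := step_part_ge (j + 1) (by omega) s hj2.le
      have h4 := tail_part_nonneg K s
      have h5 := root_part_nonneg s hs
      unfold GG
      linarith
    · have hq0 : 0 < qq ^ 52 := by linarith [qq52.1]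
      obtain ⟨k, hk1, hk2⟩ := exists_nat_pow_near (x := s / qq ^ 52) (y := 2)
        (by rw [le_div_iff₀ hq0, one_mul]; exact h2) (by norm_num)
      rw [le_div_iff₀ hq0] at hk1
      rw [div_lt_iff₀ hq0] at hk2
      refine ⟨1 / 4 * s, by positivity, fun K hK ↦ ?_⟩
      have hkK : k ≤ K := by
        have h3 : (2 : ℝ) ^ k ≤ 2 ^ K := by
          have : 2 ^ k * qq ^ 52 ≤ 2 ^ K * qq ^ 52 := by linarith
          exact le_of_mul_le_mul_right this hq0
        exact (pow_le_pow_iff_right₀ (by norm_num : (1 : ℝ) < 2)).mp h3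
      refine (large_bound s k (by linarith)).trans ?_
      have h4 := step_part_nonneg s
      have h5 := root_part_nonneg s hs
      have h6 : ta / 8 ^ k ≤
          ∑ k ∈ range (K + 1), ta / 8 ^ k * (if s ≤ qq ^ 52 * 2 ^ (k + 1) then (1 : ℝ) else 0) := by
        have h7 := Finset.single_le_sum
          (f := fun k : ℕ ↦ ta / 8 ^ k * (if s ≤ qq ^ 52 * 2 ^ (k + 1) then (1 : ℝ) else 0))
          (s := range (K + 1)) (by
            intro i _
            apply mul_nonneg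
            · unfold ta; positivity
            · split_ifs <;> norm_num) (Finset.mem_range.mpr (Nat.lt_succ_of_le hkK))
        have h8 : s ≤ qq ^ 52 * 2 ^ (k + 1) := by linarith
        simp only [if_pos h8, mul_one] at h7
        exact h7
      unfold GG
      linarith

end A5

end Pool.Agent.TFS
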