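import Pool.Agent.Lib.TFS.A5c

/-!
A5, part d: numerical sums.
-/

set_option autoImplicit false

open Finset

namespace Pool.Agent.TFS

namespace A5

/-- the weights as rational numbers -/
def wl (j : ℕ) : ℚ := Vl.getD j 0 - Vl.getD (j + 1) 0

lemma ww_eq (j : ℕ) : ww j = ((wl j : ℚ) : ℝ) := by
  unfold ww wl V
  push_cast
  rfl

lemma S1q : ∑ j ∈ range 53, wl j * (2601 / 2500) ^ j ≤ 1.40783 := by decide +kernel

lemma S2q : ∑ j ∈ range 53, wl j * (2601 / 2500) ^ j * j ≤ 27.9898 := by decide +kernel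

lemma S3q : ∑ j ∈ range 53, wl j * (51 / 50) ^ j ≤ 0.97044 := by decide +kernel

lemma S1 : ∑ j ∈ range 53, ww j * qq ^ j ≤ 1.40783 := by
  have h : ((∑ j ∈ range 53, wl j * (2601 / 2500) ^ j : ℚ) : ℝ) ≤ ((1.40783 : ℚ) : ℝ) := by
    exact_mod_cast S1q
  have e : ∑ j ∈ range 53, ww j * qq ^ j =
      ((∑ j ∈ range 53, wl j * (2601 / 2500) ^ j : ℚ) : ℝ) := by
    push_cast
    apply Finset.sum_congr rfl
    intro j _
    rw [ww_eq]
    rfl
  rw [e]
  refine h.trans ?_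
  norm_num

lemma S2 : ∑ j ∈ range 53, ww j * qq ^ j * j ≤ 27.9898 := by
  have h : ((∑ j ∈ range 53, wl j * (2601 / 2500) ^ j * j : ℚ) : ℝ) ≤ ((27.9898 : ℚ) : ℝ) := by
    exact_mod_cast S2q
  have e : ∑ j ∈ range 53, ww j * qq ^ j * j =
      ((∑ j ∈ range 53, wl j * (2601 / 2500) ^ j * j : ℚ) : ℝ) := by
    push_cast
    apply Finset.sum_congr rfl
    intro j _
    rw [ww_eq]
    rfl
  rw [e]
  refine h.trans ?_
  norm_num

lemma S3 : ∑ j ∈ range 53, ww j * (51 / 50) ^ j ≤ 0.97044 := by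
  have h : ((∑ j ∈ range 53, wl j * (51 / 50) ^ j : ℚ) : ℝ) ≤ ((0.97044 : ℚ) : ℝ) := by
    exact_mod_cast S3q
  have e : ∑ j ∈ range 53, ww j * (51 / 50) ^ j =
      ((∑ j ∈ range 53, wl j * (51 / 50) ^ j : ℚ) : ℝ) := by
    push_cast
    apply Finset.sum_congr rfl
    intro j _
    rw [ww_eq]
  rw [e]
  refine h.trans ?_
  norm_num

lemma S4 : ∑ j ∈ range 53, ww j = 13963 / 20000 := by
  have h := sum_ww 0 (by norm_num)
  rw [V0] at h
  rw [← h, Finset.range_eq_Ico]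

lemma log_qq : Real.log qq ≤ 0.039606 := by
  rw [Real.log_le_iff_le_exp (by unfold qq; norm_num)]
  have hS : ∑ i ∈ range 4, (0.039606 : ℝ) ^ i / (Nat.factorial i : ℝ) ≤ Real.exp 0.039606 :=
    Real.sum_le_exp_of_nonneg (by norm_num) 4
  refine le_trans ?_ hS
  unfold qq
  norm_num [Finset.sum_range_succ, Nat.factorial]

lemma log_sixteen : Real.log 16 ≤ 2.7726 := by
  have h := Real.log_two_lt_d9
  have e : Real.log 16 = 4 * Real.log 2 := by
    rw [show (16 : ℝ) = 2 ^ 4 by norm_num, Real.log_pow]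
    norm_num
  rw [e]
  linarith

lemma nine_le_log (D : ℝ) (hD : 10000 ≤ D) : 9 ≤ Real.log D := by
  rw [Real.le_log_iff_exp_le (by linarith)]
  have h1 : Real.exp 9 = (Real.exp 1) ^ 9 := by
    rw [← Real.exp_nat_mul]; norm_num
  have h2 := Real.exp_one_lt_d9
  have h3 : (Real.exp 1) ^ 9 ≤ (2.7182818286 : ℝ) ^ 9 :=
    pow_le_pow_left₀ (Real.exp_pos 1).le h2.le 9
  rw [h1]
  refine h3.trans (le_trans ?_ hD)
  norm_num

end A5

end Pool.Agent.TFS
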