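import Pool.Agent.Lib.TFS.StmtsA

/-! Module A6: assembly of the asymptotic upper bound. -/

set_option autoImplicit false

open Finset MeasureTheory

namespace Pool.Agent.TFS

open Pool.Agent.Lib.MP_0e0027_nt

theorem stAs (hD : StDOM) (hP : StPoi) (h2 : StD) (h3 : StSW) (h5 : StES) (h4 : StMT) : StAs := by
  intro par m κ p ν _ hp2 hm3 hU hbig
  set D : ℝ := √((ν : ℝ) / κ) / p with hDdef
  have hDpos : 0 < D := by linarith
  have hκ : 1 ≤ κ := by
    rcases hU.1 with h | h | h | h <;> omega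
  have hpar : par ≤ 4 := by
    rcases hU.1 with h | h | h | h <;> omega
  have hm : m ≤ 3 := by
    rcases hU.2 with h | h | h | h <;> omega
  have hpp : (0 : ℝ) < p := by exact_mod_cast (Fact.out : p.Prime).pos
  have hκr : (0 : ℝ) < κ := by exact_mod_cast hκ
  have hp2o : p % 2 = 1 := by
    rcases (Fact.out : p.Prime).eq_two_or_odd with h | h
    · exact absurd h hp2
    · exact h
  have hD2 : (κ : ℝ) * p ^ 2 * D ^ 2 = ν := by
    rw [hDdef, div_pow, Real.sq_sqrt (by positivity)]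
    field_simp
  have hν : 1 ≤ ν := by
    rcases Nat.eq_zero_or_pos ν with h | h
    · rw [h] at hD2
      have : (0 : ℝ) < (κ : ℝ) * p ^ 2 * D ^ 2 := by positivity
      rw [hD2] at this
      simp at this
    · exact h
  have hνr : (0 : ℝ) < ν := by exact_mod_cast hν
  obtain ⟨hfin, hsum, hcard⟩ := h3 par m κ p ν hp2 (fun h h3 ↦ h (hm3.mpr h3)) hU (4 * D)
    (by positivity)
  refine ⟨hfin, ?_⟩
  obtain ⟨hMs, hM⟩ := h4 m p ν D hp2 hm3 hν hDpos
  obtain ⟨η, hη, ⟨hs6, hS6⟩, ⟨hs2, hS2⟩⟩ := h5 D hbig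
  have hdens : 0 ≤ densU par m := by
    unfold densU
    split_ifs <;> norm_num
  have hcU : 0 ≤ cU par m := by
    unfold cU
    split_ifs <;> norm_num
  have hCp : 0 ≤ Cp p := by
    unfold Cp
    split_ifs
    · norm_num
    · positivity
  -- the pointwise estimate
  have key : ∀ d : ℕ, DD m d → |ch d * (∑' x : WU par m ν p (p ^ 2 * d),
      Phi (((ν : ℝ) - (N2 x : ℝ) - κ * p ^ 2 * d ^ 2) / (κ * p ^ 2 * d * (4 * D)))) -
      Real.pi * densU par m * ν *
        (ch d * rhoN ν p (p ^ 2 * d) / ((p ^ 2 * d : ℕ) : ℝ) ^ 2 * Jf (d / D))| ≤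
      cU par m * p * Cp p * (√(d : ℝ) * tau d * hh d * Kf (η d) ((D / d - d / D) / 4)) := by
    intro d hd
    have hd0 : 0 < d := by
      rcases Nat.eq_zero_or_pos d with h | h
      · exfalso
        have := hd.1
        rw [h] at this
        simp at this
      · exact h
    have hdr : (0 : ℝ) < d := by exact_mod_cast hd0
    have : NeZero (p ^ 2 * d) := ⟨by
      have := (Fact.out : p.Prime).pos
      positivity⟩
    have hdom := hD p d hp2 hd.1 ν
    have hqodd : (p ^ 2 * d) % 2 = 1 := by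
      rw [Nat.mul_mod, Nat.pow_mod, hp2o, hd.1]
    have hpq : p ∣ p ^ 2 * d := Dvd.intro (p * d) (by ring)
    have h3q : m ≠ 0 → ¬ 3 ∣ p ^ 2 * d := by
      intro hm0 h
      rcases (Nat.Prime.dvd_mul Nat.prime_three).mp h with h | h
      · have h := Nat.prime_three.dvd_of_dvd_pow h
        have h := (Nat.prime_dvd_prime_iff_eq Nat.prime_three (Fact.out : p.Prime)).mp h
        exact hm0 (hm3.mpr h.symm)
      · have := hd.2 hm0
        omega
    have hGC := hP par m p (p ^ 2 * d) ν (Bq p d) hpar hm hqodd hpq h3q hdom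
    have hBq : 0 ≤ Bq p d := by
      unfold Bq hh hl
      have : 0 ≤ ∏ l ∈ d.primeFactors, (1 + 1 / (2 * ((l : ℝ) * √(l : ℝ)))) :=
        Finset.prod_nonneg (fun l _ ↦ by positivity)
      positivity
    have hE0 : 0 ≤ cU par m * Bq p d := mul_nonneg hcU hBq
    obtain ⟨-, hmain⟩ := h2 _ _ _ hGC hE0 ((ν : ℝ) - κ * p ^ 2 * d ^ 2) (κ * p ^ 2 * d * (4 * D))
      (by positivity)
    have hmain := hmain (η d) (hη d)
    have hY : ((ν : ℝ) - κ * p ^ 2 * d ^ 2) / (κ * p ^ 2 * d * (4 * D)) = (D / d - d / D) / 4 := by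
      rw [← hD2]
      field_simp
    have hS : (∑' x : WU par m ν p (p ^ 2 * d),
        Phi (((ν : ℝ) - κ * p ^ 2 * d ^ 2 - (N2 x : ℝ)) / (κ * p ^ 2 * d * (4 * D)))) =
        ∑' x : WU par m ν p (p ^ 2 * d),
        Phi (((ν : ℝ) - (N2 x : ℝ) - κ * p ^ 2 * d ^ 2) / (κ * p ^ 2 * d * (4 * D))) := by
      refine tsum_congr (fun x ↦ ?_)
      congr 2
      ring
    rw [hS, hY] at hmain
    set S := ∑' x : WU par m ν p (p ^ 2 * d),
        Phi (((ν : ℝ) - (N2 x : ℝ) - κ * p ^ 2 * d ^ 2) / (κ * p ^ 2 * d * (4 * D))) with hSdef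
    have hJ : densU par m * rhoN ν p (p ^ 2 * d) / ((p ^ 2 * d : ℕ) : ℝ) ^ 2 * Real.pi *
        (κ * p ^ 2 * d * (4 * D)) * Hf ((D / d - d / D) / 4) =
        Real.pi * densU par m * ν * (rhoN ν p (p ^ 2 * d) / ((p ^ 2 * d : ℕ) : ℝ) ^ 2 * Jf (d / D)) := by
      unfold Jf
      rw [show (1 / ((d : ℝ) / D) - d / D) / 4 = (D / d - d / D) / 4 by rw [one_div_div], ← hD2]
      field_simp
    rw [hJ] at hmain
    have hch : |ch d| ≤ 1 := by
      unfold ch
      rw [← Int.cast_abs]
      have : ∀ a : ZMod 4, |ZMod.χ₄ a| ≤ 1 := by decide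
      exact_mod_cast this _
    have heq : ch d * S - Real.pi * densU par m * ν *
        (ch d * rhoN ν p (p ^ 2 * d) / ((p ^ 2 * d : ℕ) : ℝ) ^ 2 * Jf (d / D)) =
        ch d * (S - Real.pi * densU par m * ν *
          (rhoN ν p (p ^ 2 * d) / ((p ^ 2 * d : ℕ) : ℝ) ^ 2 * Jf (d / D))) := by ring
    rw [heq, abs_mul]
    calc |ch d| * |S - Real.pi * densU par m * ν *
          (rhoN ν p (p ^ 2 * d) / ((p ^ 2 * d : ℕ) : ℝ) ^ 2 * Jf (d / D))|
        ≤ 1 * |S - Real.pi * densU par m * ν *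
          (rhoN ν p (p ^ 2 * d) / ((p ^ 2 * d : ℕ) : ℝ) ^ 2 * Jf (d / D))| :=
          mul_le_mul_of_nonneg_right hch (abs_nonneg _)
      _ ≤ cU par m * Bq p d * Kf (η d) ((D / d - d / D) / 4) := by rw [one_mul]; exact hmain
      _ = _ := by unfold Bq; ring
  -- the sums
  classical
  set A : ℕ → ℝ := fun d ↦ if DD m d then ch d * (∑' x : WU par m ν p (p ^ 2 * d),
      Phi (((ν : ℝ) - (N2 x : ℝ) - κ * p ^ 2 * d ^ 2) / (κ * p ^ 2 * d * (4 * D)))) else 0 with hA
  set M : ℕ → ℝ := fun d ↦ if DD m d then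
    ch d * rhoN ν p (p ^ 2 * d) / ((p ^ 2 * d : ℕ) : ℝ) ^ 2 * Jf (d / D) else 0 with hMdef
  set E : ℕ → ℝ := fun d ↦ if DD m d then
    √(d : ℝ) * tau d * hh d * Kf (η d) ((D / d - d / D) / 4) else 0 with hE
  have hAs : Summable A := by
    refine hsum.congr (fun d ↦ ?_)
    simp only [hA]
  have hAt : ((NS par m κ p ν).ncard : ℝ) = 8 * ∑' d, A d := by
    rw [hcard]
  have hMs' : Summable M := by
    refine hMs.congr (fun d ↦ ?_)
    simp only [hMdef]
  have hM' : |(∑' d, M d) - r4 ν p * KM m p * gs ν (6 * p)| ≤ r4 ν p * 2.9 * FF ν / √D := by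
    refine le_trans (le_of_eq ?_) hM
    simp only [hMdef]
  have hEs : Summable E ∧ ∑' d, E d ≤ (if m = 0 then SB2 D else SB6 D) := by
    by_cases hm0 : m = 0
    · rw [if_pos hm0]
      have : E = fun d : ℕ ↦ if d % 2 = 1 then
          √(d : ℝ) * tau d * hh d * Kf (η d) ((D / d - d / D) / 4) else 0 := by
        funext d
        simp only [hE]
        have : DD m d ↔ d % 2 = 1 := by
          unfold DD
          simp [hm0]
        simp only [this]
      rw [this]
      exact ⟨hs2, hS2⟩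
    · rw [if_neg hm0]
      have : E = fun d : ℕ ↦ if d.Coprime 6 then
          √(d : ℝ) * tau d * hh d * Kf (η d) ((D / d - d / D) / 4) else 0 := by
        funext d
        simp only [hE]
        have : DD m d ↔ d.Coprime 6 := by
          unfold DD
          rw [show (6 : ℕ) = 2 * 3 from rfl, Nat.coprime_mul_iff_right,
            Nat.coprime_comm, Nat.coprime_comm (n := d) (m := 3),
            Nat.Prime.coprime_iff_not_dvd Nat.prime_two, Nat.Prime.coprime_iff_not_dvd Nat.prime_three]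
          constructor
          · rintro ⟨h1, h2⟩
            have := h2 hm0
            omega
          · rintro ⟨h1, h2⟩
            exact ⟨by omega, fun _ ↦ by omega⟩
        simp only [this]
      rw [this]
      exact ⟨hs6, hS6⟩
  set c : ℝ := Real.pi * densU par m * ν with hc
  set C : ℝ := cU par m * p * Cp p with hC
  have hc0 : 0 ≤ c := by positivity
  have hC0 : 0 ≤ C := by positivity
  have hpt : ∀ d, |A d - c * M d| ≤ C * E d := by
    intro d
    by_cases h : DD m d
    · simp only [hA, hMdef, hE, if_pos h]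
      exact key d h
    · simp only [hA, hMdef, hE, if_neg h, mul_zero, sub_zero, abs_zero, le_refl]
  have hsub : Summable (fun d ↦ A d - c * M d) := hAs.sub (hMs'.mul_left c)
  have hCE : Summable (fun d ↦ C * E d) := hEs.1.mul_left C
  have h1 : (∑' d, A d) - c * ∑' d, M d = ∑' d, (A d - c * M d) := by
    rw [hAs.tsum_sub (hMs'.mul_left c), tsum_mul_left]
  have h2' : |∑' d, (A d - c * M d)| ≤ ∑' d, C * E d := by
    have hab : Summable (fun d ↦ |A d - c * M d|) :=
      Summable.of_nonneg_of_le (fun d ↦ abs_nonneg _) hpt hCE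
    have h0 : |∑' d, (A d - c * M d)| ≤ ∑' d, |A d - c * M d| := by
      have := norm_tsum_le_tsum_norm (f := fun d ↦ A d - c * M d)
        (by simpa only [Real.norm_eq_abs] using hab)
      simpa only [Real.norm_eq_abs] using this
    exact h0.trans (hab.tsum_le_tsum hpt hCE)
  rw [tsum_mul_left] at h2'
  have h4' : C * ∑' d, E d ≤ C * (if m = 0 then SB2 D else SB6 D) :=
    mul_le_mul_of_nonneg_left hEs.2 hC0
  have h3' : |c * (∑' d, M d) - c * (r4 ν p * KM m p * gs ν (6 * p))| ≤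
      c * (r4 ν p * 2.9 * FF ν / √D) := by
    rw [← mul_sub, abs_mul, abs_of_nonneg hc0]
    exact mul_le_mul_of_nonneg_left hM' hc0
  have h6 : |(∑' d, A d) - c * (r4 ν p * KM m p * gs ν (6 * p))| ≤
      c * (r4 ν p * 2.9 * FF ν / √D) + C * (if m = 0 then SB2 D else SB6 D) := by
    have e : (∑' d, A d) - c * (r4 ν p * KM m p * gs ν (6 * p)) =
        (∑' d, (A d - c * M d)) + (c * (∑' d, M d) - c * (r4 ν p * KM m p * gs ν (6 * p))) := by
      rw [← h1]; ring
    rw [e]
    refine (abs_add_le _ _).trans ?_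
    linarith
  rw [hAt]
  have e2 : 8 * (∑' d, A d) - 8 * Real.pi * densU par m * ν * (r4 ν p * KM m p * gs ν (6 * p)) =
      8 * ((∑' d, A d) - c * (r4 ν p * KM m p * gs ν (6 * p))) := by
    rw [hc]; ring
  rw [e2, abs_mul, abs_of_pos (by norm_num : (0 : ℝ) < 8)]
  have e3 : ErrN par m κ p ν = 8 * (c * (r4 ν p * 2.9 * FF ν / √D) +
      C * (if m = 0 then SB2 D else SB6 D)) := by
    unfold ErrN
    rw [← hDdef, hc, hC]
    ring
  rw [e3]
  exact mul_le_mul_of_nonneg_left h6 (by norm_num)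

end Pool.Agent.TFS
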