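import Pool.Agent.Lib.TFS.StmtsC

/-!
C1: error sum over numbers composed of primes `1 mod 4` (`stSC`).
The weight `√s exp(-s²)` is majorised by a combination of exponentials, and lattice sums of
Gaussians are estimated by theta functions.
-/

set_option autoImplicit false

open Finset MeasureTheory

namespace Pool.Agent.TFS

open Pool.Agent.Lib.MP_0e0027_nt

/-! ### The majorant -/

/-- tangent bound -/
theorem c1_tangent (k ν s : ℝ) (hk : 0 < k) :
    √s * Real.exp (-s ^ 2) ≤ √(1 / (2 * k)) * Real.exp (-1 / 2 + (ν + k) ^ 2 / 4) * Real.exp (-(ν * s)) := by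
  have h1 : s ≤ 1 / (2 * k) * Real.exp (2 * k * s - 1) := by
    have := Real.add_one_le_exp (2 * k * s - 1)
    have h2 : 2 * k * s ≤ Real.exp (2 * k * s - 1) := by linarith
    calc s = 1 / (2 * k) * (2 * k * s) := by field_simp
      _ ≤ _ := by gcongr
  have h3 : √s ≤ √(1 / (2 * k)) * Real.exp (k * s - 1 / 2) := by
    calc √s ≤ √(1 / (2 * k) * Real.exp (2 * k * s - 1)) := Real.sqrt_le_sqrt h1
      _ = √(1 / (2 * k)) * √(Real.exp (2 * k * s - 1)) := Real.sqrt_mul (by positivity) _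
      _ = _ := by
        rw [← Real.exp_half]; congr 2; ring
  calc √s * Real.exp (-s ^ 2) ≤ √(1 / (2 * k)) * Real.exp (k * s - 1 / 2) * Real.exp (-s ^ 2) := by
        gcongr
    _ = √(1 / (2 * k)) * Real.exp (k * s - 1 / 2 + -s ^ 2) := by rw [Real.exp_add]; ring
    _ ≤ √(1 / (2 * k)) * Real.exp (-1 / 2 + (ν + k) ^ 2 / 4 + -(ν * s)) := by
        refine mul_le_mul_of_nonneg_left (Real.exp_le_exp.2 ?_) (Real.sqrt_nonneg _)
        nlinarith [sq_nonneg (s - (ν + k) / 2)]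
    _ = _ := by rw [Real.exp_add (-1 / 2 + (ν + k) ^ 2 / 4)]; ring

/-- tangent bound with a numerical constant -/
theorem c1_tangent' (k ν s α : ℝ) (hk : 0 < k) (hα : 0 ≤ α)
    (h : 1 / (2 * k) * Real.exp (-1 + (ν + k) ^ 2 / 2) ≤ α ^ 2) :
    √s * Real.exp (-s ^ 2) ≤ α * Real.exp (-(ν * s)) := by
  refine (c1_tangent k ν s hk).trans ?_
  gcongr
  rw [← Real.sqrt_sq hα]
  have : √(1 / (2 * k)) * Real.exp (-1 / 2 + (ν + k) ^ 2 / 4) =
      √(1 / (2 * k) * Real.exp (-1 + (ν + k) ^ 2 / 2)) := by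
    rw [Real.sqrt_mul (by positivity), ← Real.exp_half]
    congr 2; ring
  rw [this]
  exact Real.sqrt_le_sqrt h

theorem c1_exp_le (x : ℝ) (h0 : 0 ≤ x) (h1 : x ≤ 1) : Real.exp x ≤
    1 + x + x ^ 2 / 2 + x ^ 3 / 6 + x ^ 4 / 24 + x ^ 5 / 100 := by
  have := Real.exp_bound' h0 h1 (n := 5) (by norm_num)
  simp only [Finset.sum_range_succ, Finset.sum_range_zero, Nat.factorial] at this
  norm_num at this
  linarith

theorem c1_le_exp (x : ℝ) (h0 : 0 ≤ x) :
    1 + x + x ^ 2 / 2 + x ^ 3 / 6 + x ^ 4 / 24 + x ^ 5 / 120 ≤ Real.exp x := by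
  have := Real.sum_le_exp_of_nonneg h0 6
  simp only [Finset.sum_range_succ, Finset.sum_range_zero, Nat.factorial] at this
  norm_num at this
  linarith

/-- `α(2.4) ≤ 4.81` -/
theorem c1_a2 (s : ℝ) : √s * Real.exp (-s ^ 2) ≤ 4.81 * Real.exp (-(2.4 * s)) := by
  refine c1_tangent' 0.36 2.4 s 4.81 (by norm_num) (by norm_num) ?_
  have h1 := c1_exp_le 0.7022 (by norm_num) (by norm_num)
  have h2 : Real.exp (-1 + (2.4 + 0.36) ^ 2 / 2) = Real.exp 0.7022 ^ 4 := by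
    rw [← Real.exp_nat_mul]; norm_num
  rw [h2]
  have h3 : Real.exp 0.7022 ≤ 2.0198 := h1.trans (by norm_num)
  have h4 : Real.exp 0.7022 ^ 4 ≤ 2.0198 ^ 4 := by gcongr
  calc 1 / (2 * 0.36) * Real.exp 0.7022 ^ 4 ≤ 1 / (2 * 0.36) * 2.0198 ^ 4 := by gcongr
    _ ≤ _ := by norm_num

/-- `α(1.2) ≤ 1.2445` -/
theorem c1_a1 (s : ℝ) : √s * Real.exp (-s ^ 2) ≤ 1.2445 * Real.exp (-(1.2 * s)) := by
  refine c1_tangent' 0.57 1.2 s 1.2445 (by norm_num) (by norm_num) ?_
  have h1 := c1_exp_le 0.56645 (by norm_num) (by norm_num)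
  have h2 : Real.exp (-1 + (1.2 + 0.57) ^ 2 / 2) = Real.exp 0.56645 := by
    norm_num
  rw [h2]
  have h3 : Real.exp 0.56645 ≤ 1.765 := h1.trans (by norm_num)
  calc 1 / (2 * 0.57) * Real.exp 0.56645 ≤ 1 / (2 * 0.57) * 1.765 := by gcongr
    _ ≤ _ := by norm_num

/-- `α(0) ≤ 0.5512` -/
theorem c1_a0 (s : ℝ) : √s * Real.exp (-s ^ 2) ≤ 0.5512 * Real.exp (-(0 * s)) := by
  refine c1_tangent' 1 0 s 0.5512 (by norm_num) (by norm_num) ?_
  have h1 := c1_le_exp 0.5 (by norm_num)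
  have h2 : Real.exp (-1 + (0 + 1) ^ 2 / 2) = (Real.exp 0.5)⁻¹ := by
    rw [← Real.exp_neg]; norm_num
  rw [h2]
  have h3 : 1.6475 ≤ Real.exp 0.5 := le_trans (by norm_num) h1
  calc 1 / (2 * 1) * (Real.exp 0.5)⁻¹ ≤ 1 / (2 * 1) * (1.6475)⁻¹ := by gcongr
    _ ≤ _ := by norm_num

/-- `α(-2.4) ≤ 0.2670` -/
theorem c1_am (s : ℝ) : √s * Real.exp (-s ^ 2) ≤ 0.2670 * Real.exp (-((-2.4) * s)) := by
  refine c1_tangent' 2.8 (-2.4) s 0.2670 (by norm_num) (by norm_num) ?_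
  have h1 := c1_le_exp 0.92 (by norm_num)
  have h2 : Real.exp (-1 + (-2.4 + 2.8) ^ 2 / 2) = (Real.exp 0.92)⁻¹ := by
    rw [← Real.exp_neg]; norm_num
  rw [h2]
  have h3 : 2.508 ≤ Real.exp 0.92 := le_trans (by norm_num) h1
  calc 1 / (2 * 2.8) * (Real.exp 0.92)⁻¹ ≤ 1 / (2 * 2.8) * (2.508)⁻¹ := by gcongr
    _ ≤ _ := by norm_num

/-- `α(1) ≤ 1.05` -/
theorem c1_b (s : ℝ) : √s * Real.exp (-s ^ 2) ≤ 1.05 * Real.exp (-(1 * s)) := by
  refine c1_tangent' 0.62 1 s 1.05 (by norm_num) (by norm_num) ?_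
  have h1 := c1_exp_le 0.3122 (by norm_num) (by norm_num)
  have h2 : Real.exp (-1 + (1 + 0.62) ^ 2 / 2) = Real.exp 0.3122 := by
    norm_num
  rw [h2]
  have h3 : Real.exp 0.3122 ≤ 1.367 := h1.trans (by norm_num)
  calc 1 / (2 * 0.62) * Real.exp 0.3122 ≤ 1 / (2 * 0.62) * 1.367 := by gcongr
    _ ≤ _ := by norm_num

/-- the polynomial inequalities -/
theorem c1_poly2 (u : ℝ) (h : 3.87 ≤ u) : 4.81 * u ^ 2 ≤ 8.478 * u ^ 2 - 15.867 * u + 7.68 := by
  nlinarith

theorem c1_poly1 (u : ℝ) (h1 : 2.25 ≤ u) (h2 : u ≤ 3.87) :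
    1.2445 * u ^ 3 ≤ 8.478 * u ^ 2 - 15.867 * u + 7.68 := by
  have ha : 0 ≤ (u - 2.25) * (3.87 - u) := mul_nonneg (by linarith) (by linarith)
  have hb : 0 ≤ (u - 2.25) * (3.87 - u) * (u - 0.73) := mul_nonneg ha (by linarith)
  nlinarith

theorem c1_poly0 (u : ℝ) (h1 : 1.44 ≤ u) (h2 : u ≤ 2.25) :
    0.5512 * u ^ 4 ≤ 8.478 * u ^ 2 - 15.867 * u + 7.68 := by
  have ha : 0 ≤ (u - 1.44) * (2.25 - u) := mul_nonneg (by linarith) (by linarith)
  have hb : 0 ≤ (u - 1.44) * (2.25 - u) * (0.5512 * u ^ 2 + 2.0339 * u - 2.8408) :=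
    mul_nonneg ha (by nlinarith)
  nlinarith

theorem c1_polym (u : ℝ) (h1 : 1 ≤ u) (h2 : u ≤ 1.44) :
    0.2670 * u ^ 6 ≤ 8.478 * u ^ 2 - 15.867 * u + 7.68 := by
  rcases le_total u 1.2 with h3 | h3
  · have ha : 0 ≤ (u - 1.065) ^ 2 * (8.478 - 0.2670 * (u ^ 4 + 2.13 * u ^ 3 + 3.402675 * u ^ 2 +
      4.831798 * u + 6.432331)) := by
      refine mul_nonneg (sq_nonneg _) ?_
      have e2 : u ^ 2 ≤ 1.2 ^ 2 := by gcongr
      have e3 : u ^ 3 ≤ 1.2 ^ 3 := by gcongr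
      have e4 : u ^ 4 ≤ 1.2 ^ 4 := by gcongr
      norm_num at e2 e3 e4 ⊢
      linarith
    nlinarith
  · have ha : 0 ≤ (u - 1.2) * (1.44 - u) := mul_nonneg (by linarith) (by linarith)
    have hb : 0 ≤ (u - 1.2) * (1.44 - u) * (0.2670 * (u ^ 4 + 2.64 * u ^ 3 + (1.44 + 1.728 + 2.0736) * u ^ 2
      + (1.728 + 2.0736 + 2.48832 + 2.985984) * u + (2.0736 + 2.48832 + 2.985984 + 3.5831808 + 4.29981696))
      - 8.478) := by
      refine mul_nonneg ha ?_
      have e2 : 1.2 ^ 2 ≤ u ^ 2 := by gcongr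
      have e3 : 1.2 ^ 3 ≤ u ^ 3 := by gcongr
      have e4 : 1.2 ^ 4 ≤ u ^ 4 := by gcongr
      norm_num at e2 e3 e4 ⊢
      linarith
    nlinarith

/-- the majorant -/
noncomputable def c1P (s : ℝ) : ℝ :=
  8.478 * Real.exp (-(2.4 * s)) - 15.867 * Real.exp (-(3.6 * s)) + 7.68 * Real.exp (-(4.8 * s))

theorem c1_major (s : ℝ) (hs : 0 ≤ s) : √s * Real.exp (-s ^ 2) ≤ c1P s := by
  set u := Real.exp (1.2 * s) with hu
  have hu1 : 1 ≤ u := Real.one_le_exp (by positivity)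
  have hP : c1P s = Real.exp (-(4.8 * s)) * (8.478 * u ^ 2 - 15.867 * u + 7.68) := by
    unfold c1P
    have e1 : Real.exp (-(2.4 * s)) = Real.exp (-(4.8 * s)) * u ^ 2 := by
      rw [hu, ← Real.exp_nat_mul, ← Real.exp_add]; congr 1; push_cast; ring
    have e2 : Real.exp (-(3.6 * s)) = Real.exp (-(4.8 * s)) * u := by
      rw [hu, ← Real.exp_add]; congr 1; ring
    rw [e1, e2]; ring
  have hE : 0 ≤ Real.exp (-(4.8 * s)) := (Real.exp_pos _).le
  rw [hP]
  rcases le_total u 2.25 with h | h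
  · rcases le_total u 1.44 with h' | h'
    · refine (c1_am s).trans ?_
      have e : Real.exp (-((-2.4) * s)) = Real.exp (-(4.8 * s)) * u ^ 6 := by
        rw [hu, ← Real.exp_nat_mul, ← Real.exp_add]; congr 1; push_cast; ring
      rw [e]
      have := mul_le_mul_of_nonneg_left (c1_polym u hu1 h') hE
      linarith
    · refine (c1_a0 s).trans ?_
      have e : Real.exp (-(0 * s)) = Real.exp (-(4.8 * s)) * u ^ 4 := by
        rw [hu, ← Real.exp_nat_mul, ← Real.exp_add]; congr 1; push_cast; ring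
      rw [e]
      have := mul_le_mul_of_nonneg_left (c1_poly0 u h' h) hE
      linarith
  · rcases le_total u 3.87 with h' | h'
    · refine (c1_a1 s).trans ?_
      have e : Real.exp (-(1.2 * s)) = Real.exp (-(4.8 * s)) * u ^ 3 := by
        rw [hu, ← Real.exp_nat_mul, ← Real.exp_add]; congr 1; push_cast; ring
      rw [e]
      have := mul_le_mul_of_nonneg_left (c1_poly1 u h h') hE
      linarith
    · refine (c1_a2 s).trans ?_
      have e : Real.exp (-(2.4 * s)) = Real.exp (-(4.8 * s)) * u ^ 2 := by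
        rw [hu, ← Real.exp_nat_mul, ← Real.exp_add]; congr 1; push_cast; ring
      rw [e]
      have := mul_le_mul_of_nonneg_left (c1_poly2 u h') hE
      linarith

/-! ### Arithmetic -/

theorem c1_P1s_mul {a b : ℕ} : P1s (a * b) ↔ P1s a ∧ P1s b := by
  unfold P1s
  constructor
  · rintro ⟨h0, h⟩
    rw [mul_ne_zero_iff] at h0
    exact ⟨⟨h0.1, fun l hl hd ↦ h l hl (hd.mul_right b)⟩, ⟨h0.2, fun l hl hd ↦ h l hl (hd.mul_left a)⟩⟩
  · rintro ⟨⟨h0, h⟩, ⟨h0', h'⟩⟩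
    refine ⟨mul_ne_zero h0 h0', fun l hl hd ↦ ?_⟩
    rcases hl.dvd_mul.1 hd with hd | hd
    · exact h l hl hd
    · exact h' l hl hd

theorem c1_P1s_mod (d : ℕ) : P1s d → d % 4 = 1 := by
  induction d using Nat.recOnMul with
  | zero => intro h; exact absurd rfl h.1
  | one => intro _; rfl
  | prime p hp => intro h; exact h.2 p hp dvd_rfl
  | mul a b ha hb =>
    intro h
    rw [c1_P1s_mul] at h
    rw [Nat.mul_mod, ha h.1, hb h.2]

/-- `4 τ(g) = r₂(g)` -/
theorem c1_tau_eq {g : ℕ} (hg : P1s g) : ((r2set g).card : ℝ) = 4 * tau g := by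
  have h := r2_eq g (Nat.pos_of_ne_zero hg.1)
  have h2 : R2 g = (tau g : ℤ) := by
    unfold R2 tau
    rw [card_eq_sum_ones, Nat.cast_sum]
    refine sum_congr rfl fun e he ↦ ?_
    rw [Nat.mem_divisors] at he
    obtain ⟨k, hk⟩ := he.1
    have : P1s e := by
      rw [hk, c1_P1s_mul] at hg
      exact hg.1
    rw [c4_of_one (c1_P1s_mod e this)]; rfl
  rw [h2] at h
  exact_mod_cast h

/-- `1/(n√n)` as an arithmetic function -/
noncomputable def c1R : ArithmeticFunction ℝ := ⟨fun n ↦ 1 / ((n : ℝ) * √(n : ℝ)), by simp⟩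

theorem c1R_apply (n : ℕ) : c1R n = 1 / ((n : ℝ) * √(n : ℝ)) := rfl

theorem c1R_nonneg (n : ℕ) : 0 ≤ c1R n := by rw [c1R_apply]; positivity

theorem c1R_mult : c1R.IsMultiplicative := by
  refine ⟨by simp [c1R_apply], ?_⟩
  intro m n _
  rw [c1R_apply, c1R_apply, c1R_apply]
  push_cast
  rw [Real.sqrt_mul (Nat.cast_nonneg m)]
  ring

/-- divisor function as an arithmetic function -/
noncomputable def c1T : ArithmeticFunction ℝ := (ArithmeticFunction.sigma 0 : ArithmeticFunction ℕ)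

theorem c1T_apply (n : ℕ) : c1T n = (tau n : ℝ) := by
  unfold c1T tau
  simp [ArithmeticFunction.sigma_zero_apply]

theorem c1T_mult : c1T.IsMultiplicative := by
  unfold c1T
  exact ArithmeticFunction.isMultiplicative_sigma.natCast

theorem hh_mul {a b : ℕ} (h : Nat.Coprime a b) : hh (a * b) = hh a * hh b := by
  unfold hh
  rw [h.primeFactors_mul, prod_union h.disjoint_primeFactors]

theorem hh_nonneg (a : ℕ) : 0 ≤ hh a := by
  unfold hh hl
  exact prod_nonneg fun _ _ ↦ by positivity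

theorem c1_conv (d : ℕ) (hd : d ≠ 0) : (tau d : ℝ) * hh d ≤ (c1R * c1T) d := by
  induction d using Nat.recOnPosPrimePosCoprime with
  | prime_pow p n hp hn =>
    rw [ArithmeticFunction.mul_apply]
    have hsub : ({(1, p ^ n), (p, p ^ (n - 1))} : Finset (ℕ × ℕ)) ⊆ (p ^ n).divisorsAntidiagonal := by
      intro x hx
      rw [mem_insert, mem_singleton] at hx
      rw [Nat.mem_divisorsAntidiagonal]
      refine ⟨?_, hd⟩
      rcases hx with rfl | rfl
      · simp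
      · simp only
        rw [← pow_succ']; congr 1; omega
    have hne : ((1, p ^ n) : ℕ × ℕ) ≠ (p, p ^ (n - 1)) := by
      intro h
      have := congrArg Prod.fst h
      exact hp.one_lt.ne this
    refine le_trans ?_ (sum_le_sum_of_subset_of_nonneg hsub fun x _ _ ↦
      mul_nonneg (c1R_nonneg _) (by rw [c1T_apply]; positivity))
    rw [sum_pair hne]
    simp only [c1R_apply, c1T_apply]
    have h1 : tau (p ^ n) = n + 1 := by
      unfold tau; rw [Nat.divisors_prime_pow hp]; simp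
    have h2 : tau (p ^ (n - 1)) = n := by
      unfold tau; rw [Nat.divisors_prime_pow hp]; simp; omega
    have h3 : hh (p ^ n) = 1 + 1 / (2 * ((p : ℝ) * √(p : ℝ))) := by
      unfold hh hl
      rw [Nat.primeFactors_prime_pow hn.ne' hp, prod_singleton]
    rw [h1, h2, h3]
    have hn1 : (1 : ℝ) ≤ n := by exact_mod_cast hn
    have hp0 : (0 : ℝ) < p := by exact_mod_cast hp.pos
    have hx : 0 < 1 / ((p : ℝ) * √(p : ℝ)) := by positivity
    have e : 1 / (2 * ((p : ℝ) * √(p : ℝ))) = 1 / ((p : ℝ) * √(p : ℝ)) / 2 := by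
      rw [one_div, mul_inv, one_div]; ring
    rw [e]
    generalize 1 / ((p : ℝ) * √(p : ℝ)) = x at hx ⊢
    push_cast
    have e3 : (1 : ℝ) / (1 * √1) = 1 := by norm_num
    rw [e3]
    nlinarith
  | zero => exact absurd rfl hd
  | one =>
    rw [(c1R_mult.mul c1T_mult).1]
    simp [tau, hh]
  | coprime a b ha hb hab iha ihb =>
    rw [(c1R_mult.mul c1T_mult).2 hab, hh_mul hab]
    have h1 : tau (a * b) = tau a * tau b := by
      unfold tau; exact hab.card_divisors_mul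
    rw [h1]
    have ha' := iha (by omega)
    have hb' := ihb (by omega)
    calc ((tau a * tau b : ℕ) : ℝ) * (hh a * hh b) = (tau a * hh a) * (tau b * hh b) := by
          push_cast; ring
      _ ≤ _ := mul_le_mul ha' hb' (mul_nonneg (Nat.cast_nonneg _) (hh_nonneg _))
          (le_trans (mul_nonneg (Nat.cast_nonneg _) (hh_nonneg _)) ha')

/-- the numbers composed of primes `1 mod 4` up to `M` -/
noncomputable def c1A (M : ℕ) : Finset ℕ := open Classical in (Icc 1 M).filter P1s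

theorem mem_c1A {M d : ℕ} : d ∈ c1A M ↔ d ≤ M ∧ P1s d := by
  classical
  unfold c1A
  rw [mem_filter, mem_Icc]
  constructor
  · rintro ⟨⟨_, h⟩, h'⟩; exact ⟨h, h'⟩
  · rintro ⟨h, h'⟩; exact ⟨⟨Nat.pos_of_ne_zero h'.1, h⟩, h'⟩

/-- the sum without the factor `hh` -/
noncomputable def c1TM (M : ℕ) (x : ℝ) : ℝ :=
  ∑ g ∈ c1A M, (tau g : ℝ) * (√(g : ℝ) * Real.exp (-((g : ℝ) / x) ^ 2))

/-- removing `hh` -/
theorem c1_switch (M : ℕ) (D : ℝ) (hD : 0 < D) :
    ∑ d ∈ c1A M, √(d : ℝ) * tau d * hh d * Real.exp (-((d : ℝ) / D) ^ 2) ≤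
      ∑ e ∈ c1A M, 1 / (e : ℝ) * c1TM M (D / e) := by
  set H : ℕ × ℕ → ℝ := fun x ↦ 1 / (x.1 : ℝ) * ((tau x.2 : ℝ) * (√(x.2 : ℝ) *
    Real.exp (-((x.2 : ℝ) / (D / x.1)) ^ 2))) with hH
  have hH0 : ∀ x, 0 ≤ H x := fun x ↦ by positivity
  have h1 : ∀ d ∈ c1A M, √(d : ℝ) * tau d * hh d * Real.exp (-((d : ℝ) / D) ^ 2) ≤
      ∑ x ∈ (c1A M ×ˢ c1A M) with x.1 * x.2 = d, H x := by
    intro d hd
    rw [mem_c1A] at hd
    have hd0 := hd.2.1
    have h2 : d.divisorsAntidiagonal ⊆ (c1A M ×ˢ c1A M).filter (fun x ↦ x.1 * x.2 = d) := by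
      intro x hx
      rw [Nat.mem_divisorsAntidiagonal] at hx
      have h3 := hd.2
      rw [← hx.1, c1_P1s_mul] at h3
      rw [mem_filter, mem_product, mem_c1A, mem_c1A]
      refine ⟨⟨⟨?_, h3.1⟩, ?_, h3.2⟩, hx.1⟩
      · exact (Nat.le_of_dvd (Nat.pos_of_ne_zero hd0) (Dvd.intro _ hx.1)).trans hd.1
      · exact (Nat.le_of_dvd (Nat.pos_of_ne_zero hd0) (Dvd.intro_left _ hx.1)).trans hd.1
    refine le_trans ?_ (sum_le_sum_of_subset_of_nonneg h2 fun x _ _ ↦ hH0 x)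
    calc √(d : ℝ) * tau d * hh d * Real.exp (-((d : ℝ) / D) ^ 2)
        = (tau d * hh d) * (√(d : ℝ) * Real.exp (-((d : ℝ) / D) ^ 2)) := by ring
      _ ≤ (c1R * c1T) d * (√(d : ℝ) * Real.exp (-((d : ℝ) / D) ^ 2)) := by
          refine mul_le_mul_of_nonneg_right (c1_conv d hd0) (by positivity)
      _ = ∑ x ∈ d.divisorsAntidiagonal, H x := by
          rw [ArithmeticFunction.mul_apply, sum_mul]
          refine sum_congr rfl fun x hx ↦ ?_
          rw [Nat.mem_divisorsAntidiagonal] at hx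
          have hx1 : x.1 ≠ 0 := fun h ↦ hd0 (by rw [← hx.1, h, zero_mul])
          have hx1' : (0 : ℝ) < x.1 := by exact_mod_cast Nat.pos_of_ne_zero hx1
          have hs : √(x.1 : ℝ) ≠ 0 := (Real.sqrt_pos.2 hx1').ne'
          rw [hH, c1R_apply, c1T_apply]
          simp only
          have e1 : (d : ℝ) = x.1 * x.2 := by rw [← hx.1]; push_cast; ring
          have e2 : (x.2 : ℝ) / (D / x.1) = (x.1 * x.2 : ℝ) / D := by field_simp
          rw [e2, e1, Real.sqrt_mul hx1'.le]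
          field_simp
  calc ∑ d ∈ c1A M, √(d : ℝ) * tau d * hh d * Real.exp (-((d : ℝ) / D) ^ 2)
      ≤ ∑ d ∈ c1A M, ∑ x ∈ (c1A M ×ˢ c1A M) with x.1 * x.2 = d, H x := sum_le_sum h1
    _ ≤ ∑ x ∈ c1A M ×ˢ c1A M, H x := by
        refine sum_fiberwise_le_sum_of_sum_fiber_nonneg fun y _ ↦ sum_nonneg fun x _ ↦ hH0 x
    _ = ∑ e ∈ c1A M, 1 / (e : ℝ) * c1TM M (D / e) := by
        rw [sum_product]
        refine sum_congr rfl fun e _ ↦ ?_
        unfold c1TM
        rw [mul_sum]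

/-- `∑ e^(-5/2)` over the numbers `e > 1` composed of primes `1 mod 4` -/
theorem c1_esum (M : ℕ) : ∑ e ∈ (c1A M).erase 1, 1 / ((e : ℝ) ^ 2 * √(e : ℝ)) ≤ 0.0243 := by
  have h1 : ∀ e ∈ (c1A M).erase 1, 1 / ((e : ℝ) ^ 2 * √(e : ℝ)) ≤
      (if e = 5 then 0.0179 else 0) + (if e < 12 then 0 else
        (1 / 3.6) * (1 / 4) * (1 / ((e : ℝ) - 2) - 1 / ((e : ℝ) + 2))) := by
    intro e he
    rw [mem_erase, mem_c1A] at he
    have h4 := c1_P1s_mod e he.2.2
    have h9 : e ≠ 9 := by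
      rintro rfl
      have := he.2.2.2 3 Nat.prime_three (by norm_num)
      omega
    by_cases h5 : e = 5
    · subst h5
      norm_num
      have : (2.2355 : ℝ) ≤ √5 := Real.le_sqrt_of_sq_le (by norm_num)
      calc (√5)⁻¹ * (1 / 25 : ℝ) ≤ (2.2355)⁻¹ * (1 / 25) := by gcongr
        _ ≤ _ := by norm_num
    · have h13 : 13 ≤ e := by omega
      rw [if_neg h5, if_neg (by omega), zero_add]
      have h13' : (13 : ℝ) ≤ e := by exact_mod_cast h13
      have hs : (3.6 : ℝ) ≤ √(e : ℝ) := Real.le_sqrt_of_sq_le (by norm_num; linarith)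
      have e1 : 1 / ((e : ℝ) - 2) - 1 / ((e : ℝ) + 2) = 4 / ((e : ℝ) ^ 2 - 4) := by
        have : (e : ℝ) - 2 ≠ 0 := by linarith
        have : (e : ℝ) + 2 ≠ 0 := by linarith
        have : (e : ℝ) ^ 2 - 4 ≠ 0 := by nlinarith
        field_simp
        ring
      rw [e1]
      have e2 : (0 : ℝ) < (e : ℝ) ^ 2 - 4 := by nlinarith
      calc 1 / ((e : ℝ) ^ 2 * √(e : ℝ)) ≤ 1 / (((e : ℝ) ^ 2 - 4) * 3.6) := by
            gcongr
            linarith
        _ = _ := by field_simp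
  refine (sum_le_sum h1).trans ?_
  rw [sum_add_distrib]
  have h2 : ∑ e ∈ (c1A M).erase 1, (if e = 5 then (0.0179 : ℝ) else 0) ≤ 0.0179 := by
    rw [sum_ite_eq']
    split_ifs <;> norm_num
  have h3 : ∑ e ∈ (c1A M).erase 1, (if e < 12 then (0 : ℝ) else
        (1 / 3.6) * (1 / 4) * (1 / ((e : ℝ) - 2) - 1 / ((e : ℝ) + 2))) ≤ (1 / 3.6) * (1 / 4) * (1 / 11) := by
    have hsub : ((c1A M).erase 1) ⊆ (range (M + 1)).image (fun j ↦ 4 * j + 1) := by
      intro e he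
      rw [mem_erase, mem_c1A] at he
      have h4 := c1_P1s_mod e he.2.2
      rw [mem_image]
      exact ⟨e / 4, by rw [mem_range]; omega, by omega⟩
    have hnn : ∀ e : ℕ, 0 ≤ (if e < 12 then (0 : ℝ) else
        (1 / 3.6) * (1 / 4) * (1 / ((e : ℝ) - 2) - 1 / ((e : ℝ) + 2))) := by
      intro e
      split_ifs with h
      · exact le_rfl
      · push Not at h
        have h' : (12 : ℝ) ≤ e := by exact_mod_cast h
        have : 1 / ((e : ℝ) + 2) ≤ 1 / ((e : ℝ) - 2) := by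
          apply one_div_le_one_div_of_le <;> linarith
        have h0 : 0 ≤ 1 / ((e : ℝ) - 2) - 1 / ((e : ℝ) + 2) := by linarith
        positivity
    refine (sum_le_sum_of_subset_of_nonneg hsub fun e _ _ ↦ hnn e).trans ?_
    rw [sum_image (by intro a _ b _ h; simp only at h; omega)]
    have h4 : ∀ N : ℕ, ∑ j ∈ range (N + 3), (if 4 * j + 1 < 12 then (0 : ℝ) else
        (1 / 3.6) * (1 / 4) * (1 / (((4 * j + 1 : ℕ) : ℝ) - 2) - 1 / (((4 * j + 1 : ℕ) : ℝ) + 2))) =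
        (1 / 3.6) * (1 / 4) * (1 / 11 - 1 / (4 * (N : ℝ) + 11)) := by
      intro N
      induction N with
      | zero => norm_num [sum_range_succ]
      | succ N ih =>
        rw [show N + 1 + 3 = (N + 3) + 1 by ring, sum_range_succ, ih, if_neg (by omega)]
        push_cast
        have : (4 * (N : ℝ) + 11) ≠ 0 := by positivity
        have : (4 * (N : ℝ) + 15) ≠ 0 := by positivity
        ring_nf
    have h5 : range (M + 1) ⊆ range (M + 3) := range_subset_range.2 (by omega)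
    refine (sum_le_sum_of_subset_of_nonneg h5 fun j _ _ ↦ hnn (4 * j + 1)).trans ?_
    rw [h4 M]
    have : 0 ≤ 1 / (4 * (M : ℝ) + 11) := by positivity
    nlinarith
  refine (add_le_add h2 h3).trans (by norm_num)


/-! ### Lattice sums -/

theorem N2_nonneg (h : GI) : 0 ≤ N2 h := by unfold N2; positivity

/-- odd Gaussian theta series -/
noncomputable def c1O (y : ℝ) : ℝ :=
  ∑' h : GI, if N2 h % 2 = 1 then Real.exp (-(Real.pi * y * (N2 h : ℝ))) else 0

theorem c1O_summable (hT : StTh) {y : ℝ} (hy : 0 < y) :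
    Summable (fun h : GI ↦ if N2 h % 2 = 1 then Real.exp (-(Real.pi * y * (N2 h : ℝ))) else 0) := by
  refine Summable.of_nonneg_of_le (fun h ↦ ?_) (fun h ↦ ?_) (hT 1 one_ne_zero y hy).1
  · split_ifs <;> positivity
  · split_ifs
    · exact le_rfl
    · positivity

theorem c1O_le (hT : StTh) {y : ℝ} (hy : 0 < y) : c1O y ≤ 1 / (2 * y) := by
  have h := (hT 1 one_ne_zero y hy).2.2 (by unfold N2; simp)
  have e : N2 (1 : GI) = 1 := by unfold N2; simp
  rw [e] at h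
  simp only [one_dvd, true_and, Int.cast_one, mul_one] at h
  exact h

theorem c1_even_dvd (h : GI) : N2 h % 2 = 0 → ((⟨1, 1⟩ : GI) ∣ h) := by
  intro h0
  have h1 : (h.re + h.im) % 2 = 0 := by
    have : N2 h = (h.re + h.im) ^ 2 - 2 * (h.re * h.im) := by unfold N2; ring
    rw [this] at h0
    have h2 : (h.re + h.im) ^ 2 % 2 = 0 := by omega
    rcases Int.emod_two_eq_zero_or_one (h.re + h.im) with h3 | h3
    · exact h3
    · exfalso
      obtain ⟨k, hk⟩ : ∃ k, h.re + h.im = 2 * k + 1 := ⟨(h.re + h.im) / 2, by omega⟩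
      rw [hk] at h2
      have : (2 * k + 1) ^ 2 = 2 * (2 * k ^ 2 + 2 * k) + 1 := by ring
      rw [this] at h2
      omega
  obtain ⟨k, hk⟩ : ∃ k, h.re + h.im = 2 * k := ⟨(h.re + h.im) / 2, by omega⟩
  refine ⟨⟨k, k - h.re⟩, ?_⟩
  rw [Zsqrtd.ext_iff]
  simp only [Zsqrtd.re_mul, Zsqrtd.im_mul]
  constructor
  · ring
  · linarith

theorem c1O_ge (hT : StTh) {y : ℝ} (hy : 0 < y) : 1 / (2 * y) - 1 ≤ c1O y := by
  have hs := (hT 1 one_ne_zero y hy).1
  set F : GI → ℝ := fun h ↦ Real.exp (-(Real.pi * y * (N2 h : ℝ))) with hF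
  -- the full sum
  have hθ : ∀ a : ℝ, 0 < a → Summable (fun n : ℤ ↦ Real.exp (-(Real.pi * a * (n : ℝ) ^ 2))) := by
    intro a ha
    have h1 := (hT 1 one_ne_zero a ha).1
    have h2 : Function.Injective (fun n : ℤ ↦ (⟨n, 0⟩ : GI)) := by
      intro m n h
      exact congrArg Zsqrtd.re h
    refine (h1.comp_injective h2).congr fun n ↦ ?_
    simp [N2]
  have hθ1 : (1 : ℝ) / y ^ (1 / 2 : ℝ) ≤ ∑' n : ℤ, Real.exp (-(Real.pi * y * (n : ℝ) ^ 2)) := by
    have h1 := Real.tsum_exp_neg_mul_int_sq hy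
    have e1 : (∑' n : ℤ, Real.exp (-(Real.pi * y * (n : ℝ) ^ 2))) =
        ∑' n : ℤ, Real.exp (-Real.pi * y * (n : ℝ) ^ 2) :=
      tsum_congr fun n ↦ by congr 1; ring
    have e2 : (∑' n : ℤ, Real.exp (-Real.pi / y * (n : ℝ) ^ 2)) =
        ∑' n : ℤ, Real.exp (-(Real.pi * (1 / y) * (n : ℝ) ^ 2)) :=
      tsum_congr fun n ↦ by congr 1; ring
    rw [e1, h1, e2]
    have h2 : (1 : ℝ) ≤ ∑' n : ℤ, Real.exp (-(Real.pi * (1 / y) * (n : ℝ) ^ 2)) := by
      have := (hθ (1 / y) (by positivity)).le_tsum 0 (fun n _ ↦ by positivity)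
      simpa using this
    have h3 : (0 : ℝ) ≤ 1 / y ^ (1 / 2 : ℝ) := by positivity
    nlinarith
  have hall : 1 / y ≤ ∑' h : GI, F h := by
    have h1 := hθ y hy
    have e1 : (∑' n : ℤ, Real.exp (-(Real.pi * y * (n : ℝ) ^ 2))) *
        (∑' n : ℤ, Real.exp (-(Real.pi * y * (n : ℝ) ^ 2))) = ∑' h : GI, F h := by
      rw [tsum_mul_tsum_of_summable_norm h1.norm h1.norm]
      let eqv : ℤ × ℤ ≃ GI := ⟨fun p ↦ ⟨p.1, p.2⟩, fun z ↦ (z.re, z.im), fun p ↦ rfl, fun z ↦ rfl⟩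
      rw [← eqv.tsum_eq]
      refine tsum_congr fun p ↦ ?_
      rw [← Real.exp_add]
      simp only [F, eqv, N2, Equiv.coe_fn_mk]
      congr 1
      push_cast
      ring
    rw [← e1]
    have h2 : (0 : ℝ) ≤ 1 / y ^ (1 / 2 : ℝ) := by positivity
    have h3 : 1 / y = (1 / y ^ (1 / 2 : ℝ)) * (1 / y ^ (1 / 2 : ℝ)) := by
      rw [div_mul_div_comm, ← Real.rpow_add hy]; norm_num
    rw [h3]
    exact mul_le_mul hθ1 hθ1 h2 (h2.trans hθ1)
  -- the even part
  have hγ : (⟨1, 1⟩ : GI) ≠ 0 := by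
    intro h; have := congrArg Zsqrtd.re h; simp at this
  have hN : N2 (⟨1, 1⟩ : GI) = 2 := by unfold N2; norm_num
  have h2 := (hT ⟨1, 1⟩ hγ y hy).2.1
  rw [hN] at h2
  have hs2 : Summable (fun h : GI ↦ open Classical in if (⟨1, 1⟩ : GI) ∣ h ∧ h ≠ 0 then
      Real.exp (-(Real.pi * y * (N2 h : ℝ))) else 0) := by
    refine Summable.of_nonneg_of_le (fun h ↦ ?_) (fun h ↦ ?_) hs
    · split_ifs <;> positivity
    · split_ifs
      · exact le_rfl
      · positivity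
  have hs3 : Summable (fun h : GI ↦ if h = 0 then (1 : ℝ) else 0) :=
    summable_of_ne_finset_zero (s := {0}) (fun h hh ↦ by
      rw [mem_singleton] at hh; rw [if_neg hh])
  have h3 : ∑' h : GI, F h ≤ c1O y + ((∑' h : GI, (open Classical in if (⟨1, 1⟩ : GI) ∣ h ∧ h ≠ 0 then
      Real.exp (-(Real.pi * y * (N2 h : ℝ))) else 0)) + ∑' h : GI, if h = 0 then (1 : ℝ) else 0) := by
    unfold c1O
    rw [← hs2.tsum_add hs3, ← (c1O_summable hT hy).tsum_add (hs2.add hs3)]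
    refine hs.tsum_le_tsum (fun h ↦ ?_) ((c1O_summable hT hy).add (hs2.add hs3))
    by_cases h0 : h = 0
    · subst h0
      simp [F, N2]
    · rcases Int.emod_two_eq_zero_or_one (N2 h) with h1 | h1
      · rw [if_neg (by omega), if_pos ⟨c1_even_dvd h h1, h0⟩, if_neg h0]; linarith
      · rw [if_pos h1, if_neg h0]
        have : 0 ≤ (open Classical in if (⟨1, 1⟩ : GI) ∣ h ∧ h ≠ 0 then
          Real.exp (-(Real.pi * y * (N2 h : ℝ))) else 0) := by split_ifs <;> positivity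
        linarith
  rw [tsum_ite_eq] at h3
  have h4 : 1 / (y * ((2 : ℤ) : ℝ)) = 1 / (2 * y) := by push_cast; rw [mul_comm]
  rw [h4] at h2
  have h5 : 1 / y = 1 / (2 * y) + 1 / (2 * y) := by field_simp; norm_num
  linarith

/-- from sums over `g` to lattice sums -/
theorem c1_latt (M : ℕ) (F : ℝ → ℝ) (hF : ∀ t, 0 ≤ t → 0 ≤ F t)
    (hs : Summable (fun h : GI ↦ if N2 h % 2 = 1 then F (N2 h : ℝ) else 0)) :
    ∑ g ∈ c1A M, (tau g : ℝ) * F g ≤
      1 / 4 * ∑' h : GI, (if N2 h % 2 = 1 then F (N2 h : ℝ) else 0) := by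
  classical
  set U : Finset GI := ((c1A M).biUnion r2set).image (fun z ↦ (⟨z.1, z.2⟩ : GI)) with hU
  have h1 : ∑ h ∈ U, (if N2 h % 2 = 1 then F (N2 h : ℝ) else 0) ≤
      ∑' h : GI, (if N2 h % 2 = 1 then F (N2 h : ℝ) else 0) := by
    refine hs.sum_le_tsum _ fun h _ ↦ ?_
    split_ifs
    · exact hF _ (by exact_mod_cast N2_nonneg h)
    · exact le_rfl
  have h2 : ∑ h ∈ U, (if N2 h % 2 = 1 then F (N2 h : ℝ) else 0) =
      4 * ∑ g ∈ c1A M, (tau g : ℝ) * F g := by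
    rw [hU, sum_image, sum_biUnion, mul_sum]
    · refine sum_congr rfl fun g hg ↦ ?_
      rw [mem_c1A] at hg
      rw [← mul_assoc, ← c1_tau_eq hg.2, ← nsmul_eq_mul, ← sum_const]
      refine sum_congr rfl fun z hz ↦ ?_
      rw [mem_r2set] at hz
      have hm := c1_P1s_mod g hg.2
      have e : N2 (⟨z.1, z.2⟩ : GI) = (g : ℤ) := by unfold N2; exact hz
      rw [e, if_pos (by omega)]
      push_cast
      rfl
    · intro g _ g' _ hgg
      rw [Function.onFun, disjoint_left]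
      intro z hz hz'
      rw [mem_r2set] at hz hz'
      exact hgg (by exact_mod_cast hz.symm.trans hz')
    · intro z _ z' _ h
      simp only [Zsqrtd.ext_iff] at h
      exact Prod.ext h.1 h.2
  linarith

theorem c1_expeq (c x : ℝ) (t : ℝ) :
    Real.exp (-(c * (t / x))) = Real.exp (-(Real.pi * (c / (Real.pi * x)) * t)) := by
  congr 1
  have := Real.pi_pos.ne'
  rcases eq_or_ne x 0 with rfl | hx
  · simp
  · field_simp

/-- the weight -/
theorem c1_weight (x t : ℝ) (hx : 0 < x) :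
    √t * Real.exp (-(t / x) ^ 2) = √x * (√(t / x) * Real.exp (-(t / x) ^ 2)) := by
  rw [← mul_assoc, ← Real.sqrt_mul hx.le]
  congr 3
  field_simp

/-- crude bound -/
theorem c1_crude (hT : StTh) (M : ℕ) (x : ℝ) (hx : 0 < x) : c1TM M x ≤ 0.4125 * x * √x := by
  have hpi := Real.pi_pos
  set y := 1 / (Real.pi * x) with hy
  have hy0 : 0 < y := by positivity
  set F : ℝ → ℝ := fun t ↦ √x * (1.05 * Real.exp (-(Real.pi * y * t))) with hF
  have hsum := c1O_summable hT hy0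
  have hs : Summable (fun h : GI ↦ if N2 h % 2 = 1 then F (N2 h : ℝ) else 0) := by
    refine (hsum.mul_left (√x * 1.05)).congr fun h ↦ ?_
    simp only [F]
    split_ifs <;> ring
  have h1 := c1_latt M F (fun t _ ↦ by positivity) hs
  have h2 : c1TM M x ≤ ∑ g ∈ c1A M, (tau g : ℝ) * F g := by
    unfold c1TM
    refine sum_le_sum fun g _ ↦ mul_le_mul_of_nonneg_left ?_ (Nat.cast_nonneg _)
    rw [c1_weight x g hx]
    refine mul_le_mul_of_nonneg_left ?_ (Real.sqrt_nonneg _)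
    refine (c1_b _).trans ?_
    rw [c1_expeq]
  have h3 : ∑' h : GI, (if N2 h % 2 = 1 then F (N2 h : ℝ) else 0) = √x * 1.05 * c1O y := by
    unfold c1O
    rw [← tsum_mul_left]
    refine tsum_congr fun h ↦ ?_
    simp only [F]
    split_ifs <;> ring
  rw [h3] at h1
  have h4 := c1O_le hT hy0
  have h5 : 1 / (2 * y) = Real.pi * x / 2 := by rw [hy]; field_simp
  rw [h5] at h4
  have hpi2 := Real.pi_lt_d4
  calc c1TM M x ≤ 1 / 4 * (√x * 1.05 * c1O y) := h2.trans h1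
    _ ≤ 1 / 4 * (√x * 1.05 * (Real.pi * x / 2)) := by gcongr
    _ ≤ 1 / 4 * (√x * 1.05 * (3.1416 * x / 2)) := by gcongr
    _ ≤ _ := by
      have : 0 ≤ x * √x := by positivity
      nlinarith

/-- fine bound -/
theorem c1_fine (hT : StTh) (M : ℕ) (x : ℝ) (hx : 1000 ≤ x) : c1TM M x ≤ 0.28875 * x * √x := by
  have hpi := Real.pi_pos
  have hx0 : 0 < x := by linarith
  set y2 := 2.4 / (Real.pi * x) with hy2
  set y3 := 3.6 / (Real.pi * x) with hy3
  set y4 := 4.8 / (Real.pi * x) with hy4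
  have hp2 : 0 < y2 := by positivity
  have hp3 : 0 < y3 := by positivity
  have hp4 : 0 < y4 := by positivity
  set F : ℝ → ℝ := fun t ↦ √x * c1P (t / x) with hF
  have hF' : ∀ t, F t = √x * 8.478 * Real.exp (-(Real.pi * y2 * t)) +
      ((-(√x * 15.867)) * Real.exp (-(Real.pi * y3 * t)) + √x * 7.68 * Real.exp (-(Real.pi * y4 * t))) := by
    intro t
    simp only [F, c1P]
    rw [c1_expeq, c1_expeq, c1_expeq]
    ring
  have hF0 : ∀ t, 0 ≤ t → 0 ≤ F t := by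
    intro t ht
    have := c1_major (t / x) (by positivity)
    have h0 : 0 ≤ √(t / x) * Real.exp (-(t / x) ^ 2) := by positivity
    simp only [F]
    exact mul_nonneg (Real.sqrt_nonneg _) (h0.trans this)
  have s2 := (c1O_summable hT hp2).mul_left (√x * 8.478)
  have s3 := (c1O_summable hT hp3).mul_left (-(√x * 15.867))
  have s4 := (c1O_summable hT hp4).mul_left (√x * 7.68)
  have hsplit : ∀ h : GI, (if N2 h % 2 = 1 then F (N2 h : ℝ) else 0) =
      √x * 8.478 * (if N2 h % 2 = 1 then Real.exp (-(Real.pi * y2 * (N2 h : ℝ))) else 0) +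
      ((-(√x * 15.867)) * (if N2 h % 2 = 1 then Real.exp (-(Real.pi * y3 * (N2 h : ℝ))) else 0) +
      √x * 7.68 * (if N2 h % 2 = 1 then Real.exp (-(Real.pi * y4 * (N2 h : ℝ))) else 0)) := by
    intro h
    split_ifs
    · rw [hF']
    · ring
  have hs : Summable (fun h : GI ↦ if N2 h % 2 = 1 then F (N2 h : ℝ) else 0) :=
    (s2.add (s3.add s4)).congr fun h ↦ (hsplit h).symm
  have h1 := c1_latt M F hF0 hs
  have h2 : c1TM M x ≤ ∑ g ∈ c1A M, (tau g : ℝ) * F g := by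
    unfold c1TM
    refine sum_le_sum fun g _ ↦ mul_le_mul_of_nonneg_left ?_ (Nat.cast_nonneg _)
    rw [c1_weight x g hx0]
    exact mul_le_mul_of_nonneg_left (c1_major _ (by positivity)) (Real.sqrt_nonneg _)
  have h3 : ∑' h : GI, (if N2 h % 2 = 1 then F (N2 h : ℝ) else 0) =
      √x * 8.478 * c1O y2 + ((-(√x * 15.867)) * c1O y3 + √x * 7.68 * c1O y4) := by
    unfold c1O
    rw [tsum_congr hsplit, s2.tsum_add (s3.add s4), s3.tsum_add s4, tsum_mul_left, tsum_mul_left,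
      tsum_mul_left]
  rw [h3] at h1
  have a2 := c1O_le hT hp2
  have a3 := c1O_ge hT hp3
  have a4 := c1O_le hT hp4
  have e2 : 1 / (2 * y2) = 5 / 24 * (Real.pi * x) := by rw [hy2]; field_simp; norm_num
  have e3 : 1 / (2 * y3) = 5 / 36 * (Real.pi * x) := by rw [hy3]; field_simp; norm_num
  have e4 : 1 / (2 * y4) = 5 / 48 * (Real.pi * x) := by rw [hy4]; field_simp; norm_num
  rw [e2] at a2
  rw [e3] at a3
  rw [e4] at a4
  have hpi2 := Real.pi_lt_d4
  have hsx : 0 ≤ √x := Real.sqrt_nonneg _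
  have key : 8.478 * c1O y2 - 15.867 * c1O y3 + 7.68 * c1O y4 ≤ 4 * (0.28875 * x) := by
    have : Real.pi * x ≤ 3.1416 * x := by gcongr
    linarith
  calc c1TM M x ≤ 1 / 4 * (√x * 8.478 * c1O y2 + ((-(√x * 15.867)) * c1O y3 + √x * 7.68 * c1O y4)) :=
        h2.trans h1
    _ = 1 / 4 * √x * (8.478 * c1O y2 - 15.867 * c1O y3 + 7.68 * c1O y4) := by ring
    _ ≤ 1 / 4 * √x * (4 * (0.28875 * x)) := by gcongr
    _ = _ := by ring

/-- the finite sums -/
theorem c1_fin (hT : StTh) (M : ℕ) (D : ℝ) (hD : 1000 ≤ D) :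
    ∑ d ∈ c1A M, √(d : ℝ) * tau d * hh d * Real.exp (-((d : ℝ) / D) ^ 2) ≤ 0.3 * D * √D := by
  have hD0 : 0 < D := by linarith
  refine (c1_switch M D hD0).trans ?_
  have hz : 0 ≤ D * √D := by positivity
  have h1 : ∑ e ∈ c1A M, 1 / (e : ℝ) * c1TM M (D / e) ≤
      0.28875 * D * √D + ∑ e ∈ (c1A M).erase 1, 1 / (e : ℝ) * c1TM M (D / e) := by
    by_cases hM : 1 ∈ c1A M
    · rw [← add_sum_erase _ _ hM]
      have := c1_fine hT M D hD
      simp only [Nat.cast_one, div_one, one_mul]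
      linarith
    · rw [erase_eq_of_notMem hM]
      nlinarith
  have h2 : ∑ e ∈ (c1A M).erase 1, 1 / (e : ℝ) * c1TM M (D / e) ≤
      ∑ e ∈ (c1A M).erase 1, 0.4125 * (D * √D) * (1 / ((e : ℝ) ^ 2 * √(e : ℝ))) := by
    refine sum_le_sum fun e he ↦ ?_
    rw [mem_erase, mem_c1A] at he
    have he0 : (0 : ℝ) < e := by exact_mod_cast Nat.pos_of_ne_zero he.2.2.1
    have h3 := c1_crude hT M (D / e) (by positivity)
    calc 1 / (e : ℝ) * c1TM M (D / e) ≤ 1 / (e : ℝ) * (0.4125 * (D / e) * √(D / e)) := by gcongr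
      _ = _ := by
        rw [Real.sqrt_div hD0.le]
        field_simp
  rw [← mul_sum] at h2
  have h3 := c1_esum M
  have h4 : 0.4125 * (D * √D) * ∑ e ∈ (c1A M).erase 1, 1 / ((e : ℝ) ^ 2 * √(e : ℝ)) ≤
      0.4125 * (D * √D) * 0.0243 := by gcongr
  nlinarith

theorem stSC (hT : StTh) : StSC := by
  classical
  intro D hD
  set f : ℕ → ℝ := fun d ↦ if P1s d then
    √(d : ℝ) * tau d * hh d * Real.exp (-((d : ℝ) / D) ^ 2) else 0 with hf
  have hf0 : ∀ d, 0 ≤ f d := by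
    intro d
    simp only [f]
    split_ifs
    · exact mul_nonneg (mul_nonneg (by positivity) (hh_nonneg d)) (Real.exp_pos _).le
    · exact le_rfl
  have hfin : ∀ u : Finset ℕ, ∑ d ∈ u, f d ≤ 0.3 * D * √D := by
    intro u
    refine le_trans ?_ (c1_fin hT (u.sup id) D hD)
    have h1 : ∑ d ∈ u, f d = ∑ d ∈ u.filter P1s, f d := by
      rw [sum_filter]
      refine sum_congr rfl fun d _ ↦ ?_
      simp only [f]
      split_ifs <;> rfl
    rw [h1]
    have h2 : u.filter P1s ⊆ c1A (u.sup id) := by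
      intro d hd
      rw [mem_filter] at hd
      rw [mem_c1A]
      exact ⟨le_sup (f := id) hd.1, hd.2⟩
    refine (sum_le_sum_of_subset_of_nonneg h2 fun d _ _ ↦ hf0 d).trans ?_
    refine le_of_eq (sum_congr rfl fun d hd ↦ ?_)
    rw [mem_c1A] at hd
    simp only [f, if_pos hd.2]
  have hs : Summable f := summable_of_sum_le hf0 hfin
  exact ⟨hs, hs.tsum_le_of_sum_le hfin⟩

end Pool.Agent.TFS
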