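import Pool.Agent.Lib.TFS.StmtsC

/-!
Module C2: the main sum over numbers composed of primes `1 mod 4`.
-/

set_option autoImplicit false

open Finset

namespace Pool.Agent.TFS
namespace C2

/-- the summand -/
noncomputable def T (D : ℝ) (d : ℕ) : ℝ := open Classical in if P1s d then
    (Nat.totient d : ℝ) / (d : ℝ) ^ 2 * Real.exp (-((d : ℝ) / D) ^ 2) else 0

theorem mod4 (d : ℕ) (h : P1s d) : d % 4 = 1 := by
  induction d using Nat.strong_induction_on with
  | _ d ih =>
    obtain ⟨h0, h1⟩ := h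
    by_cases hd : d = 1
    · subst hd; rfl
    · have hp := Nat.minFac_prime hd
      obtain ⟨e, he⟩ := Nat.minFac_dvd d
      have hm : d.minFac % 4 = 1 := h1 _ hp (Nat.minFac_dvd d)
      have he0 : e ≠ 0 := by
        rintro rfl
        exact h0 (by rw [he, Nat.mul_zero])
      have hlt : e < d := by
        have h2 := hp.two_le
        have h3 : 0 < e := Nat.pos_of_ne_zero he0
        calc e < 2 * e := by omega
          _ ≤ d.minFac * e := Nat.mul_le_mul_right _ h2
          _ = d := he.symm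
      have hP : P1s e := ⟨he0, fun l hl hle ↦ h1 l hl (hle.trans ⟨d.minFac, by
        rw [Nat.mul_comm]; exact he⟩)⟩
      have := ih e hlt hP
      rw [he, Nat.mul_mod, hm, this]

theorem not_dvd {d l : ℕ} (h : P1s d) (hl : l.Prime) (h3 : l % 4 ≠ 1) : d % l ≠ 0 :=
  fun h4 ↦ h3 (h.2 l hl (Nat.dvd_of_mod_eq_zero h4))

def Qb (d : ℕ) : Bool := d % 4 == 1 && d % 3 != 0 && d % 7 != 0 && d % 11 != 0 && d % 19 != 0 &&
  d % 23 != 0 && d % 31 != 0

theorem Qb_of {d : ℕ} (h : P1s d) : Qb d = true := by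
  have h4 := mod4 d h
  have h3 := not_dvd h (l := 3) (by norm_num) (by norm_num)
  have h7 := not_dvd h (l := 7) (by norm_num) (by norm_num)
  have h11 := not_dvd h (l := 11) (by norm_num) (by norm_num)
  have h19 := not_dvd h (l := 19) (by norm_num) (by norm_num)
  have h23 := not_dvd h (l := 23) (by norm_num) (by norm_num)
  have h31 := not_dvd h (l := 31) (by norm_num) (by norm_num)
  simp [Qb, h4, h3, h7, h11, h19, h23, h31]

theorem tab : ∑ d ∈ (range 1008).filter (fun d => Qb d = true),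
    (Nat.totient d * 10 ^ 8 / d ^ 2 + 1) ≤ 175990000 := by
  decide +kernel

theorem T_nonneg (D : ℝ) (d : ℕ) : 0 ≤ T D d := by
  unfold T
  split_ifs
  · positivity
  · exact le_rfl

theorem exp_le_one (x : ℝ) : Real.exp (-x ^ 2) ≤ 1 := by
  rw [Real.exp_le_one_iff]
  nlinarith [sq_nonneg x]

theorem T_le1 (D : ℝ) (d : ℕ) :
    T D d ≤ if Qb d = true then ((Nat.totient d * 10 ^ 8 / d ^ 2 + 1 : ℕ) : ℝ) / 10 ^ 8 else 0 := by
  unfold T
  by_cases h : P1s d
  · rw [if_pos h, if_pos (Qb_of h)]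
    have hd : 0 < d := Nat.pos_of_ne_zero h.1
    have hd' : (0 : ℝ) < (d : ℝ) ^ 2 := by positivity
    have h1 : (Nat.totient d : ℝ) / (d : ℝ) ^ 2 * Real.exp (-((d : ℝ) / D) ^ 2) ≤
        (Nat.totient d : ℝ) / (d : ℝ) ^ 2 :=
      mul_le_of_le_one_right (by positivity) (exp_le_one _)
    refine h1.trans ?_
    rw [div_le_div_iff₀ hd' (by norm_num)]
    have h2 : Nat.totient d * 10 ^ 8 ≤ (Nat.totient d * 10 ^ 8 / d ^ 2 + 1) * d ^ 2 := by
      have := Nat.lt_div_mul_add (a := Nat.totient d * 10 ^ 8) (b := d ^ 2) (by positivity)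
      nlinarith
    exact_mod_cast h2
  · rw [if_neg h]
    split_ifs
    · positivity
    · exact le_rfl

theorem S1 (D : ℝ) : ∑ d ∈ range 1008, T D d ≤ 1.7599 := by
  calc ∑ d ∈ range 1008, T D d ≤ ∑ d ∈ range 1008,
        (if Qb d = true then ((Nat.totient d * 10 ^ 8 / d ^ 2 + 1 : ℕ) : ℝ) / 10 ^ 8 else 0) :=
        sum_le_sum (fun d _ ↦ T_le1 D d)
    _ = (∑ d ∈ (range 1008).filter (fun d => Qb d = true),
        ((Nat.totient d * 10 ^ 8 / d ^ 2 + 1 : ℕ) : ℝ)) / 10 ^ 8 := by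
        rw [← sum_filter, sum_div]
    _ ≤ (175990000 : ℝ) / 10 ^ 8 := by
        gcongr
        exact_mod_cast tab
    _ = 1.7599 := by norm_num

/-- residues modulo 84 -/
def Qr (r : ℕ) : Bool := r % 4 == 1 && r % 3 != 0 && r % 7 != 0

theorem cardQr : ((range 84).filter (fun r => Qr r = true)).card = 12 := by decide

theorem Qr_of {K r : ℕ} (h : P1s (84 * K + r)) : Qr r = true := by
  have h4 := mod4 _ h
  have h3 := not_dvd h (l := 3) (by norm_num) (by norm_num)
  have h7 := not_dvd h (l := 7) (by norm_num) (by norm_num)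
  have e4 : r % 4 = 1 := by omega
  have e3 : r % 3 ≠ 0 := by omega
  have e7 : r % 7 ≠ 0 := by omega
  simp [Qr, e4, e3, e7]

theorem block (D : ℝ) (hD : 0 < D) (K : ℕ) (hK : 1 ≤ K) :
    ∑ d ∈ Ico (84 * K) (84 * (K + 1)), T D d ≤
      (1 / 7) * (Real.exp (-(84 / D * (K : ℝ)) ^ 2) / K) := by
  have hK' : (0 : ℝ) < K := by exact_mod_cast hK
  rw [sum_Ico_eq_sum_range]
  have e : 84 * (K + 1) - 84 * K = 84 := by omega
  rw [e]
  have key : ∀ r ∈ range 84, T D (84 * K + r) ≤
      if Qr r = true then Real.exp (-(84 / D * (K : ℝ)) ^ 2) / (84 * K) else 0 := by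
    intro r _
    unfold T
    by_cases h : P1s (84 * K + r)
    · rw [if_pos h, if_pos (Qr_of h)]
      have hn : (0 : ℝ) < ((84 * K + r : ℕ) : ℝ) := by
        have : 0 < 84 * K + r := by omega
        exact_mod_cast this
      have hle : (84 * (K : ℝ)) ≤ ((84 * K + r : ℕ) : ℝ) := by
        push_cast
        have : (0 : ℝ) ≤ r := Nat.cast_nonneg r
        linarith
      have h1 : (Nat.totient (84 * K + r) : ℝ) / ((84 * K + r : ℕ) : ℝ) ^ 2 ≤ 1 / (84 * (K : ℝ)) := by
        have h2 : (Nat.totient (84 * K + r) : ℝ) ≤ ((84 * K + r : ℕ) : ℝ) := by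
          exact_mod_cast Nat.totient_le _
        calc (Nat.totient (84 * K + r) : ℝ) / ((84 * K + r : ℕ) : ℝ) ^ 2
            ≤ ((84 * K + r : ℕ) : ℝ) / ((84 * K + r : ℕ) : ℝ) ^ 2 := by gcongr
          _ = 1 / ((84 * K + r : ℕ) : ℝ) := by field_simp
          _ ≤ 1 / (84 * (K : ℝ)) := by
              apply one_div_le_one_div_of_le (by positivity) hle
      have h3 : Real.exp (-(((84 * K + r : ℕ) : ℝ) / D) ^ 2) ≤
          Real.exp (-(84 / D * (K : ℝ)) ^ 2) := by
        apply Real.exp_le_exp.mpr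
        have h4 : 84 / D * (K : ℝ) ≤ ((84 * K + r : ℕ) : ℝ) / D := by
          rw [div_mul_eq_mul_div]
          gcongr
        have h5 : 0 ≤ 84 / D * (K : ℝ) := by positivity
        have h6 := pow_le_pow_left₀ h5 h4 2
        linarith
      calc _ ≤ 1 / (84 * (K : ℝ)) * Real.exp (-(84 / D * (K : ℝ)) ^ 2) := by
            gcongr
        _ = _ := by ring
    · rw [if_neg h]
      split_ifs
      · positivity
      · exact le_rfl
  refine (sum_le_sum key).trans ?_
  rw [← sum_filter, sum_const, cardQr, nsmul_eq_mul]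
  apply le_of_eq
  push_cast
  field_simp
  norm_num

/-- the majorant -/
noncomputable def M (c x : ℝ) : ℝ :=
  -(Real.exp (-(c * x) ^ 2) * (Real.log (1 + (c * x) ^ 2) - Real.log ((c * x) ^ 2))) / 2

theorem hasDeriv (c x : ℝ) (hc : 0 < c) (hx : 0 < x) :
    HasDerivAt (M c) (Real.exp (-(c * x) ^ 2) / x *
      ((c * x) ^ 2 * (Real.log (1 + (c * x) ^ 2) - Real.log ((c * x) ^ 2)) +
        1 / (1 + (c * x) ^ 2))) x := by
  have hcx : 0 < c * x := by positivity
  have hu : HasDerivAt (fun y : ℝ ↦ (c * y) ^ 2) (2 * c ^ 2 * x) x := by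
    have h1 : HasDerivAt (fun y : ℝ ↦ c * y) c x := by
      simpa using (hasDerivAt_id x).const_mul c
    have := h1.fun_pow 2
    have e : 2 * c ^ 2 * x = ((2 : ℕ) : ℝ) * (c * x) ^ (2 - 1) * c := by
      norm_num
      ring
    rw [e]
    exact this
  have he : HasDerivAt (fun y : ℝ ↦ Real.exp (-(c * y) ^ 2))
      (Real.exp (-(c * x) ^ 2) * (-(2 * c ^ 2 * x))) x := by
    have := hu.neg.exp
    exact this
  have hl1 : HasDerivAt (fun y : ℝ ↦ Real.log (1 + (c * y) ^ 2))
      ((2 * c ^ 2 * x) / (1 + (c * x) ^ 2)) x := by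
    have := (hu.const_add 1).log (by positivity)
    exact this
  have hl2 : HasDerivAt (fun y : ℝ ↦ Real.log ((c * y) ^ 2))
      ((2 * c ^ 2 * x) / ((c * x) ^ 2)) x := by
    have := hu.log (by positivity)
    exact this
  have h := ((he.mul (hl1.sub hl2)).neg).div_const 2
  have h' : HasDerivAt (M c) (-(Real.exp (-(c * x) ^ 2) * (-(2 * c ^ 2 * x)) *
      (Real.log (1 + (c * x) ^ 2) - Real.log ((c * x) ^ 2)) + Real.exp (-(c * x) ^ 2) *
        ((2 * c ^ 2 * x) / (1 + (c * x) ^ 2) - (2 * c ^ 2 * x) / ((c * x) ^ 2))) / 2) x := h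
  convert h' using 1
  field_simp
  ring

theorem step (c : ℝ) (hc : 0 < c) (K : ℕ) (hK : 2 ≤ K) :
    Real.exp (-(c * (K : ℝ)) ^ 2) / K ≤ M c K - M c (K - 1) := by
  have hK' : (2 : ℝ) ≤ K := by exact_mod_cast hK
  have hpos : ∀ y ∈ Set.Icc ((K : ℝ) - 1) K, 0 < y := fun y hy ↦ by
    have := hy.1
    linarith
  have h := Convex.mul_sub_le_image_sub_of_le_deriv (convex_Icc ((K : ℝ) - 1) (K : ℝ))
    (f := M c) (C := Real.exp (-(c * (K : ℝ)) ^ 2) / K)
    (fun y hy ↦ (hasDeriv c y hc (hpos y hy)).continuousAt.continuousWithinAt)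
    (fun y hy ↦ (hasDeriv c y hc
      (hpos y (interior_subset hy))).differentiableAt.differentiableWithinAt)
    (fun y hy ↦ by
      have hy' := interior_subset hy
      have hy0 := hpos y hy'
      rw [(hasDeriv c y hc hy0).deriv]
      have hcy : 0 < c * y := by positivity
      have hlog : 1 / (1 + (c * y) ^ 2) ≤ Real.log (1 + (c * y) ^ 2) - Real.log ((c * y) ^ 2) := by
        rw [← Real.log_div (by positivity) (by positivity)]
        have h1 := Real.one_sub_inv_le_log_of_pos (x := (1 + (c * y) ^ 2) / (c * y) ^ 2)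
          (by positivity)
        refine le_trans (le_of_eq ?_) h1
        field_simp
        ring
      have hbr : 1 ≤ (c * y) ^ 2 * (Real.log (1 + (c * y) ^ 2) - Real.log ((c * y) ^ 2)) +
          1 / (1 + (c * y) ^ 2) := by
        have h2 := mul_le_mul_of_nonneg_left hlog (sq_nonneg (c * y))
        have h3 : (c * y) ^ 2 * (1 / (1 + (c * y) ^ 2)) + 1 / (1 + (c * y) ^ 2) = 1 := by
          field_simp
          ring
        linarith
      have h4 : Real.exp (-(c * (K : ℝ)) ^ 2) / K ≤ Real.exp (-(c * y) ^ 2) / y := by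
        have h5 : Real.exp (-(c * (K : ℝ)) ^ 2) ≤ Real.exp (-(c * y) ^ 2) := by
          apply Real.exp_le_exp.mpr
          have h6 : c * y ≤ c * K := by
            have := hy'.2
            gcongr
          have h7 := pow_le_pow_left₀ hcy.le h6 2
          linarith
        have := hy'.2
        gcongr
      calc Real.exp (-(c * (K : ℝ)) ^ 2) / K ≤ Real.exp (-(c * y) ^ 2) / y := h4
        _ ≤ _ := le_mul_of_one_le_right (by positivity) hbr)
    ((K : ℝ) - 1) ⟨le_rfl, by linarith⟩ (K : ℝ) ⟨by linarith, le_rfl⟩ (by linarith)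
  have e : (K : ℝ) - (K - 1) = 1 := by ring
  rw [e, mul_one] at h
  exact h

theorem M_nonpos (c x : ℝ) (hc : 0 < c) (hx : 0 < x) : M c x ≤ 0 := by
  unfold M
  have hcx : 0 < c * x := by positivity
  have h1 : Real.log ((c * x) ^ 2) ≤ Real.log (1 + (c * x) ^ 2) :=
    Real.log_le_log (by positivity) (by linarith)
  have h2 : 0 ≤ Real.exp (-(c * x) ^ 2) * (Real.log (1 + (c * x) ^ 2) - Real.log ((c * x) ^ 2)) :=
    mul_nonneg (Real.exp_pos _).le (by linarith)
  linarith

theorem S2 (D : ℝ) (hD : 0 < D) (j : ℕ) :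
    ∑ d ∈ Ico 1008 (84 * (12 + j)), T D d ≤
      (1 / 7) * (M (84 / D) ((12 + j : ℕ) - 1 : ℝ) - M (84 / D) 11) := by
  induction j with
  | zero => norm_num
  | succ j ih =>
    have h := block D hD (12 + j) (by omega)
    have h2 := step (84 / D) (by positivity) (12 + j) (by omega)
    rw [← sum_Ico_consecutive (T D) (show 1008 ≤ 84 * (12 + j) by omega)
      (show 84 * (12 + j) ≤ 84 * (12 + (j + 1)) by omega)]
    have e : 84 * (12 + (j + 1)) = 84 * ((12 + j) + 1) := by ring
    rw [e]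
    have e2 : (((12 + (j + 1) : ℕ) : ℝ) - 1) = ((12 + j : ℕ) : ℝ) := by push_cast; ring
    rw [e2]
    nlinarith

theorem poly (y : ℝ) (h0 : 0 ≤ y) (h1 : y ≤ 0.854) :
    (1 - y + y ^ 2 / 2 - y ^ 3 / 6 + y ^ 4 / 24 + y ^ 5 / 100) * (1.148704 - 0.444444 * y) -
      (1 - y) ≤ 0.2214 := by
  have h2 : 0 ≤ 0.854 - y := by linarith
  nlinarith [mul_nonneg h0 h2, mul_nonneg (mul_nonneg h0 h0) h2, mul_nonneg (mul_nonneg (mul_nonneg h0 h0) h0) h2, mul_nonneg (mul_nonneg (mul_nonneg (mul_nonneg h0 h0) h0) h0) h2, mul_nonneg (mul_nonneg (mul_nonneg (mul_nonneg (mul_nonneg h0 h0) h0) h0) h0) h2, pow_nonneg h0 2, pow_nonneg h0 3, pow_nonneg h0 4, pow_nonneg h0 5]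

theorem expb (y : ℝ) (h0 : 0 ≤ y) (h1 : y ≤ 1) :
    Real.exp (-y) ≤ 1 - y + y ^ 2 / 2 - y ^ 3 / 6 + y ^ 4 / 24 + y ^ 5 / 100 := by
  have h := Real.exp_bound (x := -y) (by rw [abs_neg, abs_of_nonneg h0]; exact h1) (n := 5)
    (by norm_num)
  have h2 := (abs_le.mp h).2
  simp only [sum_range_succ, range_zero, sum_empty] at h2
  rw [abs_neg, abs_of_nonneg h0] at h2
  norm_num [Nat.factorial] at h2
  nlinarith

theorem final (D : ℝ) (hD : 1000 ≤ D) :
    1.7599 + (1 / 7) * (0 - M (84 / D) 11) ≤ 0.8 + 0.143 * Real.log D := by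
  have hD0 : 0 < D := by linarith
  have ha0 : 0 < 84 / D * 11 := by positivity
  have ha1 : 84 / D * 11 ≤ 0.924 := by
    rw [div_mul_eq_mul_div, div_le_iff₀ hD0]
    nlinarith
  obtain ⟨y, hy⟩ : ∃ y, y = (84 / D * 11) ^ 2 := ⟨_, rfl⟩
  have hy0 : 0 < y := by rw [hy]; positivity
  have hy1 : y ≤ 0.854 := by
    rw [hy]
    have := pow_le_pow_left₀ ha0.le ha1 2
    norm_num at this ⊢
    linarith
  have hlogD : Real.log y = 2 * (Real.log 924 - Real.log D) := by
    rw [hy, Real.log_pow, show 84 / D * 11 = 924 / D by ring,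
      Real.log_div (by norm_num) hD0.ne']
    push_cast
    ring
  have h924 : 6.8232 ≤ Real.log 924 := by
    have h1 : Real.log 924 = Real.log 1024 - Real.log (1024 / 924) := by
      rw [Real.log_div (by norm_num) (by norm_num)]
      ring
    have h2 : Real.log 1024 = 10 * Real.log 2 := by
      rw [show (1024 : ℝ) = 2 ^ 10 by norm_num, Real.log_pow]
      push_cast
      ring
    have h3 := Real.log_le_sub_one_of_pos (show (0 : ℝ) < 1024 / 924 by norm_num)
    have h4 := Real.log_two_gt_d9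
    rw [h1, h2]
    norm_num at h3
    linarith
  have hL1 : Real.log (1 + y) ≤ 0.148704 + 0.555556 * y := by
    have h1 : Real.log (1 + y) = Real.log 2 + Real.log 0.9 + Real.log ((1 + y) / 1.8) := by
      rw [Real.log_div (by positivity) (by norm_num), ← Real.log_mul (by norm_num) (by norm_num),
        show (2 : ℝ) * 0.9 = 1.8 by norm_num]
      ring
    have h2 := Real.log_le_sub_one_of_pos (show (0 : ℝ) < 0.9 by norm_num)
    have h3 := Real.log_le_sub_one_of_pos (show (0 : ℝ) < (1 + y) / 1.8 by positivity)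
    have h4 := Real.log_two_lt_d9
    have h5 : (1 + y) / 1.8 ≤ 0.5555556 + 0.555556 * y := by
      rw [div_le_iff₀ (by norm_num)]
      nlinarith
    rw [h1]
    linarith
  have hly := Real.log_le_sub_one_of_pos hy0
  have he0 := Real.exp_pos (-y)
  have he1 : Real.exp (-y) ≤ 1 := by
    rw [Real.exp_le_one_iff]
    linarith
  have he := expb y hy0.le (by linarith)
  have hp := poly y hy0.le hy1
  have hM : M (84 / D) 11 = -(Real.exp (-y) * (Real.log (1 + y) - Real.log y)) / 2 := by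
    unfold M
    rw [hy]
  rw [hM]
  have k1 : Real.exp (-y) * Real.log (1 + y) ≤ Real.exp (-y) * (0.148704 + 0.555556 * y) :=
    mul_le_mul_of_nonneg_left hL1 he0.le
  have k2 : (1 - Real.exp (-y)) * Real.log y ≤ (1 - Real.exp (-y)) * (y - 1) :=
    mul_le_mul_of_nonneg_left hly (by linarith)
  have k3 : Real.exp (-y) * (1.148704 - 0.444444 * y) ≤
      (1 - y + y ^ 2 / 2 - y ^ 3 / 6 + y ^ 4 / 24 + y ^ 5 / 100) * (1.148704 - 0.444444 * y) :=
    mul_le_mul_of_nonneg_right he (by nlinarith)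
  have k4 : Real.log D = Real.log 924 - Real.log y / 2 := by rw [hlogD]; ring
  rw [k4]
  nlinarith

end C2

open C2 in
theorem stLB : StLB := by
  intro D hD
  have hD0 : 0 < D := by linarith
  have hf : ∀ n, 0 ≤ T D n := T_nonneg D
  have hb : ∀ n, ∑ i ∈ range n, T D i ≤ 0.8 + 0.143 * Real.log D := by
    intro n
    have h1 : ∑ i ∈ range n, T D i ≤ ∑ i ∈ range (84 * (12 + n)), T D i :=
      sum_le_sum_of_subset_of_nonneg (range_subset_range.mpr (by omega)) (fun i _ _ ↦ hf i)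
    have h2 : ∑ i ∈ range (84 * (12 + n)), T D i =
        ∑ i ∈ range 1008, T D i + ∑ i ∈ Ico 1008 (84 * (12 + n)), T D i := by
      rw [sum_range_add_sum_Ico _ (by omega)]
    have h3 := S1 D
    have h4 := S2 D hD0 n
    have h5 : M (84 / D) ((12 + n : ℕ) - 1 : ℝ) ≤ 0 :=
      M_nonpos _ _ (by positivity) (by push_cast; linarith [(Nat.cast_nonneg n : (0 : ℝ) ≤ n)])
    have h6 := final D hD
    linarith
  exact ⟨summable_of_sum_range_le hf hb, Real.tsum_le_of_sum_range_le hf hb⟩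

end Pool.Agent.TFS
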