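import Pool.Agent.Lib.TFS.StmtsC

/-! Module C3: the divisor majorant of `r₂`. -/

set_option autoImplicit false

open Finset

namespace Pool.Agent.TFS

open Pool.Agent.Lib.MP_0e0027_nt

namespace MajC3

open Classical in
/-- indicator of `P1s` -/
noncomputable def gA : ArithmeticFunction ℤ :=
  ⟨fun n ↦ if P1s n then 1 else 0, by
    rw [if_neg]; intro h; exact h.1 rfl⟩

open Classical in
lemma gA_apply (n : ℕ) : gA n = if P1s n then 1 else 0 := rfl

lemma P1s_one : P1s 1 := by
  refine ⟨one_ne_zero, ?_⟩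
  intro l hl h
  exact absurd (Nat.dvd_one.mp h) hl.one_lt.ne'

lemma P1s_mul {m n : ℕ} : P1s (m * n) ↔ P1s m ∧ P1s n := by
  constructor
  · rintro ⟨h0, h⟩
    refine ⟨⟨?_, ?_⟩, ⟨?_, ?_⟩⟩
    · rintro rfl; simp at h0
    · intro l hl hd; exact h l hl (hd.mul_right _)
    · rintro rfl; simp at h0
    · intro l hl hd; exact h l hl (hd.mul_left _)
  · rintro ⟨⟨h0, h⟩, ⟨h0', h'⟩⟩
    refine ⟨mul_ne_zero h0 h0', ?_⟩
    intro l hl hd
    rcases hl.dvd_mul.mp hd with hd | hd
    · exact h l hl hd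
    · exact h' l hl hd

lemma gA_mult : gA.IsMultiplicative := by
  refine ⟨?_, ?_⟩
  · rw [gA_apply, if_pos P1s_one]
  · intro m n _
    simp only [gA_apply]
    by_cases h1 : P1s m <;> by_cases h2 : P1s n <;> simp [h1, h2, P1s_mul]

/-- number of divisors in `P1s` -/
noncomputable def g (n : ℕ) : ℤ := (gA * (ArithmeticFunction.zeta : ArithmeticFunction ℤ)) n

open Classical in
lemma g_eq (n : ℕ) : g n = ((n.divisors.filter (fun d ↦ P1s d)).card : ℤ) := by
  unfold g
  rw [ArithmeticFunction.coe_mul_zeta_apply]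
  simp only [gA_apply]
  rw [Finset.sum_boole]

lemma g_mul {m n : ℕ} (h : Nat.Coprime m n) : g (m * n) = g m * g n :=
  (gA_mult.mul ArithmeticFunction.isMultiplicative_zeta.natCast).map_mul_of_coprime h

lemma g_pos {n : ℕ} (hn : n ≠ 0) : 1 ≤ g n := by
  classical
  rw [g_eq]
  have : 0 < (n.divisors.filter (fun d ↦ P1s d)).card :=
    Finset.card_pos.mpr ⟨1, Finset.mem_filter.mpr ⟨Nat.one_mem_divisors.mpr hn, P1s_one⟩⟩
  exact_mod_cast this

lemma R2_le_pow {p : ℕ} (hp : p.Prime) (v : ℕ) : 0 ≤ R2 (p ^ v) ∧ R2 (p ^ v) ≤ g (p ^ v) := by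
  have hg := g_pos (n := p ^ v) (pow_ne_zero _ hp.ne_zero)
  rw [R2_prime_pow hp]
  rcases hp.eq_two_or_odd with h2 | hodd
  · subst h2
    have h3 : ∑ i ∈ range (v + 1), (0 : ℤ) ^ i = 1 := by
      rw [sum_range_succ']
      simp
    rw [c4_even (by norm_num), h3]
    exact ⟨by norm_num, hg⟩
  · have : p % 4 = 1 ∨ p % 4 = 3 := by omega
    rcases this with h | h
    · rw [c4_of_one h]
      simp only [one_pow, sum_const, card_range, nsmul_eq_mul, mul_one]
      refine ⟨by positivity, ?_⟩
      classical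
      rw [g_eq, Finset.filter_true_of_mem, Nat.divisors_prime_pow hp, Finset.card_map,
        Finset.card_range]
      intro d hd
      refine ⟨(Nat.pos_of_mem_divisors hd).ne', ?_⟩
      intro l hl hld
      have h1 := (hld.trans (Nat.dvd_of_mem_divisors hd))
      have h2 := hl.dvd_of_dvd_pow h1
      rw [(Nat.prime_dvd_prime_iff_eq hl hp).mp h2]
      exact h
    · rw [c4_of_three h]
      have h4 : ∀ v : ℕ, ∑ i ∈ range (v + 1), (-1 : ℤ) ^ i = if v % 2 = 0 then 1 else 0 := by
        intro v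
        induction v with
        | zero => simp
        | succ v ih =>
          rw [sum_range_succ, ih]
          rcases Nat.even_or_odd v with hv | hv
          · have h5 : v % 2 = 0 := Nat.even_iff.mp hv
            rw [if_pos h5, if_neg (by omega), (Nat.even_add_one.not.mpr (by simpa using hv) |>
              Nat.not_even_iff_odd.mp).neg_one_pow]
            norm_num
          · have h5 : v % 2 = 1 := Nat.odd_iff.mp hv
            rw [if_neg (by omega), if_pos (by omega), (hv.add_one).neg_one_pow]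
            norm_num
      rw [h4]
      split_ifs
      · exact ⟨by norm_num, hg⟩
      · exact ⟨le_refl _, by linarith⟩

lemma R2_le (n : ℕ) (hn : n ≠ 0) : 0 ≤ R2 n ∧ R2 n ≤ g n := by
  induction n using Nat.recOnPosPrimePosCoprime with
  | prime_pow p n hp _ => exact R2_le_pow hp n
  | zero => exact absurd rfl hn
  | one =>
    rw [R2_one]
    exact ⟨by norm_num, g_pos one_ne_zero⟩
  | coprime a b ha hb hab iha ihb =>
    obtain ⟨h1, h2⟩ := iha (by omega)
    obtain ⟨h3, h4⟩ := ihb (by omega)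
    rw [R2_mul hab, g_mul hab]
    exact ⟨mul_nonneg h1 h3, mul_le_mul h2 h4 h3 (h1.trans h2)⟩

lemma card_divisors_le (b : ℕ) (hb : b ≠ 0) :
    b.divisors.card ≤ 2 * (b.divisors.filter (fun d ↦ d ^ 2 ≤ b)).card := by
  rw [← Finset.card_filter_add_card_filter_not (s := b.divisors) (fun d ↦ d ^ 2 ≤ b)]
  have : (b.divisors.filter (fun d ↦ ¬ d ^ 2 ≤ b)).card ≤
      (b.divisors.filter (fun d ↦ d ^ 2 ≤ b)).card := by
    apply Finset.card_le_card_of_injOn (fun d ↦ b / d)
    · intro d hd
      have hd := Finset.mem_filter.mp hd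
      have hdb := Nat.dvd_of_mem_divisors hd.1
      have hd0 := Nat.pos_of_mem_divisors hd.1
      refine Finset.mem_coe.mpr (Finset.mem_filter.mpr ⟨Nat.mem_divisors.mpr ⟨Nat.div_dvd_of_dvd hdb, hb⟩, ?_⟩)
      have h1 : b / d * d = b := Nat.div_mul_cancel hdb
      have h2 : b < d ^ 2 := not_le.mp hd.2
      by_contra h3
      push Not at h3
      have h4 : b * b < (b / d) ^ 2 * d ^ 2 := by
        have hb0 : 0 < b := Nat.pos_of_ne_zero hb
        exact Nat.mul_lt_mul'' h3 h2
      rw [← mul_pow, h1] at h4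
      nlinarith
    · intro d hd d' hd' h
      have hd := Finset.mem_filter.mp hd
      have hd' := Finset.mem_filter.mp hd'
      have e1 := Nat.div_div_self (Nat.dvd_of_mem_divisors hd.1) hb
      have e2 := Nat.div_div_self (Nat.dvd_of_mem_divisors hd'.1) hb
      rw [← e1, ← e2]
      simp only at h
      rw [h]
  omega

end MajC3

open MajC3 in
theorem stR2maj : StR2maj := by
  classical
  intro a ha
  have ha0 : a ≠ 0 := by omega
  have h1 : ((r2set a).card : ℤ) ≤ 4 * g a := by
    rw [r2_eq a ha]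
    have := (R2_le a ha0).2
    linarith
  set s := a.divisors.filter (fun d ↦ P1s d) with hs
  set b := s.lcm id with hb
  have hba : b ∣ a := by
    apply Finset.lcm_dvd
    intro d hd
    exact Nat.dvd_of_mem_divisors (Finset.mem_filter.mp hd).1
  have hb0 : b ≠ 0 := by
    intro h
    rw [h] at hba
    exact ha0 (Nat.eq_zero_of_zero_dvd hba)
  have hP : P1s b := by
    refine ⟨hb0, ?_⟩
    intro l hl hlb
    have h2 : b ∣ ∏ d ∈ s, d := Finset.lcm_dvd (fun d hd ↦ Finset.dvd_prod_of_mem _ hd)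
    obtain ⟨d, hd, hld⟩ := (hl.prime.dvd_finsetProd_iff _).mp (hlb.trans h2)
    exact (Finset.mem_filter.mp hd).2.2 l hl hld
  have hsb : s = b.divisors := by
    ext d
    constructor
    · intro hd
      exact Nat.mem_divisors.mpr ⟨Finset.dvd_lcm hd, hb0⟩
    · intro hd
      obtain ⟨c, hc⟩ := Nat.dvd_of_mem_divisors hd
      refine Finset.mem_filter.mpr ⟨Nat.mem_divisors.mpr
        ⟨(Nat.dvd_of_mem_divisors hd).trans hba, ha0⟩, ?_⟩
      rw [hc] at hP
      exact (P1s_mul.mp hP).1
  have h2 := card_divisors_le b hb0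
  have h3 : (b.divisors.filter (fun d ↦ d ^ 2 ≤ b)).card ≤
      (a.divisors.filter (fun d ↦ P1s d ∧ d ^ 2 ≤ a)).card := by
    apply Finset.card_le_card
    intro d hd
    have hd := Finset.mem_filter.mp hd
    have hds : d ∈ s := by rw [hsb]; exact hd.1
    have hds := Finset.mem_filter.mp hds
    exact Finset.mem_filter.mpr ⟨hds.1, hds.2, hd.2.trans (Nat.le_of_dvd (by omega) hba)⟩
  rw [g_eq, ← hs, hsb] at h1
  have h4 : (r2set a).card ≤ 4 * b.divisors.card := by exact_mod_cast h1
  have h5 : (r2set a).card ≤ 8 * (a.divisors.filter (fun d ↦ P1s d ∧ d ^ 2 ≤ a)).card := by omega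
  convert h5

end Pool.Agent.TFS
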