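import Pool.Agent.Lib.TFS.StmtsC

/-! Module C4: the upper bound for medium primes. -/

set_option autoImplicit false

open Finset MeasureTheory

namespace Pool.Agent.TFS

open Pool.Agent.Lib.MP_0e0027_nt

namespace C4

theorem p1s_dvd {d e : ℕ} (h : P1s d) (he : e ∣ d) : P1s e := by
  refine ⟨fun h0 ↦ ?_, fun l hl hle ↦ h.2 l hl (hle.trans he)⟩
  rw [h0, zero_dvd_iff] at he
  exact h.1 he

theorem p1s_mod {d : ℕ} (h : P1s d) : d % 4 = 1 := by
  induction d using Nat.strong_induction_on with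
  | _ d ih =>
    rcases eq_or_ne d 1 with h1 | h1
    · rw [h1]
    · have hp := Nat.minFac_prime h1
      have hd := Nat.minFac_dvd d
      have hl := h.2 _ hp hd
      obtain ⟨e, he⟩ := hd
      have hed : e ∣ d := ⟨d.minFac, by rw [mul_comm]; exact he⟩
      have he1 := p1s_dvd h hed
      have hlt : e < d := by
        have h2 := hp.two_le
        have h3 : 0 < e := Nat.pos_of_ne_zero he1.1
        nlinarith
      have := ih e hlt he1
      rw [he, Nat.mul_mod, hl, this]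

theorem p1s_ch {d : ℕ} (h : P1s d) : ch d = 1 := by
  unfold ch
  rw [ZMod.χ₄_nat_one_mod_four (p1s_mod h)]
  norm_num

theorem p1s_coprime {d : ℕ} (h : P1s d) : d.Coprime 6 := by
  rw [Nat.coprime_iff_gcd_eq_one]
  by_contra hg
  obtain ⟨l, hl, hlg⟩ := Nat.exists_prime_and_dvd hg
  have h1 := h.2 l hl (hlg.trans (Nat.gcd_dvd_left _ _))
  have h2 : l ∣ 6 := hlg.trans (Nat.gcd_dvd_right _ _)
  have h3 : l ≤ 6 := Nat.le_of_dvd (by norm_num) h2
  interval_cases l <;> revert hl h1 h2 <;> decide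

/-- the Moebius sum over all divisors -/
theorem moeb_all {m : ℕ} (hm : 0 < m) :
    ∑ b ∈ m.divisors, (ArithmeticFunction.moebius b : ℝ) / b = (Nat.totient m : ℝ) / m := by
  have h := (ArithmeticFunction.sum_eq_iff_sum_mul_moebius_eq
    (f := fun n ↦ (Nat.totient n : ℝ)) (g := fun n ↦ (n : ℝ))).1 (by
      intro n _
      exact_mod_cast Nat.sum_totient n) m hm
  have hmr : (m : ℝ) ≠ 0 := by positivity
  rw [eq_div_iff hmr, ← h, Nat.sum_divisorsAntidiagonal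
    (f := fun a b ↦ (ArithmeticFunction.moebius a : ℝ) * (b : ℝ)), Finset.sum_mul]
  refine Finset.sum_congr rfl (fun b hb ↦ ?_)
  have hbd := Nat.dvd_of_mem_divisors hb
  have hb0 : b ≠ 0 := fun h0 ↦ by
    rw [h0, zero_dvd_iff] at hbd
    omega
  have hbr : (b : ℝ) ≠ 0 := by exact_mod_cast hb0
  rw [Nat.cast_div hbd hbr]
  field_simp

theorem moeb_le {g p : ℕ} (hg : 0 < g) (hp : p.Prime) :
    ∑ b ∈ g.divisors.filter (fun b ↦ b.Coprime p), (ArithmeticFunction.moebius b : ℝ) / b ≤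
      (Nat.totient g : ℝ) / g * ((p : ℝ) / (p - 1)) := by
  obtain ⟨k, m, hpm, rfl⟩ := Nat.exists_eq_pow_mul_and_not_dvd hg.ne' p hp.ne_one
  have hm : 0 < m := Nat.pos_of_ne_zero (fun h ↦ hpm (h ▸ dvd_zero p))
  have hpc : p.Coprime m := (Nat.Prime.coprime_iff_not_dvd hp).2 hpm
  have hset : (p ^ k * m).divisors.filter (fun b ↦ b.Coprime p) = m.divisors := by
    ext b
    rw [mem_filter, Nat.mem_divisors, Nat.mem_divisors]
    constructor
    · rintro ⟨⟨h1, -⟩, h2⟩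
      exact ⟨(Nat.Coprime.pow_right k h2).dvd_of_dvd_mul_left h1, hm.ne'⟩
    · rintro ⟨h1, -⟩
      exact ⟨⟨h1.mul_left _, hg.ne'⟩, (Nat.Coprime.coprime_dvd_right h1 hpc).symm⟩
  rw [hset, moeb_all hm, Nat.totient_mul (Nat.Coprime.pow_left k hpc)]
  have hp1 : (1 : ℝ) < p := by exact_mod_cast hp.one_lt
  have hp0 : (0 : ℝ) < (p : ℝ) - 1 := by linarith
  have hpp : (0 : ℝ) < p := by linarith
  have hmr : (0 : ℝ) < m := by exact_mod_cast hm
  have key : (1 : ℝ) ≤ (Nat.totient (p ^ k) : ℝ) / (p : ℝ) ^ k * ((p : ℝ) / (p - 1)) := by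
    rcases k with _ | k
    · simp only [pow_zero, Nat.totient_one, Nat.cast_one, div_one, one_mul]
      rw [le_div_iff₀ hp0]
      linarith
    · rw [Nat.totient_prime_pow_succ hp]
      push_cast [Nat.cast_sub hp.one_lt.le]
      rw [pow_succ]
      apply le_of_eq
      field_simp
  have ht : 0 ≤ (Nat.totient m : ℝ) / m := by positivity
  calc (Nat.totient m : ℝ) / m = (Nat.totient m : ℝ) / m * 1 := by ring
    _ ≤ (Nat.totient m : ℝ) / m *
        ((Nat.totient (p ^ k) : ℝ) / (p : ℝ) ^ k * ((p : ℝ) / (p - 1))) :=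
        mul_le_mul_of_nonneg_left key ht
    _ = _ := by
        push_cast
        field_simp

theorem r4_nonneg (ν : ℤ) {p : ℕ} (hp : p.Prime) : 0 ≤ r4 ν p := by
  have hp1 : (1 : ℝ) < p := by exact_mod_cast hp.one_lt
  unfold r4
  split_ifs
  · apply div_nonneg
    · linarith
    · positivity
  · exact le_rfl
  · apply div_nonneg
    · have : ch p ≤ 1 := by
        unfold ch
        have : ∀ a : ZMod 4, ZMod.χ₄ a ≤ 1 := by decide
        exact_mod_cast this _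
      linarith
    · positivity

/-- the local densities -/
theorem dens_le (hR : StRho) {p ν d : ℕ} [Fact p.Prime] (hp2 : p ≠ 2) (hν : 1 ≤ ν) (hd : P1s d) :
    (rhoN ν p (p ^ 2 * d) : ℝ) / ((p ^ 2 * d : ℕ) : ℝ) ^ 2 ≤
      r4 ν p * ((p : ℝ) / (p - 1)) *
        ∑ a ∈ (ν.divisors.filter (fun e ↦ e.Coprime 6)).filter (fun a ↦ a ∣ d),
          (1 : ℝ) / a * ((Nat.totient (d / a) : ℝ) / ((d / a : ℕ) : ℝ) ^ 2) := by
  have hp : p.Prime := Fact.out
  have hp1 : (1 : ℝ) < p := by exact_mod_cast hp.one_lt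
  have hodd : d % 2 = 1 := by
    have := p1s_mod hd
    omega
  have h := hR p d hp2 hodd ν hν
  rw [p1s_ch hd, one_mul] at h
  rw [h, mul_assoc]
  refine mul_le_mul_of_nonneg_left ?_ (r4_nonneg _ hp)
  rw [Finset.mul_sum]
  have hsub : d.divisors.filter (fun a ↦ a ∣ ν ∧ a.Coprime p) ⊆
      (ν.divisors.filter (fun e ↦ e.Coprime 6)).filter (fun a ↦ a ∣ d) := by
    intro a ha
    rw [mem_filter, Nat.mem_divisors] at ha
    rw [mem_filter, mem_filter, Nat.mem_divisors]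
    exact ⟨⟨⟨ha.2.1, by omega⟩, p1s_coprime (p1s_dvd hd ha.1.1)⟩, ha.1.1⟩
  refine le_trans (Finset.sum_le_sum (fun a ha ↦ ?_))
    (Finset.sum_le_sum_of_subset_of_nonneg hsub (fun a _ _ ↦ ?_))
  · rw [mem_filter, Nat.mem_divisors] at ha
    have had := ha.1.1
    have hag : P1s (d / a) := p1s_dvd hd (Nat.div_dvd_of_dvd had)
    have ha0 : 0 < a := Nat.pos_of_ne_zero (p1s_dvd hd had).1
    have hg0 : 0 < d / a := Nat.pos_of_ne_zero hag.1
    have har : (0 : ℝ) < a := by exact_mod_cast ha0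
    have hgr : (0 : ℝ) < ((d / a : ℕ) : ℝ) := by exact_mod_cast hg0
    have e : ∑ b ∈ (d / a).divisors.filter (fun b ↦ b.Coprime p),
        (ArithmeticFunction.moebius b : ℝ) / ((a : ℝ) * (b : ℝ) ^ 2) *
          (ch (d / a / b) / ((d / a / b : ℕ) : ℝ)) =
        (1 / ((a : ℝ) * ((d / a : ℕ) : ℝ))) *
          ∑ b ∈ (d / a).divisors.filter (fun b ↦ b.Coprime p),
            (ArithmeticFunction.moebius b : ℝ) / b := by
      rw [Finset.mul_sum]
      refine Finset.sum_congr rfl (fun b hb ↦ ?_)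
      rw [mem_filter, Nat.mem_divisors] at hb
      have hbd := hb.1.1
      have hb0 : b ≠ 0 := (p1s_dvd hag hbd).1
      have hbr : (b : ℝ) ≠ 0 := by exact_mod_cast hb0
      rw [p1s_ch (p1s_dvd hag (Nat.div_dvd_of_dvd hbd)), Nat.cast_div hbd hbr]
      field_simp
    rw [e]
    calc (1 / ((a : ℝ) * ((d / a : ℕ) : ℝ))) *
          ∑ b ∈ (d / a).divisors.filter (fun b ↦ b.Coprime p),
            (ArithmeticFunction.moebius b : ℝ) / b ≤
        (1 / ((a : ℝ) * ((d / a : ℕ) : ℝ))) *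
          ((Nat.totient (d / a) : ℝ) / ((d / a : ℕ) : ℝ) * ((p : ℝ) / (p - 1))) :=
          mul_le_mul_of_nonneg_left (moeb_le hg0 hp) (by positivity)
      _ = _ := by field_simp
  · have : (0 : ℝ) ≤ (p : ℝ) / (p - 1) := div_nonneg (by linarith) (by linarith)
    positivity

open Classical in
/-- the divisor sum in the main term -/
theorem main_sum (ν : ℕ) {D : ℝ} (hD : 0 < D) (R : ℕ) :
    ∑ d ∈ (range R).filter (fun d ↦ P1s d),
      (∑ a ∈ (ν.divisors.filter (fun e ↦ e.Coprime 6)).filter (fun a ↦ a ∣ d),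
        (1 : ℝ) / a * ((Nat.totient (d / a) : ℝ) / ((d / a : ℕ) : ℝ) ^ 2)) *
          Real.exp (-((d : ℝ) / D) ^ 2) ≤
    gs ν 6 * ∑ d ∈ (range R).filter (fun d ↦ P1s d),
      (Nat.totient d : ℝ) / (d : ℝ) ^ 2 * Real.exp (-((d : ℝ) / D) ^ 2) := by
  set A := ν.divisors.filter (fun e ↦ e.Coprime 6) with hA
  set R' := (range R).filter (fun d ↦ P1s d) with hR'
  have e1 : ∑ d ∈ R', (∑ a ∈ A.filter (fun a ↦ a ∣ d),
        (1 : ℝ) / a * ((Nat.totient (d / a) : ℝ) / ((d / a : ℕ) : ℝ) ^ 2)) *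
          Real.exp (-((d : ℝ) / D) ^ 2) =
      ∑ a ∈ A, ∑ d ∈ R'.filter (fun d ↦ a ∣ d),
        (1 : ℝ) / a * ((Nat.totient (d / a) : ℝ) / ((d / a : ℕ) : ℝ) ^ 2) *
          Real.exp (-((d : ℝ) / D) ^ 2) := by
    simp_rw [Finset.sum_mul]
    simp_rw [Finset.sum_filter (s := A), Finset.sum_filter (s := R')]
    exact Finset.sum_comm
  rw [e1]
  unfold gs
  rw [← hA, Finset.sum_mul]
  refine Finset.sum_le_sum (fun a ha ↦ ?_)
  have ha0 : 0 < a := by
    rw [hA, mem_filter, Nat.mem_divisors] at ha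
    exact Nat.pos_of_dvd_of_pos ha.1.1 (Nat.pos_of_ne_zero ha.1.2)
  have har : (1 : ℝ) ≤ a := by exact_mod_cast ha0
  have hinj : Set.InjOn (fun d ↦ d / a) (R'.filter (fun d ↦ a ∣ d) : Set ℕ) := by
    intro d hd d' hd' h
    rw [mem_coe, mem_filter] at hd hd'
    simp only at h
    rw [← Nat.div_mul_cancel hd.2, ← Nat.div_mul_cancel hd'.2, h]
  have himg : (R'.filter (fun d ↦ a ∣ d)).image (fun d ↦ d / a) ⊆ R' := by
    intro g hg
    rw [mem_image] at hg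
    obtain ⟨d, hd, rfl⟩ := hg
    rw [mem_filter, hR', mem_filter, mem_range] at hd
    rw [hR', mem_filter, mem_range]
    exact ⟨lt_of_le_of_lt (Nat.div_le_self _ _) hd.1.1, p1s_dvd hd.1.2 (Nat.div_dvd_of_dvd hd.2)⟩
  calc ∑ d ∈ R'.filter (fun d ↦ a ∣ d),
        (1 : ℝ) / a * ((Nat.totient (d / a) : ℝ) / ((d / a : ℕ) : ℝ) ^ 2) *
          Real.exp (-((d : ℝ) / D) ^ 2)
      ≤ ∑ d ∈ R'.filter (fun d ↦ a ∣ d),
        (1 : ℝ) / a * ((Nat.totient (d / a) : ℝ) / ((d / a : ℕ) : ℝ) ^ 2 *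
          Real.exp (-(((d / a : ℕ) : ℝ) / D) ^ 2)) := by
        refine Finset.sum_le_sum (fun d hd ↦ ?_)
        rw [mul_assoc]
        have h1 : Real.exp (-((d : ℝ) / D) ^ 2) ≤ Real.exp (-(((d / a : ℕ) : ℝ) / D) ^ 2) := by
          apply Real.exp_le_exp.2
          apply neg_le_neg
          have h2 : ((d / a : ℕ) : ℝ) ≤ d := by exact_mod_cast Nat.div_le_self d a
          have h3 : ((d / a : ℕ) : ℝ) / D ≤ (d : ℝ) / D := by gcongr
          have h4 : 0 ≤ ((d / a : ℕ) : ℝ) / D := by positivity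
          gcongr
        have h5 : (0 : ℝ) ≤ (Nat.totient (d / a) : ℝ) / ((d / a : ℕ) : ℝ) ^ 2 := by positivity
        have h6 : (0 : ℝ) ≤ (1 : ℝ) / a := by positivity
        exact mul_le_mul_of_nonneg_left (mul_le_mul_of_nonneg_left h1 h5) h6
    _ = (1 : ℝ) / a * ∑ g ∈ (R'.filter (fun d ↦ a ∣ d)).image (fun d ↦ d / a),
          ((Nat.totient g : ℝ) / (g : ℝ) ^ 2 * Real.exp (-((g : ℝ) / D) ^ 2)) := by
        rw [Finset.sum_image hinj, Finset.mul_sum]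
    _ ≤ _ := by
        refine mul_le_mul_of_nonneg_left ?_ (by positivity)
        exact Finset.sum_le_sum_of_subset_of_nonneg himg (fun g _ _ ↦ by positivity)

/-- Gaussian counting gives an upper bound for the number of points of a class -/
theorem count_le (hD : StDOM) (hP : StPoi) {p ν d : ℕ} [Fact p.Prime] (hp2 : p ≠ 2) (hν : 1 ≤ ν)
    (hd : P1s d) (F : Finset GI)
    (hF : ∀ x ∈ F, ((p ^ 2 * d : ℕ) : ℤ) ∣ ν - N2 x ∧ ¬ dv p x ∧
      (p : ℤ) ^ 2 * (d : ℤ) ^ 2 ≤ ν - N2 x) :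
    (F.card : ℝ) ≤ Real.exp 1 * Real.exp (-((p : ℝ) ^ 2 * (d : ℝ) ^ 2 / ν)) *
      (Real.pi * ν * ((rhoN ν p (p ^ 2 * d) : ℝ) / ((p ^ 2 * d : ℕ) : ℝ) ^ 2) + Bq p d) := by
  classical
  have hp : p.Prime := Fact.out
  have hodd : d % 2 = 1 := by
    have := p1s_mod hd
    omega
  have hd0 : 0 < d := Nat.pos_of_ne_zero hd.1
  have : NeZero (p ^ 2 * d) := ⟨by
    have := hp.pos
    positivity⟩
  have hνr : (0 : ℝ) < ν := by exact_mod_cast hν
  have hp2o : p % 2 = 1 := by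
    rcases hp.eq_two_or_odd with h | h
    · exact absurd h hp2
    · exact h
  have hqodd : (p ^ 2 * d) % 2 = 1 := by
    rw [Nat.mul_mod, Nat.pow_mod, hp2o, hodd]
  have hpq : p ∣ p ^ 2 * d := Dvd.intro (p * d) (by ring)
  have hGC := hP 0 0 p (p ^ 2 * d) ν (Bq p d) (by norm_num) (by norm_num) hqodd hpq
    (fun h ↦ absurd rfl h) (hD p d hp2 hodd ν)
  set W := WU 0 0 (ν : ℤ) p (p ^ 2 * d) with hW
  have hz : 0 < (((1 / (Real.pi * ν) : ℝ)) : ℂ).re := by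
    rw [Complex.ofReal_re]
    positivity
  obtain ⟨hs, hb⟩ := hGC _ hz
  have hfun : (fun x : W ↦ Complex.exp (-(Real.pi * (((1 / (Real.pi * ν) : ℝ)) : ℂ) * (N2 x : ℂ)))) =
      fun x : W ↦ ((Real.exp (-((N2 (x : GI) : ℝ) / ν)) : ℝ) : ℂ) := by
    funext x
    rw [Complex.ofReal_exp]
    congr 1
    have hpi := Real.pi_pos.ne'
    push_cast
    have h1 : (Real.pi : ℂ) ≠ 0 := by exact_mod_cast hpi
    have h2 : (ν : ℂ) ≠ 0 := by exact_mod_cast hνr.ne'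
    field_simp
  rw [hfun] at hs hb
  have hs' : Summable (fun x : W ↦ Real.exp (-((N2 (x : GI) : ℝ) / ν))) :=
    Complex.summable_ofReal.1 hs
  set S := ∑' x : W, Real.exp (-((N2 (x : GI) : ℝ) / ν)) with hS
  have hdens : densU 0 0 = 1 := by unfold densU; norm_num
  have hcU : cU 0 0 = 1 := by unfold cU; norm_num
  have hSle : S ≤ Real.pi * ν * ((rhoN ν p (p ^ 2 * d) : ℝ) / ((p ^ 2 * d : ℕ) : ℝ) ^ 2) +
      Bq p d := by
    rw [← Complex.ofReal_tsum, ← hS, hdens, hcU] at hb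
    have e1 : ((S : ℝ) : ℂ) - (((1 * (rhoN ν p (p ^ 2 * d) : ℝ) / ((p ^ 2 * d : ℕ) : ℝ) ^ 2 : ℝ)) : ℂ) /
        (((1 / (Real.pi * ν) : ℝ)) : ℂ) =
        ((S - Real.pi * ν * ((rhoN ν p (p ^ 2 * d) : ℝ) / ((p ^ 2 * d : ℕ) : ℝ) ^ 2) : ℝ) : ℂ) := by
      rw [← Complex.ofReal_div, ← Complex.ofReal_sub]
      congr 1
      field_simp
    have hb' := hb
    rw [e1, Complex.norm_real, Complex.norm_real, Complex.ofReal_re, Real.norm_eq_abs,
      Real.norm_eq_abs, abs_of_pos (show (0 : ℝ) < 1 / (Real.pi * ν) by positivity),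
      div_self (by positivity), one_mul, mul_one] at hb'
    have := (abs_le.1 hb').2
    linarith
  have hFW : ∀ x ∈ F, x ∈ W := by
    intro x hx
    obtain ⟨h1, h2, -⟩ := hF x hx
    refine ⟨by simp [UP], by simp [UM], h1, h2⟩
  have hsum : ∑ x ∈ F, Real.exp (-((N2 x : ℝ) / ν)) ≤ S := by
    rw [← Finset.sum_subtype_of_mem (fun x : GI ↦ Real.exp (-((N2 x : ℝ) / ν))) hFW]
    exact hs'.sum_le_tsum _ (fun _ _ ↦ (Real.exp_pos _).le)
  have hone : (F.card : ℝ) ≤ Real.exp 1 * Real.exp (-((p : ℝ) ^ 2 * (d : ℝ) ^ 2 / ν)) *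
      ∑ x ∈ F, Real.exp (-((N2 x : ℝ) / ν)) := by
    rw [Finset.mul_sum, Finset.card_eq_sum_ones, Nat.cast_sum]
    refine Finset.sum_le_sum (fun x hx ↦ ?_)
    rw [← Real.exp_add, ← Real.exp_add, Nat.cast_one]
    apply Real.one_le_exp
    have h := (hF x hx).2.2
    have h' : (p : ℝ) ^ 2 * (d : ℝ) ^ 2 ≤ ν - N2 x := by exact_mod_cast h
    have h2 : ((p : ℝ) ^ 2 * (d : ℝ) ^ 2) / ν + (N2 x : ℝ) / ν ≤ 1 := by
      rw [← add_div, div_le_one hνr]
      linarith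
    linarith
  refine hone.trans ?_
  exact mul_le_mul_of_nonneg_left (hsum.trans hSle) (by positivity)

end C4

open C4 in
theorem stCP (hD : StDOM) (hP : StPoi) (hS : StSC) (hL : StLB) (hm : StR2maj) (hR : StRho) :
    StCP := by
  classical
  intro p ν _ hp5 hν hbig
  have hp : p.Prime := Fact.out
  have hp2 : p ≠ 2 := by omega
  have hνr : (0 : ℝ) < ν := by exact_mod_cast hν
  have hpr : (0 : ℝ) < p := by exact_mod_cast hp.pos
  set D : ℝ := √(ν : ℝ) / p with hDdef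
  have hD0 : 0 < D := by linarith
  have hD2 : (p : ℝ) ^ 2 * D ^ 2 = ν := by
    rw [hDdef, div_pow, Real.sq_sqrt hνr.le]
    field_simp
  have hN2nn : ∀ x : GI, 0 ≤ N2 x := fun x ↦ by unfold N2; positivity
  have hN2pos : ∀ x : GI, x ≠ 0 → 1 ≤ N2 x := by
    intro x hx
    by_contra h
    have h0 : N2 x = 0 := by
      have := hN2nn x
      omega
    apply hx
    unfold N2 at h0
    have h1 : x.re = 0 := by nlinarith [sq_nonneg x.re, sq_nonneg x.im]
    have h2 : x.im = 0 := by nlinarith [sq_nonneg x.re, sq_nonneg x.im]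
    exact Zsqrtd.ext h1 h2
  -- the box
  let X : Finset GI := ((Icc (-(ν : ℤ)) ν) ×ˢ (Icc (-(ν : ℤ)) ν)).image (fun z ↦ (⟨z.1, z.2⟩ : GI))
  have hX : ∀ x : GI, N2 x ≤ ν → x ∈ X := by
    intro x hx
    rw [mem_image]
    refine ⟨(x.re, x.im), ?_, rfl⟩
    unfold N2 at hx
    rw [mem_product, mem_Icc, mem_Icc]
    have h1 : x.re ^ 2 ≤ ν := by nlinarith [sq_nonneg x.im]
    have h2 : x.im ^ 2 ≤ ν := by nlinarith [sq_nonneg x.re]
    refine ⟨⟨?_, ?_⟩, ⟨?_, ?_⟩⟩ <;> nlinarith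
  let a : GI → ℕ := fun x ↦ (((ν : ℤ) - N2 x) / (p : ℤ) ^ 2).toNat
  let X' : Finset GI := X.filter (fun x ↦ ¬ dv p x ∧ (p : ℤ) ^ 2 ∣ ν - N2 x ∧ 0 < (ν : ℤ) - N2 x)
  have hp2pos : (0 : ℤ) < (p : ℤ) ^ 2 := by
    have : (0 : ℤ) < p := by exact_mod_cast hp.pos
    positivity
  have haX : ∀ x ∈ X', (p : ℤ) ^ 2 * (a x : ℤ) = ν - N2 x ∧ 1 ≤ a x := by
    intro x hx
    rw [mem_filter] at hx
    obtain ⟨-, -, ⟨c, hc⟩, hpos⟩ := hx
    have hc0 : 0 < c := by
      rw [hc] at hpos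
      exact (mul_pos_iff_of_pos_left hp2pos).1 hpos
    have e : (a x : ℤ) = c := by
      simp only [a]
      rw [hc, Int.mul_ediv_cancel_left _ hp2pos.ne', Int.toNat_of_nonneg hc0.le]
    rw [e]
    refine ⟨hc.symm, ?_⟩
    have : (1 : ℤ) ≤ (a x : ℤ) := by rw [e]; omega
    exact_mod_cast this
  let T : Finset ((_ : GI) × (ℤ × ℤ)) := X'.sigma (fun x ↦ r2set (a x))
  have hmap : ∀ u ∈ NC p ν, (⟨u.1, (u.2.re, u.2.im)⟩ : (_ : GI) × (ℤ × ℤ)) ∈ (T : Set _) := by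
    intro u hu
    obtain ⟨h1, h2, h3⟩ := hu
    have hy := hN2pos _ h2
    have hxX' : u.1 ∈ X' := by
      rw [mem_filter]
      have : 0 < (p : ℤ) ^ 2 * N2 u.2 := by positivity
      exact ⟨hX _ (by nlinarith), h1, ⟨N2 u.2, by linarith⟩, by nlinarith⟩
    rw [mem_coe, mem_sigma]
    refine ⟨hxX', ?_⟩
    rw [mem_r2set]
    have h4 := (haX _ hxX').1
    have h5 : (p : ℤ) ^ 2 * (a u.1 : ℤ) = (p : ℤ) ^ 2 * N2 u.2 := by linarith
    have h6 := mul_left_cancel₀ hp2pos.ne' h5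
    simp only
    rw [h6]
    rfl
  have hinj : Set.InjOn (fun u : GI × GI ↦ (⟨u.1, (u.2.re, u.2.im)⟩ : (_ : GI) × (ℤ × ℤ)))
      (NC p ν) := by
    intro u _ v _ h
    simp only [Sigma.mk.injEq, heq_eq_eq, Prod.mk.injEq] at h
    exact Prod.ext h.1 (Zsqrtd.ext h.2.1 h.2.2)
  have hfin : (NC p ν).Finite := Set.Finite.of_injOn hmap hinj T.finite_toSet
  refine ⟨hfin, ?_⟩
  have hc1 : (NC p ν).ncard ≤ T.card := by
    rw [← Set.ncard_coe_finset]
    exact Set.ncard_le_ncard_of_injOn _ hmap hinj T.finite_toSet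
  have hc2 : T.card ≤ ∑ x ∈ X', 8 * ((range (ν + 1)).filter (fun d ↦ P1s d ∧
      ((p ^ 2 * d : ℕ) : ℤ) ∣ ν - N2 x ∧ (p : ℤ) ^ 2 * (d : ℤ) ^ 2 ≤ ν - N2 x)).card := by
    rw [card_sigma]
    refine Finset.sum_le_sum (fun x hx ↦ ?_)
    obtain ⟨hax, hax1⟩ := haX x hx
    refine (hm (a x) hax1).trans (Nat.mul_le_mul_left _ (Finset.card_le_card ?_))
    intro d hd
    rw [mem_filter, Nat.mem_divisors] at hd
    obtain ⟨⟨hda, -⟩, hd1, hd2⟩ := hd
    rw [mem_filter, mem_range]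
    refine ⟨?_, hd1, ?_, ?_⟩
    · have h1 : d ≤ a x := Nat.le_of_dvd hax1 hda
      have h2 : (a x : ℤ) ≤ ν := by
        have h3 := hN2nn x
        have h4 : (1 : ℤ) ≤ (p : ℤ) ^ 2 := hp2pos
        have h5 : (0 : ℤ) ≤ a x := by positivity
        nlinarith
      have h3 : a x ≤ ν := by exact_mod_cast h2
      omega
    · rw [← hax]
      push_cast
      exact mul_dvd_mul_left _ (by exact_mod_cast hda)
    · rw [← hax]
      have : (d : ℤ) ^ 2 ≤ a x := by exact_mod_cast hd2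
      exact mul_le_mul_of_nonneg_left this hp2pos.le
  have hc3 : ∑ x ∈ X', ((range (ν + 1)).filter (fun d ↦ P1s d ∧
      ((p ^ 2 * d : ℕ) : ℤ) ∣ ν - N2 x ∧ (p : ℤ) ^ 2 * (d : ℤ) ^ 2 ≤ ν - N2 x)).card =
      ∑ d ∈ (range (ν + 1)).filter (fun d ↦ P1s d), (X'.filter (fun x ↦
        ((p ^ 2 * d : ℕ) : ℤ) ∣ ν - N2 x ∧ (p : ℤ) ^ 2 * (d : ℤ) ^ 2 ≤ ν - N2 x)).card := by
    simp_rw [Finset.card_filter, Finset.sum_filter (s := range (ν + 1))]
    rw [Finset.sum_comm]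
    refine Finset.sum_congr rfl (fun d _ ↦ ?_)
    by_cases h : P1s d
    · simp only [h, true_and, if_true]
    · simp only [h, false_and, if_false, Finset.sum_const_zero]
  have hc4 : ((NC p ν).ncard : ℝ) ≤ 8 * ∑ d ∈ (range (ν + 1)).filter (fun d ↦ P1s d),
      ((X'.filter (fun x ↦ ((p ^ 2 * d : ℕ) : ℤ) ∣ ν - N2 x ∧
        (p : ℤ) ^ 2 * (d : ℤ) ^ 2 ≤ ν - N2 x)).card : ℝ) := by
    rw [← Finset.mul_sum, hc3] at hc2
    exact_mod_cast hc1.trans hc2
  -- constants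
  have hr4 := r4_nonneg (ν : ℤ) hp
  have hp1 : (1 : ℝ) < p := by exact_mod_cast hp.one_lt
  have hpp1 : (0 : ℝ) ≤ (p : ℝ) / (p - 1) := div_nonneg (by linarith) (by linarith)
  have hCp : 0 ≤ Cp p := by
    unfold Cp
    split_ifs
    · norm_num
    · positivity
  have hgs : 0 ≤ gs ν 6 := by
    unfold gs
    exact Finset.sum_nonneg (fun _ _ ↦ by positivity)
  -- each d
  have hc5 : ∀ d ∈ (range (ν + 1)).filter (fun d ↦ P1s d),
      ((X'.filter (fun x ↦ ((p ^ 2 * d : ℕ) : ℤ) ∣ ν - N2 x ∧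
        (p : ℤ) ^ 2 * (d : ℤ) ^ 2 ≤ ν - N2 x)).card : ℝ) ≤
      Real.exp 1 * (Real.pi * ν * (r4 ν p * ((p : ℝ) / (p - 1))) *
        ((∑ a ∈ (ν.divisors.filter (fun e ↦ e.Coprime 6)).filter (fun a ↦ a ∣ d),
          (1 : ℝ) / a * ((Nat.totient (d / a) : ℝ) / ((d / a : ℕ) : ℝ) ^ 2)) *
            Real.exp (-((d : ℝ) / D) ^ 2)) +
        p * Cp p * (√(d : ℝ) * tau d * hh d * Real.exp (-((d : ℝ) / D) ^ 2))) := by
    intro d hd
    rw [mem_filter] at hd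
    have h1 := count_le hD hP hp2 hν hd.2 (X'.filter (fun x ↦ ((p ^ 2 * d : ℕ) : ℤ) ∣ ν - N2 x ∧
        (p : ℤ) ^ 2 * (d : ℤ) ^ 2 ≤ ν - N2 x)) (by
          intro x hx
          rw [mem_filter, mem_filter] at hx
          exact ⟨hx.2.1, hx.1.2.1, hx.2.2⟩)
    refine h1.trans ?_
    have h2 := dens_le hR (p := p) (ν := ν) hp2 hν hd.2
    have e1 : (p : ℝ) ^ 2 * (d : ℝ) ^ 2 / ν = ((d : ℝ) / D) ^ 2 := by
      rw [← hD2]
      field_simp
    rw [e1, mul_assoc]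
    refine mul_le_mul_of_nonneg_left ?_ (Real.exp_pos 1).le
    set w := Real.exp (-((d : ℝ) / D) ^ 2) with hw
    have hw0 : 0 ≤ w := (Real.exp_pos _).le
    have hpν : 0 ≤ Real.pi * ν := by positivity
    have h3 := mul_le_mul_of_nonneg_left (mul_le_mul_of_nonneg_left h2 hpν) hw0
    have hBq : Bq p d = p * √(d : ℝ) * Cp p * tau d * hh d := rfl
    rw [hBq]
    linarith
  have hc6 := Finset.sum_le_sum hc5
  rw [← Finset.mul_sum, Finset.sum_add_distrib, ← Finset.mul_sum, ← Finset.mul_sum] at hc6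
  obtain ⟨hLs, hLb⟩ := hL D hbig
  obtain ⟨hSs, hSb⟩ := hS D hbig
  have hh0 : ∀ d : ℕ, 0 ≤ hh d := fun d ↦ by
    unfold hh hl
    exact Finset.prod_nonneg (fun l _ ↦ by positivity)
  have hmain : ∑ d ∈ (range (ν + 1)).filter (fun d ↦ P1s d),
      (Nat.totient d : ℝ) / (d : ℝ) ^ 2 * Real.exp (-((d : ℝ) / D) ^ 2) ≤
      0.8 + 0.143 * Real.log D := by
    refine le_trans ?_ hLb
    rw [Finset.sum_filter]
    refine hLs.sum_le_tsum _ (fun d _ ↦ ?_)
    split_ifs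
    · positivity
    · exact le_rfl
  have herr : ∑ d ∈ (range (ν + 1)).filter (fun d ↦ P1s d),
      (√(d : ℝ) * tau d * hh d * Real.exp (-((d : ℝ) / D) ^ 2)) ≤ 0.3 * D * √D := by
    refine le_trans ?_ hSb
    rw [Finset.sum_filter]
    refine hSs.sum_le_tsum _ (fun d _ ↦ ?_)
    have := hh0 d
    split_ifs
    · positivity
    · exact le_rfl
  have hms := main_sum ν hD0 (ν + 1)
  have hms2 := hms.trans (mul_le_mul_of_nonneg_left hmain hgs)
  have hK : 0 ≤ Real.pi * ν * (r4 ν p * ((p : ℝ) / (p - 1))) := by positivity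
  have hK2 : 0 ≤ (p : ℝ) * Cp p := by positivity
  have h1 := mul_le_mul_of_nonneg_left hms2 hK
  have h2 := mul_le_mul_of_nonneg_left herr hK2
  have h3 := mul_le_mul_of_nonneg_left (add_le_add h1 h2) (Real.exp_pos 1).le
  have h4 := mul_le_mul_of_nonneg_left (hc6.trans h3) (show (0 : ℝ) ≤ 8 by norm_num)
  refine hc4.trans (h4.trans (le_of_eq ?_))
  ring

end Pool.Agent.TFS
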