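import Pool.Agent.Lib.TFS.StmtsF

/-!
TFS-F1: the union bound for quadruples which are not pairwise coprime.
-/

set_option autoImplicit false

open Finset

namespace Pool.Agent.TFS

namespace F1

theorem sq4 (x : ℤ) : (x % 2 = 1 ∧ x ^ 2 % 8 = 1) ∨ (x % 2 = 0 ∧ x ^ 2 % 8 = 0) ∨
    (x % 2 = 0 ∧ x ^ 2 % 8 = 4) := by
  have h : x % 8 = 0 ∨ x % 8 = 1 ∨ x % 8 = 2 ∨ x % 8 = 3 ∨ x % 8 = 4 ∨ x % 8 = 5 ∨ x % 8 = 6 ∨
    x % 8 = 7 := by omega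
  have h2 : x ^ 2 % 8 = (x % 8) * (x % 8) % 8 := by rw [sq, Int.mul_emod]
  rcases h with h | h | h | h | h | h | h | h <;> rw [h] at h2 <;> norm_num at h2 <;> omega

theorem key {n : ℕ} (h8 : n % 8 = 3 ∨ n % 8 = 4 ∨ n % 8 = 7) {x y z w : ℤ}
    (hs : x ^ 2 + y ^ 2 + (z ^ 2 + w ^ 2) = n) (ho : n % 2 = 0 → x % 2 = 1 ∧ y % 2 = 1)
    (h3 : ¬ ((3 : ℤ) ∣ x ∧ (3 : ℤ) ∣ y)) (hc : ¬ Nat.Coprime x.natAbs y.natAbs) :
    ∃ p ∈ Pr 5 (Nat.sqrt n), (p : ℤ) ∣ x ∧ (p : ℤ) ∣ y := by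
  obtain ⟨p, hp, hpx, hpy⟩ := Nat.Prime.not_coprime_iff_dvd.mp hc
  have hx : (p : ℤ) ∣ x := Int.natCast_dvd.mpr hpx
  have hy : (p : ℤ) ∣ y := Int.natCast_dvd.mpr hpy
  have hxy : ¬ (x % 2 = 0 ∧ y % 2 = 0) := by
    rintro ⟨h1, h2⟩
    have a1 : x ^ 2 % 4 = 0 := by
      have := sq4 x
      omega
    have a2 : y ^ 2 % 4 = 0 := by
      have := sq4 y
      omega
    have a3 : z ^ 2 % 4 = 0 ∨ z ^ 2 % 4 = 1 := by
      have := sq4 z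
      omega
    have a4 : w ^ 2 % 4 = 0 ∨ w ^ 2 % 4 = 1 := by
      have := sq4 w
      omega
    have a5 : n % 2 = 0 ∨ n % 4 = 3 := by omega
    rcases a5 with a5 | a5
    · have := ho a5
      omega
    · have a6 : (n : ℤ) % 4 = 3 := by omega
      rw [← hs] at a6
      clear hs h8 ho hx hy h3
      omega
  have hp2 : p ≠ 2 := by
    rintro rfl
    apply hxy
    have e : ((2 : ℕ) : ℤ) = 2 := rfl
    rw [e] at hx hy
    constructor <;> omega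
  have hp3 : p ≠ 3 := by
    rintro rfl
    exact h3 ⟨by exact_mod_cast hx, by exact_mod_cast hy⟩
  have hp4 : p ≠ 4 := by
    rintro rfl
    exact absurd hp (by norm_num)
  have hp5 : 5 ≤ p := by
    have := hp.two_le
    omega
  have hsq : ∀ v : ℤ, v ≠ 0 → (p : ℤ) ∣ v → v ^ 2 ≤ n → p ≤ Nat.sqrt n := by
    intro v hv hpv hvn
    rw [Nat.le_sqrt]
    have h1 : (p : ℤ) ≤ |v| := Int.le_of_dvd (abs_pos.mpr hv) ((dvd_abs _ _).mpr hpv)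
    have h2 : (p : ℤ) ^ 2 ≤ v ^ 2 := by
      rw [← sq_abs v]
      exact pow_le_pow_left₀ (by positivity) h1 2
    have h3 : (p : ℤ) * p ≤ n := by nlinarith
    exact_mod_cast h3
  refine ⟨p, ?_, hx, hy⟩
  rw [Pr, mem_filter, mem_Icc]
  refine ⟨⟨hp5, ?_⟩, hp⟩
  by_cases hx0 : x = 0
  · have hy0 : y ≠ 0 := by
      rintro rfl
      exact hxy ⟨by rw [hx0]; rfl, rfl⟩
    exact hsq y hy0 hy (by nlinarith [sq_nonneg x, sq_nonneg z, sq_nonneg w])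
  · exact hsq x hx0 hx (by nlinarith [sq_nonneg y, sq_nonneg z, sq_nonneg w])

theorem finite_Om (n : ℕ) : (Om n).Finite := by
  have hb : ∀ x : ℤ, x ^ 2 ≤ n → x ∈ Icc (-(n : ℤ)) n := by
    intro x h
    rw [mem_Icc]
    constructor <;> nlinarith [sq_nonneg (x - 1), sq_nonneg (x + 1), sq_nonneg x]
  apply Set.Finite.subset (Finset.finite_toSet
    ((Icc (-(n : ℤ)) n ×ˢ Icc (-(n : ℤ)) n) ×ˢ (Icc (-(n : ℤ)) n ×ˢ Icc (-(n : ℤ)) n)))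
  intro u hu
  have h1 : u.1.1 ^ 2 + u.1.2 ^ 2 + (u.2.1 ^ 2 + u.2.2 ^ 2) = (n : ℤ) := hu.1
  rw [mem_coe, mem_product, mem_product, mem_product]
  refine ⟨⟨?_, ?_⟩, ?_, ?_⟩ <;> apply hb <;>
    nlinarith [sq_nonneg u.1.1, sq_nonneg u.1.2, sq_nonneg u.2.1, sq_nonneg u.2.2]

/-- the quadruples with `p` dividing some pair of coordinates, but not the complementary pair, is
bounded by `As` -/
theorem ncard_perm (n p : ℕ) (f : (ℤ × ℤ) × (ℤ × ℤ) → (ℤ × ℤ) × (ℤ × ℤ))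
    (hf : Function.Injective f) (E : Set ((ℤ × ℤ) × (ℤ × ℤ))) (hE : ∀ u ∈ E, f u ∈ As n p) :
    E.ncard ≤ (As n p).ncard := by
  have hfin : (As n p).Finite := (finite_Om n).subset (fun u hu ↦ hu.1)
  exact Set.ncard_le_ncard_of_injOn f hE (hf.injOn) hfin

/-- the quadruples in `Om n` all of whose coordinates are divisible by `p` -/
def All (n p : ℕ) : Set ((ℤ × ℤ) × (ℤ × ℤ)) :=
  {u | u ∈ Om n ∧ (p : ℤ) ∣ u.1.1 ∧ (p : ℤ) ∣ u.1.2 ∧ (p : ℤ) ∣ u.2.1 ∧ (p : ℤ) ∣ u.2.2}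

theorem ncard_All (n p : ℕ) (hp : 0 < p) :
    ((All n p).ncard : ℝ) ≤ if p ^ 2 ∣ n then ((Om (n / p ^ 2)).ncard : ℝ) else 0 := by
  have hp0 : (p : ℤ) ≠ 0 := by exact_mod_cast hp.ne'
  have hdvd : ∀ u ∈ All n p, ∃ v : (ℤ × ℤ) × (ℤ × ℤ), u.1.1 = p * v.1.1 ∧ u.1.2 = p * v.1.2 ∧
      u.2.1 = p * v.2.1 ∧ u.2.2 = p * v.2.2 ∧
      (p : ℤ) ^ 2 * (v.1.1 ^ 2 + v.1.2 ^ 2 + (v.2.1 ^ 2 + v.2.2 ^ 2)) = n := by
    rintro u ⟨hu, ⟨a, ha⟩, ⟨b, hb⟩, ⟨c, hc⟩, ⟨d, hd⟩⟩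
    refine ⟨((a, b), (c, d)), ha, hb, hc, hd, ?_⟩
    have h1 : u.1.1 ^ 2 + u.1.2 ^ 2 + (u.2.1 ^ 2 + u.2.2 ^ 2) = (n : ℤ) := hu.1
    rw [ha, hb, hc, hd] at h1
    rw [← h1]
    ring
  split_ifs with h
  · obtain ⟨k, hk⟩ := h
    have hk' : n / p ^ 2 = k := by
      rw [hk]
      exact Nat.mul_div_cancel_left k (by positivity)
    rw [hk']
    have hnk : (n : ℤ) = (p : ℤ) ^ 2 * k := by exact_mod_cast hk
    have hle : (All n p).ncard ≤ (Om k).ncard := by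
      apply Set.ncard_le_ncard_of_injOn
        (fun u ↦ ((u.1.1 / (p : ℤ), u.1.2 / (p : ℤ)), (u.2.1 / (p : ℤ), u.2.2 / (p : ℤ))))
        ?_ ?_ (finite_Om k)
      · intro u hu
        obtain ⟨v, h1, h2, h3, h4, h5⟩ := hdvd u hu
        have e : (((u.1.1 / (p : ℤ), u.1.2 / (p : ℤ)), (u.2.1 / (p : ℤ), u.2.2 / (p : ℤ))) :
            (ℤ × ℤ) × (ℤ × ℤ)) = v := by
          rw [h1, h2, h3, h4, Int.mul_ediv_cancel_left _ hp0, Int.mul_ediv_cancel_left _ hp0,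
            Int.mul_ediv_cancel_left _ hp0, Int.mul_ediv_cancel_left _ hp0]
        show _ ∈ Om k
        rw [e]
        have hv : v.1.1 ^ 2 + v.1.2 ^ 2 + (v.2.1 ^ 2 + v.2.2 ^ 2) = (k : ℤ) := by
          rw [hnk] at h5
          exact mul_left_cancel₀ (pow_ne_zero 2 hp0) h5
        obtain ⟨q1, q2, q3⟩ := hu.1
        refine ⟨hv, ?_, ?_⟩
        · rw [At3] at q2 ⊢
          rw [h1, h2, h3, h4] at q2
          obtain ⟨r1, r2, r3, r4, r5, r6⟩ := q2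
          refine ⟨fun s ↦ r1 ?_, fun s ↦ r2 ?_, fun s ↦ r3 ?_, fun s ↦ r4 ?_, fun s ↦ r5 ?_,
            fun s ↦ r6 ?_⟩ <;>
            exact ⟨Dvd.dvd.mul_left s.1 _, Dvd.dvd.mul_left s.2 _⟩
        · intro hkev
          have hnev : n % 2 = 0 := by
            rw [hk, Nat.mul_mod, hkev, mul_zero, Nat.zero_mod]
          obtain ⟨_, o1, o2, o3, o4⟩ := q3 hnev
          have hodd : ∀ a b : ℤ, a = p * b → a % 2 = 1 → b % 2 = 1 := by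
            intro a b hab ha
            rcases Int.emod_two_eq_zero_or_one b with hb | hb
            · rw [hab, Int.mul_emod, hb, mul_zero, Int.zero_emod] at ha
              omega
            · exact hb
          exact ⟨hv, hodd _ _ h1 o1, hodd _ _ h2 o2, hodd _ _ h3 o3, hodd _ _ h4 o4⟩
      · intro u hu u' hu' huu
        obtain ⟨v, h1, h2, h3, h4, _⟩ := hdvd u hu
        obtain ⟨v', h1', h2', h3', h4', _⟩ := hdvd u' hu'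
        simp only [Prod.mk.injEq] at huu
        obtain ⟨⟨a, b⟩, c, d⟩ := huu
        rw [h1, h1', Int.mul_ediv_cancel_left _ hp0, Int.mul_ediv_cancel_left _ hp0] at a
        rw [h2, h2', Int.mul_ediv_cancel_left _ hp0, Int.mul_ediv_cancel_left _ hp0] at b
        rw [h3, h3', Int.mul_ediv_cancel_left _ hp0, Int.mul_ediv_cancel_left _ hp0] at c
        rw [h4, h4', Int.mul_ediv_cancel_left _ hp0, Int.mul_ediv_cancel_left _ hp0] at d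
        refine Prod.ext (Prod.ext ?_ ?_) (Prod.ext ?_ ?_)
        · rw [h1, h1', a]
        · rw [h2, h2', b]
        · rw [h3, h3', c]
        · rw [h4, h4', d]
    exact_mod_cast hle
  · have : All n p = ∅ := by
      rw [Set.eq_empty_iff_forall_notMem]
      intro u hu
      obtain ⟨v, _, _, _, _, h5⟩ := hdvd u hu
      apply h
      have h6 : ((p ^ 2 : ℕ) : ℤ) ∣ (n : ℤ) := by
        push_cast
        exact ⟨_, h5.symm⟩
      exact_mod_cast h6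
    rw [this]
    simp

/-- the quadruples in `Om n` with some pair of coordinates divisible by `p` -/
def Som (n p : ℕ) : Set ((ℤ × ℤ) × (ℤ × ℤ)) :=
  {u | u ∈ Om n ∧ (((p : ℤ) ∣ u.1.1 ∧ (p : ℤ) ∣ u.1.2) ∨ ((p : ℤ) ∣ u.1.1 ∧ (p : ℤ) ∣ u.2.1) ∨
    ((p : ℤ) ∣ u.1.1 ∧ (p : ℤ) ∣ u.2.2) ∨ ((p : ℤ) ∣ u.1.2 ∧ (p : ℤ) ∣ u.2.1) ∨
    ((p : ℤ) ∣ u.1.2 ∧ (p : ℤ) ∣ u.2.2) ∨ ((p : ℤ) ∣ u.2.1 ∧ (p : ℤ) ∣ u.2.2))}

/-- the permutations -/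
def pf (i : Fin 6) (u : (ℤ × ℤ) × (ℤ × ℤ)) : (ℤ × ℤ) × (ℤ × ℤ) :=
  match i with
  | 0 => ((u.2.1, u.2.2), (u.1.1, u.1.2))
  | 1 => ((u.1.2, u.2.2), (u.1.1, u.2.1))
  | 2 => ((u.1.2, u.2.1), (u.1.1, u.2.2))
  | 3 => ((u.1.1, u.2.2), (u.1.2, u.2.1))
  | 4 => ((u.1.1, u.2.1), (u.1.2, u.2.2))
  | 5 => ((u.1.1, u.1.2), (u.2.1, u.2.2))

theorem pf_inj (i : Fin 6) : Function.Injective (pf i) := by
  intro u v h
  fin_cases i <;> simp only [pf, Prod.mk.injEq] at h <;>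
    exact Prod.ext (Prod.ext (by tauto) (by tauto)) (Prod.ext (by tauto) (by tauto))

theorem pf_Om (n : ℕ) (i : Fin 6) {u : (ℤ × ℤ) × (ℤ × ℤ)} (hu : u ∈ Om n) : pf i u ∈ Om n := by
  obtain ⟨h1, ⟨a1, a2, a3, a4, a5, a6⟩, h3⟩ := hu
  have h1' : u.1.1 ^ 2 + u.1.2 ^ 2 + (u.2.1 ^ 2 + u.2.2 ^ 2) = (n : ℤ) := h1
  have hq : pf i u ∈ Q4 n := by
    fin_cases i <;> simp only [pf, Q4, Set.mem_ofPred_eq] <;> linarith
  refine ⟨hq, ?_, ?_⟩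
  · fin_cases i <;> refine ⟨?_, ?_, ?_, ?_, ?_, ?_⟩ <;> simp only [pf] <;>
      first
        | assumption
        | (rw [and_comm]; assumption)
  · intro he
    obtain ⟨_, o1, o2, o3, o4⟩ := h3 he
    refine ⟨hq, ?_⟩
    fin_cases i <;> refine ⟨?_, ?_, ?_, ?_⟩ <;> simp only [pf] <;> assumption

theorem ncard_Som (n p : ℕ) : (Som n p).ncard ≤ 6 * (As n p).ncard + (All n p).ncard := by
  have hsub : Som n p ⊆ (⋃ i : Fin 6, {u | pf i u ∈ As n p}) ∪ All n p := by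
    rintro u ⟨hu, h⟩
    by_cases hall : u ∈ All n p
    · exact Or.inr hall
    left
    rw [Set.mem_iUnion]
    have hn : ¬ ((p : ℤ) ∣ u.1.1 ∧ (p : ℤ) ∣ u.1.2 ∧ (p : ℤ) ∣ u.2.1 ∧ (p : ℤ) ∣ u.2.2) :=
      fun h' ↦ hall ⟨hu, h'⟩
    rcases h with h | h | h | h | h | h
    · exact ⟨0, pf_Om n 0 hu, h.1, h.2, fun h' ↦ hn ⟨h.1, h.2, h'.1, h'.2⟩⟩
    · exact ⟨1, pf_Om n 1 hu, h.1, h.2, fun h' ↦ hn ⟨h.1, h'.1, h.2, h'.2⟩⟩
    · exact ⟨2, pf_Om n 2 hu, h.1, h.2, fun h' ↦ hn ⟨h.1, h'.1, h'.2, h.2⟩⟩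
    · exact ⟨3, pf_Om n 3 hu, h.1, h.2, fun h' ↦ hn ⟨h'.1, h.1, h.2, h'.2⟩⟩
    · exact ⟨4, pf_Om n 4 hu, h.1, h.2, fun h' ↦ hn ⟨h'.1, h.1, h'.2, h.2⟩⟩
    · exact ⟨5, pf_Om n 5 hu, h.1, h.2, fun h' ↦ hn ⟨h'.1, h'.2, h.1, h.2⟩⟩
  have hAs : (As n p).Finite := (finite_Om n).subset (fun u hu ↦ hu.1)
  have hfi : ∀ i : Fin 6, {u | pf i u ∈ As n p}.Finite := fun i ↦
    Set.Finite.preimage (pf_inj i).injOn hAs
  have hfU : (⋃ i : Fin 6, {u | pf i u ∈ As n p}).Finite := Set.finite_iUnion hfi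
  have hfA : (All n p).Finite := (finite_Om n).subset (fun u hu ↦ hu.1)
  refine le_trans (Set.ncard_le_ncard hsub (hfU.union hfA)) ?_
  refine le_trans (Set.ncard_union_le _ _) ?_
  have h1 : (⋃ i : Fin 6, {u | pf i u ∈ As n p}).ncard ≤ 6 * (As n p).ncard := by
    have h2 : ∀ i : Fin 6, {u | pf i u ∈ As n p}.ncard ≤ (As n p).ncard := fun i ↦
      ncard_perm n p (pf i) (pf_inj i) _ (fun u hu ↦ hu)
    have h3 := Set.ncard_iUnion_le_of_fintype (fun i : Fin 6 ↦ {u | pf i u ∈ As n p})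
    refine le_trans h3 ?_
    calc ∑ i : Fin 6, {u | pf i u ∈ As n p}.ncard ≤ ∑ _i : Fin 6, (As n p).ncard :=
          Finset.sum_le_sum (fun i _ ↦ h2 i)
      _ = 6 * (As n p).ncard := by simp
  omega

end F1

open F1 in
theorem stUB : StUB := by
  intro n hn hR
  refine ⟨finite_Om n, ?_⟩
  obtain ⟨h8, h3⟩ := hn
  have hcov : Om n ⊆ ⋃ p ∈ Pr 5 (Nat.sqrt n), Som n p := by
    intro u hu
    have hu' := hu
    obtain ⟨h1, ⟨a1, a2, a3, a4, a5, a6⟩, h3⟩ := hu'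
    have h1' : u.1.1 ^ 2 + u.1.2 ^ 2 + (u.2.1 ^ 2 + u.2.2 ^ 2) = (n : ℤ) := h1
    have hodd : n % 2 = 0 → u.1.1 % 2 = 1 ∧ u.1.2 % 2 = 1 ∧ u.2.1 % 2 = 1 ∧ u.2.2 % 2 = 1 :=
      fun he ↦ (h3 he).2
    simp only [Set.mem_iUnion]
    by_cases c1 : Nat.Coprime u.1.1.natAbs u.1.2.natAbs
    swap
    · obtain ⟨p, hp, hx, hy⟩ := key (z := u.2.1) (w := u.2.2) h8 (by linarith)
        (fun he ↦ ⟨(hodd he).1, (hodd he).2.1⟩) a1 c1
      exact ⟨p, hp, hu, Or.inl ⟨hx, hy⟩⟩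
    by_cases c2 : Nat.Coprime u.1.1.natAbs u.2.1.natAbs
    swap
    · obtain ⟨p, hp, hx, hy⟩ := key (z := u.1.2) (w := u.2.2) h8 (by linarith)
        (fun he ↦ ⟨(hodd he).1, (hodd he).2.2.1⟩) a2 c2
      exact ⟨p, hp, hu, Or.inr (Or.inl ⟨hx, hy⟩)⟩
    by_cases c3 : Nat.Coprime u.1.1.natAbs u.2.2.natAbs
    swap
    · obtain ⟨p, hp, hx, hy⟩ := key (z := u.1.2) (w := u.2.1) h8 (by linarith)
        (fun he ↦ ⟨(hodd he).1, (hodd he).2.2.2⟩) a3 c3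
      exact ⟨p, hp, hu, Or.inr (Or.inr (Or.inl ⟨hx, hy⟩))⟩
    by_cases c4 : Nat.Coprime u.1.2.natAbs u.2.1.natAbs
    swap
    · obtain ⟨p, hp, hx, hy⟩ := key (z := u.1.1) (w := u.2.2) h8 (by linarith)
        (fun he ↦ ⟨(hodd he).2.1, (hodd he).2.2.1⟩) a4 c4
      exact ⟨p, hp, hu, Or.inr (Or.inr (Or.inr (Or.inl ⟨hx, hy⟩)))⟩
    by_cases c5 : Nat.Coprime u.1.2.natAbs u.2.2.natAbs
    swap
    · obtain ⟨p, hp, hx, hy⟩ := key (z := u.1.1) (w := u.2.1) h8 (by linarith)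
        (fun he ↦ ⟨(hodd he).2.1, (hodd he).2.2.2⟩) a5 c5
      exact ⟨p, hp, hu, Or.inr (Or.inr (Or.inr (Or.inr (Or.inl ⟨hx, hy⟩))))⟩
    by_cases c6 : Nat.Coprime u.2.1.natAbs u.2.2.natAbs
    swap
    · obtain ⟨p, hp, hx, hy⟩ := key (z := u.1.1) (w := u.1.2) h8 (by linarith)
        (fun he ↦ ⟨(hodd he).2.2.1, (hodd he).2.2.2⟩) a6 c6
      exact ⟨p, hp, hu, Or.inr (Or.inr (Or.inr (Or.inr (Or.inr ⟨hx, hy⟩))))⟩
    exfalso
    apply hR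
    refine ⟨u.1.1.natAbs, u.1.2.natAbs, u.2.1.natAbs, u.2.2.natAbs, ?_, c1, c2, c3, c4, c5, c6⟩
    have h5 : ((u.1.1.natAbs ^ 2 + u.1.2.natAbs ^ 2 + u.2.1.natAbs ^ 2 + u.2.2.natAbs ^ 2 : ℕ) : ℤ)
        = n := by
      push_cast
      rw [sq_abs, sq_abs, sq_abs, sq_abs]
      linarith
    exact_mod_cast h5
  have hfS : ∀ p, (Som n p).Finite := fun p ↦ (finite_Om n).subset (fun u hu ↦ hu.1)
  have h1 : (Om n).ncard ≤ ∑ p ∈ Pr 5 (Nat.sqrt n), (Som n p).ncard := by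
    classical
    refine le_trans (Set.ncard_le_ncard hcov ?_) ?_
    · exact Set.Finite.biUnion (Finset.finite_toSet _) (fun p _ ↦ hfS p)
    · have h2 : ∀ s : Finset ℕ, (⋃ p ∈ s, Som n p).ncard ≤ ∑ p ∈ s, (Som n p).ncard := by
        intro s
        induction s using Finset.induction_on with
        | empty => simp
        | insert a s ha ih =>
          rw [Finset.set_biUnion_insert, Finset.sum_insert ha]
          exact le_trans (Set.ncard_union_le _ _) (by omega)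
      exact h2 _
  have h2 : ((Om n).ncard : ℝ) ≤ ∑ p ∈ Pr 5 (Nat.sqrt n), ((Som n p).ncard : ℝ) := by
    exact_mod_cast h1
  refine le_trans h2 (Finset.sum_le_sum ?_)
  intro p hp
  rw [Pr, mem_filter, mem_Icc] at hp
  have h3 : ((Som n p).ncard : ℝ) ≤ 6 * ((As n p).ncard : ℝ) + ((All n p).ncard : ℝ) := by
    exact_mod_cast ncard_Som n p
  have h4 := ncard_All n p (by omega)
  linarith

end Pool.Agent.TFS
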