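import Pool.Agent.Lib.TFS.StmtsF

/-!
Group F2: transfer of the bad quadruples at `p` to pairs of Gaussian integers.
Blueprint: team-store `tfs_F.md`.
-/

set_option autoImplicit false

open Finset MeasureTheory

namespace Pool.Agent.TFS

open Pool.Agent.Lib.MP_0e0027_nt

namespace F2

lemma sq3 (a : ℤ) : ((3 : ℤ) ∣ a ∧ a ^ 2 % 3 = 0) ∨ (¬ (3 : ℤ) ∣ a ∧ a ^ 2 % 3 = 1) := by
  have h : a % 3 = 0 ∨ a % 3 = 1 ∨ a % 3 = 2 := by omega
  rcases h with h | h | h
  · left
    exact ⟨Int.dvd_of_emod_eq_zero h, by rw [pow_two, Int.mul_emod, h]; norm_num⟩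
  · right
    refine ⟨by omega, ?_⟩
    rw [pow_two, Int.mul_emod, h]; norm_num
  · right
    refine ⟨by omega, ?_⟩
    rw [pow_two, Int.mul_emod, h]; norm_num

lemma sq8 (a : ℤ) (h : a % 2 = 1) : a ^ 2 % 8 = 1 := by
  have h8 : a % 8 = 1 ∨ a % 8 = 3 ∨ a % 8 = 5 ∨ a % 8 = 7 := by omega
  rcases h8 with h8 | h8 | h8 | h8 <;> rw [pow_two, Int.mul_emod, h8] <;> norm_num

lemma sq4 (a : ℤ) (h : a % 2 = 0) : a ^ 2 % 4 = 0 := by
  have h8 : a % 4 = 0 ∨ a % 4 = 2 := by omega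
  rcases h8 with h8 | h8 <;> rw [pow_two, Int.mul_emod, h8] <;> norm_num

/-- division by `1 + i` -/
def rot (x : GI) : GI := ⟨(x.re + x.im) / 2, (x.im - x.re) / 2⟩

lemma rot_spec (x : GI) (h : (x.re + x.im) % 2 = 0) :
    x.re = (rot x).re - (rot x).im ∧ x.im = (rot x).re + (rot x).im := by
  unfold rot
  simp only
  omega

lemma N2_rot (x : GI) (h : (x.re + x.im) % 2 = 0) : N2 x = 2 * N2 (rot x) := by
  obtain ⟨h1, h2⟩ := rot_spec x h
  unfold N2
  generalize (rot x).re = a at h1 h2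
  generalize (rot x).im = b at h1 h2
  rw [h1, h2]
  ring

lemma fin_ball (B : ℤ) : ({x : GI | N2 x ≤ B}).Finite := by
  have h1 : ((Set.Icc (-B) B) ×ˢ (Set.Icc (-B) B)).Finite :=
    (Set.finite_Icc _ _).prod (Set.finite_Icc _ _)
  refine Set.Finite.of_finite_image (f := fun x : GI ↦ ((x.re, x.im) : ℤ × ℤ)) ?_ ?_
  · refine h1.subset ?_
    rintro _ ⟨x, hx, rfl⟩
    simp only [Set.mem_ofPred_eq, N2] at hx
    simp only [Set.mem_prod, Set.mem_Icc]
    refine ⟨⟨?_, ?_⟩, ⟨?_, ?_⟩⟩ <;> nlinarith [sq_nonneg x.re, sq_nonneg x.im,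
      sq_nonneg (x.re - 1), sq_nonneg (x.re + 1), sq_nonneg (x.im - 1), sq_nonneg (x.im + 1),
      Int.le_self_sq x.re, Int.le_self_sq x.im, Int.le_self_sq (-x.re), Int.le_self_sq (-x.im)]
  · intro x _ y _ hxy
    exact Zsqrtd.ext (congrArg Prod.fst hxy) (congrArg Prod.snd hxy)

lemma N2_nonneg (x : GI) : 0 ≤ N2 x := by
  unfold N2
  positivity

lemma fin_pairs (k : ℤ) (hk : 1 ≤ k) (B : ℤ) : ({u : GI × GI | N2 u.1 + k * N2 u.2 = B}).Finite := by
  refine ((fin_ball B).prod (fin_ball B)).subset ?_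
  rintro ⟨x, y⟩ h
  simp only [Set.mem_ofPred_eq] at h
  have h1 := N2_nonneg x
  have h2 := N2_nonneg y
  simp only [Set.mem_prod, Set.mem_ofPred_eq]
  constructor <;> nlinarith

lemma fin_NS (par m κ p ν : ℕ) (hκ : 1 ≤ κ) (hp : 1 ≤ p) : (NS par m κ p ν).Finite := by
  have h1 : (1 : ℤ) ≤ κ * p ^ 2 := by
    have : 1 ≤ κ * p ^ 2 := Nat.one_le_iff_ne_zero.mpr (by positivity)
    exact_mod_cast this
  refine (fin_pairs (κ * p ^ 2) h1 ν).subset ?_
  rintro u ⟨-, -, -, h⟩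
  exact h

lemma fin_NC (p ν : ℕ) (hp : 1 ≤ p) : (NC p ν).Finite := by
  have h1 : (1 : ℤ) ≤ p ^ 2 := by
    have : 1 ≤ p ^ 2 := Nat.one_le_iff_ne_zero.mpr (by positivity)
    exact_mod_cast this
  refine (fin_pairs (p ^ 2) h1 ν).subset ?_
  rintro u ⟨-, -, h⟩
  exact h

/-- the first component -/
def fx (u : (ℤ × ℤ) × (ℤ × ℤ)) : GI := ⟨u.1.1, u.1.2⟩

/-- the second component divided by `p` -/
def fy (p : ℕ) (u : (ℤ × ℤ) × (ℤ × ℤ)) : GI := ⟨u.2.1 / p, u.2.2 / p⟩

lemma fy_spec {n p : ℕ} {u : (ℤ × ℤ) × (ℤ × ℤ)} (hu : u ∈ As n p) :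
    u.2.1 = p * (fy p u).re ∧ u.2.2 = p * (fy p u).im :=
  ⟨(Int.mul_ediv_cancel' hu.2.1).symm, (Int.mul_ediv_cancel' hu.2.2.1).symm⟩

lemma eq_of {n p : ℕ} {u v : (ℤ × ℤ) × (ℤ × ℤ)} (hu : u ∈ As n p) (hv : v ∈ As n p)
    (h1 : fx u = fx v) (h2 : fy p u = fy p v) : u = v := by
  obtain ⟨a1, a2⟩ := fy_spec hu
  obtain ⟨b1, b2⟩ := fy_spec hv
  rw [h2] at a1 a2
  have c1 : u.1.1 = v.1.1 := congrArg Zsqrtd.re h1
  have c2 : u.1.2 = v.1.2 := congrArg Zsqrtd.im h1
  exact Prod.ext (Prod.ext c1 c2) (Prod.ext (a1.trans b1.symm) (a2.trans b2.symm))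

lemma rot_inj {x y : GI} (hx : (x.re + x.im) % 2 = 0) (hy : (y.re + y.im) % 2 = 0)
    (h : rot x = rot y) : x = y := by
  obtain ⟨a1, a2⟩ := rot_spec x hx
  obtain ⟨b1, b2⟩ := rot_spec y hy
  rw [h] at a1 a2
  exact Zsqrtd.ext (a1.trans b1.symm) (a2.trans b2.symm)

lemma norm_eq {n p : ℕ} {u : (ℤ × ℤ) × (ℤ × ℤ)} (hu : u ∈ As n p) :
    N2 (fx u) + (p : ℤ) ^ 2 * N2 (fy p u) = n := by
  obtain ⟨a1, a2⟩ := fy_spec hu
  have h : u.1.1 ^ 2 + u.1.2 ^ 2 + (u.2.1 ^ 2 + u.2.2 ^ 2) = n := hu.1.1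
  rw [a1, a2] at h
  rw [← h]
  unfold N2
  simp only [fx]
  ring

lemma not_dv {n p : ℕ} {u : (ℤ × ℤ) × (ℤ × ℤ)} (hu : u ∈ As n p) : ¬ dv p (fx u) := hu.2.2.2

/-- condition modulo 3 -/
lemma mod3 {n p : ℕ} {u : (ℤ × ℤ) × (ℤ × ℤ)} (hu : u ∈ As n p) :
    (n % 3 = 1 → N2 (fx u) % 3 = 2) ∧ (n % 3 = 0 → N2 (fx u) % 3 ≠ 0) := by
  have h : u.1.1 ^ 2 + u.1.2 ^ 2 + (u.2.1 ^ 2 + u.2.2 ^ 2) = n := hu.1.1
  obtain ⟨t1, t2, t3, t4, t5, t6⟩ := hu.1.2.1
  have e1 := sq3 u.1.1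
  have e2 := sq3 u.1.2
  have e3 := sq3 u.2.1
  have e4 := sq3 u.2.2
  unfold N2
  simp only [fx]
  generalize u.1.1 ^ 2 = A at *
  generalize u.1.2 ^ 2 = B at *
  generalize u.2.1 ^ 2 = C at *
  generalize u.2.2 ^ 2 = D at *
  rcases e1 with ⟨d1, e1⟩ | ⟨d1, e1⟩ <;> rcases e2 with ⟨d2, e2⟩ | ⟨d2, e2⟩ <;>
    rcases e3 with ⟨d3, e3⟩ | ⟨d3, e3⟩ <;> rcases e4 with ⟨d4, e4⟩ | ⟨d4, e4⟩ <;> omega

end F2

open F2 in
/-- F2: transfer to Gaussian integers -/
theorem stAN : StAN := by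
  intro n p hp hp5 hA
  obtain ⟨hA8, hA3⟩ := hA
  have hp1 : 1 ≤ p := by omega
  have hp2 : (p : ℤ) % 2 = 1 := by
    have := hp.eq_two_or_odd
    omega
  -- parity of the second components
  have hpar : ∀ (a : ℤ), (p * a) % 2 = 1 → a % 2 = 1 := by
    intro a ha
    rw [Int.mul_emod, hp2] at ha
    omega
  -- the even case
  have hev : ∀ u ∈ As n p, n % 2 = 0 → ((fx u).re + (fx u).im) % 2 = 0 ∧
      ((fy p u).re + (fy p u).im) % 2 = 0 ∧ N2 (fx u) = 2 * N2 (rot (fx u)) ∧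
      N2 (fy p u) = 2 * N2 (rot (fy p u)) ∧ ¬ dv p (rot (fx u)) ∧ N2 (fy p u) % 2 = 0 ∧
      N2 (fy p u) % 8 = 2 ∧ N2 (fx u) % 8 = 2 := by
    intro u hu hn
    obtain ⟨-, o1, o2, o3, o4⟩ := hu.1.2.2 hn
    obtain ⟨a1, a2⟩ := fy_spec hu
    have q1 : ((fx u).re + (fx u).im) % 2 = 0 := by
      simp only [fx]
      omega
    have o3' := o3
    have o4' := o4
    rw [a1] at o3'
    rw [a2] at o4'
    have r1 := hpar _ o3'
    have r2 := hpar _ o4'
    have q2 : ((fy p u).re + (fy p u).im) % 2 = 0 := by omega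
    have s1 := sq8 _ r1
    have s2 := sq8 _ r2
    have s3 := sq8 _ o1
    have s4 := sq8 _ o2
    have hN : N2 (fy p u) % 8 = 2 := by
      unfold N2
      omega
    have hN' : N2 (fx u) % 8 = 2 := by
      unfold N2
      simp only [fx]
      omega
    refine ⟨q1, q2, N2_rot _ q1, N2_rot _ q2, ?_, by omega, hN, hN'⟩
    rintro ⟨d1, d2⟩
    obtain ⟨e1, e2⟩ := rot_spec _ q1
    refine not_dv hu ⟨?_, ?_⟩
    · rw [e1]
      exact dvd_sub d1 d2
    · rw [e2]
      exact dvd_add d1 d2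
  refine ⟨?_, ?_, ?_⟩
  · -- odd `n`
    intro hn
    have hnu : nu n = n := by unfold nu; rw [if_pos hn]
    rw [hnu]
    have hUM : ∀ u ∈ As n p, UM (mm n) (fx u) := by
      intro u hu
      obtain ⟨m1, m0⟩ := mod3 hu
      unfold UM mm
      by_cases h3 : n % 3 = 0
      · rw [if_pos h3]
        simp only [OfNat.ofNat_ne_one, ↓reduceIte]
        exact m0 h3
      · rw [if_neg h3, if_pos hn]
        simp only [↓reduceIte]
        exact m1 (by omega)
    have hcov : As n p ⊆ {u ∈ As n p | u.1.1 % 2 = 1 ∧ u.1.2 % 2 = 1} ∪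
        {u ∈ As n p | ¬ (u.1.1 % 2 = 1 ∧ u.1.2 % 2 = 1)} := by
      intro u hu
      by_cases h : u.1.1 % 2 = 1 ∧ u.1.2 % 2 = 1
      · exact Or.inl ⟨hu, h⟩
      · exact Or.inr ⟨hu, h⟩
    have hAs : (As n p).Finite := by
      refine Set.Finite.of_finite_image (f := fun u ↦ (fx u, fy p u)) ?_ ?_
      · refine (fin_pairs (p ^ 2) (by
          have : 1 ≤ p ^ 2 := Nat.one_le_iff_ne_zero.mpr (by positivity)
          exact_mod_cast this) n).subset ?_
        rintro _ ⟨u, hu, rfl⟩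
        exact norm_eq hu
      · intro u hu v hv huv
        exact eq_of hu hv (congrArg Prod.fst huv) (congrArg Prod.snd huv)
    have hle := (Set.ncard_le_ncard hcov (((hAs.subset (Set.sep_subset _ _)).union
      (hAs.subset (Set.sep_subset _ _))))).trans (Set.ncard_union_le _ _)
    refine hle.trans (Nat.add_le_add ?_ ?_)
    · refine Set.ncard_le_ncard_of_injOn (fun u ↦ (fx u, fy p u)) ?_ ?_
        (fin_NS _ _ _ _ _ le_rfl hp1)
      · rintro u ⟨hu, ho1, ho2⟩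
        refine ⟨?_, hUM u hu, not_dv hu, ?_⟩
        · show N2 (fx u) % 4 = 2
          have e1 := sq8 _ ho1
          have e2 := sq8 _ ho2
          unfold N2
          simp only [fx]
          omega
        · have := norm_eq hu
          simp only [Nat.cast_one, one_mul]
          exact this
      · rintro u ⟨hu, -⟩ v ⟨hv, -⟩ huv
        exact eq_of hu hv (congrArg Prod.fst huv) (congrArg Prod.snd huv)
    · -- one even coordinate in the first pair
      have hodd : ∀ u ∈ {u ∈ As n p | ¬ (u.1.1 % 2 = 1 ∧ u.1.2 % 2 = 1)},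
          u.2.1 % 2 = 1 ∧ u.2.2 % 2 = 1 := by
        rintro u ⟨hu, ho⟩
        have h : u.1.1 ^ 2 + u.1.2 ^ 2 + (u.2.1 ^ 2 + u.2.2 ^ 2) = n := hu.1.1
        have o1 := sq8 u.1.1
        have o2 := sq8 u.1.2
        have o3 := sq8 u.2.1
        have o4 := sq8 u.2.2
        have z1 := sq4 u.1.1
        have z2 := sq4 u.1.2
        have z3 := sq4 u.2.1
        have z4 := sq4 u.2.2
        generalize u.1.1 ^ 2 = A at *
        generalize u.1.2 ^ 2 = B at *
        generalize u.2.1 ^ 2 = C at *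
        generalize u.2.2 ^ 2 = D at *
        omega
      have hyodd : ∀ u ∈ {u ∈ As n p | ¬ (u.1.1 % 2 = 1 ∧ u.1.2 % 2 = 1)},
          ((fy p u).re + (fy p u).im) % 2 = 0 := by
        intro u hu
        obtain ⟨q1, q2⟩ := hodd u hu
        obtain ⟨a1, a2⟩ := fy_spec hu.1
        rw [a1] at q1
        rw [a2] at q2
        have r1 := hpar _ q1
        have r2 := hpar _ q2
        omega
      refine Set.ncard_le_ncard_of_injOn (fun u ↦ (fx u, rot (fy p u))) ?_ ?_
        (fin_NS _ _ _ _ _ (by norm_num) hp1)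
      · intro u hu
        refine ⟨?_, hUM u hu.1, not_dv hu.1, ?_⟩
        · obtain ⟨q1, q2⟩ := hodd u hu
          have e1 := sq8 _ q1
          have e2 := sq8 _ q2
          have h : u.1.1 ^ 2 + u.1.2 ^ 2 + (u.2.1 ^ 2 + u.2.2 ^ 2) = n := hu.1.1.1
          unfold UP pt
          by_cases h8 : n % 8 = 3
          · rw [if_pos h8]
            simp only [OfNat.ofNat_ne_one, ↓reduceIte]
            unfold N2
            simp only [fx]
            omega
          · rw [if_neg h8]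
            simp only [OfNat.ofNat_ne_one, ↓reduceIte, Nat.reduceEqDiff]
            unfold N2
            simp only [fx]
            omega
        · have h1 := norm_eq hu.1
          have h2 := N2_rot _ (hyodd u hu)
          show N2 (fx u) + ((2 : ℕ) : ℤ) * (p : ℤ) ^ 2 * N2 (rot (fy p u)) = n
          rw [← h1, h2]
          push_cast
          ring
      · intro u hu v hv huv
        exact eq_of hu.1 hv.1 (congrArg Prod.fst huv)
          (rot_inj (hyodd u hu) (hyodd v hv) (congrArg Prod.snd huv))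
  · -- even `n`
    intro hn
    have hn8 : n % 8 = 4 := by omega
    have hnu : nu n = n / 2 := by unfold nu; rw [if_neg (by omega)]
    rw [hnu]
    refine Set.ncard_le_ncard_of_injOn (fun u ↦ (rot (fx u), rot (fy p u))) ?_ ?_
      (fin_NS _ _ _ _ _ le_rfl hp1)
    · intro u hu
      obtain ⟨q1, q2, h1, h2, h3, h4, h5, h6⟩ := hev u hu hn
      refine ⟨?_, ?_, h3, ?_⟩
      · show N2 (rot (fx u)) % 2 = 1
        omega
      · obtain ⟨m1, m0⟩ := mod3 hu
        unfold UM mm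
        by_cases h3 : n % 3 = 0
        · rw [if_pos h3]
          simp only [OfNat.ofNat_ne_one, ↓reduceIte]
          have := m0 h3
          omega
        · rw [if_neg h3, if_neg (show ¬ n % 2 = 1 by omega)]
          simp only [OfNat.ofNat_ne_one, ↓reduceIte, Nat.reduceEqDiff]
          have := m1 (by omega)
          omega
      · show N2 (rot (fx u)) + ((1 : ℕ) : ℤ) * (p : ℤ) ^ 2 * N2 (rot (fy p u)) = ((n / 2 : ℕ) : ℤ)
        have h4 := norm_eq hu
        rw [h1, h2] at h4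
        have h5 : 2 * (N2 (rot (fx u)) + ((1 : ℕ) : ℤ) * (p : ℤ) ^ 2 * N2 (rot (fy p u))) = n := by
          rw [← h4]
          push_cast
          ring
        omega
    · intro u hu v hv huv
      obtain ⟨q1, q2, -⟩ := hev u hu hn
      obtain ⟨r1, r2, -⟩ := hev v hv hn
      exact eq_of hu hv (rot_inj q1 r1 (congrArg Prod.fst huv))
        (rot_inj q2 r2 (congrArg Prod.snd huv))
  · by_cases hn : n % 2 = 1
    · have hnu : nu n = n := by unfold nu; rw [if_pos hn]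
      rw [hnu]
      refine Set.ncard_le_ncard_of_injOn (fun u ↦ (fx u, fy p u)) ?_ ?_ (fin_NC _ _ hp1)
      · intro u hu
        refine ⟨not_dv hu, ?_, norm_eq hu⟩
        show fy p u ≠ 0
        intro h0
        have h1 := norm_eq hu
        rw [h0] at h1
        have h2 : N2 (0 : GI) = 0 := rfl
        rw [h2, mul_zero, add_zero] at h1
        unfold N2 at h1
        have o1 := sq8 (fx u).re
        have o2 := sq8 (fx u).im
        have z1 := sq4 (fx u).re
        have z2 := sq4 (fx u).im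
        generalize (fx u).re ^ 2 = A at *
        generalize (fx u).im ^ 2 = B at *
        omega
      · intro u hu v hv huv
        exact eq_of hu hv (congrArg Prod.fst huv) (congrArg Prod.snd huv)
    · have hn0 : n % 2 = 0 := by omega
      have hnu : nu n = n / 2 := by unfold nu; rw [if_neg hn]
      rw [hnu]
      refine Set.ncard_le_ncard_of_injOn (fun u ↦ (rot (fx u), rot (fy p u))) ?_ ?_
        (fin_NC _ _ hp1)
      · intro u hu
        obtain ⟨q1, q2, h1, h2, h3, h4, h5, h6⟩ := hev u hu hn0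
        refine ⟨h3, ?_, ?_⟩
        · show rot (fy p u) ≠ 0
          intro h0
          rw [h0] at h2
          have h7 : N2 (0 : GI) = 0 := rfl
          rw [h7] at h2
          omega
        · show N2 (rot (fx u)) + (p : ℤ) ^ 2 * N2 (rot (fy p u)) = ((n / 2 : ℕ) : ℤ)
          have h4 := norm_eq hu
          rw [h1, h2] at h4
          have h5 : 2 * (N2 (rot (fx u)) + (p : ℤ) ^ 2 * N2 (rot (fy p u))) = n := by
            rw [← h4]
            ring
          omega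
      · intro u hu v hv huv
        obtain ⟨q1, q2, -⟩ := hev u hu hn0
        obtain ⟨r1, r2, -⟩ := hev v hv hn0
        exact eq_of hu hv (rot_inj q1 r1 (congrArg Prod.fst huv))
          (rot_inj q2 r2 (congrArg Prod.snd huv))

end Pool.Agent.TFS
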