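import Pool.Agent.Lib.TFS.StmtsF

/-!
TFS, module F3: the number of quadruples admissible at 2 and 3 (`StOmc`), from Jacobi's theorem.
-/

set_option autoImplicit false

open Finset

namespace Pool.Agent.TFS

open Pool.Agent.Lib.MP_0e0027_nt

namespace F3

/-! ### arithmetic: `σ` and `gs` -/

theorem gs_pos_ne (m : ℕ) (h2 : m.Coprime 6) :
    (m : ℝ) * gs m 6 = (ArithmeticFunction.sigma 1 m : ℕ) := by
  have h1 : (m.divisors.filter (fun e ↦ e.Coprime 6)) = m.divisors := by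
    apply Finset.filter_true_of_mem
    intro e he
    exact Nat.Coprime.coprime_dvd_left (Nat.dvd_of_mem_divisors he) h2
  rw [gs, h1, ArithmeticFunction.sigma_one_apply, Finset.mul_sum, Nat.cast_sum,
    ← Nat.sum_div_divisors m (fun d => ((d : ℕ) : ℝ))]
  apply Finset.sum_congr rfl
  intro e he
  have he' := Nat.dvd_of_mem_divisors he
  have he0 : (e : ℝ) ≠ 0 := by
    have := Nat.pos_of_mem_divisors he
    positivity
  rw [Nat.cast_div he' he0]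
  ring

/-- factors prime to `m` do not change `gs` -/
theorem gs_mul (k m : ℕ) (hk : k ≠ 0) (h : ∀ e : ℕ, e.Coprime 6 → e.Coprime k) :
    gs (k * m) 6 = gs m 6 := by
  rcases Nat.eq_zero_or_pos m with rfl | hm
  · simp
  unfold gs
  congr 1
  ext e
  simp only [Finset.mem_filter, Nat.mem_divisors]
  constructor
  · rintro ⟨⟨h1, -⟩, h2⟩
    exact ⟨⟨(h e h2).dvd_of_dvd_mul_left h1, hm.ne'⟩, h2⟩
  · rintro ⟨⟨h1, -⟩, h2⟩
    exact ⟨⟨Dvd.dvd.mul_left h1 k, by positivity⟩, h2⟩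

theorem gs_two (m : ℕ) : gs (2 * m) 6 = gs m 6 := by
  apply gs_mul 2 m (by norm_num)
  intro e he
  exact Nat.Coprime.coprime_dvd_right (by norm_num) he

theorem gs_three_pow (a m : ℕ) : gs (3 ^ a * m) 6 = gs m 6 := by
  apply gs_mul (3 ^ a) m (by positivity)
  intro e he
  exact Nat.Coprime.pow_right a (Nat.Coprime.coprime_dvd_right (by norm_num) he)

theorem sigma_one_not3 (m : ℕ) (h2 : m % 2 = 1) (h3 : m % 3 ≠ 0) :
    ((ArithmeticFunction.sigma 1 m : ℕ) : ℝ) = m * gs m 6 := by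
  refine (gs_pos_ne m ?_).symm
  rw [show (6 : ℕ) = 2 * 3 by norm_num]
  apply Nat.Coprime.mul_right
  · rw [Nat.coprime_comm, Nat.Prime.coprime_iff_not_dvd Nat.prime_two]; omega
  · rw [Nat.coprime_comm, Nat.Prime.coprime_iff_not_dvd Nat.prime_three]; omega

theorem sigma_three (m : ℕ) (h2 : m % 2 = 1) (h3 : m % 3 = 0) :
    ((ArithmeticFunction.sigma 1 m : ℕ) : ℝ) -
      (if 9 ∣ m then ((ArithmeticFunction.sigma 1 (m / 9) : ℕ) : ℝ) else 0) =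
      4 / 3 * m * gs m 6 := by
  have hm : m ≠ 0 := by omega
  obtain ⟨a, m₀, h4, h5⟩ := Nat.exists_eq_pow_mul_and_not_dvd hm 3 (by norm_num)
  have h6 : m₀ % 2 = 1 := by
    by_contra h
    have : 2 ∣ m := by
      rw [h5]; exact Dvd.dvd.mul_left (by omega) _
    omega
  have h7 : m₀ % 3 ≠ 0 := by omega
  have h8 := sigma_one_not3 m₀ h6 h7
  have hcop : ∀ b : ℕ, (3 ^ b).gcd m₀ = 1 := by
    intro b
    apply Nat.Coprime.pow_left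
    rw [Nat.Prime.coprime_iff_not_dvd Nat.prime_three]; exact h4
  have hmul : ∀ b : ℕ, ArithmeticFunction.sigma 1 (3 ^ b * m₀) =
      ArithmeticFunction.sigma 1 (3 ^ b) * ArithmeticFunction.sigma 1 m₀ := fun b =>
    ArithmeticFunction.isMultiplicative_sigma.map_mul_of_coprime (hcop b)
  have hs : ∀ b : ℕ, ArithmeticFunction.sigma 1 (3 ^ b) = ∑ k ∈ Finset.range (b + 1), 3 ^ k :=
    fun b => ArithmeticFunction.sigma_one_apply_prime_pow Nat.prime_three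
  rcases a with _ | _ | a
  · exfalso
    rw [pow_zero, one_mul] at h5
    omega
  · have h9 : ¬ 9 ∣ m := by
      rw [h5]; omega
    rw [if_neg h9, h5, hmul, hs, gs_three_pow, Nat.cast_mul, h8]
    simp [Finset.sum_range_succ]
    ring
  · have h9 : 9 ∣ m := by
      rw [h5]; exact Dvd.dvd.mul_right ⟨3 ^ a, by ring⟩ _
    have h10 : m / 9 = 3 ^ a * m₀ := by
      rw [h5, show 3 ^ (a + 1 + 1) * m₀ = 9 * (3 ^ a * m₀) by ring]
      exact Nat.mul_div_cancel_left _ (by norm_num)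
    rw [if_pos h9, h10, h5, hmul, hmul, hs, hs, gs_three_pow, Nat.cast_mul, Nat.cast_mul, h8]
    rw [Finset.sum_range_succ, Finset.sum_range_succ]
    push_cast
    ring

/-! ### residues modulo 3 -/

/-- all relevant quadruples -/
def QQ (n : ℕ) : Set ((ℤ × ℤ) × (ℤ × ℤ)) := {u | u ∈ Q4 n ∧ (n % 2 = 0 → u ∈ Q4o n)}

/-- the first pair is divisible by 3 -/
def D1 (u : (ℤ × ℤ) × (ℤ × ℤ)) : Prop := (3 : ℤ) ∣ u.1.1 ∧ (3 : ℤ) ∣ u.1.2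

/-- the second pair is divisible by 3 -/
def D2 (u : (ℤ × ℤ) × (ℤ × ℤ)) : Prop := (3 : ℤ) ∣ u.2.1 ∧ (3 : ℤ) ∣ u.2.2

theorem sq3 (a : ℤ) : ((3 : ℤ) ∣ a ∧ a ^ 2 % 3 = 0) ∨ (¬ (3 : ℤ) ∣ a ∧ a ^ 2 % 3 = 1) := by
  obtain ⟨q, h | h | h⟩ : ∃ q, a = 3 * q ∨ a = 3 * q + 1 ∨ a = 3 * q + 2 := ⟨a / 3, by omega⟩
  · left
    refine ⟨by omega, ?_⟩
    rw [h, show (3 * q) ^ 2 = 3 * (3 * q ^ 2) by ring]; omega
  · right
    refine ⟨by omega, ?_⟩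
    rw [h, show (3 * q + 1) ^ 2 = 3 * (3 * q ^ 2 + 2 * q) + 1 by ring]; omega
  · right
    refine ⟨by omega, ?_⟩
    rw [h, show (3 * q + 2) ^ 2 = 3 * (3 * q ^ 2 + 4 * q + 1) + 1 by ring]; omega

theorem sq8 (a : ℤ) : (a % 2 = 0 ∧ a ^ 2 % 4 = 0) ∨ (a % 2 = 1 ∧ a ^ 2 % 8 = 1) := by
  obtain ⟨q, h | h⟩ : ∃ q, a = 2 * q ∨ a = 2 * q + 1 := ⟨a / 2, by omega⟩
  · left
    refine ⟨by omega, ?_⟩
    rw [h, show (2 * q) ^ 2 = 4 * q ^ 2 by ring]; omega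
  · right
    refine ⟨by omega, ?_⟩
    obtain ⟨r, hr⟩ : ∃ r, q * (q + 1) = 2 * r := by
      obtain ⟨r, h | h⟩ : ∃ r, q = 2 * r ∨ q = 2 * r + 1 := ⟨q / 2, by omega⟩
      · exact ⟨r * (q + 1), by rw [h]; ring⟩
      · exact ⟨q * (r + 1), by rw [h]; ring⟩
    rw [h, show (2 * q + 1) ^ 2 = 4 * (q * (q + 1)) + 1 by ring, hr]; omega

theorem at3_zero {n : ℕ} (hn : n % 3 = 0) {u : (ℤ × ℤ) × (ℤ × ℤ)} (hu : u ∈ Q4 n) :
    At3 u ↔ ¬ (D1 u ∧ D2 u) := by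
  obtain ⟨⟨a, b⟩, c, d⟩ := u
  simp only [Q4, Set.mem_ofPred_eq] at hu
  simp only [At3, D1, D2]
  have ha := sq3 a
  have hb := sq3 b
  have hc := sq3 c
  have hd := sq3 d
  generalize a ^ 2 = A at *
  generalize b ^ 2 = B at *
  generalize c ^ 2 = C at *
  generalize d ^ 2 = D at *
  rcases ha with ⟨ha, ha'⟩ | ⟨ha, ha'⟩ <;> rcases hb with ⟨hb, hb'⟩ | ⟨hb, hb'⟩ <;>
    rcases hc with ⟨hc, hc'⟩ | ⟨hc, hc'⟩ <;> rcases hd with ⟨hd, hd'⟩ | ⟨hd, hd'⟩ <;>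
    simp only [ha, hb, hc, hd] <;> first | (exfalso; omega) | simp

theorem at3_one {n : ℕ} (hn : n % 3 = 1) {u : (ℤ × ℤ) × (ℤ × ℤ)} (hu : u ∈ Q4 n) :
    (At3 u ↔ (¬ D1 u ∧ ¬ D2 u)) ∧ ¬ (D1 u ∧ D2 u) := by
  obtain ⟨⟨a, b⟩, c, d⟩ := u
  simp only [Q4, Set.mem_ofPred_eq] at hu
  simp only [At3, D1, D2]
  have ha := sq3 a
  have hb := sq3 b
  have hc := sq3 c
  have hd := sq3 d
  generalize a ^ 2 = A at *
  generalize b ^ 2 = B at *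
  generalize c ^ 2 = C at *
  generalize d ^ 2 = D at *
  rcases ha with ⟨ha, ha'⟩ | ⟨ha, ha'⟩ <;> rcases hb with ⟨hb, hb'⟩ | ⟨hb, hb'⟩ <;>
    rcases hc with ⟨hc, hc'⟩ | ⟨hc, hc'⟩ <;> rcases hd with ⟨hd, hd'⟩ | ⟨hd, hd'⟩ <;>
    simp only [ha, hb, hc, hd] <;> first | (exfalso; omega) | simp

/-! ### cardinality of `QQ` -/

/-- the odd part of the argument -/
def mo (n : ℕ) : ℕ := if n % 2 = 1 then n else n / 4

/-- the factor in Jacobi's theorem -/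
def cc (n : ℕ) : ℕ := if n % 2 = 1 then 8 else 16

theorem mo_odd {n : ℕ} (h : n % 8 = 3 ∨ n % 8 = 4 ∨ n % 8 = 7) : mo n % 2 = 1 := by
  unfold mo; split <;> omega

theorem mo_mul {n : ℕ} (h : n % 8 = 3 ∨ n % 8 = 4 ∨ n % 8 = 7) :
    cc n * mo n = 8 * nu n := by
  unfold mo cc nu; split <;> omega

theorem gs_mo {n : ℕ} (h : n % 8 = 3 ∨ n % 8 = 4 ∨ n % 8 = 7) :
    gs (mo n) 6 = gs (nu n) 6 := by
  unfold mo nu
  split
  · rfl
  · rw [← gs_two]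
    congr 1
    omega

theorem QQ_ncard (hJ : StJac) (hO : StJacO) {n : ℕ} (h : n % 8 = 3 ∨ n % 8 = 4 ∨ n % 8 = 7) :
    (QQ n).ncard = cc n * ArithmeticFunction.sigma 1 (mo n) := by
  by_cases h2 : n % 2 = 1
  · have h3 : QQ n = Q4 n := by
      ext u
      simp only [QQ, Set.mem_ofPred_eq]
      constructor
      · exact fun hu => hu.1
      · exact fun hu => ⟨hu, fun h => by omega⟩
    rw [h3, cc, mo, if_pos h2, if_pos h2]
    exact hJ n h2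
  · have h3 : QQ n = Q4o n := by
      ext u
      simp only [QQ, Set.mem_ofPred_eq]
      constructor
      · exact fun hu => hu.2 (by omega)
      · exact fun hu => ⟨hu.1, fun h => hu⟩
    rw [h3, cc, mo, if_neg h2, if_neg h2]
    have h4 := hO (n / 4) (by omega)
    have h5 : (4 * ((n / 4 : ℕ) : ℤ)) = (n : ℤ) := by omega
    rw [h5] at h4
    exact h4

theorem QQ_finite (hJ : StJac) (hO : StJacO) {n : ℕ} (h : n % 8 = 3 ∨ n % 8 = 4 ∨ n % 8 = 7) :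
    (QQ n).Finite := by
  apply Set.finite_of_ncard_pos
  rw [QQ_ncard hJ hO h]
  have h1 : 0 < cc n := by unfold cc; split <;> norm_num
  have h2 : 0 < ArithmeticFunction.sigma 1 (mo n) := by
    have := mo_odd h
    rw [ArithmeticFunction.sigma_one_apply]
    apply Finset.sum_pos
    · intro i hi
      exact Nat.pos_of_mem_divisors hi
    · exact ⟨1, by simp; omega⟩
  positivity

/-! ### `n` divisible by 3 -/

/-- multiplication by 3 -/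
def tr (u : (ℤ × ℤ) × (ℤ × ℤ)) : (ℤ × ℤ) × (ℤ × ℤ) :=
  ((3 * u.1.1, 3 * u.1.2), (3 * u.2.1, 3 * u.2.2))

theorem tr_inj : Function.Injective tr := by
  rintro ⟨⟨a, b⟩, c, d⟩ ⟨⟨a', b'⟩, c', d'⟩ h
  simp only [tr, Prod.mk.injEq] at h ⊢
  omega

theorem T_nine {n : ℕ} (h9 : 9 ∣ n) :
    {u | u ∈ QQ n ∧ D1 u ∧ D2 u} = tr '' QQ (n / 9) := by
  ext ⟨⟨a, b⟩, c, d⟩
  simp only [QQ, Q4, Q4o, D1, D2, Set.mem_ofPred_eq, Set.mem_image, tr, Prod.exists, Prod.mk.injEq]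
  constructor
  · rintro ⟨⟨h1, h2⟩, ⟨⟨a', rfl⟩, ⟨b', rfl⟩⟩, ⟨⟨c', rfl⟩, ⟨d', rfl⟩⟩⟩
    refine ⟨a', b', c', d', ⟨?_, ?_⟩, ⟨rfl, rfl⟩, rfl, rfl⟩
    · have : 9 * (a' ^ 2 + b' ^ 2 + (c' ^ 2 + d' ^ 2)) = (n : ℤ) := by rw [← h1]; ring
      omega
    · intro h3
      obtain ⟨-, h4, h5, h6, h7⟩ := h2 (by omega)
      have : 9 * (a' ^ 2 + b' ^ 2 + (c' ^ 2 + d' ^ 2)) = (n : ℤ) := by rw [← h1]; ring
      refine ⟨by omega, by omega, by omega, by omega, by omega⟩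
  · rintro ⟨a', b', c', d', ⟨h1, h2⟩, ⟨rfl, rfl⟩, rfl, rfl⟩
    have h0 : (3 * a') ^ 2 + (3 * b') ^ 2 + ((3 * c') ^ 2 + (3 * d') ^ 2) = (n : ℤ) := by
      have : 9 * (a' ^ 2 + b' ^ 2 + (c' ^ 2 + d' ^ 2)) = (n : ℤ) := by
        rw [h1]; omega
      rw [← this]; ring
    refine ⟨⟨h0, ?_⟩, ⟨⟨_, rfl⟩, ⟨_, rfl⟩⟩, ⟨⟨_, rfl⟩, ⟨_, rfl⟩⟩⟩
    intro h3
    obtain ⟨-, h4, h5, h6, h7⟩ := h2 (by omega)
    exact ⟨h0, by omega, by omega, by omega, by omega⟩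

theorem T_not_nine {n : ℕ} (h9 : ¬ 9 ∣ n) :
    {u | u ∈ QQ n ∧ D1 u ∧ D2 u} = ∅ := by
  ext ⟨⟨a, b⟩, c, d⟩
  simp only [QQ, Q4, D1, D2, Set.mem_ofPred_eq, Set.mem_empty_iff_false, iff_false]
  rintro ⟨⟨h1, h2⟩, ⟨⟨a', rfl⟩, ⟨b', rfl⟩⟩, ⟨⟨c', rfl⟩, ⟨d', rfl⟩⟩⟩
  have : 9 * (a' ^ 2 + b' ^ 2 + (c' ^ 2 + d' ^ 2)) = (n : ℤ) := by rw [← h1]; ring
  omega

theorem case_zero (hJ : StJac) (hO : StJacO) {n : ℕ} (h : n % 8 = 3 ∨ n % 8 = 4 ∨ n % 8 = 7)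
    (h3 : n % 3 = 0) : ((Om n).ncard : ℝ) = 32 / 3 * nu n * gs (nu n) 6 := by
  have hf := QQ_finite hJ hO h
  have hsub : {u | u ∈ QQ n ∧ D1 u ∧ D2 u} ⊆ QQ n := fun u hu => hu.1
  have hOm : Om n = QQ n \ {u | u ∈ QQ n ∧ D1 u ∧ D2 u} := by
    ext u
    simp only [Om, Set.mem_ofPred_eq, Set.mem_sdiff, QQ]
    constructor
    · rintro ⟨h1, h2, h4⟩
      refine ⟨⟨h1, h4⟩, ?_⟩
      rintro ⟨-, h5⟩
      exact (at3_zero h3 h1).1 h2 h5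
    · rintro ⟨⟨h1, h4⟩, h5⟩
      exact ⟨h1, (at3_zero h3 h1).2 fun h6 => h5 ⟨⟨h1, h4⟩, h6⟩, h4⟩
  have hcard : (Om n).ncard + ({u | u ∈ QQ n ∧ D1 u ∧ D2 u}).ncard = (QQ n).ncard := by
    rw [hOm]
    exact Set.ncard_sdiff_add_ncard_of_subset hsub hf
  have hT : (({u | u ∈ QQ n ∧ D1 u ∧ D2 u}).ncard : ℝ) =
      cc n * (if 9 ∣ mo n then ((ArithmeticFunction.sigma 1 (mo n / 9) : ℕ) : ℝ) else 0) := by
    have h9' : 9 ∣ mo n ↔ 9 ∣ n := by unfold mo; split <;> omega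
    by_cases h9 : 9 ∣ n
    · rw [T_nine h9, Set.ncard_image_of_injective _ tr_inj, if_pos (h9'.2 h9),
        QQ_ncard hJ hO (by omega)]
      have h4 : cc (n / 9) = cc n := by unfold cc; congr 1; simp; omega
      have h5 : mo (n / 9) = mo n / 9 := by unfold mo; split <;> split <;> omega
      rw [h4, h5]
      push_cast
      ring
    · rw [T_not_nine h9, if_neg (fun h => h9 (h9'.1 h))]
      simp
  have hQ := QQ_ncard hJ hO h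
  have hs := sigma_three (mo n) (mo_odd h) (by unfold mo; split <;> omega)
  have hm := mo_mul h
  have hg := gs_mo h
  have e1 : ((Om n).ncard : ℝ) + ({u | u ∈ QQ n ∧ D1 u ∧ D2 u}).ncard = (QQ n).ncard := by
    exact_mod_cast hcard
  have e2 : ((QQ n).ncard : ℝ) = cc n * ((ArithmeticFunction.sigma 1 (mo n) : ℕ) : ℝ) := by
    exact_mod_cast hQ
  have e3 : (cc n : ℝ) * mo n = 8 * nu n := by exact_mod_cast hm
  have e4 : ((Om n).ncard : ℝ) = cc n * (4 / 3 * mo n * gs (mo n) 6) := by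
    rw [← hs]
    linear_combination e1 + e2 - hT
  rw [e4, hg]
  linear_combination (4 / 3 * gs (nu n) 6) * e3

/-! ### `n` prime to 3 -/

/-- the first map, `n` odd -/
def f1 (u : GI × GI) : (ℤ × ℤ) × (ℤ × ℤ) := ((u.1.re, u.1.im), (3 * u.2.re, 3 * u.2.im))

/-- the second map, `n` odd -/
def f2 (u : GI × GI) : (ℤ × ℤ) × (ℤ × ℤ) :=
  ((u.1.re, u.1.im), (3 * (u.2.re - u.2.im), 3 * (u.2.re + u.2.im)))

/-- the map for even `n` -/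
def f3 (u : GI × GI) : (ℤ × ℤ) × (ℤ × ℤ) :=
  ((u.1.re - u.1.im, u.1.re + u.1.im), (3 * (u.2.re - u.2.im), 3 * (u.2.re + u.2.im)))

theorem f1_inj : Function.Injective f1 := by
  rintro ⟨⟨a, b⟩, ⟨c, d⟩⟩ ⟨⟨a', b'⟩, ⟨c', d'⟩⟩ h
  simp only [f1, Prod.mk.injEq] at h
  obtain ⟨⟨h1, h2⟩, h3, h4⟩ := h
  have e3 : c = c' := by omega
  have e4 : d = d' := by omega
  rw [h1, h2, e3, e4]

theorem f2_inj : Function.Injective f2 := by
  rintro ⟨⟨a, b⟩, ⟨c, d⟩⟩ ⟨⟨a', b'⟩, ⟨c', d'⟩⟩ h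
  simp only [f2, Prod.mk.injEq] at h
  obtain ⟨⟨h1, h2⟩, h3, h4⟩ := h
  have e3 : c = c' := by omega
  have e4 : d = d' := by omega
  rw [h1, h2, e3, e4]

theorem f3_inj : Function.Injective f3 := by
  rintro ⟨⟨a, b⟩, ⟨c, d⟩⟩ ⟨⟨a', b'⟩, ⟨c', d'⟩⟩ h
  simp only [f3, Prod.mk.injEq] at h
  obtain ⟨⟨h1, h2⟩, h3, h4⟩ := h
  have e1 : a = a' := by omega
  have e2 : b = b' := by omega
  have e3 : c = c' := by omega
  have e4 : d = d' := by omega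
  rw [e1, e2, e3, e4]

theorem um_zero (x : GI) : UM 0 x := by simp [UM]

theorem A_odd {n : ℕ} (h : n % 4 = 3) (h3 : n % 3 = 1) :
    {u | u ∈ QQ n ∧ D2 u} = f1 '' NS 1 0 1 3 n ∪ f2 '' NS (pt n) 0 2 3 n := by
  ext ⟨⟨a, b⟩, c, d⟩
  constructor
  · rintro ⟨⟨h1, -⟩, ⟨c', rfl⟩, ⟨d', rfl⟩⟩
    simp only [Q4, Set.mem_ofPred_eq] at h1
    have hsum : a ^ 2 + b ^ 2 + 9 * (c' ^ 2 + d' ^ 2) = (n : ℤ) := by rw [← h1]; ring
    have hdv : ¬ dv ((3 : ℕ) : ℤ) (⟨a, b⟩ : GI) := by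
      rintro ⟨⟨a', ha'⟩, ⟨b', hb'⟩⟩
      simp only at ha' hb'
      rw [ha', hb'] at hsum
      have : 3 * (3 * (a' ^ 2 + b' ^ 2) + 3 * (c' ^ 2 + d' ^ 2)) = (n : ℤ) := by
        rw [← hsum]; push_cast; ring
      omega
    by_cases hab : a % 2 = 1 ∧ b % 2 = 1
    · left
      refine ⟨(⟨a, b⟩, ⟨c', d'⟩), ⟨?_, um_zero _, hdv, ?_⟩, rfl⟩
      · have ha := sq8 a
        have hb := sq8 b
        simp only [UP, N2, if_true]
        omega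
      · simp only [N2]
        push_cast
        linear_combination hsum
    · right
      have ha := sq8 a
      have hb := sq8 b
      have hc := sq8 c'
      have hd := sq8 d'
      have hcd : c' % 2 = 1 ∧ d' % 2 = 1 := by omega
      obtain ⟨r, hr⟩ : ∃ r, c' + d' = 2 * r := ⟨(c' + d') / 2, by omega⟩
      obtain ⟨s, hs⟩ : ∃ s, d' - c' = 2 * s := ⟨(d' - c') / 2, by omega⟩
      have ec : c' = r - s := by omega
      have ed : d' = r + s := by omega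
      have hcd2 : c' ^ 2 + d' ^ 2 = 2 * (r ^ 2 + s ^ 2) := by rw [ec, ed]; ring
      refine ⟨(⟨a, b⟩, ⟨r, s⟩), ⟨?_, um_zero _, hdv, ?_⟩, ?_⟩
      · have hn : n % 8 = 3 ∨ n % 8 = 7 := by omega
        unfold pt
        split
        · simp only [UP, N2]
          norm_num
          omega
        · simp only [UP, N2]
          norm_num
          omega
      · simp only [N2]
        push_cast
        rw [← hsum, hcd2]; ring
      · simp only [f2, Prod.mk.injEq]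
        exact ⟨trivial, by rw [ec], by rw [ed]⟩
  · rintro (⟨⟨⟨x, y⟩, ⟨z, w⟩⟩, ⟨-, -, -, hu⟩, he⟩ | ⟨⟨⟨x, y⟩, ⟨z, w⟩⟩, ⟨-, -, -, hu⟩, he⟩)
    · simp only [f1, Prod.mk.injEq] at he
      obtain ⟨⟨rfl, rfl⟩, rfl, rfl⟩ := he
      simp only [N2] at hu
      push_cast at hu
      refine ⟨⟨?_, fun h0 => by omega⟩, ⟨_, rfl⟩, ⟨_, rfl⟩⟩
      simp only [Q4, Set.mem_ofPred_eq]
      rw [← hu]; ring
    · simp only [f2, Prod.mk.injEq] at he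
      obtain ⟨⟨rfl, rfl⟩, rfl, rfl⟩ := he
      simp only [N2] at hu
      push_cast at hu
      refine ⟨⟨?_, fun h0 => by omega⟩, ⟨_, rfl⟩, ⟨_, rfl⟩⟩
      simp only [Q4, Set.mem_ofPred_eq]
      rw [← hu]; ring

theorem A_disj {n : ℕ} : Disjoint (f1 '' NS 1 0 1 3 n) (f2 '' NS (pt n) 0 2 3 n) := by
  rw [Set.disjoint_left]
  rintro _ ⟨⟨⟨x, y⟩, ⟨z, w⟩⟩, ⟨h1, -, -, -⟩, rfl⟩ ⟨⟨⟨x', y'⟩, ⟨z', w'⟩⟩, ⟨h2, -, -, -⟩, he⟩
  simp only [f1, f2, Prod.mk.injEq] at he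
  obtain ⟨⟨rfl, rfl⟩, -⟩ := he
  simp only [UP, N2, if_true] at h1
  revert h2
  unfold pt
  split
  · simp only [UP, N2]
    norm_num
    omega
  · simp only [UP, N2]
    norm_num
    omega

theorem A_even {n : ℕ} (h : n % 8 = 4) (h3 : n % 3 = 1) :
    {u | u ∈ QQ n ∧ D2 u} = f3 '' NS 4 0 1 3 (n / 2) := by
  ext ⟨⟨a, b⟩, c, d⟩
  constructor
  · rintro ⟨⟨h1, h2⟩, ⟨c', rfl⟩, ⟨d', rfl⟩⟩
    obtain ⟨-, ha1, hb1, hc1, hd1⟩ := h2 (by omega)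
    simp only at ha1 hb1 hc1 hd1
    simp only [Q4, Set.mem_ofPred_eq] at h1
    have hsum : a ^ 2 + b ^ 2 + 9 * (c' ^ 2 + d' ^ 2) = (n : ℤ) := by rw [← h1]; ring
    have ha := sq8 a
    have hb := sq8 b
    have hc := sq8 c'
    have hd := sq8 d'
    obtain ⟨r, hr⟩ : ∃ r, c' + d' = 2 * r := ⟨(c' + d') / 2, by omega⟩
    obtain ⟨s, hs⟩ : ∃ s, d' - c' = 2 * s := ⟨(d' - c') / 2, by omega⟩
    have ec : c' = r - s := by omega
    have ed : d' = r + s := by omega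
    have hcd2 : c' ^ 2 + d' ^ 2 = 2 * (r ^ 2 + s ^ 2) := by rw [ec, ed]; ring
    obtain ⟨p, hp⟩ : ∃ r, a + b = 2 * r := ⟨(a + b) / 2, by omega⟩
    obtain ⟨q, hq⟩ : ∃ s, b - a = 2 * s := ⟨(b - a) / 2, by omega⟩
    have ea : a = p - q := by omega
    have eb : b = p + q := by omega
    have hab2 : a ^ 2 + b ^ 2 = 2 * (p ^ 2 + q ^ 2) := by rw [ea, eb]; ring
    have hn2 : (((n / 2 : ℕ) : ℤ)) * 2 = n := by omega
    have hsum2 : p ^ 2 + q ^ 2 + 9 * (r ^ 2 + s ^ 2) = ((n / 2 : ℕ) : ℤ) := by omega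
    refine ⟨(⟨p, q⟩, ⟨r, s⟩), ⟨?_, um_zero _, ?_, ?_⟩, ?_⟩
    · simp only [UP, N2]
      norm_num
      omega
    · rintro ⟨⟨a', ha'⟩, ⟨b', hb'⟩⟩
      simp only at ha' hb'
      rw [ha', hb'] at hsum2
      have : 3 * (3 * (a' ^ 2 + b' ^ 2) + 3 * (r ^ 2 + s ^ 2)) = ((n / 2 : ℕ) : ℤ) := by
        rw [← hsum2]; push_cast; ring
      omega
    · simp only [N2]
      rw [← hsum2]; push_cast; ring
    · simp only [f3, Prod.mk.injEq]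
      refine ⟨⟨ea.symm, eb.symm⟩, by rw [ec], by rw [ed]⟩
  · rintro ⟨⟨⟨x, y⟩, ⟨z, w⟩⟩, ⟨h1, -, -, hu⟩, he⟩
    simp only [f3, Prod.mk.injEq] at he
    obtain ⟨⟨rfl, rfl⟩, rfl, rfl⟩ := he
    simp only [N2] at hu
    have hu' : x ^ 2 + y ^ 2 + 9 * (z ^ 2 + w ^ 2) = ((n / 2 : ℕ) : ℤ) := by
      rw [← hu]; push_cast; ring
    simp only [UP, N2] at h1
    norm_num at h1
    have hx := sq8 x
    have hy := sq8 y
    have hz := sq8 z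
    have hw := sq8 w
    have h0 : (x - y, x + y).1 ^ 2 + (x - y, x + y).2 ^ 2 +
      ((3 * (z - w)) ^ 2 + (3 * (z + w)) ^ 2) = (n : ℤ) := by
      have : 2 * (x ^ 2 + y ^ 2 + 9 * (z ^ 2 + w ^ 2)) = (n : ℤ) := by rw [hu']; omega
      rw [← this]; ring
    refine ⟨⟨h0, fun _ => ⟨h0, ?_, ?_, ?_, ?_⟩⟩, ⟨_, rfl⟩, ⟨_, rfl⟩⟩ <;> simp only <;> omega

/-- exchange of the pairs -/
def sw (u : (ℤ × ℤ) × (ℤ × ℤ)) : (ℤ × ℤ) × (ℤ × ℤ) := (u.2, u.1)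

theorem sw_inj : Function.Injective sw := by
  rintro ⟨a, b⟩ ⟨a', b'⟩ h
  simp only [sw, Prod.mk.injEq] at h
  rw [h.1, h.2]

theorem B_sw {n : ℕ} : {u | u ∈ QQ n ∧ D1 u} = sw '' {u | u ∈ QQ n ∧ D2 u} := by
  have key : ∀ u, u ∈ QQ n → sw u ∈ QQ n := by
    rintro ⟨⟨a, b⟩, c, d⟩ ⟨h1, h2⟩
    have h1' : sw ((a, b), (c, d)) ∈ Q4 n := by
      simp only [Q4, Set.mem_ofPred_eq, sw] at h1 ⊢
      rw [← h1]; ring
    refine ⟨h1', fun h0 => ?_⟩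
    obtain ⟨-, g1, g2, g3, g4⟩ := h2 h0
    exact ⟨h1', g3, g4, g1, g2⟩
  ext u
  constructor
  · rintro ⟨h1, h2⟩
    exact ⟨sw u, ⟨key u h1, h2⟩, rfl⟩
  · rintro ⟨v, ⟨h1, h2⟩, rfl⟩
    exact ⟨key v h1, h2⟩

theorem case_one (hJ : StJac) (hO : StJacO) {n : ℕ} (h : n % 8 = 3 ∨ n % 8 = 4 ∨ n % 8 = 7)
    (h3 : n % 3 = 1) : ((Om n).ncard : ℝ) = 8 * nu n * gs (nu n) 6 - 2 * N3 n := by
  have hf := QQ_finite hJ hO h
  have hsub1 : {u | u ∈ QQ n ∧ D1 u} ⊆ QQ n := fun u hu => hu.1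
  have hsub2 : {u | u ∈ QQ n ∧ D2 u} ⊆ QQ n := fun u hu => hu.1
  have hOm : Om n = QQ n \ ({u | u ∈ QQ n ∧ D1 u} ∪ {u | u ∈ QQ n ∧ D2 u}) := by
    ext u
    simp only [Om, Set.mem_ofPred_eq, Set.mem_sdiff, QQ, Set.mem_union]
    constructor
    · rintro ⟨h1, h2, h4⟩
      obtain ⟨g1, g2⟩ := (at3_one h3 h1).1.1 h2
      refine ⟨⟨h1, h4⟩, ?_⟩
      rintro (⟨-, h5⟩ | ⟨-, h5⟩)
      · exact g1 h5
      · exact g2 h5
    · rintro ⟨⟨h1, h4⟩, h5⟩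
      refine ⟨h1, (at3_one h3 h1).1.2 ⟨fun h6 => h5 (Or.inl ⟨⟨h1, h4⟩, h6⟩),
        fun h6 => h5 (Or.inr ⟨⟨h1, h4⟩, h6⟩)⟩, h4⟩
  have hdisj : Disjoint {u | u ∈ QQ n ∧ D1 u} {u | u ∈ QQ n ∧ D2 u} := by
    rw [Set.disjoint_left]
    rintro u ⟨h1, h2⟩ ⟨-, h4⟩
    exact (at3_one h3 h1.1).2 ⟨h2, h4⟩
  have hcard : (Om n).ncard + (({u | u ∈ QQ n ∧ D1 u}).ncard + ({u | u ∈ QQ n ∧ D2 u}).ncard) =
      (QQ n).ncard := by
    rw [hOm, ← Set.ncard_union_eq hdisj (hf.subset hsub1) (hf.subset hsub2)]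
    exact Set.ncard_sdiff_add_ncard_of_subset (Set.union_subset hsub1 hsub2) hf
  have hB : ({u | u ∈ QQ n ∧ D1 u}).ncard = ({u | u ∈ QQ n ∧ D2 u}).ncard := by
    rw [B_sw, Set.ncard_image_of_injective _ sw_inj]
  have hA : (({u | u ∈ QQ n ∧ D2 u}).ncard : ℝ) = N3 n := by
    unfold N3
    by_cases h2 : n % 2 = 1
    · rw [if_pos h2]
      have hA := A_odd (n := n) (by omega) h3
      have hfin := hf.subset hsub2
      rw [hA] at hfin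
      rw [hA, Set.ncard_union_eq A_disj (hfin.subset Set.subset_union_left)
        (hfin.subset Set.subset_union_right), Set.ncard_image_of_injective _ f1_inj,
        Set.ncard_image_of_injective _ f2_inj, nu, if_pos h2]
      push_cast
      ring
    · rw [if_neg h2, A_even (by omega) h3, Set.ncard_image_of_injective _ f3_inj, nu, if_neg h2]
  have hQ := QQ_ncard hJ hO h
  have hs := sigma_one_not3 (mo n) (mo_odd h) (by unfold mo; split <;> omega)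
  have hm := mo_mul h
  have hg := gs_mo h
  have e1 : ((Om n).ncard : ℝ) + (({u | u ∈ QQ n ∧ D1 u}).ncard +
      ({u | u ∈ QQ n ∧ D2 u}).ncard) = (QQ n).ncard := by
    exact_mod_cast hcard
  have e2 : ((QQ n).ncard : ℝ) = cc n * ((ArithmeticFunction.sigma 1 (mo n) : ℕ) : ℝ) := by
    exact_mod_cast hQ
  have e3 : (cc n : ℝ) * mo n = 8 * nu n := by exact_mod_cast hm
  rw [hs, hg] at e2
  rw [hB, hA] at e1
  linear_combination e1 + e2 + gs (nu n) 6 * e3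

end F3

/-- F3: the number of quadruples admissible at 2 and 3 -/
theorem stOmc (hJ : StJac) (hO : StJacO) : StOmc := by
  intro n hn
  exact ⟨F3.case_zero hJ hO hn.1, F3.case_one hJ hO hn.1⟩

end Pool.Agent.TFS
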