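import Pool.Agent.Lib.TFS.StmtsF

/-!
F5: the master inequality (assembly).
-/

set_option autoImplicit false

open Finset MeasureTheory

namespace Pool.Agent.TFS

open Pool.Agent.Lib.MP_0e0027_nt

namespace F5Aux

theorem mem_Pr {a b p : ℕ} : p ∈ Pr a b ↔ (a ≤ p ∧ p ≤ b) ∧ p.Prime := by
  unfold Pr
  rw [mem_filter, mem_Icc]

theorem sum_Pr (a b c : ℕ) (f : ℕ → ℝ) (h1 : a ≤ b + 1) (h2 : b ≤ c) :
    ∑ p ∈ Pr a c, f p = ∑ p ∈ Pr a b, f p + ∑ p ∈ Pr (b + 1) c, f p := by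
  rw [← sum_union]
  · congr 1
    ext p
    rw [mem_union, mem_Pr, mem_Pr, mem_Pr]
    constructor
    · rintro ⟨⟨h3, h4⟩, h5⟩
      by_cases h6 : p ≤ b
      · exact Or.inl ⟨⟨h3, h6⟩, h5⟩
      · exact Or.inr ⟨⟨by omega, h4⟩, h5⟩
    · rintro (⟨⟨h3, h4⟩, h5⟩ | ⟨⟨h3, h4⟩, h5⟩)
      · exact ⟨⟨h3, by omega⟩, h5⟩
      · exact ⟨⟨by omega, h4⟩, h5⟩
  · rw [disjoint_left]
    intro p hp hq
    rw [mem_Pr] at hp hq
    omega

/-! ### the sum of `p^(-3/2)` -/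

/-- `p^(-3/2)` -/
noncomputable def w (p : ℕ) : ℝ := 1 / ((p : ℝ) * √(p : ℝ))

theorem w_nonneg (p : ℕ) : 0 ≤ w p := by
  unfold w
  positivity

theorem w_tel {m : ℕ} (hm : 2 ≤ m) :
    w m ≤ 1 / √((m : ℝ) - 1) - 1 / √((m : ℝ) + 1) := by
  have hm' : (2 : ℝ) ≤ m := by exact_mod_cast hm
  set a := √((m : ℝ) - 1) with ha
  set b := √((m : ℝ) + 1) with hb
  set c := √(m : ℝ) with hc
  have ha0 : 0 < a := Real.sqrt_pos.2 (by linarith)
  have hb0 : 0 < b := Real.sqrt_pos.2 (by linarith)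
  have hc0 : 0 < c := Real.sqrt_pos.2 (by linarith)
  have ha2 : a ^ 2 = m - 1 := Real.sq_sqrt (by linarith)
  have hb2 : b ^ 2 = m + 1 := Real.sq_sqrt (by linarith)
  have hc2 : c ^ 2 = m := Real.sq_sqrt (by linarith)
  have h1 : a * b ≤ c ^ 2 := by nlinarith [sq_nonneg (a - b)]
  have h2 : a + b ≤ 2 * c := by
    rw [← pow_le_pow_iff_left₀ (by positivity) (by positivity) two_ne_zero]
    nlinarith [sq_nonneg (a - b)]
  have hab : a ≤ b := Real.sqrt_le_sqrt (by linarith)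
  have h3 : 1 ≤ c * (b - a) := by
    have h4 : (a + b) * (b - a) = 2 := by linear_combination hb2 - ha2
    have h5 : (a + b) * (b - a) ≤ (2 * c) * (b - a) :=
      mul_le_mul_of_nonneg_right h2 (by linarith)
    linarith
  have h4 : c ^ 2 * 1 ≤ c ^ 2 * (c * (b - a)) := mul_le_mul_of_nonneg_left h3 (by positivity)
  unfold w
  rw [← hc, div_sub_div _ _ ha0.ne' hb0.ne', div_le_div_iff₀ (by positivity) (by positivity)]
  have h5 : (m : ℝ) * c = c ^ 2 * c := by rw [hc2]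
  rw [h5]
  linarith

theorem w_tail (J : ℕ) : ∑ j ∈ range J, w (257 + 2 * j) ≤ 1 / 16 - 1 / √(256 + 2 * J : ℝ) := by
  induction J with
  | zero =>
    have h : √(256 + 2 * ((0 : ℕ) : ℝ)) = 16 := by
      rw [Nat.cast_zero, mul_zero, add_zero, show (256 : ℝ) = 16 ^ 2 by norm_num,
        Real.sqrt_sq (by norm_num)]
    rw [h]
    simp
  | succ J ih =>
    rw [sum_range_succ]
    have h := w_tel (m := 257 + 2 * J) (by omega)
    push_cast at h ⊢
    rw [show (257 + 2 * (J : ℝ) - 1) = 256 + 2 * J by ring,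
      show (257 + 2 * (J : ℝ) + 1) = 256 + 2 * (J + 1) by ring] at h
    linarith

/-- approximation of the square root -/
def aq (p : ℕ) : ℚ := if p < 8 then 12 / 5 else if p < 16 then 7 / 2 else if p < 32 then 24 / 5
  else if p < 64 then 34 / 5 else if p < 128 then 48 / 5 else 68 / 5

theorem aq_pos (p : ℕ) : 0 < aq p := by
  unfold aq
  split_ifs <;> norm_num

theorem small_q : ∑ p ∈ (Icc 5 256).filter Nat.Prime,
    ((1 / (2 * (p : ℚ))) * (1 / aq p + aq p / p)) ≤ 2875 / 10000 := by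
  decide +kernel

theorem w_le_q {p : ℕ} (hp : 1 ≤ p) :
    w p ≤ (((1 / (2 * (p : ℚ))) * (1 / aq p + aq p / p) : ℚ) : ℝ) := by
  have ha : (0 : ℝ) < aq p := by exact_mod_cast aq_pos p
  have hp0 : (0 : ℝ) < p := by exact_mod_cast hp
  have hs : 0 < √(p : ℝ) := Real.sqrt_pos.2 hp0
  have hs2 : √(p : ℝ) ^ 2 = p := Real.sq_sqrt hp0.le
  push_cast
  set a : ℝ := (aq p : ℝ)
  set s := √(p : ℝ) with hsd
  unfold w
  rw [← hsd]
  have h1 : 1 / s ≤ (1 / a + a / p) / 2 := by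
    rw [← hs2]
    rw [div_add_div _ _ ha.ne' (by positivity), div_div, div_le_div_iff₀ hs (by positivity)]
    nlinarith [sq_nonneg (a - s)]
  have h2 : 1 / ((p : ℝ) * s) = 1 / p * (1 / s) := by
    rw [one_div_mul_one_div]
  rw [h2]
  have h3 := mul_le_mul_of_nonneg_left h1 (show (0 : ℝ) ≤ 1 / p by positivity)
  refine h3.trans (le_of_eq ?_)
  field_simp

theorem sum_w (P : ℕ) : ∑ p ∈ Pr 5 P, w p ≤ 0.35 := by
  have h1 : ∑ p ∈ Pr 5 256, w p ≤ 0.2875 := by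
    refine (sum_le_sum fun p hp => w_le_q (by have := (mem_Pr.1 hp).2.pos; omega)).trans ?_
    have h2 := small_q
    have h3 : ((∑ p ∈ (Icc 5 256).filter Nat.Prime,
      ((1 / (2 * (p : ℚ))) * (1 / aq p + aq p / p)) : ℚ) : ℝ) ≤ ((2875 / 10000 : ℚ) : ℝ) := by
      exact_mod_cast h2
    rw [Rat.cast_sum] at h3
    refine (h3.trans ?_)
    norm_num
  have h2 : ∑ p ∈ Pr 257 P, w p ≤ 1 / 16 := by
    have h3 : ∑ p ∈ Pr 257 P, w p ≤ ∑ p ∈ (range P).image (fun j => 257 + 2 * j), w p := by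
      refine sum_le_sum_of_subset_of_nonneg ?_ fun p _ _ => w_nonneg p
      intro p hp
      rw [mem_Pr] at hp
      rw [mem_image]
      have hodd : p % 2 = 1 := by
        rcases hp.2.eq_two_or_odd with h | h
        · omega
        · exact h
      exact ⟨(p - 257) / 2, mem_range.2 (by omega), by omega⟩
    refine h3.trans ?_
    rw [sum_image (fun a _ b _ h => by simpa using h)]
    refine (w_tail P).trans ?_
    have : 0 ≤ 1 / √(256 + 2 * (P : ℝ)) := by positivity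
    linarith
  by_cases hP : P ≤ 256
  · have h3 : ∑ p ∈ Pr 5 P, w p ≤ ∑ p ∈ Pr 5 256, w p := by
      refine sum_le_sum_of_subset_of_nonneg ?_ fun p _ _ => w_nonneg p
      intro p hp
      rw [mem_Pr] at hp ⊢
      exact ⟨⟨hp.1.1, by omega⟩, hp.2⟩
    norm_num at h1 ⊢
    linarith
  · rw [sum_Pr 5 256 P w (by norm_num) (by omega)]
    norm_num at h1 h2 ⊢
    linarith

/-! ### arithmetic of `n` and `n / p²` -/

theorem sq_mod {p : ℕ} (hp : p.Prime) (h5 : 5 ≤ p) : p ^ 2 % 24 = 1 := by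
  have h2 : p % 2 ≠ 0 := by
    intro h
    have := (Nat.prime_dvd_prime_iff_eq Nat.prime_two hp).1 (Nat.dvd_of_mod_eq_zero h)
    omega
  have h3 : p % 3 ≠ 0 := by
    intro h
    have := (Nat.prime_dvd_prime_iff_eq Nat.prime_three hp).1 (Nat.dvd_of_mod_eq_zero h)
    omega
  rw [Nat.pow_mod]
  have h : p % 24 < 24 := Nat.mod_lt _ (by norm_num)
  have h4 : p % 24 % 2 ≠ 0 := by omega
  have h6 : p % 24 % 3 ≠ 0 := by omega
  generalize p % 24 = r at h h4 h6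
  interval_cases r <;> omega

theorem mod_div {p m : ℕ} (hp : p.Prime) (h5 : 5 ≤ p) : (p ^ 2 * m) % 24 = m % 24 := by
  rw [Nat.mul_mod, sq_mod hp h5, one_mul, Nat.mod_mod]

theorem nu_mul {p m : ℕ} (hp : p.Prime) (h5 : 5 ≤ p) (hm : Ex.Adm m) :
    nu (p ^ 2 * m) = p ^ 2 * nu m := by
  have h := mod_div (m := m) hp h5
  unfold nu
  have h2 : (p ^ 2 * m) % 2 = m % 2 := by omega
  rw [h2]
  split_ifs with h3
  · rfl
  · have h4 : m = 2 * (m / 2) := by omega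
    conv_lhs => rw [h4]
    rw [show p ^ 2 * (2 * (m / 2)) = 2 * (p ^ 2 * (m / 2)) by ring]
    exact Nat.mul_div_cancel_left _ (by norm_num)

theorem adm_mul {p m : ℕ} (hp : p.Prime) (h5 : 5 ≤ p) : Ex.Adm (p ^ 2 * m) ↔ Ex.Adm m := by
  have h := mod_div (m := m) hp h5
  unfold Ex.Adm
  have h2 : (p ^ 2 * m) % 8 = m % 8 := by omega
  have h3 : (p ^ 2 * m) % 3 = m % 3 := by omega
  rw [h2, h3]

theorem sq_dvd_nu {p n : ℕ} (hp : p.Prime) (h5 : 5 ≤ p) (hn : Ex.Adm n) :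
    p ^ 2 ∣ nu n ↔ p ^ 2 ∣ n := by
  unfold nu
  split_ifs with h
  · rfl
  · have h4 : n = 2 * (n / 2) := by
      have := hn.1
      omega
    have hc : (p ^ 2).Coprime 2 := by
      refine Nat.Coprime.pow_left 2 ?_
      rw [Nat.coprime_primes hp Nat.prime_two]
      omega
    constructor
    · intro h6
      rw [h4]
      exact h6.mul_left 2
    · intro h6
      rw [h4] at h6
      exact hc.dvd_of_dvd_mul_left h6

theorem nu_le (n : ℕ) : nu n ≤ n := by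
  unfold nu
  split_ifs
  · exact le_rfl
  · exact Nat.div_le_self _ _

theorem nu_pos {n : ℕ} (hn : Ex.Adm n) : 1 ≤ nu n := by
  unfold nu
  have := hn.1
  split_ifs <;> omega

theorem coprime_18 (e : ℕ) : e.Coprime (6 * 3) ↔ e.Coprime 6 := by
  constructor
  · exact fun h => Nat.Coprime.coprime_mul_right_right h
  · intro h
    have h3 : e.Coprime 3 := Nat.Coprime.coprime_dvd_right (by norm_num) h
    exact Nat.Coprime.mul_right h h3

theorem gs_18 (ν : ℕ) : gs ν (6 * 3) = gs ν 6 := by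
  unfold gs
  simp only [coprime_18]

theorem gs_nonneg (ν k : ℕ) : 0 ≤ gs ν k := by
  unfold gs
  exact sum_nonneg fun e _ => by positivity

theorem gs_mono {ν ν' k : ℕ} (h : ν' ∣ ν) (hν : ν ≠ 0) : gs ν' k ≤ gs ν k := by
  unfold gs
  refine sum_le_sum_of_subset_of_nonneg ?_ fun e _ _ => by positivity
  exact filter_subset_filter _ (Nat.divisors_subset_of_dvd hν h)

theorem FF_mono {ν ν' : ℕ} (h : ν' ∣ ν) (hν : ν ≠ 0) : FF ν' ≤ FF ν := by
  unfold FF
  refine sum_le_sum_of_subset_of_nonneg ?_ fun e _ _ => by positivity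
  exact filter_subset_filter _ (Nat.divisors_subset_of_dvd hν h)

theorem FF_nonneg (ν : ℕ) : 0 ≤ FF ν := by
  unfold FF
  exact sum_nonneg fun e _ => by positivity

theorem ch_three : ch 3 = -1 := by
  unfold ch
  have : ZMod.χ₄ ((3 : ℕ) : ZMod 4) = -1 := by decide
  rw [this]
  norm_num

theorem r4_three {ν : ℤ} (h : ¬ (3 : ℤ) ∣ ν) : r4 ν 3 = 4 / 27 := by
  unfold r4
  rw [if_neg (by exact_mod_cast h), ch_three]
  norm_num

/-- scaling of the error term at `3` -/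
theorem ErrN_scale {par κ p m : ℕ} (hp : 1 ≤ p) (hκ : 1 ≤ κ) (hm : 1 ≤ m) (h3 : ¬ (3 : ℤ) ∣ (m : ℤ))
    (h3' : ¬ (3 : ℤ) ∣ ((p ^ 2 * m : ℕ) : ℤ)) (hdens : 0 ≤ densU par 0) (hcU : 0 ≤ cU par 0)
    (hCp : 0 ≤ Cp 3) :
    ErrN par 0 κ 3 m ≤ w p * ErrN par 0 κ 3 (p ^ 2 * m) := by
  have hp0 : (0 : ℝ) < p := by exact_mod_cast hp
  have hm0 : (0 : ℝ) < m := by exact_mod_cast hm
  have hκ0 : (0 : ℝ) < κ := by exact_mod_cast hκ
  set D : ℝ := √((m : ℝ) / κ) / 3 with hD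
  have hD0 : 0 < D := by positivity
  have hD' : √(((p ^ 2 * m : ℕ) : ℝ) / κ) / 3 = p * D := by
    rw [hD]
    push_cast
    rw [mul_div_assoc, Real.sqrt_mul (by positivity), Real.sqrt_sq hp0.le]
    ring
  have hsD : 0 < √D := Real.sqrt_pos.2 hD0
  have hsp : 0 < √(p : ℝ) := Real.sqrt_pos.2 hp0
  have hsp2 : √(p : ℝ) ^ 2 = p := Real.sq_sqrt hp0.le
  unfold ErrN
  rw [r4_three h3, r4_three h3']
  simp only [if_true]
  have hcast : ((3 : ℕ) : ℝ) = 3 := by norm_num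
  rw [hcast, ← hD, hD', mul_add]
  have hFF : FF m ≤ FF (p ^ 2 * m) := FF_mono (dvd_mul_left _ _) (by positivity)
  refine add_le_add ?_ ?_
  · have h1 : w p * (8 * Real.pi * densU par 0 * ((p ^ 2 * m : ℕ) : ℝ) *
        (4 / 27 * 2.9 * FF (p ^ 2 * m) / √(p * D))) =
        8 * Real.pi * densU par 0 * m * (4 / 27 * 2.9 * FF (p ^ 2 * m) / √D) := by
      rw [Real.sqrt_mul hp0.le]
      unfold w
      push_cast
      field_simp
      rw [hsp2]
    rw [h1]
    have h2 : 4 / 27 * 2.9 * FF m / √D ≤ 4 / 27 * 2.9 * FF (p ^ 2 * m) / √D := by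
      refine div_le_div_of_nonneg_right ?_ hsD.le
      exact mul_le_mul_of_nonneg_left hFF (by norm_num)
    exact mul_le_mul_of_nonneg_left h2 (by positivity)
  · have h1 : w p * (8 * cU par 0 * 3 * Cp 3 * SB2 (p * D)) =
        8 * cU par 0 * 3 * Cp 3 * (D * √D * (0.6 * Real.log (p * D) + 0.8)) := by
      unfold SB2
      rw [Real.sqrt_mul hp0.le]
      unfold w
      field_simp
    rw [h1]
    refine mul_le_mul_of_nonneg_left ?_ (by positivity)
    unfold SB2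
    refine mul_le_mul_of_nonneg_left ?_ (by positivity)
    have h2 : Real.log D ≤ Real.log (p * D) := by
      refine Real.log_le_log hD0 ?_
      have : (1 : ℝ) ≤ p := by exact_mod_cast hp
      nlinarith
    linarith

theorem densU_nonneg (par m : ℕ) : 0 ≤ densU par m := by
  unfold densU
  refine mul_nonneg ?_ ?_
  · split_ifs <;> norm_num
  · split_ifs <;> norm_num

theorem cU_nonneg (par m : ℕ) : 0 ≤ cU par m := by
  unfold cU
  refine mul_nonneg ?_ ?_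
  · split_ifs <;> norm_num
  · split_ifs <;> norm_num

theorem Cp_nonneg (p : ℕ) : 0 ≤ Cp p := by
  unfold Cp
  split_ifs
  · norm_num
  · positivity

theorem pt_cases (n : ℕ) : pt n = 2 ∨ pt n = 3 := by
  unfold pt
  split_ifs
  · exact Or.inl rfl
  · exact Or.inr rfl

theorem mm_ne {n : ℕ} : mm n ≠ 0 := by
  unfold mm
  split_ifs <;> norm_num

theorem size {ν P p κ : ℕ} (hp : 1 ≤ p) (hpP : p ≤ P) (hκ : κ = 1 ∨ κ = 2)
    (hP : 30000 * (P : ℝ) ≤ √((ν : ℝ) / 2)) : 30000 ≤ √((ν : ℝ) / κ) / p := by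
  have hp0 : (0 : ℝ) < p := by exact_mod_cast hp
  have hpP' : (p : ℝ) ≤ P := by exact_mod_cast hpP
  rw [le_div_iff₀ hp0]
  refine (mul_le_mul_of_nonneg_left hpP' (by norm_num)).trans (hP.trans ?_)
  refine Real.sqrt_le_sqrt ?_
  rcases hκ with rfl | rfl
  · rw [Nat.cast_one, div_one]
    have : (0 : ℝ) ≤ ν := Nat.cast_nonneg ν
    linarith
  · rw [Nat.cast_ofNat]

theorem hyp1 {n : ℕ} (hn : Ex.Adm n) (ho : n % 2 = 1) : HypU 1 (mm n) 1 (nu n) := by
  have h1 := hn.1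
  have h2 := hn.2
  unfold HypU mm nu
  rw [if_pos ho, if_pos ho]
  refine ⟨Or.inl ⟨rfl, rfl, by omega⟩, ?_⟩
  split_ifs with h
  · right; right; left
    exact ⟨rfl, h⟩
  · right; left
    exact ⟨rfl, by omega⟩

theorem hyp2 {n : ℕ} (hn : Ex.Adm n) (ho : n % 2 = 1) : HypU (pt n) (mm n) 2 (nu n) := by
  have h1 := hn.1
  have h2 := hn.2
  unfold HypU mm nu pt
  rw [if_pos ho, if_pos ho]
  refine ⟨?_, ?_⟩
  · split_ifs with h
    · right; left
      exact ⟨rfl, rfl, h⟩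
    · right; right; left
      exact ⟨rfl, rfl, by omega⟩
  · split_ifs with h
    · right; right; left
      exact ⟨rfl, h⟩
    · right; left
      exact ⟨rfl, by omega⟩

theorem hyp4 {n : ℕ} (hn : Ex.Adm n) (ho : n % 2 = 0) : HypU 4 (mm n) 1 (nu n) := by
  have h1 := hn.1
  have h2 := hn.2
  unfold HypU mm nu
  rw [if_neg (show ¬ n % 2 = 1 by omega), if_neg (show ¬ n % 2 = 1 by omega)]
  refine ⟨?_, ?_⟩
  · right; right; right
    exact ⟨rfl, rfl, by omega⟩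
  · split_ifs with h
    · right; right; left
      exact ⟨rfl, by omega⟩
    · right; right; right
      exact ⟨rfl, by omega⟩

theorem hyp_zero {par m κ ν : ℕ} (h : HypU par m κ ν) : HypU par 0 κ ν := ⟨h.1, Or.inl rfl⟩

theorem main_eq {par m ν p : ℕ} (hm : m ≠ 0) (hp : 2 ≤ p) :
    8 * Real.pi * densU par m * ν * (r4 ν p * KM m p * gs ν (6 * p)) =
      24 * densU par m * (ν * (r4 ν p * gs ν (6 * p) / (1 - 1 / (p : ℝ) ^ 2))) := by
  have hp' : (2 : ℝ) ≤ p := by exact_mod_cast hp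
  have h1 : (1 : ℝ) - 1 / (p : ℝ) ^ 2 ≠ 0 := by
    have : 1 / (p : ℝ) ^ 2 ≤ 1 / 4 := by
      refine one_div_le_one_div_of_le (by norm_num) ?_
      nlinarith
    linarith
  unfold KM
  rw [if_neg hm]
  have hpi := Real.pi_pos.ne'
  field_simp
  ring

/-- primes up to `P₁` -/
theorem As_small (h2 : StAN) (hA : StAs) {n p P₁ : ℕ} (hn : Ex.Adm n) (hp : p.Prime) (h5 : 5 ≤ p)
    (hpP : p ≤ P₁) (hP : 30000 * (P₁ : ℝ) ≤ √((nu n : ℝ) / 2)) :
    6 * ((As n p).ncard : ℝ) ≤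
      c3 n * nu n * (6 * r4 (nu n) p * gs (nu n) (6 * p) / (1 - 1 / (p : ℝ) ^ 2)) + 6 * EA n p := by
  haveI : Fact p.Prime := ⟨hp⟩
  have hs1 : (10000 : ℝ) ≤ √((nu n : ℝ) / (1 : ℕ)) / p := by
    have := size (κ := 1) (by omega) hpP (Or.inl rfl) hP
    linarith
  have hs2 : (10000 : ℝ) ≤ √((nu n : ℝ) / (2 : ℕ)) / p := by
    have := size (κ := 2) (by omega) hpP (Or.inr rfl) hP
    linarith
  have hm : mm n = 0 ↔ p = 3 := ⟨fun h => absurd h mm_ne, fun h => by omega⟩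
  obtain ⟨ha, hb, -⟩ := h2 n p hp h5 hn
  by_cases ho : n % 2 = 1
  · have h3 := ha ho
    have h4 : ((As n p).ncard : ℝ) ≤ ((NS 1 (mm n) 1 p (nu n)).ncard : ℝ) +
        ((NS (pt n) (mm n) 2 p (nu n)).ncard : ℝ) := by exact_mod_cast h3
    have h6 := (hA 1 (mm n) 1 p (nu n) (by omega) hm (hyp1 hn ho) hs1).2
    have h7 := (hA (pt n) (mm n) 2 p (nu n) (by omega) hm (hyp2 hn ho) hs2).2
    rw [main_eq mm_ne (by omega)] at h6 h7
    have h8 := (abs_le.1 h6).2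
    have h9 := (abs_le.1 h7).2
    have hE : EA n p = ErrN 1 (mm n) 1 p (nu n) + ErrN (pt n) (mm n) 2 p (nu n) := by
      unfold EA
      rw [if_pos ho]
    rw [hE]
    set M : ℝ := (nu n : ℝ) * (r4 (nu n) p * gs (nu n) (6 * p) / (1 - 1 / (p : ℝ) ^ 2)) with hM
    have h10 : c3 n * nu n * (6 * r4 (nu n) p * gs (nu n) (6 * p) / (1 - 1 / (p : ℝ) ^ 2)) =
        6 * c3 n * M := by
      rw [hM]
      ring
    rw [h10]
    have h11 : 24 * densU 1 (mm n) + 24 * densU (pt n) (mm n) = c3 n := by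
      unfold c3 densU mm
      rcases pt_cases n with h | h
      · rw [h]
        by_cases h12 : n % 3 = 0
        · simp [h12]
          norm_num
        · simp [h12, ho]
          norm_num
      · rw [h]
        by_cases h12 : n % 3 = 0
        · simp [h12]
          norm_num
        · simp [h12, ho]
          norm_num
    have h12 : 24 * densU 1 (mm n) * M + 24 * densU (pt n) (mm n) * M = c3 n * M := by
      rw [← add_mul, h11]
    linarith
  · have ho' : n % 2 = 0 := by omega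
    have h3 := hb ho'
    have h4 : ((As n p).ncard : ℝ) ≤ ((NS 4 (mm n) 1 p (nu n)).ncard : ℝ) := by exact_mod_cast h3
    have h6 := (hA 4 (mm n) 1 p (nu n) (by omega) hm (hyp4 hn ho') hs1).2
    rw [main_eq mm_ne (by omega)] at h6
    have h8 := (abs_le.1 h6).2
    have hE : EA n p = ErrN 4 (mm n) 1 p (nu n) := by
      unfold EA
      rw [if_neg ho]
    rw [hE]
    set M : ℝ := (nu n : ℝ) * (r4 (nu n) p * gs (nu n) (6 * p) / (1 - 1 / (p : ℝ) ^ 2)) with hM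
    have h10 : c3 n * nu n * (6 * r4 (nu n) p * gs (nu n) (6 * p) / (1 - 1 / (p : ℝ) ^ 2)) =
        6 * c3 n * M := by
      rw [hM]
      ring
    rw [h10]
    have h11 : 24 * densU 4 (mm n) = c3 n := by
      unfold c3 densU mm
      by_cases h12 : n % 3 = 0
      · simp [h12]
        norm_num
      · simp [h12, ho']
        norm_num
    have h12 : 24 * densU 4 (mm n) * M = c3 n * M := by rw [h11]
    linarith

/-- quadruples divisible by 3 -/
theorem N3_bound (hA : StAs) {n : ℕ} (hn : Ex.Adm n) (h3 : n % 3 = 1)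
    (hP : 30000 ≤ √((nu n : ℝ) / 2)) : |N3 n - 4 / 3 * nu n * gs (nu n) 6| ≤ E3 n := by
  haveI : Fact (Nat.Prime 3) := ⟨Nat.prime_three⟩
  have hs2 : (10000 : ℝ) ≤ √((nu n : ℝ) / (2 : ℕ)) / (3 : ℕ) := by
    rw [Nat.cast_ofNat, Nat.cast_ofNat, le_div_iff₀ (by norm_num)]
    linarith
  have hs1 : (10000 : ℝ) ≤ √((nu n : ℝ) / (1 : ℕ)) / (3 : ℕ) := by
    rw [show ((3 : ℕ) : ℝ) = 3 by norm_num, le_div_iff₀ (by norm_num), Nat.cast_one, div_one]
    have h4 : √((nu n : ℝ) / 2) ≤ √(nu n : ℝ) := by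
      refine Real.sqrt_le_sqrt ?_
      have : (0 : ℝ) ≤ nu n := Nat.cast_nonneg _
      linarith
    linarith
  have hν3 : ¬ (3 : ℤ) ∣ ((nu n : ℕ) : ℤ) := by
    have h1 := hn.1
    unfold nu
    split_ifs <;> omega
  have hpi := Real.pi_pos.ne'
  have hmain : ∀ par : ℕ, 8 * Real.pi * densU par 0 * (nu n : ℝ) *
      (r4 (nu n) 3 * KM 0 3 * gs (nu n) (6 * 3)) =
      densU par 0 * (8 / 3 * nu n * gs (nu n) 6) := by
    intro par
    rw [r4_three hν3, gs_18]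
    unfold KM
    rw [if_pos rfl]
    field_simp
    ring
  by_cases ho : n % 2 = 1
  · have h6 := (hA 1 0 1 3 (nu n) (by omega) (by simp) (hyp_zero (hyp1 hn ho)) hs1).2
    have h7 := (hA (pt n) 0 2 3 (nu n) (by omega) (by simp) (hyp_zero (hyp2 hn ho)) hs2).2
    rw [hmain] at h6 h7
    have hd1 : densU 1 0 = 1 / 4 := by
      unfold densU
      norm_num
    have hd2 : densU (pt n) 0 = 1 / 4 := by
      unfold densU
      rcases pt_cases n with h | h
      · rw [h]; norm_num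
      · rw [h]; norm_num
    rw [hd1] at h6
    rw [hd2] at h7
    unfold N3 E3
    rw [if_pos ho, if_pos ho]
    rw [abs_le] at h6 h7 ⊢
    constructor
    · linarith [h6.1, h7.1]
    · linarith [h6.2, h7.2]
  · have ho' : n % 2 = 0 := by omega
    have h6 := (hA 4 0 1 3 (nu n) (by omega) (by simp) (hyp_zero (hyp4 hn ho')) hs1).2
    rw [hmain] at h6
    have hd1 : densU 4 0 = 1 / 2 := by
      unfold densU
      norm_num
    rw [hd1] at h6
    unfold N3 E3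
    rw [if_neg ho, if_neg ho]
    rw [abs_le] at h6 ⊢
    constructor
    · linarith [h6.1]
    · linarith [h6.2]

theorem N3_nonneg (n : ℕ) : 0 ≤ N3 n := by
  unfold N3
  split_ifs
  · positivity
  · positivity

theorem c3_pos (n : ℕ) : 0 < c3 n := by
  unfold c3
  split_ifs <;> norm_num

/-- trivial upper bound for `Om` -/
theorem Om_triv (h3 : StOmc) {n : ℕ} (hn : Ex.Adm n) :
    ((Om n).ncard : ℝ) ≤ 3 / 2 * c3 n * nu n * gs (nu n) 6 := by
  have hg := gs_nonneg (nu n) 6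
  have hν : (0 : ℝ) ≤ nu n := Nat.cast_nonneg _
  have hνg := mul_nonneg hν hg
  have h4 := hn.2
  by_cases h0 : n % 3 = 0
  · rw [(h3 n hn).1 h0]
    unfold c3
    rw [if_pos h0]
    nlinarith
  · rw [(h3 n hn).2 (by omega)]
    unfold c3
    rw [if_neg h0]
    have := N3_nonneg n
    nlinarith

/-- the error term at 3, or 0 -/
noncomputable def Ee (n : ℕ) : ℝ := if n % 3 = 1 then E3 n else 0

theorem Om_bound (h3 : StOmc) (hA : StAs) {n : ℕ} (hn : Ex.Adm n)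
    (hP : 30000 ≤ √((nu n : ℝ) / 2)) :
    |((Om n).ncard : ℝ) - c3 n * nu n * gs (nu n) 6| ≤ 2 * Ee n := by
  have h4 := hn.2
  by_cases h0 : n % 3 = 0
  · rw [(h3 n hn).1 h0]
    unfold c3 Ee
    rw [if_pos h0, if_neg (by omega), sub_self, abs_zero, mul_zero]
  · have h1 : n % 3 = 1 := by omega
    rw [(h3 n hn).2 h1]
    have h5 := N3_bound hA hn h1 hP
    unfold c3 Ee
    rw [if_neg h0, if_pos h1]
    rw [abs_le] at h5 ⊢
    constructor
    · linarith [h5.2]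
    · linarith [h5.1]

theorem Ee_nonneg (h3 : StOmc) (hA : StAs) {n : ℕ} (hn : Ex.Adm n)
    (hP : 30000 ≤ √((nu n : ℝ) / 2)) : 0 ≤ Ee n := by
  have := (abs_nonneg _).trans (Om_bound h3 hA hn hP)
  linarith

theorem Ee_scale {m p : ℕ} (hp : p.Prime) (h5 : 5 ≤ p) (hm : Ex.Adm m) :
    Ee m ≤ w p * Ee (p ^ 2 * m) := by
  have h24 := mod_div (m := m) hp h5
  have h3 : (p ^ 2 * m) % 3 = m % 3 := by omega
  have h2 : (p ^ 2 * m) % 2 = m % 2 := by omega
  have h8 : (p ^ 2 * m) % 8 = m % 8 := by omega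
  unfold Ee
  rw [h3]
  by_cases h1 : m % 3 = 1
  · rw [if_pos h1, if_pos h1]
    have hnu := nu_mul hp h5 hm
    have hpt : pt (p ^ 2 * m) = pt m := by
      unfold pt
      rw [h8]
    have hn3 : ¬ (3 : ℤ) ∣ ((nu m : ℕ) : ℤ) := by
      have h1 := hm.1
      unfold nu
      split_ifs <;> omega
    have hn3' : ¬ (3 : ℤ) ∣ ((p ^ 2 * nu m : ℕ) : ℤ) := by
      rw [← hnu]
      have h1' := hm.1
      unfold nu
      split_ifs <;> omega
    have key : ∀ par κ : ℕ, 1 ≤ κ → ErrN par 0 κ 3 (nu m) ≤ w p * ErrN par 0 κ 3 (p ^ 2 * nu m) :=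
      fun par κ hκ => ErrN_scale (by omega) hκ (nu_pos hm) hn3 hn3' (densU_nonneg _ _)
        (cU_nonneg _ _) (Cp_nonneg _)
    unfold E3
    rw [h2, hnu, hpt]
    split_ifs
    · rw [mul_add]
      exact add_le_add (key _ _ le_rfl) (key _ _ (by norm_num))
    · exact key _ _ le_rfl
  · rw [if_neg h1, if_neg h1, mul_zero]

/-- the contribution of the quadruples divisible by a small prime -/
theorem Om_small (h3 : StOmc) (hA : StAs) {n p P₁ : ℕ} (hn : Ex.Adm n) (hp : p.Prime) (h5 : 5 ≤ p)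
    (hpP : p ≤ P₁) (hP : 30000 * (P₁ : ℝ) ≤ √((nu n : ℝ) / 2)) :
    (if p ^ 2 ∣ n then ((Om (n / p ^ 2)).ncard : ℝ) else 0) ≤
      c3 n * nu n * (if p ^ 2 ∣ nu n then gs (nu n / p ^ 2) 6 / (p : ℝ) ^ 2 else 0) +
        2 * (w p * Ee n) := by
  have hp0 : (0 : ℝ) < p := by exact_mod_cast hp.pos
  have hP1 : (1 : ℝ) ≤ P₁ := by
    have : 1 ≤ P₁ := by omega
    exact_mod_cast this
  have hPn : 30000 ≤ √((nu n : ℝ) / 2) := by linarith
  have hEn := Ee_nonneg h3 hA hn hPn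
  by_cases hd : p ^ 2 ∣ n
  · rw [if_pos hd, if_pos ((sq_dvd_nu hp h5 hn).2 hd)]
    obtain ⟨m, rfl⟩ := hd
    have hm : Ex.Adm m := (adm_mul hp h5).1 hn
    have hnu := nu_mul hp h5 hm
    have hp2 : 0 < p ^ 2 := by positivity
    rw [hnu, Nat.mul_div_cancel_left _ hp2, Nat.mul_div_cancel_left _ hp2]
    have h24 := mod_div (m := m) hp h5
    have hc3 : c3 (p ^ 2 * m) = c3 m := by
      unfold c3
      rw [show (p ^ 2 * m) % 3 = m % 3 by omega]
    have hPm : 30000 ≤ √((nu m : ℝ) / 2) := by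
      have h6 : √((nu (p ^ 2 * m) : ℝ) / 2) = p * √((nu m : ℝ) / 2) := by
        rw [hnu]
        push_cast
        rw [mul_div_assoc, Real.sqrt_mul (by positivity), Real.sqrt_sq hp0.le]
      rw [h6] at hP
      have h7 : (p : ℝ) ≤ P₁ := by exact_mod_cast hpP
      have h8 : 30000 * (p : ℝ) ≤ p * √((nu m : ℝ) / 2) := by linarith
      rw [mul_comm] at h8
      exact le_of_mul_le_mul_left h8 hp0
    have h9 := (abs_le.1 (Om_bound h3 hA hm hPm)).2
    have h10 := Ee_scale hp h5 hm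
    rw [hc3]
    push_cast
    have h11 : c3 m * ((p : ℝ) ^ 2 * (nu m : ℝ)) * (gs (nu m) 6 / (p : ℝ) ^ 2) =
        c3 m * nu m * gs (nu m) 6 := by
      field_simp
    rw [h11]
    linarith
  · rw [if_neg hd, if_neg (fun h => hd ((sq_dvd_nu hp h5 hn).1 h)), mul_zero, zero_add]
    have := w_nonneg p
    positivity

/-- the contribution of the quadruples divisible by a large prime -/
theorem Om_large (h3 : StOmc) {n p : ℕ} (hn : Ex.Adm n) (hp : p.Prime) (h5 : 5 ≤ p) :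
    (if p ^ 2 ∣ n then ((Om (n / p ^ 2)).ncard : ℝ) else 0) ≤
      if p ^ 2 ∣ nu n then 3 / 2 * c3 n * nu n * gs (nu n) 6 / (p : ℝ) ^ 2 else 0 := by
  have hp0 : (0 : ℝ) < p := by exact_mod_cast hp.pos
  by_cases hd : p ^ 2 ∣ n
  · rw [if_pos hd, if_pos ((sq_dvd_nu hp h5 hn).2 hd)]
    obtain ⟨m, rfl⟩ := hd
    have hm : Ex.Adm m := (adm_mul hp h5).1 hn
    have hnu := nu_mul hp h5 hm
    have hp2 : 0 < p ^ 2 := by positivity
    rw [Nat.mul_div_cancel_left _ hp2]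
    have h24 := mod_div (m := m) hp h5
    have hc3 : c3 (p ^ 2 * m) = c3 m := by
      unfold c3
      rw [show (p ^ 2 * m) % 3 = m % 3 by omega]
    have h6 := Om_triv h3 hm
    have h7 : gs (nu m) 6 ≤ gs (nu (p ^ 2 * m)) 6 := by
      rw [hnu]
      have := nu_pos hm
      exact gs_mono (dvd_mul_left _ _) (by positivity)
    rw [hc3, hnu]
    rw [hnu] at h7
    push_cast
    have h11 : 3 / 2 * c3 m * ((p : ℝ) ^ 2 * (nu m : ℝ)) * gs (p ^ 2 * nu m) 6 / (p : ℝ) ^ 2 =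
        3 / 2 * c3 m * nu m * gs (p ^ 2 * nu m) 6 := by
      field_simp
    rw [h11]
    refine h6.trans (mul_le_mul_of_nonneg_left h7 ?_)
    have := c3_pos m
    positivity
  · rw [if_neg hd, if_neg (fun h => hd ((sq_dvd_nu hp h5 hn).1 h))]

end F5Aux

open F5Aux in
theorem stMaster (h1 : StUB) (h2 : StAN) (h3 : StOmc) (hA : StAs) (hC : StCP) (hT : StTriv) :
    StMaster := by
  intro n P₁ P₂ hn hrep h5 h12 hP hP2
  have hP1 : (1 : ℝ) ≤ P₁ := by
    have : 1 ≤ P₁ := by omega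
    exact_mod_cast this
  have hPn : 30000 ≤ √((nu n : ℝ) / 2) := by linarith
  have hEn := Ee_nonneg h3 hA hn hPn
  have hν1 := nu_pos hn
  have hP2n : P₂ ≤ Nat.sqrt n := by
    rw [Nat.le_sqrt']
    have h6 : ((1000 * (P₂ : ℝ)) ^ 2) ≤ (nu n : ℝ) := by
      have h7 := pow_le_pow_left₀ (by positivity) hP2 2
      rwa [Real.sq_sqrt (Nat.cast_nonneg _)] at h7
    have h7 : ((P₂ ^ 2 : ℕ) : ℝ) ≤ (n : ℝ) := by
      have h8 : (nu n : ℝ) ≤ n := by exact_mod_cast nu_le n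
      push_cast
      nlinarith [sq_nonneg (P₂ : ℝ)]
    exact_mod_cast h7
  obtain ⟨-, hUB⟩ := h1 n hn hrep
  have hOm := (abs_le.1 (Om_bound h3 hA hn hPn)).1
  -- the three ranges
  rw [sum_add_distrib, sum_Pr 5 P₁ (Nat.sqrt n) (fun p => 6 * ((As n p).ncard : ℝ)) (by omega)
    (by omega), sum_Pr (P₁ + 1) P₂ (Nat.sqrt n) (fun p => 6 * ((As n p).ncard : ℝ)) (by omega)
    hP2n, sum_Pr 5 P₁ (Nat.sqrt n) (fun p => if p ^ 2 ∣ n then ((Om (n / p ^ 2)).ncard : ℝ) else 0)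
    (by omega) (by omega)] at hUB
  have s1 : ∑ p ∈ Pr 5 P₁, 6 * ((As n p).ncard : ℝ) ≤ ∑ p ∈ Pr 5 P₁, (c3 n * nu n *
      (6 * r4 (nu n) p * gs (nu n) (6 * p) / (1 - 1 / (p : ℝ) ^ 2)) + 6 * EA n p) := by
    refine sum_le_sum fun p hp => ?_
    rw [mem_Pr] at hp
    exact As_small h2 hA hn hp.2 hp.1.1 hp.1.2 hP
  have s2 : ∑ p ∈ Pr (P₁ + 1) P₂, 6 * ((As n p).ncard : ℝ) ≤
      ∑ p ∈ Pr (P₁ + 1) P₂, 6 * CPb (nu n) p := by
    refine sum_le_sum fun p hp => ?_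
    rw [mem_Pr] at hp
    haveI : Fact p.Prime := ⟨hp.2⟩
    have hp0 : (0 : ℝ) < p := by exact_mod_cast hp.2.pos
    have h6 : (1000 : ℝ) ≤ √(nu n : ℝ) / p := by
      rw [le_div_iff₀ hp0]
      have : (p : ℝ) ≤ P₂ := by exact_mod_cast hp.1.2
      linarith
    have h7 := (hC p (nu n) (by omega) hν1 h6).2
    have h8 : ((As n p).ncard : ℝ) ≤ ((NC p (nu n)).ncard : ℝ) := by
      exact_mod_cast (h2 n p hp.2 (by omega) hn).2.2
    refine mul_le_mul_of_nonneg_left (h8.trans (h7.trans (le_of_eq ?_))) (by norm_num)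
    rfl
  have s3 : ∑ p ∈ Pr (P₂ + 1) (Nat.sqrt n), 6 * ((As n p).ncard : ℝ) ≤
      ∑ p ∈ Pr (P₂ + 1) (Nat.sqrt n), 6 * TRb (nu n) p := by
    refine sum_le_sum fun p hp => ?_
    rw [mem_Pr] at hp
    obtain ⟨hfin, h7⟩ := hT p (nu n) hp.2.one_lt.le hν1
    have h8 : ((As n p).ncard : ℝ) ≤ ((NC p (nu n)).ncard : ℝ) := by
      exact_mod_cast (h2 n p hp.2 (by omega) hn).2.2
    have h9 : ((NC p (nu n)).ncard : ℝ) ≤
        (({u : GI × GI | u.2 ≠ 0 ∧ N2 u.1 + (p : ℤ) ^ 2 * N2 u.2 = nu n}).ncard : ℝ) := by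
      have : (NC p (nu n)).ncard ≤
          ({u : GI × GI | u.2 ≠ 0 ∧ N2 u.1 + (p : ℤ) ^ 2 * N2 u.2 = nu n}).ncard :=
        Set.ncard_le_ncard (fun u hu => hu.2) hfin
      exact_mod_cast this
    refine mul_le_mul_of_nonneg_left (h8.trans (h9.trans (h7.trans (le_of_eq ?_)))) (by norm_num)
    rfl
  have s4 : ∑ p ∈ Pr 5 P₁, (if p ^ 2 ∣ n then ((Om (n / p ^ 2)).ncard : ℝ) else 0) ≤
      ∑ p ∈ Pr 5 P₁, (c3 n * nu n * (if p ^ 2 ∣ nu n then gs (nu n / p ^ 2) 6 / (p : ℝ) ^ 2 else 0) +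
        2 * (w p * Ee n)) := by
    refine sum_le_sum fun p hp => ?_
    rw [mem_Pr] at hp
    exact Om_small h3 hA hn hp.2 hp.1.1 hp.1.2 hP
  have s5 : ∑ p ∈ Pr (P₁ + 1) (Nat.sqrt n),
      (if p ^ 2 ∣ n then ((Om (n / p ^ 2)).ncard : ℝ) else 0) ≤
      ∑ p ∈ (Pr (P₁ + 1) (Nat.sqrt n)).filter (fun p ↦ p ^ 2 ∣ nu n),
        3 / 2 * c3 n * nu n * gs (nu n) 6 / (p : ℝ) ^ 2 := by
    rw [sum_filter]
    refine sum_le_sum fun p hp => ?_
    rw [mem_Pr] at hp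
    exact Om_large h3 hn hp.2 (by omega)
  have s6 : ∑ p ∈ Pr 5 P₁, 2 * (w p * Ee n) ≤ 0.7 * Ee n := by
    rw [← mul_sum, ← sum_mul]
    have h6 := mul_le_mul_of_nonneg_right (sum_w P₁) hEn
    linarith
  have s7 : c3 n * nu n * ∑ p ∈ Pr 5 P₁, Mp (nu n) p =
      ∑ p ∈ Pr 5 P₁, c3 n * nu n *
        (6 * r4 (nu n) p * gs (nu n) (6 * p) / (1 - 1 / (p : ℝ) ^ 2)) +
      ∑ p ∈ Pr 5 P₁, c3 n * nu n *
        (if p ^ 2 ∣ nu n then gs (nu n / p ^ 2) 6 / (p : ℝ) ^ 2 else 0) := by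
    rw [mul_sum, ← sum_add_distrib]
    refine sum_congr rfl fun p _ => ?_
    unfold Mp
    rw [mul_add]
  rw [sum_add_distrib] at s1 s4
  have hE : (if n % 3 = 1 then 2.7 * E3 n else 0) = 2.7 * Ee n := by
    unfold Ee
    split_ifs
    · rfl
    · rw [mul_zero]
  rw [hE, mul_sub, s7]
  linarith

end Pool.Agent.TFS
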