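import Pool.Agent.Lib.TFS.DefsJ

/-! J1: `4 m` (`m` odd) is a sum of four odd squares in `16 σ(m)` ways. -/

set_option autoImplicit false

open Finset
open Pool.Agent.Lib.MP_0e0027_nt

namespace Pool.Agent.TFS

/-- odd positive quadruples `(d, α, e, β)` with `d α + e β = 2 m` -/
def PJ (m : ℕ) : Finset (ℕ × ℕ × ℕ × ℕ) :=
  ((Icc 1 (2 * m)) ×ˢ ((Icc 1 (2 * m)) ×ˢ ((Icc 1 (2 * m)) ×ˢ (Icc 1 (2 * m))))).filter
    (fun t ↦ t.1 % 2 = 1 ∧ t.2.1 % 2 = 1 ∧ t.2.2.1 % 2 = 1 ∧ t.2.2.2 % 2 = 1 ∧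
      t.1 * t.2.1 + t.2.2.1 * t.2.2.2 = 2 * m)

theorem mem_PJ {m : ℕ} {t : ℕ × ℕ × ℕ × ℕ} : t ∈ PJ m ↔
    t.1 % 2 = 1 ∧ t.2.1 % 2 = 1 ∧ t.2.2.1 % 2 = 1 ∧ t.2.2.2 % 2 = 1 ∧
      t.1 * t.2.1 + t.2.2.1 * t.2.2.2 = 2 * m := by
  unfold PJ
  rw [mem_filter]
  constructor
  · exact fun h ↦ h.2
  · intro h
    refine ⟨?_, h⟩
    obtain ⟨h1, h2, h3, h4, h5⟩ := h
    have p1 : 1 ≤ t.1 := by omega
    have p2 : 1 ≤ t.2.1 := by omega
    have p3 : 1 ≤ t.2.2.1 := by omega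
    have p4 : 1 ≤ t.2.2.2 := by omega
    have q1 : t.1 ≤ t.1 * t.2.1 := Nat.le_mul_of_pos_right _ p2
    have q2 : t.2.1 ≤ t.1 * t.2.1 := Nat.le_mul_of_pos_left _ p1
    have q3 : t.2.2.1 ≤ t.2.2.1 * t.2.2.2 := Nat.le_mul_of_pos_right _ p4
    have q4 : t.2.2.2 ≤ t.2.2.1 * t.2.2.2 := Nat.le_mul_of_pos_left _ p3
    simp only [mem_product, mem_Icc]
    refine ⟨⟨p1, by omega⟩, ⟨p2, by omega⟩, ⟨p3, by omega⟩, ⟨p4, by omega⟩⟩

/-- the parametrisation of the quadruples with `d > e` -/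
theorem exists_param {d e : ℕ} (hd : d % 2 = 1) (he : e % 2 = 1) (h : e < d) :
    0 < e % (d - e) ∧ 0 < (d - e) - e % (d - e) ∧ (e % (d - e)) % 2 = 1 ∧
    ((d - e) - e % (d - e)) % 2 = 1 ∧
    d = (e / (d - e) + 2) * (e % (d - e)) + (e / (d - e) + 1) * ((d - e) - e % (d - e)) ∧
    e = (e / (d - e) + 1) * (e % (d - e)) + (e / (d - e)) * ((d - e) - e % (d - e)) := by
  obtain ⟨k, hk⟩ : ∃ k, d = e + k := ⟨d - e, by omega⟩
  have hk' : d - e = k := by omega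
  rw [hk']
  have hk0 : 0 < k := by omega
  have hk2 : k % 2 = 0 := by omega
  have hlt : e % k < k := Nat.mod_lt _ hk0
  have hdm : k * (e / k) + e % k = e := Nat.div_add_mod e k
  have hpar : (e % k) % 2 = 1 := by
    rw [Nat.mod_mod_of_dvd e (Nat.dvd_of_mod_eq_zero hk2)]
    exact he
  have hpos : 0 < e % k := by omega
  obtain ⟨s, hs⟩ : ∃ s, k = e % k + s := ⟨k - e % k, by omega⟩
  have hs' : k - e % k = s := by omega
  rw [hs']
  set r := e % k with hr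
  set n := e / k with hn
  have he2 : e = (n + 1) * r + n * s := by
    rw [← hdm]
    nth_rewrite 1 [hs]
    ring
  refine ⟨hpos, by omega, hpar, by omega, ?_, he2⟩
  rw [hk, he2, hs]
  ring

/-- the involution -/
def gJ (t : ℕ × ℕ × ℕ × ℕ) : ℕ × ℕ × ℕ × ℕ :=
  ((t.2.2.1 / (t.1 - t.2.2.1) + 2) * t.2.1 + (t.2.2.1 / (t.1 - t.2.2.1) + 1) * t.2.2.2,
    t.2.2.1 % (t.1 - t.2.2.1),
    (t.2.2.1 / (t.1 - t.2.2.1) + 1) * t.2.1 + (t.2.2.1 / (t.1 - t.2.2.1)) * t.2.2.2,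
    (t.1 - t.2.2.1) - t.2.2.1 % (t.1 - t.2.2.1))

theorem gJ_param (n r s a b : ℕ) (hr : 0 < r) (hs : 0 < s) :
    gJ ((n + 2) * r + (n + 1) * s, a, (n + 1) * r + n * s, b) =
      ((n + 2) * a + (n + 1) * b, r, (n + 1) * a + n * b, s) := by
  unfold gJ
  have h1 : (n + 2) * r + (n + 1) * s - ((n + 1) * r + n * s) = r + s := by
    have : (n + 2) * r + (n + 1) * s = ((n + 1) * r + n * s) + (r + s) := by ring
    omega
  have h2 : (n + 1) * r + n * s = r + (r + s) * n := by ring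
  have h3 : ((n + 1) * r + n * s) / (r + s) = n := by
    rw [h2, Nat.add_mul_div_left _ _ (by omega), Nat.div_eq_of_lt (by omega), zero_add]
  have h4 : ((n + 1) * r + n * s) % (r + s) = r := by
    rw [h2, Nat.add_mul_mod_self_left, Nat.mod_eq_of_lt (by omega)]
  simp only [h1, h3, h4]
  congr 3
  omega

theorem zchi_a : ∀ n r s : ZMod 4, (r = 1 ∨ r = 3) → (s = 1 ∨ s = 3) →
    ZMod.χ₄ ((n + 2) * r + (n + 1) * s) * ZMod.χ₄ ((n + 1) * r + n * s) =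
      -(ZMod.χ₄ r * ZMod.χ₄ s) := by
  decide

theorem zchi_b : ∀ d a e b : ZMod 4, (d = 1 ∨ d = 3) → (a = 1 ∨ a = 3) → (e = 1 ∨ e = 3) →
    (b = 1 ∨ b = 3) → d * a + e * b = 2 →
    ZMod.χ₄ d * ZMod.χ₄ e = ZMod.χ₄ a * ZMod.χ₄ b := by
  rintro d a e b (rfl | rfl) (rfl | rfl) (rfl | rfl) (rfl | rfl) h <;>
    first
    | decide
    | exact absurd h (by decide)

theorem zodd {x : ℕ} (h : x % 2 = 1) : (x : ZMod 4) = 1 ∨ (x : ZMod 4) = 3 := by
  have : x % 4 = 1 ∨ x % 4 = 3 := by omega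
  rcases this with h | h
  · left
    have := (ZMod.natCast_eq_natCast_iff' x 1 4).2 (by rw [h])
    simpa using this
  · right
    have := (ZMod.natCast_eq_natCast_iff' x 3 4).2 (by rw [h])
    simpa using this

theorem c4_a {n r s : ℕ} (hr : r % 2 = 1) (hs : s % 2 = 1) :
    c4 ((n + 2) * r + (n + 1) * s) * c4 ((n + 1) * r + n * s) = -(c4 r * c4 s) := by
  unfold c4
  push_cast
  exact zchi_a n r s (zodd hr) (zodd hs)

theorem c4_b {d a e b m : ℕ} (hm : m % 2 = 1) (hd : d % 2 = 1) (ha : a % 2 = 1) (he : e % 2 = 1)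
    (hb : b % 2 = 1) (h : d * a + e * b = 2 * m) : c4 d * c4 e = c4 a * c4 b := by
  unfold c4
  apply zchi_b _ _ _ _ (zodd hd) (zodd ha) (zodd he) (zodd hb)
  have : ((d * a + e * b : ℕ) : ZMod 4) = ((2 : ℕ) : ZMod 4) := by
    rw [ZMod.natCast_eq_natCast_iff', h]
    omega
  push_cast at this
  exact this

/-- the terms with `d > e` cancel -/
theorem sum_gt {m : ℕ} (hm : m % 2 = 1) :
    ∑ t ∈ (PJ m).filter (fun t ↦ t.2.2.1 < t.1), c4 t.1 * c4 t.2.2.1 = 0 := by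
  have key : ∀ t ∈ (PJ m).filter (fun t ↦ t.2.2.1 < t.1), ∃ n r s a b : ℕ,
      0 < r ∧ 0 < s ∧ 0 < a ∧ 0 < b ∧ r % 2 = 1 ∧ s % 2 = 1 ∧ a % 2 = 1 ∧ b % 2 = 1 ∧
      t = ((n + 2) * r + (n + 1) * s, a, (n + 1) * r + n * s, b) ∧
      ((n + 2) * r + (n + 1) * s) * a + ((n + 1) * r + n * s) * b = 2 * m := by
    rintro ⟨d, a, e, b⟩ ht
    rw [mem_filter, mem_PJ] at ht
    obtain ⟨⟨h1, h2, h3, h4, h5⟩, h6⟩ := ht
    simp only at h1 h2 h3 h4 h5 h6
    obtain ⟨k1, k2, k3, k4, k5, k6⟩ := exists_param h1 h3 h6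
    refine ⟨e / (d - e), e % (d - e), (d - e) - e % (d - e), a, b, k1, k2, by omega, by omega,
      k3, k4, h2, h4, ?_, ?_⟩
    · rw [← k5, ← k6]
    · rw [← k5, ← k6]
      exact h5
  have hmem : ∀ n r s a b : ℕ, 0 < r → 0 < s → r % 2 = 1 → s % 2 = 1 → a % 2 = 1 → b % 2 = 1 →
      ((n + 2) * a + (n + 1) * b) * r + ((n + 1) * a + n * b) * s = 2 * m →
      (((n + 2) * a + (n + 1) * b, r, (n + 1) * a + n * b, s) : ℕ × ℕ × ℕ × ℕ) ∈
        (PJ m).filter (fun t ↦ t.2.2.1 < t.1) := by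
    intro n r s a b hr hs hr2 hs2 ha2 hb2 h
    rw [mem_filter, mem_PJ]
    simp only
    refine ⟨⟨?_, hr2, ?_, hs2, h⟩, ?_⟩
    · have : (n + 2) * a + (n + 1) * b = a + (n + 1) * (a + b) := by ring
      rw [this, Nat.add_mod, Nat.mul_mod]
      have h0 : (a + b) % 2 = 0 := by omega
      rw [h0, Nat.mul_zero, Nat.zero_mod, Nat.add_zero, Nat.mod_mod]
      exact ha2
    · have : (n + 1) * a + n * b = a + n * (a + b) := by ring
      rw [this, Nat.add_mod, Nat.mul_mod]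
      have h0 : (a + b) % 2 = 0 := by omega
      rw [h0, Nat.mul_zero, Nat.zero_mod, Nat.add_zero, Nat.mod_mod]
      exact ha2
    · have : (n + 2) * a + (n + 1) * b = ((n + 1) * a + n * b) + (a + b) := by ring
      omega
  have hneg : ∀ t ∈ (PJ m).filter (fun t ↦ t.2.2.1 < t.1),
      c4 t.1 * c4 t.2.2.1 + c4 (gJ t).1 * c4 (gJ t).2.2.1 = 0 := by
    intro t ht
    obtain ⟨n, r, s, a, b, hr, hs, ha, hb, hr2, hs2, ha2, hb2, rfl, h⟩ := key t ht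
    rw [gJ_param n r s a b hr hs]
    simp only
    rw [mem_filter, mem_PJ] at ht
    have e1 := c4_b hm ht.1.1 ha2 ht.1.2.2.1 hb2 h
    rw [c4_a ha2 hb2, e1]
    ring
  apply sum_involution (g := fun t _ ↦ gJ t)
  · exact hneg
  · intro t ht hne heq
    have := hneg t ht
    rw [heq] at this
    exact hne (by linarith)
  · intro t ht
    obtain ⟨n, r, s, a, b, hr, hs, ha, hb, hr2, hs2, ha2, hb2, rfl, h⟩ := key t ht
    rw [gJ_param n r s a b hr hs]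
    exact hmem n r s a b hr hs hr2 hs2 ha2 hb2 (by rw [← h]; ring)
  · intro t ht
    obtain ⟨n, r, s, a, b, hr, hs, ha, hb, hr2, hs2, ha2, hb2, rfl, h⟩ := key t ht
    rw [gJ_param n r s a b hr hs, gJ_param n a b r s ha hb]

/-- the swap -/
theorem sum_lt {m : ℕ} (hm : m % 2 = 1) :
    ∑ t ∈ (PJ m).filter (fun t ↦ t.1 < t.2.2.1), c4 t.1 * c4 t.2.2.1 = 0 := by
  rw [← sum_gt hm]
  refine sum_bij' (fun t _ ↦ (t.2.2.1, t.2.2.2, t.1, t.2.1))
    (fun t _ ↦ (t.2.2.1, t.2.2.2, t.1, t.2.1)) ?_ ?_ ?_ ?_ ?_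
  · intro t ht
    rw [mem_filter, mem_PJ] at ht ⊢
    obtain ⟨⟨h1, h2, h3, h4, h5⟩, h6⟩ := ht
    exact ⟨⟨h3, h4, h1, h2, by rw [← h5]; ring⟩, h6⟩
  · intro t ht
    rw [mem_filter, mem_PJ] at ht ⊢
    obtain ⟨⟨h1, h2, h3, h4, h5⟩, h6⟩ := ht
    exact ⟨⟨h3, h4, h1, h2, by rw [← h5]; ring⟩, h6⟩
  · intro t _
    rfl
  · intro t _
    rfl
  · intro t _
    exact mul_comm _ _

/-- the diagonal terms -/
theorem sum_diag {m : ℕ} (hm : m % 2 = 1) :
    ∑ t ∈ (PJ m).filter (fun t ↦ t.1 = t.2.2.1), c4 t.1 * c4 t.2.2.1 =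
      (ArithmeticFunction.sigma 1 m : ℤ) := by
  have hm0 : m ≠ 0 := by omega
  have h1 : ∑ t ∈ (PJ m).filter (fun t ↦ t.1 = t.2.2.1), c4 t.1 * c4 t.2.2.1 =
      (((PJ m).filter (fun t ↦ t.1 = t.2.2.1)).card : ℤ) := by
    rw [card_eq_sum_ones, Nat.cast_sum]
    apply sum_congr rfl
    intro t ht
    rw [mem_filter, mem_PJ] at ht
    rw [← ht.2, c4_sq_odd ht.1.1, Nat.cast_one]
  rw [h1]
  have h2 : ((PJ m).filter (fun t ↦ t.1 = t.2.2.1)).card =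
      ∑ d ∈ m.divisors, (((PJ m).filter (fun t ↦ t.1 = t.2.2.1)).filter (fun t ↦ t.1 = d)).card := by
    apply card_eq_sum_card_fiberwise
    intro t ht
    have ht' := mem_coe.1 ht
    rw [mem_filter, mem_PJ] at ht'
    obtain ⟨⟨q1, q2, q3, q4, q5⟩, q6⟩ := ht'
    rw [mem_coe, Nat.mem_divisors]
    refine ⟨?_, hm0⟩
    have hdv : t.1 ∣ 2 * m := by
      rw [← q5, ← q6, ← mul_add]
      exact dvd_mul_right _ _
    exact (Nat.Coprime.dvd_mul_left (Nat.coprime_two_right.2 (Nat.odd_iff.2 q1))).1 hdv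
  rw [h2]
  have h3 : ∀ d ∈ m.divisors,
      (((PJ m).filter (fun t ↦ t.1 = t.2.2.1)).filter (fun t ↦ t.1 = d)).card = m / d := by
    intro d hd
    rw [Nat.mem_divisors] at hd
    obtain ⟨⟨c, hc⟩, _⟩ := hd
    have hd0 : 0 < d := Nat.pos_of_ne_zero (by rintro rfl; simp at hc; omega)
    have hdc : m / d = c := by rw [hc, Nat.mul_div_cancel_left _ hd0]
    have hdo : d % 2 = 1 := by
      rcases Nat.mod_two_eq_zero_or_one d with h | h
      · exfalso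
        have : (d * c) % 2 = 0 := by rw [Nat.mul_mod, h, zero_mul, Nat.zero_mod]
        omega
      · exact h
    rw [hdc]
    symm
    rw [← card_range c]
    apply card_bij (fun i _ ↦ (d, 2 * i + 1, d, 2 * c - (2 * i + 1)))
    · intro i hi
      rw [mem_range] at hi
      rw [mem_filter, mem_filter, mem_PJ]
      have w1 : (2 * i + 1) % 2 = 1 := by omega
      have w2 : (2 * c - (2 * i + 1)) % 2 = 1 := by omega
      refine ⟨⟨⟨hdo, w1, hdo, w2, ?_⟩, rfl⟩, rfl⟩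
      show d * (2 * i + 1) + d * (2 * c - (2 * i + 1)) = 2 * m
      rw [← mul_add, hc]
      have : 2 * i + 1 + (2 * c - (2 * i + 1)) = 2 * c := by omega
      rw [this]
      ring
    · intro i _ j _ h
      simp only [Prod.mk.injEq] at h
      omega
    · rintro ⟨x, a, e, b⟩ ht
      rw [mem_filter, mem_filter, mem_PJ] at ht
      obtain ⟨⟨⟨q1, q2, q3, q4, q5⟩, q6⟩, q7⟩ := ht
      simp only at q1 q2 q3 q4 q5 q6 q7
      subst q7
      subst q6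
      have q8 : x * (a + b) = x * (2 * c) := by rw [mul_add, q5, hc]; ring
      have q9 : a + b = 2 * c := Nat.eq_of_mul_eq_mul_left hd0 q8
      refine ⟨a / 2, ?_, ?_⟩
      · rw [mem_range]
        omega
      · simp only [Prod.mk.injEq, true_and]
        omega
  rw [sum_congr rfl h3, ArithmeticFunction.sigma_one_apply]
  have := Nat.sum_div_divisors m (fun x ↦ x)
  rw [this]

theorem sum_PJ {m : ℕ} (hm : m % 2 = 1) :
    ∑ t ∈ PJ m, c4 t.1 * c4 t.2.2.1 = (ArithmeticFunction.sigma 1 m : ℤ) := by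
  rw [← sum_diag hm]
  rw [← sum_filter_add_sum_filter_not (PJ m) (fun t ↦ t.1 = t.2.2.1)]
  have h1 : ∑ t ∈ (PJ m).filter (fun t ↦ ¬ t.1 = t.2.2.1), c4 t.1 * c4 t.2.2.1 = 0 := by
    rw [← sum_filter_add_sum_filter_not _ (fun t : ℕ × ℕ × ℕ × ℕ ↦ t.1 < t.2.2.1)]
    have e1 : ((PJ m).filter (fun t ↦ ¬ t.1 = t.2.2.1)).filter (fun t ↦ t.1 < t.2.2.1) =
        (PJ m).filter (fun t ↦ t.1 < t.2.2.1) := by
      ext t
      rw [mem_filter, mem_filter, mem_filter]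
      constructor
      · rintro ⟨⟨h, _⟩, h'⟩; exact ⟨h, h'⟩
      · rintro ⟨h, h'⟩; exact ⟨⟨h, by omega⟩, h'⟩
    have e2 : ((PJ m).filter (fun t ↦ ¬ t.1 = t.2.2.1)).filter (fun t ↦ ¬ t.1 < t.2.2.1) =
        (PJ m).filter (fun t ↦ t.2.2.1 < t.1) := by
      ext t
      rw [mem_filter, mem_filter, mem_filter]
      constructor
      · rintro ⟨⟨h, h''⟩, h'⟩; exact ⟨h, by omega⟩
      · rintro ⟨h, h'⟩; exact ⟨⟨h, by omega⟩, by omega⟩
    rw [e1, e2, sum_gt hm, sum_lt hm, add_zero]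
  rw [h1, add_zero]

/-- the odd numbers below `2 m` -/
def AJ (m : ℕ) : Finset ℕ := (range (2 * m)).filter (fun a ↦ a % 2 = 1)

theorem sum_PJ_eq (m : ℕ) :
    ∑ t ∈ PJ m, c4 t.1 * c4 t.2.2.1 = ∑ a ∈ AJ m, R2 a * R2 (2 * m - a) := by
  have hmaps : ∀ t ∈ PJ m, t.1 * t.2.1 ∈ AJ m := by
    intro t ht
    rw [mem_PJ] at ht
    obtain ⟨h1, h2, h3, h4, h5⟩ := ht
    unfold AJ
    rw [mem_filter, mem_range]
    constructor
    · have : 0 < t.2.2.1 * t.2.2.2 := Nat.mul_pos (by omega) (by omega)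
      omega
    · rw [Nat.mul_mod, h1, h2]
  rw [← sum_fiberwise_of_maps_to hmaps]
  apply sum_congr rfl
  intro a ha
  unfold AJ at ha
  rw [mem_filter, mem_range] at ha
  unfold R2
  rw [sum_mul_sum, ← sum_product']
  refine sum_bij' (fun t _ ↦ (t.1, t.2.2.1)) (fun p _ ↦ (p.1, a / p.1, p.2, (2 * m - a) / p.2))
    ?_ ?_ ?_ ?_ ?_
  · intro t ht
    rw [mem_filter, mem_PJ] at ht
    obtain ⟨⟨h1, h2, h3, h4, h5⟩, h6⟩ := ht
    rw [mem_product, Nat.mem_divisors, Nat.mem_divisors]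
    have w : 2 * m - a = t.2.2.1 * t.2.2.2 := by omega
    exact ⟨⟨⟨t.2.1, h6.symm⟩, by omega⟩, ⟨⟨t.2.2.2, w⟩, by omega⟩⟩
  · rintro ⟨d, e⟩ hp
    rw [mem_product, Nat.mem_divisors, Nat.mem_divisors] at hp
    obtain ⟨⟨hda, ha0⟩, ⟨heb, hb0⟩⟩ := hp
    simp only at hda heb
    have e1 : d * (a / d) = a := Nat.mul_div_cancel' hda
    have e2 : e * ((2 * m - a) / e) = 2 * m - a := Nat.mul_div_cancel' heb
    have o : ∀ x y z : ℕ, x * y = z → z % 2 = 1 → x % 2 = 1 ∧ y % 2 = 1 := by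
      intro x y z hxy hz
      have : Odd (x * y) := by rw [hxy]; exact Nat.odd_iff.2 hz
      rw [Nat.odd_mul] at this
      exact ⟨Nat.odd_iff.1 this.1, Nat.odd_iff.1 this.2⟩
    obtain ⟨o1, o2⟩ := o _ _ _ e1 ha.2
    obtain ⟨o3, o4⟩ := o _ _ _ e2 (by omega)
    rw [mem_filter, mem_PJ]
    refine ⟨⟨o1, o2, o3, o4, ?_⟩, e1⟩
    show d * (a / d) + e * ((2 * m - a) / e) = 2 * m
    rw [e1, e2]
    omega
  · rintro ⟨d, x, e, y⟩ ht
    rw [mem_filter, mem_PJ] at ht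
    obtain ⟨⟨h1, h2, h3, h4, h5⟩, h6⟩ := ht
    simp only at h1 h2 h3 h4 h5 h6
    simp only [Prod.mk.injEq, true_and]
    constructor
    · rw [← h6, Nat.mul_div_cancel_left _ (by omega)]
    · have : 2 * m - a = e * y := by omega
      rw [this, Nat.mul_div_cancel_left _ (by omega)]
  · intro p _
    rfl
  · intro t _
    rfl

/-- squares of odd integers -/
theorem odd_sq_mod {x : ℤ} (hx : x % 2 = 1) : x ^ 2 % 8 = 1 := by
  have : x % 8 = 1 ∨ x % 8 = 3 ∨ x % 8 = 5 ∨ x % 8 = 7 := by omega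
  rcases this with h | h | h | h <;> rw [pow_two, Int.mul_emod, h] <;> norm_num

theorem odd_of_two_mul_odd {a : ℕ} (ha : a % 2 = 1) {z : ℤ × ℤ}
    (hz : z.1 ^ 2 + z.2 ^ 2 = ((2 * a : ℕ) : ℤ)) : z.1 % 2 = 1 ∧ z.2 % 2 = 1 := by
  have h4 : (z.1 ^ 2 + z.2 ^ 2) % 4 = 2 := by
    rw [hz]
    omega
  have key : ∀ x : ℤ, x ^ 2 % 4 = 0 ∧ x % 2 = 0 ∨ x ^ 2 % 4 = 1 ∧ x % 2 = 1 := by
    intro x
    have : x % 4 = 0 ∨ x % 4 = 1 ∨ x % 4 = 2 ∨ x % 4 = 3 := by omega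
    rcases this with h | h | h | h <;> rw [pow_two, Int.mul_emod, h] <;> omega
  rcases key z.1 with h1 | h1 <;> rcases key z.2 with h2 | h2 <;> omega

theorem r2_two_odd {a : ℕ} (ha : a % 2 = 1) : ((r2set (2 * a)).card : ℤ) = 4 * R2 a := by
  rw [r2_two_mul, r2_eq a (by omega)]

theorem stJacO : StJacO := by
  intro m hm
  have hset : Q4o (4 * m) = ↑((AJ m).biUnion
      (fun a ↦ (r2set (2 * a)) ×ˢ (r2set (2 * (2 * m - a))))) := by
    ext ⟨⟨x, y⟩, ⟨z, w⟩⟩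
    rw [mem_coe, mem_biUnion]
    unfold Q4o Q4
    simp only [Set.mem_ofPred_eq, mem_product, mem_r2set]
    constructor
    · rintro ⟨h, hx, hy, hz, hw⟩
      have hx8 := odd_sq_mod hx
      have hy8 := odd_sq_mod hy
      have hz8 := odd_sq_mod hz
      have hw8 := odd_sq_mod hw
      have hx0 := sq_nonneg x
      have hy0 := sq_nonneg y
      have hz0 := sq_nonneg z
      have hw0 := sq_nonneg w
      refine ⟨((x ^ 2 + y ^ 2) / 2).toNat, ?_, ?_, ?_⟩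
      · unfold AJ
        rw [mem_filter, mem_range]
        constructor <;> omega
      · push_cast
        omega
      · omega
    · rintro ⟨a, ha, h1, h2⟩
      unfold AJ at ha
      rw [mem_filter, mem_range] at ha
      obtain ⟨hx, hy⟩ := odd_of_two_mul_odd (z := (x, y)) ha.2 h1
      obtain ⟨hz, hw⟩ := odd_of_two_mul_odd (a := 2 * m - a) (z := (z, w)) (by omega) h2
      refine ⟨?_, hx, hy, hz, hw⟩
      rw [h1, h2]
      omega
  rw [hset, Set.ncard_coe_finset, card_biUnion]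
  · have h1 : ((∑ a ∈ AJ m, (r2set (2 * a) ×ˢ r2set (2 * (2 * m - a))).card : ℕ) : ℤ) =
        16 * (ArithmeticFunction.sigma 1 m : ℤ) := by
      rw [← sum_PJ hm, sum_PJ_eq, mul_sum]
      push_cast
      apply sum_congr rfl
      intro a ha
      unfold AJ at ha
      rw [mem_filter, mem_range] at ha
      rw [card_product]
      push_cast
      rw [r2_two_odd ha.2, r2_two_odd (a := 2 * m - a) (by omega)]
      ring
    exact_mod_cast h1
  · intro a _ b _ hab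
    rw [Function.onFun, disjoint_left]
    rintro ⟨p, q⟩ h1 h2
    rw [mem_product, mem_r2set] at h1 h2
    apply hab
    have := h1.1.symm.trans h2.1
    push_cast at this
    omega

end Pool.Agent.TFS
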