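import Pool.Agent.Lib.TFS.DefsJ

set_option autoImplicit false

open Finset

namespace Pool.Agent.TFS

namespace J2

/-- the linear map `(a,b,c,d) ↦ (a+b,a-b,c+d,c-d)` -/
def f (u : (ℤ × ℤ) × (ℤ × ℤ)) : (ℤ × ℤ) × (ℤ × ℤ) :=
  ((u.1.1 + u.1.2, u.1.1 - u.1.2), (u.2.1 + u.2.2, u.2.1 - u.2.2))

/-- doubling -/
def g (u : (ℤ × ℤ) × (ℤ × ℤ)) : (ℤ × ℤ) × (ℤ × ℤ) :=
  ((2 * u.1.1, 2 * u.1.2), (2 * u.2.1, 2 * u.2.2))

/-- exchange of the second and the third coordinate -/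
def s23 (u : (ℤ × ℤ) × (ℤ × ℤ)) : (ℤ × ℤ) × (ℤ × ℤ) :=
  ((u.1.1, u.2.1), (u.1.2, u.2.2))

/-- exchange of the second and the fourth coordinate -/
def s24 (u : (ℤ × ℤ) × (ℤ × ℤ)) : (ℤ × ℤ) × (ℤ × ℤ) :=
  ((u.1.1, u.2.2), (u.2.1, u.1.2))

theorem f_inj : Function.Injective f := by
  rintro ⟨⟨a, b⟩, ⟨c, d⟩⟩ ⟨⟨a', b'⟩, ⟨c', d'⟩⟩ h
  simp only [f, Prod.mk.injEq] at h ⊢
  omega

theorem g_inj : Function.Injective g := by
  rintro ⟨⟨a, b⟩, ⟨c, d⟩⟩ ⟨⟨a', b'⟩, ⟨c', d'⟩⟩ h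
  simp only [g, Prod.mk.injEq] at h ⊢
  omega

theorem s23_inj : Function.Injective s23 := by
  rintro ⟨⟨a, b⟩, ⟨c, d⟩⟩ ⟨⟨a', b'⟩, ⟨c', d'⟩⟩ h
  simp only [s23, Prod.mk.injEq] at h ⊢
  omega

theorem s24_inj : Function.Injective s24 := by
  rintro ⟨⟨a, b⟩, ⟨c, d⟩⟩ ⟨⟨a', b'⟩, ⟨c', d'⟩⟩ h
  simp only [s24, Prod.mk.injEq] at h ⊢
  omega

theorem abs_le_sq (x : ℤ) : |x| ≤ x ^ 2 := by
  rcases eq_or_ne x 0 with hx | hx
  · subst hx; simp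
  · have := Int.one_le_abs hx
    rw [← sq_abs]; nlinarith

theorem finite_Q4 (n : ℤ) : (Q4 n).Finite := by
  have hb : (Set.Icc (-n) n).Finite := Set.finite_Icc _ _
  refine ((hb.prod hb).prod (hb.prod hb)).subset ?_
  rintro ⟨⟨a, b⟩, ⟨c, d⟩⟩ h
  simp only [Q4, Set.mem_ofPred_eq] at h
  have ha := abs_le_sq a
  have hb := abs_le_sq b
  have hc := abs_le_sq c
  have hd := abs_le_sq d
  have h1 : |a| ≤ n := by nlinarith [sq_nonneg a, sq_nonneg b, sq_nonneg c, sq_nonneg d]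
  have h2 : |b| ≤ n := by nlinarith [sq_nonneg a, sq_nonneg b, sq_nonneg c, sq_nonneg d]
  have h3 : |c| ≤ n := by nlinarith [sq_nonneg a, sq_nonneg b, sq_nonneg c, sq_nonneg d]
  have h4 : |d| ≤ n := by nlinarith [sq_nonneg a, sq_nonneg b, sq_nonneg c, sq_nonneg d]
  rw [abs_le] at h1 h2 h3 h4
  exact ⟨⟨h1, h2⟩, ⟨h3, h4⟩⟩

/-- representations whose first two entries have the same parity -/
def A (n : ℤ) : Set ((ℤ × ℤ) × (ℤ × ℤ)) := {u | u ∈ Q4 n ∧ u.1.1 % 2 = u.1.2 % 2}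

theorem sq_mod_two (x : ℤ) : x ^ 2 % 2 = x % 2 := by
  rcases Int.emod_two_eq_zero_or_one x with h | h <;> simp [pow_two, Int.mul_emod, h]

theorem image_f (n : ℤ) : f '' Q4 n = A (2 * n) := by
  ext ⟨⟨a, b⟩, ⟨c, d⟩⟩
  simp only [Set.mem_image, A, Q4, Set.mem_ofPred_eq, f, Prod.mk.injEq]
  constructor
  · rintro ⟨⟨⟨x, y⟩, ⟨z, w⟩⟩, h, ⟨h1, h2⟩, h3, h4⟩
    simp only at h h1 h2 h3 h4
    subst h1 h2 h3 h4
    refine ⟨by linarith, by omega⟩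
  · rintro ⟨h, hp⟩
    have ha := sq_mod_two a
    have hb := sq_mod_two b
    have hc := sq_mod_two c
    have hd := sq_mod_two d
    have hp2 : c % 2 = d % 2 := by omega
    obtain ⟨x, hx⟩ : ∃ x, a + b = 2 * x := ⟨(a + b) / 2, by omega⟩
    obtain ⟨y, hy⟩ : ∃ y, a - b = 2 * y := ⟨(a - b) / 2, by omega⟩
    obtain ⟨z, hz⟩ : ∃ z, c + d = 2 * z := ⟨(c + d) / 2, by omega⟩
    obtain ⟨w, hw⟩ : ∃ w, c - d = 2 * w := ⟨(c - d) / 2, by omega⟩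
    have e1 : a = x + y := by omega
    have e2 : b = x - y := by omega
    have e3 : c = z + w := by omega
    have e4 : d = z - w := by omega
    refine ⟨((x, y), (z, w)), ?_, ⟨e1.symm, e2.symm⟩, e3.symm, e4.symm⟩
    subst e1 e2 e3 e4
    simp only
    linarith

theorem ncard_A (n : ℤ) : (A (2 * n)).ncard = (Q4 n).ncard := by
  rw [← image_f, Set.ncard_image_of_injective _ f_inj]

theorem sq_mod_four (x : ℤ) : x ^ 2 % 4 = x % 2 := by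
  have h : x % 4 = 0 ∨ x % 4 = 1 ∨ x % 4 = 2 ∨ x % 4 = 3 := by omega
  rcases h with h | h | h | h <;> (simp [pow_two, Int.mul_emod, h]; omega)

theorem A_four (m : ℤ) : A (2 * (2 * m)) = Q4 (2 * (2 * m)) := by
  ext ⟨⟨a, b⟩, ⟨c, d⟩⟩
  simp only [A, Q4, Set.mem_ofPred_eq, and_iff_left_iff_imp]
  intro h
  have ha := sq_mod_four a
  have hb := sq_mod_four b
  have hc := sq_mod_four c
  have hd := sq_mod_four d
  omega

theorem ncard_four (m : ℤ) : (Q4 (2 * (2 * m))).ncard = (Q4 (2 * m)).ncard := by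
  rw [← A_four, ncard_A]

theorem ncard_four' (m : ℤ) : (Q4 (2 * (2 * m))).ncard = (Q4 m).ncard + (Q4o (4 * m)).ncard := by
  have h : Q4 (2 * (2 * m)) = (g '' Q4 m) ∪ Q4o (4 * m) := by
    ext ⟨⟨a, b⟩, ⟨c, d⟩⟩
    simp only [Set.mem_union, Set.mem_image, Q4o, Q4, Set.mem_ofPred_eq, g, Prod.mk.injEq]
    constructor
    · intro h
      have ha := sq_mod_four a
      have hb := sq_mod_four b
      have hc := sq_mod_four c
      have hd := sq_mod_four d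
      by_cases hp : a % 2 = 1
      · right
        refine ⟨by linarith, ?_⟩
        omega
      · left
        obtain ⟨x, hx⟩ : ∃ x, 2 * x = a := ⟨a / 2, by omega⟩
        obtain ⟨y, hy⟩ : ∃ y, 2 * y = b := ⟨b / 2, by omega⟩
        obtain ⟨z, hz⟩ : ∃ z, 2 * z = c := ⟨c / 2, by omega⟩
        obtain ⟨w, hw⟩ : ∃ w, 2 * w = d := ⟨d / 2, by omega⟩
        refine ⟨((x, y), (z, w)), ?_, ⟨hx, hy⟩, hz, hw⟩
        subst hx hy hz hw
        simp only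
        linarith
    · rintro (⟨⟨⟨x, y⟩, ⟨z, w⟩⟩, h, ⟨h1, h2⟩, h3, h4⟩ | ⟨h, _⟩)
      · simp only at h h1 h2 h3 h4
        subst h1 h2 h3 h4
        linarith
      · linarith
  rw [h, Set.ncard_union_eq ?_ ((finite_Q4 m).image _) ((finite_Q4 (4 * m)).subset fun u hu ↦ hu.1),
    Set.ncard_image_of_injective _ g_inj]
  rw [Set.disjoint_left]
  rintro _ ⟨⟨⟨x, y⟩, ⟨z, w⟩⟩, _, rfl⟩ ⟨_, h, _⟩
  simp only [g] at h
  omega

theorem ncard_two (m : ℤ) (hm : m % 2 = 1) : (Q4 (2 * m)).ncard = 3 * (Q4 m).ncard := by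
  have h : Q4 (2 * m) = A (2 * m) ∪ (s23 '' A (2 * m) ∪ s24 '' A (2 * m)) := by
    ext ⟨⟨a, b⟩, ⟨c, d⟩⟩
    simp only [Set.mem_union, Set.mem_image, A, Q4, Set.mem_ofPred_eq, s23, s24, Prod.mk.injEq]
    constructor
    · intro h
      have ha := sq_mod_four a
      have hb := sq_mod_four b
      have hc := sq_mod_four c
      have hd := sq_mod_four d
      by_cases hp : a % 2 = b % 2
      · exact Or.inl ⟨h, hp⟩
      · right
        by_cases hq : a % 2 = c % 2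
        · left
          exact ⟨((a, c), (b, d)), ⟨by simp only; linarith, hq⟩, ⟨rfl, rfl⟩, rfl, rfl⟩
        · right
          refine ⟨((a, d), (c, b)), ⟨by simp only; linarith, ?_⟩, ⟨rfl, rfl⟩, rfl, rfl⟩
          simp only
          omega
    · rintro (⟨h, _⟩ | ⟨⟨⟨x, y⟩, ⟨z, w⟩⟩, ⟨h, _⟩, ⟨h1, h2⟩, h3, h4⟩ |
        ⟨⟨⟨x, y⟩, ⟨z, w⟩⟩, ⟨h, _⟩, ⟨h1, h2⟩, h3, h4⟩)
      · exact h
      · simp only at h h1 h2 h3 h4
        subst h1 h2 h3 h4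
        linarith
      · simp only at h h1 h2 h3 h4
        subst h1 h2 h3 h4
        linarith
  have hfin : (A (2 * m)).Finite := (finite_Q4 (2 * m)).subset fun u hu ↦ hu.1
  have key : ∀ a b c d : ℤ, a ^ 2 + b ^ 2 + (c ^ 2 + d ^ 2) = 2 * m → a % 2 = b % 2 →
      a % 2 ≠ c % 2 ∧ a % 2 ≠ d % 2 := by
    intro a b c d h hp
    have ha := sq_mod_four a
    have hb := sq_mod_four b
    have hc := sq_mod_four c
    have hd := sq_mod_four d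
    rcases Int.emod_two_eq_zero_or_one a with ka | ka <;>
      rcases Int.emod_two_eq_zero_or_one c with kc | kc <;>
        rcases Int.emod_two_eq_zero_or_one d with kd | kd <;> omega
  rw [h, Set.ncard_union_eq ?_ hfin ((hfin.image _).union (hfin.image _)),
    Set.ncard_union_eq ?_ (hfin.image _) (hfin.image _),
    Set.ncard_image_of_injective _ s23_inj, Set.ncard_image_of_injective _ s24_inj, ncard_A]
  · ring
  · rw [Set.disjoint_left]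
    rintro _ ⟨⟨⟨x, y⟩, ⟨z, w⟩⟩, ⟨h1, h2⟩, rfl⟩ ⟨⟨⟨x', y'⟩, ⟨z', w'⟩⟩, ⟨h1', h2'⟩, h⟩
    simp only [s23, s24, Prod.mk.injEq, Q4, Set.mem_ofPred_eq] at h h1 h2 h1' h2'
    obtain ⟨⟨e1, e2⟩, e3, e4⟩ := h
    have := key _ _ _ _ h1 h2
    have := key _ _ _ _ h1' h2'
    omega
  · rw [Set.disjoint_left]
    rintro ⟨⟨a, b⟩, ⟨c, d⟩⟩ ⟨h1, h2⟩ h3
    simp only [Q4, Set.mem_ofPred_eq] at h1 h2
    have k1 := key _ _ _ _ h1 h2
    rcases h3 with ⟨⟨⟨x', y'⟩, ⟨z', w'⟩⟩, ⟨h1', h2'⟩, h⟩ | ⟨⟨⟨x', y'⟩, ⟨z', w'⟩⟩, ⟨h1', h2'⟩, h⟩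
    · simp only [s23, Prod.mk.injEq, Q4, Set.mem_ofPred_eq] at h h1' h2'
      obtain ⟨⟨e1, e2⟩, e3, e4⟩ := h
      omega
    · simp only [s24, Prod.mk.injEq, Q4, Set.mem_ofPred_eq] at h h1' h2'
      obtain ⟨⟨e1, e2⟩, e3, e4⟩ := h
      omega

end J2

theorem stJac (h : StJacO) : StJac := by
  intro m hm
  have hm' : (m : ℤ) % 2 = 1 := by omega
  have h1 := J2.ncard_four (m : ℤ)
  have h2 := J2.ncard_four' (m : ℤ)
  have h3 := J2.ncard_two (m : ℤ) hm'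
  have h4 := h m hm
  omega

end Pool.Agent.TFS
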