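import Pool.Agent.Lib.TFS.StmtsA

/-!
M2: the inner sums (smoothed sums of `χ(f)/f`).
-/

set_option autoImplicit false

open Finset MeasureTheory

namespace Pool.Agent.TFS

namespace M2

/-! ### The function `H` -/

section HH

variable (h : StPhi)

include h

theorem Hf_mono : Monotone Hf := by
  obtain ⟨h1, h2, h3, h4, h5, h6, h7, h8, h9, h10, h11⟩ := h
  exact monotone_of_hasDerivAt_nonneg h6 h2

theorem Hf_nonneg (y : ℝ) : 0 ≤ Hf y := h.2.2.2.2.2.2.1 y

theorem Hf_sub (y : ℝ) : Hf y - Hf (-y) = y := h.2.2.2.2.2.2.2.1 y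

theorem Hf_neg_le (y : ℝ) (hy : 0 ≤ y) :
    Hf (-y) ≤ Real.exp (-(Real.pi * y ^ 2)) / (2 * Real.pi) := h.2.2.2.2.2.2.2.2.2.1 y hy

theorem Hf_zero : Hf 0 = 1 / (2 * Real.pi) := by
  have := h.2.2.2.2.2.2.2.2.1 0
  simpa using this

end HH

theorem exp_neg_le (x : ℝ) (hx : 0 ≤ x) : Real.exp (-x) ≤ 1 / (1 + x) := by
  rw [Real.exp_neg, ← one_div]
  apply one_div_le_one_div_of_le (by linarith)
  have := Real.add_one_le_exp x
  linarith

/-- the smoothed weight -/
noncomputable def gg (ε : ℝ) (t : ℕ) : ℝ := 4 * ε * Hf ((1 / (ε * t) - ε * t) / 4)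

theorem inv2pi : 1 / (2 * Real.pi) ≤ 0.16 := by
  have := Real.pi_gt_d2
  rw [div_le_iff₀ (by linarith)]
  linarith

theorem HfY_le (h : StPhi) (s : ℝ) (hs : 0 < s) : Hf ((1 / s - s) / 4) ≤ 2 / s ^ 2 := by
  have hpi := Real.pi_gt_d2
  have hpi0 := Real.pi_pos
  by_cases h2 : s ≤ 2
  · have h3 : Hf ((1 / s - s) / 4) ≤ Hf (1 / (4 * s)) := by
      apply Hf_mono h
      have : 1 / (4 * s) = (1 / s) / 4 := by field_simp
      rw [this]
      linarith
    have h4 := Hf_sub h (1 / (4 * s))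
    have h5 := Hf_neg_le h (1 / (4 * s)) (by positivity)
    have h6 : Real.exp (-(Real.pi * (1 / (4 * s)) ^ 2)) ≤ 1 := by
      rw [Real.exp_le_one_iff]
      have : 0 ≤ Real.pi * (1 / (4 * s)) ^ 2 := by positivity
      linarith
    have h7 : Real.exp (-(Real.pi * (1 / (4 * s)) ^ 2)) / (2 * Real.pi) ≤ 1 / (2 * Real.pi) :=
      div_le_div_of_nonneg_right h6 (by positivity)
    have h8 := inv2pi
    have h9 : Hf ((1 / s - s) / 4) ≤ 1 / (4 * s) + 0.16 := by linarith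
    refine le_trans h9 ?_
    rw [le_div_iff₀ (by positivity)]
    have : (1 / (4 * s) + 0.16) * s ^ 2 = s / 4 + 0.16 * s ^ 2 := by field_simp
    rw [this]
    nlinarith
  · push Not at h2
    set y := (s - 1 / s) / 4 with hy
    have hinv : 1 / s ≤ s / 4 := by
      rw [div_le_div_iff₀ hs (by norm_num)]
      nlinarith
    have hy1 : 3 * s / 16 ≤ y := by
      rw [hy]
      linarith
    have hy0 : 0 < y := by
      have : 0 < 3 * s / 16 := by positivity
      linarith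
    have h3 : (1 / s - s) / 4 = -y := by
      rw [hy]
      ring
    rw [h3]
    have h5 := Hf_neg_le h y hy0.le
    have h6 := exp_neg_le (Real.pi * y ^ 2) (by positivity)
    have h7 : 1 / (1 + Real.pi * y ^ 2) ≤ 1 / (Real.pi * y ^ 2) :=
      one_div_le_one_div_of_le (by positivity) (by linarith)
    have h8 : Real.exp (-(Real.pi * y ^ 2)) / (2 * Real.pi) ≤
        (1 / (Real.pi * y ^ 2)) / (2 * Real.pi) :=
      div_le_div_of_nonneg_right (h6.trans h7) (by positivity)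
    refine le_trans (h5.trans h8) ?_
    rw [div_div, div_le_div_iff₀ (by positivity) (by positivity)]
    have h9 : (3 * s / 16) ^ 2 ≤ y ^ 2 := pow_le_pow_left₀ (by positivity) hy1 2
    have h10 : (3.14 : ℝ) * 3.14 ≤ Real.pi * Real.pi := mul_le_mul hpi.le hpi.le (by norm_num) hpi0.le
    have h11 : (3.14 : ℝ) * 3.14 * y ^ 2 ≤ Real.pi * Real.pi * y ^ 2 :=
      mul_le_mul_of_nonneg_right h10 (sq_nonneg y)
    nlinarith

theorem Jf_le (h : StPhi) (s : ℝ) (hs : 0 < s) : 4 * s * Hf ((1 / s - s) / 4) ≤ 1.04 := by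
  have hpi := Real.pi_gt_d2
  have hpi' := Real.pi_lt_d2
  have hpi0 := Real.pi_pos
  by_cases h1 : s ≤ 1
  · set y := (1 / s - s) / 4 with hy
    have hinv : s ≤ 1 / s := by
      rw [le_div_iff₀ hs]
      nlinarith
    have hy0 : 0 ≤ y := by
      rw [hy]
      linarith
    have h4 := Hf_sub h y
    have h5 := Hf_neg_le h y hy0
    have h6 := exp_neg_le (Real.pi * y ^ 2) (by positivity)
    have h7 : Real.exp (-(Real.pi * y ^ 2)) / (2 * Real.pi) ≤
        (1 / (1 + Real.pi * y ^ 2)) / (2 * Real.pi) :=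
      div_le_div_of_nonneg_right h6 (by positivity)
    have h8 : Hf y ≤ y + 1 / ((1 + Real.pi * y ^ 2) * (2 * Real.pi)) := by
      rw [div_div] at h7
      linarith
    have h9 : 4 * s * Hf y ≤ 4 * s * (y + 1 / ((1 + Real.pi * y ^ 2) * (2 * Real.pi))) :=
      mul_le_mul_of_nonneg_left h8 (by positivity)
    have h10 : 4 * s * y = 1 - s ^ 2 := by
      rw [hy]
      field_simp
    have h11 : 4 * s * (1 / ((1 + Real.pi * y ^ 2) * (2 * Real.pi))) ≤ s ^ 2 := by
      rw [mul_one_div, div_le_iff₀ (by positivity)]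
      have h12 : s * s * y ^ 2 = (1 - s ^ 2) ^ 2 / 16 := by
        have : 4 * s * y * (4 * s * y) = (1 - s ^ 2) * (1 - s ^ 2) := by rw [h10]
        nlinarith
      -- `4 s <= s^2 * (1 + pi y^2) * 2 pi`
      have h13 : s ^ 2 * ((1 + Real.pi * y ^ 2) * (2 * Real.pi)) =
          2 * Real.pi * (s ^ 2 + Real.pi * ((1 - s ^ 2) ^ 2 / 16)) := by
        rw [← h12]
        ring
      rw [h13]
      have h14 : (3.14 : ℝ) * 3.14 ≤ Real.pi * Real.pi :=
        mul_le_mul hpi.le hpi.le (by norm_num) hpi0.le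
      have h15 : (3.14 : ℝ) * 3.14 * (1 - s ^ 2) ^ 2 ≤ Real.pi * Real.pi * (1 - s ^ 2) ^ 2 :=
        mul_le_mul_of_nonneg_right h14 (sq_nonneg _)
      have h16 : 3.14 * s ^ 2 ≤ Real.pi * s ^ 2 :=
        mul_le_mul_of_nonneg_right hpi.le (sq_nonneg _)
      have h17 : 4 * s ≤ 2 * 3.14 * s ^ 2 + 3.14 * 3.14 / 8 * (1 - s ^ 2) ^ 2 := by
        nlinarith [sq_nonneg (s - 0.55), sq_nonneg (s ^ 2 - 0.3), sq_nonneg (s ^ 2), hs]
      nlinarith
    calc 4 * s * Hf y ≤ 4 * s * (y + 1 / ((1 + Real.pi * y ^ 2) * (2 * Real.pi))) := h9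
      _ = 4 * s * y + 4 * s * (1 / ((1 + Real.pi * y ^ 2) * (2 * Real.pi))) := by ring
      _ ≤ (1 - s ^ 2) + s ^ 2 := by rw [h10]; linarith
      _ ≤ 1.04 := by norm_num
  · push Not at h1
    set y := (s - 1 / s) / 4 with hy
    have hinv : 1 / s ≤ s := by
      rw [div_le_iff₀ hs]
      nlinarith
    have hy0 : 0 ≤ y := by
      rw [hy]
      linarith
    have h3 : (1 / s - s) / 4 = -y := by
      rw [hy]
      ring
    rw [h3]
    have h5 := Hf_neg_le h y hy0
    have h6 := exp_neg_le (Real.pi * y ^ 2) (by positivity)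
    have h7 : Real.exp (-(Real.pi * y ^ 2)) / (2 * Real.pi) ≤
        (1 / (1 + Real.pi * y ^ 2)) / (2 * Real.pi) :=
      div_le_div_of_nonneg_right h6 (by positivity)
    rw [div_div] at h7
    have h9 : 4 * s * Hf (-y) ≤ 4 * s * (1 / ((1 + Real.pi * y ^ 2) * (2 * Real.pi))) :=
      mul_le_mul_of_nonneg_left (h5.trans h7) (by positivity)
    refine le_trans h9 ?_
    rw [mul_one_div, div_le_iff₀ (by positivity)]
    have h12 : y ^ 2 = (s ^ 2 - 2 + 1 / s ^ 2) / 16 := by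
      rw [hy]
      field_simp
      ring
    have h13 : (s ^ 2 - 2) / 16 ≤ y ^ 2 := by
      rw [h12]
      have : 0 < 1 / s ^ 2 := by positivity
      linarith
    have h14 : (3.14 : ℝ) * 3.14 ≤ Real.pi * Real.pi :=
      mul_le_mul hpi.le hpi.le (by norm_num) hpi0.le
    have h15 : (3.14 : ℝ) * 3.14 * y ^ 2 ≤ Real.pi * Real.pi * y ^ 2 :=
      mul_le_mul_of_nonneg_right h14 (sq_nonneg y)
    have h16 : 1.04 * ((1 + Real.pi * y ^ 2) * (2 * Real.pi)) =
        2.08 * Real.pi + 2.08 * (Real.pi * Real.pi * y ^ 2) := by ring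
    rw [h16]
    nlinarith [sq_nonneg (s - 1.6)]

/-! ### The weight as a function of `f` -/

theorem gg_nonneg (h : StPhi) (ε : ℝ) (hε : 0 < ε) (t : ℕ) : 0 ≤ gg ε t := by
  unfold gg
  have := Hf_nonneg h ((1 / (ε * t) - ε * t) / 4)
  positivity

theorem gg_anti (h : StPhi) (ε : ℝ) (hε : 0 < ε) (t : ℕ) (ht : 1 ≤ t) :
    gg ε (t + 1) ≤ gg ε t := by
  unfold gg
  apply mul_le_mul_of_nonneg_left _ (by positivity)
  apply Hf_mono h
  have ht' : (0 : ℝ) < t := by exact_mod_cast ht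
  have h1 : ε * (t : ℝ) ≤ ε * ((t + 1 : ℕ) : ℝ) := by
    push_cast
    nlinarith
  have h2 : 1 / (ε * ((t + 1 : ℕ) : ℝ)) ≤ 1 / (ε * (t : ℝ)) :=
    one_div_le_one_div_of_le (by positivity) h1
  linarith

theorem gg_le (h : StPhi) (ε : ℝ) (hε : 0 < ε) (t : ℕ) (ht : 1 ≤ t) :
    gg ε t ≤ (8 / ε) * (1 / (t : ℝ) ^ 2) := by
  unfold gg
  have ht' : (0 : ℝ) < t := by exact_mod_cast ht
  have h1 := HfY_le h (ε * t) (by positivity)
  calc 4 * ε * Hf ((1 / (ε * t) - ε * t) / 4) ≤ 4 * ε * (2 / (ε * t) ^ 2) :=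
        mul_le_mul_of_nonneg_left h1 (by positivity)
    _ = (8 / ε) * (1 / (t : ℝ) ^ 2) := by
        field_simp
        ring

theorem gg_summable (h : StPhi) (ε : ℝ) (hε : 0 < ε) :
    Summable (fun t : ℕ ↦ gg ε t) := by
  have h1 : Summable (fun t : ℕ ↦ (8 / ε) * (1 / (t : ℝ) ^ 2)) :=
    (Real.summable_one_div_nat_pow.2 (by norm_num)).mul_left _
  rw [← summable_nat_add_iff 1] at h1 ⊢
  refine Summable.of_nonneg_of_le (fun t ↦ gg_nonneg h ε hε _) (fun t ↦ ?_) h1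
  exact gg_le h ε hε (t + 1) (by omega)

theorem gg_one (h : StPhi) (ε : ℝ) (hε : 0 < ε) : gg ε 1 ≤ 1.04 := by
  have := Jf_le h ε hε
  unfold gg
  simpa using this

/-- first part of the difference -/
noncomputable def uu (ε : ℝ) (t : ℕ) : ℝ := if ε * t ≤ 1 then ε * (ε * t) else ε * (1 / (ε * t))

/-- second part of the difference -/
noncomputable def vv (ε : ℝ) (t : ℕ) : ℝ := 4 * ε * Hf (-|(1 / (ε * t) - ε * t) / 4|)

theorem diff_eq (h : StPhi) (ε : ℝ) (hε : 0 < ε) (t : ℕ) (ht : 1 ≤ t) :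
    1 / (t : ℝ) - gg ε t = uu ε t - vv ε t := by
  have ht' : (0 : ℝ) < t := by exact_mod_cast ht
  have hs : 0 < ε * t := by positivity
  unfold gg uu vv
  split_ifs with h1
  · have h2 : ε * t ≤ 1 / (ε * t) := by
      rw [le_div_iff₀ hs]
      nlinarith
    have h3 : 0 ≤ (1 / (ε * t) - ε * t) / 4 := by linarith
    rw [abs_of_nonneg h3]
    have h4 := Hf_sub h ((1 / (ε * t) - ε * t) / 4)
    have h5 : Hf ((1 / (ε * t) - ε * t) / 4) =
        (1 / (ε * t) - ε * t) / 4 + Hf (-((1 / (ε * t) - ε * t) / 4)) := by linarith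
    rw [h5]
    have h6 : 4 * ε * ((1 / (ε * t) - ε * t) / 4) = 1 / t - ε * (ε * t) := by
      field_simp
    rw [mul_add, h6]
    ring
  · push Not at h1
    have h2 : 1 / (ε * t) ≤ ε * t := by
      rw [div_le_iff₀ hs]
      nlinarith
    have h3 : (1 / (ε * t) - ε * t) / 4 ≤ 0 := by linarith
    rw [abs_of_nonpos h3, neg_neg]
    congr 1
    field_simp

theorem uu_nonneg (ε : ℝ) (hε : 0 < ε) (t : ℕ) : 0 ≤ uu ε t := by
  unfold uu
  split_ifs <;> positivity

theorem uu_le (ε : ℝ) (hε : 0 < ε) (t : ℕ) : uu ε t ≤ ε := by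
  unfold uu
  split_ifs with h1
  · nlinarith
  · push Not at h1
    have : 1 / (ε * t) ≤ 1 := by
      rw [div_le_iff₀ (by linarith)]
      linarith
    nlinarith

theorem uu_inc (ε : ℝ) (hε : 0 < ε) (t : ℕ) (h1 : ε * ((t + 1 : ℕ) : ℝ) ≤ 1) :
    uu ε t ≤ uu ε (t + 1) := by
  have h2 : ε * (t : ℝ) ≤ ε * ((t + 1 : ℕ) : ℝ) := by
    push_cast
    nlinarith
  unfold uu
  rw [if_pos (h2.trans h1), if_pos h1]
  exact mul_le_mul_of_nonneg_left h2 hε.le

theorem uu_dec (ε : ℝ) (hε : 0 < ε) (t : ℕ) (h1 : ¬ ε * (t : ℝ) ≤ 1) :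
    uu ε (t + 1) ≤ uu ε t := by
  have h2 : ε * (t : ℝ) ≤ ε * ((t + 1 : ℕ) : ℝ) := by
    push_cast
    nlinarith
  have h3 : ¬ ε * ((t + 1 : ℕ) : ℝ) ≤ 1 := fun hh ↦ h1 (h2.trans hh)
  push Not at h1
  unfold uu
  rw [if_neg h3, if_neg (not_le.2 h1)]
  apply mul_le_mul_of_nonneg_left _ hε.le
  exact one_div_le_one_div_of_le (by linarith) h2

theorem vv_nonneg (h : StPhi) (ε : ℝ) (hε : 0 < ε) (t : ℕ) : 0 ≤ vv ε t := by
  unfold vv
  have := Hf_nonneg h (-|(1 / (ε * t) - ε * t) / 4|)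
  positivity

theorem vv_le (h : StPhi) (ε : ℝ) (hε : 0 < ε) (t : ℕ) : vv ε t ≤ 0.64 * ε := by
  unfold vv
  have h1 : Hf (-|(1 / (ε * t) - ε * t) / 4|) ≤ Hf 0 := by
    apply Hf_mono h
    have := abs_nonneg ((1 / (ε * t) - ε * t) / 4)
    linarith
  rw [Hf_zero h] at h1
  have h2 := inv2pi
  have h3 : 4 * ε * Hf (-|(1 / (ε * t) - ε * t) / 4|) ≤ 4 * ε * 0.16 :=
    mul_le_mul_of_nonneg_left (h1.trans h2) (by positivity)
  linarith

theorem vv_inc (h : StPhi) (ε : ℝ) (hε : 0 < ε) (t : ℕ) (ht : 1 ≤ t)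
    (h1 : ε * ((t + 1 : ℕ) : ℝ) ≤ 1) : vv ε t ≤ vv ε (t + 1) := by
  have ht' : (0 : ℝ) < t := by exact_mod_cast ht
  have h2 : ε * (t : ℝ) ≤ ε * ((t + 1 : ℕ) : ℝ) := by
    push_cast
    nlinarith
  have h4 : 1 / (ε * ((t + 1 : ℕ) : ℝ)) ≤ 1 / (ε * (t : ℝ)) :=
    one_div_le_one_div_of_le (by positivity) h2
  have h5 : (1 : ℝ) ≤ 1 / (ε * ((t + 1 : ℕ) : ℝ)) := by
    rw [le_div_iff₀ (by positivity)]
    linarith
  unfold vv
  apply mul_le_mul_of_nonneg_left _ (by positivity)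
  apply Hf_mono h
  rw [abs_of_nonneg (by linarith), abs_of_nonneg (by linarith)]
  linarith

theorem vv_dec (h : StPhi) (ε : ℝ) (hε : 0 < ε) (t : ℕ) (ht : 1 ≤ t)
    (h1 : ¬ ε * (t : ℝ) ≤ 1) : vv ε (t + 1) ≤ vv ε t := by
  have ht' : (0 : ℝ) < t := by exact_mod_cast ht
  push Not at h1
  have h2 : ε * (t : ℝ) ≤ ε * ((t + 1 : ℕ) : ℝ) := by
    push_cast
    nlinarith
  have h4 : 1 / (ε * ((t + 1 : ℕ) : ℝ)) ≤ 1 / (ε * (t : ℝ)) :=
    one_div_le_one_div_of_le (by positivity) h2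
  have h5 : 1 / (ε * (t : ℝ)) ≤ 1 := by
    rw [div_le_iff₀ (by positivity)]
    linarith
  unfold vv
  apply mul_le_mul_of_nonneg_left _ (by positivity)
  apply Hf_mono h
  rw [abs_of_nonpos (by linarith), abs_of_nonpos (by linarith)]
  linarith

/-! ### Total variation of unimodal sequences -/

theorem tv_le (u : ℕ → ℝ) (P : ℕ → Prop) (M : ℝ) (h0 : ∀ n, 1 ≤ n → 0 ≤ u n)
    (hM : ∀ n, 1 ≤ n → u n ≤ M) (hinc : ∀ n, 1 ≤ n → P (n + 1) → u n ≤ u (n + 1))
    (hP : ∀ n, P (n + 1) → P n) (hdec : ∀ n, 1 ≤ n → ¬ P n → u (n + 1) ≤ u n) (N : ℕ)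
    (hN : 1 ≤ N) :
    (P N → ∑ f ∈ Ico 1 N, |u f - u (f + 1)| ≤ u N) ∧
      ∑ f ∈ Ico 1 N, |u f - u (f + 1)| ≤ 2 * M - u N := by
  induction N, hN using Nat.le_induction with
  | base =>
    rw [Finset.Ico_self, Finset.sum_empty]
    exact ⟨fun _ ↦ h0 1 le_rfl, by linarith [hM 1 le_rfl, h0 1 le_rfl]⟩
  | succ N hN ih =>
    obtain ⟨ih1, ih2⟩ := ih
    rw [Finset.sum_Ico_succ_top hN]
    have a1 := hM (N + 1) (by omega)
    have a2 := hM N hN
    have a3 := h0 (N + 1) (by omega)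
    have a4 := h0 N hN
    constructor
    · intro hp
      have h1 := hinc N hN hp
      rw [abs_of_nonpos (by linarith)]
      have := ih1 (hP N hp)
      linarith
    · by_cases hp : P N
      · have h1 := ih1 hp
        rcases le_total (u N) (u (N + 1)) with h2 | h2
        · rw [abs_of_nonpos (by linarith)]
          linarith
        · rw [abs_of_nonneg (by linarith)]
          linarith
      · have h1 := hdec N hN hp
        rw [abs_of_nonneg (by linarith)]
        linarith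

theorem uu_tv (ε : ℝ) (hε : 0 < ε) (N : ℕ) (hN : 1 ≤ N) :
    ∑ f ∈ Ico 1 N, |uu ε f - uu ε (f + 1)| ≤ 2 * ε - uu ε N := by
  refine (tv_le (uu ε) (fun n ↦ ε * (n : ℝ) ≤ 1) ε (fun n _ ↦ uu_nonneg ε hε n)
    (fun n _ ↦ uu_le ε hε n) (fun n _ hp ↦ uu_inc ε hε n hp) (fun n hp ↦ ?_)
    (fun n _ hp ↦ uu_dec ε hε n hp) N hN).2
  refine le_trans ?_ hp
  push_cast
  nlinarith

theorem vv_tv (h : StPhi) (ε : ℝ) (hε : 0 < ε) (N : ℕ) (hN : 1 ≤ N) :
    ∑ f ∈ Ico 1 N, |vv ε f - vv ε (f + 1)| ≤ 2 * (0.64 * ε) - vv ε N := by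
  refine (tv_le (vv ε) (fun n ↦ ε * (n : ℝ) ≤ 1) (0.64 * ε) (fun n _ ↦ vv_nonneg h ε hε n)
    (fun n _ ↦ vv_le h ε hε n) (fun n hn hp ↦ vv_inc h ε hε n hn hp) (fun n hp ↦ ?_)
    (fun n hn hp ↦ vv_dec h ε hε n hn hp) N hN).2
  refine le_trans ?_ hp
  push_cast
  nlinarith

/-! ### The character -/

/-- the character on the set `DD m` -/
noncomputable def cm (m f : ℕ) : ℝ := open Classical in if DD m f then ch f else 0

/-- integral version -/
def ci (b : Bool) (f : ℕ) : ℤ :=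
  if f % 2 = 0 then 0 else if b && (f % 3 == 0) then 0 else if f % 4 = 1 then 1 else -1

theorem cm_eq (m f : ℕ) : cm m f = (ci (decide (m ≠ 0)) f : ℝ) := by
  unfold cm ci DD ch
  rw [ZMod.χ₄_nat_eq_if_mod_four]
  by_cases h2 : f % 2 = 0
  · have hD : ¬ (f % 2 = 1 ∧ (m ≠ 0 → f % 3 ≠ 0)) := fun hh ↦ by
      have := hh.1
      omega
    rw [if_neg hD, if_pos h2]
    simp
  · have h2' : f % 2 = 1 := by omega
    rw [if_neg h2]
    by_cases hm : m = 0
    · rw [if_pos ⟨h2', fun hh ↦ absurd hm hh⟩]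
      simp [hm, h2]
    · by_cases h3 : f % 3 = 0
      · rw [if_neg (fun hh ↦ hh.2 hm h3)]
        simp [hm, h3]
      · rw [if_pos ⟨h2', fun _ ↦ h3⟩]
        simp [hm, h2, h3]

/-- finite sums -/
def Si (b : Bool) (N : ℕ) : ℤ := ∑ f ∈ range N, ci b f

theorem Si_false (N : ℕ) : Si false N = if N % 4 = 2 ∨ N % 4 = 3 then 1 else 0 := by
  induction N with
  | zero => rfl
  | succ N ih =>
    unfold Si at ih ⊢
    rw [Finset.sum_range_succ, ih]
    simp only [ci, Bool.false_and, Bool.false_eq_true, if_false]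
    split_ifs <;> omega

theorem Si_true (N : ℕ) : Si true N =
    if N % 12 = 0 ∨ N % 12 = 1 then 0 else if N % 12 = 6 ∨ N % 12 = 7 then 2 else 1 := by
  induction N with
  | zero => rfl
  | succ N ih =>
    unfold Si at ih ⊢
    rw [Finset.sum_range_succ, ih]
    simp only [ci, Bool.true_and, beq_iff_eq]
    split_ifs <;> omega

theorem Si_bounds (b : Bool) (N : ℕ) : 0 ≤ Si b N ∧ Si b N ≤ 2 ∧ (b = false → Si b N ≤ 1) := by
  cases b
  · rw [Si_false]
    split_ifs <;> simp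
  · rw [Si_true]
    split_ifs <;> simp

/-- finite sums, real version -/
noncomputable def Sm (m N : ℕ) : ℝ := ∑ f ∈ range N, cm m f

theorem Sm_eq (m N : ℕ) : Sm m N = (Si (decide (m ≠ 0)) N : ℝ) := by
  unfold Sm Si
  push_cast
  exact Finset.sum_congr rfl (fun f _ ↦ cm_eq m f)

theorem Sm_nonneg (m N : ℕ) : 0 ≤ Sm m N := by
  rw [Sm_eq]
  exact_mod_cast (Si_bounds _ N).1

theorem Sm_le_two (m N : ℕ) : Sm m N ≤ 2 := by
  rw [Sm_eq]
  exact_mod_cast (Si_bounds _ N).2.1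

theorem Sm_le_one (N : ℕ) : Sm 0 N ≤ 1 := by
  rw [Sm_eq]
  exact_mod_cast (Si_bounds _ N).2.2 (by simp)

theorem cm_abs (m f : ℕ) : |cm m f| ≤ 1 := by
  rw [cm_eq]
  unfold ci
  split_ifs <;> simp

theorem cm_zero (m : ℕ) : cm m 0 = 0 := by
  rw [cm_eq]
  simp [ci]

theorem Sm_one (m : ℕ) : Sm m 1 = 0 := by
  unfold Sm
  rw [Finset.sum_range_one, cm_zero]

/-- Abel summation -/
theorem abel (m : ℕ) (k : ℕ → ℝ) (N : ℕ) (hN : 1 ≤ N) :
    ∑ f ∈ range N, cm m f * k f =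
      Sm m N * k N + ∑ f ∈ Ico 1 N, Sm m (f + 1) * (k f - k (f + 1)) := by
  induction N, hN using Nat.le_induction with
  | base =>
    rw [Finset.Ico_self, Finset.sum_empty, Finset.sum_range_one, cm_zero, Sm_one]
    ring
  | succ N hN ih =>
    rw [Finset.sum_range_succ, ih, Finset.sum_Ico_succ_top hN]
    have : Sm m (N + 1) = Sm m N + cm m N := by
      unfold Sm
      rw [Finset.sum_range_succ]
    rw [this]
    ring

theorem tele (k : ℕ → ℝ) (N : ℕ) (hN : 1 ≤ N) :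
    ∑ f ∈ Ico 1 N, (k f - k (f + 1)) = k 1 - k N := by
  induction N, hN using Nat.le_induction with
  | base => simp
  | succ N hN ih =>
    rw [Finset.sum_Ico_succ_top hN, ih]
    ring

/-- upper and lower bounds for the smoothed finite sums -/
theorem psum_bounds (h : StPhi) (m : ℕ) (ε : ℝ) (hε : 0 < ε) (C : ℝ)
    (hC : ∀ N, Sm m N ≤ C) (N : ℕ) (hN : 1 ≤ N) :
    0 ≤ ∑ f ∈ range N, cm m f * gg ε f ∧ ∑ f ∈ range N, cm m f * gg ε f ≤ C * gg ε 1 := by
  rw [abel m (gg ε) N hN]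
  constructor
  · apply add_nonneg (mul_nonneg (Sm_nonneg m N) (gg_nonneg h ε hε N))
    apply Finset.sum_nonneg
    intro f hf
    have := gg_anti h ε hε f (Finset.mem_Ico.1 hf).1
    exact mul_nonneg (Sm_nonneg _ _) (by linarith)
  · have h1 : ∑ f ∈ Ico 1 N, Sm m (f + 1) * (gg ε f - gg ε (f + 1)) ≤
        ∑ f ∈ Ico 1 N, C * (gg ε f - gg ε (f + 1)) := by
      apply Finset.sum_le_sum
      intro f hf
      have := gg_anti h ε hε f (Finset.mem_Ico.1 hf).1
      exact mul_le_mul_of_nonneg_right (hC _) (by linarith)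
    rw [← Finset.mul_sum, tele _ N hN] at h1
    have h2 : Sm m N * gg ε N ≤ C * gg ε N :=
      mul_le_mul_of_nonneg_right (hC _) (gg_nonneg h ε hε N)
    nlinarith

/-- the difference of the finite sums -/
theorem diff_bound (h : StPhi) (m : ℕ) (ε : ℝ) (hε : 0 < ε) (N : ℕ) (hN : 1 ≤ N) :
    |∑ f ∈ range N, cm m f * (1 / (f : ℝ) - gg ε f)| ≤
      |1 / ((1 : ℕ) : ℝ) - gg ε 1| + 3.28 * ε := by
  set k : ℕ → ℝ := fun f ↦ 1 / (f : ℝ) - gg ε f with hk
  have h0 : ∑ f ∈ range N, cm m f * (1 / (f : ℝ) - gg ε f) = ∑ f ∈ range N, cm m f * k f := rfl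
  rw [h0, abel m k N hN]
  have h1 : ∑ f ∈ Ico 1 N, Sm m (f + 1) * (k f - k (f + 1)) =
      ∑ f ∈ Ico 1 N, (Sm m (f + 1) - 1) * (k f - k (f + 1)) + (k 1 - k N) := by
    rw [← tele k N hN, ← Finset.sum_add_distrib]
    exact Finset.sum_congr rfl (fun f _ ↦ by ring)
  have h2 : |∑ f ∈ Ico 1 N, (Sm m (f + 1) - 1) * (k f - k (f + 1))| ≤
      (2 * ε - uu ε N) + (2 * (0.64 * ε) - vv ε N) := by
    refine le_trans (Finset.abs_sum_le_sum_abs _ _) ?_
    refine le_trans ?_ (add_le_add (uu_tv ε hε N hN) (vv_tv h ε hε N hN))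
    rw [← Finset.sum_add_distrib]
    apply Finset.sum_le_sum
    intro f hf
    have hf1 := (Finset.mem_Ico.1 hf).1
    rw [abs_mul]
    have a1 : |Sm m (f + 1) - 1| ≤ 1 := by
      rw [abs_le]
      constructor
      · linarith [Sm_nonneg m (f + 1)]
      · linarith [Sm_le_two m (f + 1)]
    have a2 : k f - k (f + 1) = (uu ε f - uu ε (f + 1)) - (vv ε f - vv ε (f + 1)) := by
      have b1 := diff_eq h ε hε f hf1
      have b2 := diff_eq h ε hε (f + 1) (by omega)
      simp only [hk]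
      linarith
    calc |Sm m (f + 1) - 1| * |k f - k (f + 1)| ≤ 1 * |k f - k (f + 1)| :=
          mul_le_mul_of_nonneg_right a1 (abs_nonneg _)
      _ = |(uu ε f - uu ε (f + 1)) - (vv ε f - vv ε (f + 1))| := by rw [one_mul, a2]
      _ ≤ |uu ε f - uu ε (f + 1)| + |vv ε f - vv ε (f + 1)| := abs_sub _ _
  have h3 : k N = uu ε N - vv ε N := diff_eq h ε hε N hN
  have h4 : |(Sm m N - 1) * k N| ≤ uu ε N + vv ε N := by
    rw [abs_mul]
    have a1 : |Sm m N - 1| ≤ 1 := by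
      rw [abs_le]
      constructor
      · linarith [Sm_nonneg m N]
      · linarith [Sm_le_two m N]
    have a2 : |k N| ≤ uu ε N + vv ε N := by
      rw [h3, abs_le]
      constructor
      · linarith [uu_nonneg ε hε N, vv_nonneg h ε hε N]
      · linarith [uu_nonneg ε hε N, vv_nonneg h ε hε N]
    calc |Sm m N - 1| * |k N| ≤ 1 * |k N| := mul_le_mul_of_nonneg_right a1 (abs_nonneg _)
      _ ≤ _ := by linarith
  have h5 : Sm m N * k N + ∑ f ∈ Ico 1 N, Sm m (f + 1) * (k f - k (f + 1)) =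
      (Sm m N - 1) * k N + ∑ f ∈ Ico 1 N, (Sm m (f + 1) - 1) * (k f - k (f + 1)) + k 1 := by
    rw [h1]
    ring
  rw [h5]
  have h6 : |k 1| = |1 / ((1 : ℕ) : ℝ) - gg ε 1| := rfl
  rw [← h6]
  refine le_trans (abs_add_le _ _) ?_
  have h7 := abs_add_le ((Sm m N - 1) * k N)
    (∑ f ∈ Ico 1 N, (Sm m (f + 1) - 1) * (k f - k (f + 1)))
  linarith

/-! ### The series -/

theorem cm_false (f : ℕ) : cm 0 f = (ci false f : ℝ) := by
  rw [cm_eq]
  rfl

theorem cm_true (m f : ℕ) (hm : m ≠ 0) : cm m f = (ci true f : ℝ) := by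
  rw [cm_eq, decide_eq_true hm]

theorem ci_even (b : Bool) (f : ℕ) (h : f % 2 = 0) : ci b f = 0 := by
  unfold ci
  rw [if_pos h]

theorem ci_one (b : Bool) (k : ℕ) : ci b (6 * k + 1) = (-1) ^ k := by
  have h2 : ¬ (6 * k + 1) % 2 = 0 := by omega
  have h3 : ¬ (b && ((6 * k + 1) % 3 == 0)) = true := by
    simp only [Bool.and_eq_true, beq_iff_eq, not_and]
    intro _
    omega
  unfold ci
  rw [if_neg h2, if_neg h3]
  rcases Nat.even_or_odd' k with ⟨j, rfl | rfl⟩
  · rw [if_pos (by omega)]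
    simp [pow_mul]
  · rw [if_neg (by omega)]
    simp [pow_succ, pow_mul]

theorem ci_five (b : Bool) (k : ℕ) : ci b (6 * k + 5) = (-1) ^ k := by
  have h2 : ¬ (6 * k + 5) % 2 = 0 := by omega
  have h3 : ¬ (b && ((6 * k + 5) % 3 == 0)) = true := by
    simp only [Bool.and_eq_true, beq_iff_eq, not_and]
    intro _
    omega
  unfold ci
  rw [if_neg h2, if_neg h3]
  rcases Nat.even_or_odd' k with ⟨j, rfl | rfl⟩
  · rw [if_pos (by omega)]
    simp [pow_mul]
  · rw [if_neg (by omega)]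
    simp [pow_succ, pow_mul]

theorem ci_three_false (k : ℕ) : ci false (6 * k + 3) = -(-1) ^ k := by
  have h2 : ¬ (6 * k + 3) % 2 = 0 := by omega
  have h3 : ¬ (false && ((6 * k + 3) % 3 == 0)) = true := by simp
  unfold ci
  rw [if_neg h2, if_neg h3]
  rcases Nat.even_or_odd' k with ⟨j, rfl | rfl⟩
  · rw [if_neg (by omega)]
    simp [pow_mul]
  · rw [if_pos (by omega)]
    simp [pow_succ, pow_mul]

theorem ci_three_true (k : ℕ) : ci true (6 * k + 3) = 0 := by
  have h2 : ¬ (6 * k + 3) % 2 = 0 := by omega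
  have h3 : (true && ((6 * k + 3) % 3 == 0)) = true := by
    simp only [Bool.and_eq_true, beq_iff_eq, true_and]
    omega
  unfold ci
  rw [if_neg h2, if_pos h3]

theorem leib (k : ℕ) : ∑ f ∈ range (6 * k), cm 0 f * (1 / (f : ℝ)) =
    ∑ i ∈ range (3 * k), (-1 : ℝ) ^ i / (2 * i + 1) := by
  induction k with
  | zero => simp
  | succ k ih =>
    have e1 : 6 * (k + 1) = 6 * k + 1 + 1 + 1 + 1 + 1 + 1 := by ring
    have e2 : 3 * (k + 1) = 3 * k + 1 + 1 + 1 := by ring
    rw [e1, e2]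
    simp only [Finset.sum_range_succ]
    rw [ih]
    have c0 : cm 0 (6 * k) = 0 := by rw [cm_false, ci_even _ _ (by omega)]; simp
    have c1 : cm 0 (6 * k + 1) = (-1) ^ k := by rw [cm_false, ci_one]; simp
    have c2 : cm 0 (6 * k + 1 + 1) = 0 := by rw [cm_false, ci_even _ _ (by omega)]; simp
    have c3 : cm 0 (6 * k + 1 + 1 + 1) = -(-1) ^ k := by rw [cm_false, ci_three_false]; simp
    have c4 : cm 0 (6 * k + 1 + 1 + 1 + 1) = 0 := by rw [cm_false, ci_even _ _ (by omega)]; simp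
    have c5 : cm 0 (6 * k + 1 + 1 + 1 + 1 + 1) = (-1) ^ k := by rw [cm_false, ci_five]; simp
    rw [c0, c1, c2, c3, c4, c5]
    have p0 : (-1 : ℝ) ^ (3 * k) = (-1) ^ k := by
      rw [pow_mul]
      norm_num
    push_cast
    rw [pow_succ, pow_succ, pow_succ, p0]
    ring_nf

theorem leib2 (m : ℕ) (hm : m ≠ 0) (k : ℕ) : ∑ f ∈ range (6 * k), cm m f * (1 / (f : ℝ)) =
    ∑ i ∈ range (3 * k), (-1 : ℝ) ^ i / (2 * i + 1) +
      (1 / 3) * ∑ i ∈ range k, (-1 : ℝ) ^ i / (2 * i + 1) := by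
  induction k with
  | zero => simp
  | succ k ih =>
    have e1 : 6 * (k + 1) = 6 * k + 1 + 1 + 1 + 1 + 1 + 1 := by ring
    have e2 : 3 * (k + 1) = 3 * k + 1 + 1 + 1 := by ring
    rw [e1, e2]
    simp only [Finset.sum_range_succ]
    rw [ih]
    have c0 : cm m (6 * k) = 0 := by rw [cm_true m _ hm, ci_even _ _ (by omega)]; simp
    have c1 : cm m (6 * k + 1) = (-1) ^ k := by rw [cm_true m _ hm, ci_one]; simp
    have c2 : cm m (6 * k + 1 + 1) = 0 := by rw [cm_true m _ hm, ci_even _ _ (by omega)]; simp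
    have c3 : cm m (6 * k + 1 + 1 + 1) = 0 := by rw [cm_true m _ hm, ci_three_true]; simp
    have c4 : cm m (6 * k + 1 + 1 + 1 + 1) = 0 := by
      rw [cm_true m _ hm, ci_even _ _ (by omega)]; simp
    have c5 : cm m (6 * k + 1 + 1 + 1 + 1 + 1) = (-1) ^ k := by
      rw [cm_true m _ hm, ci_five]; simp
    rw [c0, c1, c2, c3, c4, c5]
    have p0 : (-1 : ℝ) ^ (3 * k) = (-1) ^ k := by
      rw [pow_mul]
      norm_num
    have q0 : (1 : ℝ) / (2 * (3 * (k : ℝ) + 1) + 1) = (1 / 3) * (1 / (2 * (k : ℝ) + 1)) := by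
      have : (0 : ℝ) ≤ k := Nat.cast_nonneg k
      field_simp
      ring
    push_cast
    rw [pow_succ, pow_succ, pow_succ, p0]
    have q1 : (-1 : ℝ) ^ k * -1 / (2 * (3 * (k : ℝ) + 1) + 1) =
        -((-1 : ℝ) ^ k) * ((1 / 3) * (1 / (2 * (k : ℝ) + 1))) := by
      rw [← q0]; ring
    rw [q1]
    ring_nf

theorem lim (m : ℕ) : Filter.Tendsto (fun k : ℕ ↦ ∑ f ∈ range (6 * k), cm m f * (1 / (f : ℝ)))
    Filter.atTop (nhds (Lm m)) := by
  have h1 := Real.tendsto_sum_pi_div_four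
  have h3 : Filter.Tendsto (fun k : ℕ ↦ 3 * k) Filter.atTop Filter.atTop :=
    Filter.tendsto_id.const_mul_atTop' (by norm_num)
  have h2 := h1.comp h3
  unfold Lm
  split_ifs with hm
  · subst hm
    refine h2.congr (fun k ↦ ?_)
    rw [leib]
    rfl
  · have h4 := h2.add (h1.const_mul (1 / 3))
    have e : Real.pi / 4 + 1 / 3 * (Real.pi / 4) = Real.pi / 3 := by ring
    rw [e] at h4
    refine h4.congr (fun k ↦ ?_)
    rw [leib2 m hm]
    rfl

end M2

open M2

theorem stInner (h : StPhi) : StInner := by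
  intro m ε hε
  have e1 : ∀ f : ℕ, (open Classical in if DD m f then ch f / f * Jf (ε * f) else 0) =
      cm m f * gg ε f := by
    intro f
    unfold cm gg Jf
    split_ifs with hD
    · have hf : (0 : ℝ) < f := by
        have : f % 2 = 1 := hD.1
        have h1 : 0 < f := by omega
        exact_mod_cast h1
      field_simp
    · simp
  have e2 : ∀ f : ℕ, (open Classical in if DD m f then 1 / (f : ℝ) * Jf (ε * f) else 0) =
      (open Classical in if DD m f then gg ε f else 0) := by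
    intro f
    unfold gg Jf
    split_ifs with hD
    · have hf : (0 : ℝ) < f := by
        have : f % 2 = 1 := hD.1
        have h1 : 0 < f := by omega
        exact_mod_cast h1
      field_simp
    · rfl
  have s0 := gg_summable h ε hε
  have s1 : Summable (fun f : ℕ ↦ cm m f * gg ε f) := by
    refine Summable.of_norm_bounded s0 (fun f ↦ ?_)
    rw [norm_mul, Real.norm_eq_abs, Real.norm_eq_abs, abs_of_nonneg (gg_nonneg h ε hε f)]
    have := mul_le_mul_of_nonneg_right (cm_abs m f) (gg_nonneg h ε hε f)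
    linarith
  have s2 : Summable (fun f : ℕ ↦ (open Classical in if DD m f then gg ε f else 0)) := by
    refine Summable.of_nonneg_of_le (fun f ↦ ?_) (fun f ↦ ?_) s0
    · split_ifs
      · exact gg_nonneg h ε hε f
      · exact le_rfl
    · split_ifs
      · exact le_rfl
      · exact gg_nonneg h ε hε f
  refine ⟨?_, ?_, ?_⟩
  · exact s1.congr (fun f ↦ (e1 f).symm)
  · exact s2.congr (fun f ↦ (e2 f).symm)
  · rw [tsum_congr e1]
    set A := ∑' f : ℕ, cm m f * gg ε f with hA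
    have hlimA : Filter.Tendsto (fun N : ℕ ↦ ∑ f ∈ range N, cm m f * gg ε f) Filter.atTop
        (nhds A) := s1.hasSum.tendsto_sum_nat
    have h6 : Filter.Tendsto (fun k : ℕ ↦ 6 * k) Filter.atTop Filter.atTop :=
      Filter.tendsto_id.const_mul_atTop' (by norm_num)
    have hpi := Real.pi_gt_d2
    have hpi' := Real.pi_lt_d2
    by_cases hq : ε < 1 / 4
    · have hd : Filter.Tendsto (fun k : ℕ ↦ |∑ f ∈ range (6 * k), cm m f * gg ε f -
          ∑ f ∈ range (6 * k), cm m f * (1 / (f : ℝ))|) Filter.atTop (nhds |A - Lm m|) :=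
        ((hlimA.comp h6).sub (lim m)).abs
      have hb : ∀ᶠ k : ℕ in Filter.atTop, |∑ f ∈ range (6 * k), cm m f * gg ε f -
          ∑ f ∈ range (6 * k), cm m f * (1 / (f : ℝ))| ≤ 3.92 * ε := by
        filter_upwards [Filter.eventually_ge_atTop 1] with k hk
        have h7 := diff_bound h m ε hε (6 * k) (by omega)
        have h8 : |1 / ((1 : ℕ) : ℝ) - gg ε 1| ≤ 0.64 * ε := by
          rw [diff_eq h ε hε 1 le_rfl]
          have u1 : uu ε 1 ≤ 0.64 * ε := by
            unfold uu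
            rw [if_pos (by push_cast; linarith)]
            push_cast
            nlinarith
          have u0 := uu_nonneg ε hε 1
          have v1 := vv_le h ε hε 1
          have v0 := vv_nonneg h ε hε 1
          rw [abs_le]
          constructor <;> linarith
        rw [← abs_neg]
        have h9 : -(∑ f ∈ range (6 * k), cm m f * gg ε f -
            ∑ f ∈ range (6 * k), cm m f * (1 / (f : ℝ))) =
            ∑ f ∈ range (6 * k), cm m f * (1 / (f : ℝ) - gg ε f) := by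
          rw [neg_sub, ← Finset.sum_sub_distrib]
          exact Finset.sum_congr rfl (fun f _ ↦ by ring)
        rw [h9]
        linarith
      have h10 : |A - Lm m| ≤ 3.92 * ε := le_of_tendsto hd hb
      have h11 : 0 ≤ √ε := Real.sqrt_nonneg ε
      have h12 : √ε * √ε = ε := Real.mul_self_sqrt hε.le
      have h13 : √ε ≤ 1 / 2 := by
        rw [Real.sqrt_le_left (by norm_num)]
        linarith
      nlinarith
    · push Not at hq
      have h13 : 1 / 2 ≤ √ε := by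
        apply Real.le_sqrt_of_sq_le
        linarith
      have hg := gg_one h ε hε
      have hC : ∃ C : ℝ, (∀ N, Sm m N ≤ C) ∧ 0 ≤ C ∧ C * 1.04 - Lm m ≤ 1.05 ∧
          Lm m ≤ 1.05 := by
        unfold Lm
        by_cases hm : m = 0
        · subst hm
          refine ⟨1, Sm_le_one, by norm_num, ?_, ?_⟩
          · rw [if_pos rfl]
            linarith
          · rw [if_pos rfl]
            linarith
        · refine ⟨2, Sm_le_two m, by norm_num, ?_, ?_⟩
          · rw [if_neg hm]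
            linarith
          · rw [if_neg hm]
            linarith
      obtain ⟨C, hC1, hC0, hC2, hC3⟩ := hC
      have hA0 : 0 ≤ A := by
        refine ge_of_tendsto hlimA ?_
        filter_upwards [Filter.eventually_ge_atTop 1] with N hN
        exact (psum_bounds h m ε hε C hC1 N hN).1
      have hA1 : A ≤ C * gg ε 1 := by
        refine le_of_tendsto hlimA ?_
        filter_upwards [Filter.eventually_ge_atTop 1] with N hN
        exact (psum_bounds h m ε hε C hC1 N hN).2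
      have hA2 : C * gg ε 1 ≤ C * 1.04 := mul_le_mul_of_nonneg_left hg hC0
      rw [abs_le]
      constructor <;> linarith

end Pool.Agent.TFS
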