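import Pool.Agent.Lib.TFS.StmtsA
import Mathlib.NumberTheory.LSeries.DirichletContinuation
import Mathlib.NumberTheory.LSeries.HurwitzZetaValues

/-! M3: the zeta factor. -/

set_option autoImplicit false

open Finset

namespace Pool.Agent.TFS

theorem m3_primeFactors (p : ℕ) (hp : p.Prime) (h2 : p ≠ 2) (f : ℕ → ℂ) :
    ∏ l ∈ (6 * p).primeFactors, f l = f 2 * f 3 * (if p = 3 then 1 else f p) := by
  have e6 : (6 * p).primeFactors = insert 2 (insert 3 {p}) := by
    rw [Nat.primeFactors_mul (by norm_num) hp.ne_zero, show (6 : ℕ) = 2 * 3 by norm_num,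
      Nat.primeFactors_mul (by norm_num) (by norm_num), Nat.Prime.primeFactors Nat.prime_two,
      Nat.Prime.primeFactors Nat.prime_three, hp.primeFactors]
    ext x
    simp
  rw [e6]
  by_cases h3 : p = 3
  · subst h3
    rw [show (insert 2 (insert 3 {3}) : Finset ℕ) = {2, 3} by decide,
      Finset.prod_pair (by norm_num)]
    simp
  · rw [Finset.prod_insert (by simp [Ne.symm h2]), Finset.prod_pair (Ne.symm h3), if_neg h3]
    ring

theorem m3_first (p : ℕ) (hp : p.Prime) (h2 : p ≠ 2) :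
    ∑' b : ℕ, (if b.Coprime (6 * p) then (ArithmeticFunction.moebius b : ℝ) / (b : ℝ) ^ 2 else 0) =
    (9 / Real.pi ^ 2) * (if p = 3 then 1 else 1 / (1 - 1 / (p : ℝ) ^ 2)) := by
  have hp0 : 0 < p := hp.pos
  have : NeZero (6 * p) := ⟨by positivity⟩
  have hs : 1 < (2 : ℂ).re := by norm_num
  have h1 := DirichletCharacter.LSeries.mul_mu_eq_one (1 : DirichletCharacter ℂ (6 * p)) hs
  have h3 := DirichletCharacter.LFunctionTrivChar_eq_mul_riemannZeta (N := 6 * p)
    (s := 2) (by norm_num)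
  rw [DirichletCharacter.LFunctionTrivChar, DirichletCharacter.LFunction_eq_LSeries _ hs] at h3
  rw [h3, riemannZeta_two, m3_primeFactors p hp h2] at h1
  have hM : LSeries ((fun n : ℕ ↦ (1 : DirichletCharacter ℂ (6 * p)) n) *
      (fun n : ℕ ↦ ((ArithmeticFunction.moebius n : ℤ) : ℂ))) 2 =
      ((∑' b : ℕ, (if b.Coprime (6 * p) then
        (ArithmeticFunction.moebius b : ℝ) / (b : ℝ) ^ 2 else 0) : ℝ) : ℂ) := by
    rw [Complex.ofReal_tsum, LSeries]
    refine tsum_congr fun n ↦ ?_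
    rw [LSeries.term_def]
    by_cases hn : n = 0
    · subst hn
      rw [if_pos rfl]
      simp
    · rw [if_neg hn, Pi.mul_apply]
      by_cases hc : n.Coprime (6 * p)
      · rw [if_pos hc, MulChar.one_apply ((ZMod.isUnit_iff_coprime n (6 * p)).2 hc)]
        push_cast
        simp
      · rw [if_neg hc, MulChar.map_nonunit _ (fun h ↦ hc ((ZMod.isUnit_iff_coprime n (6 * p)).1 h))]
        simp
  set M : ℝ := ∑' b : ℕ, (if b.Coprime (6 * p) then
        (ArithmeticFunction.moebius b : ℝ) / (b : ℝ) ^ 2 else 0) with hMd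
  rw [hM] at h1
  have h2' : ((2 : ℂ) ^ (-2 : ℂ)) = ((1 / 4 : ℝ) : ℂ) := by
    rw [Complex.cpow_neg, Complex.cpow_ofNat]; push_cast; norm_num
  have h3' : ((3 : ℂ) ^ (-2 : ℂ)) = ((1 / 9 : ℝ) : ℂ) := by
    rw [Complex.cpow_neg, Complex.cpow_ofNat]; push_cast; norm_num
  have hp' : ((p : ℂ) ^ (-2 : ℂ)) = ((1 / (p : ℝ) ^ 2 : ℝ) : ℂ) := by
    rw [Complex.cpow_neg, Complex.cpow_ofNat]; push_cast; simp
  push_cast at h1
  rw [h2', h3', hp'] at h1
  have hpi : (Real.pi : ℝ) ≠ 0 := Real.pi_ne_zero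
  have h4 : (1 - 1 / 4 : ℝ) * (1 - 1 / 9) * (if p = 3 then 1 else (1 - 1 / (p : ℝ) ^ 2)) *
      (Real.pi ^ 2 / 6) * M = 1 := by
    have := h1
    split_ifs at this ⊢ with h
    · exact_mod_cast this
    · exact_mod_cast this
  split_ifs at h4 ⊢ with h
  · field_simp
    nlinarith [h4]
  · have hpp : (1 : ℝ) - 1 / (p : ℝ) ^ 2 ≠ 0 := by
      intro h0
      rw [h0] at h4
      norm_num at h4
    rw [show (9 / Real.pi ^ 2) * (1 / (1 - 1 / (p : ℝ) ^ 2)) =
      9 / (Real.pi ^ 2 * (1 - 1 / (p : ℝ) ^ 2)) by rw [div_mul_div_comm, mul_one], eq_div_iff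
      (by positivity)]
    linear_combination (9 : ℝ) * h4

/-- the majorant -/
noncomputable def m3F (b : ℕ) : ℝ := if b.Coprime 6 then 1 / ((b : ℝ) * √(b : ℝ)) else 0

noncomputable def m3G (x : ℝ) : ℝ := 1 / (3 * √(x - 3))

theorem m3_step (x : ℝ) (hx : 3 < x) : 1 / (x * √x) ≤ m3G x - m3G (x + 6) := by
  unfold m3G
  have e1 : x + 6 - 3 = x + 3 := by ring
  rw [e1]
  have ha : 0 < √(x - 3) := Real.sqrt_pos.2 (by linarith)
  have hb : 0 < √(x + 3) := Real.sqrt_pos.2 (by linarith)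
  have hc : 0 < √x := Real.sqrt_pos.2 (by linarith)
  set a := √(x - 3) with hA
  set b := √(x + 3) with hB
  set c := √x with hC
  have ea : a ^ 2 = x - 3 := Real.sq_sqrt (by linarith)
  have eb : b ^ 2 = x + 3 := Real.sq_sqrt (by linarith)
  have ec : c ^ 2 = x := Real.sq_sqrt (by linarith)
  have hab : a < b := Real.sqrt_lt_sqrt (by linarith) (by linarith)
  have h1 : a + b ≤ 2 * c := by nlinarith [sq_nonneg (a - b)]
  have h2 : a * b ≤ x := by nlinarith [sq_nonneg (a - b)]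
  have h3 : (b - a) * (a + b) = 6 := by nlinarith
  rw [div_sub_div _ _ (by positivity) (by positivity), div_le_div_iff₀ (by positivity) (by positivity)]
  have h4 : 3 * (a * b) ≤ (b - a) * (x * c) := by
    have : (b - a) * (2 * c) ≥ 6 := by nlinarith
    nlinarith [mul_pos ha hb]
  nlinarith [h4]

theorem m3_le (k : ℕ) (hk : 2 ≤ k) : ∑ b ∈ range (6 * k - 2), m3F b ≤
    1.1437 + (m3G 11 + m3G 13) - (m3G (6 * k - 1) + m3G (6 * k + 1)) := by
  induction k, hk using Nat.le_induction with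
  | base =>
    have e5 : √(5 : ℝ) ≥ 2.236 := by
      exact (Real.le_sqrt' (by norm_num)).2 (by norm_num)
    have e7 : √(7 : ℝ) ≥ 2.6457 := by
      exact (Real.le_sqrt' (by norm_num)).2 (by norm_num)
    have h5 : 1 / (5 * √5) ≤ (1 : ℝ) / (5 * 2.236) := by gcongr
    have h7 : 1 / (7 * √7) ≤ (1 : ℝ) / (7 * 2.6457) := by gcongr
    have hs : ∑ b ∈ range (6 * 2 - 2), m3F b = 1 + 1 / (5 * √5) + 1 / (7 * √7) := by
      simp only [m3F]
      norm_num [Finset.sum_range_succ, Nat.Coprime]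
    rw [hs]
    have e1 : (6 * ((2 : ℕ) : ℝ) - 1) = 11 := by norm_num
    have e2 : (6 * ((2 : ℕ) : ℝ) + 1) = 13 := by norm_num
    rw [e1, e2]
    norm_num at h5 h7 ⊢
    linarith
  | succ k hk ih =>
    have e0 : 6 * (k + 1) - 2 = 6 * k - 2 + 6 := by omega
    rw [e0]
    obtain ⟨j, hj⟩ : ∃ j, 6 * k - 2 = j := ⟨_, rfl⟩
    have hj' : j + 2 = 6 * k := by omega
    rw [hj] at ih ⊢
    rw [Finset.sum_range_succ, Finset.sum_range_succ, Finset.sum_range_succ,
      Finset.sum_range_succ, Finset.sum_range_succ, Finset.sum_range_succ]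
    have n6 : ∀ b : ℕ, (b % 2 = 0 ∨ b % 3 = 0) → m3F b = 0 := by
      intro b hb
      rw [m3F, if_neg]
      intro hc
      have h2 : b.Coprime 2 := Nat.Coprime.coprime_dvd_right (by norm_num) hc
      have h3 : b.Coprime 3 := Nat.Coprime.coprime_dvd_right (by norm_num) hc
      rcases hb with hb | hb
      · have : 2 ∣ b := Nat.dvd_of_mod_eq_zero hb
        have := Nat.Coprime.eq_one_of_dvd h2.symm this
        omega
      · have : 3 ∣ b := Nat.dvd_of_mod_eq_zero hb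
        have := Nat.Coprime.eq_one_of_dvd h3.symm this
        omega
    have z0 := n6 j (by omega)
    have z2 := n6 (j + 2) (by omega)
    have z4 := n6 (j + 4) (by omega)
    have z5 := n6 (j + 5) (by omega)
    have hF : ∀ b : ℕ, 3 < (b : ℝ) → m3F b ≤ m3G b - m3G (b + 6) := by
      intro b hb
      have h := m3_step (b : ℝ) hb
      rw [m3F]
      split_ifs
      · exact h
      · refine le_trans ?_ h
        positivity
    have hkr : (2 : ℝ) ≤ k := by exact_mod_cast hk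
    have hjr : (j : ℝ) + 2 = 6 * k := by exact_mod_cast hj'
    have s1 := hF (j + 1) (by push_cast; linarith)
    have s3 := hF (j + 3) (by push_cast; linarith)
    rw [z0, z2, z4, z5]
    push_cast at s1 s3 ⊢
    have t1 : (j : ℝ) + 1 = 6 * k - 1 := by linarith
    have t3 : (j : ℝ) + 3 = 6 * k + 1 := by linarith
    rw [t1] at s1
    rw [t3] at s3
    have u1 : (6 * ((k : ℝ) + 1) - 1) = 6 * k - 1 + 6 := by ring
    have u3 : (6 * ((k : ℝ) + 1) + 1) = 6 * k + 1 + 6 := by ring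
    rw [u1, u3]
    linarith

theorem m3F_nonneg (b : ℕ) : 0 ≤ m3F b := by
  rw [m3F]
  split_ifs <;> positivity

theorem m3_le' (n : ℕ) : ∑ b ∈ range n, m3F b ≤ 1.38 := by
  have h1 : ∑ b ∈ range n, m3F b ≤ ∑ b ∈ range (6 * (n + 2) - 2), m3F b :=
    Finset.sum_le_sum_of_subset_of_nonneg (Finset.range_subset_range.2 (by omega))
      (fun b _ _ ↦ m3F_nonneg b)
  have h2 := m3_le (n + 2) (by omega)
  have h3 : 0 ≤ m3G (6 * ((n + 2 : ℕ) : ℝ) - 1) := by rw [m3G]; positivity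
  have h4 : 0 ≤ m3G (6 * ((n + 2 : ℕ) : ℝ) + 1) := by rw [m3G]; positivity
  have e8 : √(8 : ℝ) ≥ 2.82 := by
    exact (Real.le_sqrt' (by norm_num)).2 (by norm_num)
  have e10 : √(10 : ℝ) ≥ 3.16 := by
    exact (Real.le_sqrt' (by norm_num)).2 (by norm_num)
  have h5 : m3G 11 ≤ 1 / (3 * 2.82) := by
    rw [m3G, show (11 : ℝ) - 3 = 8 by norm_num]
    gcongr
  have h6 : m3G 13 ≤ 1 / (3 * 3.16) := by
    rw [m3G, show (13 : ℝ) - 3 = 10 by norm_num]
    gcongr
  norm_num at h5 h6 ⊢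
  linarith

theorem m3_second :
    Summable (fun b : ℕ ↦ if b.Coprime 6 ∧ Squarefree b then 1 / ((b : ℝ) * √(b : ℝ)) else 0) ∧
  ∑' b : ℕ, (if b.Coprime 6 ∧ Squarefree b then 1 / ((b : ℝ) * √(b : ℝ)) else 0) ≤ 1.38 := by
  have hn : ∀ b : ℕ, 0 ≤ (if b.Coprime 6 ∧ Squarefree b then 1 / ((b : ℝ) * √(b : ℝ)) else 0) := by
    intro b
    split_ifs <;> positivity
  have hle : ∀ b : ℕ, (if b.Coprime 6 ∧ Squarefree b then 1 / ((b : ℝ) * √(b : ℝ)) else 0) ≤
      m3F b := by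
    intro b
    rw [m3F]
    split_ifs with h1 h2 h2
    · exact le_rfl
    · exact absurd h1.1 h2
    · positivity
    · exact le_rfl
  have hs : ∀ n, ∑ b ∈ range n,
      (if b.Coprime 6 ∧ Squarefree b then 1 / ((b : ℝ) * √(b : ℝ)) else 0) ≤ 1.38 :=
    fun n ↦ le_trans (Finset.sum_le_sum fun b _ ↦ hle b) (m3_le' n)
  have hsum := summable_of_sum_range_le hn hs
  exact ⟨hsum, hsum.tsum_le_of_sum_range_le hs⟩

/-- M3 -/
theorem stZeta : StZeta := fun p hp h2 ↦ ⟨m3_first p hp.out h2, m3_second⟩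

end Pool.Agent.TFS
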