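import Pool.Agent.Lib.TFS.StmtsA

/-!
M4: the main term sum.
-/

set_option autoImplicit false

open Finset MeasureTheory

namespace Pool.Agent.TFS

open Pool.Agent.Lib.MP_0e0027_nt

/-- the function `J` is `O(1/s)` -/
lemma m4_J (hP : StPhi) (s : ℝ) (hs : 0 < s) : 0 ≤ Jf s ∧ Jf s ≤ 40 / s := by
  obtain ⟨-, -, -, -, -, -, hH0, hH1, -, hH2, -⟩ := hP
  have hpi : (3 : ℝ) < Real.pi := Real.pi_gt_three
  constructor
  · unfold Jf
    have := hH0 ((1 / s - s) / 4)
    positivity
  · rw [le_div_iff₀ hs]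
    unfold Jf
    rcases le_or_gt s 1 with h | h
    · have hY : 0 ≤ (1 / s - s) / 4 := by
        have : s ≤ 1 / s := by
          rw [le_div_iff₀ hs]; nlinarith
        linarith
      have e1 := hH1 ((1 / s - s) / 4)
      have e2 := hH2 _ hY
      have e3 : Real.exp (-(Real.pi * ((1 / s - s) / 4) ^ 2)) / (2 * Real.pi) ≤ 1 / 6 := by
        have : Real.exp (-(Real.pi * ((1 / s - s) / 4) ^ 2)) ≤ 1 := by
          rw [Real.exp_le_one_iff]
          have : 0 ≤ Real.pi * ((1 / s - s) / 4) ^ 2 := by positivity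
          linarith
        rw [div_le_div_iff₀ (by positivity) (by norm_num)]
        nlinarith
      have e4 : Hf ((1 / s - s) / 4) ≤ (1 / s - s) / 4 + 1 / 6 := by linarith
      have e5 : (1 / s) * s = 1 := by field_simp
      have e6 := hH0 ((1 / s - s) / 4)
      nlinarith [mul_nonneg hs.le hs.le, mul_le_mul_of_nonneg_left e4 (mul_nonneg hs.le hs.le)]
    · set y := (s - 1 / s) / 4 with hy
      have hs1 : 1 / s < 1 := by rw [div_lt_one hs]; exact h
      have hy0 : 0 ≤ y := by rw [hy]; linarith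
      have e0 : (1 / s - s) / 4 = -y := by rw [hy]; ring
      have e1 := hH2 y hy0
      rw [e0]
      have e2 : Real.exp (-(Real.pi * y ^ 2)) ≤ 1 / (1 + Real.pi * y ^ 2) := by
        rw [Real.exp_neg, ← one_div]
        apply one_div_le_one_div_of_le (by positivity)
        have := Real.add_one_le_exp (Real.pi * y ^ 2)
        linarith
      have e3 : s ≤ 4 * y + 1 := by rw [hy]; linarith
      have e4 : 4 * s ^ 2 ≤ 240 * (1 + Real.pi * y ^ 2) := by
        nlinarith [sq_nonneg (4 * y - 1), sq_nonneg y]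
      have e5 : Hf (-y) ≤ 1 / (1 + Real.pi * y ^ 2) / 6 := by
        refine e1.trans ?_
        have : Real.exp (-(Real.pi * y ^ 2)) / (2 * Real.pi) ≤ Real.exp (-(Real.pi * y ^ 2)) / 6 := by
          apply div_le_div_of_nonneg_left (Real.exp_pos _).le (by norm_num) (by linarith)
        refine this.trans ?_
        linarith
      have e6 : 4 * s * Hf (-y) * s = 4 * s ^ 2 * Hf (-y) := by ring
      rw [e6]
      calc 4 * s ^ 2 * Hf (-y) ≤ 4 * s ^ 2 * (1 / (1 + Real.pi * y ^ 2) / 6) := by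
            apply mul_le_mul_of_nonneg_left e5 (by positivity)
        _ ≤ 240 * (1 + Real.pi * y ^ 2) * (1 / (1 + Real.pi * y ^ 2) / 6) := by
            apply mul_le_mul_of_nonneg_right e4 (by positivity)
        _ = 40 := by field_simp; norm_num

lemma m4_ch (d : ℕ) : |ch d| ≤ 1 := by
  unfold ch
  rcases ZMod.isQuadratic_χ₄ (d : ZMod 4) with h | h | h <;> rw [h] <;> norm_num

/-- the triple sum -/
noncomputable def m4F (m p ν : ℕ) (D : ℝ) (t : ℕ × ℕ × ℕ) : ℝ :=
  open Classical in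
  if t.1 ∣ ν ∧ t.1.Coprime (6 * p) ∧ t.2.1.Coprime (6 * p) ∧ DD m t.2.2 then
    (ArithmeticFunction.moebius t.2.1 : ℝ) / ((t.1 : ℝ) * (t.2.1 : ℝ) ^ 2) *
      (ch t.2.2 / (t.2.2 : ℝ)) * Jf (((t.1 * t.2.1 * t.2.2 : ℕ) : ℝ) / D) else 0

lemma m4_summable (hP : StPhi) (m p ν : ℕ) (D : ℝ) (hν : 1 ≤ ν) (hD : 0 < D) :
    Summable (m4F m p ν D) := by
  have h2 : Summable (fun n : ℕ ↦ 1 / (n : ℝ) ^ 2) := Real.summable_one_div_nat_pow.mpr (by norm_num)
  have h22 := h2.mul_of_nonneg h2 (fun n ↦ by positivity) (fun n ↦ by positivity)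
  have h222 := h2.mul_of_nonneg h22 (fun n ↦ by positivity) (fun n ↦ by positivity)
  have h3 := h222.mul_left (40 * D)
  apply Summable.of_norm_bounded h3
  rintro ⟨a, b, f⟩
  rw [Real.norm_eq_abs]
  unfold m4F
  split_ifs with h
  · obtain ⟨ha, hac, hb, hf⟩ := h
    simp only at *
    have ha1 : 1 ≤ a := Nat.pos_of_dvd_of_pos ha hν
    have hb1 : 1 ≤ b := by
      rcases Nat.eq_zero_or_pos b with h0 | h0
      · subst h0
        rw [Nat.coprime_zero_left] at hb
        omega
      · exact h0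
    have hf1 : 1 ≤ f := by
      rcases Nat.eq_zero_or_pos f with h0 | h0
      · subst h0; exact absurd hf.1 (by norm_num)
      · exact h0
    have hs : 0 < ((a * b * f : ℕ) : ℝ) / D := by
      have : 0 < a * b * f := by positivity
      positivity
    obtain ⟨j0, j1⟩ := m4_J hP _ hs
    have ha' : (0 : ℝ) < a := by exact_mod_cast ha1
    have hb' : (1 : ℝ) ≤ b := by exact_mod_cast hb1
    have hf' : (0 : ℝ) < f := by exact_mod_cast hf1
    have hmu : |(ArithmeticFunction.moebius b : ℝ)| ≤ 1 := by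
      have := ArithmeticFunction.abs_moebius_le_one (n := b)
      exact_mod_cast this
    rw [abs_mul, abs_mul, abs_div, abs_div, abs_of_nonneg j0]
    have k1 : |(ArithmeticFunction.moebius b : ℝ)| / |(a : ℝ) * (b : ℝ) ^ 2| ≤ 1 / (a * b ^ 2) := by
      rw [abs_of_pos (by positivity : (0 : ℝ) < (a : ℝ) * (b : ℝ) ^ 2)]
      gcongr
    have k2 : |ch f| / |(f : ℝ)| ≤ 1 / f := by
      rw [abs_of_pos hf']
      have := m4_ch f
      gcongr
    calc |(ArithmeticFunction.moebius b : ℝ)| / |(a : ℝ) * (b : ℝ) ^ 2| * (|ch f| / |(f : ℝ)|) *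
          Jf (((a * b * f : ℕ) : ℝ) / D)
        ≤ 1 / (a * b ^ 2) * (1 / f) * (40 / (((a * b * f : ℕ) : ℝ) / D)) := by
          gcongr
      _ = 40 * D * (1 / (a : ℝ) ^ 2 * (1 / (b : ℝ) ^ 2 * (1 / (f : ℝ) ^ 2))) * (1 / b) := by
          push_cast
          field_simp
      _ ≤ 40 * D * (1 / (a : ℝ) ^ 2 * (1 / (b : ℝ) ^ 2 * (1 / (f : ℝ) ^ 2))) * 1 := by
          have : 1 / (b : ℝ) ≤ 1 := by
            rw [div_le_one (by positivity)]; exact hb'
          gcongr
      _ = _ := by ring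
  · rw [abs_zero]
    positivity

lemma m4_DD_mul (m a b : ℕ) : DD m (a * b) ↔ DD m a ∧ DD m b := by
  unfold DD
  have h2 : (a * b) % 2 = 1 ↔ a % 2 = 1 ∧ b % 2 = 1 := by
    rw [Nat.mul_mod]
    rcases Nat.mod_two_eq_zero_or_one a with h | h <;> rcases Nat.mod_two_eq_zero_or_one b with h' | h' <;>
      simp [h, h']
  have h3 : (a * b) % 3 ≠ 0 ↔ a % 3 ≠ 0 ∧ b % 3 ≠ 0 := by
    have h := Nat.Prime.dvd_mul (m := a) (n := b) Nat.prime_three
    simp only [Nat.dvd_iff_mod_eq_zero] at h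
    tauto
  rw [h2, h3]
  tauto

lemma m4_cop (m p a : ℕ) [Fact p.Prime] (hm : m = 0 ↔ p = 3) (ha : DD m a) :
    a.Coprime (6 * p) ↔ a.Coprime p := by
  constructor
  · intro h
    exact Nat.Coprime.coprime_dvd_right (Dvd.intro_left 6 rfl) h
  · intro h
    apply Nat.Coprime.mul_right _ h
    have h2 : a.Coprime 2 := by
      rw [Nat.coprime_comm, Nat.Prime.coprime_iff_not_dvd Nat.prime_two]
      have := ha.1
      omega
    have h3 : a.Coprime 3 := by
      by_cases h0 : m = 0
      · rw [← hm.mp h0]; exact h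
      · rw [Nat.coprime_comm, Nat.Prime.coprime_iff_not_dvd Nat.prime_three]
        have := ha.2 h0
        omega
    exact Nat.Coprime.mul_right h2 h3

lemma m4_cop_DD (m p a : ℕ) (ha : a.Coprime (6 * p)) : DD m a := by
  have h6 : a.Coprime 6 := Nat.Coprime.coprime_dvd_right (Dvd.intro p rfl) ha
  have h2 : a.Coprime 2 := Nat.Coprime.coprime_dvd_right (by norm_num) h6
  have h3 : a.Coprime 3 := Nat.Coprime.coprime_dvd_right (by norm_num) h6
  rw [Nat.coprime_comm, Nat.Prime.coprime_iff_not_dvd Nat.prime_two] at h2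
  rw [Nat.coprime_comm, Nat.Prime.coprime_iff_not_dvd Nat.prime_three] at h3
  exact ⟨by omega, fun _ ↦ by omega⟩

lemma m4_fiber (h1 : StRho) (m p ν : ℕ) [Fact p.Prime] (D : ℝ) (hp2 : p ≠ 2) (hm : m = 0 ↔ p = 3)
    (hν : 1 ≤ ν) (d : ℕ) :
    (open Classical in if DD m d then
      ch d * rhoN ν p (p ^ 2 * d) / ((p ^ 2 * d : ℕ) : ℝ) ^ 2 * Jf (d / D) else 0) =
    r4 ν p * ∑' t : (fun t : ℕ × ℕ × ℕ ↦ t.1 * t.2.1 * t.2.2) ⁻¹' {d}, m4F m p ν D t := by
  classical
  split_ifs with hd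
  · rw [h1 p d hp2 hd.1 ν hν, mul_assoc]
    congr 1
    have hd0 : d ≠ 0 := by
      rintro rfl; exact absurd hd.1 (by norm_num)
    rw [_root_.tsum_subtype, tsum_eq_sum (s := (d.divisors ×ˢ d.divisors ×ˢ d.divisors).filter
      (fun t ↦ t.1 * t.2.1 * t.2.2 = d ∧ (t.1 ∣ ν ∧ t.1.Coprime p) ∧ t.2.1.Coprime p))]
    · rw [Finset.sum_mul, Finset.sum_congr rfl (fun a _ ↦ Finset.sum_mul _ _ _), Finset.sum_sigma']
      refine Finset.sum_bij' (fun x _ ↦ (x.1, x.2, d / x.1 / x.2)) (fun t _ ↦ ⟨t.1, t.2.1⟩) ?_ ?_ ?_ ?_ ?_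
      · rintro ⟨a, b⟩ hab
        simp only [mem_sigma, mem_filter, Nat.mem_divisors] at hab
        obtain ⟨⟨⟨⟨e, he⟩, -⟩, haν, hap⟩, ⟨hb1, hb2⟩, hbp⟩ := hab
        have ha0 : 0 < a := by
          rcases Nat.eq_zero_or_pos a with h | h
          · subst h; simp at he; exact absurd he hd0
          · exact h
        have e1 : d / a = e := by rw [he, Nat.mul_div_cancel_left _ ha0]
        rw [e1] at hb1
        obtain ⟨f, hf⟩ := hb1
        have hb0 : 0 < b := by
          rcases Nat.eq_zero_or_pos b with h | h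
          · subst h; simp at hf; subst hf; simp at he; exact absurd he hd0
          · exact h
        have e2 : d / a / b = f := by rw [e1, hf, Nat.mul_div_cancel_left _ hb0]
        simp only [mem_filter, mem_product, Nat.mem_divisors]
        rw [e2]
        refine ⟨⟨⟨⟨e, he⟩, hd0⟩, ⟨⟨a * f, by rw [he, hf]; ring⟩, hd0⟩, ⟨⟨a * b, by rw [he, hf]; ring⟩, hd0⟩⟩, by rw [he, hf]; ring,
          ⟨haν, hap⟩, hbp⟩
      · rintro ⟨a, b, f⟩ ht
        simp only [mem_filter, mem_product, Nat.mem_divisors] at ht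
        obtain ⟨-, habf, ⟨haν, hap⟩, hbp⟩ := ht
        have ha0 : 0 < a := by
          rcases Nat.eq_zero_or_pos a with h | h
          · subst h; simp at habf; exact absurd habf.symm hd0
          · exact h
        have e1 : d / a = b * f := by rw [← habf, mul_assoc, Nat.mul_div_cancel_left _ ha0]
        simp only [mem_sigma, mem_filter, Nat.mem_divisors]
        rw [e1]
        refine ⟨⟨⟨⟨b * f, by rw [← habf]; ring⟩, hd0⟩, haν, hap⟩, ⟨⟨f, rfl⟩, ?_⟩, hbp⟩
        intro h
        rw [mul_assoc, h, mul_zero] at habf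
        exact hd0 habf.symm
      · rintro ⟨a, b⟩ hab
        rfl
      · rintro ⟨a, b, f⟩ ht
        simp only [mem_filter, mem_product, Nat.mem_divisors] at ht
        obtain ⟨-, habf, -, -⟩ := ht
        have ha0 : 0 < a := by
          rcases Nat.eq_zero_or_pos a with h | h
          · subst h; simp at habf; exact absurd habf.symm hd0
          · exact h
        have hb0 : 0 < b := by
          rcases Nat.eq_zero_or_pos b with h | h
          · subst h; simp at habf; exact absurd habf.symm hd0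
          · exact h
        have e2 : d / a / b = f := by
          rw [← habf, mul_assoc, Nat.mul_div_cancel_left _ ha0, Nat.mul_div_cancel_left _ hb0]
        simp only [e2]
      · rintro ⟨a, b⟩ hab
        simp only [mem_sigma, mem_filter, Nat.mem_divisors] at hab
        obtain ⟨⟨⟨⟨e, he⟩, -⟩, haν, hap⟩, ⟨hb1, hb2⟩, hbp⟩ := hab
        have ha0 : 0 < a := by
          rcases Nat.eq_zero_or_pos a with h | h
          · subst h; simp at he; exact absurd he hd0
          · exact h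
        have e1 : d / a = e := by rw [he, Nat.mul_div_cancel_left _ ha0]
        rw [e1] at hb1
        obtain ⟨f, hf⟩ := hb1
        have hb0 : 0 < b := by
          rcases Nat.eq_zero_or_pos b with h | h
          · subst h; simp at hf; subst hf; simp at he; exact absurd he hd0
          · exact h
        have e2 : d / a / b = f := by rw [e1, hf, Nat.mul_div_cancel_left _ hb0]
        have e3 : a * b * f = d := by rw [he, hf]; ring
        simp only
        rw [e2, Set.indicator_of_mem (by simp [e3])]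
        unfold m4F
        have hd' := hd
        rw [← e3, m4_DD_mul, m4_DD_mul] at hd'
        obtain ⟨⟨hda, hdb⟩, hdf⟩ := hd'
        rw [if_pos ⟨haν, (m4_cop m p a hm hda).mpr hap, (m4_cop m p b hm hdb).mpr hbp, hdf⟩]
        simp only [e3]
    · rintro ⟨a, b, f⟩ ht
      by_cases habf : a * b * f = d
      · rw [Set.indicator_of_mem (by simp [habf])]
        unfold m4F
        rw [if_neg]
        rintro ⟨k1, k2, k3, k4⟩
        simp only at k1 k2 k3 k4
        apply ht
        simp only [mem_filter, mem_product, Nat.mem_divisors]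
        refine ⟨⟨⟨⟨b * f, by rw [← habf]; ring⟩, hd0⟩, ⟨⟨a * f, by rw [← habf]; ring⟩, hd0⟩,
          ⟨⟨a * b, by rw [← habf]; ring⟩, hd0⟩⟩, habf, ⟨k1, ?_⟩, ?_⟩
        · exact Nat.Coprime.coprime_dvd_right (Dvd.intro_left 6 rfl) k2
        · exact Nat.Coprime.coprime_dvd_right (Dvd.intro_left 6 rfl) k3
      · rw [Set.indicator_of_notMem (by simpa using habf)]
  · have : ∀ t : (fun t : ℕ × ℕ × ℕ ↦ t.1 * t.2.1 * t.2.2) ⁻¹' {d}, m4F m p ν D t = 0 := by
      rintro ⟨⟨a, b, f⟩, ht⟩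
      simp only [Set.mem_preimage, Set.mem_singleton_iff] at ht
      unfold m4F
      rw [if_neg]
      rintro ⟨k1, k2, k3, k4⟩
      simp only at k1 k2 k3 k4
      apply hd
      rw [← ht, m4_DD_mul, m4_DD_mul]
      exact ⟨⟨m4_cop_DD m p a k2, m4_cop_DD m p b k3⟩, k4⟩
    simp only [this, tsum_zero, mul_zero]

/-- the inner sum -/
noncomputable def m4I (m : ℕ) (ε : ℝ) : ℝ :=
  ∑' f : ℕ, (open Classical in if DD m f then ch f / f * Jf (ε * f) else 0)

lemma m4_inner (m p ν a b : ℕ) (D : ℝ) :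
    (∑' f : ℕ, m4F m p ν D (a, b, f)) =
      if a ∣ ν ∧ a.Coprime (6 * p) ∧ b.Coprime (6 * p) then
        (ArithmeticFunction.moebius b : ℝ) / ((a : ℝ) * (b : ℝ) ^ 2) * m4I m ((a * b : ℝ) / D) else 0 := by
  classical
  split_ifs with h
  · unfold m4I
    rw [← tsum_mul_left]
    congr 1
    ext f
    unfold m4F
    by_cases hf : DD m f
    · rw [if_pos ⟨h.1, h.2.1, h.2.2, hf⟩, if_pos hf]
      simp only
      push_cast
      rw [show (a : ℝ) * b * f / D = (a : ℝ) * b / D * f by ring]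
      ring
    · rw [if_neg (fun h ↦ hf h.2.2.2), if_neg hf, mul_zero]
  · have : ∀ f, m4F m p ν D (a, b, f) = 0 := by
      intro f
      unfold m4F
      rw [if_neg]
      intro k
      exact h ⟨k.1, k.2.1, k.2.2.1⟩
    simp only [this, tsum_zero]

/-- the `b`-sum for fixed `a` -/
lemma m4_b (hP : StPhi) (h2 : StInner) (h3 : StZeta) (m p ν : ℕ) [Fact p.Prime] (D : ℝ) (hp2 : p ≠ 2)
    (hm : m = 0 ↔ p = 3)
    (hν : 1 ≤ ν) (hD : 0 < D) (a : ℕ) (ha : a ∣ ν) (hac : a.Coprime (6 * p)) :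
    |(∑' b : ℕ, ∑' f : ℕ, m4F m p ν D (a, b, f)) - 1 / (a : ℝ) * KM m p| ≤
      2.9 / √D * (1 / √(a : ℝ)) := by
  classical
  have ha0 : 0 < a := Nat.pos_of_dvd_of_pos ha hν
  have ha0' : (0 : ℝ) < a := by exact_mod_cast ha0
  obtain ⟨z1, z2, z3⟩ := h3 p hp2
  -- KM as a sum
  have hK : 1 / (a : ℝ) * KM m p = ∑' b : ℕ, (if b.Coprime (6 * p) then
      (ArithmeticFunction.moebius b : ℝ) / ((a : ℝ) * (b : ℝ) ^ 2) * Lm m else 0) := by
    have e1 : (fun b : ℕ ↦ (if b.Coprime (6 * p) then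
        (ArithmeticFunction.moebius b : ℝ) / ((a : ℝ) * (b : ℝ) ^ 2) * Lm m else 0)) =
        fun b : ℕ ↦ (Lm m / a) * (if b.Coprime (6 * p) then
          (ArithmeticFunction.moebius b : ℝ) / (b : ℝ) ^ 2 else 0) := by
      ext b
      split_ifs
      · ring
      · ring
    rw [e1, tsum_mul_left, z1]
    have hpi : Real.pi ≠ 0 := Real.pi_ne_zero
    unfold KM Lm
    by_cases h0 : m = 0
    · rw [if_pos h0, if_pos h0, if_pos (hm.mp h0)]
      field_simp
    · have h0' : ¬ p = 3 := fun h ↦ h0 (hm.mpr h)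
      rw [if_neg h0, if_neg h0, if_neg h0']
      have hp1 : (1 : ℝ) < p := by exact_mod_cast (Fact.out : p.Prime).one_lt
      have hpp : (1 : ℝ) - 1 / (p : ℝ) ^ 2 ≠ 0 := by
        have : 1 / (p : ℝ) ^ 2 < 1 := by
          rw [div_lt_one (by positivity)]
          nlinarith
        linarith
      field_simp
      norm_num
  have hs := m4_summable hP m p ν D hν hD
  have hsa : Summable (fun u : ℕ × ℕ ↦ m4F m p ν D (a, u)) :=
    hs.comp_injective (i := fun u : ℕ × ℕ ↦ (a, u)) (fun u v h ↦ (Prod.mk.inj h).2)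
  have hsb : Summable (fun b : ℕ ↦ ∑' f : ℕ, m4F m p ν D (a, b, f)) := hsa.prod
  have hsK : Summable (fun b : ℕ ↦ (if b.Coprime (6 * p) then
      (ArithmeticFunction.moebius b : ℝ) / ((a : ℝ) * (b : ℝ) ^ 2) * Lm m else 0)) := by
    have h2 : Summable (fun n : ℕ ↦ |Lm m| * (1 / (n : ℝ) ^ 2)) :=
      (Real.summable_one_div_nat_pow.mpr (by norm_num)).mul_left _
    apply Summable.of_norm_bounded h2
    intro b
    rw [Real.norm_eq_abs]
    split_ifs
    · rw [abs_mul, mul_comm, abs_div]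
      have hmu : |(ArithmeticFunction.moebius b : ℝ)| ≤ 1 := by
        have := ArithmeticFunction.abs_moebius_le_one (n := b)
        exact_mod_cast this
      apply mul_le_mul_of_nonneg_left _ (abs_nonneg _)
      rcases Nat.eq_zero_or_pos b with hb | hb
      · subst hb; simp
      · have hb' : (0 : ℝ) < b := by exact_mod_cast hb
        have ha1 : (1 : ℝ) ≤ a := by exact_mod_cast ha0
        rw [abs_of_pos (by positivity : (0 : ℝ) < (a : ℝ) * (b : ℝ) ^ 2)]
        apply div_le_div₀ (by norm_num) hmu (by positivity)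
        nlinarith [sq_nonneg (b : ℝ)]
    · rw [abs_zero]; positivity
  rw [hK, ← hsb.tsum_sub hsK, ← Real.norm_eq_abs]
  have hbound : ∀ b : ℕ, ‖(∑' f : ℕ, m4F m p ν D (a, b, f)) - (if b.Coprime (6 * p) then
      (ArithmeticFunction.moebius b : ℝ) / ((a : ℝ) * (b : ℝ) ^ 2) * Lm m else 0)‖ ≤
      (2.1 / √D * (1 / √(a : ℝ))) *
        (if b.Coprime 6 ∧ Squarefree b then 1 / ((b : ℝ) * √(b : ℝ)) else 0) := by
    intro b
    rw [m4_inner, Real.norm_eq_abs]
    by_cases hb : b.Coprime (6 * p)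
    · rw [if_pos ⟨ha, hac, hb⟩, if_pos hb, ← mul_sub, abs_mul]
      by_cases hsq : Squarefree b
      · rw [if_pos ⟨Nat.Coprime.coprime_dvd_right (Dvd.intro p rfl) hb, hsq⟩]
        have hb0 : 0 < b := Nat.pos_of_ne_zero hsq.ne_zero
        have hb0' : (0 : ℝ) < b := by exact_mod_cast hb0
        obtain ⟨-, -, i3⟩ := h2 m ((a : ℝ) * b / D) (by positivity)
        have hmu : |(ArithmeticFunction.moebius b : ℝ)| ≤ 1 := by
          have := ArithmeticFunction.abs_moebius_le_one (n := b)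
          exact_mod_cast this
        have k1 : |(ArithmeticFunction.moebius b : ℝ) / ((a : ℝ) * (b : ℝ) ^ 2)| ≤
            1 / ((a : ℝ) * (b : ℝ) ^ 2) := by
          rw [abs_div, abs_of_pos (by positivity : (0 : ℝ) < (a : ℝ) * (b : ℝ) ^ 2)]
          gcongr
        calc _ ≤ 1 / ((a : ℝ) * (b : ℝ) ^ 2) * (2.1 * √((a : ℝ) * b / D)) := by
              apply mul_le_mul k1 i3 (abs_nonneg _) (by positivity)
          _ = _ := by
              rw [Real.sqrt_div (by positivity), Real.sqrt_mul (by positivity)]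
              have s1 : √(a : ℝ) * √(a : ℝ) = a := Real.mul_self_sqrt ha0'.le
              have s2 : √(b : ℝ) * √(b : ℝ) = b := Real.mul_self_sqrt hb0'.le
              have s3 : 0 < √(a : ℝ) := Real.sqrt_pos.mpr ha0'
              have s4 : 0 < √(b : ℝ) := Real.sqrt_pos.mpr hb0'
              have s5 : 0 < √D := Real.sqrt_pos.mpr hD
              rw [mul_one_div, mul_div_assoc', div_mul_div_comm, div_eq_div_iff (by positivity) (by positivity)]
              have : (a : ℝ) * (b : ℝ) ^ 2 = (√(a : ℝ) * √(a : ℝ)) * (b * (√(b : ℝ) * √(b : ℝ))) := by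
                rw [s1, s2]; ring
              rw [this]
              field_simp
      · rw [ArithmeticFunction.moebius_eq_zero_of_not_squarefree hsq]
        rw [if_neg (fun h ↦ hsq h.2)]
        simp
    · rw [if_neg (fun h ↦ hb h.2.2), if_neg hb, sub_zero, abs_zero]
      split_ifs <;> positivity
  refine (norm_tsum_le_tsum_norm ?_).trans ?_
  · exact Summable.of_nonneg_of_le (fun _ ↦ norm_nonneg _) hbound (z2.mul_left _)
  · refine (Summable.tsum_le_tsum hbound ?_ (z2.mul_left _)).trans ?_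
    · exact Summable.of_nonneg_of_le (fun _ ↦ norm_nonneg _) hbound (z2.mul_left _)
    · rw [tsum_mul_left]
      have s3 : 0 < √(a : ℝ) := Real.sqrt_pos.mpr ha0'
      have s5 : 0 < √D := Real.sqrt_pos.mpr hD
      calc 2.1 / √D * (1 / √(a : ℝ)) * _ ≤ 2.1 / √D * (1 / √(a : ℝ)) * 1.38 :=
            mul_le_mul_of_nonneg_left z3 (by positivity)
        _ = (2.1 * 1.38) / √D * (1 / √(a : ℝ)) := by ring
        _ ≤ _ := by gcongr; norm_num

theorem stMT (hP : StPhi) (h1 : StRho) (h2 : StInner) (h3 : StZeta) : StMT := by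
  classical
  intro m p ν hpr D hp2 hm hν hD
  have hs := m4_summable hP m p ν D hν hD
  have hfib := (hs.hasSum.tsum_fiberwise (fun t : ℕ × ℕ × ℕ ↦ t.1 * t.2.1 * t.2.2)).mul_left (r4 ν p)
  have hfun : (fun d : ℕ ↦ open Classical in if DD m d then
      ch d * rhoN ν p (p ^ 2 * d) / ((p ^ 2 * d : ℕ) : ℝ) ^ 2 * Jf (d / D) else 0) =
      fun d ↦ r4 ν p * ∑' t : (fun t : ℕ × ℕ × ℕ ↦ t.1 * t.2.1 * t.2.2) ⁻¹' {d}, m4F m p ν D t := by
    ext d
    exact m4_fiber h1 m p ν D hp2 hm hν d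
  rw [← hfun] at hfib
  refine ⟨hfib.summable, ?_⟩
  rw [hfib.tsum_eq]
  have hr : 0 ≤ r4 ν p := by
    have hp1 : (1 : ℝ) < p := by exact_mod_cast (Fact.out : p.Prime).one_lt
    unfold r4
    split_ifs
    · apply div_nonneg
      · linarith
      · positivity
    · exact le_rfl
    · apply div_nonneg
      · have := abs_le.mp (m4_ch p)
        linarith [this.2]
      · positivity
  -- the total
  have htot : ∑' t, m4F m p ν D t = ∑ a ∈ ν.divisors.filter (fun a ↦ a.Coprime (6 * p)),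
      ∑' b : ℕ, ∑' f : ℕ, m4F m p ν D (a, b, f) := by
    rw [hs.tsum_prod, tsum_eq_sum (s := ν.divisors.filter (fun a ↦ a.Coprime (6 * p)))]
    · apply Finset.sum_congr rfl
      intro a _
      have hsa : Summable (fun u : ℕ × ℕ ↦ m4F m p ν D (a, u)) :=
        hs.comp_injective (i := fun u : ℕ × ℕ ↦ (a, u)) (fun u v h ↦ (Prod.mk.inj h).2)
      exact hsa.tsum_prod
    · intro a ha
      have : ∀ u : ℕ × ℕ, m4F m p ν D (a, u) = 0 := by
        intro u
        unfold m4F
        rw [if_neg]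
        rintro ⟨k1, k2, -⟩
        apply ha
        simp only [mem_filter, Nat.mem_divisors]
        exact ⟨⟨k1, by omega⟩, k2⟩
      simp only [this, tsum_zero]
  rw [htot]
  have e1 : r4 ν p * (∑ a ∈ ν.divisors.filter (fun a ↦ a.Coprime (6 * p)),
      ∑' b : ℕ, ∑' f : ℕ, m4F m p ν D (a, b, f)) - r4 ν p * KM m p * gs ν (6 * p) =
      r4 ν p * ∑ a ∈ ν.divisors.filter (fun a ↦ a.Coprime (6 * p)),
        ((∑' b : ℕ, ∑' f : ℕ, m4F m p ν D (a, b, f)) - 1 / (a : ℝ) * KM m p) := by
    rw [Finset.sum_sub_distrib, mul_sub]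
    congr 1
    unfold gs
    rw [← Finset.sum_mul]
    ring
  rw [e1, abs_mul, abs_of_nonneg hr]
  have e2 : |∑ a ∈ ν.divisors.filter (fun a ↦ a.Coprime (6 * p)),
        ((∑' b : ℕ, ∑' f : ℕ, m4F m p ν D (a, b, f)) - 1 / (a : ℝ) * KM m p)| ≤
      2.9 / √D * FF ν := by
    refine (Finset.abs_sum_le_sum_abs _ _).trans ?_
    calc _ ≤ ∑ a ∈ ν.divisors.filter (fun a ↦ a.Coprime (6 * p)), 2.9 / √D * (1 / √(a : ℝ)) := by
          apply Finset.sum_le_sum
          intro a ha
          simp only [mem_filter, Nat.mem_divisors] at ha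
          exact m4_b hP h2 h3 m p ν D hp2 hm hν hD a ha.1.1 ha.2
      _ = 2.9 / √D * ∑ a ∈ ν.divisors.filter (fun a ↦ a.Coprime (6 * p)), (1 / √(a : ℝ)) := by
          rw [Finset.mul_sum]
      _ ≤ 2.9 / √D * FF ν := by
          apply mul_le_mul_of_nonneg_left _ (by positivity)
          unfold FF
          apply Finset.sum_le_sum_of_subset_of_nonneg
          · intro a ha
            simp only [mem_filter] at ha ⊢
            exact ⟨ha.1, Nat.Coprime.coprime_dvd_right (Dvd.intro p rfl) ha.2⟩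
          · intro a _ _
            positivity
  calc _ ≤ r4 ν p * (2.9 / √D * FF ν) := mul_le_mul_of_nonneg_left e2 hr
    _ = _ := by ring

end Pool.Agent.TFS
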