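import Pool.Agent.Lib.TFS.StmtsA

/-!
P1: theta inequalities for the Gaussian lattice.

`F y = ∑ exp (-π y N h)`.  Poisson summation gives `F y = F (1/y) / y`, splitting by the parity of
the norm gives `F y = F_odd y + F (2 y)`, hence
`F_odd y = (2 F (2u) - F u) / (2y)` with `u = 1/(2y)`, and `2 F (2u) - F u` is the square of the
alternating theta series, which lies in `[0, 1]`.
-/

set_option autoImplicit false

open Finset MeasureTheory Filter Topology

namespace Pool.Agent.TFS.P1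

open Pool.Agent.TFS

/-- the Gaussian at an integer -/
noncomputable def e1 (y : ℝ) (n : ℤ) : ℝ := Real.exp (-Real.pi * y * (n : ℝ) ^ 2)

/-- the Gaussian at a Gaussian integer -/
noncomputable def e2 (y : ℝ) (h : GI) : ℝ := Real.exp (-(Real.pi * y * (N2 h : ℝ)))

/-- the sign of an integer -/
noncomputable def sg (n : ℤ) : ℝ := if Even n then 1 else -1

theorem e1_sum {y : ℝ} (hy : 0 < y) : Summable (e1 y) := by
  have := summable_pow_mul_jacobiTheta₂_term_bound 0 hy 0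
  refine this.congr (fun n ↦ ?_)
  unfold e1
  simp only [pow_zero, one_mul]
  congr 1
  ring

/-- coordinates -/
def cEq : GI ≃ ℤ × ℤ where
  toFun x := (x.re, x.im)
  invFun p := ⟨p.1, p.2⟩
  left_inv x := by cases x; rfl
  right_inv p := rfl

theorem e2_eq (y : ℝ) (h : GI) : e2 y h = e1 y h.re * e1 y h.im := by
  unfold e2 e1 N2
  rw [← Real.exp_add]
  congr 1
  push_cast
  ring

theorem e2_nonneg (y : ℝ) (h : GI) : 0 ≤ e2 y h := (Real.exp_pos _).le

theorem e2_sum {y : ℝ} (hy : 0 < y) : Summable (e2 y) := by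
  have h := (e1_sum hy).mul_of_nonneg (e1_sum hy) (fun n ↦ (Real.exp_pos _).le)
    (fun n ↦ (Real.exp_pos _).le)
  have h2 := cEq.summable_iff.2 h
  refine h2.congr (fun x ↦ ?_)
  rw [e2_eq]
  rfl

/-- the product formula with weights -/
theorem tsum_w {y : ℝ} (hy : 0 < y) (w : ℤ → ℝ) (hw : ∀ n, |w n| ≤ 1) :
    ∑' h : GI, w h.re * w h.im * e2 y h = (∑' n : ℤ, w n * e1 y n) ^ 2 := by
  have hs : Summable (fun n : ℤ ↦ ‖w n * e1 y n‖) := by
    refine Summable.of_nonneg_of_le (fun n ↦ norm_nonneg _) (fun n ↦ ?_) (e1_sum hy)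
    rw [norm_mul, Real.norm_eq_abs, Real.norm_eq_abs, abs_of_pos (show 0 < e1 y n from
      Real.exp_pos _)]
    exact mul_le_of_le_one_left (Real.exp_pos _).le (hw n)
  rw [sq, tsum_mul_tsum_of_summable_norm hs hs, ← cEq.tsum_eq]
  refine tsum_congr (fun x ↦ ?_)
  rw [e2_eq]
  change w x.re * w x.im * (e1 y x.re * e1 y x.im) = w x.re * e1 y x.re * (w x.im * e1 y x.im)
  ring

/-- the lattice theta function -/
noncomputable def F (y : ℝ) : ℝ := ∑' h : GI, e2 y h

theorem F_sq {y : ℝ} (hy : 0 < y) : F y = (∑' n : ℤ, e1 y n) ^ 2 := by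
  have h := tsum_w hy (fun _ ↦ 1) (fun _ ↦ by norm_num)
  simpa [F] using h

theorem F_poi {y : ℝ} (hy : 0 < y) : F y = 1 / y * F (1 / y) := by
  rw [F_sq hy, F_sq (by positivity)]
  have h := Real.tsum_exp_neg_mul_int_sq hy
  have h1 : (∑' n : ℤ, e1 y n) = 1 / y ^ (1 / 2 : ℝ) * ∑' n : ℤ, e1 (1 / y) n := by
    have e : ∀ n : ℤ, e1 (1 / y) n = Real.exp (-Real.pi / y * (n : ℝ) ^ 2) := by
      intro n
      unfold e1
      congr 1
      ring
    simp only [e]
    exact h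
  rw [h1, mul_pow]
  congr 1
  rw [div_pow, one_pow, ← Real.sqrt_eq_rpow, Real.sq_sqrt hy.le]

/-- multiplication by `1 + i` -/
def m1 (x : GI) : GI := ⟨x.re - x.im, x.re + x.im⟩

theorem m1_inj : Function.Injective m1 := by
  intro x y h
  have h1 : x.re - x.im = y.re - y.im := congrArg Zsqrtd.re h
  have h2 : x.re + x.im = y.re + y.im := congrArg Zsqrtd.im h
  apply Zsqrtd.ext <;> omega

theorem N2_m1 (x : GI) : N2 (m1 x) = 2 * N2 x := by
  unfold N2 m1
  ring

theorem N2_mod (x : GI) : N2 x % 2 = (x.re + x.im) % 2 := by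
  unfold N2
  rcases Int.even_or_odd' x.re with ⟨a, ha | ha⟩ <;> rcases Int.even_or_odd' x.im with ⟨b, hb | hb⟩ <;>
    rw [ha, hb]
  · have : (2 * a) ^ 2 + (2 * b) ^ 2 = 2 * (2 * a ^ 2 + 2 * b ^ 2) := by ring
    omega
  · have : (2 * a) ^ 2 + (2 * b + 1) ^ 2 = 2 * (2 * a ^ 2 + 2 * b ^ 2 + 2 * b) + 1 := by ring
    omega
  · have : (2 * a + 1) ^ 2 + (2 * b) ^ 2 = 2 * (2 * a ^ 2 + 2 * a + 2 * b ^ 2) + 1 := by ring
    omega
  · have : (2 * a + 1) ^ 2 + (2 * b + 1) ^ 2 = 2 * (2 * a ^ 2 + 2 * a + 2 * b ^ 2 + 2 * b + 1) := by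
      ring
    omega

theorem m1_range (x : GI) (h : N2 x % 2 = 0) : x ∈ Set.range m1 := by
  rw [N2_mod] at h
  refine ⟨⟨(x.re + x.im) / 2, (x.im - x.re) / 2⟩, ?_⟩
  unfold m1
  apply Zsqrtd.ext
  · change (x.re + x.im) / 2 - (x.im - x.re) / 2 = x.re
    omega
  · change (x.re + x.im) / 2 + (x.im - x.re) / 2 = x.im
    omega

/-- the part of the sum over even norms -/
theorem F_even (y : ℝ) :
    ∑' h : GI, (if N2 h % 2 = 0 then e2 y h else 0) = F (2 * y) := by
  rw [← m1_inj.tsum_eq]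
  · unfold F
    refine tsum_congr (fun g ↦ ?_)
    rw [if_pos (by rw [N2_m1]; omega)]
    unfold e2
    rw [N2_m1]
    congr 1
    push_cast
    ring
  · intro h hh
    by_contra hn
    apply hh
    change (if N2 h % 2 = 0 then e2 y h else 0) = 0
    rw [if_neg (fun h0 ↦ hn (m1_range h h0))]

/-- the part of the sum over odd norms -/
noncomputable def Fo (y : ℝ) : ℝ := ∑' h : GI, (if N2 h % 2 = 1 then e2 y h else 0)

theorem sum_ind {y : ℝ} (hy : 0 < y) (P : GI → Prop) [DecidablePred P] :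
    Summable (fun h : GI ↦ if P h then e2 y h else 0) := by
  refine Summable.of_nonneg_of_le (fun h ↦ ?_) (fun h ↦ ?_) (e2_sum hy)
  · split_ifs
    · exact e2_nonneg y h
    · exact le_refl 0
  · split_ifs
    · exact le_refl _
    · exact e2_nonneg y h

theorem F_split {y : ℝ} (hy : 0 < y) : F y = Fo y + F (2 * y) := by
  rw [← F_even y]
  unfold Fo
  rw [← (sum_ind hy _).tsum_add (sum_ind hy _)]
  unfold F
  refine tsum_congr (fun h ↦ ?_)
  rcases Int.emod_two_eq_zero_or_one (N2 h) with h0 | h0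
  · rw [if_neg (by omega), if_pos h0, zero_add]
  · rw [if_pos h0, if_neg (by omega), add_zero]

theorem sg_mul (x : GI) : sg x.re * sg x.im = if N2 x % 2 = 0 then 1 else -1 := by
  rw [N2_mod]
  unfold sg
  by_cases h1 : Even x.re <;> by_cases h2 : Even x.im
  · rw [if_pos h1, if_pos h2, if_pos (by rw [Int.even_iff] at *; omega)]; norm_num
  · rw [if_pos h1, if_neg h2, if_neg (by rw [Int.even_iff] at *; omega)]; norm_num
  · rw [if_neg h1, if_pos h2, if_neg (by rw [Int.even_iff] at *; omega)]; norm_num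
  · rw [if_neg h1, if_neg h2, if_pos (by rw [Int.even_iff] at *; omega)]; norm_num

/-- the alternating theta series -/
noncomputable def th4 (y : ℝ) : ℝ := ∑' n : ℤ, sg n * e1 y n

theorem abs_sg (n : ℤ) : |sg n| ≤ 1 := by
  unfold sg
  split_ifs <;> norm_num

theorem alt_eq {y : ℝ} (hy : 0 < y) : 2 * F (2 * y) - F y = th4 y ^ 2 := by
  rw [← F_even y]
  unfold th4
  rw [← tsum_w hy sg abs_sg, ← tsum_mul_left]
  unfold F
  rw [← ((sum_ind hy _).mul_left 2).tsum_sub (e2_sum hy)]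
  refine tsum_congr (fun h ↦ ?_)
  rw [sg_mul]
  split_ifs <;> ring

theorem th4_bd {y : ℝ} (hy : 0 < y) : |th4 y| ≤ 1 := by
  have hs : Summable (fun n : ℤ ↦ sg n * e1 y n) := by
    refine Summable.of_norm ?_
    refine Summable.of_nonneg_of_le (fun n ↦ norm_nonneg _) (fun n ↦ ?_) (e1_sum hy)
    rw [norm_mul, Real.norm_eq_abs, Real.norm_eq_abs, abs_of_pos (show 0 < e1 y n from
      Real.exp_pos _)]
    exact mul_le_of_le_one_left (Real.exp_pos _).le (abs_sg n)
  have hev : (fun n : ℤ ↦ sg n * e1 y n).Even := by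
    intro n
    unfold sg e1
    simp
  have h1 : th4 y = 1 + 2 * ∑' n : ℕ+, sg ((n : ℕ) : ℤ) * e1 y ((n : ℕ) : ℤ) := by
    unfold th4
    rw [tsum_int_eq_zero_add_two_mul_tsum_pnat hev hs]
    simp [sg, e1]
  have h2 : (∑' n : ℕ+, sg ((n : ℕ) : ℤ) * e1 y ((n : ℕ) : ℤ)) =
      ∑' k : ℕ, sg ((k : ℤ) + 1) * e1 y ((k : ℤ) + 1) := by
    rw [tsum_pnat_eq_tsum_succ (f := fun n : ℕ ↦ sg (n : ℤ) * e1 y (n : ℤ))]
    push_cast
    rfl
  have h3 : ∀ k : ℕ, sg ((k : ℤ) + 1) * e1 y ((k : ℤ) + 1) = -((-1) ^ k * e1 y ((k : ℤ) + 1)) := by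
    intro k
    have : sg ((k : ℤ) + 1) = -((-1) ^ k) := by
      unfold sg
      rcases Nat.even_or_odd k with hk | hk
      · rw [hk.neg_one_pow, if_neg]
        rw [Int.even_add_one, not_not]
        exact_mod_cast hk
      · rw [hk.neg_one_pow, if_pos]
        · norm_num
        · rw [Int.even_add_one, Int.not_even_iff_odd]
          exact_mod_cast hk
    rw [this]
    ring
  have hs2 : Summable (fun k : ℕ ↦ (-1) ^ k * e1 y ((k : ℤ) + 1)) := by
    have hh : Summable (fun k : ℕ ↦ sg ((k : ℤ) + 1) * e1 y ((k : ℤ) + 1)) := by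
      have hi : Function.Injective (fun k : ℕ ↦ (k : ℤ) + 1) := by
        intro a b hab
        simpa using hab
      exact hs.comp_injective hi
    have := hh.neg
    refine this.congr (fun k ↦ ?_)
    rw [h3 k]
    ring
  have hA : Antitone (fun k : ℕ ↦ e1 y ((k : ℤ) + 1)) := by
    intro a b hab
    change e1 y ((b : ℤ) + 1) ≤ e1 y ((a : ℤ) + 1)
    unfold e1
    apply Real.exp_le_exp.2
    have h5 : (((a : ℤ) + 1 : ℤ) : ℝ) ^ 2 ≤ (((b : ℤ) + 1 : ℤ) : ℝ) ^ 2 := by
      push_cast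
      have : (a : ℝ) ≤ b := by exact_mod_cast hab
      have : (0 : ℝ) ≤ a := Nat.cast_nonneg a
      nlinarith
    have h6 : 0 < Real.pi * y := mul_pos Real.pi_pos hy
    nlinarith [mul_le_mul_of_nonneg_left h5 h6.le]
  have ht := hs2.hasSum.tendsto_sum_nat
  have h7 := hA.alternating_series_le_tendsto ht 0
  have h8 := hA.tendsto_le_alternating_series ht 0
  simp only [mul_zero, range_zero, sum_empty] at h7
  simp only [mul_zero, zero_add, range_one, sum_singleton, pow_zero, one_mul] at h8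
  have h9 : e1 y (((0 : ℕ) : ℤ) + 1) ≤ 1 := by
    unfold e1
    apply Real.exp_le_one_iff.2
    have h6 : 0 < Real.pi * y := mul_pos Real.pi_pos hy
    push_cast
    nlinarith
  have h10 : th4 y = 1 - 2 * ∑' k : ℕ, (-1) ^ k * e1 y ((k : ℤ) + 1) := by
    rw [h1, h2, tsum_congr h3, tsum_neg]
    ring
  rw [h10, abs_le]
  constructor <;> linarith

theorem Fo_le {y : ℝ} (hy : 0 < y) : Fo y ≤ 1 / (2 * y) := by
  have h1 := F_split hy
  have h2 := F_poi hy
  have h3 := F_poi (show 0 < 2 * y by positivity)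
  set u : ℝ := 1 / (2 * y) with hu
  have hu0 : 0 < u := by positivity
  have h4 : 1 / y = 2 * u := by
    rw [hu]
    field_simp
  have h5 := alt_eq hu0
  have h6 := th4_bd hu0
  have h7 : th4 u ^ 2 ≤ 1 := by
    rw [← sq_abs]
    have := abs_nonneg (th4 u)
    nlinarith
  rw [h4] at h2
  have h8 : Fo y = u * (2 * F (2 * u) - F u) := by
    have : Fo y = F y - F (2 * y) := by linarith
    rw [this, h2, h3]
    ring
  rw [h8, h5]
  have := mul_le_mul_of_nonneg_left h7 hu0.le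
  linarith

theorem N2_nonneg (x : GI) : 0 ≤ N2 x := by
  unfold N2
  positivity

theorem N2_pos (x : GI) (hx : x ≠ 0) : 1 ≤ N2 x := by
  have h0 := N2_nonneg x
  rcases h0.lt_or_eq with h | h
  · omega
  · exfalso
    apply hx
    unfold N2 at h
    have h1 : x.re ^ 2 = 0 := by nlinarith [sq_nonneg x.re, sq_nonneg x.im]
    have h2 : x.im ^ 2 = 0 := by nlinarith [sq_nonneg x.re, sq_nonneg x.im]
    apply Zsqrtd.ext
    · change x.re = 0
      exact pow_eq_zero_iff (two_ne_zero) |>.1 h1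
    · change x.im = 0
      exact pow_eq_zero_iff (two_ne_zero) |>.1 h2

/-- the sum over nonzero lattice points -/
noncomputable def F1 (y : ℝ) : ℝ := ∑' h : GI, (if h ≠ 0 then e2 y h else 0)

theorem F_one {y : ℝ} (hy : 0 < y) : F y = 1 + F1 y := by
  unfold F F1
  have h : ∑' h : GI, (if h = 0 then e2 y h else 0) = 1 := by
    rw [tsum_eq_single 0]
    · simp [e2, N2]
    · intro b hb
      rw [if_neg hb]
  rw [← h, ← (sum_ind hy _).tsum_add (sum_ind hy _)]
  refine tsum_congr (fun x ↦ ?_)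
  by_cases hx : x = 0
  · simp [hx]
  · simp [hx]

theorem F1_le {y : ℝ} (hy : 1 ≤ y) : F1 y ≤ Real.exp (-(Real.pi * (y - 1))) * F1 1 := by
  have hy0 : 0 < y := by linarith
  unfold F1
  rw [← tsum_mul_left]
  refine (sum_ind hy0 _).tsum_le_tsum (fun h ↦ ?_) ((sum_ind one_pos _).mul_left _)
  by_cases hh : h = 0
  · simp [hh]
  · rw [if_pos hh, if_pos hh]
    unfold e2
    rw [← Real.exp_add]
    apply Real.exp_le_exp.2
    have h1 : (1 : ℝ) ≤ (N2 h : ℝ) := by exact_mod_cast N2_pos h hh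
    nlinarith [mul_nonneg Real.pi_pos.le (mul_nonneg (sub_nonneg.2 hy) (sub_nonneg.2 h1))]

theorem F_tele {y : ℝ} (hy : 0 < y) (k : ℕ) : F y ≤ F (2 ^ k * y) + (1 - 1 / 2 ^ k) / y := by
  induction k with
  | zero => simp
  | succ k ih =>
    have hk : 0 < 2 ^ k * y := by positivity
    have h1 := F_split hk
    have h2 := Fo_le hk
    have h3 : 2 * (2 ^ k * y) = 2 ^ (k + 1) * y := by ring
    rw [h3] at h1 h2
    have h4 : (1 - 1 / 2 ^ (k + 1)) / y = (1 - 1 / 2 ^ k) / y + 1 / (2 ^ (k + 1) * y) := by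
      field_simp
      ring
    rw [h4]
    linarith

theorem F1_bd {y : ℝ} (hy : 0 < y) : F1 y ≤ 1 / y := by
  have h1 : ∀ k : ℕ, F y ≤ F (2 ^ k * y) + 1 / y := by
    intro k
    refine (F_tele hy k).trans ?_
    have : (1 - 1 / 2 ^ k) / y ≤ 1 / y := by
      apply div_le_div_of_nonneg_right _ hy.le
      have : (0 : ℝ) ≤ 1 / 2 ^ k := by positivity
      linarith
    linarith
  have hF1 : 0 ≤ F1 1 := by
    unfold F1
    refine tsum_nonneg (fun h ↦ ?_)
    split_ifs
    · exact e2_nonneg 1 h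
    · exact le_refl 0
  have hlim : Tendsto (fun k : ℕ ↦ Real.exp (-(Real.pi * (2 ^ k * y - 1))) * F1 1) atTop (𝓝 0) := by
    have hz : (0 : ℝ) = 0 * F1 1 := by ring
    rw [hz]
    refine Tendsto.mul_const _ ?_
    refine Real.tendsto_exp_atBot.comp ?_
    refine tendsto_neg_atTop_atBot.comp ?_
    refine Tendsto.const_mul_atTop Real.pi_pos ?_
    refine tendsto_atTop_add_const_right _ (-1) ?_
    exact (tendsto_pow_atTop_atTop_of_one_lt (by norm_num : (1 : ℝ) < 2)).atTop_mul_const hy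
  have hev : ∀ᶠ k : ℕ in atTop, F1 y ≤ Real.exp (-(Real.pi * (2 ^ k * y - 1))) * F1 1 + 1 / y := by
    have ht : Tendsto (fun k : ℕ ↦ (2 : ℝ) ^ k * y) atTop atTop :=
      (tendsto_pow_atTop_atTop_of_one_lt (by norm_num : (1 : ℝ) < 2)).atTop_mul_const hy
    filter_upwards [ht.eventually_ge_atTop 1] with k hk
    have a := h1 k
    rw [F_one hy, F_one (by linarith)] at a
    have b := F1_le hk
    linarith
  have hlim2 : Tendsto (fun k : ℕ ↦ Real.exp (-(Real.pi * (2 ^ k * y - 1))) * F1 1 + 1 / y) atTop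
      (𝓝 (0 + 1 / y)) := hlim.add_const _
  rw [zero_add] at hlim2
  exact ge_of_tendsto hlim2 hev

theorem N2_mul (x y : GI) : N2 (x * y) = N2 x * N2 y := by
  unfold N2
  simp only [Zsqrtd.re_mul, Zsqrtd.im_mul]
  ring

theorem mul_inj (γ : GI) (hγ : γ ≠ 0) : Function.Injective (fun g : GI ↦ γ * g) := by
  intro a b h
  exact mul_left_cancel₀ hγ h

theorem e2_mul (γ : GI) (y : ℝ) (g : GI) : e2 y (γ * g) = e2 (y * (N2 γ : ℝ)) g := by
  unfold e2
  rw [N2_mul]
  congr 1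
  push_cast
  ring

theorem red (γ : GI) (hγ : γ ≠ 0) (y : ℝ) (P : GI → Prop) [DecidablePred P]
    [DecidablePred (fun h : GI ↦ γ ∣ h ∧ P h)] :
    ∑' h : GI, (if γ ∣ h ∧ P h then e2 y h else 0) =
      ∑' g : GI, (if P (γ * g) then e2 (y * (N2 γ : ℝ)) g else 0) := by
  rw [← (mul_inj γ hγ).tsum_eq]
  · refine tsum_congr (fun g ↦ ?_)
    by_cases hP : P (γ * g)
    · rw [if_pos ⟨dvd_mul_right γ g, hP⟩, if_pos hP, e2_mul]
    · rw [if_neg (fun hh ↦ hP hh.2), if_neg hP]
  · intro h hh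
    by_contra hn
    apply hh
    change (if γ ∣ h ∧ P h then e2 y h else 0) = 0
    rw [if_neg]
    rintro ⟨⟨g, hg⟩, _⟩
    exact hn ⟨g, hg.symm⟩

end Pool.Agent.TFS.P1

namespace Pool.Agent.TFS

open P1

/-- P1: the theta inequalities -/
theorem stTh : StTh := by
  classical
  intro γ hγ y hy
  have hN : (1 : ℝ) ≤ (N2 γ : ℝ) := by exact_mod_cast N2_pos γ hγ
  have hY : 0 < y * (N2 γ : ℝ) := by positivity
  refine ⟨e2_sum hy, ?_, ?_⟩
  · have h1 := red γ hγ y (fun h ↦ h ≠ 0)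
    have h2 : ∑' g : GI, (if γ * g ≠ 0 then e2 (y * (N2 γ : ℝ)) g else 0) = F1 (y * (N2 γ : ℝ)) := by
      unfold F1
      refine tsum_congr (fun g ↦ ?_)
      by_cases hg : g = 0
      · simp [hg]
      · rw [if_pos hg, if_pos (mul_ne_zero hγ hg)]
    rw [h2] at h1
    have h3 := F1_bd hY
    rw [← h1] at h3
    refine le_trans (le_of_eq ?_) h3
    refine tsum_congr (fun h ↦ ?_)
    unfold e2
    congr
  · intro hodd
    have h1 := red γ hγ y (fun h ↦ N2 h % 2 = 1)
    have h2 : ∑' g : GI, (if N2 (γ * g) % 2 = 1 then e2 (y * (N2 γ : ℝ)) g else 0) =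
        Fo (y * (N2 γ : ℝ)) := by
      unfold Fo
      refine tsum_congr (fun g ↦ ?_)
      have h3 : N2 (γ * g) % 2 = 1 ↔ N2 g % 2 = 1 := by
        rw [N2_mul, ← Int.odd_iff, ← Int.odd_iff, Int.odd_mul]
        have : Odd (N2 γ) := Int.odd_iff.2 hodd
        tauto
      by_cases h4 : N2 g % 2 = 1
      · rw [if_pos h4, if_pos (h3.2 h4)]
      · rw [if_neg h4, if_neg (fun h5 ↦ h4 (h3.1 h5))]
    rw [h2] at h1
    have h3 := Fo_le hY
    rw [← h1] at h3
    refine le_trans (le_of_eq ?_) (h3.trans (le_of_eq ?_))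
    · refine tsum_congr (fun h ↦ ?_)
      unfold e2
      congr
    · ring

end Pool.Agent.TFS
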