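import Pool.Agent.Lib.TFS.StmtsA

/-! Module P2: Poisson summation for periodic weights and complex Gaussians on `ℤ[i]`. -/

set_option autoImplicit false

open Finset MeasureTheory

namespace Pool.Agent.TFS

open Pool.Agent.Lib.MP_0e0027_nt

namespace PoissonP2

/-- Gaussian integers as pairs -/
def gie : GI ≃ ℤ × ℤ where
  toFun x := (x.re, x.im)
  invFun u := ⟨u.1, u.2⟩
  left_inv x := by cases x; rfl
  right_inv u := rfl

lemma summable_gauss {c : ℝ} (hc : 0 < c) :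
    Summable (fun n : ℤ ↦ Real.exp (-(Real.pi * c * (n : ℝ) ^ 2))) := by
  have h := summable_pow_mul_jacobiTheta₂_term_bound 0 hc 0
  refine h.congr (fun n ↦ ?_)
  simp only [pow_zero, one_mul, mul_zero, zero_mul, sub_zero]
  congr 1
  ring

lemma norm_gauss (z : ℂ) (n : ℤ) :
    ‖Complex.exp (-(Real.pi * z * (n : ℂ) ^ 2))‖ = Real.exp (-(Real.pi * z.re * (n : ℝ) ^ 2)) := by
  rw [Complex.norm_exp]
  congr 1
  have : (-(Real.pi * z * (n : ℂ) ^ 2) : ℂ) = ((-(Real.pi * (n : ℝ) ^ 2) : ℝ) : ℂ) * z := by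
    push_cast; ring
  rw [this, Complex.re_ofReal_mul]
  ring

lemma summable_cgauss {z : ℂ} (hz : 0 < z.re) :
    Summable (fun n : ℤ ↦ ‖Complex.exp (-(Real.pi * z * (n : ℂ) ^ 2))‖) := by
  simp_rw [norm_gauss]
  exact summable_gauss hz

lemma re_inv_pos {z : ℂ} (hz : 0 < z.re) (Q : ℕ) [NeZero Q] : 0 < (1 / (z * (Q : ℂ) ^ 2)).re := by
  have hQ : (0 : ℝ) < (Q : ℝ) ^ 2 := by
    have : (0 : ℝ) < (Q : ℝ) := by exact_mod_cast Nat.pos_of_ne_zero (NeZero.ne Q)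
    positivity
  have h1 : (z * (Q : ℂ) ^ 2) = (((Q : ℝ) ^ 2 : ℝ) : ℂ) * z := by push_cast; ring
  rw [one_div, Complex.inv_re, h1, Complex.re_ofReal_mul]
  apply div_pos (mul_pos hQ hz)
  rw [Complex.normSq_pos]
  intro h
  rcases mul_eq_zero.mp h with h | h
  · exact absurd (Complex.ofReal_eq_zero.mp h) hQ.ne'
  · rw [h] at hz; simp at hz

/-- one-dimensional Poisson summation in a residue class -/
lemma poisson1 (Q : ℕ) [NeZero Q] (a : ZMod Q) {z : ℂ} (hz : 0 < z.re) :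
    ∑' n : ℤ, (if (n : ZMod Q) = a then Complex.exp (-(Real.pi * z * (n : ℂ) ^ 2)) else 0) =
      1 / (z * (Q : ℂ) ^ 2) ^ (1 / 2 : ℂ) *
        ∑' n : ℤ, (ZMod.stdAddChar ((n : ZMod Q) * a) : ℂ) *
          Complex.exp (-(Real.pi * (1 / (z * (Q : ℂ) ^ 2)) * (n : ℂ) ^ 2)) := by
  have hQ0 : (Q : ℂ) ≠ 0 := by exact_mod_cast NeZero.ne Q
  have hQ0' : (Q : ℤ) ≠ 0 := by exact_mod_cast NeZero.ne Q
  have hz0 : z ≠ 0 := by rintro rfl; simp at hz
  set r : ℤ := (a.val : ℤ) with hr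
  have hra : (r : ZMod Q) = a := by rw [hr]; simp
  -- the left side as a sum over `k`
  have hinj : Function.Injective (fun k : ℤ ↦ r + Q * k) := by
    intro k l h
    have : (Q : ℤ) * k = Q * l := by simpa using h
    exact mul_left_cancel₀ hQ0' this
  have hleft : ∑' n : ℤ, (if (n : ZMod Q) = a then Complex.exp (-(Real.pi * z * (n : ℂ) ^ 2)) else 0) =
      ∑' k : ℤ, Complex.exp (-(Real.pi * z * ((r : ℂ) + Q * k) ^ 2)) := by
    have h2 := hinj.tsum_eq (f := fun n : ℤ ↦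
      (if (n : ZMod Q) = a then Complex.exp (-(Real.pi * z * (n : ℂ) ^ 2)) else 0)) (by
        intro n hn
        rw [Function.mem_support] at hn
        have h3 : (n : ZMod Q) = a := by
          by_contra h; rw [if_neg h] at hn; exact hn rfl
        rw [← hra] at h3
        have h4 := (ZMod.intCast_eq_intCast_iff_dvd_sub r n Q).mp h3.symm
        obtain ⟨k, hk⟩ := h4
        exact ⟨k, by dsimp only; rw [← hk]; ring⟩)
    rw [← h2]
    refine tsum_congr (fun k ↦ ?_)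
    rw [if_pos]
    · push_cast; rfl
    · push_cast; rw [hra]; simp
  rw [hleft]
  have hre : 0 < (z * (Q : ℂ) ^ 2).re := by
    have h1 : (z * (Q : ℂ) ^ 2) = (((Q : ℝ) ^ 2 : ℝ) : ℂ) * z := by push_cast; ring
    rw [h1, Complex.re_ofReal_mul]
    have : (0 : ℝ) < (Q : ℝ) := by exact_mod_cast Nat.pos_of_ne_zero (NeZero.ne Q)
    positivity
  have hP := Complex.tsum_exp_neg_quadratic hre (-(z * r * Q))
  have hfac : ∀ k : ℤ, Complex.exp (-(Real.pi * z * ((r : ℂ) + Q * k) ^ 2)) =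
      Complex.exp (-(Real.pi * z * (r : ℂ) ^ 2)) *
        Complex.exp (-Real.pi * (z * (Q : ℂ) ^ 2) * (k : ℂ) ^ 2 + 2 * Real.pi * (-(z * r * Q)) * k) := by
    intro k
    rw [← Complex.exp_add]
    congr 1
    ring
  simp_rw [hfac]
  rw [tsum_mul_left, hP, mul_left_comm, ← tsum_mul_left]
  congr 1
  refine tsum_congr (fun n ↦ ?_)
  have hst : (ZMod.stdAddChar ((n : ZMod Q) * a) : ℂ) =
      Complex.exp (2 * Real.pi * Complex.I * ((n * r : ℤ) : ℂ) / Q) := by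
    rw [← ZMod.stdAddChar_coe]
    push_cast
    rw [hra]
  rw [hst, ← Complex.exp_add, ← Complex.exp_add]
  congr 1
  have hI : Complex.I ^ 2 = -1 := Complex.I_sq
  push_cast
  field_simp
  ring_nf
  rw [hI]
  ring

lemma tsum_gi {F G : ℤ → ℂ} (hF : Summable (fun n ↦ ‖F n‖)) (hG : Summable (fun n ↦ ‖G n‖)) :
    Summable (fun x : GI ↦ F x.re * G x.im) ∧
      ∑' x : GI, F x.re * G x.im = (∑' n, F n) * ∑' n, G n := by
  have h1 : Summable (fun u : ℤ × ℤ ↦ F u.1 * G u.2) := summable_mul_of_summable_norm hF hG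
  have h2 := tsum_mul_tsum_of_summable_norm hF hG
  constructor
  · exact (gie.summable_iff (f := fun u : ℤ × ℤ ↦ F u.1 * G u.2)).mpr h1
  · rw [h2]
    exact gie.tsum_eq (fun u : ℤ × ℤ ↦ F u.1 * G u.2)

end PoissonP2

open PoissonP2 in
theorem stPS : StPS := by
  intro Q _ w z hz
  have hQ0 : (Q : ℂ) ≠ 0 := by exact_mod_cast NeZero.ne Q
  have hz0 : z ≠ 0 := by rintro rfl; simp at hz
  have hz' := re_inv_pos hz Q
  -- one-dimensional functions
  let F : ZMod Q → ℤ → ℂ := fun a n ↦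
    if (n : ZMod Q) = a then Complex.exp (-(Real.pi * z * (n : ℂ) ^ 2)) else 0
  let F' : ZMod Q → ℤ → ℂ := fun a n ↦ (ZMod.stdAddChar ((n : ZMod Q) * a) : ℂ) *
          Complex.exp (-(Real.pi * (1 / (z * (Q : ℂ) ^ 2)) * (n : ℂ) ^ 2))
  have hF : ∀ a, Summable (fun n ↦ ‖F a n‖) := by
    intro a
    refine Summable.of_nonneg_of_le (fun n ↦ norm_nonneg _) (fun n ↦ ?_) (summable_cgauss hz)
    by_cases h : (n : ZMod Q) = a
    · simp only [F, if_pos h, le_refl]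
    · simp only [F, if_neg h, norm_zero]; exact norm_nonneg _
  have hF' : ∀ a, Summable (fun n ↦ ‖F' a n‖) := by
    intro a
    refine (summable_cgauss hz').congr (fun n ↦ ?_)
    simp only [F', norm_mul, AddChar.norm_apply, one_mul]
  have hp1 : ∀ a, ∑' n, F a n = 1 / (z * (Q : ℂ) ^ 2) ^ (1 / 2 : ℂ) * ∑' n, F' a n := by
    intro a
    exact poisson1 Q a hz
  -- left side
  have hL : ∀ x : GI, w ((x.re : ZMod Q), (x.im : ZMod Q)) * Complex.exp (-(Real.pi * z * (N2 x : ℂ))) =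
      ∑ a : ZMod Q × ZMod Q, w a * (F a.1 x.re * F a.2 x.im) := by
    intro x
    rw [Finset.sum_eq_single ((x.re : ZMod Q), (x.im : ZMod Q))]
    · simp only [F, if_true]
      rw [← Complex.exp_add]
      congr 2
      simp only [N2]
      push_cast
      ring
    · intro b _ hb
      by_cases h1 : (x.re : ZMod Q) = b.1
      · have h2 : (x.im : ZMod Q) ≠ b.2 := by
          intro h2; exact hb (Prod.ext h1.symm h2.symm)
        simp only [F, if_neg h2, mul_zero]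
      · simp only [F, if_neg h1, zero_mul, mul_zero]
    · intro h; exact absurd (Finset.mem_univ _) h
  have hR : ∀ h : GI, (∑ a : ZMod Q × ZMod Q, w a *
      ZMod.stdAddChar ((h.re : ZMod Q) * a.1 + (h.im : ZMod Q) * a.2)) *
      Complex.exp (-(Real.pi * (N2 h : ℂ) / (z * (Q : ℂ) ^ 2))) =
      ∑ a : ZMod Q × ZMod Q, w a * (F' a.1 h.re * F' a.2 h.im) := by
    intro h
    rw [Finset.sum_mul]
    refine Finset.sum_congr rfl (fun a _ ↦ ?_)
    simp only [F']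
    rw [AddChar.map_add_eq_mul]
    have : Complex.exp (-(Real.pi * (N2 h : ℂ) / (z * (Q : ℂ) ^ 2))) =
        Complex.exp (-(Real.pi * (1 / (z * (Q : ℂ) ^ 2)) * (h.re : ℂ) ^ 2)) *
        Complex.exp (-(Real.pi * (1 / (z * (Q : ℂ) ^ 2)) * (h.im : ℂ) ^ 2)) := by
      rw [← Complex.exp_add]
      congr 1
      simp only [N2]
      push_cast
      ring
    rw [this]
    ring
  have hsL : ∀ a : ZMod Q × ZMod Q, Summable (fun x : GI ↦ w a * (F a.1 x.re * F a.2 x.im)) :=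
    fun a ↦ (tsum_gi (hF a.1) (hF a.2)).1.mul_left _
  have hsR : ∀ a : ZMod Q × ZMod Q, Summable (fun x : GI ↦ w a * (F' a.1 x.re * F' a.2 x.im)) :=
    fun a ↦ (tsum_gi (hF' a.1) (hF' a.2)).1.mul_left _
  simp_rw [hL, hR]
  refine ⟨summable_sum (fun a _ ↦ hsL a), summable_sum (fun a _ ↦ hsR a), ?_⟩
  rw [Summable.tsum_finsetSum (fun a _ ↦ hsL a), Summable.tsum_finsetSum (fun a _ ↦ hsR a),
    Finset.mul_sum]
  refine Finset.sum_congr rfl (fun a _ ↦ ?_)
  rw [tsum_mul_left, tsum_mul_left, (tsum_gi (hF a.1) (hF a.2)).2, (tsum_gi (hF' a.1) (hF' a.2)).2,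
    hp1, hp1]
  have hne : z * (Q : ℂ) ^ 2 ≠ 0 := mul_ne_zero hz0 (pow_ne_zero _ hQ0)
  have hc : (z * (Q : ℂ) ^ 2) ^ (1 / 2 : ℂ) * (z * (Q : ℂ) ^ 2) ^ (1 / 2 : ℂ) = z * (Q : ℂ) ^ 2 := by
    rw [← Complex.cpow_add _ _ hne]
    norm_num
  have hc' : 1 / (z * (Q : ℂ) ^ 2) =
      (1 / (z * (Q : ℂ) ^ 2) ^ (1 / 2 : ℂ)) * (1 / (z * (Q : ℂ) ^ 2) ^ (1 / 2 : ℂ)) := by
    rw [div_mul_div_comm, hc, one_mul]
  rw [hc']
  ring

end Pool.Agent.TFS
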