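import Pool.Agent.Lib.TFS.StmtsA

/-!
P3: residue classes modulo `MU`, cardinality and Fourier transform bounds
(blueprint: team-store `tfs_A.md`).
-/

set_option autoImplicit false

open Finset

namespace Pool.Agent.TFS

open Pool.Agent.Lib.MP_0e0027_nt

namespace P3

/-- exponential sum over a set of classes -/
noncomputable def FS (M : ℕ) [NeZero M] (S : Finset (ZMod M × ZMod M)) (h : GI) : ℂ :=
  ∑ a ∈ S, (ZMod.stdAddChar ((h.re : ZMod M) * a.1 + (h.im : ZMod M) * a.2) : ℂ)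

theorem FS_zero (M : ℕ) [NeZero M] (S : Finset (ZMod M × ZMod M)) : FS M S 0 = S.card := by
  unfold FS
  simp

section crt

variable (M N : ℕ) [NeZero M] [NeZero N] [NeZero (M * N)]

/-- the map `(b, c) ↦ N b + M c` -/
def psi (u : ZMod M × ZMod N) : ZMod (M * N) := (N : ZMod (M * N)) * (u.1.val : ZMod (M * N)) +
  (M : ZMod (M * N)) * (u.2.val : ZMod (M * N))

theorem c1_psi (u : ZMod M × ZMod N) :
    ZMod.castHom (Dvd.intro N rfl) (ZMod M) (psi M N u) = (N : ZMod M) * u.1 := by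
  unfold psi
  rw [map_add, map_mul, map_mul, map_natCast, map_natCast, map_natCast, map_natCast]
  simp

theorem c2_psi (u : ZMod M × ZMod N) :
    ZMod.castHom (Dvd.intro_left M rfl) (ZMod N) (psi M N u) = (M : ZMod N) * u.2 := by
  unfold psi
  rw [map_add, map_mul, map_mul, map_natCast, map_natCast, map_natCast, map_natCast]
  simp

theorem psi_bij (hc : M.Coprime N) : Function.Bijective (psi M N) := by
  rw [Fintype.bijective_iff_injective_and_card]
  constructor
  · intro u v h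
    have h1 := congrArg (ZMod.castHom (Dvd.intro N rfl) (ZMod M)) h
    have h2 := congrArg (ZMod.castHom (Dvd.intro_left M rfl) (ZMod N)) h
    rw [c1_psi, c1_psi] at h1
    rw [c2_psi, c2_psi] at h2
    have u1 : IsUnit (N : ZMod M) := (ZMod.isUnit_iff_coprime N M).2 hc.symm
    have u2 : IsUnit (M : ZMod N) := (ZMod.isUnit_iff_coprime M N).2 hc
    exact Prod.ext (u1.mul_left_cancel h1) (u2.mul_left_cancel h2)
  · simp [ZMod.card]

theorem char_psi (h1 h2 : ℤ) (u v : ZMod M × ZMod N) :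
    (ZMod.stdAddChar ((h1 : ZMod (M * N)) * psi M N u + (h2 : ZMod (M * N)) * psi M N v) : ℂ) =
      ZMod.stdAddChar ((h1 : ZMod M) * u.1 + (h2 : ZMod M) * v.1) *
      ZMod.stdAddChar ((h1 : ZMod N) * u.2 + (h2 : ZMod N) * v.2) := by
  have hM : (M : ℂ) ≠ 0 := by exact_mod_cast NeZero.ne M
  have hN : (N : ℂ) ≠ 0 := by exact_mod_cast NeZero.ne N
  have e0 : (h1 : ZMod (M * N)) * psi M N u + (h2 : ZMod (M * N)) * psi M N v =
      ((h1 * (N * u.1.val + M * u.2.val) + h2 * (N * v.1.val + M * v.2.val) : ℤ) :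
        ZMod (M * N)) := by
    unfold psi
    push_cast
    ring
  have e1 : (h1 : ZMod M) * u.1 + (h2 : ZMod M) * v.1 =
      ((h1 * u.1.val + h2 * v.1.val : ℤ) : ZMod M) := by
    push_cast
    simp
  have e2 : (h1 : ZMod N) * u.2 + (h2 : ZMod N) * v.2 =
      ((h1 * u.2.val + h2 * v.2.val : ℤ) : ZMod N) := by
    push_cast
    simp
  rw [e0, e1, e2, ZMod.stdAddChar_coe, ZMod.stdAddChar_coe, ZMod.stdAddChar_coe,
    ← Complex.exp_add]
  congr 1
  push_cast
  field_simp
  ring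

theorem FS_mul (hc : M.Coprime N) (S : Finset (ZMod M × ZMod M)) (T : Finset (ZMod N × ZMod N))
    (W : Finset (ZMod (M * N) × ZMod (M * N)))
    (hW : ∀ u v : ZMod M × ZMod N, (psi M N u, psi M N v) ∈ W ↔ (u.1, v.1) ∈ S ∧ (u.2, v.2) ∈ T)
    (h : GI) : FS (M * N) W h = FS M S h * FS N T h := by
  classical
  unfold FS
  rw [Finset.sum_mul_sum, ← Finset.sum_product']
  symm
  apply Finset.sum_bij (fun (x : (ZMod M × ZMod M) × (ZMod N × ZMod N)) _ ↦
    (psi M N (x.1.1, x.2.1), psi M N (x.1.2, x.2.2)))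
  · intro x hx
    rw [Finset.mem_product] at hx
    exact (hW _ _).2 hx
  · intro x _ y _ h
    rw [Prod.mk.injEq] at h
    have h1 := (psi_bij M N hc).1 h.1
    have h2 := (psi_bij M N hc).1 h.2
    rw [Prod.mk.injEq] at h1 h2
    exact Prod.ext (Prod.ext h1.1 h2.1) (Prod.ext h1.2 h2.2)
  · intro y hy
    obtain ⟨u, hu⟩ := (psi_bij M N hc).2 y.1
    obtain ⟨v, hv⟩ := (psi_bij M N hc).2 y.2
    refine ⟨((u.1, v.1), (u.2, v.2)), ?_, ?_⟩
    · rw [Finset.mem_product]
      apply (hW u v).1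
      rw [hu, hv]
      exact hy
    · simp only [Prod.mk.eta, hu, hv]
  · intro x _
    rw [char_psi]

end crt

/-! ### characters -/

theorem e4_1 : (ZMod.stdAddChar (1 : ZMod 4) : ℂ) = Complex.I := by
  have h := ZMod.stdAddChar_coe (N := 4) 1
  rw [Int.cast_one] at h
  rw [h]
  have e : 2 * (Real.pi : ℂ) * Complex.I * ((1 : ℤ) : ℂ) / ((4 : ℕ) : ℂ) =
      Real.pi / 2 * Complex.I := by
    push_cast
    ring
  rw [e, Complex.exp_pi_div_two_mul_I]

theorem e4_2 : (ZMod.stdAddChar (2 : ZMod 4) : ℂ) = -1 := by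
  have h : (2 : ZMod 4) = 1 + 1 := by decide
  rw [h, AddChar.map_add_eq_mul, e4_1, Complex.I_mul_I]

theorem e4_3 : (ZMod.stdAddChar (3 : ZMod 4) : ℂ) = -Complex.I := by
  have h : (3 : ZMod 4) = 2 + 1 := by decide
  rw [h, AddChar.map_add_eq_mul, e4_1, e4_2]
  ring

theorem e2_1 : (ZMod.stdAddChar (1 : ZMod 2) : ℂ) = -1 := by
  have h := ZMod.stdAddChar_coe (N := 2) 1
  rw [Int.cast_one] at h
  rw [h]
  have e : 2 * (Real.pi : ℂ) * Complex.I * ((1 : ℤ) : ℂ) / ((2 : ℕ) : ℂ) =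
      Real.pi * Complex.I := by
    push_cast
    ring
  rw [e, Complex.exp_pi_mul_I]

theorem e3_2 : (ZMod.stdAddChar (2 : ZMod 3) : ℂ) = -1 - ZMod.stdAddChar (1 : ZMod 3) := by
  have h := sum_psi (q := 3) 1
  rw [if_neg (by decide)] at h
  have h3 : (univ : Finset (ZMod 3)) = {0, 1, 2} := by decide
  rw [h3, Finset.sum_insert (by decide), Finset.sum_insert (by decide), Finset.sum_singleton,
    mul_one, mul_one, mul_one, AddChar.map_zero_eq_one] at h
  linear_combination h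

/-! ### the local classes -/

/-- local modulus at 2 -/
def A1 (par : ℕ) : ℕ := if par = 0 then 1 else if par = 1 ∨ par = 4 then 2 else 4
/-- local modulus at 3 -/
def A2 (m : ℕ) : ℕ := if m = 0 then 1 else 3
/-- local density at 2 -/
noncomputable def d1 (par : ℕ) : ℝ := if par = 0 then 1 else if par = 4 then 1 / 2 else 1 / 4
/-- local density at 3 -/
noncomputable def d2 (m : ℕ) : ℝ := if m = 0 then 1 else if m = 2 then 8 / 9 else 4 / 9

/-- local data -/
def Loc (M : ℕ) [NeZero M] (U : GI → Prop) (d : ℝ) (K : ℕ → Prop) (G : GI → ℝ) : Prop :=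
  ∃ S : Finset (ZMod M × ZMod M),
    (∀ x : GI, ((x.re : ZMod M), (x.im : ZMod M)) ∈ S ↔ U x) ∧ (S.card : ℝ) = d * (M : ℝ) ^ 2 ∧
    (∀ k, K k → ∀ b c : ZMod M, ((k : ZMod M) * b, (k : ZMod M) * c) ∈ S ↔ (b, c) ∈ S) ∧
    ∀ h : GI, ‖FS M S h‖ ≤ G h

def K1 (k : ℕ) : Prop := k = 1 ∨ k = 3
def K2 (k : ℕ) : Prop := k = 1 ∨ k = 2 ∨ k = 4

def S4a : Finset (ZMod 4 × ZMod 4) := {(0, 1), (0, 3), (1, 0), (3, 0)}
def S4b : Finset (ZMod 4 × ZMod 4) := {(2, 1), (2, 3), (1, 2), (3, 2)}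
def S2a : Finset (ZMod 2 × ZMod 2) := {(1, 1)}
def S2b : Finset (ZMod 2 × ZMod 2) := {(0, 1), (1, 0)}
def S3a : Finset (ZMod 3 × ZMod 3) := {(1, 1), (1, 2), (2, 1), (2, 2)}
def S3b : Finset (ZMod 3 × ZMod 3) := univ.erase (0, 0)
def S3c : Finset (ZMod 3 × ZMod 3) := {(0, 1), (0, 2), (1, 0), (2, 0)}

theorem N2_cast (M : ℕ) (x : GI) : ((N2 x : ℤ) : ZMod M) = (x.re : ZMod M) ^ 2 + (x.im : ZMod M) ^ 2 := by
  unfold N2
  push_cast
  rfl

theorem mod_iff (M : ℕ) (r : ℕ) (hr : r < M) (y : ℤ) : y % M = r ↔ (y : ZMod M) = (r : ZMod M) := by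
  have h1 : (y : ZMod M) = (r : ZMod M) ↔ (y : ZMod M) = ((r : ℤ) : ZMod M) := by
    rw [Int.cast_natCast]
  rw [h1, ZMod.intCast_eq_intCast_iff]
  unfold Int.ModEq
  rw [Int.emod_eq_of_lt (a := (r : ℤ)) (by positivity) (by exact_mod_cast hr)]

theorem loc0 (K : ℕ → Prop) : Loc 1 (fun _ ↦ True) 1 K (fun _ ↦ 1) := by
  refine ⟨univ, by simp, by simp, by simp, ?_⟩
  intro h
  unfold FS
  refine (norm_sum_le _ _).trans ?_
  simp

theorem cast48 (y : ℤ) : (y : ZMod 4) = ZMod.castHom (by norm_num : 4 ∣ 8) (ZMod 4) (y : ZMod 8) := by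
  rw [map_intCast]

theorem cast24 (y : ℤ) : (y : ZMod 2) = ZMod.castHom (by norm_num : 2 ∣ 4) (ZMod 2) (y : ZMod 4) := by
  rw [map_intCast]

/-- comparison of the bound modulo 4 with `G2` -/
theorem bound4 (par : ℕ) (hpar : par = 2 ∨ par = 3) (h : GI) (y : ℂ)
    (hy : ‖y‖ ≤ if ((h.re : ZMod 4).val + (h.im : ZMod 4).val) % 2 = 1 then 2 else
      if (h.re : ZMod 4).val % 2 = 0 ∧ ((h.re : ZMod 4).val + (h.im : ZMod 4).val) % 4 = 0 then 4
      else 0) : ‖y‖ ≤ G2 par h := by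
  have h1 : ((h.re : ZMod 4).val : ℤ) = h.re % 4 := ZMod.val_intCast h.re
  have h2 : ((h.im : ZMod 4).val : ℤ) = h.im % 4 := ZMod.val_intCast h.im
  have h3 : (h.re : ZMod 4).val < 4 := ZMod.val_lt _
  have h4 : (h.im : ZMod 4).val < 4 := ZMod.val_lt _
  generalize (h.re : ZMod 4).val = r at *
  generalize (h.im : ZMod 4).val = s at *
  obtain ⟨t, ht⟩ : ∃ t : ℤ, N2 h = 8 * t + ((r : ℤ) ^ 2 + (s : ℤ) ^ 2) := by
    refine ⟨2 * (h.re / 4) ^ 2 + (h.re / 4) * r + 2 * (h.im / 4) ^ 2 + (h.im / 4) * s, ?_⟩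
    have e1 : h.re = 4 * (h.re / 4) + r := by omega
    have e2 : h.im = 4 * (h.im / 4) + s := by omega
    unfold N2
    conv_lhs => rw [e1, e2]
    ring
  refine hy.trans ?_
  unfold G2 dv
  rw [if_neg (by omega : ¬ par = 4), if_pos hpar]
  interval_cases r <;> interval_cases s <;> norm_num at ht ⊢ <;> split_ifs <;>
    first | omega | norm_num

theorem ca (a : ZMod 4) : (ZMod.stdAddChar a : ℂ) + ZMod.stdAddChar (a * 3) =
    if a.val = 0 then 2 else if a.val = 2 then -2 else 0 := by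
  fin_cases a
  · show (ZMod.stdAddChar (0 : ZMod 4) : ℂ) + ZMod.stdAddChar (0 : ZMod 4) = 2
    rw [AddChar.map_zero_eq_one]
    norm_num
  · show (ZMod.stdAddChar (1 : ZMod 4) : ℂ) + ZMod.stdAddChar (3 : ZMod 4) = 0
    rw [e4_1, e4_3]
    ring
  · show (ZMod.stdAddChar (2 : ZMod 4) : ℂ) + ZMod.stdAddChar (2 : ZMod 4) = -2
    rw [e4_2]
    norm_num
  · show (ZMod.stdAddChar (3 : ZMod 4) : ℂ) + ZMod.stdAddChar (1 : ZMod 4) = 0
    rw [e4_1, e4_3]
    ring

theorem cb (a : ZMod 4) : (ZMod.stdAddChar (a * 2) : ℂ) =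
    if a.val = 0 ∨ a.val = 2 then 1 else -1 := by
  fin_cases a
  · show (ZMod.stdAddChar (0 : ZMod 4) : ℂ) = 1
    rw [AddChar.map_zero_eq_one]
  · show (ZMod.stdAddChar (2 : ZMod 4) : ℂ) = -1
    rw [e4_2]
  · show (ZMod.stdAddChar (0 : ZMod 4) : ℂ) = 1
    rw [AddChar.map_zero_eq_one]
  · show (ZMod.stdAddChar (2 : ZMod 4) : ℂ) = -1
    rw [e4_2]

theorem cc (a : ZMod 2) : (ZMod.stdAddChar a : ℂ) = if a.val = 0 then 1 else -1 := by
  fin_cases a
  · show (ZMod.stdAddChar (0 : ZMod 2) : ℂ) = 1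
    rw [AddChar.map_zero_eq_one]
  · show (ZMod.stdAddChar (1 : ZMod 2) : ℂ) = -1
    rw [e2_1]

theorem cd (a : ZMod 3) : (ZMod.stdAddChar a : ℂ) + ZMod.stdAddChar (a * 2) =
    if a.val = 0 then 2 else -1 := by
  fin_cases a
  · show (ZMod.stdAddChar (0 : ZMod 3) : ℂ) + ZMod.stdAddChar (0 : ZMod 3) = 2
    rw [AddChar.map_zero_eq_one]
    norm_num
  · show (ZMod.stdAddChar (1 : ZMod 3) : ℂ) + ZMod.stdAddChar (2 : ZMod 3) = -1
    rw [e3_2]
    ring
  · show (ZMod.stdAddChar (2 : ZMod 3) : ℂ) + ZMod.stdAddChar (1 : ZMod 3) = -1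
    rw [e3_2]
    ring

theorem loc2 : Loc 4 (fun x ↦ N2 x % 8 = 1) (1 / 4) K1 (G2 2) := by
  refine ⟨S4a, ?_, ?_, ?_, ?_⟩
  · intro x
    show _ ↔ N2 x % 8 = 1
    have h1 : N2 x % 8 = 1 ↔ ((N2 x : ℤ) : ZMod 8) = 1 := by
      have := mod_iff 8 1 (by norm_num) (N2 x)
      push_cast at this
      exact this
    rw [h1, N2_cast, cast48 x.re, cast48 x.im]
    generalize (x.re : ZMod 8) = a
    generalize (x.im : ZMod 8) = b
    revert a b
    decide
  · have : S4a.card = 4 := by decide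
    rw [this]
    norm_num
  · rintro k (rfl | rfl)
    · decide
    · decide
  · intro h
    apply bound4 2 (Or.inl rfl)
    unfold FS
    generalize (h.re : ZMod 4) = a
    generalize (h.im : ZMod 4) = b
    have e : ∀ f : ZMod 4 × ZMod 4 → ℂ, ∑ x ∈ S4a, f x = f (0, 1) + f (0, 3) + f (1, 0) + f (3, 0) := by
      intro f
      unfold S4a
      rw [Finset.sum_insert (by decide), Finset.sum_insert (by decide),
        Finset.sum_insert (by decide), Finset.sum_singleton]
      ring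
    rw [e]
    have e2 : (ZMod.stdAddChar (a * 0 + b * 1) : ℂ) + ZMod.stdAddChar (a * 0 + b * 3) +
        ZMod.stdAddChar (a * 1 + b * 0) + ZMod.stdAddChar (a * 3 + b * 0) =
        (if b.val = 0 then 2 else if b.val = 2 then -2 else 0) +
        (if a.val = 0 then 2 else if a.val = 2 then -2 else 0) := by
      rw [← ca, ← ca]
      simp only [mul_zero, zero_add, mul_one, add_zero]
      ring
    show ‖(ZMod.stdAddChar (a * 0 + b * 1) : ℂ) + ZMod.stdAddChar (a * 0 + b * 3) +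
        ZMod.stdAddChar (a * 1 + b * 0) + ZMod.stdAddChar (a * 3 + b * 0)‖ ≤ _
    rw [e2]
    have ha : a.val < 4 := ZMod.val_lt _
    have hb : b.val < 4 := ZMod.val_lt _
    generalize a.val = r at *
    generalize b.val = s at *
    interval_cases r <;> interval_cases s <;> norm_num

theorem loc3 : Loc 4 (fun x ↦ N2 x % 8 = 5) (1 / 4) K1 (G2 3) := by
  refine ⟨S4b, ?_, ?_, ?_, ?_⟩
  · intro x
    show _ ↔ N2 x % 8 = 5
    have h1 : N2 x % 8 = 5 ↔ ((N2 x : ℤ) : ZMod 8) = 5 := by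
      have := mod_iff 8 5 (by norm_num) (N2 x)
      push_cast at this
      exact this
    rw [h1, N2_cast, cast48 x.re, cast48 x.im]
    generalize (x.re : ZMod 8) = a
    generalize (x.im : ZMod 8) = b
    revert a b
    decide
  · have : S4b.card = 4 := by decide
    rw [this]
    norm_num
  · rintro k (rfl | rfl)
    · decide
    · decide
  · intro h
    apply bound4 3 (Or.inr rfl)
    unfold FS
    generalize (h.re : ZMod 4) = a
    generalize (h.im : ZMod 4) = b
    have e : ∀ f : ZMod 4 × ZMod 4 → ℂ, ∑ x ∈ S4b, f x = f (2, 1) + f (2, 3) + f (1, 2) + f (3, 2) := by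
      intro f
      unfold S4b
      rw [Finset.sum_insert (by decide), Finset.sum_insert (by decide),
        Finset.sum_insert (by decide), Finset.sum_singleton]
      ring
    rw [e]
    have e2 : (ZMod.stdAddChar (a * 2 + b * 1) : ℂ) + ZMod.stdAddChar (a * 2 + b * 3) +
        ZMod.stdAddChar (a * 1 + b * 2) + ZMod.stdAddChar (a * 3 + b * 2) =
        (if a.val = 0 ∨ a.val = 2 then 1 else -1) *
          (if b.val = 0 then 2 else if b.val = 2 then -2 else 0) +
        (if b.val = 0 ∨ b.val = 2 then 1 else -1) *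
          (if a.val = 0 then 2 else if a.val = 2 then -2 else 0) := by
      rw [← ca, ← ca, ← cb, ← cb]
      simp only [AddChar.map_add_eq_mul, mul_one]
      ring
    show ‖(ZMod.stdAddChar (a * 2 + b * 1) : ℂ) + ZMod.stdAddChar (a * 2 + b * 3) +
        ZMod.stdAddChar (a * 1 + b * 2) + ZMod.stdAddChar (a * 3 + b * 2)‖ ≤ _
    rw [e2]
    have ha : a.val < 4 := ZMod.val_lt _
    have hb : b.val < 4 := ZMod.val_lt _
    generalize a.val = r at *
    generalize b.val = s at *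
    interval_cases r <;> interval_cases s <;> norm_num

theorem loc1 : Loc 2 (fun x ↦ N2 x % 4 = 2) (1 / 4) K1 (fun _ ↦ 1) := by
  refine ⟨S2a, ?_, ?_, ?_, ?_⟩
  · intro x
    show _ ↔ N2 x % 4 = 2
    have h1 : N2 x % 4 = 2 ↔ ((N2 x : ℤ) : ZMod 4) = 2 := by
      have := mod_iff 4 2 (by norm_num) (N2 x)
      push_cast at this
      exact this
    rw [h1, N2_cast, cast24 x.re, cast24 x.im]
    generalize (x.re : ZMod 4) = a
    generalize (x.im : ZMod 4) = b
    revert a b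
    decide
  · have : S2a.card = 1 := by decide
    rw [this]
    norm_num
  · rintro k (rfl | rfl)
    · decide
    · decide
  · intro h
    unfold FS S2a
    rw [Finset.sum_singleton]
    simp

theorem loc4 : Loc 2 (fun x ↦ N2 x % 2 = 1) (1 / 2) K1 (G2 4) := by
  refine ⟨S2b, ?_, ?_, ?_, ?_⟩
  · intro x
    show _ ↔ N2 x % 2 = 1
    have h1 : N2 x % 2 = 1 ↔ ((N2 x : ℤ) : ZMod 2) = 1 := by
      have := mod_iff 2 1 (by norm_num) (N2 x)
      push_cast at this
      exact this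
    rw [h1, N2_cast]
    generalize (x.re : ZMod 2) = a
    generalize (x.im : ZMod 2) = b
    revert a b
    decide
  · have : S2b.card = 2 := by decide
    rw [this]
    norm_num
  · rintro k (rfl | rfl)
    · decide
    · decide
  · intro h
    unfold FS S2b
    rw [Finset.sum_insert (by decide), Finset.sum_singleton]
    show ‖(ZMod.stdAddChar ((h.re : ZMod 2) * 0 + (h.im : ZMod 2) * 1) : ℂ) +
      ZMod.stdAddChar ((h.re : ZMod 2) * 1 + (h.im : ZMod 2) * 0)‖ ≤
        if N2 h % 2 = 0 then (2 : ℝ) else 0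
    rw [mul_zero, mul_zero, zero_add, add_zero, mul_one, mul_one, cc, cc]
    have h1 : ((h.re : ZMod 2).val : ℤ) = h.re % 2 := ZMod.val_intCast h.re
    have h2 : ((h.im : ZMod 2).val : ℤ) = h.im % 2 := ZMod.val_intCast h.im
    have h3 : (h.re : ZMod 2).val < 2 := ZMod.val_lt _
    have h4 : (h.im : ZMod 2).val < 2 := ZMod.val_lt _
    generalize (h.re : ZMod 2).val = r at *
    generalize (h.im : ZMod 2).val = s at *
    obtain ⟨t, ht⟩ : ∃ t : ℤ, N2 h = 4 * t + ((r : ℤ) ^ 2 + (s : ℤ) ^ 2) := by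
      refine ⟨(h.re / 2) ^ 2 + (h.re / 2) * r + (h.im / 2) ^ 2 + (h.im / 2) * s, ?_⟩
      have e1 : h.re = 2 * (h.re / 2) + r := by omega
      have e2 : h.im = 2 * (h.im / 2) + s := by omega
      unfold N2
      conv_lhs => rw [e1, e2]
      ring
    interval_cases r <;> interval_cases s <;> norm_num at ht ⊢ <;> split_ifs <;>
      first | omega | norm_num

theorem dv3 (h : GI) : dv 3 h ↔ (h.re : ZMod 3).val = 0 ∧ (h.im : ZMod 3).val = 0 := by
  have h1 : ((h.re : ZMod 3).val : ℤ) = h.re % 3 := ZMod.val_intCast h.re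
  have h2 : ((h.im : ZMod 3).val : ℤ) = h.im % 3 := ZMod.val_intCast h.im
  unfold dv
  omega

theorem loc3a : Loc 3 (fun x ↦ N2 x % 3 = 2) (4 / 9) K2 (G3 1) := by
  refine ⟨S3a, ?_, ?_, ?_, ?_⟩
  · intro x
    show _ ↔ N2 x % 3 = 2
    have h1 : N2 x % 3 = 2 ↔ ((N2 x : ℤ) : ZMod 3) = 2 := by
      have := mod_iff 3 2 (by norm_num) (N2 x)
      push_cast at this
      exact this
    rw [h1, N2_cast]
    generalize (x.re : ZMod 3) = a
    generalize (x.im : ZMod 3) = b
    revert a b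
    decide
  · have : S3a.card = 4 := by decide
    rw [this]
    norm_num
  · rintro k (rfl | rfl | rfl)
    · decide
    · decide
    · decide
  · intro h
    show _ ≤ if dv 3 h then (4 : ℝ) else 2
    simp only [dv3]
    unfold FS
    generalize (h.re : ZMod 3) = a
    generalize (h.im : ZMod 3) = b
    have e : ∀ f : ZMod 3 × ZMod 3 → ℂ, ∑ x ∈ S3a, f x = f (1, 1) + f (1, 2) + f (2, 1) + f (2, 2) := by
      intro f
      unfold S3a
      rw [Finset.sum_insert (by decide), Finset.sum_insert (by decide),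
        Finset.sum_insert (by decide), Finset.sum_singleton]
      ring
    rw [e]
    have e2 : (ZMod.stdAddChar (a * 1 + b * 1) : ℂ) + ZMod.stdAddChar (a * 1 + b * 2) +
        ZMod.stdAddChar (a * 2 + b * 1) + ZMod.stdAddChar (a * 2 + b * 2) =
        (if a.val = 0 then 2 else -1) * (if b.val = 0 then 2 else -1) := by
      rw [← cd, ← cd]
      simp only [AddChar.map_add_eq_mul, mul_one]
      ring
    show ‖(ZMod.stdAddChar (a * 1 + b * 1) : ℂ) + ZMod.stdAddChar (a * 1 + b * 2) +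
        ZMod.stdAddChar (a * 2 + b * 1) + ZMod.stdAddChar (a * 2 + b * 2)‖ ≤ _
    rw [e2]
    have ha : a.val < 3 := ZMod.val_lt _
    have hb : b.val < 3 := ZMod.val_lt _
    generalize a.val = r at *
    generalize b.val = s at *
    interval_cases r <;> interval_cases s <;> norm_num

theorem loc3c : Loc 3 (fun x ↦ N2 x % 3 = 1) (4 / 9) K2 (G3 3) := by
  refine ⟨S3c, ?_, ?_, ?_, ?_⟩
  · intro x
    show _ ↔ N2 x % 3 = 1
    have h1 : N2 x % 3 = 1 ↔ ((N2 x : ℤ) : ZMod 3) = 1 := by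
      have := mod_iff 3 1 (by norm_num) (N2 x)
      push_cast at this
      exact this
    rw [h1, N2_cast]
    generalize (x.re : ZMod 3) = a
    generalize (x.im : ZMod 3) = b
    revert a b
    decide
  · have : S3c.card = 4 := by decide
    rw [this]
    norm_num
  · rintro k (rfl | rfl | rfl)
    · decide
    · decide
    · decide
  · intro h
    show _ ≤ if dv 3 h then (4 : ℝ) else 2
    simp only [dv3]
    unfold FS
    generalize (h.re : ZMod 3) = a
    generalize (h.im : ZMod 3) = b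
    have e : ∀ f : ZMod 3 × ZMod 3 → ℂ, ∑ x ∈ S3c, f x = f (0, 1) + f (0, 2) + f (1, 0) + f (2, 0) := by
      intro f
      unfold S3c
      rw [Finset.sum_insert (by decide), Finset.sum_insert (by decide),
        Finset.sum_insert (by decide), Finset.sum_singleton]
      ring
    rw [e]
    have e2 : (ZMod.stdAddChar (a * 0 + b * 1) : ℂ) + ZMod.stdAddChar (a * 0 + b * 2) +
        ZMod.stdAddChar (a * 1 + b * 0) + ZMod.stdAddChar (a * 2 + b * 0) =
        (if b.val = 0 then 2 else -1) + (if a.val = 0 then 2 else -1) := by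
      rw [← cd, ← cd]
      simp only [mul_zero, zero_add, mul_one, add_zero]
      ring
    show ‖(ZMod.stdAddChar (a * 0 + b * 1) : ℂ) + ZMod.stdAddChar (a * 0 + b * 2) +
        ZMod.stdAddChar (a * 1 + b * 0) + ZMod.stdAddChar (a * 2 + b * 0)‖ ≤ _
    rw [e2]
    have ha : a.val < 3 := ZMod.val_lt _
    have hb : b.val < 3 := ZMod.val_lt _
    generalize a.val = r at *
    generalize b.val = s at *
    interval_cases r <;> interval_cases s <;> norm_num

theorem loc3b : Loc 3 (fun x ↦ N2 x % 3 ≠ 0) (8 / 9) K2 (G3 2) := by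
  refine ⟨S3b, ?_, ?_, ?_, ?_⟩
  · intro x
    show _ ↔ N2 x % 3 ≠ 0
    have h1 : N2 x % 3 = 0 ↔ ((N2 x : ℤ) : ZMod 3) = 0 := by
      have := mod_iff 3 0 (by norm_num) (N2 x)
      push_cast at this
      exact this
    rw [ne_eq, h1, N2_cast]
    generalize (x.re : ZMod 3) = a
    generalize (x.im : ZMod 3) = b
    revert a b
    decide
  · have : S3b.card = 8 := by decide
    rw [this]
    norm_num
  · rintro k (rfl | rfl | rfl)
    · decide
    · decide
    · decide
  · intro h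
    show _ ≤ if dv 3 h then (8 : ℝ) else 1
    simp only [dv3]
    unfold FS
    generalize (h.re : ZMod 3) = a
    generalize (h.im : ZMod 3) = b
    have e0 : S3b = {(0, 1), (0, 2), (1, 0), (2, 0), (1, 1), (1, 2), (2, 1), (2, 2)} := by decide
    have e : ∀ f : ZMod 3 × ZMod 3 → ℂ, ∑ x ∈ S3b, f x = f (0, 1) + f (0, 2) + f (1, 0) + f (2, 0) +
        (f (1, 1) + f (1, 2) + f (2, 1) + f (2, 2)) := by
      intro f
      rw [e0, Finset.sum_insert (by decide), Finset.sum_insert (by decide),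
        Finset.sum_insert (by decide), Finset.sum_insert (by decide),
        Finset.sum_insert (by decide), Finset.sum_insert (by decide),
        Finset.sum_insert (by decide), Finset.sum_singleton]
      ring
    rw [e]
    have e2 : (ZMod.stdAddChar (a * 0 + b * 1) : ℂ) + ZMod.stdAddChar (a * 0 + b * 2) +
        ZMod.stdAddChar (a * 1 + b * 0) + ZMod.stdAddChar (a * 2 + b * 0) +
        (ZMod.stdAddChar (a * 1 + b * 1) + ZMod.stdAddChar (a * 1 + b * 2) +
        ZMod.stdAddChar (a * 2 + b * 1) + ZMod.stdAddChar (a * 2 + b * 2)) =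
        (if b.val = 0 then 2 else -1) + (if a.val = 0 then 2 else -1) +
        (if a.val = 0 then 2 else -1) * (if b.val = 0 then 2 else -1) := by
      rw [← cd, ← cd]
      simp only [AddChar.map_add_eq_mul, mul_one, mul_zero, AddChar.map_zero_eq_one]
      ring
    show ‖(ZMod.stdAddChar (a * 0 + b * 1) : ℂ) + ZMod.stdAddChar (a * 0 + b * 2) +
        ZMod.stdAddChar (a * 1 + b * 0) + ZMod.stdAddChar (a * 2 + b * 0) +
        (ZMod.stdAddChar (a * 1 + b * 1) + ZMod.stdAddChar (a * 1 + b * 2) +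
        ZMod.stdAddChar (a * 2 + b * 1) + ZMod.stdAddChar (a * 2 + b * 2))‖ ≤ _
    rw [e2]
    have ha : a.val < 3 := ZMod.val_lt _
    have hb : b.val < 3 := ZMod.val_lt _
    generalize a.val = r at *
    generalize b.val = s at *
    interval_cases r <;> interval_cases s <;> norm_num

theorem locA (par : ℕ) (hpar : par ≤ 4) [NeZero (A1 par)] :
    Loc (A1 par) (UP par) (d1 par) K1 (G2 par) := by
  interval_cases par
  · exact loc0 K1
  · exact loc1
  · exact loc2
  · exact loc3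
  · exact loc4

theorem locB (m : ℕ) (hm : m ≤ 3) [NeZero (A2 m)] :
    Loc (A2 m) (UM m) (d2 m) K2 (G3 m) := by
  interval_cases m
  · exact loc0 K2
  · exact loc3a
  · exact loc3b
  · exact loc3c

/-- assembly -/
theorem combine (M N : ℕ) [NeZero M] [NeZero N] [NeZero (M * N)] (hc : M.Coprime N)
    {U V : GI → Prop} {d e : ℝ} {G H : GI → ℝ} {K L : ℕ → Prop} (hK : K N) (hL : L M)
    (h1 : Loc M U d K G) (h2 : Loc N V e L H) :
    (∀ x y : GI, ((M * N : ℕ) : ℤ) ∣ x.re - y.re → ((M * N : ℕ) : ℤ) ∣ x.im - y.im →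
      ((U x ∧ V x) ↔ (U y ∧ V y))) ∧
    ∃ S : Finset (ZMod (M * N) × ZMod (M * N)),
      (∀ x : GI, ((x.re : ZMod (M * N)), (x.im : ZMod (M * N))) ∈ S ↔ U x ∧ V x) ∧
      (S.card : ℝ) = d * e * ((M * N : ℕ) : ℝ) ^ 2 ∧
      ∀ h : GI, ‖∑ a ∈ S, (ZMod.stdAddChar ((h.re : ZMod (M * N)) * a.1 +
        (h.im : ZMod (M * N)) * a.2) : ℂ)‖ ≤ G h * H h := by
  classical
  obtain ⟨S, s1, s2, s3, s4⟩ := h1
  obtain ⟨T, t1, t2, t3, t4⟩ := h2
  set c1 := ZMod.castHom (Dvd.intro N rfl : M ∣ M * N) (ZMod M) with hc1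
  set c2 := ZMod.castHom (Dvd.intro_left M rfl : N ∣ M * N) (ZMod N) with hc2
  set W : Finset (ZMod (M * N) × ZMod (M * N)) :=
    univ.filter (fun a ↦ (c1 a.1, c1 a.2) ∈ S ∧ (c2 a.1, c2 a.2) ∈ T) with hW
  have hmem : ∀ x : GI, ((x.re : ZMod (M * N)), (x.im : ZMod (M * N))) ∈ W ↔ U x ∧ V x := by
    intro x
    rw [hW, Finset.mem_filter]
    simp only [mem_univ, true_and, map_intCast]
    rw [s1, t1]
  have hpsi : ∀ u v : ZMod M × ZMod N, (psi M N u, psi M N v) ∈ W ↔
      (u.1, v.1) ∈ S ∧ (u.2, v.2) ∈ T := by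
    intro u v
    rw [hW, Finset.mem_filter]
    simp only [mem_univ, true_and]
    rw [hc1, hc2, c1_psi, c1_psi, c2_psi, c2_psi, s3 N hK, t3 M hL]
  have hFS := FS_mul M N hc S T W hpsi
  refine ⟨?_, W, hmem, ?_, ?_⟩
  · intro x y hx hy
    rw [← hmem x, ← hmem y]
    have e1 : (x.re : ZMod (M * N)) = (y.re : ZMod (M * N)) := by
      rw [← sub_eq_zero, ← Int.cast_sub, ZMod.intCast_zmod_eq_zero_iff_dvd]
      exact hx
    have e2 : (x.im : ZMod (M * N)) = (y.im : ZMod (M * N)) := by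
      rw [← sub_eq_zero, ← Int.cast_sub, ZMod.intCast_zmod_eq_zero_iff_dvd]
      exact hy
    rw [e1, e2]
  · have h0 := hFS 0
    rw [FS_zero, FS_zero, FS_zero] at h0
    have h0' : (W.card : ℝ) = S.card * T.card := by exact_mod_cast h0
    rw [h0', s2, t2]
    push_cast
    ring
  · intro h
    show ‖FS (M * N) W h‖ ≤ _
    rw [hFS h, norm_mul]
    exact mul_le_mul (s4 h) (t4 h) (norm_nonneg _) ((norm_nonneg _).trans (s4 h))

end P3

open P3

theorem stUd : StUd := by
  intro par m hpar hm hne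
  have i1 : NeZero (A1 par) := ⟨by
    unfold A1
    split_ifs <;> norm_num⟩
  have i2 : NeZero (A2 m) := ⟨by
    unfold A2
    split_ifs <;> norm_num⟩
  have i3 : NeZero (A1 par * A2 m) := hne
  have hc : (A1 par).Coprime (A2 m) := by
    unfold A1 A2
    split_ifs <;> norm_num
  have hK : K1 (A2 m) := by
    unfold K1 A2
    split_ifs <;> norm_num
  have hL : K2 (A1 par) := by
    unfold K2 A1
    split_ifs <;> norm_num
  exact combine (A1 par) (A2 m) hc hK hL (locA par hpar) (locB m hm)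

end Pool.Agent.TFS
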