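import Pool.Agent.Lib.TFS.StmtsA

/-!
P4: Gaussian counting in residue classes from domination (blueprint: team-store `tfs_A.md`).
-/

set_option autoImplicit false

open Finset MeasureTheory

namespace Pool.Agent.TFS

open Pool.Agent.Lib.MP_0e0027_nt

/-! ### Weighted Gaussian sums over ideals -/

/-- Gaussian weight away from zero -/
noncomputable def P4.Eg (y : ℝ) (h : GI) : ℝ :=
  open Classical in if h ≠ 0 then Real.exp (-(Real.pi * y * (N2 h : ℝ))) else 0

theorem P4.Eg_nonneg (y : ℝ) (h : GI) : 0 ≤ P4.Eg y h := by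
  unfold P4.Eg
  split_ifs
  · exact (Real.exp_pos _).le
  · exact le_rfl

/-- bound for a weighted sum -/
def P4.Bd (y : ℝ) (T : GI → ℝ) (K : ℝ) : Prop :=
  (∀ h, 0 ≤ T h) ∧ Summable (fun h ↦ T h * P4.Eg y h) ∧ ∑' h, T h * P4.Eg y h ≤ K

theorem P4.Bd.add {y : ℝ} {T T' : GI → ℝ} {K K' : ℝ} (h : P4.Bd y T K) (h' : P4.Bd y T' K') :
    P4.Bd y (fun h ↦ T h + T' h) (K + K') := by
  refine ⟨fun x ↦ add_nonneg (h.1 x) (h'.1 x), ?_, ?_⟩
  · simp only [add_mul]
    exact h.2.1.add h'.2.1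
  · simp only [add_mul]
    rw [h.2.1.tsum_add h'.2.1]
    exact add_le_add h.2.2 h'.2.2

theorem P4.Bd.smul {y : ℝ} {T : GI → ℝ} {K : ℝ} (h : P4.Bd y T K) (c : ℝ) (hc : 0 ≤ c) :
    P4.Bd y (fun h ↦ c * T h) (c * K) := by
  refine ⟨fun x ↦ mul_nonneg hc (h.1 x), ?_, ?_⟩
  · simp only [mul_assoc]
    exact h.2.1.mul_left c
  · simp only [mul_assoc]
    rw [tsum_mul_left]
    exact mul_le_mul_of_nonneg_left h.2.2 hc

theorem P4.Bd.mono {y : ℝ} {T T' : GI → ℝ} {K K' : ℝ} (h : P4.Bd y T K) (h0 : ∀ x, 0 ≤ T' x)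
    (hT : ∀ x, T' x ≤ T x) (hK : K ≤ K') : P4.Bd y T' K' := by
  have hs : Summable (fun x ↦ T' x * P4.Eg y x) :=
    Summable.of_nonneg_of_le (fun x ↦ mul_nonneg (h0 x) (P4.Eg_nonneg y x))
      (fun x ↦ mul_le_mul_of_nonneg_right (hT x) (P4.Eg_nonneg y x)) h.2.1
  refine ⟨h0, hs, le_trans ?_ (le_trans h.2.2 hK)⟩
  exact hs.tsum_le_tsum (fun x ↦ mul_le_mul_of_nonneg_right (hT x) (P4.Eg_nonneg y x)) h.2.1

theorem P4.Bd.zero (y : ℝ) : P4.Bd y (fun _ ↦ 0) 0 := by
  refine ⟨fun _ ↦ le_rfl, ?_, ?_⟩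
  · simp only [zero_mul]
    exact summable_zero
  · simp

theorem P4.Bd.sum {y : ℝ} {ι : Type} (s : Finset ι) {T : ι → GI → ℝ} {K : ι → ℝ}
    (h : ∀ i ∈ s, P4.Bd y (T i) (K i)) : P4.Bd y (fun x ↦ ∑ i ∈ s, T i x) (∑ i ∈ s, K i) := by
  classical
  induction s using Finset.induction_on with
  | empty => simpa using P4.Bd.zero y
  | insert i s hi ih =>
    simp only [sum_insert hi]
    exact (h i (mem_insert_self i s)).add (ih (fun j hj ↦ h j (mem_insert_of_mem hj)))

section theta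

variable (h1 : StTh) {y : ℝ} (hy : 0 < y)

include h1 hy

theorem P4.ind {δ : GI} (hδ : δ ≠ 0) :
    P4.Bd y (fun h ↦ open Classical in if δ ∣ h then (1 : ℝ) else 0) (1 / (y * (N2 δ : ℝ))) := by
  classical
  obtain ⟨hs, hb, _⟩ := h1 δ hδ y hy
  have e : ∀ h : GI, (if δ ∣ h then (1 : ℝ) else 0) * P4.Eg y h =
      if δ ∣ h ∧ h ≠ 0 then Real.exp (-(Real.pi * y * (N2 h : ℝ))) else 0 := by
    intro h
    unfold P4.Eg
    by_cases a1 : δ ∣ h <;> by_cases a2 : h = 0 <;> simp [a1, a2]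
  refine ⟨fun h ↦ by dsimp only; split_ifs <;> norm_num, ?_, ?_⟩
  · refine Summable.of_nonneg_of_le (fun h ↦ ?_) (fun h ↦ ?_) hs
    · rw [e]
      split_ifs
      · exact (Real.exp_pos _).le
      · exact le_rfl
    · rw [e]
      split_ifs
      · exact le_rfl
      · exact (Real.exp_pos _).le
  · simp only [e]
    exact hb

theorem P4.indodd {δ : GI} (hδ : δ ≠ 0) (hodd : N2 δ % 2 = 1) :
    P4.Bd y (fun h ↦ open Classical in if δ ∣ h ∧ N2 h % 2 = 1 then (1 : ℝ) else 0)
      (1 / (2 * y * (N2 δ : ℝ))) := by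
  classical
  obtain ⟨hs, _, hb⟩ := h1 δ hδ y hy
  have e : ∀ h : GI, (if δ ∣ h ∧ N2 h % 2 = 1 then (1 : ℝ) else 0) * P4.Eg y h =
      if δ ∣ h ∧ N2 h % 2 = 1 then Real.exp (-(Real.pi * y * (N2 h : ℝ))) else 0 := by
    intro h
    unfold P4.Eg
    by_cases a2 : h = 0
    · subst a2
      simp [N2]
    · by_cases a1 : δ ∣ h ∧ N2 h % 2 = 1
      · rw [if_pos a1, if_pos a2, if_pos a1, one_mul]
      · rw [if_neg a1, if_neg a1, zero_mul]
  refine ⟨fun h ↦ by dsimp only; split_ifs <;> norm_num, ?_, ?_⟩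
  · refine Summable.of_nonneg_of_le (fun h ↦ ?_) (fun h ↦ ?_) hs
    · rw [e]
      split_ifs
      · exact (Real.exp_pos _).le
      · exact le_rfl
    · rw [e]
      split_ifs
      · exact le_rfl
      · exact (Real.exp_pos _).le
  · simp only [e]
    exact hb hodd

end theta

/-! ### Divisibility -/

theorem P4.N2_mul (x y : GI) : N2 (x * y) = N2 x * N2 y := by
  unfold N2
  rw [Zsqrtd.re_mul, Zsqrtd.im_mul]
  ring

theorem P4.N2_three : N2 (3 : GI) = 9 := by
  have : (3 : GI) = ⟨3, 0⟩ := rfl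
  rw [this]
  rfl

theorem P4.dv_iff (n : ℤ) (h : GI) : dv n h ↔ (n : GI) ∣ h := by
  rw [Zsqrtd.intCast_dvd]
  rfl

theorem P4.dvd_of_even {h : GI} (he : N2 h % 2 = 0) : (⟨1, 1⟩ : GI) ∣ h := by
  unfold N2 at he
  have h1 : (h.re + h.im) % 2 = 0 := by
    have e1 : h.re ^ 2 % 2 = h.re % 2 := by
      rcases Int.emod_two_eq_zero_or_one h.re with h | h <;> rw [sq, Int.mul_emod, h] <;> norm_num
    have e2 : h.im ^ 2 % 2 = h.im % 2 := by
      rcases Int.emod_two_eq_zero_or_one h.im with h | h <;> rw [sq, Int.mul_emod, h] <;> norm_num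
    omega
  obtain ⟨t, ht⟩ : ∃ t : ℤ, h.re + h.im = 2 * t := ⟨(h.re + h.im) / 2, by omega⟩
  refine ⟨⟨t, t - h.re⟩, ?_⟩
  apply Zsqrtd.ext
  · rw [Zsqrtd.re_mul]
    simp
  · rw [Zsqrtd.im_mul]
    simp only
    linarith

/-- the constant of the class modulo 3 -/
noncomputable def P4.c3 (m : ℕ) : ℝ := if m = 0 then 1 else if m = 2 then 16 / 9 else 20 / 9

theorem P4.c3_nonneg (m : ℕ) : 0 ≤ P4.c3 m := by
  unfold P4.c3
  split_ifs <;> norm_num

theorem P4.G3_nonneg (m : ℕ) (h : GI) : 0 ≤ G3 m h := by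
  unfold G3
  split_ifs <;> norm_num

theorem P4.G2_nonneg (par : ℕ) (h : GI) : 0 ≤ G2 par h := by
  unfold G2
  split_ifs <;> norm_num

section theta

variable (h1 : StTh) {y : ℝ} (hy : 0 < y)

include h1 hy

theorem P4.G3_bd (m : ℕ) {δ : GI} (hδ : δ ≠ 0) (hc : m ≠ 0 → IsCoprime δ 3) :
    P4.Bd y (fun h ↦ open Classical in G3 m h * (if δ ∣ h then (1 : ℝ) else 0))
      (P4.c3 m / (y * (N2 δ : ℝ))) := by
  classical
  have hA := P4.ind h1 hy hδ
  have h30 : (3 : GI) ≠ 0 := by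
    intro h
    have := P4.N2_three
    rw [h] at this
    simp [N2] at this
  by_cases hm : m = 0
  · subst hm
    refine hA.mono (fun h ↦ ?_) (fun h ↦ ?_) ?_
    · exact mul_nonneg (P4.G3_nonneg 0 h) (by split_ifs <;> norm_num)
    · simp [G3]
    · simp [P4.c3]
  · have hB := P4.ind h1 hy (mul_ne_zero hδ h30)
    rw [P4.N2_mul, P4.N2_three] at hB
    have hdv : ∀ h : GI, dv 3 h ↔ (3 : GI) ∣ h := fun h ↦ by
      rw [P4.dv_iff]
      push_cast
      rfl
    have hmul : ∀ h : GI, δ ∣ h → (3 : GI) ∣ h → δ * 3 ∣ h := fun h a b ↦ (hc hm).mul_dvd a b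
    by_cases hm2 : m = 2
    · refine (hA.add (hB.smul 7 (by norm_num))).mono (fun h ↦ ?_) (fun h ↦ ?_) ?_
      · exact mul_nonneg (P4.G3_nonneg m h) (by split_ifs <;> norm_num)
      · simp only [G3, if_neg hm, if_pos hm2]
        by_cases a1 : δ ∣ h
        · by_cases a2 : dv 3 h
          · have a3 := hmul h a1 ((hdv h).mp a2)
            simp only [a1, a2, a3, if_true]
            norm_num
          · simp only [a1, a2, if_true, if_false]
            have : (0 : ℝ) ≤ if δ * 3 ∣ h then 1 else 0 := by split_ifs <;> norm_num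
            linarith
        · simp only [a1, if_false, mul_zero, zero_add]
          have : (0 : ℝ) ≤ if δ * 3 ∣ h then 1 else 0 := by split_ifs <;> norm_num
          linarith
      · simp only [P4.c3, if_neg hm, if_pos hm2]
        push_cast
        have hy' := hy.ne'
        apply le_of_eq
        by_cases hN : (N2 δ : ℝ) = 0
        · rw [hN]; simp
        · field_simp
          norm_num
    · refine ((hA.smul 2 (by norm_num)).add (hB.smul 2 (by norm_num))).mono
        (fun h ↦ ?_) (fun h ↦ ?_) ?_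
      · exact mul_nonneg (P4.G3_nonneg m h) (by split_ifs <;> norm_num)
      · simp only [G3, if_neg hm, if_neg hm2]
        by_cases a1 : δ ∣ h
        · by_cases a2 : dv 3 h
          · have a3 := hmul h a1 ((hdv h).mp a2)
            simp only [a1, a2, a3, if_true]
            norm_num
          · simp only [a1, a2, if_true, if_false]
            have : (0 : ℝ) ≤ if δ * 3 ∣ h then 1 else 0 := by split_ifs <;> norm_num
            linarith
        · simp only [a1, if_false, mul_zero, zero_add]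
          have : (0 : ℝ) ≤ if δ * 3 ∣ h then 1 else 0 := by split_ifs <;> norm_num
          linarith
      · simp only [P4.c3, if_neg hm, if_neg hm2]
        push_cast
        have hy' := hy.ne'
        apply le_of_eq
        by_cases hN : (N2 δ : ℝ) = 0
        · rw [hN]; simp
        · field_simp
          norm_num

theorem P4.G3_bd_odd (m : ℕ) {δ : GI} (hδ : δ ≠ 0) (hodd : N2 δ % 2 = 1)
    (hc : m ≠ 0 → IsCoprime δ 3) :
    P4.Bd y (fun h ↦ open Classical in G3 m h * (if δ ∣ h ∧ N2 h % 2 = 1 then (1 : ℝ) else 0))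
      (P4.c3 m / (2 * y * (N2 δ : ℝ))) := by
  classical
  have hA := P4.indodd h1 hy hδ hodd
  have h30 : (3 : GI) ≠ 0 := by
    intro h
    have := P4.N2_three
    rw [h] at this
    simp [N2] at this
  by_cases hm : m = 0
  · subst hm
    refine hA.mono (fun h ↦ ?_) (fun h ↦ ?_) ?_
    · exact mul_nonneg (P4.G3_nonneg 0 h) (by split_ifs <;> norm_num)
    · simp [G3]
    · simp [P4.c3]
  · have hodd3 : N2 (δ * 3) % 2 = 1 := by
      rw [P4.N2_mul, P4.N2_three]
      omega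
    have hB := P4.indodd h1 hy (mul_ne_zero hδ h30) hodd3
    rw [P4.N2_mul, P4.N2_three] at hB
    have hdv : ∀ h : GI, dv 3 h ↔ (3 : GI) ∣ h := fun h ↦ by
      rw [P4.dv_iff]
      push_cast
      rfl
    have hmul : ∀ h : GI, δ ∣ h → (3 : GI) ∣ h → δ * 3 ∣ h := fun h a b ↦ (hc hm).mul_dvd a b
    have hnn : ∀ h : GI, (0 : ℝ) ≤ if δ * 3 ∣ h ∧ N2 h % 2 = 1 then 1 else 0 := by
      intro h
      split_ifs <;> norm_num
    by_cases hm2 : m = 2
    · refine (hA.add (hB.smul 7 (by norm_num))).mono (fun h ↦ ?_) (fun h ↦ ?_) ?_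
      · exact mul_nonneg (P4.G3_nonneg m h) (by split_ifs <;> norm_num)
      · simp only [G3, if_neg hm, if_pos hm2]
        have hh := hnn h
        by_cases a1 : δ ∣ h ∧ N2 h % 2 = 1
        · by_cases a2 : dv 3 h
          · have a3 : δ * 3 ∣ h ∧ N2 h % 2 = 1 := ⟨hmul h a1.1 ((hdv h).mp a2), a1.2⟩
            rw [if_pos a1, if_pos a2, if_pos a3]
            norm_num
          · rw [if_pos a1, if_neg a2]
            linarith
        · rw [if_neg a1, mul_zero]
          linarith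
      · simp only [P4.c3, if_neg hm, if_pos hm2]
        push_cast
        have hy' := hy.ne'
        apply le_of_eq
        by_cases hN : (N2 δ : ℝ) = 0
        · rw [hN]; simp
        · field_simp
          norm_num
    · refine ((hA.smul 2 (by norm_num)).add (hB.smul 2 (by norm_num))).mono
        (fun h ↦ ?_) (fun h ↦ ?_) ?_
      · exact mul_nonneg (P4.G3_nonneg m h) (by split_ifs <;> norm_num)
      · simp only [G3, if_neg hm, if_neg hm2]
        have hh := hnn h
        by_cases a1 : δ ∣ h ∧ N2 h % 2 = 1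
        · by_cases a2 : dv 3 h
          · have a3 : δ * 3 ∣ h ∧ N2 h % 2 = 1 := ⟨hmul h a1.1 ((hdv h).mp a2), a1.2⟩
            rw [if_pos a1, if_pos a2, if_pos a3]
            norm_num
          · rw [if_pos a1, if_neg a2]
            linarith
        · rw [if_neg a1, mul_zero]
          linarith
      · simp only [P4.c3, if_neg hm, if_neg hm2]
        push_cast
        have hy' := hy.ne'
        apply le_of_eq
        by_cases hN : (N2 δ : ℝ) = 0
        · rw [hN]; simp
        · field_simp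
          norm_num

end theta

/-! ### Coprimality in the Gaussian integers -/

theorem P4.cop_int {a b : ℤ} (h : IsCoprime a b) : IsCoprime (a : GI) (b : GI) := by
  obtain ⟨u, v, huv⟩ := h
  refine ⟨(u : GI), (v : GI), ?_⟩
  have := congrArg (fun t : ℤ ↦ (t : GI)) huv
  push_cast at this
  exact this

theorem P4.cop_dvd {γ : GI} {q : ℕ} (hγ : γ ∣ (q : GI)) {a : ℤ} (h : IsCoprime (q : ℤ) a) :
    IsCoprime γ (a : GI) := by
  have h1 := P4.cop_int h
  push_cast at h1
  exact h1.of_isCoprime_of_dvd_left hγ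

theorem P4.cop_one_add {γ : GI} (h : IsCoprime γ (2 : GI)) : IsCoprime γ (⟨1, 1⟩ : GI) := by
  apply h.of_isCoprime_of_dvd_right
  refine ⟨⟨1, -1⟩, ?_⟩
  apply Zsqrtd.ext
  · rw [Zsqrtd.re_mul]; rfl
  · rw [Zsqrtd.im_mul]; rfl

theorem P4.cop_one_add_three : IsCoprime (⟨1, 1⟩ : GI) (3 : GI) := by
  refine ⟨⟨-1, 1⟩, 1, ?_⟩
  apply Zsqrtd.ext
  · rw [Zsqrtd.re_add, Zsqrtd.re_mul]; rfl
  · rw [Zsqrtd.im_add, Zsqrtd.im_mul]; rfl

theorem P4.N2_odd {γ : GI} {q : ℕ} (hγ : γ ∣ (q : GI)) (hq : q % 2 = 1) : N2 γ % 2 = 1 := by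
  obtain ⟨t, ht⟩ := hγ
  have h1 : N2 (q : GI) = (q : ℤ) ^ 2 := by
    unfold N2
    simp
  rw [ht, P4.N2_mul] at h1
  by_contra hcon
  have h2 : (2 : ℤ) ∣ (q : ℤ) ^ 2 := by
    rw [← h1]
    exact Dvd.dvd.mul_right (by omega) _
  have h3 : (2 : ℤ) ∣ (q : ℤ) := Int.prime_two.dvd_of_dvd_pow h2
  omega

/-- the bound for one ideal -/
theorem P4.one (h1 : StTh) {y : ℝ} (hy : 0 < y) (par m q : ℕ) (hq : q % 2 = 1)
    (hm3 : m ≠ 0 → ¬ 3 ∣ q) {γ : GI} (hγ0 : γ ≠ 0) (hγ : γ ∣ (q : GI)) :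
    P4.Bd y (fun h ↦ open Classical in G2 par h * G3 m h * (if γ ∣ h then (1 : ℝ) else 0))
      (cU par m / (y * (N2 γ : ℝ))) := by
  classical
  have hc2' : IsCoprime (q : ℤ) 2 := by
    have : Nat.Coprime q 2 := Nat.coprime_two_right.mpr (Nat.odd_iff.mpr hq)
    exact_mod_cast Nat.isCoprime_iff_coprime.mpr this
  have hc2 : IsCoprime γ (2 : GI) := by
    have := P4.cop_dvd hγ hc2'
    push_cast at this
    exact this
  have hc11 := P4.cop_one_add hc2
  have hc3 : m ≠ 0 → IsCoprime γ (3 : GI) := by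
    intro hm
    have h3 : Nat.Coprime q 3 := by
      rw [Nat.coprime_comm, Nat.Prime.coprime_iff_not_dvd Nat.prime_three]
      exact hm3 hm
    have h4 : IsCoprime (q : ℤ) 3 := by exact_mod_cast Nat.isCoprime_iff_coprime.mpr h3
    have := P4.cop_dvd hγ h4
    push_cast at this
    exact this
  have hodd := P4.N2_odd hγ hq
  have h11 : (⟨1, 1⟩ : GI) ≠ 0 := by
    intro h
    have := congrArg Zsqrtd.re h
    simp at this
  have h20 : (2 : GI) ≠ 0 := by
    intro h
    have := congrArg Zsqrtd.re h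
    have e : (2 : GI).re = 2 := rfl
    rw [e] at this
    simp at this
  have hN11 : N2 (⟨1, 1⟩ : GI) = 2 := by
    unfold N2
    norm_num
  have hN2 : N2 (2 : GI) = 4 := rfl
  have hNpos : (0 : ℝ) < (N2 γ : ℝ) := by
    have : (0 : ℤ) < N2 γ := by
      have h0 : 0 ≤ N2 γ := by unfold N2; positivity
      omega
    exact_mod_cast this
  have hnn : ∀ h : GI, 0 ≤ G2 par h * G3 m h * (if γ ∣ h then (1 : ℝ) else 0) := fun h ↦
    mul_nonneg (mul_nonneg (P4.G2_nonneg par h) (P4.G3_nonneg m h)) (by split_ifs <;> norm_num)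
  have hI : ∀ (c : Prop) [Decidable c], (0 : ℝ) ≤ if c then 1 else 0 := by
    intro c _
    split_ifs <;> norm_num
  by_cases hp4 : par = 4
  · have hA := (P4.G3_bd h1 hy m (mul_ne_zero hγ0 h11)
      (fun hm ↦ (hc3 hm).mul_left P4.cop_one_add_three)).smul 2 (by norm_num)
    rw [P4.N2_mul, hN11] at hA
    refine hA.mono hnn (fun h ↦ ?_) ?_
    · simp only [G2, if_pos hp4]
      have hg := P4.G3_nonneg m h
      by_cases a1 : N2 h % 2 = 0
      · by_cases a2 : γ ∣ h
        · have a3 : γ * ⟨1, 1⟩ ∣ h := hc11.mul_dvd a2 (P4.dvd_of_even a1)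
          rw [if_pos a1, if_pos a2, if_pos a3]
          linarith
        · rw [if_neg a2, mul_zero]
          exact mul_nonneg (by norm_num) (mul_nonneg hg (hI _))
      · rw [if_neg a1, zero_mul, zero_mul]
        exact mul_nonneg (by norm_num) (mul_nonneg hg (hI _))
    · apply le_of_eq
      unfold cU
      have : ¬ (par = 2 ∨ par = 3) := by omega
      rw [if_neg this]
      unfold P4.c3
      push_cast
      field_simp
  · by_cases hp23 : par = 2 ∨ par = 3
    · have hcc : m ≠ 0 → IsCoprime (γ * (2 * ⟨1, 1⟩)) (3 : GI) := by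
        intro hm
        refine (hc3 hm).mul_left (IsCoprime.mul_left ?_ P4.cop_one_add_three)
        have : IsCoprime (2 : ℤ) 3 := by norm_num
        have h5 := P4.cop_int this
        push_cast at h5
        exact h5
      have hA := (P4.G3_bd h1 hy m (mul_ne_zero hγ0 (mul_ne_zero h20 h11)) hcc).smul 4 (by norm_num)
      have hB := (P4.G3_bd_odd h1 hy m hγ0 hodd hc3).smul 2 (by norm_num)
      rw [P4.N2_mul, P4.N2_mul, hN11, hN2] at hA
      refine (hA.add hB).mono hnn (fun h ↦ ?_) ?_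
      · simp only [G2, if_neg hp4, if_pos hp23]
        have hg := P4.G3_nonneg m h
        by_cases a2 : γ ∣ h
        · by_cases a1 : N2 h % 2 = 1
          · rw [if_pos a1, if_pos a2, if_pos (⟨a2, a1⟩ : γ ∣ h ∧ N2 h % 2 = 1)]
            have := mul_nonneg hg (hI (γ * (2 * ⟨1, 1⟩) ∣ h))
            linarith
          · by_cases a3 : dv 2 h ∧ N2 h % 8 = 0
            · have a4 : (2 : GI) * ⟨1, 1⟩ ∣ h := by
                obtain ⟨a5, a6⟩ := a3
                rw [P4.dv_iff] at a5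
                obtain ⟨g, hg'⟩ := a5
                push_cast at hg'
                rw [hg']
                apply mul_dvd_mul_left
                apply P4.dvd_of_even
                rw [hg', P4.N2_mul, hN2] at a6
                omega
              have a5 : γ * (2 * ⟨1, 1⟩) ∣ h := (hc2.mul_right hc11).mul_dvd a2 a4
              rw [if_neg a1, if_pos a3, if_pos a2, if_pos a5, if_neg (fun hh ↦ a1 hh.2)]
              linarith
            · rw [if_neg a1, if_neg a3, zero_mul, zero_mul]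
              have e1 := mul_nonneg hg (hI (γ * (2 * ⟨1, 1⟩) ∣ h))
              have e2 := mul_nonneg hg (hI (γ ∣ h ∧ N2 h % 2 = 1))
              linarith
        · rw [if_neg a2, mul_zero]
          have e1 := mul_nonneg hg (hI (γ * (2 * ⟨1, 1⟩) ∣ h))
          have e2 := mul_nonneg hg (hI (γ ∣ h ∧ N2 h % 2 = 1))
          linarith
      · apply le_of_eq
        unfold cU
        rw [if_pos hp23]
        unfold P4.c3
        push_cast
        field_simp
        ring
    · have hA := P4.G3_bd h1 hy m hγ0 hc3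
      refine hA.mono hnn (fun h ↦ ?_) ?_
      · simp only [G2, if_neg hp4, if_neg hp23, one_mul]
        exact le_rfl
      · apply le_of_eq
        unfold cU
        rw [if_neg hp23]
        unfold P4.c3
        rw [one_mul]

/-! ### Chinese remainder theorem for the classes -/

section crt

variable {M q : ℕ} [NeZero M] [NeZero q] [NeZero (M * q)] (hMq : M.Coprime q)

theorem P4.char (a0 b0 : ℤ) (hab : a0 * q + b0 * M = 1) (t : ZMod (M * q)) :
    (ZMod.stdAddChar t : ℂ) =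
      ZMod.stdAddChar ((a0 : ZMod M) * (ZMod.chineseRemainder hMq t).1) *
      ZMod.stdAddChar ((b0 : ZMod q) * (ZMod.chineseRemainder hMq t).2) := by
  have ht : t = ((t.val : ℤ) : ZMod (M * q)) := by
    push_cast
    exact (ZMod.natCast_zmod_val t).symm
  set j : ℤ := (t.val : ℤ) with hj
  have h1 : (ZMod.chineseRemainder hMq t).1 = (j : ZMod M) := by
    rw [ht, map_intCast]
    exact Prod.fst_intCast j
  have h2 : (ZMod.chineseRemainder hMq t).2 = (j : ZMod q) := by
    rw [ht, map_intCast]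
    exact Prod.snd_intCast j
  rw [h1, h2, ht]
  have e1 : (a0 : ZMod M) * (j : ZMod M) = ((a0 * j : ℤ) : ZMod M) := by push_cast; rfl
  have e2 : (b0 : ZMod q) * (j : ZMod q) = ((b0 * j : ℤ) : ZMod q) := by push_cast; rfl
  rw [e1, e2, ZMod.stdAddChar_coe, ZMod.stdAddChar_coe, ZMod.stdAddChar_coe, ← Complex.exp_add]
  congr 1
  have hM : (M : ℂ) ≠ 0 := by exact_mod_cast NeZero.ne M
  have hq : (q : ℂ) ≠ 0 := by exact_mod_cast NeZero.ne q
  have hab' : (a0 : ℂ) * q + b0 * M = 1 := by exact_mod_cast hab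
  push_cast
  field_simp
  linear_combination (-(j : ℂ)) * hab'

theorem P4.crt (a0 b0 : ℤ) (hab : a0 * q + b0 * M = 1) (S : Finset (ZMod M × ZMod M))
    (R : Finset (ZMod q × ZMod q)) (u v : ℤ) :
    ∑ a : ZMod (M * q) × ZMod (M * q),
      (if ((ZMod.chineseRemainder hMq a.1).1, (ZMod.chineseRemainder hMq a.2).1) ∈ S ∧
        ((ZMod.chineseRemainder hMq a.1).2, (ZMod.chineseRemainder hMq a.2).2) ∈ R then (1 : ℂ) else 0) *
      ZMod.stdAddChar ((u : ZMod (M * q)) * a.1 + (v : ZMod (M * q)) * a.2) =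
    (∑ b ∈ S, (ZMod.stdAddChar (((a0 * u : ℤ) : ZMod M) * b.1 + ((a0 * v : ℤ) : ZMod M) * b.2) : ℂ)) *
    ∑ c ∈ R, (ZMod.stdAddChar (((b0 * u : ℤ) : ZMod q) * c.1 + ((b0 * v : ℤ) : ZMod q) * c.2) : ℂ) := by
  classical
  let e := ZMod.chineseRemainder hMq
  let E : (ZMod (M * q) × ZMod (M * q)) ≃ (ZMod M × ZMod M) × (ZMod q × ZMod q) :=
    { toFun := fun a ↦ (((e a.1).1, (e a.2).1), ((e a.1).2, (e a.2).2))
      invFun := fun z ↦ (e.symm (z.1.1, z.2.1), e.symm (z.1.2, z.2.2))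
      left_inv := by
        intro a
        simp
      right_inv := by
        intro z
        simp }
  have h1 : ∀ z : (ZMod M × ZMod M) × (ZMod q × ZMod q),
      (if z.1 ∈ S ∧ z.2 ∈ R then (1 : ℂ) else 0) *
        (ZMod.stdAddChar (((a0 * u : ℤ) : ZMod M) * z.1.1 + ((a0 * v : ℤ) : ZMod M) * z.1.2) *
        ZMod.stdAddChar (((b0 * u : ℤ) : ZMod q) * z.2.1 + ((b0 * v : ℤ) : ZMod q) * z.2.2)) =
      (if z.1 ∈ S then (ZMod.stdAddChar (((a0 * u : ℤ) : ZMod M) * z.1.1 +
        ((a0 * v : ℤ) : ZMod M) * z.1.2) : ℂ) else 0) *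
      (if z.2 ∈ R then (ZMod.stdAddChar (((b0 * u : ℤ) : ZMod q) * z.2.1 +
        ((b0 * v : ℤ) : ZMod q) * z.2.2) : ℂ) else 0) := by
    intro z
    by_cases a1 : z.1 ∈ S <;> by_cases a2 : z.2 ∈ R <;> simp [a1, a2]
  have h2 : ∑ a : ZMod (M * q) × ZMod (M * q),
      (if ((ZMod.chineseRemainder hMq a.1).1, (ZMod.chineseRemainder hMq a.2).1) ∈ S ∧
        ((ZMod.chineseRemainder hMq a.1).2, (ZMod.chineseRemainder hMq a.2).2) ∈ R then (1 : ℂ) else 0) *
      ZMod.stdAddChar ((u : ZMod (M * q)) * a.1 + (v : ZMod (M * q)) * a.2) =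
      ∑ z : (ZMod M × ZMod M) × (ZMod q × ZMod q),
      (if z.1 ∈ S ∧ z.2 ∈ R then (1 : ℂ) else 0) *
        (ZMod.stdAddChar (((a0 * u : ℤ) : ZMod M) * z.1.1 + ((a0 * v : ℤ) : ZMod M) * z.1.2) *
        ZMod.stdAddChar (((b0 * u : ℤ) : ZMod q) * z.2.1 + ((b0 * v : ℤ) : ZMod q) * z.2.2)) := by
    apply Fintype.sum_equiv E
    intro a
    have h3 := P4.char hMq a0 b0 hab ((u : ZMod (M * q)) * a.1 + (v : ZMod (M * q)) * a.2)
    have h4 : ZMod.chineseRemainder hMq ((u : ZMod (M * q)) * a.1 + (v : ZMod (M * q)) * a.2) =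
        ((u : ZMod M) * (e a.1).1 + (v : ZMod M) * (e a.2).1,
         (u : ZMod q) * (e a.1).2 + (v : ZMod q) * (e a.2).2) := by
      rw [map_add, map_mul, map_mul, map_intCast, map_intCast]
      ext
      · simp [e]
      · simp [e]
    rw [h3, h4]
    simp only [E, Equiv.coe_fn_mk]
    congr 2
    · congr 1
      push_cast
      ring
    · congr 1
      push_cast
      ring
  rw [h2, sum_congr rfl (fun z _ ↦ h1 z), Fintype.sum_prod_type]
  have hS : ∑ b ∈ S, (ZMod.stdAddChar (((a0 * u : ℤ) : ZMod M) * b.1 + ((a0 * v : ℤ) : ZMod M) * b.2) : ℂ) =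
      ∑ b : ZMod M × ZMod M, if b ∈ S then
        (ZMod.stdAddChar (((a0 * u : ℤ) : ZMod M) * b.1 + ((a0 * v : ℤ) : ZMod M) * b.2) : ℂ) else 0 := by
    rw [sum_ite_mem, univ_inter]
  have hR : ∑ b ∈ R, (ZMod.stdAddChar (((b0 * u : ℤ) : ZMod q) * b.1 + ((b0 * v : ℤ) : ZMod q) * b.2) : ℂ) =
      ∑ b : ZMod q × ZMod q, if b ∈ R then
        (ZMod.stdAddChar (((b0 * u : ℤ) : ZMod q) * b.1 + ((b0 * v : ℤ) : ZMod q) * b.2) : ℂ) else 0 := by
    rw [sum_ite_mem, univ_inter]
  rw [hS, hR, sum_mul_sum]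

end crt

theorem P4.dvdc {R : Type} [CommRing R] {k n m : R} (h : IsCoprime k n) : k ∣ n * m ↔ k ∣ m :=
  ⟨h.dvd_of_dvd_mul_left, fun h' ↦ Dvd.dvd.mul_left h' _⟩

theorem P4.dvd_val {p q : ℕ} [NeZero q] (hpq : p ∣ q) (n : ℤ) :
    p ∣ (n : ZMod q).val ↔ (p : ℤ) ∣ n := by
  have h1 : (((n : ZMod q).val : ℕ) : ℤ) = n % q := ZMod.val_intCast n
  have h2 : (p : ℤ) ∣ (q : ℤ) := by exact_mod_cast hpq
  rw [← Int.natCast_dvd_natCast, h1]
  rw [Int.dvd_iff_emod_eq_zero, Int.emod_emod_of_dvd _ h2, ← Int.dvd_iff_emod_eq_zero]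

theorem P4.card_sol (ν : ℤ) (p q : ℕ) [NeZero q] : (SolS ν p q).card = rhoN ν p q := by
  unfold SolS rhoN
  apply card_bij (fun (x : ZMod q × ZMod q) _ ↦ (x.1.val, x.2.val))
  · intro x hx
    simp only [mem_filter, mem_univ, true_and, mem_product, mem_range] at hx ⊢
    refine ⟨⟨ZMod.val_lt _, ZMod.val_lt _⟩, ?_, hx.2⟩
    rw [← ZMod.intCast_eq_intCast_iff_dvd_sub]
    push_cast
    rw [ZMod.natCast_zmod_val, ZMod.natCast_zmod_val]
    exact hx.1
  · intro x _ y _ h
    simp only [Prod.mk.injEq] at h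
    ext1
    · exact ZMod.val_injective q h.1
    · exact ZMod.val_injective q h.2
  · intro x hx
    simp only [mem_filter, mem_product, mem_range] at hx
    obtain ⟨⟨hx1, hx2⟩, hx3, hx4⟩ := hx
    refine ⟨((x.1 : ZMod q), (x.2 : ZMod q)), ?_, ?_⟩
    · simp only [mem_filter, mem_univ, true_and]
      rw [ZMod.val_natCast_of_lt hx1, ZMod.val_natCast_of_lt hx2]
      refine ⟨?_, hx4⟩
      rw [← ZMod.intCast_eq_intCast_iff_dvd_sub] at hx3
      push_cast at hx3
      exact hx3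
    · simp only
      rw [ZMod.val_natCast_of_lt hx1, ZMod.val_natCast_of_lt hx2]

theorem P4.MU_pos (par m : ℕ) : 0 < MU par m := by
  unfold MU
  split_ifs <;> norm_num

theorem P4.MU_coprime {par m q : ℕ} (hq : q % 2 = 1) (hm3 : m ≠ 0 → ¬ 3 ∣ q) :
    (MU par m).Coprime q := by
  have h2 : Nat.Coprime 2 q := Nat.coprime_two_left.mpr (Nat.odd_iff.mpr hq)
  have h4 : Nat.Coprime 4 q := by
    have := Nat.Coprime.pow_left 2 h2
    simpa using this
  unfold MU
  apply Nat.Coprime.mul_left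
  · split_ifs
    · exact Nat.coprime_one_left q
    · exact h2
    · exact h4
  · split_ifs with h
    · exact Nat.coprime_one_left q
    · rw [Nat.Prime.coprime_iff_not_dvd Nat.prime_three]
      exact hm3 h

/-- multiplication by a number prime to the modulus does not change the bounds -/
theorem P4.G23 {par m : ℕ} (a : ℤ) (hodd : par ≠ 0 → a % 2 = 1) (h3 : m ≠ 0 → ¬ (3 : ℤ) ∣ a)
    (h h' : GI) (e1 : h'.re = a * h.re) (e2 : h'.im = a * h.im) :
    G2 par h' = G2 par h ∧ G3 m h' = G3 m h := by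
  have hN : N2 h' = a ^ 2 * N2 h := by
    unfold N2
    rw [e1, e2]
    ring
  constructor
  · by_cases hp : par = 0
    · subst hp
      simp [G2]
    · have ha := hodd hp
      obtain ⟨t, ht⟩ : ∃ t : ℤ, a ^ 2 = 8 * t + 1 := by
        have h1 : a % 8 = 1 ∨ a % 8 = 3 ∨ a % 8 = 5 ∨ a % 8 = 7 := by omega
        have h2 : a ^ 2 % 8 = 1 := by
          rw [sq, Int.mul_emod]
          rcases h1 with h | h | h | h <;> rw [h] <;> norm_num
        exact ⟨a ^ 2 / 8, by omega⟩
      have hN8 : N2 h' = 8 * (t * N2 h) + N2 h := by rw [hN, ht]; ring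
      have c1 : N2 h' % 2 = N2 h % 2 := by omega
      have c2 : N2 h' % 8 = N2 h % 8 := by omega
      have c3 : dv 2 h' ↔ dv 2 h := by
        unfold dv
        rw [e1, e2]
        have hcop : IsCoprime (2 : ℤ) a := by
          rw [Int.isCoprime_iff_gcd_eq_one]
          have : Odd a := Int.odd_iff.mpr ha
          exact_mod_cast Int.isCoprime_iff_gcd_eq_one.mp (by
            obtain ⟨k, hk⟩ := this
            exact ⟨-k, 1, by rw [hk]; ring⟩)
        exact and_congr (P4.dvdc hcop) (P4.dvdc hcop)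
      unfold G2
      simp only [c1, c2, c3]
  · by_cases hm : m = 0
    · subst hm
      simp [G3]
    · have ha := h3 hm
      have c3 : dv 3 h' ↔ dv 3 h := by
        unfold dv
        rw [e1, e2]
        have hcop : IsCoprime (3 : ℤ) a := by
          have hp3 : Prime (3 : ℤ) := Int.prime_three
          exact (Prime.coprime_iff_not_dvd hp3).mpr ha
        exact and_congr (P4.dvdc hcop) (P4.dvdc hcop)
      unfold G3
      simp only [c3]

theorem P4.cU_nonneg (par m : ℕ) : 0 ≤ cU par m := by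
  unfold cU
  split_ifs <;> norm_num

set_option maxHeartbeats 4000000 in
theorem stPoi (h1 : StTh) (h2 : StPS) (h3 : StUd) (_h9 : StCRT) : StPoi := by
  intro par m p q _ _ ν B hpar hm hq hpq hm3 hDom z hz
  classical
  have hM0 := P4.MU_pos par m
  have hMq := P4.MU_coprime (par := par) hq hm3
  set M := MU par m with hMdef
  have : NeZero M := ⟨hM0.ne'⟩
  have hq0 : 0 < q := by omega
  have : NeZero (M * q) := ⟨(Nat.mul_pos hM0 hq0).ne'⟩
  obtain ⟨_, S, hS1, hS2, hS3⟩ := h3 par m hpar hm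
  obtain ⟨a0, b0, hab⟩ : ∃ a0 b0 : ℤ, a0 * q + b0 * M = 1 := by
    exact Nat.isCoprime_iff_coprime.mpr hMq.symm
  obtain ⟨k, γ, c, hγ, hT, hB⟩ := hDom
  set w : ZMod (M * q) × ZMod (M * q) → ℂ := fun a ↦
    if ((ZMod.chineseRemainder hMq a.1).1, (ZMod.chineseRemainder hMq a.2).1) ∈ S ∧
        ((ZMod.chineseRemainder hMq a.1).2, (ZMod.chineseRemainder hMq a.2).2) ∈ SolS ν p q
      then (1 : ℂ) else 0 with hw
  obtain ⟨hP1, hP2, hP3⟩ := h2 (M * q) w z hz
  -- the indicator function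
  have hmem : ∀ x : GI, w ((x.re : ZMod (M * q)), (x.im : ZMod (M * q))) =
      if x ∈ WU par m ν p q then 1 else 0 := by
    intro x
    simp only [hw]
    have e1 : ∀ n : ℤ, (ZMod.chineseRemainder hMq (n : ZMod (M * q))).1 = (n : ZMod M) := by
      intro n
      rw [map_intCast]
      exact Prod.fst_intCast n
    have e2 : ∀ n : ℤ, (ZMod.chineseRemainder hMq (n : ZMod (M * q))).2 = (n : ZMod q) := by
      intro n
      rw [map_intCast]
      exact Prod.snd_intCast n
    rw [e1, e1, e2, e2]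
    have h4 : (((x.re : ZMod q), (x.im : ZMod q)) ∈ SolS ν p q) ↔
        ((q : ℤ) ∣ ν - N2 x ∧ ¬ dv p x) := by
      unfold SolS dv
      simp only [mem_filter, mem_univ, true_and]
      rw [P4.dvd_val hpq, P4.dvd_val hpq]
      have h5 : ((x.re : ZMod q) ^ 2 + (x.im : ZMod q) ^ 2 = (ν : ZMod q)) ↔ (q : ℤ) ∣ ν - N2 x := by
        rw [← ZMod.intCast_eq_intCast_iff_dvd_sub]
        unfold N2
        push_cast
        rfl
      rw [h5]
    have h6 : ((((x.re : ZMod M), (x.im : ZMod M)) ∈ S) ∧ (((x.re : ZMod q), (x.im : ZMod q)) ∈ SolS ν p q)) ↔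
        x ∈ WU par m ν p q := by
      rw [hS1 x, h4]
      unfold WU
      simp only [Set.mem_ofPred_eq]
      tauto
    simp only [h6]
  -- Fourier transform
  set FS : GI → ℂ := fun h ↦ ∑ b ∈ S, (ZMod.stdAddChar (((a0 * h.re : ℤ) : ZMod M) * b.1 +
    ((a0 * h.im : ℤ) : ZMod M) * b.2) : ℂ) with hFS
  have hre : ∀ (b : ℤ) (h : GI), ((b : GI) * h).re = b * h.re := by
    intro b h
    simp
  have him : ∀ (b : ℤ) (h : GI), ((b : GI) * h).im = b * h.im := by
    intro b h
    simp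
  have hFT : ∀ h : GI, ∑ a : ZMod (M * q) × ZMod (M * q), w a *
      ZMod.stdAddChar ((h.re : ZMod (M * q)) * a.1 + (h.im : ZMod (M * q)) * a.2) =
      FS h * TS ν p q ((b0 : GI) * h) := by
    intro h
    have h4 := P4.crt hMq a0 b0 hab S (SolS ν p q) h.re h.im
    simp only [hw]
    rw [h4]
    unfold TS
    rw [hre, him]
  have hFSb : ∀ h : GI, ‖FS h‖ ≤ G2 par h * G3 m h := by
    intro h
    have h4 := hS3 ((a0 : GI) * h)
    have hodd : par ≠ 0 → a0 % 2 = 1 := by
      intro hp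
      have h5 : (2 : ℤ) ∣ (M : ℤ) := by
        rw [hMdef]
        unfold MU
        rw [if_neg hp]
        split_ifs <;> norm_num
      obtain ⟨t, ht⟩ := h5
      rw [ht] at hab
      by_contra hcon
      obtain ⟨u, hu⟩ : ∃ u, a0 = 2 * u := ⟨a0 / 2, by omega⟩
      rw [hu] at hab
      have h6 : 2 * (u * q + b0 * t) = 1 := by linear_combination hab
      omega
    have h3' : m ≠ 0 → ¬ (3 : ℤ) ∣ a0 := by
      intro hm0 ⟨u, hu⟩
      have h5 : (3 : ℤ) ∣ (M : ℤ) := by
        rw [hMdef]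
        unfold MU
        rw [if_neg hm0]
        push_cast
        exact dvd_mul_left _ _
      obtain ⟨t, ht⟩ := h5
      rw [ht, hu] at hab
      have h6 : 3 * (u * q + b0 * t) = 1 := by linear_combination hab
      omega
    obtain ⟨g1, g2⟩ := P4.G23 (par := par) (m := m) a0 hodd h3' h ((a0 : GI) * h) (hre _ _) (him _ _)
    rw [g1, g2, hre, him] at h4
    exact h4
  have hcopb : ∀ i, IsCoprime (γ i) (b0 : GI) := by
    intro i
    apply P4.cop_dvd (hγ i).2.2
    exact ⟨a0, M, by linear_combination hab⟩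
  have hTSb : ∀ h : GI, ‖TS ν p q ((b0 : GI) * h)‖ ≤ ∑ i, c i * (if γ i ∣ h then (1 : ℝ) else 0) := by
    intro h
    refine le_trans (hT _) (le_of_eq ?_)
    refine sum_congr rfl (fun i _ ↦ ?_)
    have h5 : γ i ∣ (b0 : GI) * h ↔ γ i ∣ h := P4.dvdc (hcopb i)
    simp only [h5]
    split_ifs <;> simp
  -- the weighted sum
  set Q2 : ℝ := ((M * q : ℕ) : ℝ) ^ 2 with hQ2
  have hQpos : 0 < Q2 := by
    have : (0 : ℝ) < ((M * q : ℕ) : ℝ) := by exact_mod_cast Nat.mul_pos hM0 hq0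
    positivity
  have hz0 : z ≠ 0 := by
    rintro rfl
    simp at hz
  have hns : 0 < Complex.normSq z := Complex.normSq_pos.mpr hz0
  set y : ℝ := z.re / Complex.normSq z / Q2 with hy
  have hypos : 0 < y := by positivity
  have hBd : P4.Bd y (fun h ↦ ∑ i, c i * (G2 par h * G3 m h * (if γ i ∣ h then (1 : ℝ) else 0)))
      (∑ i, c i * (cU par m / (y * (N2 (γ i) : ℝ)))) :=
    P4.Bd.sum univ (fun i _ ↦ (P4.one h1 hypos par m q hq hm3 (hγ i).1 (hγ i).2.2).smul (c i) (hγ i).2.1)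
  have hK : ∑ i, c i * (cU par m / (y * (N2 (γ i) : ℝ))) ≤ cU par m * B / y := by
    have e : ∑ i, c i * (cU par m / (y * (N2 (γ i) : ℝ))) = cU par m / y * ∑ i, c i / (N2 (γ i) : ℝ) := by
      rw [mul_sum]
      refine sum_congr rfl (fun i _ ↦ ?_)
      rw [div_mul_eq_div_div]
      ring
    rw [e]
    have e2 : cU par m * B / y = cU par m / y * B := by ring
    rw [e2]
    exact mul_le_mul_of_nonneg_left hB (div_nonneg (P4.cU_nonneg par m) hypos.le)
  -- the summand of the dual sum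
  set f : GI → ℂ := fun h ↦ (∑ a : ZMod (M * q) × ZMod (M * q), w a *
      ZMod.stdAddChar ((h.re : ZMod (M * q)) * a.1 + (h.im : ZMod (M * q)) * a.2)) *
    Complex.exp (-(Real.pi * (N2 h : ℂ) / (z * ((M * q : ℕ) : ℂ) ^ 2))) with hf
  have hnexp : ∀ h : GI, ‖Complex.exp (-(Real.pi * (N2 h : ℂ) / (z * ((M * q : ℕ) : ℂ) ^ 2)))‖ =
      Real.exp (-(Real.pi * y * (N2 h : ℝ))) := by
    intro h
    rw [Complex.norm_exp]
    congr 1
    have e : (-(Real.pi * (N2 h : ℂ) / (z * ((M * q : ℕ) : ℂ) ^ 2))) =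
        ((-(Real.pi * (N2 h : ℝ) / Q2) : ℝ) : ℂ) * z⁻¹ := by
      rw [hQ2]
      push_cast
      have hMC : (M : ℂ) ≠ 0 := by exact_mod_cast hM0.ne'
      have hqC : (q : ℂ) ≠ 0 := by exact_mod_cast hq0.ne'
      field_simp
    rw [e, Complex.re_ofReal_mul, Complex.inv_re, hy]
    field_simp
  have hbound : ∀ h : GI, ‖(if h = 0 then 0 else f h : ℂ)‖ ≤
      (∑ i, c i * (G2 par h * G3 m h * (if γ i ∣ h then (1 : ℝ) else 0))) * P4.Eg y h := by
    intro h
    by_cases h0 : h = 0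
    · rw [if_pos h0, norm_zero]
      exact mul_nonneg (hBd.1 h) (P4.Eg_nonneg y h)
    · rw [if_neg h0]
      simp only [hf]
      rw [norm_mul, hnexp, hFT, norm_mul]
      have e1 : P4.Eg y h = Real.exp (-(Real.pi * y * (N2 h : ℝ))) := by
        unfold P4.Eg
        rw [if_pos h0]
      rw [e1]
      apply mul_le_mul_of_nonneg_right _ (Real.exp_pos _).le
      calc ‖FS h‖ * ‖TS ν p q ((b0 : GI) * h)‖
          ≤ (G2 par h * G3 m h) * ∑ i, c i * (if γ i ∣ h then (1 : ℝ) else 0) :=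
            mul_le_mul (hFSb h) (hTSb h) (norm_nonneg _)
              (mul_nonneg (P4.G2_nonneg par h) (P4.G3_nonneg m h))
        _ = _ := by
            rw [mul_sum]
            refine sum_congr rfl (fun i _ ↦ ?_)
            ring
  have hrest : ‖∑' h : GI, (if h = 0 then 0 else f h : ℂ)‖ ≤ cU par m * B / y := by
    refine le_trans (tsum_of_norm_bounded hBd.2.1.hasSum hbound) ?_
    exact le_trans hBd.2.2 hK
  -- the value at zero
  have hf0 : f 0 = ((densU par m * (M : ℝ) ^ 2 * rhoN ν p q : ℝ) : ℂ) := by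
    simp only [hf]
    have e1 := hFT 0
    rw [e1]
    have e2 : N2 (0 : GI) = 0 := by simp [N2]
    rw [e2]
    have e3 : FS 0 = ((S.card : ℝ) : ℂ) := by
      simp only [hFS]
      simp
    have e4 : TS ν p q ((b0 : GI) * 0) = (rhoN ν p q : ℂ) := by
      unfold TS
      rw [mul_zero, ← P4.card_sol]
      simp
    rw [e3, e4, hS2]
    push_cast
    simp [hMdef]
  -- the sum over the set
  have hsumW : Summable (fun x : WU par m ν p q ↦ Complex.exp (-(Real.pi * z * (N2 x : ℂ)))) := by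
    have h4 := summable_subtype_iff_indicator (s := WU par m ν p q)
      (f := fun x : GI ↦ Complex.exp (-(Real.pi * z * (N2 x : ℂ))))
    have h5 : Summable ((WU par m ν p q).indicator
        (fun x : GI ↦ Complex.exp (-(Real.pi * z * (N2 x : ℂ))))) := by
      refine hP1.congr (fun x ↦ ?_)
      rw [hmem, Set.indicator_apply]
      split_ifs <;> simp
    exact h4.mpr h5
  refine ⟨hsumW, ?_⟩
  have hW : ∑' x : WU par m ν p q, Complex.exp (-(Real.pi * z * (N2 x : ℂ))) =
      (1 / (z * ((M * q : ℕ) : ℂ) ^ 2)) * ∑' h : GI, f h := by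
    rw [← hP3, tsum_subtype (WU par m ν p q) (fun x : GI ↦ Complex.exp (-(Real.pi * z * (N2 x : ℂ))))]
    congr 1
    funext x
    rw [hmem, Set.indicator_apply]
    split_ifs <;> simp
  rw [hW, hP2.tsum_eq_add_tsum_ite 0, mul_add, hf0]
  have e5 : (1 / (z * ((M * q : ℕ) : ℂ) ^ 2)) * ((densU par m * (M : ℝ) ^ 2 * rhoN ν p q : ℝ) : ℂ) =
      ((densU par m * rhoN ν p q / (q : ℝ) ^ 2 : ℝ) : ℂ) / z := by
    have hMC : (M : ℂ) ≠ 0 := by exact_mod_cast hM0.ne'
    have hqC : (q : ℂ) ≠ 0 := by exact_mod_cast hq0.ne'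
    push_cast
    field_simp
  rw [e5, add_sub_cancel_left, norm_mul]
  have e6 : ‖(1 / (z * ((M * q : ℕ) : ℂ) ^ 2))‖ = 1 / (‖z‖ * Q2) := by
    rw [norm_div, norm_one, norm_mul, norm_pow, Complex.norm_natCast]
  rw [e6]
  have hnz : 0 < ‖z‖ := norm_pos_iff.mpr hz0
  calc 1 / (‖z‖ * Q2) * ‖∑' h : GI, (if h = 0 then 0 else f h : ℂ)‖
      ≤ 1 / (‖z‖ * Q2) * (cU par m * B / y) := mul_le_mul_of_nonneg_left hrest (by positivity)
    _ = cU par m * B * (‖z‖ / z.re) := by
        rw [hy, Complex.normSq_eq_norm_sq]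
        field_simp

end Pool.Agent.TFS
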