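import Pool.Agent.Lib.TFS.StmtsS

/-!
S1: the exponential sum over the circle modulo a prime in terms of Kloosterman sums.
-/

set_option autoImplicit false

open Finset

namespace Pool.Agent.TFS

open Pool.Agent.Lib.MP_0e0027_nt

theorem sum_field_split {l : ℕ} [Fact l.Prime] (f : ZMod l → ℂ) :
    ∑ t : ZMod l, f t = f 0 + ∑ a : (ZMod l)ˣ, f (a : ZMod l) := by
  rw [← add_sum_erase univ f (mem_univ 0)]
  congr 1
  symm
  apply sum_bij (fun (a : (ZMod l)ˣ) _ ↦ (a : ZMod l))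
  · intro a _
    rw [mem_erase]
    exact ⟨a.ne_zero, mem_univ _⟩
  · intro a _ b _ h
    exact Units.ext h
  · intro x hx
    rw [mem_erase] at hx
    exact ⟨Units.mk0 x hx.1, mem_univ _, rfl⟩
  · intro a _
    rfl

theorem stT1 : StT1 := by
  intro l hl l2 ν h
  have hl0 : (l : ℂ) ≠ 0 := by exact_mod_cast hl.out.ne_zero
  have hodd : Odd l := hl.out.odd_of_ne_two l2
  have h4 : (4 : ZMod l) ≠ 0 := (isUnit_four (q := l) hodd).ne_zero
  have h44 : (4 : ZMod l) * 4⁻¹ = 1 := mul_inv_cancel₀ h4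
  -- the double sum
  have h1 : (l : ℂ) * TF ν l h = ∑ t : ZMod l, (ZMod.stdAddChar (-(t * (ν : ZMod l))) : ℂ) *
      ((∑ x : ZMod l, (ZMod.stdAddChar (t * x ^ 2 + (h.re : ZMod l) * x) : ℂ)) *
        ∑ y : ZMod l, (ZMod.stdAddChar (t * y ^ 2 + (h.im : ZMod l) * y) : ℂ)) := by
    unfold TF SolF
    rw [sum_filter, mul_sum]
    have h2 : ∀ x : ZMod l × ZMod l,
        (l : ℂ) * (if x.1 ^ 2 + x.2 ^ 2 = (ν : ZMod l) then
          (ZMod.stdAddChar ((h.re : ZMod l) * x.1 + (h.im : ZMod l) * x.2) : ℂ) else 0) =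
        ∑ t : ZMod l, (ZMod.stdAddChar (t * (x.1 ^ 2 + x.2 ^ 2 - (ν : ZMod l))) : ℂ) *
          ZMod.stdAddChar ((h.re : ZMod l) * x.1 + (h.im : ZMod l) * x.2) := by
      intro x
      rw [← sum_mul, sum_psi]
      by_cases hx : x.1 ^ 2 + x.2 ^ 2 = (ν : ZMod l)
      · rw [if_pos hx, if_pos (sub_eq_zero.mpr hx)]
      · rw [if_neg hx, if_neg (fun h ↦ hx (sub_eq_zero.mp h)), mul_zero, zero_mul]
    rw [sum_congr rfl (fun x _ ↦ h2 x), sum_comm]
    refine sum_congr rfl (fun t _ ↦ ?_)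
    rw [sum_mul_sum, Fintype.sum_prod_type, mul_sum]
    refine sum_congr rfl (fun x _ ↦ ?_)
    rw [mul_sum]
    refine sum_congr rfl (fun y _ ↦ ?_)
    rw [← AddChar.map_add_eq_mul, ← AddChar.map_add_eq_mul, ← AddChar.map_add_eq_mul]
    congr 1
    ring
  have h3 : ∀ k : ℤ, ∑ x : ZMod l, (ZMod.stdAddChar ((0 : ZMod l) * x ^ 2 + (k : ZMod l) * x) : ℂ) =
      if (l : ℤ) ∣ k then (l : ℂ) else 0 := by
    intro k
    have h5 : ∑ x : ZMod l, (ZMod.stdAddChar ((0 : ZMod l) * x ^ 2 + (k : ZMod l) * x) : ℂ) =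
        ∑ x : ZMod l, (ZMod.stdAddChar (x * (k : ZMod l)) : ℂ) := by
      refine sum_congr rfl (fun x _ ↦ ?_)
      congr 1
      ring
    rw [h5, sum_psi]
    have h6 : ((k : ZMod l) = 0) ↔ (l : ℤ) ∣ k := ZMod.intCast_zmod_eq_zero_iff_dvd k l
    by_cases h7 : (l : ℤ) ∣ k
    · rw [if_pos (h6.mpr h7), if_pos h7]
    · rw [if_neg (fun h ↦ h7 (h6.mp h)), if_neg h7]
  have h5 : (l : ℂ) * TF ν l h = (l : ℂ) * (if dv l h then (l : ℂ) else 0) +
      (l : ℂ) * ((ch l : ℂ) * Kl (ν : ZMod l) ((N2 h : ZMod l) * (4 : ZMod l)⁻¹)) := by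
    rw [h1, sum_field_split]
    congr 1
    · rw [h3, h3, zero_mul, neg_zero, AddChar.map_zero_eq_one, one_mul]
      unfold dv
      by_cases h6 : (l : ℤ) ∣ h.re <;> by_cases h7 : (l : ℤ) ∣ h.im <;> simp [h6, h7]
    · unfold Kl
      rw [mul_sum, mul_sum]
      apply Fintype.sum_equiv (Equiv.neg (ZMod l)ˣ)
      intro a
      have ha : (a : ZMod l) * ((a⁻¹ : (ZMod l)ˣ) : ZMod l) = 1 := a.mul_inv
      have hi : 4 * (a : ZMod l) * ((4 : ZMod l)⁻¹ * ((a⁻¹ : (ZMod l)ˣ) : ZMod l)) = 1 := by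
        linear_combination ((a : ZMod l) * ((a⁻¹ : (ZMod l)ˣ) : ZMod l)) * h44 + ha
      rw [Gs_lin _ _ _ hi, Gs_lin _ _ _ hi]
      have hG := Gs_sq (q := l) hodd (a : ZMod l) a.isUnit
      have hch : (ch l : ℂ) = ((ZMod.χ₄ (l : ZMod 4) : ℤ) : ℂ) := by
        unfold ch
        push_cast
        rfl
      rw [hch]
      have h8 : ∀ (A B C g : ℂ), A * (B * g * (C * g)) = (A * B * C) * g ^ 2 := by
        intro A B C g; ring
      rw [h8, hG, ← AddChar.map_add_eq_mul, ← AddChar.map_add_eq_mul]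
      have h9 : (-(((a : ZMod l)) * (ν : ZMod l)) +
          -((4 : ZMod l)⁻¹ * ((a⁻¹ : (ZMod l)ˣ) : ZMod l) * (h.re : ZMod l) ^ 2) +
          -((4 : ZMod l)⁻¹ * ((a⁻¹ : (ZMod l)ˣ) : ZMod l) * (h.im : ZMod l) ^ 2)) =
          (ν : ZMod l) * (((Equiv.neg (ZMod l)ˣ) a : (ZMod l)ˣ) : ZMod l) +
            (N2 h : ZMod l) * (4 : ZMod l)⁻¹ *
              (((((Equiv.neg (ZMod l)ˣ) a)⁻¹ : (ZMod l)ˣ)) : ZMod l) := by
        simp only [Equiv.neg_apply, Units.val_neg, inv_neg, N2]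
        push_cast
        ring
      rw [h9]
      ring
  rw [← mul_add] at h5
  exact mul_left_cancel₀ hl0 h5

end Pool.Agent.TFS
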