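import Pool.Agent.Lib.TFS.StmtsS

/-! S10: global domination by multiplicativity. -/

set_option autoImplicit false

open Finset

namespace Pool.Agent.TFS

namespace S10

theorem N2_mul (x y : GI) : N2 (x * y) = N2 x * N2 y := by
  simp only [N2, Zsqrtd.re_mul, Zsqrtd.im_mul]
  ring

theorem N2_nonneg (x : GI) : 0 ≤ N2 x := by
  unfold N2
  positivity

theorem cop_cast {a b : ℤ} (h : IsCoprime a b) : IsCoprime (a : GI) (b : GI) := by
  obtain ⟨u, v, e⟩ := h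
  refine ⟨(u : GI), (v : GI), ?_⟩
  have := congrArg (fun z : ℤ ↦ (z : GI)) e
  push_cast at this
  exact this

theorem dom_mul {T₁ T₂ : GI → ℝ} {q₁ q₂ : ℕ} {B₁ B₂ : ℝ} (hT₁ : ∀ h, 0 ≤ T₁ h)
    (hT₂ : ∀ h, 0 ≤ T₂ h) (hq : q₁.Coprime q₂) {u₁ u₂ : ℤ} (hu₁ : IsCoprime u₁ q₁)
    (hu₂ : IsCoprime u₂ q₂) (h₁ : Dom T₁ q₁ B₁) (h₂ : Dom T₂ q₂ B₂) :
    Dom (fun h ↦ T₁ ((u₁ : GI) * h) * T₂ ((u₂ : GI) * h)) (q₁ * q₂) (B₁ * B₂) := by
  classical
  obtain ⟨k₁, γ₁, c₁, a₁, b₁, s₁⟩ := h₁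
  obtain ⟨k₂, γ₂, c₂, a₂, b₂, s₂⟩ := h₂
  have hqi : IsCoprime ((q₁ : ℤ) : GI) ((q₂ : ℤ) : GI) :=
    cop_cast (Nat.isCoprime_iff_coprime.2 hq)
  have e₁ : (((q₁ : ℤ)) : GI) = (q₁ : GI) := by push_cast; rfl
  have e₂ : (((q₂ : ℤ)) : GI) = (q₂ : GI) := by push_cast; rfl
  have key : ∀ i j (h : GI), γ₁ i ∣ (u₁ : GI) * h → γ₂ j ∣ (u₂ : GI) * h → γ₁ i * γ₂ j ∣ h := by
    intro i j h d₁ d₂
    have c1 : IsCoprime (γ₁ i) (u₁ : GI) := by
      have := cop_cast hu₁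
      rw [e₁] at this
      exact (this.of_isCoprime_of_dvd_right (a₁ i).2.2).symm
    have c2 : IsCoprime (γ₂ j) (u₂ : GI) := by
      have := cop_cast hu₂
      rw [e₂] at this
      exact (this.of_isCoprime_of_dvd_right (a₂ j).2.2).symm
    have g1 := c1.dvd_of_dvd_mul_left d₁
    have g2 := c2.dvd_of_dvd_mul_left d₂
    have c3 : IsCoprime (γ₁ i) (γ₂ j) := by
      rw [e₁, e₂] at hqi
      exact (hqi.of_isCoprime_of_dvd_left (a₁ i).2.2).of_isCoprime_of_dvd_right (a₂ j).2.2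
    exact c3.mul_dvd g1 g2
  refine ⟨k₁ * k₂, fun s ↦ γ₁ (finProdFinEquiv.symm s).1 * γ₂ (finProdFinEquiv.symm s).2,
    fun s ↦ c₁ (finProdFinEquiv.symm s).1 * c₂ (finProdFinEquiv.symm s).2, ?_, ?_, ?_⟩
  · intro s
    refine ⟨mul_ne_zero (a₁ _).1 (a₂ _).1, mul_nonneg (a₁ _).2.1 (a₂ _).2.1, ?_⟩
    push_cast
    exact mul_dvd_mul (a₁ _).2.2 (a₂ _).2.2
  · intro h
    have hs : ∀ F : Fin k₁ × Fin k₂ → ℝ, ∑ s : Fin (k₁ * k₂), F (finProdFinEquiv.symm s) =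
        ∑ x : Fin k₁ × Fin k₂, F x := fun F ↦ Equiv.sum_comp finProdFinEquiv.symm F
    have hs' := hs (fun x ↦ if γ₁ x.1 * γ₂ x.2 ∣ h then c₁ x.1 * c₂ x.2 else 0)
    show T₁ ((u₁ : GI) * h) * T₂ ((u₂ : GI) * h) ≤ _
    refine le_trans (mul_le_mul (b₁ _) (b₂ _) (hT₂ _) ?_) ?_
    · exact Finset.sum_nonneg fun i _ ↦ by split_ifs <;> [exact (a₁ i).2.1; exact le_rfl]
    · rw [Finset.sum_mul_sum, ← Finset.sum_product', Finset.univ_product_univ]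
      refine le_trans (b := ∑ x : Fin k₁ × Fin k₂,
        if γ₁ x.1 * γ₂ x.2 ∣ h then c₁ x.1 * c₂ x.2 else 0) ?_ (le_of_eq ?_)
      · refine Finset.sum_le_sum fun x _ ↦ ?_
        by_cases d₁ : γ₁ x.1 ∣ (u₁ : GI) * h
        · by_cases d₂ : γ₂ x.2 ∣ (u₂ : GI) * h
          · rw [if_pos d₁, if_pos d₂, if_pos (key _ _ _ d₁ d₂)]
          · rw [if_neg d₂, mul_zero]
            split_ifs
            · exact mul_nonneg (a₁ _).2.1 (a₂ _).2.1
            · exact le_rfl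
        · rw [if_neg d₁, zero_mul]
          split_ifs
          · exact mul_nonneg (a₁ _).2.1 (a₂ _).2.1
          · exact le_rfl
      · rw [← hs']
  · have hs : ∀ F : Fin k₁ × Fin k₂ → ℝ, ∑ s : Fin (k₁ * k₂), F (finProdFinEquiv.symm s) =
        ∑ x : Fin k₁ × Fin k₂, F x := fun F ↦ Equiv.sum_comp finProdFinEquiv.symm F
    have hs' := hs (fun x ↦ c₁ x.1 * c₂ x.2 / (N2 (γ₁ x.1 * γ₂ x.2) : ℝ))
    refine le_trans (le_of_eq hs') ?_
    have e3 : ∑ x : Fin k₁ × Fin k₂, c₁ x.1 * c₂ x.2 / (N2 (γ₁ x.1 * γ₂ x.2) : ℝ) =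
        (∑ i, c₁ i / (N2 (γ₁ i) : ℝ)) * ∑ j, c₂ j / (N2 (γ₂ j) : ℝ) := by
      rw [Finset.sum_mul_sum, ← Finset.sum_product', Finset.univ_product_univ]
      refine Finset.sum_congr rfl fun x _ ↦ ?_
      rw [N2_mul]
      push_cast
      rw [mul_div_mul_comm]
    rw [e3]
    have n1 : 0 ≤ ∑ i, c₁ i / (N2 (γ₁ i) : ℝ) := Finset.sum_nonneg fun i _ ↦
      div_nonneg (a₁ i).2.1 (by exact_mod_cast N2_nonneg _)
    have n2 : 0 ≤ ∑ i, c₂ i / (N2 (γ₂ i) : ℝ) := Finset.sum_nonneg fun i _ ↦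
      div_nonneg (a₂ i).2.1 (by exact_mod_cast N2_nonneg _)
    exact mul_le_mul s₁ s₂ n2 (n1.trans s₁)

theorem dom_mono {T : GI → ℝ} {q : ℕ} {B B' : ℝ} (h : Dom T q B) (hB : B ≤ B') : Dom T q B' := by
  obtain ⟨k, γ, c, a, b, s⟩ := h
  exact ⟨k, γ, c, a, b, s.trans hB⟩

theorem dom_congr {T T' : GI → ℝ} {q : ℕ} {B : ℝ} (h : Dom T q B) (hT : ∀ x, T' x = T x) :
    Dom T' q B := by
  obtain ⟨k, γ, c, a, b, s⟩ := h
  exact ⟨k, γ, c, a, fun x ↦ (hT x).le.trans (b x), s⟩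

theorem one_le_hl (l : ℕ) : 1 ≤ hl l := by
  unfold hl
  have : 0 ≤ 1 / (2 * ((l : ℝ) * √(l : ℝ))) := by positivity
  linarith

theorem sqrt_pow' (l k : ℕ) : √(((l ^ k : ℕ) : ℝ)) = √(l : ℝ) ^ k := by
  have h : (√(l : ℝ) ^ k) ^ 2 = ((l ^ k : ℕ) : ℝ) := by
    rw [← pow_mul, mul_comm k 2, pow_mul, Real.sq_sqrt (Nat.cast_nonneg l)]
    push_cast
    rfl
  rw [← h, Real.sqrt_sq (by positivity)]

theorem hh_mul {a b : ℕ} (h : a.Coprime b) : hh (a * b) = hh a * hh b := by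
  unfold hh
  rw [h.primeFactors_mul, Finset.prod_union h.disjoint_primeFactors]

theorem tau_mul {a b : ℕ} (h : a.Coprime b) : tau (a * b) = tau a * tau b := by
  unfold tau
  exact h.card_divisors_mul

theorem hh_one : hh 1 = 1 := by simp [hh]

theorem tau_one : tau 1 = 1 := by simp [tau]

theorem hh_pow {l k : ℕ} (hl' : l.Prime) (hk : k ≠ 0) : hh (l ^ k) = hl l := by
  unfold hh
  rw [Nat.primeFactors_prime_pow hk hl', Finset.prod_singleton]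

theorem tau_pow {l k : ℕ} (hl' : l.Prime) : tau (l ^ k) = k + 1 := by
  unfold tau
  rw [Nat.divisors_prime_pow hl', Finset.card_map, Finset.card_range]

theorem one_le_hh (d : ℕ) : 1 ≤ hh d := by
  unfold hh
  have h : ∏ l ∈ d.primeFactors, (1 : ℝ) ≤ ∏ l ∈ d.primeFactors, hl l :=
    Finset.prod_le_prod (fun _ _ ↦ zero_le_one) fun l _ ↦ one_le_hl l
  simpa using h

theorem dom_one (ν : ℤ) [NeZero 1] : Dom (fun h ↦ ‖TF ν 1 h‖) 1 1 := by
  classical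
  refine ⟨1, fun _ ↦ 1, fun _ ↦ 1, fun _ ↦ ⟨one_ne_zero, zero_le_one, one_dvd _⟩, ?_, ?_⟩
  · intro h
    simp only [Finset.univ_unique, Finset.sum_singleton]
    rw [if_pos (one_dvd h)]
    unfold TF
    refine (norm_sum_le _ _).trans ?_
    have hc : (SolF ν 1).card ≤ 1 := by
      refine (Finset.card_le_univ _).trans ?_
      simp
    calc ∑ x ∈ SolF ν 1, ‖ZMod.stdAddChar (N := 1) ((h.re : ZMod 1) * x.1 + (h.im : ZMod 1) * x.2)‖
        ≤ ∑ x ∈ SolF ν 1, (1 : ℝ) := by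
          refine Finset.sum_le_sum fun x _ ↦ ?_
          exact le_of_eq (AddChar.norm_apply _ _)
      _ ≤ 1 := by
          rw [Finset.sum_const, nsmul_eq_mul, mul_one]
          exact_mod_cast hc
  · simp [N2]

theorem domTF (hL : StDomL) (h9 : StCRT) : ∀ n : ℕ, ∀ [NeZero n], n % 2 = 1 → ∀ ν : ℤ,
    Dom (fun h ↦ ‖TF ν n h‖) n (tau n * hh n * √(n : ℝ)) := by
  intro n
  induction n using Nat.recOnPosPrimePosCoprime with
  | zero => intro _ h; omega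
  | one =>
    intro _ _ ν
    refine dom_mono (dom_one ν) ?_
    rw [hh_one, tau_one]
    simp
  | prime_pow l k hl' hk =>
    intro _ hodd ν
    have : Fact l.Prime := ⟨hl'⟩
    have hl2 : l ≠ 2 := by
      rintro rfl
      have : 2 ∣ 2 ^ k := dvd_pow_self 2 hk.ne'
      omega
    refine dom_mono (hL l k hl2 hk ν) ?_
    rw [tau_pow hl', hh_pow hl' hk.ne', sqrt_pow']
    push_cast
    exact le_rfl
  | coprime a b ha hb hab iha ihb =>
    intro _ hodd ν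
    have : NeZero a := ⟨by omega⟩
    have : NeZero b := ⟨by omega⟩
    have hoa : a % 2 = 1 := by
      rcases Nat.mod_two_eq_zero_or_one a with h | h
      · rw [Nat.mul_mod, h] at hodd; simp at hodd
      · exact h
    have hob : b % 2 = 1 := by
      rcases Nat.mod_two_eq_zero_or_one b with h | h
      · rw [Nat.mul_mod, h] at hodd; simp at hodd
      · exact h
    obtain ⟨u₁, u₂, hu₁, hu₂, hc⟩ := h9 a b hab
    have := dom_mul (T₁ := fun h ↦ ‖TF ν a h‖) (T₂ := fun h ↦ ‖TF ν b h‖)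
      (fun _ ↦ norm_nonneg _) (fun _ ↦ norm_nonneg _) hab hu₁ hu₂ (iha hoa ν) (ihb hob ν)
    refine dom_mono (dom_congr this fun h ↦ ?_) ?_
    · show ‖TF ν (a * b) h‖ = ‖TF ν a (u₁ * h)‖ * ‖TF ν b (u₂ * h)‖
      rw [(hc ν h).1, norm_mul]
    · rw [tau_mul hab, hh_mul hab]
      push_cast
      rw [Real.sqrt_mul (Nat.cast_nonneg a)]
      refine le_of_eq ?_
      ring

theorem Cp_nonneg (p : ℕ) : 0 ≤ Cp p := by
  unfold Cp
  split_ifs
  · norm_num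
  · positivity

theorem main (hP : StDomP) (hL : StDomL) (h9 : StCRT) (p : ℕ) [Fact p.Prime] (k d' : ℕ)
    (hp : p ≠ 2) (hd : d' % 2 = 1) (hpd : p.Coprime d') (ν : ℤ) (q : ℕ) [NeZero q]
    (hq : q = p ^ (k + 2) * d') :
    Dom (fun h ↦ ‖TS ν p q h‖) q
      (Cp p * √(p : ℝ) ^ (k + 2) * (tau d' * hh d' * √(d' : ℝ))) := by
  subst hq
  have : NeZero d' := ⟨by omega⟩
  have : NeZero (p ^ (k + 2)) := ⟨pow_ne_zero _ (Fact.out : p.Prime).ne_zero⟩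
  have hab : (p ^ (k + 2)).Coprime d' := Nat.Coprime.pow_left _ hpd
  obtain ⟨u₁, u₂, hu₁, hu₂, hc⟩ := h9 (p ^ (k + 2)) d' hab
  have := dom_mul (T₁ := fun h ↦ ‖TS ν p (p ^ (k + 2)) h‖) (T₂ := fun h ↦ ‖TF ν d' h‖)
    (fun _ ↦ norm_nonneg _) (fun _ ↦ norm_nonneg _) hab hu₁ hu₂
    (hP p (k + 2) hp (by omega) ν) (domTF hL h9 d' hd ν)
  refine dom_congr this fun h ↦ ?_
  show ‖TS ν p (p ^ (k + 2) * d') h‖ = ‖TS ν p (p ^ (k + 2)) (u₁ * h)‖ * ‖TF ν d' (u₂ * h)‖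
  rw [(hc ν h).2 p (dvd_pow_self p (by omega)), norm_mul]

end S10

open S10 in
/-- S10: the global domination -/
theorem stDOM (hP : StDomP) (hL : StDomL) (h9 : StCRT) : StDOM := by
  intro p _ d _ hp hd ν
  have hpp : p.Prime := Fact.out
  have hd0 : d ≠ 0 := by omega
  obtain ⟨k, d', hpd, hdk⟩ := Nat.exists_eq_pow_mul_and_not_dvd hd0 p hpp.ne_one
  have hcop : p.Coprime d' := (Nat.Prime.coprime_iff_not_dvd hpp).2 hpd
  have hd' : d' % 2 = 1 := by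
    rcases Nat.mod_two_eq_zero_or_one d' with h | h
    · rw [hdk, Nat.mul_mod, h] at hd; simp at hd
    · exact h
  have hq : p ^ 2 * d = p ^ (k + 2) * d' := by rw [hdk]; ring
  refine dom_mono (main hP hL h9 p k d' hp hd' hcop ν (p ^ 2 * d) hq) ?_
  unfold Bq
  have hs : √(d : ℝ) = √(p : ℝ) ^ k * √(d' : ℝ) := by
    rw [hdk]
    push_cast
    rw [Real.sqrt_mul (by positivity), ← sqrt_pow']
    push_cast
    rfl
  have hpk : √(p : ℝ) ^ (k + 2) = p * √(p : ℝ) ^ k := by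
    rw [pow_add, Real.sq_sqrt (Nat.cast_nonneg p)]
    ring
  have ht : (tau d' : ℝ) ≤ tau d := by
    have : tau d = (k + 1) * tau d' := by
      rw [hdk, tau_mul (Nat.Coprime.pow_left _ hcop), tau_pow hpp]
    rw [this]
    push_cast
    have h0 : (0 : ℝ) ≤ tau d' := Nat.cast_nonneg _
    have h1 : (0 : ℝ) ≤ k := Nat.cast_nonneg _
    nlinarith
  have hH : hh d' ≤ hh d := by
    rw [hdk, hh_mul (Nat.Coprime.pow_left _ hcop)]
    have h0 : 0 ≤ hh d' := zero_le_one.trans (one_le_hh _)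
    have h1 := one_le_hh (p ^ k)
    nlinarith
  rw [hs, hpk]
  have hC := Cp_nonneg p
  have h1 : (0 : ℝ) ≤ hh d' := zero_le_one.trans (one_le_hh _)
  have h2 : (tau d' : ℝ) * hh d' ≤ tau d * hh d := mul_le_mul ht hH h1 (Nat.cast_nonneg _)
  have h3 : 0 ≤ Cp p * (p * √(p : ℝ) ^ k) * √(d' : ℝ) := by positivity
  calc Cp p * (p * √(p : ℝ) ^ k) * (tau d' * hh d' * √(d' : ℝ))
      = (Cp p * (p * √(p : ℝ) ^ k) * √(d' : ℝ)) * (tau d' * hh d') := by ring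
    _ ≤ (Cp p * (p * √(p : ℝ) ^ k) * √(d' : ℝ)) * (tau d * hh d) := mul_le_mul_of_nonneg_left h2 h3
    _ = p * (√(p : ℝ) ^ k * √(d' : ℝ)) * Cp p * tau d * hh d := by ring

end Pool.Agent.TFS
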