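import Pool.Agent.Lib.TFS.StmtsS

/-!
S2: domination modulo a prime (blueprint: team-store `tfs_S.md`).
-/

set_option autoImplicit false

open Finset

namespace Pool.Agent.TFS

open Pool.Agent.Lib.MP_0e0027_nt

namespace S2

section kl

variable {l : ℕ} [Fact l.Prime]

theorem sum_units (f : ZMod l → ℂ) : ∑ x : (ZMod l)ˣ, f (x : ZMod l) = (∑ x : ZMod l, f x) - f 0 := by
  have h1 : ∑ x : (ZMod l)ˣ, f (x : ZMod l) = ∑ x : {a : ZMod l // a ≠ 0}, f x := by
    apply Fintype.sum_equiv unitsEquivNeZero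
    intro x
    rfl
  rw [h1, ← Finset.sum_subtype (univ.filter (fun a : ZMod l ↦ a ≠ 0)) (by simp) f,
    Finset.filter_ne', Finset.sum_erase_eq_sub (mem_univ _)]

theorem kl_r0 (a : ZMod l) (ha : a ≠ 0) : Kl a 0 = -1 := by
  unfold Kl
  have h1 := sum_units (fun x : ZMod l ↦ (ZMod.stdAddChar (x * a) : ℂ))
  rw [sum_psi, if_neg ha, zero_mul, AddChar.map_zero_eq_one] at h1
  rw [← zero_sub, ← h1]
  refine sum_congr rfl (fun x _ ↦ ?_)
  rw [zero_mul, add_zero, mul_comm]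

theorem kl_0r (b : ZMod l) (hb : b ≠ 0) : Kl 0 b = -1 := by
  rw [← kl_r0 b hb]
  unfold Kl
  apply Fintype.sum_equiv (Equiv.inv _)
  intro x
  congr 1
  rw [Equiv.inv_apply, zero_mul, zero_mul, zero_add, add_zero]

theorem kl_00 : Kl (0 : ZMod l) 0 = l - 1 := by
  unfold Kl
  have h1 := sum_units (fun x : ZMod l ↦ (ZMod.stdAddChar (x * 0) : ℂ))
  rw [sum_psi, if_pos rfl, zero_mul, AddChar.map_zero_eq_one] at h1
  rw [← h1]
  refine sum_congr rfl (fun x _ ↦ ?_)
  rw [zero_mul, zero_mul, add_zero, mul_zero]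

end kl

theorem dv_iff (n : ℕ) (h : GI) : (n : GI) ∣ h ↔ dv n h := by
  have := Zsqrtd.intCast_dvd (d := -1) (n : ℤ) h
  rw [Int.cast_natCast] at this
  exact this

theorem dvd_mk {l : ℕ} (hl : l.Prime) {a b : ℤ} (hab : a ^ 2 + b ^ 2 = l) (h : GI)
    (h1 : (l : ℤ) ∣ a * h.im - b * h.re) : (⟨a, b⟩ : GI) ∣ h := by
  have hp : Prime (l : ℤ) := Nat.prime_iff_prime_int.1 hl
  have h2 : (l : ℤ) ∣ a * h.re + b * h.im := by
    apply hp.dvd_of_dvd_pow (n := 2)
    have e : (a * h.re + b * h.im) ^ 2 = l * N2 h - (a * h.im - b * h.re) ^ 2 := by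
      rw [← hab]
      unfold N2
      ring
    rw [e]
    exact dvd_sub (Dvd.intro _ rfl) (h1.trans (Dvd.intro_left _ (sq _).symm))
  obtain ⟨d, hd⟩ := h1
  obtain ⟨c, hc⟩ := h2
  have hl0 : (l : ℤ) ≠ 0 := by exact_mod_cast hl.ne_zero
  refine ⟨⟨c, d⟩, ?_⟩
  rw [Zsqrtd.ext_iff]
  simp only [Zsqrtd.re_mul, Zsqrtd.im_mul]
  constructor
  · apply mul_left_cancel₀ hl0
    linear_combination a * hc - b * hd - h.re * hab
  · apply mul_left_cancel₀ hl0
    linear_combination a * hd + b * hc - h.im * hab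

theorem dvd_or {l : ℕ} (hl : l.Prime) {a b : ℤ} (hab : a ^ 2 + b ^ 2 = l) (h : GI)
    (hN : (l : ℤ) ∣ N2 h) : (⟨a, b⟩ : GI) ∣ h ∨ (⟨a, -b⟩ : GI) ∣ h := by
  have hp : Prime (l : ℤ) := Nat.prime_iff_prime_int.1 hl
  have h1 : (l : ℤ) ∣ (a * h.im - b * h.re) * (a * h.im + b * h.re) := by
    have e : (a * h.im - b * h.re) * (a * h.im + b * h.re) = a ^ 2 * N2 h - h.re ^ 2 * l := by
      rw [← hab]
      unfold N2
      ring
    rw [e]
    exact dvd_sub (Dvd.dvd.mul_left hN _) (Dvd.intro_left _ rfl)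
  rcases hp.dvd_or_dvd h1 with h2 | h2
  · exact Or.inl (dvd_mk hl hab h h2)
  · right
    apply dvd_mk hl (by linear_combination hab) h
    have : a * h.im - -b * h.re = a * h.im + b * h.re := by ring
    rw [this]
    exact h2

theorem mk_dvd_l {l : ℕ} {a b : ℤ} (hab : a ^ 2 + b ^ 2 = l) : (⟨a, b⟩ : GI) ∣ (l : GI) := by
  refine ⟨⟨a, -b⟩, ?_⟩
  rw [Zsqrtd.ext_iff]
  simp only [Zsqrtd.re_mul, Zsqrtd.im_mul, Zsqrtd.re_natCast, Zsqrtd.im_natCast]
  constructor
  · rw [← hab]; ring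
  · ring

end S2

open S2

theorem stDom1 (hW : StWeil) (h1 : StT1) : StDom1 := by
  classical
  intro l hF hl2 ν
  have hp : l.Prime := hF.out
  have hpi : Prime (l : ℤ) := Nat.prime_iff_prime_int.1 hp
  have hl0 : (l : ℝ) ≠ 0 := by exact_mod_cast hp.ne_zero
  have hl3 : 3 ≤ l := by
    have := hp.two_le
    omega
  have hl3' : (3 : ℝ) ≤ l := by exact_mod_cast hl3
  have hs0 : 0 ≤ √(l : ℝ) := Real.sqrt_nonneg _
  have hss : √(l : ℝ) * √(l : ℝ) = l := Real.mul_self_sqrt (by positivity)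
  have hs1 : 1 ≤ √(l : ℝ) := by
    rw [Real.one_le_sqrt]
    linarith
  have hs00 : √(l : ℝ) ≠ 0 := by positivity
  have hB : 2 * √(l : ℝ) * hl l = 2 * √(l : ℝ) + 1 / l := by
    unfold hl
    field_simp
  have h4 : (4 : ZMod l) ≠ 0 := by
    intro h
    have : ((4 : ℕ) : ZMod l) = 0 := by exact_mod_cast h
    rw [ZMod.natCast_eq_zero_iff] at this
    have h5 : l ∣ 2 := hp.dvd_of_dvd_pow (n := 2) (by norm_num; exact this)
    exact hl2 ((Nat.prime_dvd_prime_iff_eq hp Nat.prime_two).1 h5)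
  have hN0 : ∀ h : GI, (l : ℤ) ∣ N2 h → (N2 h : ZMod l) = 0 := fun h hh ↦
    (ZMod.intCast_zmod_eq_zero_iff_dvd _ _).2 hh
  have hN1 : ∀ h : GI, ¬ (l : ℤ) ∣ N2 h → (N2 h : ZMod l) * (4 : ZMod l)⁻¹ ≠ 0 := by
    intro h hh
    apply mul_ne_zero _ (inv_ne_zero h4)
    intro h5
    exact hh ((ZMod.intCast_zmod_eq_zero_iff_dvd _ _).1 h5)
  have hdv : ∀ h : GI, dv l h → (l : ℤ) ∣ N2 h := by
    intro h hh
    unfold N2
    exact dvd_add (Dvd.dvd.trans hh.1 (Dvd.intro_left _ (sq _).symm))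
      (Dvd.dvd.trans hh.2 (Dvd.intro_left _ (sq _).symm))
  have hn1 : (1 : GI) ≠ 0 := one_ne_zero
  have hnl : (l : GI) ≠ 0 := by exact_mod_cast hp.ne_zero
  have hN21 : N2 1 = 1 := by simp [N2]
  have hN2l : N2 (l : GI) = (l : ℤ) ^ 2 := by simp [N2]
  rw [hB]
  by_cases hν : (l : ℤ) ∣ ν
  · have hν0 : (ν : ZMod l) = 0 := (ZMod.intCast_zmod_eq_zero_iff_dvd _ _).2 hν
    rcases hp.eq_two_or_odd with h2 | h2
    · exact absurd h2 hl2
    have h34 : l % 4 = 3 ∨ l % 4 = 1 := by omega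
    rcases h34 with h3 | h3
    · -- inert
      have hch : (ch l : ℂ) = -1 := by
        unfold ch
        rw [ZMod.χ₄_nat_three_mod_four h3]
        norm_num
      refine ⟨1, fun _ ↦ 1, fun _ ↦ 1, fun i ↦ ⟨hn1, zero_le_one, one_dvd _⟩, ?_, ?_⟩
      · intro h
        have hT : TF ν l h = 1 := by
          rw [h1 l hl2 ν h, hν0, hch]
          by_cases hN : (l : ℤ) ∣ N2 h
          · have hd : dv l h := by
              obtain ⟨e1, e2⟩ := dvd_both_of_three hp h3 (c := h.re) (d := h.im) hN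
              exact ⟨e1, e2⟩
            rw [if_pos hd, hN0 h hN, zero_mul, kl_00]
            ring
          · rw [if_neg (fun hd ↦ hN (hdv h hd)), kl_0r _ (hN1 h hN)]
            ring
        simp [hT]
      · simp only [Finset.univ_unique, sum_const]
        rw [hN21]
        have : 0 ≤ 1 / (l : ℝ) := by positivity
        rw [Finset.card_singleton, one_smul, Int.cast_one, div_one]
        linarith
    · -- split
      have hch : (ch l : ℂ) = 1 := by
        unfold ch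
        rw [ZMod.χ₄_nat_one_mod_four h3]
        norm_num
      have hl5 : 5 ≤ l := by omega
      have hl5' : (5 : ℝ) ≤ l := by exact_mod_cast hl5
      obtain ⟨a, b, hab⟩ := Nat.Prime.sq_add_sq (p := l) (by omega : l % 4 ≠ 3)
      have hab' : (a : ℤ) ^ 2 + (b : ℤ) ^ 2 = l := by exact_mod_cast hab
      have hab2 : (a : ℤ) ^ 2 + (-(b : ℤ)) ^ 2 = l := by linear_combination hab'
      have hm1 := mk_dvd_l hab'
      have hm2 := mk_dvd_l hab2
      have hNa : N2 (⟨a, b⟩ : GI) = l := hab'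
      have hNb : N2 (⟨a, -b⟩ : GI) = l := hab2
      have hz : ∀ γ : GI, γ ∣ (l : GI) → γ ≠ 0 := by
        intro γ h1 h2
        rw [h2, zero_dvd_iff] at h1
        exact hnl h1
      refine ⟨4, ![1, ⟨a, b⟩, ⟨a, -b⟩, (l : GI)], ![1, l - 2, l - 2, 2], ?_, ?_, ?_⟩
      · intro i
        fin_cases i
        · exact ⟨hn1, zero_le_one, one_dvd _⟩
        · exact ⟨hz _ hm1, by show (0 : ℝ) ≤ l - 2; linarith, hm1⟩
        · exact ⟨hz _ hm2, by show (0 : ℝ) ≤ l - 2; linarith, hm2⟩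
        · exact ⟨hnl, by show (0 : ℝ) ≤ 2; norm_num, dvd_refl _⟩
      · intro h
        simp only [Fin.sum_univ_four]
        show ‖TF ν l h‖ ≤ (if (1 : GI) ∣ h then (1 : ℝ) else 0) +
          (if (⟨a, b⟩ : GI) ∣ h then ((l : ℝ) - 2) else 0) +
          (if (⟨a, -b⟩ : GI) ∣ h then ((l : ℝ) - 2) else 0) +
          (if (l : GI) ∣ h then (2 : ℝ) else 0)
        rw [if_pos (one_dvd h), h1 l hl2 ν h, hν0, hch, one_mul]
        by_cases hN : (l : ℤ) ∣ N2 h
        · rw [hN0 h hN, zero_mul, kl_00]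
          by_cases hd : dv l h
          · have e1 : (l : GI) ∣ h := (dv_iff l h).2 hd
            rw [if_pos hd, if_pos (hm1.trans e1), if_pos (hm2.trans e1), if_pos e1]
            have e2 : (l : ℂ) + ((l : ℂ) - 1) = ((2 * l - 1 : ℝ) : ℂ) := by push_cast; ring
            rw [e2, Complex.norm_real, Real.norm_eq_abs, abs_of_nonneg (by linarith)]
            linarith
          · rw [if_neg hd, if_neg (fun e1 ↦ hd ((dv_iff l h).1 e1)), zero_add]
            have e2 : (l : ℂ) - 1 = ((l - 1 : ℝ) : ℂ) := by push_cast; ring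
            rw [e2, Complex.norm_real, Real.norm_eq_abs, abs_of_nonneg (by linarith)]
            rcases dvd_or hp hab' h hN with e1 | e1
            · rw [if_pos e1]
              split_ifs <;> linarith
            · rw [if_pos e1]
              split_ifs <;> linarith
        · rw [if_neg (fun hd ↦ hN (hdv h hd)), kl_0r _ (hN1 h hN), zero_add, norm_neg, norm_one]
          split_ifs <;> linarith
      · simp only [Fin.sum_univ_four]
        show (1 : ℝ) / (N2 (1 : GI) : ℝ) + ((l : ℝ) - 2) / (N2 (⟨a, b⟩ : GI) : ℝ) +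
          ((l : ℝ) - 2) / (N2 (⟨a, -b⟩ : GI) : ℝ) + 2 / (N2 (l : GI) : ℝ) ≤ _
        rw [hN21, hNa, hNb, hN2l]
        push_cast
        have h6 : (2 : ℝ) ≤ √(l : ℝ) := by
          rw [Real.le_sqrt (by norm_num) (by positivity)]
          linarith
        have h7 : ((l : ℝ) - 2) / l = 1 - 2 / l := by field_simp
        have h8 : 2 / (l : ℝ) ^ 2 ≤ 2 / l := by
          apply div_le_div_of_nonneg_left (by norm_num) (by linarith)
          nlinarith
        have h9 : 0 ≤ 2 / (l : ℝ) := by positivity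
        have h10 : 0 ≤ 1 / (l : ℝ) := by positivity
        rw [h7, div_one]
        linarith
  · have hν0 : (ν : ZMod l) ≠ 0 := by
      intro h
      exact hν ((ZMod.intCast_zmod_eq_zero_iff_dvd _ _).1 h)
    have hc : ‖(ch l : ℂ)‖ ≤ 1 := by
      have h5 := abs_c4_le l
      unfold c4 at h5
      unfold ch
      rw [Complex.norm_real, Real.norm_eq_abs]
      exact_mod_cast h5
    refine ⟨2, ![1, (l : GI)], ![2 * √(l : ℝ), l + 1 - 2 * √(l : ℝ)], ?_, ?_, ?_⟩
    · intro i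
      fin_cases i
      · exact ⟨hn1, by show (0 : ℝ) ≤ 2 * √(l : ℝ); positivity, one_dvd _⟩
      · exact ⟨hnl, by show (0 : ℝ) ≤ l + 1 - 2 * √(l : ℝ); nlinarith, dvd_refl _⟩
    · intro h
      simp only [Fin.sum_univ_two]
      show ‖TF ν l h‖ ≤ (if (1 : GI) ∣ h then (2 * √(l : ℝ)) else 0) +
          (if (l : GI) ∣ h then (l + 1 - 2 * √(l : ℝ)) else 0)
      rw [if_pos (one_dvd h), h1 l hl2 ν h]
      by_cases hN : (l : ℤ) ∣ N2 h
      · rw [hN0 h hN, zero_mul, kl_r0 _ hν0]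
        by_cases hd : dv l h
        · rw [if_pos hd, if_pos ((dv_iff l h).2 hd)]
          refine (norm_add_le _ _).trans ?_
          rw [norm_mul, norm_neg, norm_one, Complex.norm_natCast]
          linarith
        · rw [if_neg hd, if_neg (fun e1 ↦ hd ((dv_iff l h).1 e1)), zero_add, norm_mul, norm_neg,
            norm_one]
          linarith
      · rw [if_neg (fun hd ↦ hN (hdv h hd)), if_neg (fun e1 ↦ hN (hdv h ((dv_iff l h).1 e1))),
          zero_add, norm_mul, add_zero]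
        have h5 := hW l hl2 (ν : ZMod l) _ hν0 (hN1 h hN)
        calc _ ≤ 1 * (2 * √(l : ℝ)) := mul_le_mul hc h5 (norm_nonneg _) zero_le_one
          _ = _ := one_mul _
    · simp only [Fin.sum_univ_two]
      show (2 * √(l : ℝ)) / (N2 (1 : GI) : ℝ) + (l + 1 - 2 * √(l : ℝ)) / (N2 (l : GI) : ℝ) ≤ _
      rw [hN21, hN2l]
      push_cast
      rw [div_one]
      have h6 : (l + 1 - 2 * √(l : ℝ)) / (l : ℝ) ^ 2 ≤ 1 / l := by
        rw [div_le_div_iff₀ (by positivity) (by positivity)]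
        nlinarith
      linarith

end Pool.Agent.TFS
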