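import Pool.Agent.Lib.TFS.StmtsS

/-!
TFS-S3: stationary phase modulo `l^k` for the circle `x² + y² = ν`, `l ∤ ν`.
-/

set_option autoImplicit false

open Finset

namespace Pool.Agent.TFS
namespace S3

open Pool.Agent.Lib.MP_0e0027_nt

section units

variable (l k : ℕ) [hl : Fact l.Prime] [NeZero (l ^ k)]

theorem nonunit (y : ZMod (l ^ k)) (hy : ¬ IsUnit y) : ∃ z : ZMod (l ^ k), y = l * z := by
  have h1 : ((y.val : ℕ) : ZMod (l ^ k)) = y := ZMod.natCast_zmod_val y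
  rw [← h1, ZMod.isUnit_iff_coprime] at hy
  have h2 : l ∣ y.val := by
    by_contra h
    exact hy (Nat.Coprime.pow_right k ((Nat.Prime.coprime_iff_not_dvd hl.out).2 h).symm)
  obtain ⟨z, hz⟩ := h2
  exact ⟨z, by rw [← h1, hz]; push_cast; ring⟩

theorem not_unit_mul (hk : 1 ≤ k) (z : ZMod (l ^ k)) : ¬ IsUnit ((l : ZMod (l ^ k)) * z) := by
  intro h
  have h1 : IsUnit ((l : ℕ) : ZMod (l ^ k)) := isUnit_of_mul_isUnit_left h
  rw [ZMod.isUnit_iff_coprime] at h1
  have h2 : Nat.Coprime l l := Nat.Coprime.coprime_dvd_right (dvd_pow_self l (by omega)) h1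
  rw [Nat.coprime_self] at h2
  exact hl.out.one_lt.ne' h2

theorem two_unit (h2 : l ≠ 2) : IsUnit (2 : ZMod (l ^ k)) := by
  have h := (ZMod.isUnit_iff_coprime 2 (l ^ k)).2
    (Nat.Coprime.pow_right k ((Nat.coprime_primes Nat.prime_two hl.out).2 (Ne.symm h2)))
  exact_mod_cast h

theorem pow_zero_of_le (m : ℕ) (hm : k ≤ m) : (l : ZMod (l ^ k)) ^ m = 0 := by
  have h : (((l ^ m : ℕ)) : ZMod (l ^ k)) = 0 := by
    rw [ZMod.natCast_eq_zero_iff]
    exact pow_dvd_pow l hm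
  exact_mod_cast h

theorem pow_ne_zero_of_lt (m : ℕ) (hm : m < k) : (l : ZMod (l ^ k)) ^ m ≠ 0 := by
  intro h
  have h1 : (((l ^ m : ℕ)) : ZMod (l ^ k)) = 0 := by exact_mod_cast h
  rw [ZMod.natCast_eq_zero_iff] at h1
  have := (Nat.pow_dvd_pow_iff_le_right hl.out.one_lt).1 h1
  omega

/-- if `l^m y = 0` with `m < k` then `y` is not a unit -/
theorem not_unit_of_mul (m : ℕ) (hm : m < k) (y : ZMod (l ^ k)) (hy : (l : ZMod (l ^ k)) ^ m * y = 0) :
    ¬ IsUnit y := by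
  intro h
  exact pow_ne_zero_of_lt l k m hm ((h.mul_left_eq_zero).1 hy)

theorem card_ann (r s : ℕ) (hk : k = r + s) :
    (univ.filter (fun a : ZMod (l ^ k) ↦ (l : ZMod (l ^ k)) ^ r * a = 0)).card ≤ l ^ r := by
  have hsub : (univ.filter (fun a : ZMod (l ^ k) ↦ (l : ZMod (l ^ k)) ^ r * a = 0)) ⊆
      (range (l ^ r)).image (fun b ↦ ((l ^ s * b : ℕ) : ZMod (l ^ k))) := by
    intro a ha
    rw [mem_filter] at ha
    have h1 : ((l ^ r * a.val : ℕ) : ZMod (l ^ k)) = 0 := by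
      push_cast
      rw [ZMod.natCast_zmod_val]
      exact ha.2
    rw [ZMod.natCast_eq_zero_iff] at h1
    have h2 : l ^ r * l ^ s ∣ l ^ r * a.val := by rw [← pow_add, ← hk]; exact h1
    have h3 : l ^ s ∣ a.val := Nat.dvd_of_mul_dvd_mul_left (pow_pos hl.out.pos r) h2
    obtain ⟨b, hb⟩ := h3
    rw [mem_image]
    refine ⟨b, ?_, ?_⟩
    · rw [mem_range]
      have h4 : a.val < l ^ k := ZMod.val_lt a
      rw [hb, hk, pow_add, mul_comm (l ^ r)] at h4
      exact Nat.lt_of_mul_lt_mul_left h4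
    · rw [← hb, ZMod.natCast_zmod_val]
  calc _ ≤ _ := card_le_card hsub
    _ ≤ (range (l ^ r)).card := card_image_le
    _ = l ^ r := card_range _

end units

section rotation

variable {q : ℕ} [NeZero q]

theorem rot_sum (ν : ℤ) (h : GI) (a b : ZMod q) (hab : a ^ 2 + b ^ 2 = 1) :
    ∑ x ∈ SolF ν q, (ZMod.stdAddChar (a * ((h.re : ZMod q) * x.1 + (h.im : ZMod q) * x.2) +
      b * ((h.im : ZMod q) * x.1 - (h.re : ZMod q) * x.2)) : ℂ) = TF ν q h := by
  unfold TF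
  refine sum_nbij' (fun x ↦ (a * x.1 - b * x.2, b * x.1 + a * x.2))
    (fun x ↦ (a * x.1 + b * x.2, a * x.2 - b * x.1)) ?_ ?_ ?_ ?_ ?_
  · intro x hx
    rw [SolF, mem_filter] at hx ⊢
    refine ⟨mem_univ _, ?_⟩
    rw [← hx.2]
    linear_combination (x.1 ^ 2 + x.2 ^ 2) * hab
  · intro x hx
    rw [SolF, mem_filter] at hx ⊢
    refine ⟨mem_univ _, ?_⟩
    rw [← hx.2]
    linear_combination (x.1 ^ 2 + x.2 ^ 2) * hab
  · intro x _
    ext
    · simp only
      linear_combination x.1 * hab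
    · simp only
      linear_combination x.2 * hab
  · intro x _
    ext
    · simp only
      linear_combination x.1 * hab
    · simp only
      linear_combination x.2 * hab
  · intro x _
    congr 1
    ring

/-- quadratic Gauss sum -/
noncomputable def Gf (α β : ZMod q) : ℂ := ∑ t : ZMod q, ZMod.stdAddChar (α * t - β * t ^ 2)

theorem Gf_zero (α : ZMod q) : Gf α 0 = if α = 0 then (q : ℂ) else 0 := by
  rw [← sum_psi, Gf]
  refine sum_congr rfl (fun t _ ↦ ?_)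
  congr 1
  ring

theorem Gf_sq (α β : ZMod q) : ((‖Gf α β‖ ^ 2 : ℝ) : ℂ) =
    q * ∑ v ∈ univ.filter (fun v : ZMod q ↦ 2 * β * v = 0), ZMod.stdAddChar (α * v - β * v ^ 2) := by
  have h1 : ((‖Gf α β‖ ^ 2 : ℝ) : ℂ) = Gf α β * (starRingEnd ℂ) (Gf α β) := by
    rw [Complex.mul_conj, Complex.normSq_eq_norm_sq]
  have h2 : (starRingEnd ℂ) (Gf α β) = ∑ t : ZMod q, (ZMod.stdAddChar (-(α * t - β * t ^ 2)) : ℂ) := by
    unfold Gf
    rw [map_sum]
    exact sum_congr rfl (fun t _ ↦ conj_psi _)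
  rw [h1, h2, mul_comm, sum_mul]
  have h3 : ∀ t : ZMod q, (ZMod.stdAddChar (-(α * t - β * t ^ 2)) : ℂ) * Gf α β =
      ∑ v : ZMod q, (ZMod.stdAddChar (α * v - β * v ^ 2) : ℂ) * ZMod.stdAddChar (t * (-(2 * β * v))) := by
    intro t
    unfold Gf
    rw [mul_sum]
    rw [← Equiv.sum_comp (Equiv.addLeft t)]
    refine sum_congr rfl (fun v _ ↦ ?_)
    rw [← AddChar.map_add_eq_mul, ← AddChar.map_add_eq_mul]
    congr 1
    simp only [Equiv.coe_addLeft]
    ring
  rw [sum_congr rfl (fun t _ ↦ h3 t), sum_comm, mul_sum, sum_filter]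
  refine sum_congr rfl (fun v _ ↦ ?_)
  rw [← mul_sum, sum_psi]
  by_cases hv : 2 * β * v = 0
  · rw [if_pos hv, if_pos (by rw [hv, neg_zero])]
    ring
  · rw [if_neg hv, if_neg (by rwa [neg_eq_zero])]
    ring

theorem norm_psi (x : ZMod q) : ‖(ZMod.stdAddChar x : ℂ)‖ = 1 := by
  rw [ZMod.stdAddChar_apply]
  exact Circle.norm_coe _

theorem exists_ne_one (b : ZMod q) (hb : b ≠ 0) : ∃ x : ZMod q, (ZMod.stdAddChar (x * b) : ℂ) ≠ 1 := by
  by_contra h
  push Not at h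
  have h1 := sum_psi b
  rw [if_neg hb, sum_congr rfl (fun x _ ↦ h x)] at h1
  simp at h1
  exact NeZero.ne q h1

end rotation

section main

variable (l k : ℕ) [hl : Fact l.Prime] [NeZero (l ^ k)]

/-- the phase -/
def R0 (h : GI) (x : ZMod (l ^ k) × ZMod (l ^ k)) : ZMod (l ^ k) :=
  (h.re : ZMod (l ^ k)) * x.1 + (h.im : ZMod (l ^ k)) * x.2

/-- the derivative of the phase -/
def A0 (h : GI) (x : ZMod (l ^ k) × ZMod (l ^ k)) : ZMod (l ^ k) :=
  (h.im : ZMod (l ^ k)) * x.1 - (h.re : ZMod (l ^ k)) * x.2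

theorem cast_unit (hk : 1 ≤ k) (n : ℤ) : IsUnit (n : ZMod (l ^ k)) ↔ ¬ (l : ℤ) ∣ n := by
  rw [ZMod.coe_int_isUnit_iff_isCoprime]
  have hp : Prime (l : ℤ) := Nat.prime_iff_prime_int.1 hl.out
  push_cast
  rw [IsCoprime.pow_left_iff (by omega), hp.irreducible.coprime_iff_not_dvd]

theorem one_unit (hk : 1 ≤ k) (ν : ℤ) (h : GI) (hν : ¬ (l : ℤ) ∣ ν) (hh : ¬ dv l h)
    (x : ZMod (l ^ k) × ZMod (l ^ k)) (hx : x ∈ SolF ν (l ^ k)) :
    IsUnit (R0 l k h x) ∨ IsUnit (A0 l k h x) := by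
  by_contra hc
  push Not at hc
  obtain ⟨h1, h2⟩ := hc
  obtain ⟨z, hz⟩ := nonunit l k _ h1
  obtain ⟨w, hw⟩ := nonunit l k _ h2
  rw [SolF, mem_filter] at hx
  have hx2 := hx.2
  have hu : IsUnit (ν : ZMod (l ^ k)) := (cast_unit l k hk ν).2 hν
  unfold R0 at hz
  unfold A0 at hw
  apply hh
  constructor
  · by_contra hre
    have h3 : IsUnit ((ν : ZMod (l ^ k)) * (h.re : ZMod (l ^ k))) := hu.mul ((cast_unit l k hk _).2 hre)
    have h4 : (ν : ZMod (l ^ k)) * (h.re : ZMod (l ^ k)) = l * (x.1 * z - x.2 * w) := by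
      linear_combination (-(h.re : ZMod (l ^ k))) * hx2 + x.1 * hz - x.2 * hw
    rw [h4] at h3
    exact not_unit_mul l k hk _ h3
  · by_contra hre
    have h3 : IsUnit ((ν : ZMod (l ^ k)) * (h.im : ZMod (l ^ k))) := hu.mul ((cast_unit l k hk _).2 hre)
    have h4 : (ν : ZMod (l ^ k)) * (h.im : ZMod (l ^ k)) = l * (x.2 * z + x.1 * w) := by
      linear_combination (-(h.im : ZMod (l ^ k))) * hx2 + x.2 * hz + x.1 * hw
    rw [h4] at h3
    exact not_unit_mul l k hk _ h3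

/-- unit plus multiple of `l` -/
theorem unit_add (hk : 1 ≤ k) (u z : ZMod (l ^ k)) (hu : IsUnit u) : IsUnit (u + l * z) := by
  by_contra hc
  obtain ⟨w, hw⟩ := nonunit l k _ hc
  have : u = l * (w - z) := by linear_combination hw
  rw [this] at hu
  exact not_unit_mul l k hk _ hu

theorem card_fibre (hl2 : l ≠ 2) (r : ℕ) (hk : 1 ≤ k) (hr : r < k) (ν : ℤ) (h : GI) (hν : ¬ (l : ℤ) ∣ ν)
    (hh : ¬ dv l h) (A : ZMod (l ^ k)) (hA : (l : ZMod (l ^ k)) ^ r * A = 0) :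
    (((SolF ν (l ^ k)).filter (fun x ↦ (l : ZMod (l ^ k)) ^ r * A0 l k h x = 0)).filter
      (fun x ↦ A0 l k h x = A)).card ≤ 2 := by
  set S := ((SolF ν (l ^ k)).filter (fun x ↦ (l : ZMod (l ^ k)) ^ r * A0 l k h x = 0)).filter
      (fun x ↦ A0 l k h x = A) with hS
  by_cases hne : S.Nonempty
  swap
  · rw [not_nonempty_iff_eq_empty] at hne
    rw [hne]
    simp
  obtain ⟨x, hx⟩ := hne
  obtain ⟨z, hz⟩ := nonunit l k A (not_unit_of_mul l k r hr A hA)
  set N : ZMod (l ^ k) := (h.re : ZMod (l ^ k)) ^ 2 + (h.im : ZMod (l ^ k)) ^ 2 with hN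
  have hnu : IsUnit (ν : ZMod (l ^ k)) := (cast_unit l k hk ν).2 hν
  -- facts for members
  have hmem : ∀ y ∈ S, y.1 ^ 2 + y.2 ^ 2 = (ν : ZMod (l ^ k)) ∧ A0 l k h y = A ∧ IsUnit (R0 l k h y) := by
    intro y hy
    rw [hS, mem_filter, mem_filter] at hy
    have h1 := hy.1.1
    have h3 := one_unit l k hk ν h hν hh y h1
    rw [SolF, mem_filter] at h1
    refine ⟨h1.2, hy.2, ?_⟩
    rcases h3 with h3 | h3
    · exact h3
    · rw [hy.2] at h3
      exact absurd h3 (not_unit_of_mul l k r hr A hA)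
  have hnorm : ∀ y ∈ S, R0 l k h y ^ 2 + A ^ 2 = N * ν := by
    intro y hy
    obtain ⟨h1, h2, _⟩ := hmem y hy
    rw [← h2, ← h1, hN]
    unfold R0 A0
    ring
  have hNu : IsUnit N := by
    have h1 := hnorm x hx
    have h2 : IsUnit (R0 l k h x ^ 2 + l * (z * A)) := unit_add l k hk _ _ ((hmem x hx).2.2.pow 2)
    have h3 : R0 l k h x ^ 2 + l * (z * A) = N * ν := by
      rw [← h1]
      linear_combination (-A) * hz
    rw [h3] at h2
    exact isUnit_of_mul_isUnit_left h2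
  obtain ⟨M, hM⟩ := hNu.exists_left_inv
  set R : ZMod (l ^ k) := R0 l k h x with hR
  have hcoord : ∀ y ∈ S, y = (M * ((h.re : ZMod (l ^ k)) * R0 l k h y + (h.im : ZMod (l ^ k)) * A),
      M * ((h.im : ZMod (l ^ k)) * R0 l k h y - (h.re : ZMod (l ^ k)) * A)) := by
    intro y hy
    obtain ⟨h1, h2, _⟩ := hmem y hy
    ext
    · simp only
      rw [← h2]
      unfold R0 A0
      linear_combination (-y.1) * hM
    · simp only
      rw [← h2]
      unfold R0 A0
      linear_combination (-y.2) * hM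
  have hsub : S ⊆ {(M * ((h.re : ZMod (l ^ k)) * R + (h.im : ZMod (l ^ k)) * A),
      M * ((h.im : ZMod (l ^ k)) * R - (h.re : ZMod (l ^ k)) * A)),
      (M * ((h.re : ZMod (l ^ k)) * (-R) + (h.im : ZMod (l ^ k)) * A),
      M * ((h.im : ZMod (l ^ k)) * (-R) - (h.re : ZMod (l ^ k)) * A))} := by
    intro y hy
    have h1 : R0 l k h y = R ∨ R0 l k h y = -R := by
      have h2 : (R0 l k h y - R) * (R0 l k h y + R) = 0 := by
        linear_combination hnorm y hy - hnorm x hx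
      by_cases h3 : IsUnit (R0 l k h y - R)
      · right
        have := (h3.mul_right_eq_zero).1 h2
        linear_combination this
      · by_cases h4 : IsUnit (R0 l k h y + R)
        · left
          have := (h4.mul_left_eq_zero).1 h2
          linear_combination this
        · exfalso
          obtain ⟨a, ha⟩ := nonunit l k _ h3
          obtain ⟨b, hb⟩ := nonunit l k _ h4
          have h5 : IsUnit (2 * R0 l k h y) := (two_unit l k hl2).mul (hmem y hy).2.2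
          have h6 : 2 * R0 l k h y = l * (a + b) := by linear_combination ha + hb
          rw [h6] at h5
          exact not_unit_mul l k hk _ h5
    rw [mem_insert, mem_singleton]
    rcases h1 with h1 | h1
    · left
      rw [← h1]
      exact hcoord y hy
    · right
      rw [← h1]
      exact hcoord y hy
  exact (card_le_card hsub).trans card_le_two

theorem card_stat (hl2 : l ≠ 2) (r s : ℕ) (hs : 1 ≤ s) (hk : k = r + s) (ν : ℤ) (h : GI)
    (hν : ¬ (l : ℤ) ∣ ν) (hh : ¬ dv l h) :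
    ((SolF ν (l ^ k)).filter (fun x ↦ (l : ZMod (l ^ k)) ^ r * A0 l k h x = 0)).card ≤ 2 * l ^ r := by
  refine (card_le_mul_card_image (f := A0 l k h) _ 2 ?_).trans ?_
  · intro A hA
    rw [mem_image] at hA
    obtain ⟨x, hx, hxA⟩ := hA
    rw [mem_filter, hxA] at hx
    exact card_fibre l k hl2 r (by omega) (by omega) ν h hν hh A hx.2
  · apply Nat.mul_le_mul_left
    refine (card_le_card ?_).trans (card_ann l k r s hk)
    intro A hA
    rw [mem_image] at hA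
    obtain ⟨x, hx, hxA⟩ := hA
    rw [mem_filter, hxA] at hx
    rw [mem_filter]
    exact ⟨mem_univ _, hx.2⟩

/-- the odd case: the Gauss sum vanishes outside the stationary points -/
theorem Gf_odd_zero (hl2 : l ≠ 2) (s : ℕ) (hk : k = 2 * s + 1) (α ρ c : ZMod (l ^ k))
    (hc : 2 * c = (l : ZMod (l ^ k)) ^ (2 * s)) (hα : (l : ZMod (l ^ k)) * α ≠ 0) :
    Gf α (c * ρ) = 0 := by
  have h2 := two_unit l k hl2
  obtain ⟨w, hw⟩ := exists_ne_one _ hα
  set F := univ.filter (fun v : ZMod (l ^ k) ↦ 2 * (c * ρ) * v = 0) with hF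
  have hβ : ∀ v ∈ F, c * ρ * v = 0 := by
    intro v hv
    rw [hF, mem_filter] at hv
    have h3 : 2 * (c * ρ * v) = 0 := by linear_combination hv.2
    exact (h2.mul_right_eq_zero).1 h3
  have hsq := Gf_sq α (c * ρ)
  rw [← hF] at hsq
  have h4 : ∑ v ∈ F, (ZMod.stdAddChar (α * v - c * ρ * v ^ 2) : ℂ) =
      ∑ v ∈ F, (ZMod.stdAddChar (α * v) : ℂ) := by
    refine sum_congr rfl (fun v hv ↦ ?_)
    congr 1
    linear_combination (-v) * hβ v hv
  have hlk : (l : ZMod (l ^ k)) ^ (2 * s) * l = 0 := by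
    rw [← pow_succ]
    exact pow_zero_of_le l k _ (by omega)
  have h5 : ∑ v ∈ F, (ZMod.stdAddChar (α * v) : ℂ) =
      ZMod.stdAddChar (w * ((l : ZMod (l ^ k)) * α)) * ∑ v ∈ F, (ZMod.stdAddChar (α * v) : ℂ) := by
    rw [mul_sum]
    refine sum_nbij' (fun v ↦ v - l * w) (fun v ↦ v + l * w) ?_ ?_ ?_ ?_ ?_
    · intro v hv
      rw [hF, mem_filter] at hv ⊢
      refine ⟨mem_univ _, ?_⟩
      linear_combination hv.2 - ρ * l * w * hc - ρ * w * hlk
    · intro v hv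
      rw [hF, mem_filter] at hv ⊢
      refine ⟨mem_univ _, ?_⟩
      linear_combination hv.2 + ρ * l * w * hc + ρ * w * hlk
    · intro v _
      simp
    · intro v _
      simp
    · intro v _
      rw [← AddChar.map_add_eq_mul]
      congr 1
      ring
  have h6 : ∑ v ∈ F, (ZMod.stdAddChar (α * v) : ℂ) = 0 := by
    have h7 : (1 - (ZMod.stdAddChar (w * ((l : ZMod (l ^ k)) * α)) : ℂ)) * ∑ v ∈ F, (ZMod.stdAddChar (α * v) : ℂ) = 0 := by
      linear_combination h5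
    rcases mul_eq_zero.1 h7 with h8 | h8
    · exact absurd (by linear_combination -h8) hw
    · exact h8
  rw [h4, h6, mul_zero] at hsq
  have h9 : ‖Gf α (c * ρ)‖ ^ 2 = 0 := by exact_mod_cast hsq
  have h10 : ‖Gf α (c * ρ)‖ = 0 := by
    exact pow_eq_zero_iff (two_ne_zero) |>.1 h9
  exact norm_eq_zero.1 h10

theorem Gf_odd_bound (s : ℕ) (hk : k = 2 * s + 1) (α ρ c : ZMod (l ^ k))
    (hc : 2 * c = (l : ZMod (l ^ k)) ^ (2 * s)) (hρ : IsUnit ρ) :
    ‖Gf α (c * ρ)‖ ^ 2 ≤ (l : ℝ) ^ k * (l : ℝ) ^ (2 * s) := by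
  set F := univ.filter (fun v : ZMod (l ^ k) ↦ 2 * (c * ρ) * v = 0) with hF
  have hsq := Gf_sq α (c * ρ)
  rw [← hF] at hsq
  have hcard : F.card ≤ l ^ (2 * s) := by
    refine (card_le_card ?_).trans (card_ann l k (2 * s) 1 hk)
    intro v hv
    rw [hF, mem_filter] at hv
    rw [mem_filter]
    refine ⟨mem_univ _, ?_⟩
    have h3 : ρ * ((l : ZMod (l ^ k)) ^ (2 * s) * v) = 0 := by
      linear_combination hv.2 - ρ * v * hc
    exact (hρ.mul_right_eq_zero).1 h3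
  have h1 : ‖((‖Gf α (c * ρ)‖ ^ 2 : ℝ) : ℂ)‖ = ‖Gf α (c * ρ)‖ ^ 2 := by
    rw [Complex.norm_real, Real.norm_eq_abs, abs_of_nonneg (by positivity)]
  rw [← h1, hsq, norm_mul]
  have h2 : ‖((l ^ k : ℕ) : ℂ)‖ = (l : ℝ) ^ k := by
    rw [Complex.norm_natCast]
    push_cast
    rfl
  rw [h2]
  apply mul_le_mul_of_nonneg_left _ (by positivity)
  refine (norm_sum_le _ _).trans ?_
  rw [sum_congr rfl (fun v _ ↦ norm_psi _), sum_const, nsmul_eq_mul, mul_one]
  exact_mod_cast hcard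

/-- pointwise bound for the Gauss sums -/
theorem Gf_pt (hl2 : l ≠ 2) (r s : ℕ) (hs : 1 ≤ s) (hk : k = r + s) (hrs : r = s ∨ r = s + 1)
    (ν : ℤ) (h : GI) (hν : ¬ (l : ℤ) ∣ ν) (hh : ¬ dv l h) (c : ZMod (l ^ k))
    (hc : ∃ e, c = (l : ZMod (l ^ k)) ^ (2 * s) * e) (hc2 : 2 * c = (l : ZMod (l ^ k)) ^ (2 * s))
    (x : ZMod (l ^ k) × ZMod (l ^ k)) (hx : x ∈ SolF ν (l ^ k)) :
    ‖Gf ((l : ZMod (l ^ k)) ^ s * A0 l k h x) (c * R0 l k h x)‖ ≤
      if (l : ZMod (l ^ k)) ^ r * A0 l k h x = 0 then (l : ℝ) ^ k * (√(l : ℝ) ^ k / (l : ℝ) ^ r) else 0 := by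
  have hl0 : (0 : ℝ) < l := by exact_mod_cast hl.out.pos
  obtain ⟨e, he⟩ := hc
  rcases hrs with hrs | hrs
  · have hc0 : c = 0 := by
      rw [he, pow_zero_of_le l k _ (by omega), zero_mul]
    have h1 : √(l : ℝ) ^ k = (l : ℝ) ^ r := by
      have : k = 2 * r := by omega
      rw [this, pow_mul, Real.sq_sqrt hl0.le]
    rw [hc0, zero_mul, Gf_zero, h1, div_self (by positivity), mul_one, ← hrs]
    split_ifs
    · rw [Complex.norm_natCast]
      push_cast
      exact le_refl _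
    · simp
  · have hk' : k = 2 * s + 1 := by omega
    by_cases hR : IsUnit (R0 l k h x)
    · by_cases hA : (l : ZMod (l ^ k)) ^ r * A0 l k h x = 0
      · rw [if_pos hA]
        have h1 := Gf_odd_bound l k s hk' ((l : ZMod (l ^ k)) ^ s * A0 l k h x) (R0 l k h x) c hc2 hR
        apply le_of_sq_le_sq _ (by positivity)
        refine h1.trans (le_of_eq ?_)
        have h2 : (√(l : ℝ) ^ k) ^ 2 = (l : ℝ) ^ k := by
          rw [← pow_mul, mul_comm, pow_mul, Real.sq_sqrt hl0.le]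
        rw [mul_pow, div_pow, h2, hrs, hk']
        field_simp
        ring
      · rw [if_neg hA]
        rw [Gf_odd_zero l k hl2 s hk' _ _ c hc2]
        · simp
        · intro h3
          apply hA
          rw [← h3, hrs]
          ring
    · have hA := (one_unit l k (by omega) ν h hν hh x hx).resolve_left hR
      obtain ⟨z, hz⟩ := nonunit l k _ hR
      have h1 : c * R0 l k h x = 0 := by
        have : c * R0 l k h x = (l : ZMod (l ^ k)) ^ (2 * s + 1) * (e * z) := by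
          rw [he, hz]; ring
        rw [this, pow_zero_of_le l k _ (by omega), zero_mul]
      rw [h1, Gf_zero, if_neg]
      · simp only [norm_zero]
        split_ifs
        · positivity
        · exact le_refl _
      · intro h2
        exact not_unit_of_mul l k s (by omega) _ h2 hA

end main

end S3

theorem stT2 : StT2 := by
  intro l hl k hq hl2 hk2 ν h hν hh
  set s := k / 2 with hs
  set r := k - s with hr
  have hs1 : 1 ≤ s := by omega
  have hk : k = r + s := by omega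
  have hrs : r = s ∨ r = s + 1 := by omega
  obtain ⟨half, hhalf⟩ := (S3.two_unit l k hl2).exists_right_inv
  set c : ZMod (l ^ k) := (l : ZMod (l ^ k)) ^ (2 * s) * half with hc
  have hc2 : 2 * c = (l : ZMod (l ^ k)) ^ (2 * s) := by
    rw [hc]
    linear_combination (l : ZMod (l ^ k)) ^ (2 * s) * hhalf
  have hcc : c ^ 2 = 0 := by
    rw [hc, mul_pow, ← pow_mul, S3.pow_zero_of_le l k _ (by omega), zero_mul]
  have hrot : ∀ t : ZMod (l ^ k), TF ν (l ^ k) h = ∑ x ∈ SolF ν (l ^ k),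
      (ZMod.stdAddChar (S3.R0 l k h x) : ℂ) *
        ZMod.stdAddChar ((l : ZMod (l ^ k)) ^ s * S3.A0 l k h x * t - c * S3.R0 l k h x * t ^ 2) := by
    intro t
    rw [← S3.rot_sum ν h (1 - c * t ^ 2) ((l : ZMod (l ^ k)) ^ s * t) (by
      have : ((l : ZMod (l ^ k)) ^ s * t) ^ 2 = (l : ZMod (l ^ k)) ^ (2 * s) * t ^ 2 := by ring
      rw [this]
      linear_combination t ^ 4 * hcc - t ^ 2 * hc2)]
    refine sum_congr rfl (fun x _ ↦ ?_)
    rw [← AddChar.map_add_eq_mul]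
    congr 1
    unfold S3.R0 S3.A0
    ring
  have hsum : ((l ^ k : ℕ) : ℂ) * TF ν (l ^ k) h = ∑ x ∈ SolF ν (l ^ k),
      (ZMod.stdAddChar (S3.R0 l k h x) : ℂ) *
        S3.Gf ((l : ZMod (l ^ k)) ^ s * S3.A0 l k h x) (c * S3.R0 l k h x) := by
    have h1 : ((l ^ k : ℕ) : ℂ) * TF ν (l ^ k) h = ∑ _t : ZMod (l ^ k), TF ν (l ^ k) h := by
      rw [sum_const, card_univ, ZMod.card, nsmul_eq_mul]
    rw [h1, sum_congr rfl (fun t _ ↦ hrot t), sum_comm]
    refine sum_congr rfl (fun x _ ↦ ?_)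
    rw [← mul_sum]
    rfl
  have hl0 : (0 : ℝ) < l := by exact_mod_cast hl.out.pos
  have hnorm : (l : ℝ) ^ k * ‖TF ν (l ^ k) h‖ ≤ (l : ℝ) ^ k * (2 * √(l : ℝ) ^ k) := by
    have h1 : (l : ℝ) ^ k * ‖TF ν (l ^ k) h‖ = ‖((l ^ k : ℕ) : ℂ) * TF ν (l ^ k) h‖ := by
      rw [norm_mul, Complex.norm_natCast]
      push_cast
      rfl
    rw [h1, hsum]
    refine (norm_sum_le _ _).trans ?_
    have h2 : ∀ x ∈ SolF ν (l ^ k), ‖(ZMod.stdAddChar (S3.R0 l k h x) : ℂ) *
        S3.Gf ((l : ZMod (l ^ k)) ^ s * S3.A0 l k h x) (c * S3.R0 l k h x)‖ ≤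
        if (l : ZMod (l ^ k)) ^ r * S3.A0 l k h x = 0 then (l : ℝ) ^ k * (√(l : ℝ) ^ k / (l : ℝ) ^ r)
          else 0 := by
      intro x hx
      rw [norm_mul, S3.norm_psi, one_mul]
      exact S3.Gf_pt l k hl2 r s hs1 hk hrs ν h hν hh c ⟨half, hc⟩ hc2 x hx
    refine (sum_le_sum h2).trans ?_
    rw [← sum_filter, sum_const, nsmul_eq_mul]
    have h3 : ((((SolF ν (l ^ k)).filter
        (fun x ↦ (l : ZMod (l ^ k)) ^ r * S3.A0 l k h x = 0)).card : ℕ) : ℝ) ≤ 2 * (l : ℝ) ^ r := by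
      exact_mod_cast S3.card_stat l k hl2 r s hs1 hk ν h hν hh
    calc _ ≤ 2 * (l : ℝ) ^ r * ((l : ℝ) ^ k * (√(l : ℝ) ^ k / (l : ℝ) ^ r)) :=
          mul_le_mul_of_nonneg_right h3 (by positivity)
      _ = (l : ℝ) ^ k * (2 * √(l : ℝ) ^ k) := by field_simp
  exact le_of_mul_le_mul_left hnorm (by positivity)

end Pool.Agent.TFS
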