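import Pool.Agent.Lib.TFS.StmtsS

/-!
S4: nonsingular solutions modulo `l^k` lift in exactly `l` ways.
-/

set_option autoImplicit false

open Finset

namespace Pool.Agent.TFS

open Pool.Agent.Lib.MP_0e0027_nt

/-- a linear equation over `ZMod l` -/
theorem card_linear (l : ℕ) [Fact l.Prime] (hl2 : l ≠ 2) (a b c : ZMod l) (h : ¬ (a = 0 ∧ b = 0)) :
    (univ.filter (fun t : ZMod l × ZMod l ↦ c + 2 * (a * t.1 + b * t.2) = 0)).card = l := by
  have h2 : (2 : ZMod l) ≠ 0 := by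
    intro h0
    have h3 : ((2 : ℕ) : ZMod l) = 0 := by exact_mod_cast h0
    rw [ZMod.natCast_eq_zero_iff] at h3
    have h4 := Nat.le_of_dvd (by norm_num) h3
    have h5 := (Fact.out : l.Prime).two_le
    omega
  by_cases ha : a = 0
  · have hb : b ≠ 0 := fun hb ↦ h ⟨ha, hb⟩
    have hcard : (univ : Finset (ZMod l)).card = l := by rw [card_univ, ZMod.card]
    refine Eq.trans ?_ hcard
    symm
    apply card_bij (fun s _ ↦ (s, -c / (2 * b)))
    · intro s _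
      rw [mem_filter]
      refine ⟨mem_univ _, ?_⟩
      simp only
      rw [ha]
      field_simp
      ring
    · intro s _ s' _ hs
      exact (Prod.mk.inj hs).1
    · rintro ⟨s, s'⟩ ht
      rw [mem_filter] at ht
      refine ⟨s, mem_univ _, ?_⟩
      have h3 := ht.2
      simp only at h3
      rw [ha] at h3
      rw [Prod.mk.injEq]
      refine ⟨rfl, ?_⟩
      field_simp
      linear_combination -h3
  · have hcard : (univ : Finset (ZMod l)).card = l := by rw [card_univ, ZMod.card]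
    refine Eq.trans ?_ hcard
    symm
    apply card_bij (fun s _ ↦ ((-c - 2 * b * s) / (2 * a), s))
    · intro s _
      rw [mem_filter]
      refine ⟨mem_univ _, ?_⟩
      simp only
      field_simp
      ring
    · intro s _ s' _ hs
      exact (Prod.mk.inj hs).2
    · rintro ⟨s, s'⟩ ht
      rw [mem_filter] at ht
      refine ⟨s', mem_univ _, ?_⟩
      have h3 := ht.2
      simp only at h3
      rw [Prod.mk.injEq]
      refine ⟨?_, rfl⟩
      field_simp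
      linear_combination -h3

theorem dvd_val_iff {l q : ℕ} [NeZero q] (hlq : l ∣ q) (z : ℤ) :
    l ∣ ((z : ZMod q)).val ↔ (l : ℤ) ∣ z := by
  have h1 : (((z : ZMod q)).val : ℤ) = z % q := ZMod.val_intCast z
  rw [← Int.natCast_dvd_natCast, h1]
  have hlq' : (l : ℤ) ∣ q := by exact_mod_cast hlq
  constructor
  · intro h
    have := dvd_add h (hlq'.mul_right (z / q))
    rwa [Int.emod_add_mul_ediv] at this
  · intro h
    have h2 := dvd_sub h (hlq'.mul_right (z / q))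
    have h3 : z - q * (z / q) = z % q := by
      have := Int.emod_add_mul_ediv z q
      linarith
    rwa [h3] at h2

theorem mem_SolS_int {ν : ℤ} {l q : ℕ} [NeZero q] (hlq : l ∣ q) (x y : ℤ) :
    (((x : ZMod q), (y : ZMod q)) : ZMod q × ZMod q) ∈ SolS ν l q ↔
      (q : ℤ) ∣ x ^ 2 + y ^ 2 - ν ∧ ¬ ((l : ℤ) ∣ x ∧ (l : ℤ) ∣ y) := by
  unfold SolS
  rw [mem_filter, dvd_val_iff hlq, dvd_val_iff hlq]
  constructor
  · rintro ⟨_, h1, h2⟩
    refine ⟨?_, h2⟩
    rw [← ZMod.intCast_zmod_eq_zero_iff_dvd]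
    push_cast
    rw [h1, sub_self]
  · rintro ⟨h1, h2⟩
    refine ⟨mem_univ _, ?_, h2⟩
    rw [← ZMod.intCast_zmod_eq_zero_iff_dvd] at h1
    push_cast at h1
    linear_combination h1

theorem int_val {q : ℕ} [NeZero q] (x : ZMod q) : (((x.val : ℕ) : ℤ) : ZMod q) = x := by
  rw [Int.cast_natCast, ZMod.natCast_zmod_val]

/-- the number of lifts -/
theorem lift_card (l : ℕ) [Fact l.Prime] (q q' : ℕ) [NeZero q] [NeZero q']
    (hl2 : l ≠ 2) (hlk : l ∣ q) (hqq' : q' = q * l) (ν : ℤ) (π : ZMod q' →+* ZMod q)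
    (y : ZMod q × ZMod q) (hy : y ∈ SolS ν l q) :
    ((SolS ν l q').filter (fun x ↦ (π x.1, π x.2) = y)).card = l := by
  have hlk1 : l ∣ q' := by rw [hqq']; exact dvd_mul_left _ _
  have hq' : (q' : ℤ) = (q : ℤ) * l := by rw [hqq']; push_cast; ring
  have hq0 : (q : ℤ) ≠ 0 := by exact_mod_cast (NeZero.ne q)
  have hlq : (l : ℤ) ∣ q := by exact_mod_cast hlk
  obtain ⟨y1, y2⟩ := y
  obtain ⟨a, hya⟩ : ∃ a : ℤ, (a : ZMod q) = y1 := ⟨_, int_val y1⟩
  obtain ⟨b, hyb⟩ : ∃ b : ℤ, (b : ZMod q) = y2 := ⟨_, int_val y2⟩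
  have hy' : (((a : ZMod q), (b : ZMod q)) : ZMod q × ZMod q) ∈ SolS ν l q := by
    rw [hya, hyb]; exact hy
  rw [mem_SolS_int hlk] at hy'
  obtain ⟨⟨c, hc⟩, hns⟩ := hy'
  have hπ : ∀ z : ℤ, π (z : ZMod q') = (z : ZMod q) := fun z ↦ map_intCast π z
  have hA := card_linear l hl2 (a : ZMod l) (b : ZMod l) (c : ZMod l) (by
    rintro ⟨h1, h2⟩
    exact hns ⟨(ZMod.intCast_zmod_eq_zero_iff_dvd _ _).1 h1,
      (ZMod.intCast_zmod_eq_zero_iff_dvd _ _).1 h2⟩)
  refine Eq.trans ?_ hA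
  symm
  -- the identity
  have hid : ∀ s1 s2 : ℤ, (a + q * s1) ^ 2 + (b + q * s2) ^ 2 - ν =
      q * (c + 2 * (a * s1 + b * s2)) + q * (q * (s1 ^ 2 + s2 ^ 2)) := by
    intro s1 s2
    linear_combination hc
  have hdiv : ∀ s1 s2 : ℤ, (q' : ℤ) ∣ (a + q * s1) ^ 2 + (b + q * s2) ^ 2 - ν ↔
      (l : ℤ) ∣ c + 2 * (a * s1 + b * s2) := by
    intro s1 s2
    rw [hid, hq', ← mul_add, mul_dvd_mul_iff_left hq0]
    exact (Int.dvd_add_left (hlq.mul_right _))
  have hlin : ∀ s1 s2 : ℤ, (l : ℤ) ∣ c + 2 * (a * s1 + b * s2) ↔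
      (c : ZMod l) + 2 * ((a : ZMod l) * (s1 : ZMod l) + (b : ZMod l) * (s2 : ZMod l)) = 0 := by
    intro s1 s2
    rw [← ZMod.intCast_zmod_eq_zero_iff_dvd]
    push_cast
    rfl
  have hda : ∀ z s : ℤ, (l : ℤ) ∣ z + q * s ↔ (l : ℤ) ∣ z := fun z s ↦
    Int.dvd_add_left (hlq.mul_right _)
  apply card_bij (fun (t : ZMod l × ZMod l) _ ↦
    ((((a + q * ((t.1.val : ℕ) : ℤ) : ℤ) : ZMod q'),
      ((b + q * ((t.2.val : ℕ) : ℤ) : ℤ) : ZMod q')) : ZMod q' × ZMod q'))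
  · intro t ht
    rw [mem_filter] at ht
    rw [mem_filter, mem_SolS_int hlk1, hdiv, hda, hda, hlin, int_val, int_val]
    refine ⟨⟨ht.2, hns⟩, ?_⟩
    rw [hπ, hπ]
    push_cast
    have hqq : ((q : ℕ) : ZMod q) = 0 := ZMod.natCast_self q
    rw [hqq, zero_mul, zero_mul, add_zero, add_zero, hya, hyb]
  · intro t _ s _ hts
    rw [Prod.mk.injEq] at hts
    have key : ∀ (z : ℤ) (u v : ZMod l), ((z + q * ((u.val : ℕ) : ℤ) : ℤ) : ZMod q') =
        ((z + q * ((v.val : ℕ) : ℤ) : ℤ) : ZMod q') → u = v := by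
      intro z u v huv
      rw [← sub_eq_zero, ← Int.cast_sub, ZMod.intCast_zmod_eq_zero_iff_dvd, hq'] at huv
      have h1 : z + q * ((u.val : ℕ) : ℤ) - (z + q * ((v.val : ℕ) : ℤ)) =
          q * (((u.val : ℕ) : ℤ) - ((v.val : ℕ) : ℤ)) := by ring
      rw [h1, mul_dvd_mul_iff_left hq0, ← ZMod.intCast_zmod_eq_zero_iff_dvd, Int.cast_sub,
        int_val, int_val, sub_eq_zero] at huv
      exact huv
    exact Prod.ext (key a _ _ hts.1) (key b _ _ hts.2)
  · rintro ⟨x1, x2⟩ hx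
    rw [mem_filter] at hx
    obtain ⟨hx1, hx2⟩ := hx
    have key : ∀ (x : ZMod q') (w : ℤ), π x = (w : ZMod q) → ∃ s : ZMod l,
        x = ((w + q * ((s.val : ℕ) : ℤ) : ℤ) : ZMod q') := by
      intro x w hxw
      have h1 : π x = (((x.val : ℕ) : ℤ) : ZMod q) := by
        rw [← hπ, int_val]
      rw [hxw] at h1
      have h2 : (q : ℤ) ∣ ((x.val : ℕ) : ℤ) - w := by
        rw [← ZMod.intCast_zmod_eq_zero_iff_dvd, Int.cast_sub, ← h1, sub_self]
      obtain ⟨m, hm⟩ := h2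
      refine ⟨(m : ZMod l), ?_⟩
      have h3 : (l : ℤ) ∣ m - ((((m : ZMod l)).val : ℕ) : ℤ) := by
        rw [← ZMod.intCast_zmod_eq_zero_iff_dvd, Int.cast_sub, int_val, sub_self]
      obtain ⟨m', hm'⟩ := h3
      rw [← int_val x, ← sub_eq_zero, ← Int.cast_sub, ZMod.intCast_zmod_eq_zero_iff_dvd, hq']
      refine ⟨m', ?_⟩
      rw [show ((x.val : ℕ) : ℤ) = w + q * m by linarith]
      linear_combination (q : ℤ) * hm'
    have hx2' : π x1 = y1 ∧ π x2 = y2 := Prod.mk.inj hx2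
    obtain ⟨s1, hs1⟩ := key x1 a (hx2'.1.trans hya.symm)
    obtain ⟨s2, hs2⟩ := key x2 b (hx2'.2.trans hyb.symm)
    refine ⟨(s1, s2), ?_, ?_⟩
    · rw [hs1, hs2, mem_SolS_int hlk1, hdiv, hlin, int_val, int_val] at hx1
      rw [mem_filter]
      exact ⟨mem_univ _, hx1.1⟩
    · rw [Prod.mk.injEq]
      exact ⟨hs1.symm, hs2.symm⟩

theorem stLift : StLift := by
  intro l _ k _ _ hl2 hk ν h
  classical
  have hlk : l ∣ l ^ k := dvd_pow_self l (by omega)
  have hlk1 : l ∣ l ^ (k + 1) := dvd_pow_self l (by omega)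
  have hl0 : (l : ℂ) ≠ 0 := by exact_mod_cast (Fact.out : l.Prime).ne_zero
  have hq0 : ((l ^ k : ℕ) : ℂ) ≠ 0 := by exact_mod_cast (NeZero.ne (l ^ k))
  let π : ZMod (l ^ (k + 1)) →+* ZMod (l ^ k) :=
    ZMod.castHom (pow_dvd_pow l (Nat.le_succ k)) (ZMod (l ^ k))
  have hmaps : ∀ x ∈ SolS ν l (l ^ (k + 1)), (π x.1, π x.2) ∈ SolS ν l (l ^ k) := by
    rintro ⟨x1, x2⟩ hx
    rw [← int_val x1, ← int_val x2, mem_SolS_int hlk1] at hx
    have h1 : π x1 = (((x1.val : ℕ) : ℤ) : ZMod (l ^ k)) := by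
      rw [← map_intCast π, int_val]
    have h2 : π x2 = (((x2.val : ℕ) : ℤ) : ZMod (l ^ k)) := by
      rw [← map_intCast π, int_val]
    simp only
    rw [h1, h2, mem_SolS_int hlk]
    refine ⟨dvd_trans ?_ hx.1, hx.2⟩
    exact_mod_cast pow_dvd_pow l (Nat.le_succ k)
  constructor
  · unfold TS
    rw [← sum_fiberwise_of_maps_to hmaps, mul_sum]
    apply sum_congr rfl
    intro y hy
    have h3 : ∀ x ∈ (SolS ν l (l ^ (k + 1))).filter (fun x ↦ (π x.1, π x.2) = y),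
        ZMod.stdAddChar ((((l : GI) * h).re : ZMod (l ^ (k + 1))) * x.1 +
          (((l : GI) * h).im : ZMod (l ^ (k + 1))) * x.2) =
        ZMod.stdAddChar ((h.re : ZMod (l ^ k)) * y.1 + (h.im : ZMod (l ^ k)) * y.2) := by
      rintro ⟨x1, x2⟩ hx
      rw [mem_filter] at hx
      have hx2' : π x1 = y.1 ∧ π x2 = y.2 := by
        rw [← hx.2]
        exact ⟨rfl, rfl⟩
      have h1 : y.1 = (((x1.val : ℕ) : ℤ) : ZMod (l ^ k)) := by
        rw [← map_intCast π, int_val]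
        exact hx2'.1.symm
      have h2 : y.2 = (((x2.val : ℕ) : ℤ) : ZMod (l ^ k)) := by
        rw [← map_intCast π, int_val]
        exact hx2'.2.symm
      have hre : ((l : GI) * h).re = l * h.re := by simp
      have him : ((l : GI) * h).im = l * h.im := by simp
      rw [hre, him, h1, h2]
      simp only
      have e1 : ((l * h.re : ℤ) : ZMod (l ^ (k + 1))) * x1 + ((l * h.im : ℤ) :
          ZMod (l ^ (k + 1))) * x2 = ((l * (h.re * ((x1.val : ℕ) : ℤ) +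
            h.im * ((x2.val : ℕ) : ℤ)) : ℤ) : ZMod (l ^ (k + 1))) := by
        nth_rewrite 1 [← int_val x1]
        nth_rewrite 1 [← int_val x2]
        push_cast
        ring
      have e2 : (h.re : ZMod (l ^ k)) * (((x1.val : ℕ) : ℤ) : ZMod (l ^ k)) +
          (h.im : ZMod (l ^ k)) * (((x2.val : ℕ) : ℤ) : ZMod (l ^ k)) =
          ((h.re * ((x1.val : ℕ) : ℤ) + h.im * ((x2.val : ℕ) : ℤ) : ℤ) : ZMod (l ^ k)) := by
        push_cast
        ring
      rw [e1, e2, ZMod.stdAddChar_coe, ZMod.stdAddChar_coe]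
      congr 1
      push_cast at hq0 ⊢
      field_simp
      ring
    rw [sum_congr rfl h3, sum_const, lift_card l (l ^ k) (l ^ (k + 1)) hl2 hlk (pow_succ l k) ν π y hy, nsmul_eq_mul]
  · unfold rhoS
    rw [card_eq_sum_card_fiberwise (f := fun x ↦ (π x.1, π x.2)) (t := SolS ν l (l ^ k))
      (fun x hx ↦ hmaps x hx)]
    rw [sum_congr rfl (fun y hy ↦ lift_card l (l ^ k) (l ^ (k + 1)) hl2 hlk (pow_succ l k) ν π y hy), sum_const, smul_eq_mul, mul_comm]

end Pool.Agent.TFS
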