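import Pool.Agent.Lib.TFS.StmtsS

/-!
S5: Kloosterman sums modulo prime powers (blueprint: team-store `tfs_S.md`).
-/

set_option autoImplicit false

open Finset

namespace Pool.Agent.TFS

open Pool.Agent.Lib.MP_0e0027_nt

section gen

variable {q : ℕ} [NeZero q]

theorem S5.kl_shift (m n : ZMod q) (u : (ZMod q)ˣ) :
    Kl m n = ∑ a : (ZMod q)ˣ, ZMod.stdAddChar (m * ((a : ZMod q) * (u : ZMod q)) +
      n * (((a⁻¹ : (ZMod q)ˣ) : ZMod q) * ((u⁻¹ : (ZMod q)ˣ) : ZMod q))) := by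
  unfold Kl
  symm
  apply Fintype.sum_equiv (Equiv.mulRight u)
  intro a
  congr 1
  simp only [Equiv.coe_mulRight, Units.val_mul, mul_inv_rev]
  ring

/-- stationary phase, quadratic residue case -/
theorem S5.kl_sq0 (m n w : ZMod q) (hw : w * w = 0) :
    Kl m n = ∑ a : (ZMod q)ˣ, if w * (m * (a : ZMod q) - n * ((a⁻¹ : (ZMod q)ˣ) : ZMod q)) = 0 then
      ZMod.stdAddChar (m * (a : ZMod q) + n * ((a⁻¹ : (ZMod q)ˣ) : ZMod q)) else 0 := by
  have hq : (q : ℂ) ≠ 0 := by exact_mod_cast NeZero.ne q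
  have h1 : ∀ t : ZMod q, Kl m n = ∑ a : (ZMod q)ˣ,
      (ZMod.stdAddChar (m * (a : ZMod q) + n * ((a⁻¹ : (ZMod q)ˣ) : ZMod q)) : ℂ) *
      ZMod.stdAddChar (t * (w * (m * (a : ZMod q) - n * ((a⁻¹ : (ZMod q)ˣ) : ZMod q)))) := by
    intro t
    rw [S5.kl_shift m n ⟨1 + w * t, 1 - w * t, by linear_combination -t ^ 2 * hw,
      by linear_combination -t ^ 2 * hw⟩]
    refine sum_congr rfl (fun a _ ↦ ?_)
    rw [← AddChar.map_add_eq_mul]
    congr 1
    simp only [Units.inv_mk]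
    ring
  have h2 : (q : ℂ) * Kl m n = ∑ t : ZMod q, Kl m n := by
    rw [sum_const, card_univ, ZMod.card, nsmul_eq_mul]
  have h3 : (q : ℂ) * Kl m n = q * ∑ a : (ZMod q)ˣ,
      if w * (m * (a : ZMod q) - n * ((a⁻¹ : (ZMod q)ˣ) : ZMod q)) = 0 then
      (ZMod.stdAddChar (m * (a : ZMod q) + n * ((a⁻¹ : (ZMod q)ˣ) : ZMod q)) : ℂ) else 0 := by
    rw [h2, sum_congr rfl (fun t _ ↦ h1 t), sum_comm, mul_sum]
    refine sum_congr rfl (fun a _ ↦ ?_)
    rw [← mul_sum, sum_psi]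
    split_ifs <;> ring
  exact mul_left_cancel₀ hq h3

/-- the inner sum in the odd case -/
theorem S5.inner_norm (A B w : ZMod q) (hB : IsUnit B) (h2 : IsUnit (2 : ZMod q)) :
    ‖∑ t : ZMod q, (ZMod.stdAddChar (A * t + w * B * t ^ 2) : ℂ)‖ ^ 2 ≤ q * zc w := by
  set S : ℂ := ∑ t : ZMod q, (ZMod.stdAddChar (A * t + w * B * t ^ 2) : ℂ) with hS
  have h3 : S * (starRingEnd ℂ) S = ∑ d : ZMod q,
      (ZMod.stdAddChar (A * d + w * B * d ^ 2) : ℂ) * (if w * d = 0 then (q : ℂ) else 0) := by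
    rw [hS, map_sum, sum_mul_sum, sum_comm]
    have h4 : ∀ t' : ZMod q, ∑ t : ZMod q, (ZMod.stdAddChar (A * t + w * B * t ^ 2) : ℂ) *
        (starRingEnd ℂ) (ZMod.stdAddChar (A * t' + w * B * t' ^ 2)) =
        ∑ d : ZMod q, (ZMod.stdAddChar (A * d + w * B * d ^ 2) : ℂ) *
          ZMod.stdAddChar (t' * (2 * B * (w * d))) := by
      intro t'
      symm
      apply Fintype.sum_equiv (Equiv.addRight t')
      intro d
      rw [conj_psi, ← AddChar.map_add_eq_mul, ← AddChar.map_add_eq_mul]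
      congr 1
      simp only [Equiv.coe_addRight]
      ring
    rw [sum_congr rfl (fun t' _ ↦ h4 t'), sum_comm]
    refine sum_congr rfl (fun d _ ↦ ?_)
    rw [← mul_sum, sum_psi]
    have h5 : (2 * B * (w * d) = 0) ↔ w * d = 0 := (h2.mul hB).mul_right_eq_zero
    simp only [h5]
  have h6 : ‖S‖ ^ 2 = ‖S * (starRingEnd ℂ) S‖ := by
    rw [norm_mul, RCLike.norm_conj, sq]
  rw [h6, h3]
  refine le_trans (norm_sum_le _ _) ?_
  have h7 : ∀ d : ZMod q, ‖(ZMod.stdAddChar (A * d + w * B * d ^ 2) : ℂ) *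
      (if w * d = 0 then (q : ℂ) else 0)‖ = if w * d = 0 then (q : ℝ) else 0 := by
    intro d
    rw [norm_mul, AddChar.norm_apply, one_mul]
    split_ifs <;> simp
  rw [sum_congr rfl (fun d _ ↦ h7 d), ← sum_filter, sum_const, nsmul_eq_mul, mul_comm]
  rfl

/-- stationary phase, odd exponent -/
theorem S5.kl_odd (m n v w : ZMod q) (c : ZMod q) (hw : w = v * v) (hvw : v * w = 0)
    (hc : c * w = 0)  :
    (q : ℂ) * Kl m n = ∑ a : (ZMod q)ˣ,
      if c * v * (m * (a : ZMod q) - n * ((a⁻¹ : (ZMod q)ˣ) : ZMod q)) = 0 then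
      (ZMod.stdAddChar (m * (a : ZMod q) + n * ((a⁻¹ : (ZMod q)ˣ) : ZMod q)) : ℂ) *
      ∑ t : ZMod q, (ZMod.stdAddChar (v * (m * (a : ZMod q) - n * ((a⁻¹ : (ZMod q)ˣ) : ZMod q)) * t +
        w * (n * ((a⁻¹ : (ZMod q)ˣ) : ZMod q)) * t ^ 2) : ℂ) else 0 := by
  have hq : (q : ℂ) ≠ 0 := by exact_mod_cast NeZero.ne q
  have h1 : ∀ t : ZMod q, Kl m n = ∑ a : (ZMod q)ˣ,
      (ZMod.stdAddChar (m * (a : ZMod q) + n * ((a⁻¹ : (ZMod q)ˣ) : ZMod q)) : ℂ) *
      ZMod.stdAddChar (v * (m * (a : ZMod q) - n * ((a⁻¹ : (ZMod q)ˣ) : ZMod q)) * t +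
        w * (n * ((a⁻¹ : (ZMod q)ˣ) : ZMod q)) * t ^ 2) := by
    intro t
    rw [S5.kl_shift m n ⟨1 + v * t, 1 - v * t + w * t ^ 2,
      by rw [hw] at hvw ⊢; linear_combination t ^ 3 * hvw,
      by rw [hw] at hvw ⊢; linear_combination t ^ 3 * hvw⟩]
    refine sum_congr rfl (fun a _ ↦ ?_)
    rw [← AddChar.map_add_eq_mul]
    congr 1
    simp only [Units.inv_mk]
    ring
  have h2 : (q : ℂ) * Kl m n = ∑ t : ZMod q, Kl m n := by
    rw [sum_const, card_univ, ZMod.card, nsmul_eq_mul]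
  rw [h2, sum_congr rfl (fun t _ ↦ h1 t), sum_comm]
  refine sum_congr rfl (fun a _ ↦ ?_)
  rw [← mul_sum]
  split_ifs with h3
  · rfl
  · rw [mul_eq_zero]
    right
    -- the sum is multiplied by a nontrivial character
    set A := m * (a : ZMod q) - n * ((a⁻¹ : (ZMod q)ˣ) : ZMod q) with hA
    set B := n * ((a⁻¹ : (ZMod q)ˣ) : ZMod q) with hB
    have h4 : ∀ u : ZMod q, ∑ t : ZMod q, (ZMod.stdAddChar (v * A * t + w * B * t ^ 2) : ℂ) =
        ∑ t : ZMod q, (ZMod.stdAddChar (v * A * t + w * B * t ^ 2) : ℂ) *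
          ZMod.stdAddChar (u * (c * v * A)) := by
      intro u
      symm
      apply Fintype.sum_equiv (Equiv.addRight (c * u))
      intro t
      rw [← AddChar.map_add_eq_mul]
      congr 1
      simp only [Equiv.coe_addRight]
      linear_combination -(2 * B * t * u + B * c * u ^ 2) * hc
    have h5 : (q : ℂ) * ∑ t : ZMod q, (ZMod.stdAddChar (v * A * t + w * B * t ^ 2) : ℂ) = 0 := by
      have h6 : (q : ℂ) * ∑ t : ZMod q, (ZMod.stdAddChar (v * A * t + w * B * t ^ 2) : ℂ) =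
          ∑ u : ZMod q, ∑ t : ZMod q, (ZMod.stdAddChar (v * A * t + w * B * t ^ 2) : ℂ) := by
        rw [sum_const, card_univ, ZMod.card, nsmul_eq_mul]
      rw [h6, sum_congr rfl (fun u _ ↦ h4 u)]
      rw [sum_comm]
      apply sum_eq_zero
      intro t _
      rw [← mul_sum, sum_psi, if_neg h3, mul_zero]
    exact (mul_eq_zero.mp h5).resolve_left hq

end gen

section pp

variable {l : ℕ} [Fact l.Prime] {r : ℕ} [NeZero (l ^ r)]

theorem S5.isUnit_iff (hr : r ≠ 0) (x : ZMod (l ^ r)) : IsUnit x ↔ ¬ (l : ZMod (l ^ r)) ∣ x := by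
  have hl : l.Prime := Fact.out
  have hx : x = ((x.val : ℕ) : ZMod (l ^ r)) := (ZMod.natCast_zmod_val x).symm
  constructor
  · rintro h ⟨y, hy⟩
    have h1 : IsUnit ((l : ℕ) : ZMod (l ^ r)) := isUnit_of_dvd_unit ⟨y, hy⟩ h
    rw [ZMod.isUnit_iff_coprime] at h1
    have h2 : l.Coprime l := Nat.Coprime.coprime_dvd_right (dvd_pow_self l hr) h1
    rw [Nat.coprime_self] at h2
    exact hl.one_lt.ne' h2
  · intro h
    rw [hx, ZMod.isUnit_iff_coprime]
    apply Nat.Coprime.pow_right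
    rw [Nat.coprime_comm, Nat.Prime.coprime_iff_not_dvd hl]
    rintro ⟨y, hy⟩
    apply h
    rw [hx, hy]
    push_cast
    exact Dvd.intro _ rfl

theorem S5.isUnit_int (m : ℤ) (hm : ¬ (l : ℤ) ∣ m) : IsUnit (m : ZMod (l ^ r)) := by
  have hl : Prime (l : ℤ) := Nat.prime_iff_prime_int.mp Fact.out
  rw [ZMod.coe_int_isUnit_iff_isCoprime]
  push_cast
  exact ((Prime.coprime_iff_not_dvd hl).mpr hm).pow_left

theorem S5.zc_pow (s : ℕ) (hs : s ≤ r) : zc ((l : ZMod (l ^ r)) ^ s) ≤ l ^ s := by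
  have h := zc_le_gcd (q := l ^ r) (l ^ s)
  rw [Nat.gcd_eq_left (pow_dvd_pow l hs)] at h
  push_cast at h
  exact h

/-- number of square roots -/
theorem S5.count (hl2 : l ≠ 2) (hr : r ≠ 0) (m n w : ZMod (l ^ r)) (hm : IsUnit m) :
    (univ.filter (fun a : (ZMod (l ^ r))ˣ ↦
      w * (m * (a : ZMod (l ^ r)) - n * ((a⁻¹ : (ZMod (l ^ r))ˣ) : ZMod (l ^ r))) = 0)).card ≤
    2 * zc w := by
  have hl : l.Prime := Fact.out
  rcases (univ.filter (fun a : (ZMod (l ^ r))ˣ ↦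
      w * (m * (a : ZMod (l ^ r)) - n * ((a⁻¹ : (ZMod (l ^ r))ˣ) : ZMod (l ^ r))) = 0)).eq_empty_or_nonempty
    with h | h
  · rw [h]; simp
  · obtain ⟨b, hb⟩ := h
    simp only [mem_filter, mem_univ, true_and] at hb
    have h1 : (univ.filter (fun a : (ZMod (l ^ r))ˣ ↦
      w * (m * (a : ZMod (l ^ r)) - n * ((a⁻¹ : (ZMod (l ^ r))ˣ) : ZMod (l ^ r))) = 0)) ⊆
      (univ.filter (fun a : (ZMod (l ^ r))ˣ ↦ w * ((a : ZMod (l ^ r)) - b) = 0)) ∪
      (univ.filter (fun a : (ZMod (l ^ r))ˣ ↦ w * ((a : ZMod (l ^ r)) + b) = 0)) := by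
      intro a ha
      simp only [mem_filter, mem_univ, true_and] at ha
      simp only [mem_union, mem_filter, mem_univ, true_and]
      have ea : (a : ZMod (l ^ r)) * ((a⁻¹ : (ZMod (l ^ r))ˣ) : ZMod (l ^ r)) = 1 := a.mul_inv
      have eb : (b : ZMod (l ^ r)) * ((b⁻¹ : (ZMod (l ^ r))ˣ) : ZMod (l ^ r)) = 1 := b.mul_inv
      have h2 : m * (w * (((a : ZMod (l ^ r)) - b) * ((a : ZMod (l ^ r)) + b))) = 0 := by
        linear_combination (a : ZMod (l ^ r)) * ha - (b : ZMod (l ^ r)) * hb + w * n * ea - w * n * eb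
      rw [hm.mul_right_eq_zero] at h2
      -- one of the two factors is a unit
      have h3 : IsUnit ((a : ZMod (l ^ r)) - b) ∨ IsUnit ((a : ZMod (l ^ r)) + b) := by
        by_contra hcon
        push Not at hcon
        rw [S5.isUnit_iff hr, S5.isUnit_iff hr] at hcon
        push Not at hcon
        have h4 : (l : ZMod (l ^ r)) ∣ 2 * a := by
          have h5 := dvd_add hcon.1 hcon.2
          have h6 : ((a : ZMod (l ^ r)) - b) + ((a : ZMod (l ^ r)) + b) = 2 * a := by ring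
          rwa [h6] at h5
        have h7 : IsUnit (2 * (a : ZMod (l ^ r))) := by
          apply IsUnit.mul _ a.isUnit
          apply isUnit_two
          exact (hl.odd_of_ne_two hl2).pow
        exact ((S5.isUnit_iff hr _).mp h7) h4
      rcases h3 with h3 | h3
      · right
        have h5 : ((a : ZMod (l ^ r)) - b) * (w * ((a : ZMod (l ^ r)) + b)) = 0 := by
          linear_combination h2
        rwa [h3.mul_right_eq_zero] at h5
      · left
        have h5 : ((a : ZMod (l ^ r)) + b) * (w * ((a : ZMod (l ^ r)) - b)) = 0 := by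
          linear_combination h2
        rwa [h3.mul_right_eq_zero] at h5
    refine le_trans (card_le_card h1) (le_trans (card_union_le _ _) ?_)
    rw [two_mul]
    apply add_le_add
    · unfold zc
      apply card_le_card_of_injOn (fun a : (ZMod (l ^ r))ˣ ↦ (a : ZMod (l ^ r)) - b)
      · intro a ha
        simp only [coe_filter, mem_univ, true_and, Set.mem_ofPred_eq] at ha ⊢
        exact ha
      · intro a _ a' _ h
        simp only at h
        apply Units.ext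
        linear_combination h
    · unfold zc
      apply card_le_card_of_injOn (fun a : (ZMod (l ^ r))ˣ ↦ (a : ZMod (l ^ r)) + b)
      · intro a ha
        simp only [coe_filter, mem_univ, true_and, Set.mem_ofPred_eq] at ha ⊢
        exact ha
      · intro a _ a' _ h
        simp only at h
        apply Units.ext
        linear_combination h

theorem S5.bound (hl2 : l ≠ 2) (hr : 2 ≤ r) (m n : ZMod (l ^ r)) (hm : IsUnit m) (hn : IsUnit n) :
    ‖Kl m n‖ ≤ 2 * √(l : ℝ) ^ r := by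
  have hl : l.Prime := Fact.out
  have hr0 : r ≠ 0 := by omega
  have hlpos : (0 : ℝ) < l := by exact_mod_cast hl.pos
  have h0 : ((l : ZMod (l ^ r)) ^ r) = 0 := by
    have := ZMod.natCast_self (l ^ r)
    push_cast at this
    exact this
  have hz : ∀ k : ℕ, r ≤ k → (l : ZMod (l ^ r)) ^ k = 0 := by
    intro k hk
    rw [← Nat.sub_add_cancel hk, pow_add, h0, mul_zero]
  rcases Nat.even_or_odd' r with ⟨s, hs | hs⟩
  · -- even case
    have h1 := S5.kl_sq0 m n ((l : ZMod (l ^ r)) ^ s) (by rw [← pow_add]; exact hz _ (by omega))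
    rw [h1, ← sum_filter]
    refine le_trans (norm_sum_le _ _) ?_
    simp only [AddChar.norm_apply, sum_const, nsmul_eq_mul, mul_one]
    have h2 := S5.count hl2 hr0 m n ((l : ZMod (l ^ r)) ^ s) hm
    have h3 := S5.zc_pow (l := l) (r := r) s (by omega)
    have h4 : √(l : ℝ) ^ r = (l : ℝ) ^ s := by
      rw [hs, pow_mul, Real.sq_sqrt hlpos.le]
    rw [h4]
    have h5 : (univ.filter (fun a : (ZMod (l ^ r))ˣ ↦
      (l : ZMod (l ^ r)) ^ s * (m * (a : ZMod (l ^ r)) - n * ((a⁻¹ : (ZMod (l ^ r))ˣ) : ZMod (l ^ r))) = 0)).card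
      ≤ 2 * l ^ s := le_trans h2 (Nat.mul_le_mul_left 2 h3)
    exact_mod_cast h5
  · -- odd case
    have hs1 : 1 ≤ s := by omega
    have h1 := S5.kl_odd m n ((l : ZMod (l ^ r)) ^ s) ((l : ZMod (l ^ r)) ^ (2 * s))
      (l : ZMod (l ^ r)) (by rw [← pow_add]; congr 1; omega)
      (by rw [← pow_add]; exact hz _ (by omega))
      (by rw [← pow_succ']; exact hz _ (by omega))
    have hq : (0 : ℝ) < ((l ^ r : ℕ) : ℝ) := by exact_mod_cast Nat.pos_of_ne_zero (NeZero.ne _)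
    have hu2 : IsUnit (2 : ZMod (l ^ r)) := isUnit_two (hl.odd_of_ne_two hl2).pow
    have h2 : ((l ^ r : ℕ) : ℝ) * ‖Kl m n‖ ≤ (2 * (l : ℝ) ^ (s + 1)) *
        ((l : ℝ) ^ s * √(l : ℝ) ^ r) := by
      have h3 : ((l ^ r : ℕ) : ℝ) * ‖Kl m n‖ = ‖((l ^ r : ℕ) : ℂ) * Kl m n‖ := by
        rw [norm_mul]
        simp
      rw [h3, h1, ← sum_filter]
      refine le_trans (norm_sum_le _ _) ?_
      have h4 : ∀ a ∈ univ.filter (fun a : (ZMod (l ^ r))ˣ ↦
        (l : ZMod (l ^ r)) * (l : ZMod (l ^ r)) ^ s * (m * (a : ZMod (l ^ r)) -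
          n * ((a⁻¹ : (ZMod (l ^ r))ˣ) : ZMod (l ^ r))) = 0),
          ‖(ZMod.stdAddChar (m * (a : ZMod (l ^ r)) + n * ((a⁻¹ : (ZMod (l ^ r))ˣ) : ZMod (l ^ r))) : ℂ) *
            ∑ t : ZMod (l ^ r), (ZMod.stdAddChar ((l : ZMod (l ^ r)) ^ s *
              (m * (a : ZMod (l ^ r)) - n * ((a⁻¹ : (ZMod (l ^ r))ˣ) : ZMod (l ^ r))) * t +
              (l : ZMod (l ^ r)) ^ (2 * s) * (n * ((a⁻¹ : (ZMod (l ^ r))ˣ) : ZMod (l ^ r))) * t ^ 2) : ℂ)‖ ≤
          (l : ℝ) ^ s * √(l : ℝ) ^ r := by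
        intro a _
        rw [norm_mul, AddChar.norm_apply, one_mul]
        have h5 := S5.inner_norm ((l : ZMod (l ^ r)) ^ s *
              (m * (a : ZMod (l ^ r)) - n * ((a⁻¹ : (ZMod (l ^ r))ˣ) : ZMod (l ^ r))))
              (n * ((a⁻¹ : (ZMod (l ^ r))ˣ) : ZMod (l ^ r))) ((l : ZMod (l ^ r)) ^ (2 * s))
              (hn.mul (a⁻¹).isUnit) hu2
        have h6 := S5.zc_pow (l := l) (r := r) (2 * s) (by omega)
        have h7 : (zc ((l : ZMod (l ^ r)) ^ (2 * s)) : ℝ) ≤ (l : ℝ) ^ (2 * s) := by exact_mod_cast h6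
        refine abs_le_of_sq_le_sq' ?_ (by positivity) |>.2
        refine le_trans h5 ?_
        have h8 : ((l : ℝ) ^ s * √(l : ℝ) ^ r) ^ 2 = ((l ^ r : ℕ) : ℝ) * (l : ℝ) ^ (2 * s) := by
          rw [mul_pow, ← pow_mul, ← pow_mul, mul_comm r 2, pow_mul (√(l : ℝ)), Real.sq_sqrt hlpos.le]
          push_cast
          ring
        rw [h8]
        exact mul_le_mul_of_nonneg_left h7 hq.le
      refine le_trans (sum_le_sum h4) ?_
      rw [sum_const, nsmul_eq_mul]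
      apply mul_le_mul_of_nonneg_right _ (by positivity)
      have h9 := S5.count hl2 hr0 m n ((l : ZMod (l ^ r)) * (l : ZMod (l ^ r)) ^ s) hm
      have h10 := S5.zc_pow (l := l) (r := r) (s + 1) (by omega)
      rw [pow_succ'] at h10
      have h11 := le_trans h9 (Nat.mul_le_mul_left 2 h10)
      exact_mod_cast h11
    have h12 : (2 * (l : ℝ) ^ (s + 1)) * ((l : ℝ) ^ s * √(l : ℝ) ^ r) =
        ((l ^ r : ℕ) : ℝ) * (2 * √(l : ℝ) ^ r) := by
      have : (l : ℝ) ^ r = (l : ℝ) ^ (s + 1) * (l : ℝ) ^ s := by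
        rw [← pow_add]; congr 1; omega
      push_cast
      rw [this]
      ring
    rw [h12] at h2
    exact le_of_mul_le_mul_left h2 hq

theorem S5.pow_ne (hr : 1 ≤ r) : (l : ZMod (l ^ r)) ^ (r - 1) ≠ 0 := by
  have hl : l.Prime := Fact.out
  intro h
  have h1 : ((l ^ (r - 1) : ℕ) : ZMod (l ^ r)) = 0 := by push_cast; exact h
  rw [ZMod.natCast_eq_zero_iff] at h1
  have h2 := Nat.le_of_dvd (pow_pos hl.pos _) h1
  have h3 : l ^ (r - 1) < l ^ r := Nat.pow_lt_pow_right hl.one_lt (by omega)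
  omega

theorem S5.vanish (hr : 2 ≤ r) (m n : ZMod (l ^ r))
    (h : (IsUnit m ∧ (l : ZMod (l ^ r)) ∣ n) ∨ (IsUnit n ∧ (l : ZMod (l ^ r)) ∣ m)) :
    Kl m n = 0 := by
  have hl : l.Prime := Fact.out
  have h0 : ((l : ZMod (l ^ r)) ^ r) = 0 := by
    have := ZMod.natCast_self (l ^ r)
    push_cast at this
    exact this
  have hz : ∀ k : ℕ, r ≤ k → (l : ZMod (l ^ r)) ^ k = 0 := by
    intro k hk
    rw [← Nat.sub_add_cancel hk, pow_add, h0, mul_zero]
  have h3 : (l : ZMod (l ^ r)) ^ (r - 1) * l = 0 := by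
    rw [← pow_succ]; exact hz _ (by omega)
  rw [S5.kl_sq0 m n ((l : ZMod (l ^ r)) ^ (r - 1)) (by rw [← pow_add]; exact hz _ (by omega))]
  apply sum_eq_zero
  intro a _
  rw [if_neg]
  intro h1
  rcases h with ⟨hu, y, hy⟩ | ⟨hu, y, hy⟩
  · have h2 : (m * (a : ZMod (l ^ r))) * (l : ZMod (l ^ r)) ^ (r - 1) = 0 := by
      rw [hy] at h1
      linear_combination h1 + y * ((a⁻¹ : (ZMod (l ^ r))ˣ) : ZMod (l ^ r)) * h3
    rw [(hu.mul a.isUnit).mul_right_eq_zero] at h2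
    exact S5.pow_ne (by omega) h2
  · have h2 : (n * ((a⁻¹ : (ZMod (l ^ r))ˣ) : ZMod (l ^ r))) * (l : ZMod (l ^ r)) ^ (r - 1) = 0 := by
      rw [hy] at h1
      linear_combination -h1 + y * (a : ZMod (l ^ r)) * h3
    rw [(hu.mul (a⁻¹).isUnit).mul_right_eq_zero] at h2
    exact S5.pow_ne (by omega) h2

end pp

/-- S5(c): both arguments divisible by `l` -/
theorem S5.red (l : ℕ) [Fact l.Prime] (s : ℕ) [NeZero (l ^ (s + 1))] [NeZero (l ^ s)] (hs : 1 ≤ s)
    (m n : ℤ) : Kl ((l * m : ℤ) : ZMod (l ^ (s + 1))) ((l * n : ℤ) : ZMod (l ^ (s + 1))) =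
      l * Kl (m : ZMod (l ^ s)) (n : ZMod (l ^ s)) := by
  have hl : l.Prime := Fact.out
  have hdvd : l ^ s ∣ l ^ (s + 1) := pow_dvd_pow l (by omega)
  set f : (ZMod (l ^ (s + 1)))ˣ →* (ZMod (l ^ s))ˣ := ZMod.unitsMap hdvd with hf
  have hsurj : Function.Surjective f := ZMod.unitsMap_surjective hdvd
  -- the character
  have hchar : ∀ y : ℤ, (ZMod.stdAddChar ((l * y : ℤ) : ZMod (l ^ (s + 1))) : ℂ) =
      ZMod.stdAddChar (y : ZMod (l ^ s)) := by
    intro y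
    rw [ZMod.stdAddChar_coe, ZMod.stdAddChar_coe]
    congr 1
    have : (l : ℂ) ≠ 0 := by exact_mod_cast hl.ne_zero
    push_cast
    rw [pow_succ]
    field_simp
  have hval : ∀ a : (ZMod (l ^ (s + 1)))ˣ,
      (ZMod.stdAddChar (((l * m : ℤ) : ZMod (l ^ (s + 1))) * (a : ZMod (l ^ (s + 1))) +
        ((l * n : ℤ) : ZMod (l ^ (s + 1))) * ((a⁻¹ : (ZMod (l ^ (s + 1)))ˣ) : ZMod (l ^ (s + 1)))) : ℂ) =
      ZMod.stdAddChar ((m : ZMod (l ^ s)) * (f a : ZMod (l ^ s)) +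
        (n : ZMod (l ^ s)) * (((f a)⁻¹ : (ZMod (l ^ s))ˣ) : ZMod (l ^ s))) := by
    intro a
    have h1 : (f a : ZMod (l ^ s)) = ((a : ZMod (l ^ (s + 1))).val : ZMod (l ^ s)) := by
      rw [hf, ZMod.unitsMap_val, ZMod.cast_eq_val]
    have h2 : (((f a)⁻¹ : (ZMod (l ^ s))ˣ) : ZMod (l ^ s)) =
        (((a⁻¹ : (ZMod (l ^ (s + 1)))ˣ) : ZMod (l ^ (s + 1))).val : ZMod (l ^ s)) := by
      rw [← map_inv, hf, ZMod.unitsMap_val, ZMod.cast_eq_val]
    rw [h1, h2]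
    have h3 := hchar (m * (a : ZMod (l ^ (s + 1))).val +
      n * (((a⁻¹ : (ZMod (l ^ (s + 1)))ˣ) : ZMod (l ^ (s + 1))).val : ℤ))
    push_cast at h3 ⊢
    rw [ZMod.natCast_zmod_val, ZMod.natCast_zmod_val] at h3
    rw [← h3]
    congr 1
    ring
  unfold Kl
  rw [sum_congr rfl (fun a _ ↦ hval a)]
  -- fibres
  rw [← sum_fiberwise_of_maps_to (g := f) (t := univ) (fun _ _ ↦ mem_univ _)]
  rw [mul_sum]
  refine sum_congr rfl (fun b _ ↦ ?_)
  have hcard : (univ.filter (fun a : (ZMod (l ^ (s + 1)))ˣ ↦ f a = b)).card = l := by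
    have h1 : ∀ b : (ZMod (l ^ s))ˣ, (univ.filter (fun a : (ZMod (l ^ (s + 1)))ˣ ↦ f a = b)).card =
        (univ.filter (fun a : (ZMod (l ^ (s + 1)))ˣ ↦ f a = 1)).card := by
      intro b
      exact MonoidHom.card_fiber_eq_of_mem_range f (by simpa using hsurj b) ⟨1, map_one f⟩
    have h2 : (univ : Finset (ZMod (l ^ (s + 1)))ˣ).card = ∑ b : (ZMod (l ^ s))ˣ,
        (univ.filter (fun a : (ZMod (l ^ (s + 1)))ˣ ↦ f a = b)).card :=
      card_eq_sum_card_fiberwise (fun _ _ ↦ mem_univ _)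
    rw [sum_congr rfl (fun b _ ↦ h1 b), sum_const, card_univ, card_univ, smul_eq_mul,
      ZMod.card_units_eq_totient, ZMod.card_units_eq_totient,
      Nat.totient_prime_pow hl (by omega), Nat.totient_prime_pow hl (by omega)] at h2
    rw [h1]
    have h3 : l ^ (s - 1) * (l - 1) * l = l ^ (s - 1) * (l - 1) *
        (univ.filter (fun a : (ZMod (l ^ (s + 1)))ˣ ↦ f a = 1)).card := by
      rw [← h2]
      have : s + 1 - 1 = (s - 1) + 1 := by omega
      rw [this, pow_succ]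
      ring
    have h4 : 0 < l ^ (s - 1) * (l - 1) := by
      have := hl.two_le
      exact Nat.mul_pos (pow_pos hl.pos _) (by omega)
    exact (Nat.eq_of_mul_eq_mul_left h4 h3).symm
  rw [sum_congr rfl (g := fun _ ↦ (ZMod.stdAddChar ((m : ZMod (l ^ s)) * (b : ZMod (l ^ s)) +
        (n : ZMod (l ^ s)) * ((b⁻¹ : (ZMod (l ^ s))ˣ) : ZMod (l ^ s))) : ℂ))]
  · rw [sum_const, hcard, nsmul_eq_mul]
  · intro a ha
    rw [mem_filter] at ha
    rw [ha.2]

theorem stKpp : StKpp := by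
  intro l _ r _ hl2 hr m n
  have hl : l.Prime := Fact.out
  have hdiv : ∀ k : ℤ, (l : ℤ) ∣ k → (l : ZMod (l ^ r)) ∣ (k : ZMod (l ^ r)) := by
    rintro k ⟨y, hy⟩
    exact ⟨(y : ZMod (l ^ r)), by rw [hy]; push_cast; rfl⟩
  refine ⟨fun hm hn ↦ ?_, fun hm hn ↦ ?_, fun hm hn ↦ ?_, ?_⟩
  · exact S5.bound hl2 hr _ _ (S5.isUnit_int m hm) (S5.isUnit_int n hn)
  · exact S5.vanish hr _ _ (Or.inr ⟨S5.isUnit_int n hn, hdiv m hm⟩)
  · exact S5.vanish hr _ _ (Or.inl ⟨S5.isUnit_int m hm, hdiv n hn⟩)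
  · intro _
    obtain ⟨s, rfl⟩ : ∃ s, r = s + 1 := ⟨r - 1, by omega⟩
    exact S5.red l s (by omega) m n

end Pool.Agent.TFS
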