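import Pool.Agent.Lib.TFS.StmtsS
import Pool.Agent.Lib.TFS.S5

/-!
S6: nonsingular solutions for split `l` dividing `ν` (blueprint: team-store `tfs_S.md`).
-/

set_option autoImplicit false

open Finset

namespace Pool.Agent.TFS

open Pool.Agent.Lib.MP_0e0027_nt

/-! ### Generalities on `Dom` -/

theorem S6.dom_mk {ι : Type} [Fintype ι] (T : GI → ℝ) (q : ℕ) (B : ℝ) (γ : ι → GI) (c : ι → ℝ)
    (h1 : ∀ i, γ i ≠ 0 ∧ 0 ≤ c i ∧ γ i ∣ (q : GI))
    (h2 : ∀ h : GI, T h ≤ ∑ i, open Classical in if γ i ∣ h then c i else 0)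
    (h3 : ∑ i, c i / (N2 (γ i) : ℝ) ≤ B) : Dom T q B := by
  classical
  let e := Fintype.equivFin ι
  refine ⟨Fintype.card ι, fun i ↦ γ (e.symm i), fun i ↦ c (e.symm i), fun i ↦ h1 _, fun h ↦ ?_, ?_⟩
  · refine le_trans (h2 h) (le_of_eq ?_)
    exact (Equiv.sum_comp e.symm (fun i ↦ if γ i ∣ h then c i else 0)).symm
  · refine le_trans (le_of_eq ?_) h3
    exact Equiv.sum_comp e.symm (fun i ↦ c i / (N2 (γ i) : ℝ))

theorem S6.dom_mono {T T' : GI → ℝ} {q : ℕ} {B B' : ℝ} (h : Dom T' q B) (hT : ∀ h, T h ≤ T' h)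
    (hB : B ≤ B') : Dom T q B' := by
  obtain ⟨k, γ, c, h1, h2, h3⟩ := h
  exact ⟨k, γ, c, h1, fun h ↦ le_trans (hT h) (h2 h), le_trans h3 hB⟩

theorem S6.dom_add {T T' : GI → ℝ} {q : ℕ} {B B' : ℝ} (h : Dom T q B) (h' : Dom T' q B') :
    Dom (fun h ↦ T h + T' h) q (B + B') := by
  classical
  obtain ⟨k, γ, c, h1, h2, h3⟩ := h
  obtain ⟨k', γ', c', h1', h2', h3'⟩ := h'
  refine S6.dom_mk (ι := Fin k ⊕ Fin k') _ q _ (Sum.elim γ γ') (Sum.elim c c') ?_ ?_ ?_
  · rintro (i | i)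
    · exact h1 i
    · exact h1' i
  · intro h
    rw [Fintype.sum_sum_type]
    exact add_le_add (h2 h) (h2' h)
  · rw [Fintype.sum_sum_type]
    exact add_le_add h3 h3'

/-! ### Gaussian primes -/

theorem S6.N2_mul (x y : GI) : N2 (x * y) = N2 x * N2 y := by
  unfold N2
  rw [Zsqrtd.re_mul, Zsqrtd.im_mul]
  ring

theorem S6.N2_pow (x : GI) (i : ℕ) : N2 (x ^ i) = N2 x ^ i := by
  induction i with
  | zero => simp [N2]
  | succ i ih => rw [pow_succ, S6.N2_mul, ih, pow_succ]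

theorem S6.mul_star (x : GI) : x * star x = ((N2 x : ℤ) : GI) := by
  rw [← Zsqrtd.norm_eq_mul_conj]
  congr 1
  unfold Zsqrtd.norm N2
  ring

/-- data: a Gaussian prime above `l` and a root of `-1` modulo `l ^ k` -/
structure S6.Dat (l k : ℕ) (π : GI) (j : ℤ) : Prop where
  norm : N2 π = l
  root : (l : ℤ) ^ k ∣ j ^ 2 + 1
  phi : (l : ℤ) ∣ π.re + j * π.im

theorem S6.phi_pow {l k : ℕ} {π : GI} {j : ℤ} (hD : S6.Dat l k π j) (i : ℕ) (hi : i ≤ k) :
    (l : ℤ) ^ i ∣ (π ^ i).re + j * (π ^ i).im := by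
  induction i with
  | zero => simp
  | succ i ih =>
    have h1 := ih (by omega)
    rw [pow_succ π, Zsqrtd.re_mul, Zsqrtd.im_mul]
    have h2 : (π ^ i).re * π.re + -1 * (π ^ i).im * π.im + j * ((π ^ i).re * π.im + (π ^ i).im * π.re) =
        ((π ^ i).re + j * (π ^ i).im) * (π.re + j * π.im) - (j ^ 2 + 1) * ((π ^ i).im * π.im) := by
      ring
    rw [h2]
    apply dvd_sub
    · rw [pow_succ]
      exact mul_dvd_mul h1 hD.phi
    · exact Dvd.dvd.mul_right ((pow_dvd_pow _ hi).trans hD.root) _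

theorem S6.dvd_iff {l k : ℕ} (hl : 0 < l) {π : GI} {j : ℤ} (hD : S6.Dat l k π j) (i : ℕ) (hi : i ≤ k)
    (h : GI) : π ^ i ∣ h ↔ (l : ℤ) ^ i ∣ h.re + j * h.im := by
  have hk : (l : ℤ) ^ i ∣ j ^ 2 + 1 := (pow_dvd_pow _ hi).trans hD.root
  have hp := S6.phi_pow hD i hi
  constructor
  · rintro ⟨g, rfl⟩
    rw [Zsqrtd.re_mul, Zsqrtd.im_mul]
    have h2 : (π ^ i).re * g.re + -1 * (π ^ i).im * g.im + j * ((π ^ i).re * g.im + (π ^ i).im * g.re) =
        ((π ^ i).re + j * (π ^ i).im) * (g.re + j * g.im) - (j ^ 2 + 1) * ((π ^ i).im * g.im) := by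
      ring
    rw [h2]
    exact dvd_sub (Dvd.dvd.mul_right hp _) (Dvd.dvd.mul_right hk _)
  · intro hh
    have hP : N2 (π ^ i) = (l : ℤ) ^ i := by rw [S6.N2_pow, hD.norm]
    have h0 : star (π ^ i) ≠ 0 := by
      intro h
      have h1 : π ^ i = 0 := by
        rw [← star_star (π ^ i), h, star_zero]
      rw [h1] at hP
      simp only [N2, Zsqrtd.re_zero, Zsqrtd.im_zero] at hP
      have : (0 : ℤ) < (l : ℤ) ^ i := by positivity
      omega
    have h3 : (((l : ℤ) ^ i : ℤ) : GI) ∣ h * star (π ^ i) := by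
      rw [Zsqrtd.intCast_dvd]
      rw [Zsqrtd.re_mul, Zsqrtd.im_mul, Zsqrtd.re_star, Zsqrtd.im_star]
      constructor
      · have h4 : h.re * (π ^ i).re + -1 * h.im * -(π ^ i).im =
          (π ^ i).re * (h.re + j * h.im) - j * h.im * ((π ^ i).re + j * (π ^ i).im) +
            (j ^ 2 + 1) * ((π ^ i).im * h.im) := by ring
        rw [h4]
        exact dvd_add (dvd_sub (Dvd.dvd.mul_left hh _) (Dvd.dvd.mul_left hp _)) (Dvd.dvd.mul_right hk _)
      · have h4 : h.re * -(π ^ i).im + h.im * (π ^ i).re =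
          h.im * ((π ^ i).re + j * (π ^ i).im) - (π ^ i).im * (h.re + j * h.im) := by ring
        rw [h4]
        exact dvd_sub (Dvd.dvd.mul_left hp _) (Dvd.dvd.mul_left hh _)
    rw [← hP, ← S6.mul_star] at h3
    exact (mul_dvd_mul_iff_right h0).mp h3

theorem S6.Dat.star {l k : ℕ} {π : GI} {j : ℤ} (hD : S6.Dat l k π j) :
    S6.Dat l k (star π) (-j) := by
  refine ⟨?_, ?_, ?_⟩
  · rw [← hD.norm]
    unfold N2
    rw [Zsqrtd.re_star, Zsqrtd.im_star]
    ring
  · have := hD.root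
    rwa [neg_sq]
  · rw [Zsqrtd.re_star, Zsqrtd.im_star]
    have h := hD.phi
    have e : π.re + -j * -π.im = π.re + j * π.im := by ring
    rwa [e]

theorem S6.exists_dat (l : ℕ) [Fact l.Prime] (hl : l % 4 = 1) (k : ℕ) (hk : 1 ≤ k) :
    ∃ (π : GI) (j : ℤ), S6.Dat l k π j := by
  have hp : l.Prime := Fact.out
  have hp' : Prime (l : ℤ) := Nat.prime_iff_prime_int.mp hp
  obtain ⟨a, b, hab⟩ := Nat.Prime.sq_add_sq (p := l) (by omega)
  have hab' : (a : ℤ) ^ 2 + (b : ℤ) ^ 2 = l := by exact_mod_cast hab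
  -- a root of -1
  obtain ⟨y, hy⟩ : IsSquare (-1 : ZMod l) := ZMod.exists_sq_eq_neg_one_iff.mpr (by omega)
  have h1 : (l : ℤ) ∣ (y.val : ℤ) ^ 2 - (-1) := by
    rw [← ZMod.intCast_zmod_eq_zero_iff_dvd]
    push_cast
    rw [ZMod.natCast_zmod_val, sq, ← hy]
    ring
  have h2 := dvd_sub_pow_of_dvd_sub h1 (k - 1)
  rw [Nat.sub_add_cancel hk] at h2
  have hodd : Odd (l ^ (k - 1)) := by
    apply Odd.pow
    rw [Nat.odd_iff]; omega
  rw [hodd.neg_one_pow, ← pow_mul, mul_comm 2, pow_mul, sub_neg_eq_add] at h2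
  set j : ℤ := (y.val : ℤ) ^ l ^ (k - 1) with hj
  have h3 : (l : ℤ) ∣ ((a : ℤ) + j * b) * (a - j * b) := by
    have e : ((a : ℤ) + j * b) * (a - j * b) = (a ^ 2 + b ^ 2) - (j ^ 2 + 1) * b ^ 2 := by ring
    rw [e, hab']
    exact dvd_sub dvd_rfl (Dvd.dvd.mul_right ((dvd_pow_self _ (by omega)).trans h2) _)
  rcases hp'.dvd_or_dvd h3 with h4 | h4
  · exact ⟨⟨a, b⟩, j, ⟨hab', h2, h4⟩⟩
  · refine ⟨⟨a, b⟩, -j, ⟨hab', by rwa [neg_sq], ?_⟩⟩
    have e : (a : ℤ) + -j * b = a - j * b := by ring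
    simpa only [e] using h4

/-! ### One family -/

theorem S6.sum_tel (s : ℝ) (k e : ℕ) (he : 1 ≤ e) :
    ∑ i ∈ range e, (if i = 0 then 2 * s ^ (k + 1) else 2 * s ^ k * (s ^ (i + 1) - s ^ i)) =
      2 * s ^ (k + e) := by
  induction e, he using Nat.le_induction with
  | base => simp
  | succ e he ih =>
    rw [sum_range_succ, ih, if_neg (by omega)]
    ring

theorem S6.sum_tel2 (s : ℝ) (hs : 0 < s) (k e : ℕ) (he : 1 ≤ e) :
    ∑ i ∈ range e, (if i = 0 then 2 * s ^ (k + 1) else 2 * s ^ k * (s ^ (i + 1) - s ^ i)) /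
      (s ^ 2) ^ (i + 1) = 2 * s ^ k * (1 / s + 1 / s ^ 2 - 1 / s ^ (e + 1)) := by
  induction e, he using Nat.le_induction with
  | base =>
    simp only [sum_range_one, if_true]
    field_simp
    ring
  | succ e he ih =>
    rw [sum_range_succ, ih, if_neg (by omega)]
    have : (s ^ 2) ^ (e + 1) = s ^ (e + 1) * s ^ (e + 1) := by rw [← pow_mul]; ring
    rw [this]
    field_simp
    ring

theorem S6.family (l : ℕ) (hl : 1 < l) (k : ℕ) (hk : 1 ≤ k) {π : GI} {j : ℤ}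
    (hD : S6.Dat l k π j) (T : GI → ℝ)
    (hT : ∀ h : GI, ∀ e ≤ k, (l : ℤ) ^ e ∣ h.re + j * h.im →
      (e = k ∨ ¬ (l : ℤ) ^ (e + 1) ∣ h.re + j * h.im) →
      T h ≤ if e = 0 then 0 else 2 * √(l : ℝ) ^ (k + e)) :
    Dom T (l ^ k) (2 * √(l : ℝ) ^ k * (1 / √(l : ℝ) + 1 / l)) := by
  classical
  have hlpos : (0 : ℝ) < l := by exact_mod_cast (by omega : 0 < l)
  have hs : 0 < √(l : ℝ) := Real.sqrt_pos.mpr hlpos
  have hs1 : 1 ≤ √(l : ℝ) := by
    rw [Real.one_le_sqrt]; exact_mod_cast hl.le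
  have hs2 : √(l : ℝ) ^ 2 = l := Real.sq_sqrt hlpos.le
  set s := √(l : ℝ) with hsdef
  have hN : ∀ i : ℕ, N2 (π ^ i) = (l : ℤ) ^ i := fun i ↦ by rw [S6.N2_pow, hD.norm]
  refine S6.dom_mk (ι := Fin k) T (l ^ k) _ (fun i ↦ π ^ (i.val + 1))
    (fun i ↦ if i.val = 0 then 2 * s ^ (k + 1) else 2 * s ^ k * (s ^ (i.val + 1) - s ^ i.val)) ?_ ?_ ?_
  · intro i
    refine ⟨?_, ?_, ?_⟩
    · intro h
      have h1 := hN (i.val + 1)
      rw [h] at h1
      simp only [N2, Zsqrtd.re_zero, Zsqrtd.im_zero] at h1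
      have : (0 : ℤ) < (l : ℤ) ^ (i.val + 1) := by
        have : (0 : ℤ) < l := by omega
        positivity
      omega
    · split_ifs with h
      · positivity
      · apply mul_nonneg (by positivity)
        have := pow_le_pow_right₀ hs1 (Nat.le_succ i.val)
        simpa using this
    · refine (pow_dvd_pow π (show i.val + 1 ≤ k by omega)).trans ?_
      refine ⟨star (π ^ k), ?_⟩
      rw [S6.mul_star, hN]
      push_cast
      rfl
  · intro h
    -- the exact exponent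
    obtain ⟨e, he, hd, hm⟩ : ∃ e ≤ k, (l : ℤ) ^ e ∣ h.re + j * h.im ∧
        (e = k ∨ ¬ (l : ℤ) ^ (e + 1) ∣ h.re + j * h.im) := by
      let P : ℕ → Prop := fun i ↦ (l : ℤ) ^ i ∣ h.re + j * h.im
      have hP0 : P 0 := by simp [P]
      refine ⟨Nat.findGreatest P k, Nat.findGreatest_le k, Nat.findGreatest_spec (Nat.zero_le k) hP0, ?_⟩
      by_cases hc : Nat.findGreatest P k = k
      · left; exact hc
      · right
        apply Nat.findGreatest_is_greatest (P := P) (Nat.lt_succ_self _)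
        have := Nat.findGreatest_le (P := P) k
        omega
    refine le_trans (hT h e he hd hm) ?_
    have h1 : ∀ i : Fin k, (if π ^ (i.val + 1) ∣ h then
        (if i.val = 0 then 2 * s ^ (k + 1) else 2 * s ^ k * (s ^ (i.val + 1) - s ^ i.val)) else 0) =
        if i.val < e then
        (if i.val = 0 then 2 * s ^ (k + 1) else 2 * s ^ k * (s ^ (i.val + 1) - s ^ i.val)) else 0 := by
      intro i
      have h2 : π ^ (i.val + 1) ∣ h ↔ i.val < e := by
        rw [S6.dvd_iff (by omega) hD _ (by omega)]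
        constructor
        · intro h3
          by_contra hcon
          rcases hm with hm | hm
          · omega
          · exact hm ((pow_dvd_pow _ (by omega)).trans h3)
        · intro h3
          exact (pow_dvd_pow _ (by omega)).trans hd
      simp only [h2]
    rw [sum_congr rfl (fun i _ ↦ h1 i)]
    rw [Fin.sum_univ_eq_sum_range (fun i ↦ if i < e then
        (if i = 0 then 2 * s ^ (k + 1) else 2 * s ^ k * (s ^ (i + 1) - s ^ i)) else 0) k]
    rw [← sum_filter]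
    have h2 : (range k).filter (fun i ↦ i < e) = range e := by
      ext i
      simp only [mem_filter, mem_range]
      omega
    rw [h2]
    split_ifs with h3
    · rw [h3]; simp
    · rw [S6.sum_tel s k e (by omega)]
  · have h1 : ∀ i : Fin k, (if i.val = 0 then 2 * s ^ (k + 1) else
        2 * s ^ k * (s ^ (i.val + 1) - s ^ i.val)) / ((N2 (π ^ (i.val + 1)) : ℤ) : ℝ) =
        (if i.val = 0 then 2 * s ^ (k + 1) else
        2 * s ^ k * (s ^ (i.val + 1) - s ^ i.val)) / (s ^ 2) ^ (i.val + 1) := by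
      intro i
      rw [hN, hs2]
      push_cast
      rfl
    rw [sum_congr rfl (fun i _ ↦ h1 i)]
    rw [Fin.sum_univ_eq_sum_range (fun i ↦ (if i = 0 then 2 * s ^ (k + 1) else
        2 * s ^ k * (s ^ (i + 1) - s ^ i)) / (s ^ 2) ^ (i + 1)) k]
    rw [S6.sum_tel2 s hs k k hk, ← hs2]
    apply mul_le_mul_of_nonneg_left _ (by positivity)
    have : 0 ≤ 1 / s ^ (k + 1) := by positivity
    linarith

/-! ### Kloosterman sums -/

theorem S6.kl_one (hW : StWeil) (l : ℕ) [Fact l.Prime] (hl2 : l ≠ 2) (m n : ZMod l) :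
    ‖Kl m n‖ ≤ if m = 0 then 2 * (l : ℝ) else 2 * √(l : ℝ) := by
  have hp : l.Prime := Fact.out
  have hlpos : (0 : ℝ) < l := by exact_mod_cast hp.pos
  have hs1 : 1 ≤ √(l : ℝ) := by
    rw [Real.one_le_sqrt]; exact_mod_cast hp.one_lt.le
  have htriv : ‖Kl m n‖ ≤ l := by
    unfold Kl
    refine le_trans (norm_sum_le _ _) ?_
    simp only [AddChar.norm_apply, sum_const, card_univ, nsmul_eq_mul, mul_one]
    rw [ZMod.card_units_eq_totient]
    exact_mod_cast Nat.totient_le l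
  split_ifs with hm
  · linarith
  · by_cases hn : n = 0
    · -- a Ramanujan sum
      have h1 : Kl m n = -1 := by
        unfold Kl
        rw [hn]
        have h2 : ∑ x : ZMod l, (ZMod.stdAddChar (x * m) : ℂ) = 0 := by
          rw [sum_psi, if_neg hm]
        have h3 : ∑ x : ZMod l, (ZMod.stdAddChar (x * m) : ℂ) =
            1 + ∑ a : (ZMod l)ˣ, (ZMod.stdAddChar ((a : ZMod l) * m) : ℂ) := by
          rw [← sum_erase_add (a := (0 : ZMod l)) univ _ (mem_univ _)]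
          rw [add_comm]
          congr 1
          · simp
          · symm
            apply sum_bij (fun (a : (ZMod l)ˣ) _ ↦ (a : ZMod l))
            · intro a _
              simp
            · intro a _ b _ h
              exact Units.ext h
            · intro b hb
              rw [mem_erase] at hb
              exact ⟨Units.mk0 b hb.1, mem_univ _, rfl⟩
            · intro a _
              rfl
        rw [h3] at h2
        have h4 : ∀ a : (ZMod l)ˣ, (ZMod.stdAddChar (m * (a : ZMod l) + 0 *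
          ((a⁻¹ : (ZMod l)ˣ) : ZMod l)) : ℂ) = ZMod.stdAddChar ((a : ZMod l) * m) := by
          intro a
          congr 1
          ring
        rw [sum_congr rfl (fun a _ ↦ h4 a)]
        linear_combination h2
      rw [h1, norm_neg, norm_one]
      linarith
    · exact hW l hl2 m n hm hn

theorem S6.kl_gen (hW : StWeil) (h5 : StKpp) (l : ℕ) [Fact l.Prime] (hl2 : l ≠ 2) (k : ℕ)
    (hk : 1 ≤ k) : ∀ [NeZero (l ^ k)] (m n : ℤ) (e : ℕ), e ≤ k → (l : ℤ) ^ e ∣ m →
      (e = k ∨ ¬ (l : ℤ) ^ (e + 1) ∣ m) →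
      ‖Kl (m : ZMod (l ^ k)) (n : ZMod (l ^ k))‖ ≤ 2 * √(l : ℝ) ^ (k + e) := by
  have hp : l.Prime := Fact.out
  have hlpos : (0 : ℝ) < l := by exact_mod_cast hp.pos
  have hs1 : 1 ≤ √(l : ℝ) := by
    rw [Real.one_le_sqrt]; exact_mod_cast hp.one_lt.le
  have hs2 : √(l : ℝ) ^ 2 = l := Real.sq_sqrt hlpos.le
  induction k, hk using Nat.le_induction with
  | base =>
    intro _ m n e he hd hm
    have key : ∀ (q : ℕ) [NeZero q], q = l → ‖Kl (m : ZMod q) (n : ZMod q)‖ ≤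
        2 * √(l : ℝ) ^ (1 + e) := by
      intro q _ hq
      subst hq
      have h1 := S6.kl_one hW q hl2 (m : ZMod q) (n : ZMod q)
      refine le_trans h1 ?_
      rcases Nat.eq_zero_or_pos e with he0 | he0
      · subst he0
        have h2 : ¬ (m : ZMod q) = 0 := by
          rw [ZMod.intCast_zmod_eq_zero_iff_dvd]
          rcases hm with hm | hm
          · omega
          · simpa using hm
        rw [if_neg h2]
        simp
      · have he1 : e = 1 := by omega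
        subst he1
        have h2 : (m : ZMod q) = 0 := by
          rw [ZMod.intCast_zmod_eq_zero_iff_dvd]
          simpa using hd
        rw [if_pos h2]
        have : √(q : ℝ) ^ (1 + 1) = q := hs2
        rw [this]
    exact key (l ^ 1) (pow_one l)
  | succ k hk ih =>
    intro _ m n e he hd hm
    have : NeZero (l ^ k) := ⟨pow_ne_zero _ hp.ne_zero⟩
    have h1 := h5 l (k + 1) hl2 (by omega)
    by_cases hlm : (l : ℤ) ∣ m
    · have he0 : 1 ≤ e := by
        by_contra hcon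
        have : e = 0 := by omega
        subst this
        rcases hm with hm | hm
        · omega
        · exact hm (by simpa using hlm)
      by_cases hln : (l : ℤ) ∣ n
      · obtain ⟨m', rfl⟩ := hlm
        obtain ⟨n', rfl⟩ := hln
        have h2 : Kl ((l * m' : ℤ) : ZMod (l ^ (k + 1))) ((l * n' : ℤ) : ZMod (l ^ (k + 1))) =
            l * Kl (m' : ZMod (l ^ k)) (n' : ZMod (l ^ k)) := (h1 m' n').2.2.2
        rw [h2, norm_mul]
        have hl0 : (l : ℤ) ≠ 0 := by exact_mod_cast hp.ne_zero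
        obtain ⟨e', rfl⟩ : ∃ e', e = e' + 1 := ⟨e - 1, by omega⟩
        have h3 := ih m' n' e' (by omega)
          (by rw [pow_succ'] at hd; exact (mul_dvd_mul_iff_left hl0).mp hd)
          (by
            rcases hm with hm | hm
            · left; omega
            · right
              intro hc
              apply hm
              rw [pow_succ']
              exact mul_dvd_mul_left _ hc)
        have h4 : ‖(l : ℂ)‖ = l := by simp
        rw [h4]
        calc (l : ℝ) * ‖Kl (m' : ZMod (l ^ k)) (n' : ZMod (l ^ k))‖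
            ≤ (l : ℝ) * (2 * √(l : ℝ) ^ (k + e')) := mul_le_mul_of_nonneg_left h3 hlpos.le
          _ = √(l : ℝ) ^ 2 * (2 * √(l : ℝ) ^ (k + e')) := by rw [hs2]
          _ = 2 * √(l : ℝ) ^ (k + 1 + (e' + 1)) := by ring
      · rw [(h1 m n).2.1 hlm hln, norm_zero]
        positivity
    · have he0 : e = 0 := by
        by_contra hcon
        apply hlm
        exact (dvd_pow_self _ hcon).trans hd
      subst he0
      by_cases hln : (l : ℤ) ∣ n
      · rw [(h1 m n).2.2.1 hlm hln, norm_zero]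
        positivity
      · exact (h1 m n).1 hlm hln

/-! ### The two Kloosterman sums -/

section split

variable {l : ℕ} [Fact l.Prime] {k : ℕ} [NeZero (l ^ k)]

theorem S6.isUnit_val (hk : k ≠ 0) (x : ZMod (l ^ k)) : IsUnit x ↔ ¬ l ∣ x.val := by
  have hl : l.Prime := Fact.out
  have hx : x = ((x.val : ℕ) : ZMod (l ^ k)) := (ZMod.natCast_zmod_val x).symm
  have h1 : IsUnit x ↔ IsUnit ((x.val : ℕ) : ZMod (l ^ k)) := by rw [← hx]
  rw [h1, ZMod.isUnit_iff_coprime, Nat.coprime_pow_right_iff (Nat.pos_of_ne_zero hk), Nat.coprime_comm,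
    Nat.Prime.coprime_iff_not_dvd hl]

omit [Fact l.Prime] in
/-- half of the solutions -/
theorem S6.half (i2 j ν h1 h2 : ZMod (l ^ k)) (hi : 2 * i2 = 1) (hj : j ^ 2 + 1 = 0) :
    ∑ x ∈ univ.filter (fun x : ZMod (l ^ k) × ZMod (l ^ k) ↦ x.1 ^ 2 + x.2 ^ 2 = ν ∧
      IsUnit (x.1 + j * x.2)), (ZMod.stdAddChar (h1 * x.1 + h2 * x.2) : ℂ) =
    Kl (i2 * (h1 - j * h2)) (i2 * (h1 + j * h2) * ν) := by
  unfold Kl
  symm
  apply sum_bij (fun (a : (ZMod (l ^ k))ˣ) _ ↦
    (i2 * ((a : ZMod (l ^ k)) + ν * ((a⁻¹ : (ZMod (l ^ k))ˣ) : ZMod (l ^ k))),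
      -(j * i2) * ((a : ZMod (l ^ k)) - ν * ((a⁻¹ : (ZMod (l ^ k))ˣ) : ZMod (l ^ k)))))
  · intro a _
    have ea : (a : ZMod (l ^ k)) * ((a⁻¹ : (ZMod (l ^ k))ˣ) : ZMod (l ^ k)) = 1 := a.mul_inv
    set b := ((a⁻¹ : (ZMod (l ^ k))ˣ) : ZMod (l ^ k)) with hb
    simp only [mem_filter, mem_univ, true_and]
    constructor
    · linear_combination (4 * i2 ^ 2 * ν) * ea + (i2 ^ 2 * (a - ν * b) ^ 2) * hj + (ν * (2 * i2 + 1)) * hi
    · have e : i2 * ((a : ZMod (l ^ k)) + ν * b) + j * (-(j * i2) * ((a : ZMod (l ^ k)) - ν * b)) = a := by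
        linear_combination (-(i2 * (a - ν * b))) * hj + (a : ZMod (l ^ k)) * hi
      rw [e]
      exact a.isUnit
  · intro a _ a' _ h
    simp only [Prod.mk.injEq] at h
    obtain ⟨e1, e2⟩ := h
    apply Units.ext
    set b := ((a⁻¹ : (ZMod (l ^ k))ˣ) : ZMod (l ^ k)) with hb
    set b' := ((a'⁻¹ : (ZMod (l ^ k))ˣ) : ZMod (l ^ k)) with hb'
    have e3 : i2 * ((a : ZMod (l ^ k)) + ν * b) + j * (-(j * i2) * ((a : ZMod (l ^ k)) - ν * b)) = a := by
      linear_combination (-(i2 * (a - ν * b))) * hj + (a : ZMod (l ^ k)) * hi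
    have e4 : i2 * ((a' : ZMod (l ^ k)) + ν * b') + j * (-(j * i2) * ((a' : ZMod (l ^ k)) - ν * b')) = a' := by
      linear_combination (-(i2 * (a' - ν * b'))) * hj + (a' : ZMod (l ^ k)) * hi
    rw [← e3, ← e4, e1, e2]
  · intro x hx
    simp only [mem_filter, mem_univ, true_and] at hx
    obtain ⟨hx1, u, hu⟩ := hx
    refine ⟨u, mem_univ _, ?_⟩
    have eu : (u : ZMod (l ^ k)) * ((u⁻¹ : (ZMod (l ^ k))ˣ) : ZMod (l ^ k)) = 1 := u.mul_inv
    set v := ((u⁻¹ : (ZMod (l ^ k))ˣ) : ZMod (l ^ k)) with hv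
    have e1 : ν * v = x.1 - j * x.2 := by
      have e2 : (u : ZMod (l ^ k)) * (ν * v) = u * (x.1 - j * x.2) := by
        rw [hu]
        rw [hu] at eu
        linear_combination ν * eu - hx1 + x.2 ^ 2 * hj
      exact u.isUnit.mul_left_cancel e2
    rw [e1, hu]
    ext
    · simp only
      linear_combination x.1 * hi
    · simp only
      linear_combination (-(2 * i2 * x.2)) * hj + x.2 * hi
  · intro a _
    congr 1
    ring

theorem S6.TS_eq (hl2 : l ≠ 2) (hk : k ≠ 0) (j : ℤ) (hj : (l : ℤ) ^ k ∣ j ^ 2 + 1) (ν : ℤ)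
    (hν : (l : ℤ) ∣ ν) (h : GI) (i2 : ZMod (l ^ k)) (hi : 2 * i2 = 1) :
    TS ν l (l ^ k) h =
      Kl (i2 * ((h.re : ZMod (l ^ k)) - (j : ZMod (l ^ k)) * (h.im : ZMod (l ^ k))))
        (i2 * ((h.re : ZMod (l ^ k)) + (j : ZMod (l ^ k)) * (h.im : ZMod (l ^ k))) * (ν : ZMod (l ^ k))) +
      Kl (i2 * ((h.re : ZMod (l ^ k)) + (j : ZMod (l ^ k)) * (h.im : ZMod (l ^ k))))
        (i2 * ((h.re : ZMod (l ^ k)) - (j : ZMod (l ^ k)) * (h.im : ZMod (l ^ k))) * (ν : ZMod (l ^ k))) := by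
  have hp : l.Prime := Fact.out
  have hj' : (j : ZMod (l ^ k)) ^ 2 + 1 = 0 := by
    have h1 : ((j ^ 2 + 1 : ℤ) : ZMod (l ^ k)) = 0 := by
      rw [ZMod.intCast_zmod_eq_zero_iff_dvd]
      push_cast
      exact hj
    push_cast at h1
    exact h1
  have hν' : (l : ZMod (l ^ k)) ∣ (ν : ZMod (l ^ k)) := by
    obtain ⟨y, hy⟩ := hν
    exact ⟨(y : ZMod (l ^ k)), by rw [hy]; push_cast; rfl⟩
  have h1 := S6.half i2 (j : ZMod (l ^ k)) (ν : ZMod (l ^ k)) (h.re : ZMod (l ^ k))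
    (h.im : ZMod (l ^ k)) hi hj'
  have h2 := S6.half i2 (-(j : ZMod (l ^ k))) (ν : ZMod (l ^ k)) (h.re : ZMod (l ^ k))
    (h.im : ZMod (l ^ k)) hi (by rw [neg_sq]; exact hj')
  simp only [neg_mul, sub_neg_eq_add, ← sub_eq_add_neg] at h2
  rw [← h1, ← h2]
  unfold TS SolS
  rw [← sum_union]
  · apply sum_congr _ (fun _ _ ↦ rfl)
    ext x
    simp only [mem_filter, mem_univ, true_and, mem_union]
    have hu2 : IsUnit (2 : ZMod (l ^ k)) := isUnit_two (hp.odd_of_ne_two hl2).pow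
    have huj : IsUnit (j : ZMod (l ^ k)) := IsUnit.of_mul_eq_one (-(j : ZMod (l ^ k)))
      (by linear_combination -hj')
    have e1 : l ∣ x.1.val ↔ (l : ZMod (l ^ k)) ∣ x.1 := by
      rw [← not_iff_not, ← S6.isUnit_val hk, S5.isUnit_iff hk]
    have e2 : l ∣ x.2.val ↔ (l : ZMod (l ^ k)) ∣ x.2 := by
      rw [← not_iff_not, ← S6.isUnit_val hk, S5.isUnit_iff hk]
    rw [e1, e2, S5.isUnit_iff hk, S5.isUnit_iff hk]
    rw [← and_or_left]
    apply and_congr_right
    intro _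
    rw [← not_and_or, not_iff_not]
    constructor
    · rintro ⟨ha, hb⟩
      exact ⟨dvd_add ha (Dvd.dvd.mul_left hb _), dvd_sub ha (Dvd.dvd.mul_left hb _)⟩
    · rintro ⟨ha, hb⟩
      constructor
      · have h3 := dvd_add ha hb
        have e3 : x.1 + (j : ZMod (l ^ k)) * x.2 + (x.1 - (j : ZMod (l ^ k)) * x.2) = 2 * x.1 := by ring
        rw [e3] at h3
        exact (hu2.dvd_mul_left).mp h3
      · have h3 := dvd_sub ha hb
        have e3 : x.1 + (j : ZMod (l ^ k)) * x.2 - (x.1 - (j : ZMod (l ^ k)) * x.2) = (2 * j) * x.2 := by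
          ring
        rw [e3] at h3
        exact ((hu2.mul huj).dvd_mul_left).mp h3
  · rw [disjoint_left]
    intro x hx hx'
    simp only [mem_filter, mem_univ, true_and] at hx hx'
    have h3 : IsUnit (ν : ZMod (l ^ k)) := by
      have h4 := hx.2.mul hx'.2
      have e : (x.1 + (j : ZMod (l ^ k)) * x.2) * (x.1 - (j : ZMod (l ^ k)) * x.2) = (ν : ZMod (l ^ k)) := by
        linear_combination hx.1 - x.2 ^ 2 * hj'
      rwa [e] at h4
    exact ((S5.isUnit_iff hk _).mp h3) hν'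

end split

theorem S6.kl_case (hW : StWeil) (h5 : StKpp) (l : ℕ) [Fact l.Prime] (hl2 : l ≠ 2) (k : ℕ)
    (hk : 2 ≤ k) [NeZero (l ^ k)] (c a b : ℤ) (hc : ¬ (l : ℤ) ∣ c) (hb : (l : ℤ) ∣ b) (e : ℕ)
    (he : e ≤ k) (hd : (l : ℤ) ^ e ∣ a) (hm : e = k ∨ ¬ (l : ℤ) ^ (e + 1) ∣ a) :
    ‖Kl ((c * a : ℤ) : ZMod (l ^ k)) ((b : ℤ) : ZMod (l ^ k))‖ ≤
      if e = 0 then 0 else 2 * √(l : ℝ) ^ (k + e) := by
  have hp : l.Prime := Fact.out
  have hp' : Prime (l : ℤ) := Nat.prime_iff_prime_int.mp hp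
  have hcop : ∀ i : ℕ, IsCoprime ((l : ℤ) ^ i) c := fun i ↦
    ((Prime.coprime_iff_not_dvd hp').mpr hc).pow_left
  split_ifs with h0
  · subst h0
    have h1 : ¬ (l : ℤ) ∣ c * a := by
      intro h2
      rcases hm with hm | hm
      · omega
      · rcases hp'.dvd_or_dvd h2 with h3 | h3
        · exact hc h3
        · exact hm (by simpa using h3)
    rw [(h5 l k hl2 hk (c * a) b).2.2.1 h1 hb, norm_zero]
  · apply S6.kl_gen hW h5 l hl2 k (by omega) (c * a) b e he (Dvd.dvd.mul_left hd _)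
    rcases hm with hm | hm
    · left; exact hm
    · right
      intro h2
      exact hm ((hcop _).dvd_of_dvd_mul_left h2)

theorem stSplit (hW : StWeil) (h5 : StKpp) : StSplit := by
  intro l _ k _ hl4 hk ν hν
  have hp : l.Prime := Fact.out
  have hp' : Prime (l : ℤ) := Nat.prime_iff_prime_int.mp hp
  have hl2 : l ≠ 2 := by omega
  have hlpos : (0 : ℝ) < l := by exact_mod_cast hp.pos
  obtain ⟨π, j, hD⟩ := S6.exists_dat l hl4 k (by omega)
  -- the inverse of two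
  set c : ℤ := ((l : ℤ) ^ k + 1) / 2 with hcdef
  have hodd : ((l : ℤ) ^ k) % 2 = 1 := by
    have : Odd ((l : ℤ) ^ k) := by
      apply Odd.pow
      rw [Int.odd_iff]; omega
    exact Int.odd_iff.mp this
  have hc2 : 2 * c = (l : ℤ) ^ k + 1 := by omega
  have hc : ¬ (l : ℤ) ∣ c := by
    intro h
    have h1 : (l : ℤ) ∣ (l : ℤ) ^ k + 1 := by rw [← hc2]; exact Dvd.dvd.mul_left h _
    have h2 : (l : ℤ) ∣ 1 := (dvd_add_right (dvd_pow_self _ (by omega))).mp h1
    exact hp'.not_dvd_one h2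
  have hi : 2 * (c : ZMod (l ^ k)) = 1 := by
    have h1 : ((2 * c : ℤ) : ZMod (l ^ k)) = (((l : ℤ) ^ k + 1 : ℤ) : ZMod (l ^ k)) := by rw [hc2]
    push_cast at h1
    have h2 : (l : ZMod (l ^ k)) ^ k = 0 := by
      have := ZMod.natCast_self (l ^ k)
      push_cast at this
      exact this
    rw [h1, h2, zero_add]
  have hTS : ∀ h : GI, TS ν l (l ^ k) h =
      Kl ((c * (h.re + -j * h.im) : ℤ) : ZMod (l ^ k)) ((c * (h.re + j * h.im) * ν : ℤ) : ZMod (l ^ k)) +
      Kl ((c * (h.re + j * h.im) : ℤ) : ZMod (l ^ k)) ((c * (h.re + -j * h.im) * ν : ℤ) : ZMod (l ^ k)) := by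
    intro h
    rw [S6.TS_eq hl2 (by omega) j hD.root ν hν h (c : ZMod (l ^ k)) hi]
    push_cast
    simp only [neg_mul, ← sub_eq_add_neg]
  have hA := S6.family l hp.one_lt k (by omega) hD.star
    (fun h ↦ ‖Kl ((c * (h.re + -j * h.im) : ℤ) : ZMod (l ^ k))
      ((c * (h.re + j * h.im) * ν : ℤ) : ZMod (l ^ k))‖)
    (fun h e he hd hm ↦ S6.kl_case hW h5 l hl2 k hk c _ _ hc (Dvd.dvd.mul_left hν _) e he hd hm)
  have hB := S6.family l hp.one_lt k (by omega) hD
    (fun h ↦ ‖Kl ((c * (h.re + j * h.im) : ℤ) : ZMod (l ^ k))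
      ((c * (h.re + -j * h.im) * ν : ℤ) : ZMod (l ^ k))‖)
    (fun h e he hd hm ↦ S6.kl_case hW h5 l hl2 k hk c _ _ hc (Dvd.dvd.mul_left hν _) e he hd hm)
  refine S6.dom_mono (S6.dom_add hA hB) (fun h ↦ ?_) (le_of_eq ?_)
  · simp only [hTS]
    exact norm_add_le _ _
  · ring

end Pool.Agent.TFS
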