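import Pool.Agent.Lib.TFS.StmtsS

/-!
Group S, module S7: domination modulo `p^k` for the nonsingular solutions.
-/

set_option autoImplicit false

open Finset

namespace Pool.Agent.TFS

open Pool.Agent.Lib.MP_0e0027_nt

namespace S7

theorem rc_prime (p : ℕ) (hp : p.Prime) (k : ℤ) (hk : ¬ (p : ℤ) ∣ k) : rc p k = -1 := by
  have h1 := sum_rc k p hp.pos
  have h2 := sum_rc k 1 one_pos
  rw [hp.sum_divisors, if_neg hk] at h1
  rw [Nat.divisors_one, sum_singleton, if_pos (by simp)] at h2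
  push_cast at h2
  omega

/-- the trivial Kloosterman sum -/
theorem Kl_zero_prime (p : ℕ) [Fact p.Prime] (k : ℤ) (hk : ¬ (p : ℤ) ∣ k) :
    Kl (k : ZMod p) 0 = -1 := by
  rw [Kl_zero_eq, rc_prime p Fact.out k hk]
  simp

theorem TF_congr (ν : ℤ) (q q' : ℕ) [NeZero q] [NeZero q'] (h : q = q') (x : GI) :
    TF ν q x = TF ν q' x := by
  subst h
  rfl

theorem TS_congr (ν : ℤ) (p q q' : ℕ) [NeZero q] [NeZero q'] (h : q = q') (x : GI) :
    TS ν p q x = TS ν p q' x := by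
  subst h
  rfl

theorem dvd_of_sol (ν : ℤ) (p q : ℕ) [NeZero q] (hpq : p ∣ q) (x : ZMod q × ZMod q)
    (hx : x.1 ^ 2 + x.2 ^ 2 = (ν : ZMod q)) :
    (p : ℤ) ∣ (x.1.val : ℤ) ^ 2 + (x.2.val : ℤ) ^ 2 - ν := by
  have h1 : (((x.1.val : ℤ) ^ 2 + (x.2.val : ℤ) ^ 2 - ν : ℤ) : ZMod q) = 0 := by
    push_cast
    rw [ZMod.natCast_zmod_val, ZMod.natCast_zmod_val, hx, sub_self]
  have h2 := (ZMod.intCast_zmod_eq_zero_iff_dvd _ q).mp h1
  exact (Int.natCast_dvd_natCast.mpr hpq).trans h2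

theorem SolS_eq (ν : ℤ) (p q : ℕ) [NeZero q] (hpq : p ∣ q) (hν : ¬ (p : ℤ) ∣ ν) :
    SolS ν p q = SolF ν q := by
  unfold SolS SolF
  apply filter_congr
  intro x _
  constructor
  · exact fun h => h.1
  · intro h
    refine ⟨h, fun hd => hν ?_⟩
    have h1 := dvd_of_sol ν p q hpq x h
    have h2 : (p : ℤ) ∣ (x.1.val : ℤ) := Int.natCast_dvd_natCast.mpr hd.1
    have h3 : (p : ℤ) ∣ (x.2.val : ℤ) := Int.natCast_dvd_natCast.mpr hd.2
    have h4 : (p : ℤ) ∣ (x.1.val : ℤ) ^ 2 + (x.2.val : ℤ) ^ 2 :=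
      dvd_add (h2.trans (dvd_pow_self _ two_ne_zero)) (h3.trans (dvd_pow_self _ two_ne_zero))
    have h5 := dvd_sub h4 h1
    simpa using h5

theorem TS_eq (ν : ℤ) (p q : ℕ) [NeZero q] (hpq : p ∣ q) (hν : ¬ (p : ℤ) ∣ ν) (h : GI) :
    TS ν p q h = TF ν q h := by
  unfold TS TF
  rw [SolS_eq ν p q hpq hν]

theorem SolS_empty (ν : ℤ) (p q : ℕ) [Fact p.Prime] [NeZero q] (hpq : p ∣ q) (hν : (p : ℤ) ∣ ν)
    (h3 : p % 4 = 3) : SolS ν p q = ∅ := by
  unfold SolS
  apply filter_eq_empty_iff.mpr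
  intro x _ hx
  have h1 := dvd_of_sol ν p q hpq x hx.1
  have h2 : (p : ℤ) ∣ (x.1.val : ℤ) ^ 2 + (x.2.val : ℤ) ^ 2 := by
    have := dvd_add h1 hν
    simpa using this
  have h4 := (ZMod.intCast_zmod_eq_zero_iff_dvd _ p).mpr h2
  push_cast at h4
  have h5 : ((x.2.val : ℕ) : ZMod p) = 0 := by
    by_contra hy
    exact ZMod.mod_four_ne_three_of_sq_eq_neg_sq' (x := ((x.1.val : ℕ) : ZMod p)) hy
      (by linear_combination h4) h3
  have h6 : ((x.1.val : ℕ) : ZMod p) = 0 := by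
    rw [h5] at h4
    have h7 : ((x.1.val : ℕ) : ZMod p) ^ 2 = 0 := by linear_combination h4
    exact pow_eq_zero_iff two_ne_zero |>.mp h7
  exact hx.2 ⟨(ZMod.natCast_eq_zero_iff _ _).mp h6, (ZMod.natCast_eq_zero_iff _ _).mp h5⟩

theorem lift_pow (h4 : StLift) (p : ℕ) [Fact p.Prime] (hp : p ≠ 2) (ν : ℤ) (k : ℕ) (hk : 1 ≤ k)
    (v : ℕ) (h : GI) :
    TS ν p (p ^ (k + v)) ((p : GI) ^ v * h) = (p : ℂ) ^ v * TS ν p (p ^ k) h := by
  induction v with
  | zero => simp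
  | succ v ih =>
    have h1 := (h4 p (k + v) hp (by omega) ν ((p : GI) ^ v * h)).1
    have h2 : (p : GI) ^ (v + 1) * h = (p : GI) * ((p : GI) ^ v * h) := by ring
    have h3 : TS ν p (p ^ (k + (v + 1))) ((p : GI) ^ (v + 1) * h) =
        TS ν p (p ^ (k + v + 1)) ((p : GI) ^ (v + 1) * h) :=
      TS_congr ν p _ _ (by rw [add_assoc]) _
    rw [h3, h2, h1, ih]
    ring

theorem ch_abs_le (p : ℕ) : |ch p| ≤ 1 := by
  unfold ch
  have : ∀ a : ZMod 4, |((ZMod.χ₄ a : ℤ) : ℝ)| ≤ 1 := by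
    intro a
    have h1 : ∀ a : ZMod 4, |ZMod.χ₄ a| ≤ 1 := by decide
    exact_mod_cast h1 a
  exact this _

/-- the sums modulo a prime -/
theorem TF_prime (hW : StWeil) (h1 : StT1) (p : ℕ) [Fact p.Prime] (hp : p ≠ 2) (ν : ℤ)
    (hν : ¬ (p : ℤ) ∣ ν) (h : GI) :
    ‖TF ν p h‖ ≤ (if dv p h then (p : ℝ) + 1 else 2 * √(p : ℝ)) := by
  have hp3 : 3 ≤ p := by
    have := (Fact.out : p.Prime).two_le
    omega
  have hν0 : (ν : ZMod p) ≠ 0 := fun h0 => hν ((ZMod.intCast_zmod_eq_zero_iff_dvd _ p).mp h0)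
  have hs : 1 ≤ √(p : ℝ) := by
    rw [← Real.sqrt_one]
    exact Real.sqrt_le_sqrt (by exact_mod_cast (by omega : 1 ≤ p))
  have hch : ‖(ch p : ℂ)‖ ≤ 1 := by
    rw [Complex.norm_real]
    exact ch_abs_le p
  rw [h1 p hp ν h]
  by_cases hd : dv p h
  · rw [if_pos hd, if_pos hd]
    have h2 : ((N2 h : ZMod p) * (4 : ZMod p)⁻¹) = 0 := by
      have h3 : (p : ℤ) ∣ N2 h :=
        dvd_add (hd.1.trans (dvd_pow_self _ two_ne_zero)) (hd.2.trans (dvd_pow_self _ two_ne_zero))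
      rw [(ZMod.intCast_zmod_eq_zero_iff_dvd _ p).mpr h3, zero_mul]
    rw [h2, Kl_zero_prime p ν hν]
    refine (norm_add_le _ _).trans ?_
    rw [norm_mul, norm_neg, norm_one, mul_one, Complex.norm_natCast]
    linarith
  · rw [if_neg hd, if_neg hd, zero_add, norm_mul]
    have h3 : ‖Kl (ν : ZMod p) ((N2 h : ZMod p) * (4 : ZMod p)⁻¹)‖ ≤ 2 * √(p : ℝ) := by
      by_cases hb : ((N2 h : ZMod p) * (4 : ZMod p)⁻¹) = 0
      · rw [hb, Kl_zero_prime p ν hν, norm_neg, norm_one]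
        linarith
      · exact hW p hp _ _ hν0 hb
    calc ‖(ch p : ℂ)‖ * ‖Kl (ν : ZMod p) ((N2 h : ZMod p) * (4 : ZMod p)⁻¹)‖
        ≤ 1 * ‖Kl (ν : ZMod p) ((N2 h : ZMod p) * (4 : ZMod p)⁻¹)‖ :=
          mul_le_mul_of_nonneg_right hch (norm_nonneg _)
      _ ≤ 2 * √(p : ℝ) := by rw [one_mul]; exact h3

theorem dvd_iff_dv (n : ℕ) (h : GI) : (n : GI) ∣ h ↔ dv n h := by
  have := Zsqrtd.intCast_dvd (d := -1) (n : ℤ) h
  unfold dv
  rw [← this]
  simp

/-- the pointwise bound -/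
theorem pointwise (hW : StWeil) (h1 : StT1) (h2 : StT2) (h4 : StLift) (p : ℕ) [Fact p.Prime]
    (hp : p ≠ 2) (ν : ℤ) (hν : ¬ (p : ℤ) ∣ ν) (k : ℕ) (hk : 2 ≤ k) (h : GI) (v : ℕ) (hv : v ≤ k)
    (hd : (p : GI) ^ v ∣ h) (hnd : v < k → ¬ (p : GI) ^ (v + 1) ∣ h) :
    ‖TS ν p (p ^ k) h‖ ≤ 2 * √(p : ℝ) ^ (k + v) := by
  have hp0 : (0 : ℝ) ≤ p := Nat.cast_nonneg p
  have hpp : √(p : ℝ) ^ 2 = p := Real.sq_sqrt hp0
  have hp3 : 3 ≤ p := by
    have := (Fact.out : p.Prime).two_le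
    omega
  have hnc : ∀ n : ℕ, ‖(p : ℂ) ^ n‖ = √(p : ℝ) ^ (2 * n) := by
    intro n
    rw [norm_pow, Complex.norm_natCast, pow_mul, hpp]
  rcases Nat.lt_or_ge v k with hlt | hge
  · obtain ⟨h', rfl⟩ := hd
    have hnd' : ¬ dv p h' := by
      intro hdv
      rw [← dvd_iff_dv] at hdv
      refine hnd hlt ?_
      rw [pow_succ]
      exact mul_dvd_mul_left _ hdv
    have e1 := lift_pow h4 p hp ν (k - v) (by omega) v h'
    have e2 : TS ν p (p ^ k) ((p : GI) ^ v * h') =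
        TS ν p (p ^ (k - v + v)) ((p : GI) ^ v * h') :=
      TS_congr ν p _ _ (by rw [Nat.sub_add_cancel hv]) _
    rw [e2, e1, norm_mul, hnc]
    have e3 : ‖TS ν p (p ^ (k - v)) h'‖ ≤ 2 * √(p : ℝ) ^ (k - v) := by
      rw [TS_eq ν p _ (dvd_pow_self p (by omega)) hν]
      rcases Nat.lt_or_ge (k - v) 2 with h5 | h5
      · have h6 : k - v = 1 := by omega
        have e4 : TF ν (p ^ (k - v)) h' = TF ν p h' := TF_congr ν _ _ (by rw [h6, pow_one]) _
        rw [e4, h6, pow_one]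
        have := TF_prime hW h1 p hp ν hν h'
        rwa [if_neg hnd'] at this
      · exact h2 p (k - v) hp h5 ν h' hν hnd'
    calc √(p : ℝ) ^ (2 * v) * ‖TS ν p (p ^ (k - v)) h'‖
        ≤ √(p : ℝ) ^ (2 * v) * (2 * √(p : ℝ) ^ (k - v)) :=
          mul_le_mul_of_nonneg_left e3 (by positivity)
      _ = 2 * √(p : ℝ) ^ (k + v) := by
          rw [show k + v = 2 * v + (k - v) by omega, pow_add]
          ring
  · have hvk : v = k := le_antisymm hv hge
    subst hvk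
    obtain ⟨h', rfl⟩ := hd
    have e0 : (p : GI) ^ v * h' = (p : GI) ^ (v - 1) * ((p : GI) * h') := by
      rw [← mul_assoc, ← pow_succ, Nat.sub_add_cancel (by omega)]
    have e1 := lift_pow h4 p hp ν 1 le_rfl (v - 1) ((p : GI) * h')
    have e2 : TS ν p (p ^ v) ((p : GI) ^ v * h') =
        TS ν p (p ^ (1 + (v - 1))) ((p : GI) ^ (v - 1) * ((p : GI) * h')) := by
      rw [← e0]
      exact TS_congr ν p _ _ (by rw [Nat.add_sub_cancel' (by omega)]) _
    rw [e2, e1, norm_mul, hnc]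
    have e3 : ‖TS ν p (p ^ 1) ((p : GI) * h')‖ ≤ 2 * √(p : ℝ) ^ 2 := by
      rw [TS_eq ν p _ (dvd_pow_self p (by omega)) hν, TF_congr ν (p ^ 1) p (pow_one p)]
      have := TF_prime hW h1 p hp ν hν ((p : GI) * h')
      have hdv : dv p ((p : GI) * h') := by
        rw [← dvd_iff_dv]
        exact dvd_mul_right _ _
      rw [if_pos hdv] at this
      have hp1 : (1 : ℝ) ≤ p := by exact_mod_cast (by omega : 1 ≤ p)
      rw [hpp]
      linarith
    calc √(p : ℝ) ^ (2 * (v - 1)) * ‖TS ν p (p ^ 1) ((p : GI) * h')‖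
        ≤ √(p : ℝ) ^ (2 * (v - 1)) * (2 * √(p : ℝ) ^ 2) :=
          mul_le_mul_of_nonneg_left e3 (by positivity)
      _ = 2 * √(p : ℝ) ^ (v + v) := by
          rw [show v + v = 2 * (v - 1) + 2 by omega, pow_add]
          ring

/-- the coefficients of the family -/
noncomputable def cf (p k : ℕ) : ℕ → ℝ
  | 0 => 2 * √(p : ℝ) ^ k
  | j + 1 => 2 * √(p : ℝ) ^ k * (√(p : ℝ) ^ (j + 1) - √(p : ℝ) ^ j)

theorem sum_cf (p k v : ℕ) :
    ∑ j ∈ range (v + 1), cf p k j = 2 * √(p : ℝ) ^ (k + v) := by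
  induction v with
  | zero => simp [cf]
  | succ v ih =>
    rw [sum_range_succ, ih, cf]
    ring

theorem cf_nonneg (p k : ℕ) (hp : 1 ≤ p) (j : ℕ) : 0 ≤ cf p k j := by
  have hs : 1 ≤ √(p : ℝ) := by
    rw [← Real.sqrt_one]
    exact Real.sqrt_le_sqrt (by exact_mod_cast hp)
  cases j with
  | zero => unfold cf; positivity
  | succ j =>
    unfold cf
    have : √(p : ℝ) ^ j ≤ √(p : ℝ) ^ (j + 1) := pow_le_pow_right₀ hs (by omega)
    have h2 : 0 ≤ √(p : ℝ) ^ (j + 1) - √(p : ℝ) ^ j := by linarith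
    positivity

theorem sum_cf_div (p k : ℕ) (hp : 2 ≤ p) (n : ℕ) :
    ∑ j ∈ range (n + 1), cf p k j / ((p : ℝ) ^ j) ^ 2 ≤
      2 * √(p : ℝ) ^ k * (1 + 1 / √(p : ℝ) ^ 3 - 1 / (√(p : ℝ) ^ 3) ^ (n + 1)) := by
  set s := √(p : ℝ) with hs
  have hps : (p : ℝ) = s ^ 2 := (Real.sq_sqrt (Nat.cast_nonneg p)).symm
  have hs1 : 1 < s := by
    rw [hs, ← Real.sqrt_one]
    exact Real.sqrt_lt_sqrt zero_le_one (by exact_mod_cast (by omega : 1 < p))
  have hs0 : 0 < s := by linarith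
  induction n with
  | zero => simp [cf, ← hs]
  | succ n ih =>
    rw [sum_range_succ]
    refine (add_le_add_left ih _).trans ?_
    have h1 : cf p k (n + 1) / ((p : ℝ) ^ (n + 1)) ^ 2 =
        2 * s ^ k * ((s - 1) * s ^ n / s ^ (4 * (n + 1))) := by
      rw [cf, ← hs, hps]
      rw [← pow_mul, ← pow_mul, show 2 * ((n + 1) * 2) = 4 * (n + 1) by ring]
      field_simp
      ring
    have h2 : (s - 1) * s ^ n / s ^ (4 * (n + 1)) ≤
        1 / (s ^ 3) ^ (n + 1) - 1 / (s ^ 3) ^ (n + 1 + 1) := by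
      have e1 : s ^ (4 * (n + 1)) = (s ^ 3) ^ (n + 1) * s ^ (n + 1) := by
        rw [← pow_mul, ← pow_add]
        congr 1
        ring
      rw [e1, pow_succ s n, pow_succ (s ^ 3) (n + 1)]
      have hA : 0 < (s ^ 3) ^ (n + 1) := by positivity
      have e2 : (s - 1) * s ^ n / ((s ^ 3) ^ (n + 1) * (s ^ n * s)) =
          (1 / (s ^ 3) ^ (n + 1)) * ((s - 1) / s) := by
        field_simp
      have e3 : 1 / (s ^ 3) ^ (n + 1) - 1 / ((s ^ 3) ^ (n + 1) * s ^ 3) =
          (1 / (s ^ 3) ^ (n + 1)) * ((s ^ 3 - 1) / s ^ 3) := by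
        field_simp
      rw [e2, e3]
      refine mul_le_mul_of_nonneg_left ?_ (by positivity)
      rw [div_le_div_iff₀ hs0 (by positivity)]
      nlinarith [pow_pos hs0 2, mul_pos hs0 hs0, mul_nonneg hs0.le (by nlinarith : 0 ≤ s ^ 2 - 1)]
    rw [h1]
    have h3 := mul_le_mul_of_nonneg_left h2 (by positivity : (0 : ℝ) ≤ 2 * s ^ k)
    nlinarith [h3]

theorem N2_pow (p j : ℕ) : (N2 ((p : GI) ^ j) : ℝ) = ((p : ℝ) ^ j) ^ 2 := by
  have h1 : (p : GI) ^ j = ((p ^ j : ℕ) : GI) := by push_cast; rfl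
  rw [h1]
  unfold N2
  rw [Zsqrtd.re_natCast, Zsqrtd.im_natCast]
  push_cast
  ring

end S7

open S7 in
theorem stDomP (hW : StWeil) (h1 : StT1) (h2 : StT2) (h4 : StLift) (h6 : StSplit) : StDomP := by
  intro p _ k _ hp hk ν
  have hpr : p.Prime := Fact.out
  have hp3 : 3 ≤ p := by
    have := hpr.two_le
    omega
  have hpk : p ∣ p ^ k := dvd_pow_self p (by omega)
  set s := √(p : ℝ) with hs
  have hps : (p : ℝ) = s ^ 2 := (Real.sq_sqrt (Nat.cast_nonneg p)).symm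
  have hs1 : 1 < s := by
    rw [hs, ← Real.sqrt_one]
    exact Real.sqrt_lt_sqrt zero_le_one (by exact_mod_cast (by omega : 1 < p))
  have hs0 : 0 < s := by linarith
  have hCp : 2 * (1 + 1 / s ^ 3) ≤ Cp p := by
    unfold Cp
    split_ifs with h5
    · have hs5 : s = √5 := by rw [hs, h5]; norm_num
      have h6 : (2.2 : ℝ) ≤ s := by
        rw [hs5]
        exact Real.le_sqrt_of_sq_le (by norm_num)
      have h7 : (10 : ℝ) ≤ s ^ 3 := by
        calc (10 : ℝ) ≤ 2.2 ^ 3 := by norm_num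
          _ ≤ s ^ 3 := pow_le_pow_left₀ (by norm_num) h6 3
      have h8 : 1 / s ^ 3 ≤ 1 / 10 := one_div_le_one_div_of_le (by norm_num) h7
      linarith
    · rw [← hs, hps]
      have : s ^ 2 * s = s ^ 3 := by ring
      rw [this]
  by_cases hν : (p : ℤ) ∣ ν
  · have hodd : p % 4 = 1 ∨ p % 4 = 3 := by
      have := hpr.eq_two_or_odd
      omega
    rcases hodd with h14 | h34
    · obtain ⟨n, γ, c, hg, hT, hB⟩ := h6 p k h14 hk ν hν
      refine ⟨n, γ, c, hg, hT, hB.trans ?_⟩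
      rw [← hs]
      refine mul_le_mul_of_nonneg_right ?_ (by positivity)
      rcases Nat.lt_or_ge p 13 with h13 | h13
      · have h5 : p = 5 := by
          interval_cases p <;> simp_all (config := {decide := true})
        have hs5 : s = √5 := by rw [hs, h5]; norm_num
        have h6' : (2.236 : ℝ) ≤ s := by
          rw [hs5]
          exact Real.le_sqrt_of_sq_le (by norm_num)
        have h7 : 4 / s ≤ 4 / 2.236 := div_le_div_of_nonneg_left (by norm_num) (by norm_num) h6'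
        have h8 : (4 : ℝ) / 2.236 ≤ 1.79 := by norm_num
        unfold Cp
        rw [if_pos h5, h5]
        norm_num at h7 h8 ⊢
        linarith
      · have h6' : (3.6 : ℝ) ≤ s := by
          rw [hs]
          refine Real.le_sqrt_of_sq_le ?_
          have : (13 : ℝ) ≤ p := by exact_mod_cast h13
          norm_num
          linarith
        have h7 : 4 / s ≤ 4 / 3.6 := div_le_div_of_nonneg_left (by norm_num) (by norm_num) h6'
        have h9 : (4 : ℝ) / p ≤ 4 / 13 :=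
          div_le_div_of_nonneg_left (by norm_num) (by norm_num) (by exact_mod_cast h13)
        have h10 : 2 ≤ Cp p := by
          refine le_trans ?_ hCp
          have : 0 < 1 / s ^ 3 := by positivity
          linarith
        norm_num at h7
        linarith
    · refine ⟨0, fun i => i.elim0, fun i => i.elim0, fun i => i.elim0, fun h => ?_, ?_⟩
      · have : TS ν p (p ^ k) h = 0 := by
          unfold TS
          rw [SolS_empty ν p _ hpk hν h34, sum_empty]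
        simp [this]
      · simp only [univ_eq_empty, sum_empty]
        refine mul_nonneg (le_trans ?_ hCp) (by positivity)
        positivity
  · refine ⟨k + 1, fun j => (p : GI) ^ (j : ℕ), fun j => cf p k j, fun j => ⟨?_, ?_, ?_⟩,
      fun h => ?_, ?_⟩
    · refine pow_ne_zero _ ?_
      exact_mod_cast hpr.ne_zero
    · exact cf_nonneg p k (by omega) _
    · have : ((p ^ k : ℕ) : GI) = (p : GI) ^ k := by push_cast; rfl
      rw [this]
      exact pow_dvd_pow _ (by omega)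
    · classical
      obtain ⟨v, hvk, hvd, hvn⟩ : ∃ v ≤ k, (p : GI) ^ v ∣ h ∧ (v < k → ¬ (p : GI) ^ (v + 1) ∣ h) := by
        refine ⟨Nat.findGreatest (fun j => (p : GI) ^ j ∣ h) k, Nat.findGreatest_le _, ?_, ?_⟩
        · exact Nat.findGreatest_spec (P := fun j => (p : GI) ^ j ∣ h) (m := 0) (Nat.zero_le _)
            (by simp)
        · intro hlt
          exact Nat.findGreatest_is_greatest (P := fun j => (p : GI) ^ j ∣ h) (Nat.lt_succ_self _) hlt
      refine (pointwise hW h1 h2 h4 p hp ν hν k hk h v hvk hvd hvn).trans ?_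
      rw [← sum_cf p k v]
      rw [Fin.sum_univ_eq_sum_range (fun j => if (p : GI) ^ j ∣ h then cf p k j else 0) (k + 1)]
      calc ∑ j ∈ range (v + 1), cf p k j
          = ∑ j ∈ range (v + 1), (if (p : GI) ^ j ∣ h then cf p k j else 0) := by
            refine sum_congr rfl fun j hj => ?_
            rw [if_pos]
            exact (pow_dvd_pow _ (by have := mem_range.mp hj; omega)).trans hvd
        _ ≤ ∑ j ∈ range (k + 1), (if (p : GI) ^ j ∣ h then cf p k j else 0) := by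
            refine sum_le_sum_of_subset_of_nonneg (range_subset_range.mpr (by omega)) ?_
            intro j _ _
            split_ifs
            · exact cf_nonneg p k (by omega) j
            · exact le_rfl
    · rw [Fin.sum_univ_eq_sum_range (fun j => cf p k j / (N2 ((p : GI) ^ j) : ℝ)) (k + 1)]
      simp only [N2_pow]
      refine (sum_cf_div p k (by omega) k).trans ?_
      rw [← hs]
      have h5 : 0 < 1 / (s ^ 3) ^ (k + 1) := by positivity
      have h6' : 2 * (1 + 1 / s ^ 3 - 1 / (s ^ 3) ^ (k + 1)) ≤ Cp p := by linarith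
      calc 2 * s ^ k * (1 + 1 / s ^ 3 - 1 / (s ^ 3) ^ (k + 1))
          = (2 * (1 + 1 / s ^ 3 - 1 / (s ^ 3) ^ (k + 1))) * s ^ k := by ring
        _ ≤ Cp p * s ^ k := mul_le_mul_of_nonneg_right h6' (by positivity)

end Pool.Agent.TFS
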