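import Pool.Agent.Lib.TFS.StmtsS

/-!
S8: domination for all solutions modulo `ℓ^k`, by recursion `k → k - 2`.
-/

set_option autoImplicit false

open Finset

namespace Pool.Agent.TFS

namespace S8Aux

/-- `e(n/q)` -/
noncomputable def E (q : ℕ) (n : ℤ) : ℂ := Complex.exp (2 * Real.pi * Complex.I * n / q)

theorem E_eq (q : ℕ) [NeZero q] (n : ℤ) : ZMod.stdAddChar ((n : ℤ) : ZMod q) = E q n := by
  rw [ZMod.stdAddChar_coe]
  rfl

theorem E_add (q : ℕ) (n m : ℤ) : E q (n + m) = E q n * E q m := by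
  unfold E
  rw [← Complex.exp_add]
  congr 1
  push_cast
  ring

theorem E_mul (l q : ℕ) (hl : l ≠ 0) (n : ℤ) : E (l * q) (l * n) = E q n := by
  unfold E
  congr 1
  have h : (l : ℂ) ≠ 0 := Nat.cast_ne_zero.2 hl
  push_cast
  rw [show 2 * (Real.pi : ℂ) * Complex.I * ((l : ℂ) * n) = l * (2 * Real.pi * Complex.I * n) by ring]
  exact mul_div_mul_left _ _ h

theorem sum_zmod (q : ℕ) [NeZero q] (f : ZMod q → ℂ) :
    ∑ x, f x = ∑ a ∈ range q, f (a : ZMod q) := by
  refine sum_nbij' (fun x => x.val) (fun a => (a : ZMod q)) ?_ ?_ ?_ ?_ ?_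
  · intro x _
    exact mem_range.2 (ZMod.val_lt x)
  · intro a _
    exact mem_univ _
  · intro x _
    exact ZMod.natCast_zmod_val x
  · intro a ha
    exact ZMod.val_cast_of_lt (mem_range.1 ha)
  · intro x _
    rw [ZMod.natCast_zmod_val]

theorem sum_block (m l : ℕ) (G : ℕ → ℂ) :
    ∑ a ∈ range (m * l), G a = ∑ t ∈ range l, ∑ y ∈ range m, G (m * t + y) := by
  induction l with
  | zero => simp
  | succ l ih => rw [Nat.mul_succ, sum_range_add, ih, sum_range_succ]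

theorem sum_mult (l m : ℕ) (hl : 0 < l) (G : ℕ → ℂ) :
    ∑ a ∈ range (l * m), (if l ∣ a then G a else 0) = ∑ t ∈ range m, G (l * t) := by
  rw [sum_block]
  refine sum_congr rfl fun t _ => ?_
  rw [sum_eq_single 0]
  · simp
  · intro y hy hy0
    rw [if_neg]
    intro h
    have h1 : l ∣ y := (Nat.dvd_add_right (dvd_mul_right l t)).1 h
    exact hy0 (Nat.eq_zero_of_dvd_of_lt h1 (mem_range.1 hy))
  · intro h
    exact absurd (mem_range.2 hl) h

theorem E_root (l : ℕ) [NeZero l] (h : ℤ) :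
    ∑ t ∈ range l, E l (h * t) = if (l : ℤ) ∣ h then (l : ℂ) else 0 := by
  have h1 : ∑ t ∈ range l, E l (h * t) =
      ∑ x : ZMod l, ZMod.stdAddChar (x * (h : ZMod l)) := by
    rw [sum_zmod]
    refine sum_congr rfl fun t _ => ?_
    rw [← E_eq]
    congr 1
    push_cast
    ring
  rw [h1, AddChar.sum_mulShift (R := ZMod l) (h : ZMod l) (ZMod.isPrimitive_stdAddChar l)]
  rw [ZMod.card]
  simp only [ZMod.intCast_zmod_eq_zero_iff_dvd]
  split_ifs <;> simp

/-- the general sum over pairs -/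
theorem sum_pairs (q : ℕ) [NeZero q] (P : ZMod q × ZMod q → Prop) [DecidablePred P]
    (h : GI) : ∑ x ∈ univ.filter P, ZMod.stdAddChar ((h.re : ZMod q) * x.1 + (h.im : ZMod q) * x.2) =
    ∑ a ∈ range q, ∑ b ∈ range q, if P ((a : ZMod q), (b : ZMod q)) then
      E q (h.re * a + h.im * b) else 0 := by
  rw [sum_filter, Fintype.sum_prod_type, sum_zmod]
  refine sum_congr rfl fun a _ => ?_
  rw [sum_zmod]
  refine sum_congr rfl fun b _ => ?_
  rw [← E_eq]
  push_cast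
  rfl

theorem cond_iff (q : ℕ) [NeZero q] (ν : ℤ) (a b : ℕ) :
    ((a : ZMod q) ^ 2 + (b : ZMod q) ^ 2 = (ν : ZMod q)) ↔
      (q : ℤ) ∣ ν - ((a : ℤ) ^ 2 + (b : ℤ) ^ 2) := by
  rw [← ZMod.intCast_zmod_eq_zero_iff_dvd]
  push_cast
  rw [sub_eq_zero]
  exact eq_comm

theorem TF_range (ν : ℤ) (q : ℕ) [NeZero q] (h : GI) :
    TF ν q h = ∑ a ∈ range q, ∑ b ∈ range q,
      if (q : ℤ) ∣ ν - ((a : ℤ) ^ 2 + (b : ℤ) ^ 2) then E q (h.re * a + h.im * b) else 0 := by
  unfold TF SolF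
  rw [sum_pairs]
  refine sum_congr rfl fun a _ => sum_congr rfl fun b _ => ?_
  exact if_congr (cond_iff q ν a b) rfl rfl

/-- the part with both coordinates divisible by `p` -/
noncomputable def TB (ν : ℤ) (p q : ℕ) [NeZero q] (h : GI) : ℂ :=
  ∑ x ∈ univ.filter (fun x : ZMod q × ZMod q ↦
    x.1 ^ 2 + x.2 ^ 2 = (ν : ZMod q) ∧ (p ∣ x.1.val ∧ p ∣ x.2.val)),
    ZMod.stdAddChar ((h.re : ZMod q) * x.1 + (h.im : ZMod q) * x.2)

theorem TF_split (ν : ℤ) (p q : ℕ) [NeZero q] (h : GI) :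
    TF ν q h = TS ν p q h + TB ν p q h := by
  unfold TF TS TB SolF SolS
  rw [← sum_filter_not_add_sum_filter (s := univ.filter
    (fun x : ZMod q × ZMod q ↦ x.1 ^ 2 + x.2 ^ 2 = (ν : ZMod q)))
    (p := fun x => p ∣ x.1.val ∧ p ∣ x.2.val), filter_filter, filter_filter]

theorem TB_range (ν : ℤ) (l m q : ℕ) [NeZero q] (hq : q = l * m) (hl : 0 < l) (h : GI) :
    TB ν l q h = ∑ a ∈ range m, ∑ b ∈ range m,
      if (q : ℤ) ∣ ν - (l : ℤ) ^ 2 * ((a : ℤ) ^ 2 + (b : ℤ) ^ 2) then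
        E m (h.re * a + h.im * b) else 0 := by
  unfold TB
  rw [sum_pairs]
  have h1 : ∀ a ∈ range q, ∑ b ∈ range q,
      (if ((a : ZMod q), (b : ZMod q)).1 ^ 2 + ((a : ZMod q), (b : ZMod q)).2 ^ 2 = (ν : ZMod q) ∧
        (l ∣ ((a : ZMod q), (b : ZMod q)).1.val ∧ l ∣ ((a : ZMod q), (b : ZMod q)).2.val) then
        E q (h.re * a + h.im * b) else 0) =
      if l ∣ a then ∑ b ∈ range (l * m), if l ∣ b then
        (if (q : ℤ) ∣ ν - ((a : ℤ) ^ 2 + (b : ℤ) ^ 2) then E q (h.re * a + h.im * b) else 0)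
          else 0 else 0 := by
    intro a ha
    rw [← hq]
    by_cases hla : l ∣ a
    · rw [if_pos hla]
      refine sum_congr rfl fun b hb => ?_
      have ha' := ZMod.val_cast_of_lt (mem_range.1 ha)
      have hb' := ZMod.val_cast_of_lt (mem_range.1 hb)
      by_cases hlb : l ∣ b
      · rw [if_pos hlb]
        refine if_congr ?_ rfl rfl
        rw [← cond_iff]
        constructor
        · intro h
          exact h.1
        · intro h
          refine ⟨h, ?_, ?_⟩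
          · show l ∣ (a : ZMod q).val
            rw [ha']
            exact hla
          · show l ∣ (b : ZMod q).val
            rw [hb']
            exact hlb
      · rw [if_neg hlb, if_neg]
        rintro ⟨_, _, h2⟩
        apply hlb
        have h3 : l ∣ (b : ZMod q).val := h2
        rwa [hb'] at h3
    · rw [if_neg hla]
      refine sum_eq_zero fun b _ => ?_
      have ha' := ZMod.val_cast_of_lt (mem_range.1 ha)
      rw [if_neg]
      rintro ⟨_, h2, _⟩
      apply hla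
      have h3 : l ∣ (a : ZMod q).val := h2
      rwa [ha'] at h3
  rw [sum_congr rfl h1, show range q = range (l * m) by rw [hq], sum_mult l m hl]
  refine sum_congr rfl fun a _ => ?_
  rw [sum_mult l m hl]
  refine sum_congr rfl fun b _ => ?_
  refine if_congr ?_ ?_ rfl
  · push_cast
    rw [show ((l : ℤ) * a) ^ 2 + ((l : ℤ) * b) ^ 2 = (l : ℤ) ^ 2 * ((a : ℤ) ^ 2 + (b : ℤ) ^ 2) by ring]
  · rw [← E_mul l m hl.ne', ← hq]
    congr 1
    push_cast
    ring

/-- the recursion -/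
theorem TB_eq (l j : ℕ) [Fact l.Prime] [NeZero (l ^ (j + 2))] [NeZero (l ^ j)] (ν' : ℤ) (h : GI) :
    TB ((l : ℤ) ^ 2 * ν') l (l ^ (j + 2)) h =
      if (l : ℤ) ∣ h.re ∧ (l : ℤ) ∣ h.im then
        (l : ℂ) ^ 2 * TF ν' (l ^ j) ⟨h.re / l, h.im / l⟩ else 0 := by
  have hl : 0 < l := (Fact.out : l.Prime).pos
  haveI : NeZero l := ⟨hl.ne'⟩
  rw [TB_range ((l : ℤ) ^ 2 * ν') l (l ^ (j + 1)) (l ^ (j + 2)) (by ring) hl]
  have hm : l ^ (j + 1) = l ^ j * l := pow_succ l j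
  have hc : ∀ a b : ℤ, (((l ^ (j + 2) : ℕ) : ℤ) ∣ (l : ℤ) ^ 2 * ν' - (l : ℤ) ^ 2 * (a ^ 2 + b ^ 2)) ↔
      ((l ^ j : ℕ) : ℤ) ∣ ν' - (a ^ 2 + b ^ 2) := by
    intro a b
    rw [← mul_sub]
    push_cast
    rw [pow_add, mul_comm ((l : ℤ) ^ j)]
    exact mul_dvd_mul_iff_left (by positivity)
  simp only [hc]
  have e1 : ∀ t s : ℕ, ∀ y z : ℕ, (((l ^ j : ℕ) : ℤ) ∣ ν' -
      (((l ^ j * t + y : ℕ) : ℤ) ^ 2 + ((l ^ j * s + z : ℕ) : ℤ) ^ 2)) ↔
      ((l ^ j : ℕ) : ℤ) ∣ ν' - ((y : ℤ) ^ 2 + (z : ℤ) ^ 2) := by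
    intro t s y z
    have : ν' - (((l ^ j * t + y : ℕ) : ℤ) ^ 2 + ((l ^ j * s + z : ℕ) : ℤ) ^ 2) =
        ν' - ((y : ℤ) ^ 2 + (z : ℤ) ^ 2) - ((l ^ j : ℕ) : ℤ) *
          (t * (((l ^ j : ℕ) : ℤ) * t + 2 * y) + s * (((l ^ j : ℕ) : ℤ) * s + 2 * z)) := by
      push_cast
      ring
    rw [this]
    exact (dvd_sub_left (dvd_mul_right _ _))
  have e2 : ∀ t s y z : ℕ, E (l ^ (j + 1)) (h.re * ((l ^ j * t + y : ℕ) : ℤ) +
      h.im * ((l ^ j * s + z : ℕ) : ℤ)) =
      (E l (h.re * t) * E l (h.im * s)) * E (l ^ (j + 1)) (h.re * y + h.im * z) := by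
    intro t s y z
    rw [← E_add, ← E_mul (l ^ j) l (by positivity), ← hm, ← E_add]
    congr 1
    push_cast
    ring
  have e3 : ∑ a ∈ range (l ^ (j + 1)), ∑ b ∈ range (l ^ (j + 1)),
      (if ((l ^ j : ℕ) : ℤ) ∣ ν' - ((a : ℤ) ^ 2 + (b : ℤ) ^ 2) then
        E (l ^ (j + 1)) (h.re * a + h.im * b) else 0) =
      ((∑ t ∈ range l, E l (h.re * t)) * (∑ s ∈ range l, E l (h.im * s))) *
        ∑ y ∈ range (l ^ j), ∑ z ∈ range (l ^ j),
          (if ((l ^ j : ℕ) : ℤ) ∣ ν' - ((y : ℤ) ^ 2 + (z : ℤ) ^ 2) then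
            E (l ^ (j + 1)) (h.re * y + h.im * z) else 0) := by
    have e4 : range (l ^ (j + 1)) = range (l ^ j * l) := by rw [hm]
    rw [e4, sum_block]
    rw [sum_mul_sum, sum_mul]
    refine sum_congr rfl fun t _ => ?_
    rw [sum_mul, sum_congr rfl fun y _ => sum_block (l ^ j) l _]
    rw [sum_comm]
    refine sum_congr rfl fun s _ => ?_
    rw [mul_sum]
    refine sum_congr rfl fun y _ => ?_
    rw [mul_sum]
    refine sum_congr rfl fun z _ => ?_
    rw [e2 t s y z, mul_ite, mul_zero]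
    exact if_congr (e1 t s y z) rfl rfl
  rw [e3, E_root, E_root]
  by_cases h1 : (l : ℤ) ∣ h.re
  · by_cases h2 : (l : ℤ) ∣ h.im
    · rw [if_pos h1, if_pos h2, if_pos ⟨h1, h2⟩, ← sq, TF_range]
      congr 1
      refine sum_congr rfl fun y _ => sum_congr rfl fun z _ => ?_
      refine if_congr Iff.rfl ?_ rfl
      rw [pow_succ', ← E_mul l (l ^ j) hl.ne']
      congr 1
      show h.re * (y : ℤ) + h.im * (z : ℤ) = (l : ℤ) * (h.re / l * (y : ℤ) + h.im / l * (z : ℤ))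
      obtain ⟨u, hu⟩ := h1
      obtain ⟨v, hv⟩ := h2
      have hl0 : (l : ℤ) ≠ 0 := by exact_mod_cast hl.ne'
      rw [hu, hv, Int.mul_ediv_cancel_left _ hl0, Int.mul_ediv_cancel_left _ hl0]
      ring
    · rw [if_neg h2, mul_zero, zero_mul]
      exact (if_neg (show ¬ ((l : ℤ) ∣ h.re ∧ (l : ℤ) ∣ h.im) from fun h' => h2 h'.2)).symm
  · rw [if_neg h1, zero_mul, zero_mul]
    exact (if_neg (show ¬ ((l : ℤ) ∣ h.re ∧ (l : ℤ) ∣ h.im) from fun h' => h1 h'.1)).symm

theorem TB_zero (l j : ℕ) [Fact l.Prime] [NeZero (l ^ (j + 2))] (ν : ℤ) (h : GI)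
    (hν : ¬ (l : ℤ) ^ 2 ∣ ν) : TB ν l (l ^ (j + 2)) h = 0 := by
  have hl : 0 < l := (Fact.out : l.Prime).pos
  rw [TB_range ν l (l ^ (j + 1)) (l ^ (j + 2)) (by ring) hl]
  refine sum_eq_zero fun a _ => sum_eq_zero fun b _ => ?_
  rw [if_neg]
  intro h1
  apply hν
  have h2 : (l : ℤ) ^ 2 ∣ ((l ^ (j + 2) : ℕ) : ℤ) := by
    push_cast
    exact pow_dvd_pow _ (by omega)
  exact (dvd_sub_left (dvd_mul_right _ _)).1 (h2.trans h1)

theorem TS_zero (l q : ℕ) [Fact l.Prime] [NeZero q] (hlq : l ∣ q) (h3 : l % 4 = 3) (ν : ℤ)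
    (hν : (l : ℤ) ∣ ν) (h : GI) : TS ν l q h = 0 := by
  have h1 : SolS ν l q = ∅ := by
    unfold SolS
    rw [filter_eq_empty_iff]
    rintro ⟨x, y⟩ _ ⟨hx, hn⟩
    have hx' : x ^ 2 + y ^ 2 = (ν : ZMod q) := hx
    have hn' : ¬ (l ∣ x.val ∧ l ∣ y.val) := hn
    rw [← ZMod.natCast_zmod_val x, ← ZMod.natCast_zmod_val y, cond_iff] at hx'
    have h2 : (l : ℤ) ∣ (x.val : ℤ) ^ 2 + (y.val : ℤ) ^ 2 := by
      have h4 : (l : ℤ) ∣ (q : ℤ) := by exact_mod_cast hlq
      exact (dvd_sub_right hν).1 (h4.trans hx')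
    have h5 : (x.val : ZMod l) ^ 2 + (y.val : ZMod l) ^ 2 = 0 := by
      rw [← ZMod.intCast_zmod_eq_zero_iff_dvd] at h2
      exact_mod_cast h2
    by_cases ha : l ∣ x.val
    · have hb : (y.val : ZMod l) ≠ 0 := by
        rw [Ne, ZMod.natCast_eq_zero_iff]
        exact fun h => hn' ⟨ha, h⟩
      exact ZMod.mod_four_ne_three_of_sq_eq_neg_sq hb (y := (x.val : ZMod l))
        (by linear_combination h5) h3
    · have hb : (x.val : ZMod l) ≠ 0 := by
        rw [Ne, ZMod.natCast_eq_zero_iff]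
        exact ha
      exact ZMod.mod_four_ne_three_of_sq_eq_neg_sq hb (y := (y.val : ZMod l))
        (by linear_combination h5) h3
  unfold TS
  rw [h1, sum_empty]

/-! ### domination -/

theorem Dom_mono {T T' : GI → ℝ} {q : ℕ} {B B' : ℝ} (h : Dom T q B) (hT : ∀ h, T' h ≤ T h)
    (hB : B ≤ B') : Dom T' q B' := by
  obtain ⟨k, γ, c, h1, h2, h3⟩ := h
  exact ⟨k, γ, c, h1, fun x => (hT x).trans (h2 x), h3.trans hB⟩

theorem Dom_congr {T : GI → ℝ} {q q' : ℕ} {B : ℝ} (hq : q = q') (h : Dom T q B) : Dom T q' B := by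
  subst hq
  exact h

theorem TF_congr {q q' : ℕ} [NeZero q] [NeZero q'] (hq : q = q') (ν : ℤ) (h : GI) :
    TF ν q h = TF ν q' h := by
  subst hq
  rfl

theorem Dom_zero (q : ℕ) {B : ℝ} (hB : 0 ≤ B) : Dom (fun _ => 0) q B := by
  refine ⟨0, fun i => i.elim0, fun i => i.elim0, fun i => i.elim0, fun h => ?_, ?_⟩
  · simp
  · simpa using hB

theorem Dom_add {T T' : GI → ℝ} {q : ℕ} {B B' : ℝ} (h : Dom T q B) (h' : Dom T' q B') :
    Dom (fun x => T x + T' x) q (B + B') := by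
  obtain ⟨k, γ, c, h1, h2, h3⟩ := h
  obtain ⟨k', γ', c', h1', h2', h3'⟩ := h'
  classical
  refine ⟨k + k', Fin.append γ γ', Fin.append c c', ?_, ?_, ?_⟩
  · intro i
    induction i using Fin.addCases with
    | left i => simpa only [Fin.append_left] using h1 i
    | right i => simpa only [Fin.append_right] using h1' i
  · intro x
    rw [Fin.sum_univ_add]
    simp only [Fin.append_left, Fin.append_right]
    exact add_le_add (h2 x) (h2' x)
  · rw [Fin.sum_univ_add]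
    simp only [Fin.append_left, Fin.append_right]
    exact add_le_add h3 h3'

theorem N2_mul_nat (l : ℕ) (x : GI) : N2 ((l : GI) * x) = (l : ℤ) ^ 2 * N2 x := by
  unfold N2
  simp only [Zsqrtd.re_mul, Zsqrtd.im_mul, Zsqrtd.re_natCast, Zsqrtd.im_natCast]
  ring

theorem Dom_scale {T : GI → ℝ} {l j : ℕ} (hl : 0 < l) {B : ℝ} (h : Dom T (l ^ j) B) :
    Dom (fun x => if (l : ℤ) ∣ x.re ∧ (l : ℤ) ∣ x.im then
      (l : ℝ) ^ 2 * T ⟨x.re / l, x.im / l⟩ else 0) (l ^ (j + 2)) B := by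
  classical
  obtain ⟨k, γ, c, h1, h2, h3⟩ := h
  have hlG : (l : GI) ≠ 0 := Nat.cast_ne_zero.2 hl.ne'
  have hlR : (0 : ℝ) < l := Nat.cast_pos.2 hl
  refine ⟨k, fun i => (l : GI) * γ i, fun i => (l : ℝ) ^ 2 * c i, ?_, ?_, ?_⟩
  · intro i
    refine ⟨mul_ne_zero hlG (h1 i).1, mul_nonneg (by positivity) (h1 i).2.1, ?_⟩
    have h4 := mul_dvd_mul_left (l : GI) (h1 i).2.2
    refine h4.trans ⟨(l : GI), ?_⟩
    push_cast
    ring
  · intro x
    beta_reduce
    by_cases hx : (l : ℤ) ∣ x.re ∧ (l : ℤ) ∣ x.im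
    · rw [if_pos hx]
      obtain ⟨⟨u, hu⟩, ⟨v, hv⟩⟩ := hx
      have hl0 : (l : ℤ) ≠ 0 := by exact_mod_cast hl.ne'
      have h5 : x = (l : GI) * ⟨x.re / l, x.im / l⟩ := by
        rw [hu, hv, Int.mul_ediv_cancel_left _ hl0, Int.mul_ediv_cancel_left _ hl0]
        apply Zsqrtd.ext
        · rw [Zsqrtd.re_mul, Zsqrtd.re_natCast, Zsqrtd.im_natCast, hu]
          ring
        · rw [Zsqrtd.im_mul, Zsqrtd.re_natCast, Zsqrtd.im_natCast, hv]
          ring
      set x' : GI := ⟨x.re / l, x.im / l⟩ with hx'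
      refine (mul_le_mul_of_nonneg_left (h2 x') (by positivity)).trans (le_of_eq ?_)
      rw [mul_sum]
      refine sum_congr rfl fun i _ => ?_
      rw [h5, mul_ite, mul_zero]
      refine if_congr ?_ rfl rfl
      exact (mul_dvd_mul_iff_left hlG).symm
    · rw [if_neg hx]
      refine sum_nonneg fun i _ => ?_
      split_ifs
      · exact mul_nonneg (by positivity) (h1 i).2.1
      · exact le_rfl
  · refine (le_of_eq ?_).trans h3
    refine sum_congr rfl fun i _ => ?_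
    rw [N2_mul_nat]
    push_cast
    exact mul_div_mul_left _ _ (by positivity)

theorem TF_le (ν : ℤ) (q : ℕ) [NeZero q] (h : GI) : ‖TF ν q h‖ ≤ (q : ℝ) ^ 2 := by
  unfold TF
  refine (norm_sum_le _ _).trans ?_
  have h1 : ∀ x ∈ SolF ν q, ‖ZMod.stdAddChar ((h.re : ZMod q) * x.1 + (h.im : ZMod q) * x.2)‖ = 1 :=
    fun x _ => AddChar.norm_apply _ _
  rw [sum_congr rfl h1, sum_const, nsmul_eq_mul, mul_one]
  have h2 : (SolF ν q).card ≤ q * q := by
    refine (card_le_univ _).trans ?_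
    rw [Fintype.card_prod, ZMod.card]
  have h3 : ((SolF ν q).card : ℝ) ≤ (q : ℝ) * q := by exact_mod_cast h2
  rwa [sq]

theorem hl_one_le (l : ℕ) : 1 ≤ hl l := by
  unfold hl
  have : 0 ≤ 1 / (2 * ((l : ℝ) * √(l : ℝ))) := by positivity
  linarith

theorem Dom_base (l : ℕ) [NeZero (l ^ 0)] (ν : ℤ) :
    Dom (fun h ↦ ‖TF ν (l ^ 0) h‖) (l ^ 0) 1 := by
  refine ⟨1, fun _ => 1, fun _ => 1, ?_, ?_, ?_⟩
  · intro i
    exact ⟨one_ne_zero, zero_le_one, one_dvd _⟩
  · intro h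
    refine (TF_le ν _ h).trans ?_
    simp
  · have : N2 (1 : GI) = 1 := by
      unfold N2
      rw [Zsqrtd.re_one, Zsqrtd.im_one]
      norm_num
    simp [this]

/-- domination of the part divisible by `l` -/
theorem Dom_TB (l j : ℕ) [Fact l.Prime] [NeZero (l ^ (j + 2))] [NeZero (l ^ j)] {B : ℝ}
    (hB : 0 ≤ B) (h : ∀ ν, Dom (fun h ↦ ‖TF ν (l ^ j) h‖) (l ^ j) B) (ν : ℤ) :
    Dom (fun h ↦ ‖TB ν l (l ^ (j + 2)) h‖) (l ^ (j + 2)) B := by
  have hl : 0 < l := (Fact.out : l.Prime).pos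
  by_cases hν : (l : ℤ) ^ 2 ∣ ν
  · obtain ⟨ν', rfl⟩ := hν
    refine Dom_mono (Dom_scale hl (h ν')) (fun x => ?_) le_rfl
    rw [TB_eq]
    split_ifs with h1
    · rw [norm_mul, norm_pow, Complex.norm_natCast]
    · rw [norm_zero]
  · refine Dom_mono (Dom_zero _ hB) (fun x => ?_) le_rfl
    rw [TB_zero l j ν x hν, norm_zero]

theorem x_bounds {l : ℕ} (hl1 : 1 ≤ l) :
    0 ≤ 1 / ((l : ℝ) * √(l : ℝ)) ∧ 1 / ((l : ℝ) * √(l : ℝ)) ≤ 1 / l ∧
      hl l = 1 + 1 / ((l : ℝ) * √(l : ℝ)) / 2 := by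
  have h1 : (1 : ℝ) ≤ l := by exact_mod_cast hl1
  have h2 : (1 : ℝ) ≤ √(l : ℝ) := Real.one_le_sqrt.2 h1
  refine ⟨by positivity, ?_, ?_⟩
  · refine one_div_le_one_div_of_le (by positivity) ?_
    nlinarith
  · unfold Pool.Agent.TFS.hl
    field_simp

theorem Cp_le {l : ℕ} (hl1 : 1 ≤ l) : Cp l ≤ 3 * hl l := by
  obtain ⟨h1, h2, h3⟩ := x_bounds hl1
  have h4 : (1 : ℝ) / l ≤ 1 := by
    rw [div_le_one (by exact_mod_cast hl1)]
    exact_mod_cast hl1
  unfold Cp
  split_ifs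
  · have := hl_one_le l
    linarith
  · rw [h3]
    linarith

theorem Cp_le' {l : ℕ} (hl5 : 5 ≤ l) (hl6 : l ≠ 6) : Cp l * l ≤ 3 * l - 1 := by
  obtain ⟨h1, h2, h3⟩ := x_bounds (show 1 ≤ l by omega)
  unfold Cp
  split_ifs with h5
  · rw [h5]
    norm_num
  · have h7 : 7 ≤ l := by omega
    have h8 : (7 : ℝ) ≤ l := by exact_mod_cast h7
    have h9 : 1 / ((l : ℝ) * √(l : ℝ)) * l ≤ 1 := by
      have := mul_le_mul_of_nonneg_right h2 (show (0 : ℝ) ≤ l by positivity)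
      rwa [one_div_mul_cancel (by positivity)] at this
    linarith

theorem main (h1 : StDom1) (hP : StDomP) (l : ℕ) [Fact l.Prime] (hl2 : l ≠ 2) :
    ∀ (k : ℕ) (_ : NeZero (l ^ k)) (ν : ℤ),
      Dom (fun h ↦ ‖TF ν (l ^ k) h‖) (l ^ k) ((k + 1) * hl l * √(l : ℝ) ^ k) := by
  have hlp : l.Prime := Fact.out
  have hl0 : 0 < l := hlp.pos
  have hlR : (0 : ℝ) < l := Nat.cast_pos.2 hl0
  have hh1 := hl_one_le l
  intro k
  induction k using Nat.strong_induction_on with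
  | _ k ih =>
    match k, ih with
    | 0, _ =>
      intro _ ν
      refine Dom_mono (Dom_base l ν) (fun _ => le_rfl) ?_
      simpa using hh1
    | 1, _ =>
      intro _ ν
      haveI : NeZero l := ⟨hl0.ne'⟩
      have h2 := h1 l hl2 ν
      refine Dom_congr (pow_one l).symm (Dom_mono h2 (fun x => ?_) ?_)
      · rw [TF_congr (pow_one l)]
      · rw [pow_one]
        push_cast
        exact le_of_eq (by ring)
    | j + 2, ih =>
      intro _ ν
      haveI : NeZero (l ^ j) := ⟨(pow_pos hl0 j).ne'⟩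
      have h2 := ih j (by omega) inferInstance
      have hB0 : 0 ≤ ((j : ℝ) + 1) * hl l * √(l : ℝ) ^ j := by positivity
      have h3 := Dom_TB l j hB0 h2 ν
      have h4 := hP l (j + 2) hl2 (by omega) ν
      have hs : √(l : ℝ) ^ (j + 2) = √(l : ℝ) ^ j * l := by
        rw [pow_add, Real.sq_sqrt hlR.le]
      have hsj : 0 ≤ √(l : ℝ) ^ j := by positivity
      have hl1 : (1 : ℝ) ≤ l := by exact_mod_cast hlp.one_lt.le
      by_cases hν : (l : ℤ) ∣ ν
      · by_cases h43 : l % 4 = 3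
        · refine Dom_mono h3 (fun x => ?_) ?_
          · rw [TF_split ν l, TS_zero l _ (dvd_pow_self l (by omega)) h43 ν hν, zero_add]
          · rw [hs]
            push_cast
            have h5 : √(l : ℝ) ^ j * 1 ≤ √(l : ℝ) ^ j * l := mul_le_mul_of_nonneg_left hl1 hsj
            rw [mul_one] at h5
            refine mul_le_mul ?_ h5 hsj (by positivity)
            exact mul_le_mul_of_nonneg_right (by linarith) (by linarith)
        · have hl5 : 5 ≤ l := by
            by_contra hcon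
            have h6 := hlp.two_le
            interval_cases l
            · exact hl2 rfl
            · exact h43 rfl
            · exact absurd hlp (by norm_num)
          have hl6 : l ≠ 6 := by
            rintro rfl
            exact absurd hlp (by norm_num)
          refine Dom_mono (Dom_add h4 h3) (fun x => ?_) ?_
          · rw [TF_split ν l]
            exact norm_add_le _ _
          · rw [hs]
            push_cast
            have h5 := Cp_le' hl5 hl6
            have h6 : Cp l * l + (j + 1) * hl l ≤ (j + 3) * hl l * l := by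
              have h7 : (3 * (l : ℝ) - 1) * 1 ≤ (3 * l - 1) * hl l :=
                mul_le_mul_of_nonneg_left hh1 (by linarith)
              have h8 : (j : ℝ) * hl l * 1 ≤ j * hl l * l :=
                mul_le_mul_of_nonneg_left hl1 (by positivity)
              linarith
            have h7 := mul_le_mul_of_nonneg_left h6 hsj
            linarith
      · have h5 : ∀ x, TB ν l (l ^ (j + 2)) x = 0 := fun x =>
          TB_zero l j ν x fun h => hν ((dvd_pow_self (l : ℤ) (by norm_num)).trans h)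
        refine Dom_mono h4 (fun x => ?_) ?_
        · rw [TF_split ν l, h5 x, add_zero]
        · have h6 := Cp_le (show 1 ≤ l by omega)
          push_cast
          refine mul_le_mul_of_nonneg_right (h6.trans ?_) (by positivity)
          refine mul_le_mul_of_nonneg_right ?_ (by linarith)
          have : (0 : ℝ) ≤ j := Nat.cast_nonneg j
          linarith

end S8Aux

theorem stDomL (h1 : StDom1) (hP : StDomP) : StDomL := by
  intro l _ k inst hl2 _ ν
  exact S8Aux.main h1 hP l hl2 k inst ν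

end Pool.Agent.TFS
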