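import Pool.Agent.Lib.TFS.MB

/-!
Module T1: `r₂(m) ≤ 16.33 m^(1/6)`.
-/

set_option autoImplicit false

open Finset

namespace Pool.Agent.TFS

open Pool.Agent.Lib.MP_0e0027_nt

namespace T1

/-- `(a + 1) ≤ c t^a` for `a ≥ k` -/
theorem lin_le_pow (t c : ℝ) (k : ℕ) (ht : 0 < t) (h1 : (k : ℝ) + 1 ≤ c * t ^ k)
    (h2 : (k : ℝ) + 2 ≤ t * (k + 1)) (a : ℕ) (ha : k ≤ a) : (a : ℝ) + 1 ≤ c * t ^ a := by
  induction a, ha using Nat.le_induction with
  | base => exact h1
  | succ a ha ih =>
    have hka : (k : ℝ) ≤ a := by exact_mod_cast ha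
    have ht1 : (a : ℝ) + 2 ≤ t * (a + 1) := by
      have : 1 ≤ t := by
        by_contra h
        push Not at h
        nlinarith [(Nat.cast_nonneg k : (0 : ℝ) ≤ k)]
      nlinarith
    push_cast
    rw [pow_succ]
    calc (a : ℝ) + 1 + 1 ≤ t * (a + 1) := by linarith
      _ ≤ t * (c * t ^ a) := by gcongr
      _ = _ := by ring

theorem rpow_pow_aux (p a : ℕ) (s : ℝ) : ((p ^ a : ℕ) : ℝ) ^ s = ((p : ℝ) ^ s) ^ a := by
  push_cast
  rw [← Real.rpow_natCast, ← Real.rpow_natCast, ← Real.rpow_mul (Nat.cast_nonneg _),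
    ← Real.rpow_mul (Nat.cast_nonneg _), mul_comm]

/-- lower bounds for sixth roots -/
theorem root_ge (t : ℝ) (p : ℕ) (ht : 0 ≤ t) (h : t ^ 6 ≤ p) : t ≤ (p : ℝ) ^ (1 / 6 : ℝ) := by
  have h1 : t = (t ^ 6) ^ (1 / 6 : ℝ) := by
    rw [← Real.rpow_natCast, ← Real.rpow_mul ht]
    norm_num
  rw [h1]
  exact Real.rpow_le_rpow (by positivity) h (by norm_num)

theorem R2_prime_pow_le (p a : ℕ) (hp : p.Prime) :
    (|R2 (p ^ a)| : ℤ) ≤ if p % 4 = 1 then (a : ℤ) + 1 else 1 := by
  rw [R2_prime_pow hp]
  split_ifs with h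
  · rw [c4_of_one h]; simp
    rw [abs_of_nonneg (by positivity)]
  · have : p % 2 = 0 ∨ p % 4 = 3 := by omega
    rcases this with h0 | h3
    · rw [c4_even h0, sum_range_succ']
      simp
    · rw [c4_of_three h3, neg_one_geom_sum]
      split_ifs <;> norm_num

/-- the constants -/
noncomputable def c1 (p : ℕ) : ℝ :=
  if p = 5 then 1.789 else if p = 13 then 1.3045 else if p = 17 then 1.2473 else
    if p = 29 then 1.1411 else if p = 37 then 1.0957 else if p = 41 then 1.0772 else
      if p = 53 then 1.0321 else if p = 61 then 1.0082 else 1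

/-- the exceptional primes -/
def S1 : Finset ℕ := {5, 13, 17, 29, 37, 41, 53, 61}

theorem pp_le (p a : ℕ) (c t : ℝ) (ht : 0 < t) (hc : 0 < c) (hr : t ^ 6 ≤ p)
    (k : ℕ) (h1 : (k : ℝ) + 1 ≤ c * t ^ k) (h2 : (k : ℝ) + 2 ≤ t * (k + 1))
    (h3 : ∀ j < k, (j : ℝ) + 1 ≤ c * t ^ j) (hp : p.Prime) :
    |(R2 (p ^ a) : ℝ)| ≤ c * ((p ^ a : ℕ) : ℝ) ^ (1 / 6 : ℝ) := by
  have hr' := root_ge t p ht.le hr
  have h4 : (a : ℝ) + 1 ≤ c * t ^ a := by
    rcases Nat.lt_or_ge a k with h | h
    · exact h3 a h
    · exact lin_le_pow t c k ht h1 h2 a h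
  rw [rpow_pow_aux]
  have h5 : |(R2 (p ^ a) : ℝ)| ≤ (a : ℝ) + 1 := by
    have h6 := R2_prime_pow_le p a hp
    have h7 : (|R2 (p ^ a)| : ℤ) ≤ (a : ℤ) + 1 := by
      split_ifs at h6 with h8
      · exact h6
      · have : (0 : ℤ) ≤ a := by positivity
        linarith
    exact_mod_cast h7
  calc |(R2 (p ^ a) : ℝ)| ≤ c * t ^ a := h5.trans h4
    _ ≤ _ := by gcongr

theorem small_le (p a : ℕ) (hp : p.Prime) (h : p % 4 ≠ 1) :
    |(R2 (p ^ a) : ℝ)| ≤ ((p ^ a : ℕ) : ℝ) ^ (1 / 6 : ℝ) := by
  have h6 := R2_prime_pow_le p a hp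
  rw [if_neg h] at h6
  have h7 : |(R2 (p ^ a) : ℝ)| ≤ 1 := by exact_mod_cast h6
  refine h7.trans (Real.one_le_rpow ?_ (by norm_num))
  exact_mod_cast Nat.one_le_pow _ _ hp.pos

end T1

open T1 in
/-- T1 -/
theorem stR2 : StR2 := by
  intro m hm
  have key := mult_bound (fun n ↦ |(R2 n : ℝ)|) (1 / 6) c1 S1 (by simp [R2_one])
    (fun n ↦ abs_nonneg _) (by
      intro m n h
      rw [R2_mul h]
      push_cast
      rw [abs_mul]) (by
      intro p hp
      simp only [S1, mem_insert, mem_singleton] at hp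
      rcases hp with rfl | rfl | rfl | rfl | rfl | rfl | rfl | rfl <;> simp only [c1] <;> norm_num) (by
      intro p a hp ha hpS
      simp only [S1, mem_insert, mem_singleton] at hpS
      rcases hpS with rfl | rfl | rfl | rfl | rfl | rfl | rfl | rfl
      · refine pp_le 5 a (c1 5) 1.30766 (by norm_num) (by norm_num [c1]) (by norm_num) 3
          (by norm_num [c1]) (by norm_num) ?_ hp
        intro j hj
        interval_cases j <;> norm_num [c1]
      · refine pp_le 13 a (c1 13) 1.5333 (by norm_num) (by norm_num [c1]) (by norm_num) 1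
          (by norm_num [c1]) (by norm_num) ?_ hp
        intro j hj
        interval_cases j
        norm_num [c1]
      · refine pp_le 17 a (c1 17) 1.6035 (by norm_num) (by norm_num [c1]) (by norm_num) 1
          (by norm_num [c1]) (by norm_num) ?_ hp
        intro j hj
        interval_cases j
        norm_num [c1]
      · refine pp_le 29 a (c1 29) 1.7528 (by norm_num) (by norm_num [c1]) (by norm_num) 1
          (by norm_num [c1]) (by norm_num) ?_ hp
        intro j hj
        interval_cases j
        norm_num [c1]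
      · refine pp_le 37 a (c1 37) 1.8254 (by norm_num) (by norm_num [c1]) (by norm_num) 1
          (by norm_num [c1]) (by norm_num) ?_ hp
        intro j hj
        interval_cases j
        norm_num [c1]
      · refine pp_le 41 a (c1 41) 1.8568 (by norm_num) (by norm_num [c1]) (by norm_num) 1
          (by norm_num [c1]) (by norm_num) ?_ hp
        intro j hj
        interval_cases j
        norm_num [c1]
      · refine pp_le 53 a (c1 53) 1.938 (by norm_num) (by norm_num [c1]) (by norm_num) 1
          (by norm_num [c1]) (by norm_num) ?_ hp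
        intro j hj
        interval_cases j
        norm_num [c1]
      · refine pp_le 61 a (c1 61) 1.984 (by norm_num) (by norm_num [c1]) (by norm_num) 1
          (by norm_num [c1]) (by norm_num) ?_ hp
        intro j hj
        interval_cases j
        norm_num [c1]) (by
      intro p a hp ha hpS
      by_cases h4 : p % 4 = 1
      · have h73 : 64 ≤ p := by
          by_contra hlt
          push Not at hlt
          interval_cases p <;> first | omega | (revert hp; norm_num; done) | (revert hpS; simp [S1])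
        have := pp_le p a 1 2 (by norm_num) (by norm_num) (by
          have : (64 : ℝ) ≤ p := by exact_mod_cast h73
          linarith) 0 (by norm_num) (by norm_num) (by intro j hj; omega) hp
        rwa [one_mul] at this
      · exact small_le p a hp h4) m (by omega)
  have h2 := r2_eq m (by omega)
  have h3 : ((r2set m).card : ℝ) = 4 * (R2 m : ℝ) := by exact_mod_cast h2
  rw [h3]
  have h4 : ∏ p ∈ S1, c1 p ≤ 4.0825 := by
    simp only [S1]
    rw [prod_insert (by decide), prod_insert (by decide), prod_insert (by decide),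
      prod_insert (by decide), prod_insert (by decide), prod_insert (by decide),
      prod_insert (by decide), prod_singleton]
    norm_num [c1]
  have h5 : (0 : ℝ) ≤ (m : ℝ) ^ (1 / 6 : ℝ) := Real.rpow_nonneg (Nat.cast_nonneg _) _
  have h6 := le_abs_self (R2 m : ℝ)
  nlinarith

end Pool.Agent.TFS
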