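import Pool.Agent.Lib.TFS.StmtsC

/-! Module T2: the trivial bound for large primes. -/

set_option autoImplicit false

open Finset

namespace Pool.Agent.TFS

open Pool.Agent.Lib.MP_0e0027_nt

namespace TrivT2

/-- partial sums of `χ₄` -/
def sg (N : ℕ) : ℤ := if N % 4 = 1 ∨ N % 4 = 2 then 1 else 0

/-- alternating sums of a decreasing function -/
lemma alt_sum (g : ℕ → ℤ) (hg : ∀ n, 1 ≤ n → g (n + 1) ≤ g n) (h0 : ∀ n, 0 ≤ g n) (N : ℕ) :
    ∑ n ∈ Ioc 0 (N + 1), c4 n * g n + (1 - sg (N + 1)) * g (N + 1) ≤ g 1 := by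
  induction N with
  | zero =>
    simp [sg, c4_one]
  | succ N ih =>
    have hIoc : Ioc 0 (N + 1 + 1) = insert (N + 1 + 1) (Ioc 0 (N + 1)) := by
      ext x
      simp only [mem_Ioc, mem_insert]
      omega
    rw [hIoc, sum_insert (by simp)]
    have hd := hg (N + 1) (by omega)
    have h1 := h0 (N + 1 + 1)
    have h2 := h0 (N + 1)
    have hcases : (N + 1) % 4 = 0 ∨ (N + 1) % 4 = 1 ∨ (N + 1) % 4 = 2 ∨ (N + 1) % 4 = 3 := by omega
    rcases hcases with h | h | h | h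
    · have e1 : c4 (N + 1 + 1) = 1 := c4_of_one (by omega)
      have e2 : sg (N + 1) = 0 := by unfold sg; rw [if_neg]; omega
      have e3 : sg (N + 1 + 1) = 1 := by unfold sg; rw [if_pos]; omega
      rw [e1, e3]
      rw [e2] at ih
      linarith
    · have e1 : c4 (N + 1 + 1) = 0 := c4_even (by omega)
      have e2 : sg (N + 1) = 1 := by unfold sg; rw [if_pos]; omega
      have e3 : sg (N + 1 + 1) = 1 := by unfold sg; rw [if_pos]; omega
      rw [e1, e3]
      rw [e2] at ih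
      linarith
    · have e1 : c4 (N + 1 + 1) = -1 := c4_of_three (by omega)
      have e2 : sg (N + 1) = 1 := by unfold sg; rw [if_pos]; omega
      have e3 : sg (N + 1 + 1) = 0 := by unfold sg; rw [if_neg]; omega
      rw [e1, e3]
      rw [e2] at ih
      linarith
    · have e1 : c4 (N + 1 + 1) = 0 := c4_even (by omega)
      have e2 : sg (N + 1) = 0 := by unfold sg; rw [if_neg]; omega
      have e3 : sg (N + 1 + 1) = 0 := by unfold sg; rw [if_neg]; omega
      rw [e1, e3]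
      rw [e2] at ih
      linarith

lemma sum_r2_le (N : ℕ) : ∑ n ∈ Ioc 0 N, (r2set n).card ≤ 4 * N := by
  have h1 : ((∑ n ∈ Ioc 0 N, (r2set n).card : ℕ) : ℤ) = 4 * ∑ n ∈ Ioc 0 N, R2 n := by
    push_cast
    rw [Finset.mul_sum]
    refine sum_congr rfl (fun n hn ↦ ?_)
    exact r2_eq n (mem_Ioc.mp hn).1
  have h2 : ∑ n ∈ Ioc 0 N, R2 n = ∑ n ∈ Ioc 0 N, c4 n * ((N / n : ℕ) : ℤ) := by
    simp_rw [R2_eq]
    rw [ArithmeticFunction.sum_Ioc_mul_zeta_eq_sum]
    rfl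
  have h3 : ∑ n ∈ Ioc 0 N, c4 n * ((N / n : ℕ) : ℤ) ≤ N := by
    rcases Nat.eq_zero_or_pos N with h | h
    · subst h; simp
    · obtain ⟨M, rfl⟩ := Nat.exists_eq_succ_of_ne_zero h.ne'
      have := alt_sum (fun n ↦ (((M + 1) / n : ℕ) : ℤ)) (by
        intro n hn
        exact_mod_cast Nat.div_le_div_left (Nat.le_succ n) hn) (by intro n; positivity) M
      have h5 : 0 ≤ (1 - sg (M + 1)) * (((M + 1) / (M + 1) : ℕ) : ℤ) := by
        apply mul_nonneg
        · unfold sg; split_ifs <;> norm_num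
        · positivity
      simp only [Nat.div_one] at this
      have h6 : ((M.succ : ℕ) : ℤ) = ((M + 1 : ℕ) : ℤ) := rfl
      rw [h6]
      exact le_trans (by linarith) this
  have : ((∑ n ∈ Ioc 0 N, (r2set n).card : ℕ) : ℤ) ≤ 4 * N := by
    rw [h1, h2]; linarith
  exact_mod_cast this

lemma card_r2set_zero : (r2set 0).card = 1 := by
  rw [Finset.card_eq_one]
  refine ⟨(0, 0), ?_⟩
  ext z
  rw [mem_r2set, mem_singleton]
  constructor
  · intro h
    have h1 : z.1 = 0 := by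
      have : z.1 ^ 2 = 0 := le_antisymm (by push_cast at h; nlinarith [sq_nonneg z.2]) (sq_nonneg _)
      exact pow_eq_zero_iff (two_ne_zero) |>.mp this
    have h2 : z.2 = 0 := by
      have : z.2 ^ 2 = 0 := le_antisymm (by push_cast at h; nlinarith [sq_nonneg z.1]) (sq_nonneg _)
      exact pow_eq_zero_iff (two_ne_zero) |>.mp this
    exact Prod.ext h1 h2
  · rintro rfl
    simp

end TrivT2

open TrivT2 in
theorem stTriv (h : StR2) : StTriv := by
  classical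
  intro p ν hp hν
  set S : Set (GI × GI) := {u : GI × GI | u.2 ≠ 0 ∧ N2 u.1 + (p : ℤ) ^ 2 * N2 u.2 = ν} with hS
  let N : ℕ := ν / p ^ 2
  let F : Finset ((ℤ × ℤ) × (ℤ × ℤ)) :=
    (Ioc 0 N).biUnion (fun n ↦ (r2set (ν - p ^ 2 * n)) ×ˢ (r2set n))
  let f : GI × GI → (ℤ × ℤ) × (ℤ × ℤ) := fun u ↦ ((u.1.re, u.1.im), (u.2.re, u.2.im))
  have hf : Function.Injective f := by
    rintro ⟨⟨a, b⟩, ⟨c, d⟩⟩ ⟨⟨a', b'⟩, ⟨c', d'⟩⟩ h
    simp only [f, Prod.mk.injEq] at h
    obtain ⟨⟨rfl, rfl⟩, ⟨rfl, rfl⟩⟩ := h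
    rfl
  have hmaps : ∀ u ∈ S, f u ∈ (F : Set ((ℤ × ℤ) × (ℤ × ℤ))) := by
    rintro ⟨x, y⟩ ⟨hy, hxy⟩
    simp only at hy hxy
    have hNy : 0 ≤ N2 y := by unfold N2; positivity
    have hNx : 0 ≤ N2 x := by unfold N2; positivity
    obtain ⟨n, hn⟩ := Int.eq_ofNat_of_zero_le hNy
    have hn0 : 0 < n := by
      rcases Nat.eq_zero_or_pos n with h0 | h0
      · exfalso
        apply hy
        rw [h0] at hn
        unfold N2 at hn
        have h1 : y.re = 0 := by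
          have : y.re ^ 2 = 0 :=
            le_antisymm (by push_cast at hn; nlinarith [sq_nonneg y.im]) (sq_nonneg _)
          exact pow_eq_zero_iff (two_ne_zero) |>.mp this
        have h2 : y.im = 0 := by
          have : y.im ^ 2 = 0 :=
            le_antisymm (by push_cast at hn; nlinarith [sq_nonneg y.re]) (sq_nonneg _)
          exact pow_eq_zero_iff (two_ne_zero) |>.mp this
        exact Zsqrtd.ext h1 h2
      · exact h0
    have hle : p ^ 2 * n ≤ ν := by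
      have : ((p ^ 2 * n : ℕ) : ℤ) ≤ (ν : ℤ) := by
        rw [hn] at hxy
        push_cast
        linarith
      exact_mod_cast this
    have hnN : n ≤ N := (Nat.le_div_iff_mul_le (by positivity)).mpr (by rw [mul_comm]; exact hle)
    refine Finset.mem_coe.mpr (Finset.mem_biUnion.mpr ⟨n, Finset.mem_Ioc.mpr ⟨hn0, hnN⟩, ?_⟩)
    refine Finset.mem_product.mpr ⟨?_, ?_⟩
    · rw [mem_r2set]
      simp only [f]
      rw [Nat.cast_sub hle]
      have : N2 x = x.re ^ 2 + x.im ^ 2 := rfl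
      rw [← this]
      rw [hn] at hxy
      push_cast
      linarith
    · rw [mem_r2set]
      simp only [f]
      exact hn
  have hfin : S.Finite := Set.Finite.of_injOn (f := f) hmaps (hf.injOn) (Finset.finite_toSet F)
  refine ⟨hfin, ?_⟩
  have hcard : S.ncard ≤ F.card := by
    have := Set.ncard_le_ncard_of_injOn f hmaps hf.injOn (Finset.finite_toSet F)
    rwa [Set.ncard_coe_finset] at this
  have hνr : (1 : ℝ) ≤ ν := by exact_mod_cast hν
  have hpow1 : (1 : ℝ) ≤ (ν : ℝ) ^ (1 / 6 : ℝ) := Real.one_le_rpow hνr (by norm_num)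
  have hr2 : ∀ a : ℕ, a ≤ ν → ((r2set a).card : ℝ) ≤ 16.33 * (ν : ℝ) ^ (1 / 6 : ℝ) := by
    intro a ha
    rcases Nat.eq_zero_or_pos a with h0 | h0
    · subst h0
      rw [card_r2set_zero]
      push_cast
      linarith
    · refine (h a h0).trans ?_
      have : (a : ℝ) ^ (1 / 6 : ℝ) ≤ (ν : ℝ) ^ (1 / 6 : ℝ) :=
        Real.rpow_le_rpow (by positivity) (by exact_mod_cast ha) (by norm_num)
      linarith
  have h1 : (F.card : ℝ) ≤ ∑ n ∈ Ioc 0 N, ((r2set (ν - p ^ 2 * n)).card : ℝ) * ((r2set n).card : ℝ) := by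
    have := Finset.card_biUnion_le (s := Ioc 0 N) (t := fun n ↦ (r2set (ν - p ^ 2 * n)) ×ˢ (r2set n))
    simp only [Finset.card_product] at this
    exact_mod_cast this
  have h2 : ∑ n ∈ Ioc 0 N, ((r2set (ν - p ^ 2 * n)).card : ℝ) * ((r2set n).card : ℝ) ≤
      (16.33 * (ν : ℝ) ^ (1 / 6 : ℝ)) * ∑ n ∈ Ioc 0 N, ((r2set n).card : ℝ) := by
    rw [Finset.mul_sum]
    refine Finset.sum_le_sum (fun n _ ↦ ?_)
    exact mul_le_mul_of_nonneg_right (hr2 _ (Nat.sub_le _ _)) (by positivity)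
  have h3 : ∑ n ∈ Ioc 0 N, ((r2set n).card : ℝ) ≤ 4 * ((ν : ℝ) / p ^ 2) := by
    have h4 : ((∑ n ∈ Ioc 0 N, (r2set n).card : ℕ) : ℝ) ≤ ((4 * N : ℕ) : ℝ) := by
      exact_mod_cast sum_r2_le N
    push_cast at h4
    have h5 : (N : ℝ) ≤ (ν : ℝ) / ((p ^ 2 : ℕ) : ℝ) := Nat.cast_div_le
    push_cast at h5
    linarith
  have h6 : (0 : ℝ) ≤ 16.33 * (ν : ℝ) ^ (1 / 6 : ℝ) := by positivity
  have h7 : (S.ncard : ℝ) ≤ (F.card : ℝ) := by exact_mod_cast hcard
  calc (S.ncard : ℝ) ≤ (16.33 * (ν : ℝ) ^ (1 / 6 : ℝ)) * ∑ n ∈ Ioc 0 N, ((r2set n).card : ℝ) :=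
        h7.trans (h1.trans h2)
    _ ≤ (16.33 * (ν : ℝ) ^ (1 / 6 : ℝ)) * (4 * ((ν : ℝ) / p ^ 2)) :=
        mul_le_mul_of_nonneg_left h3 h6
    _ = _ := by ring

end Pool.Agent.TFS
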