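import Pool.Agent.Lib.TFS.A1
import Pool.Agent.Lib.TFS.A2
import Pool.Agent.Lib.TFS.A3
import Pool.Agent.Lib.TFS.A4
import Pool.Agent.Lib.TFS.A5
import Pool.Agent.Lib.TFS.A6
import Pool.Agent.Lib.TFS.C1
import Pool.Agent.Lib.TFS.C2
import Pool.Agent.Lib.TFS.C3
import Pool.Agent.Lib.TFS.C4
import Pool.Agent.Lib.TFS.F1
import Pool.Agent.Lib.TFS.F2
import Pool.Agent.Lib.TFS.F3
import Pool.Agent.Lib.TFS.F5
import Pool.Agent.Lib.TFS.J1
import Pool.Agent.Lib.TFS.J2
import Pool.Agent.Lib.TFS.M1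
import Pool.Agent.Lib.TFS.M2
import Pool.Agent.Lib.TFS.M3
import Pool.Agent.Lib.TFS.M4
import Pool.Agent.Lib.TFS.P1
import Pool.Agent.Lib.TFS.P2
import Pool.Agent.Lib.TFS.P3
import Pool.Agent.Lib.TFS.P4
import Pool.Agent.Lib.TFS.S1
import Pool.Agent.Lib.TFS.S2
import Pool.Agent.Lib.TFS.S3
import Pool.Agent.Lib.TFS.S4
import Pool.Agent.Lib.TFS.S5
import Pool.Agent.Lib.TFS.S6
import Pool.Agent.Lib.TFS.S7
import Pool.Agent.Lib.TFS.S8
import Pool.Agent.Lib.TFS.S9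
import Pool.Agent.Lib.TFS.S10
import Pool.Agent.Lib.TFS.T1
import Pool.Agent.Lib.TFS.T2
import Pool.Agent.Lib.MP_0e0027_nt.Ex.W.W1
import Pool.Agent.Lib.MP_0e0027_nt.Ex.W.W2
import Pool.Agent.Lib.MP_0e0027_nt.Ex.W.W2a
import Pool.Agent.Lib.MP_0e0027_nt.Ex.W.W2b
import Pool.Agent.Lib.MP_0e0027_nt.Ex.W.W3
import Pool.Agent.Lib.MP_0e0027_nt.Ex.W.W4a
import Pool.Agent.Lib.MP_0e0027_nt.Ex.W.W4b
import Pool.Agent.Lib.MP_0e0027_nt.Ex.W.W4c
import Pool.Agent.Lib.MP_0e0027_nt.Ex.W.WF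

/-!
Assembly of the analytic part: the Weil bound, the domination theorem, the asymptotic formula, the
upper bound for medium primes and the master inequality, without hypotheses.
-/

set_option autoImplicit false

namespace Pool.Agent.TFS

open Pool.Agent.Lib.MP_0e0027_nt

theorem weilAll : StWeil := by
  intro p _ hp a b ha hb
  have h3 : 3 ≤ p := by
    have := (Fact.out : p.Prime).two_le
    omega
  exact Ex.stWeil (Ex.stW3 Ex.stW1 (Ex.stW2 Ex.stW2a Ex.stW2b)) Ex.stW4a Ex.stW4b Ex.stW4c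
    p a b h3 ha hb

theorem domAll : StDOM := by
  have h1 := stDom1 weilAll stT1
  have hP := stDomP weilAll stT1 stT2 stLift (stSplit weilAll stKpp)
  exact stDOM hP (stDomL h1 hP) stCRT

theorem poiAll : StPoi := stPoi stTh stPS stUd stCRT

theorem asAll : StAs :=
  stAs domAll poiAll (stD stPhi) (stSW stPhi) (stES stMdiv)
    (stMT stPhi stRho (stInner stPhi) stZeta)

theorem cpAll : StCP := stCP domAll poiAll (stSC stTh) stLB stR2maj stRho

theorem masterAll : StMaster :=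
  stMaster stUB stAN (stOmc (stJac stJacO) stJacO) asAll cpAll (stTriv stR2)

end Pool.Agent.TFS
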