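import Pool.Agent.Lib.TFS.StmtsR

set_option autoImplicit false

namespace Pool.Agent.TFS

open Pool.Agent.Lib.MP_0e0027_nt

/-- the analytic result from the numerical ranges -/
theorem stBig (h1 : StR1) (h2 : StR2p) (h3 : StR3) (h4 : StR4) (h5 : StR5) : StBig := by
  intro n ha hn1 hn0
  rcases le_total (nu n) (10 ^ 18) with h | h
  · have h01 : n % 3 = 0 ∨ n % 3 = 1 := by
      have := ha.2
      omega
    rcases h01 with h0 | h0
    · exact h3 n ha h0 (hn0 h0) h
    · rcases Nat.mod_two_eq_zero_or_one n with he | he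
      · exact h2 n ha h0 he (hn1 h0) h
      · exact h1 n ha h0 he (hn1 h0) h
  · rcases le_total (nu n) (10 ^ 20) with h' | h'
    · exact h4 n ha h h'
    · exact h5 n ha h'

end Pool.Agent.TFS
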