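import Pool.Agent.Lib.TFS.StmtsF

/-!
F4: the slack lemma `StSlack`.
-/

set_option autoImplicit false

open Finset

namespace Pool.Agent.TFS

namespace F4

/-! ### Multiplicativity of `gs` -/

/-- `e ↦ [e coprime to w] / e` -/
noncomputable def fa (w : ℕ) : ArithmeticFunction ℝ :=
  ⟨fun e ↦ if e.Coprime w then (1 : ℝ) / e else 0, by simp⟩

lemma fa_apply (w e : ℕ) : fa w e = if e.Coprime w then (1 : ℝ) / e else 0 := rfl

lemma fa_mult (w : ℕ) : (fa w).IsMultiplicative := by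
  constructor
  · simp [fa_apply]
  · intro m n _
    simp only [fa_apply, Nat.coprime_mul_iff_left]
    by_cases h1 : m.Coprime w
    · by_cases h2 : n.Coprime w
      · rw [if_pos ⟨h1, h2⟩, if_pos h1, if_pos h2]
        push_cast
        rw [div_mul_div_comm, one_mul]
      · rw [if_neg (fun h ↦ h2 h.2), if_neg h2, mul_zero]
    · rw [if_neg (fun h ↦ h1 h.1), if_neg h1, zero_mul]

lemma gs_eq (ν w : ℕ) : gs ν w = (fa w * (ArithmeticFunction.zeta : ArithmeticFunction ℝ)) ν := by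
  rw [ArithmeticFunction.coe_mul_zeta_apply, gs, Finset.sum_filter]
  rfl

lemma gs_mul (w : ℕ) {m n : ℕ} (h : m.Coprime n) : gs (m * n) w = gs m w * gs n w := by
  rw [gs_eq, gs_eq, gs_eq]
  exact ((fa_mult w).mul (ArithmeticFunction.isMultiplicative_zeta.natCast)).map_mul_of_coprime h

/-- `1 + 1/p + ... + 1/p^v` -/
noncomputable def sv (p v : ℕ) : ℝ := ∑ i ∈ range (v + 1), (1 / (p : ℝ)) ^ i

lemma gs_pow (w : ℕ) {p : ℕ} (hp : p.Prime) (hw : ¬ p ∣ w) (v : ℕ) : gs (p ^ v) w = sv p v := by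
  rw [gs, Finset.sum_filter, Nat.sum_divisors_prime_pow hp, sv]
  refine Finset.sum_congr rfl fun i _ ↦ ?_
  have : (p ^ i).Coprime w := Nat.Coprime.pow_left i ((Nat.Prime.coprime_iff_not_dvd hp).2 hw)
  rw [if_pos this]
  push_cast
  rw [one_div, one_div, inv_pow]

lemma gs_pow' (w : ℕ) {p : ℕ} (hp : p.Prime) (v : ℕ) : gs (p ^ v) (w * p) = 1 := by
  rw [gs, Finset.sum_filter, Nat.sum_divisors_prime_pow hp, Finset.sum_eq_single 0]
  · simp
  · intro i _ hi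
    rw [if_neg]
    intro hc
    have h1 : p ∣ p ^ i := dvd_pow_self p hi
    have h2 : p ∣ w * p := Dvd.intro_left w rfl
    have := Nat.dvd_gcd h1 h2
    rw [hc] at this
    exact hp.one_lt.ne' (Nat.dvd_one.1 this)
  · simp

lemma gs_coprime (w : ℕ) {p m : ℕ} (hp : p.Prime) (hm : ¬ p ∣ m) : gs m (w * p) = gs m w := by
  rw [gs, gs]
  refine Finset.sum_congr ?_ fun _ _ ↦ rfl
  ext e
  simp only [mem_filter, Nat.mem_divisors]
  constructor
  · rintro ⟨h1, h2⟩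
    exact ⟨h1, h2.coprime_mul_right_right⟩
  · rintro ⟨h1, h2⟩
    refine ⟨h1, Nat.Coprime.mul_right h2 ?_⟩
    refine ((Nat.Prime.coprime_iff_not_dvd hp).2 ?_).symm
    intro h3
    exact hm (h3.trans h1.1)

/-- the local factor at `p` -/
noncomputable def sp (ν p : ℕ) : ℝ := sv p (ν.factorization p)

lemma decomp {p ν : ℕ} (hp : p.Prime) (hν : 1 ≤ ν) :
    ∃ m, ν = p ^ (ν.factorization p) * m ∧ ¬ p ∣ m := by
  refine ⟨ν / p ^ (ν.factorization p), (Nat.ordProj_mul_ordCompl_eq_self ν p).symm, ?_⟩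
  exact Nat.not_dvd_ordCompl hp (by omega)

lemma copr {p m : ℕ} (hp : p.Prime) (hm : ¬ p ∣ m) (v : ℕ) : (p ^ v).Coprime m :=
  Nat.Coprime.pow_left v ((Nat.Prime.coprime_iff_not_dvd hp).2 hm)

lemma gs_split {p ν w : ℕ} (hp : p.Prime) (hν : 1 ≤ ν) (hw : ¬ p ∣ w) :
    gs ν w = sp ν p * gs ν (w * p) := by
  obtain ⟨m, h1, h2⟩ := decomp hp hν
  rw [sp]
  set v := ν.factorization p
  rw [h1, gs_mul w (copr hp h2 v), gs_mul (w * p) (copr hp h2 v), gs_pow w hp hw, gs_pow' w hp,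
    gs_coprime w hp h2, one_mul]

lemma gs_div {p ν w : ℕ} (hp : p.Prime) (hν : 1 ≤ ν) (hw : ¬ p ∣ w) (hd : p ^ 2 ∣ ν) :
    2 ≤ ν.factorization p ∧
    gs (ν / p ^ 2) w = sv p (ν.factorization p - 2) * gs ν (w * p) := by
  obtain ⟨m, h1, h2⟩ := decomp hp hν
  have hv : 2 ≤ ν.factorization p := (hp.pow_dvd_iff_le_factorization (by omega)).1 hd
  refine ⟨hv, ?_⟩
  have h3 : ν / p ^ 2 = p ^ (ν.factorization p - 2) * m := by
    conv_lhs => rw [h1]
    have h4 : p ^ ν.factorization p = p ^ 2 * p ^ (ν.factorization p - 2) := by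
      rw [← pow_add]; congr 1; omega
    rw [h4, mul_assoc, Nat.mul_div_cancel_left _ (pow_pos hp.pos 2)]
  rw [h3, gs_mul w (copr hp h2 _), gs_pow w hp hw]
  congr 1
  conv_rhs => rw [h1]
  rw [gs_mul (w * p) (copr hp h2 _), gs_pow' w hp, gs_coprime w hp h2, one_mul]

/-! ### The local factors -/

lemma sv_zero (p : ℕ) : sv p 0 = 1 := by simp [sv]

lemma sv_succ_ge {p : ℕ} (v : ℕ) (hv : 1 ≤ v) : 1 + 1 / (p : ℝ) ≤ sv p v := by
  obtain ⟨u, rfl⟩ : ∃ u, v = u + 1 := ⟨v - 1, by omega⟩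
  rw [sv, Finset.sum_range_succ', Finset.sum_range_succ']
  have h : 0 ≤ ∑ k ∈ range u, (1 / (p : ℝ)) ^ (k + 1 + 1) :=
    Finset.sum_nonneg fun _ _ ↦ by positivity
  simp only [zero_add, pow_one, pow_zero]
  linarith

lemma sv_ge_one (p v : ℕ) : 1 ≤ sv p v := by
  rw [sv, Finset.sum_range_succ']
  have h : 0 ≤ ∑ k ∈ range v, (1 / (p : ℝ)) ^ (k + 1) :=
    Finset.sum_nonneg fun _ _ ↦ by positivity
  simp only [pow_zero]
  linarith

lemma sv_le {p : ℕ} (hp : 2 ≤ p) (v : ℕ) : sv p v ≤ (p : ℝ) / (p - 1) := by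
  have hp' : (2 : ℝ) ≤ p := by exact_mod_cast hp
  have h1 : (1 / (p : ℝ)) ≠ 1 := by
    intro h
    rw [div_eq_one_iff_eq (by positivity)] at h
    linarith
  have h2 : 0 < 1 - 1 / (p : ℝ) := by
    rw [sub_pos, div_lt_one (by positivity)]; linarith
  have h3 : sv p v * (1 - 1 / (p : ℝ)) = 1 - (1 / (p : ℝ)) ^ (v + 1) := by
    rw [sv]
    exact geom_sum_mul_neg (1 / (p : ℝ)) (v + 1)
  have h4 : sv p v * (1 - 1 / (p : ℝ)) ≤ 1 := by
    rw [h3]
    have : 0 ≤ (1 / (p : ℝ)) ^ (v + 1) := by positivity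
    linarith
  have h5 : (p : ℝ) / (p - 1) = 1 / (1 - 1 / (p : ℝ)) := by
    have : (p : ℝ) - 1 ≠ 0 := by linarith
    field_simp
  rw [h5, le_div_iff₀ h2]
  exact h4

lemma sv_rec {p : ℕ} (v : ℕ) (hv : 2 ≤ v) :
    sv p v = 1 + 1 / (p : ℝ) + sv p (v - 2) / (p : ℝ) ^ 2 := by
  obtain ⟨u, rfl⟩ : ∃ u, v = u + 2 := ⟨v - 2, by omega⟩
  rw [sv, Finset.sum_range_succ', Finset.sum_range_succ']
  have e : u + 2 - 2 = u := by omega
  rw [e, sv, Finset.sum_div]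
  have : ∀ k, (1 / (p : ℝ)) ^ (k + 1 + 1) = (1 / (p : ℝ)) ^ k / (p : ℝ) ^ 2 := by
    intro k
    rw [pow_succ, pow_succ]
    ring
  simp only [this]
  simp only [zero_add, pow_one, pow_zero]
  ring

/-- relative main term, `p ∤ ν` -/
noncomputable def M0 (p : ℕ) : ℝ :=
  if p % 4 = 1 then 6 / ((p : ℝ) * (p + 1)) else 6 / ((p : ℝ) * (p - 1))

/-- the coefficient at split primes -/
noncomputable def cc (p : ℕ) : ℝ :=
  if p % 4 = 1 then 1 + 1 / (p : ℝ) - 12 / ((p : ℝ) * (p + 1)) else 1 + 1 / (p : ℝ)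

/-- relative main term -/
noncomputable def Ml (ν p : ℕ) : ℝ := if p ∣ ν then 1 - cc p / sp ν p else M0 p

lemma mod4 {p : ℕ} (hp : p.Prime) (h5 : 5 ≤ p) : p % 4 = 1 ∨ p % 4 = 3 := by
  have : p % 2 = 1 := (Nat.Prime.eq_two_or_odd hp).resolve_left (by omega)
  omega

lemma ndvd6 {p : ℕ} (hp : p.Prime) (h5 : 5 ≤ p) : ¬ p ∣ 6 := by
  intro h
  have h1 : p ∣ 2 * 3 := h
  rcases (Nat.Prime.dvd_mul hp).1 h1 with h | h
  · exact absurd (Nat.le_of_dvd (by norm_num) h) (by omega)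
  · exact absurd (Nat.le_of_dvd (by norm_num) h) (by omega)

lemma Mp_eq {p ν : ℕ} (hp : p.Prime) (h5 : 5 ≤ p) (hν : 1 ≤ ν) :
    Mp ν p = gs ν 6 * Ml ν p := by
  have hp' : (5 : ℝ) ≤ p := by exact_mod_cast h5
  have hs := gs_split hp hν (ndvd6 hp h5)
  have hs1 : 1 ≤ sp ν p := sv_ge_one p _
  have hs0 : sp ν p ≠ 0 := by positivity
  have hq : 1 - 1 / (p : ℝ) ^ 2 = ((p : ℝ) - 1) * (p + 1) / (p : ℝ) ^ 2 := by
    field_simp; ring
  have hpm : (p : ℝ) - 1 ≠ 0 := by linarith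
  have hpp : (p : ℝ) + 1 ≠ 0 := by linarith
  have hp0 : (p : ℝ) ≠ 0 := by linarith
  rw [Mp, hq, Ml, hs]
  by_cases hd : p ∣ ν
  · rw [if_pos hd, r4, if_pos (Int.natCast_dvd_natCast.2 hd)]
    have hv1 : 1 ≤ ν.factorization p := (hp.dvd_iff_one_le_factorization (by omega)).1 hd
    have key : (if p ^ 2 ∣ ν then gs (ν / p ^ 2) 6 / (p : ℝ) ^ 2 else 0) =
        (sp ν p - 1 - 1 / (p : ℝ)) * gs ν (6 * p) := by
      by_cases hd2 : p ^ 2 ∣ ν
      · obtain ⟨h1, h2⟩ := gs_div hp hν (ndvd6 hp h5) hd2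
        rw [if_pos hd2, h2, sp, sv_rec _ h1]
        ring
      · have h1 : ν.factorization p = 1 := by
          by_contra hne
          apply hd2
          exact (hp.pow_dvd_iff_le_factorization (by omega)).2 (by omega)
        rw [if_neg hd2, sp, h1, sv]
        simp [Finset.sum_range_succ]
    rw [key, cc]
    rcases mod4 hp h5 with h | h
    · rw [if_pos h, if_pos h]
      field_simp
      ring
    · rw [if_neg (by omega), if_neg (by omega)]
      field_simp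
      ring
  · have hd2 : ¬ p ^ 2 ∣ ν := fun h ↦ hd ((Dvd.intro_left _ rfl : p ∣ p ^ 1 * p).trans (by
      simpa [pow_succ] using h))
    have hv0 : ν.factorization p = 0 := Nat.factorization_eq_zero_of_not_dvd hd
    have hsp : sp ν p = 1 := by rw [sp, hv0, sv_zero]
    rw [if_neg hd, if_neg hd2, r4, if_neg (fun h ↦ hd (Int.natCast_dvd_natCast.1 h)), hsp, M0, ch]
    rcases mod4 hp h5 with h | h
    · rw [if_pos h, ZMod.χ₄_nat_one_mod_four h]
      push_cast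
      field_simp
      ring
    · rw [if_neg (by omega), ZMod.χ₄_nat_three_mod_four h]
      push_cast
      field_simp
      ring

/-- upper bound for the relative main term -/
noncomputable def U (p : ℕ) : ℝ :=
  if p % 4 = 1 then 12 * ((p : ℝ) - 1) / ((p : ℝ) ^ 2 * (p + 1)) + 1 / (p : ℝ) ^ 2
  else 6 / ((p : ℝ) * (p - 1))

lemma M0_nonneg {p : ℕ} (h5 : 5 ≤ p) : 0 ≤ M0 p := by
  have hp' : (5 : ℝ) ≤ p := by exact_mod_cast h5
  have : (0 : ℝ) < p - 1 := by linarith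
  rw [M0]; split_ifs <;> positivity

lemma M0_le_U {p : ℕ} (h5 : 5 ≤ p) : M0 p ≤ U p := by
  have hp' : (5 : ℝ) ≤ p := by exact_mod_cast h5
  have h1 : (0 : ℝ) < p - 1 := by linarith
  rw [M0, U]
  split_ifs
  · have h2 : 12 * ((p : ℝ) - 1) / ((p : ℝ) ^ 2 * (p + 1)) + 1 / (p : ℝ) ^ 2 - 6 / ((p : ℝ) * (p + 1))
        = (7 * (p : ℝ) - 11) / ((p : ℝ) ^ 2 * (p + 1)) := by
      field_simp; ring
    have h3 : 0 ≤ (7 * (p : ℝ) - 11) / ((p : ℝ) ^ 2 * (p + 1)) := by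
      apply div_nonneg <;> nlinarith
    linarith
  · exact le_refl _

lemma sp_dvd {p ν : ℕ} (hp : p.Prime) (hν : 1 ≤ ν) (hd : p ∣ ν) :
    1 + 1 / (p : ℝ) ≤ sp ν p ∧ sp ν p ≤ (p : ℝ) / (p - 1) :=
  ⟨sv_succ_ge _ ((hp.dvd_iff_one_le_factorization (by omega)).1 hd), sv_le hp.two_le _⟩

lemma sp_ndvd {p ν : ℕ} (hd : ¬ p ∣ ν) : sp ν p = 1 ∧ Ml ν p = M0 p := by
  constructor
  · rw [sp, Nat.factorization_eq_zero_of_not_dvd hd, sv_zero]
  · rw [Ml, if_neg hd]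

lemma cc_le {p : ℕ} (h5 : 5 ≤ p) : cc p ≤ 1 + 1 / (p : ℝ) := by
  rw [cc]
  split_ifs
  · have : 0 ≤ 12 / ((p : ℝ) * (p + 1)) := by positivity
    linarith
  · exact le_refl _

lemma cc_nonneg {p : ℕ} (h5 : 5 ≤ p) : 0 ≤ cc p := by
  have hp' : (5 : ℝ) ≤ p := by exact_mod_cast h5
  rw [cc]
  split_ifs
  · have h1 : 12 / ((p : ℝ) * (p + 1)) ≤ 1 := by
      rw [div_le_one (by positivity)]
      nlinarith
    have h2 : 0 ≤ 1 / (p : ℝ) := by positivity
    linarith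
  · positivity

lemma one_sub_cc {p : ℕ} (h5 : 5 ≤ p) : 1 - cc p * (((p : ℝ) - 1) / p) ≤ U p := by
  have hp' : (5 : ℝ) ≤ p := by exact_mod_cast h5
  have h1 : (0 : ℝ) < p - 1 := by linarith
  rw [cc, U]
  split_ifs
  · apply le_of_eq
    field_simp
    ring
  · have e : 1 - (1 + 1 / (p : ℝ)) * (((p : ℝ) - 1) / p) = 1 / (p : ℝ) ^ 2 := by
      field_simp; ring
    rw [e, div_le_div_iff₀ (by positivity) (by positivity)]
    nlinarith

lemma one_sub_cc_eq {p : ℕ} (h5 : 5 ≤ p) (h : p % 4 = 1) :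
    1 - cc p * (((p : ℝ) - 1) / p) = U p := by
  have hp' : (5 : ℝ) ≤ p := by exact_mod_cast h5
  have h1 : (0 : ℝ) < p - 1 := by linarith
  rw [cc, U, if_pos h, if_pos h]
  field_simp
  ring

lemma Ml_bounds {p ν : ℕ} (hp : p.Prime) (h5 : 5 ≤ p) (hν : 1 ≤ ν) :
    0 ≤ Ml ν p ∧ Ml ν p ≤ U p := by
  have hp' : (5 : ℝ) ≤ p := by exact_mod_cast h5
  have hq1 : (0 : ℝ) < p - 1 := by linarith
  by_cases hd : p ∣ ν
  · obtain ⟨h1, h2⟩ := sp_dvd hp hν hd
    have hs : 0 < sp ν p := by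
      have : 0 < 1 / (p : ℝ) := by positivity
      linarith
    rw [Ml, if_pos hd]
    constructor
    · have : cc p / sp ν p ≤ 1 := by
        rw [div_le_one hs]
        exact (cc_le h5).trans h1
      linarith
    · refine le_trans ?_ (one_sub_cc h5)
      have h3 : ((p : ℝ) - 1) / p ≤ 1 / sp ν p := by
        rw [div_le_div_iff₀ (by positivity) hs]
        rw [le_div_iff₀ hq1] at h2
        linarith
      have h4 := mul_le_mul_of_nonneg_left h3 (cc_nonneg h5)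
      have h5 : cc p * (1 / sp ν p) = cc p / sp ν p := by ring
      linarith
  · rw [(sp_ndvd hd).2]
    exact ⟨M0_nonneg h5, M0_le_U h5⟩

lemma sp_mul {p ν : ℕ} (hp : p.Prime) (hν : 1 ≤ ν) (hd : p ∣ ν) (b : ℝ) :
    sp ν p * (b - Ml ν p) = sp ν p * (b - 1) + cc p := by
  obtain ⟨h1, h2⟩ := sp_dvd hp hν hd
  have hs : 0 < sp ν p := by
    have : 0 < 1 / (p : ℝ) := by have := hp.pos; positivity
    linarith
  rw [Ml, if_pos hd]
  field_simp
  ring

/-- small split primes -/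
lemma locA {p ν : ℕ} (hp : p.Prime) (h5 : 5 ≤ p) (hν : 1 ≤ ν) (h : p % 4 = 1) :
    (sp ν p = 1 ∧ Ml ν p = M0 p) ∨
      ∀ b : ℝ, b ≤ 1 → (p : ℝ) / (p - 1) * (b - U p) ≤ sp ν p * (b - Ml ν p) := by
  have hp' : (5 : ℝ) ≤ p := by exact_mod_cast h5
  have hq1 : (0 : ℝ) < p - 1 := by linarith
  by_cases hd : p ∣ ν
  · right
    intro b hb
    obtain ⟨h1, h2⟩ := sp_dvd hp hν hd
    rw [sp_mul hp hν hd, ← one_sub_cc_eq h5 h]
    have e : (p : ℝ) / (p - 1) * (b - (1 - cc p * (((p : ℝ) - 1) / p))) =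
        (p : ℝ) / (p - 1) * (b - 1) + cc p := by
      field_simp
      ring
    rw [e]
    have := mul_le_mul_of_nonpos_right h2 (by linarith : b - 1 ≤ 0)
    linarith
  · exact Or.inl (sp_ndvd hd)

/-- all other primes -/
lemma locT {p ν : ℕ} (hp : p.Prime) (h5 : 5 ≤ p) (hν : 1 ≤ ν) (h : p % 4 = 1 → 41 ≤ p) (b : ℝ)
    (hb : b ≤ 1) (hb2 : U p + 0.157 ≤ b) : b - M0 p ≤ sp ν p * (b - Ml ν p) := by
  have hp' : (5 : ℝ) ≤ p := by exact_mod_cast h5
  have hq1 : (0 : ℝ) < p - 1 := by linarith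
  by_cases hd : p ∣ ν
  · obtain ⟨h1, h2⟩ := sp_dvd hp hν hd
    rcases mod4 hp h5 with h4 | h4
    · have h41 : (41 : ℝ) ≤ p := by exact_mod_cast h h4
      rw [sp_mul hp hν hd]
      have h6 := mul_le_mul_of_nonpos_right h2 (by linarith : b - 1 ≤ 0)
      have h7 : (p : ℝ) / (p - 1) * (b - 1) + cc p = (p : ℝ) / (p - 1) * (b - U p) := by
        rw [← one_sub_cc_eq h5 h4]
        field_simp
        ring
      have h8 : (p : ℝ) / (p - 1) * (b - U p) = (b - U p) + (b - U p) / (p - 1) := by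
        field_simp
        ring
      have h9 : U p - M0 p = (7 * (p : ℝ) - 11) / ((p : ℝ) ^ 2 * (p + 1)) := by
        rw [U, M0, if_pos h4, if_pos h4]
        field_simp
        ring
      have h10 : (7 * (p : ℝ) - 11) / ((p : ℝ) ^ 2 * (p + 1)) ≤ (b - U p) / (p - 1) := by
        rw [div_le_div_iff₀ (by positivity) hq1]
        have h11 : (0.157 : ℝ) * ((p : ℝ) ^ 2 * (p + 1)) ≤ (b - U p) * ((p : ℝ) ^ 2 * (p + 1)) :=
          mul_le_mul_of_nonneg_right (by linarith) (by positivity)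
        refine le_trans ?_ h11
        obtain ⟨x, hx⟩ : ∃ x : ℝ, (p : ℝ) = 41 + x := ⟨p - 41, by ring⟩
        have hx0 : 0 ≤ x := by linarith
        rw [hx]
        nlinarith [pow_nonneg hx0 2, pow_nonneg hx0 3]
      linarith
    · have hM : Ml ν p ≤ M0 p := by
        have := (Ml_bounds hp h5 hν).2
        rw [U, if_neg (by omega)] at this
        rw [M0, if_neg (by omega)]
        exact this
      have h6 : 0 ≤ b - Ml ν p := by
        have := (Ml_bounds hp h5 hν).2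
        linarith
      have h7 : 1 ≤ sp ν p := sv_ge_one p _
      have h8 : 1 * (b - Ml ν p) ≤ sp ν p * (b - Ml ν p) := mul_le_mul_of_nonneg_right h7 h6
      linarith
  · rw [(sp_ndvd hd).1, (sp_ndvd hd).2, one_mul]

/-! ### Products over sets of primes -/

lemma prodT {ν : ℕ} (hν : 1 ≤ ν) (T : Finset ℕ)
    (hT : ∀ p ∈ T, p.Prime ∧ 5 ≤ p ∧ (p % 4 = 1 → 41 ≤ p)) :
    ∀ b : ℝ, b ≤ 1 → 0.157 + ∑ p ∈ T, U p ≤ b →
      b - ∑ p ∈ T, M0 p ≤ (∏ p ∈ T, sp ν p) * (b - ∑ p ∈ T, Ml ν p) := by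
  induction T using Finset.induction_on with
  | empty => intro b _ _; simp
  | insert p T hpT ih =>
    intro b hb hb2
    have hT' : ∀ q ∈ T, q.Prime ∧ 5 ≤ q ∧ (q % 4 = 1 → 41 ≤ q) :=
      fun q hq ↦ hT q (Finset.mem_insert_of_mem hq)
    obtain ⟨h1, h2, h3⟩ := hT p (Finset.mem_insert_self p T)
    rw [Finset.sum_insert hpT] at hb2 ⊢
    rw [Finset.sum_insert hpT, Finset.prod_insert hpT]
    have hMl := Ml_bounds h1 h2 hν
    have i1 := ih hT' (b - Ml ν p) (by linarith [hMl.1]) (by linarith [hMl.2])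
    have hs : 0 ≤ sp ν p := le_trans zero_le_one (sv_ge_one p _)
    have i2 := mul_le_mul_of_nonneg_left i1 hs
    have hM0s : 0 ≤ ∑ q ∈ T, M0 q := Finset.sum_nonneg fun q hq ↦ M0_nonneg (hT' q hq).2.1
    have hMU : ∑ q ∈ T, M0 q ≤ ∑ q ∈ T, U q :=
      Finset.sum_le_sum fun q hq ↦ M0_le_U (hT' q hq).2.1
    have i3 := locT h1 h2 hν h3 (b - ∑ q ∈ T, M0 q) (by linarith) (by linarith)
    have e1 : b - (M0 p + ∑ q ∈ T, M0 q) = b - ∑ q ∈ T, M0 q - M0 p := by ring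
    have e2 : sp ν p * (b - ∑ q ∈ T, M0 q - Ml ν p) =
        sp ν p * (b - Ml ν p - ∑ q ∈ T, M0 q) := by ring
    have e3 : sp ν p * (∏ q ∈ T, sp ν q) * (b - (Ml ν p + ∑ q ∈ T, Ml ν q)) =
        sp ν p * ((∏ q ∈ T, sp ν q) * (b - Ml ν p - ∑ q ∈ T, Ml ν q)) := by ring
    rw [e1, e3]
    rw [e2] at i3
    exact i3.trans i2

lemma gs_one_le {ν w : ℕ} (hν : 1 ≤ ν) : 1 ≤ gs ν w := by
  rw [gs]
  have h : (1 : ℕ) ∈ ν.divisors.filter (fun e ↦ e.Coprime w) := by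
    simp [Nat.mem_divisors]; omega
  have := Finset.single_le_sum (f := fun e : ℕ ↦ (1 : ℝ) / e) (fun i _ ↦ by positivity) h
  simpa using this

lemma gs_prod {ν : ℕ} (hν : 1 ≤ ν) (T : Finset ℕ) (hT : ∀ p ∈ T, p.Prime) :
    ∀ w : ℕ, (∀ p ∈ T, ¬ p ∣ w) → ∏ p ∈ T, sp ν p ≤ gs ν w := by
  induction T using Finset.induction_on with
  | empty => intro w _; simpa using gs_one_le hν
  | insert p T hpT ih =>
    intro w hw
    rw [Finset.prod_insert hpT]
    have h1 := hT p (Finset.mem_insert_self p T)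
    rw [gs_split h1 hν (hw p (Finset.mem_insert_self p T))]
    refine mul_le_mul_of_nonneg_left ?_ (le_trans zero_le_one (sv_ge_one p _))
    refine ih (fun q hq ↦ hT q (Finset.mem_insert_of_mem hq)) (w * p) ?_
    intro q hq hd
    have h2 := hT q (Finset.mem_insert_of_mem hq)
    rcases (Nat.Prime.dvd_mul h2).1 hd with h3 | h3
    · exact hw q (Finset.mem_insert_of_mem hq) h3
    · rw [(Nat.prime_dvd_prime_iff_eq h2 h1).1 h3] at hq
      exact hpT hq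

/-! ### Numerical sums -/

/-- no small prime factor -/
def tst (m : ℕ) : Bool :=
  [2, 3, 5, 7, 11, 13, 17, 19, 23, 29, 31, 37, 41, 43, 47, 53, 59, 61].all
    (fun d ↦ m % d != 0 || m == d)

/-- the small split primes -/
def AA : Finset ℕ := {5, 13, 17, 29, 37}

/-- upper bound for `10^9 * M0 m` -/
def um (m : ℕ) : ℕ :=
  if m % 4 = 1 then 6 * 10 ^ 9 / (m * (m + 1)) + 1 else 6 * 10 ^ 9 / (m * (m - 1)) + 1

/-- upper bound for `10^9 * U m` -/
def uU (m : ℕ) : ℕ :=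
  if m % 4 = 1 then (12 * (m - 1) + (m + 1)) * 10 ^ 9 / (m ^ 2 * (m + 1)) + 1
  else 6 * 10 ^ 9 / (m * (m - 1)) + 1

/-- membership test for the other primes -/
def mt (m : ℕ) : Bool :=
  Nat.ble 7 m && m != 13 && m != 17 && m != 29 && m != 37 && tst m

/-- summation -/
def acc (f : ℕ → ℕ) : ℕ → ℕ
  | 0 => 0
  | n + 1 => acc f n + (if mt n then f n else 0)

lemma acc_eq (f : ℕ → ℕ) (n : ℕ) : acc f n = ∑ i ∈ range n, (if mt i then f i else 0) := by
  induction n with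
  | zero => simp [acc]
  | succ n ih => rw [acc, ih, Finset.sum_range_succ]

lemma acc_um : acc um 4001 ≤ 265940000 := by decide +kernel

lemma acc_uU : acc uU 4001 ≤ 282840000 := by decide +kernel

lemma tst_prime {p : ℕ} (hp : p.Prime) : tst p = true := by
  rw [tst, List.all_eq_true]
  intro d hd
  have h1 : d ≠ 1 := by
    rintro rfl
    revert hd
    decide
  by_cases h : d ∣ p
  · have : d = p := ((Nat.Prime.eq_one_or_self_of_dvd hp d h).resolve_left h1)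
    simp [this]
  · have : p % d ≠ 0 := fun h2 ↦ h (Nat.dvd_of_mod_eq_zero h2)
    simp [this]

lemma mt_prime {p : ℕ} (hp : p.Prime) (h5 : 5 ≤ p) (hA : p ∉ AA) : mt p = true := by
  simp only [AA, Finset.mem_insert, Finset.mem_singleton, not_or] at hA
  obtain ⟨h1, h2, h3, h4, h6⟩ := hA
  have h7 : 7 ≤ p := by
    by_contra hlt
    have : p = 6 := by omega
    rw [this] at hp
    revert hp
    norm_num
  have h8 : Nat.ble 7 p = true := Nat.ble_eq_true_of_le h7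
  simp [mt, h8, h2, h3, h4, h6, tst_prime hp]

lemma le_div_succ (a b : ℕ) (hb : 0 < b) : (a : ℝ) / b ≤ ((a / b + 1 : ℕ) : ℝ) := by
  rw [div_le_iff₀ (by exact_mod_cast hb)]
  have h : a ≤ (a / b + 1) * b := by
    rw [mul_comm]
    exact (Nat.lt_mul_div_succ a hb).le
  exact_mod_cast h

lemma M0_um {m : ℕ} (hm : 5 ≤ m) : M0 m ≤ (um m : ℝ) / 10 ^ 9 := by
  have hp' : (5 : ℝ) ≤ m := by exact_mod_cast hm
  have hq1 : (0 : ℝ) < m - 1 := by linarith
  have hm1 : ((m - 1 : ℕ) : ℝ) = (m : ℝ) - 1 := by rw [Nat.cast_sub (by omega)]; simp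
  rw [M0, um]
  split_ifs
  · rw [le_div_iff₀ (by positivity)]
    refine le_trans (le_of_eq ?_) (le_div_succ (6 * 10 ^ 9) (m * (m + 1)) (by positivity))
    push_cast
    ring
  · rw [le_div_iff₀ (by positivity)]
    refine le_trans (le_of_eq ?_) (le_div_succ (6 * 10 ^ 9) (m * (m - 1))
      (Nat.mul_pos (by omega) (by omega)))
    push_cast
    rw [hm1]
    ring

lemma U_uU {m : ℕ} (hm : 5 ≤ m) : U m ≤ (uU m : ℝ) / 10 ^ 9 := by
  have hp' : (5 : ℝ) ≤ m := by exact_mod_cast hm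
  have hq1 : (0 : ℝ) < m - 1 := by linarith
  have hm1 : ((m - 1 : ℕ) : ℝ) = (m : ℝ) - 1 := by rw [Nat.cast_sub (by omega)]; simp
  rw [U, uU]
  split_ifs
  · rw [le_div_iff₀ (by positivity)]
    refine le_trans (le_of_eq ?_) (le_div_succ ((12 * (m - 1) + (m + 1)) * 10 ^ 9)
      (m ^ 2 * (m + 1)) (by positivity))
    push_cast
    rw [hm1]
    field_simp
    norm_num
  · rw [le_div_iff₀ (by positivity)]
    refine le_trans (le_of_eq ?_) (le_div_succ (6 * 10 ^ 9) (m * (m - 1))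
      (Nat.mul_pos (by omega) (by omega)))
    push_cast
    rw [hm1]
    ring

/-- tail over odd numbers -/
lemma tail (n : ℕ) : ∑ m ∈ (Icc 4001 (4000 + 2 * n)).filter (fun m ↦ m % 2 = 1),
    1 / ((m : ℝ) * (m - 1)) ≤ 1 / 2 * (1 / 3999 - 1 / (3999 + 2 * (n : ℝ))) := by
  induction n with
  | zero => simp
  | succ n ih =>
    have e : (Icc 4001 (4000 + 2 * (n + 1))).filter (fun m ↦ m % 2 = 1) =
        insert (4001 + 2 * n) ((Icc 4001 (4000 + 2 * n)).filter (fun m ↦ m % 2 = 1)) := by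
      ext m
      simp only [mem_filter, mem_Icc, mem_insert]
      omega
    rw [e, Finset.sum_insert (by simp)]
    push_cast
    have hn : (0 : ℝ) ≤ n := Nat.cast_nonneg n
    have h1 : 1 / ((4001 + 2 * (n : ℝ)) * (4001 + 2 * (n : ℝ) - 1)) ≤
        1 / 2 * (1 / (3999 + 2 * (n : ℝ)) - 1 / (3999 + 2 * ((n : ℝ) + 1))) := by
      have e1 : 1 / 2 * (1 / (3999 + 2 * (n : ℝ)) - 1 / (3999 + 2 * ((n : ℝ) + 1))) =
          1 / ((3999 + 2 * (n : ℝ)) * (4001 + 2 * (n : ℝ))) := by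
        have h2 : 3999 + 2 * (n : ℝ) ≠ 0 := by positivity
        have h3 : 3999 + 2 * ((n : ℝ) + 1) ≠ 0 := by positivity
        have h4 : 4001 + 2 * (n : ℝ) ≠ 0 := by positivity
        field_simp
        ring
      rw [e1]
      apply one_div_le_one_div_of_le (by positivity)
      nlinarith
    linarith

lemma tail' (n : ℕ) : ∑ m ∈ (Icc 4001 (4000 + 2 * n)).filter (fun m ↦ m % 2 = 1),
    1 / ((m : ℝ) * (m - 1)) ≤ 1 / 2 * (1 / 3999) := by
  refine (tail n).trans ?_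
  have h : (0 : ℝ) ≤ 1 / (3999 + 2 * (n : ℝ)) := by positivity
  linarith

/-- general bound for sums over the other primes -/
lemma sumT (F : ℕ → ℝ) (f : ℕ → ℕ) (c : ℝ) (hc : 0 ≤ c)
    (h1 : ∀ m, 5 ≤ m → F m ≤ (f m : ℝ) / 10 ^ 9)
    (h2 : ∀ m, 4001 ≤ m → F m ≤ c * (1 / ((m : ℝ) * (m - 1)))) (P : ℕ) :
    ∑ p ∈ Pr 5 P \ AA, F p ≤ (acc f 4001 : ℝ) / 10 ^ 9 + c * (1 / 2 * (1 / 3999)) := by
  rw [← Finset.sum_filter_add_sum_filter_not (Pr 5 P \ AA) (fun p ↦ p ≤ 4000)]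
  apply add_le_add
  · rw [acc_eq]
    push_cast
    rw [Finset.sum_div]
    have hsub : (Pr 5 P \ AA).filter (fun p ↦ p ≤ 4000) ⊆ range 4001 := by
      intro p hp
      rw [mem_filter] at hp
      exact mem_range.2 (by omega)
    refine le_trans (Finset.sum_le_sum fun p hp ↦ ?_)
      (Finset.sum_le_sum_of_subset_of_nonneg hsub fun i _ _ ↦ ?_)
    · rw [mem_filter, mem_sdiff, Pr, mem_filter, mem_Icc] at hp
      rw [if_pos (mt_prime hp.1.1.2 hp.1.1.1.1 hp.1.2)]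
      exact h1 p hp.1.1.1.1
    · positivity
  · have hsub : (Pr 5 P \ AA).filter (fun p ↦ ¬ p ≤ 4000) ⊆
        (Icc 4001 (4000 + 2 * P)).filter (fun m ↦ m % 2 = 1) := by
      intro p hp
      rw [mem_filter, mem_sdiff, Pr, mem_filter, mem_Icc] at hp
      rw [mem_filter, mem_Icc]
      have := (Nat.Prime.eq_two_or_odd hp.1.1.2).resolve_left (by omega)
      omega
    have h3 : ∑ p ∈ (Pr 5 P \ AA).filter (fun p ↦ ¬ p ≤ 4000), F p ≤
        ∑ p ∈ (Icc 4001 (4000 + 2 * P)).filter (fun m ↦ m % 2 = 1),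
          c * (1 / ((p : ℝ) * (p - 1))) := by
      refine le_trans (Finset.sum_le_sum fun p hp ↦ ?_)
        (Finset.sum_le_sum_of_subset_of_nonneg hsub fun i hi _ ↦ ?_)
      · rw [mem_filter] at hp
        exact h2 p (by omega)
      · rw [mem_filter, mem_Icc] at hi
        have : (4001 : ℝ) ≤ i := by exact_mod_cast hi.1.1
        have h4 : (0 : ℝ) < (i : ℝ) - 1 := by linarith
        positivity
    refine h3.trans ?_
    rw [← Finset.mul_sum]
    exact mul_le_mul_of_nonneg_left (tail' P) hc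

lemma sumM0 (P : ℕ) : ∑ p ∈ Pr 5 P \ AA, M0 p ≤ 0.266692 := by
  refine (sumT M0 um 6 (by norm_num) (fun m hm ↦ M0_um hm) (fun m hm ↦ ?_) P).trans ?_
  · have hp' : (4001 : ℝ) ≤ m := by exact_mod_cast hm
    have hq1 : (0 : ℝ) < m - 1 := by linarith
    rw [M0, mul_one_div]
    split_ifs
    · apply div_le_div_of_nonneg_left (by norm_num) (by positivity)
      nlinarith
    · exact le_refl _
  · have hx2 := acc_um
    generalize acc um 4001 = x at hx2 ⊢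
    have : (x : ℝ) ≤ 265940000 := by exact_mod_cast hx2
    linarith

lemma sumU (P : ℕ) : ∑ p ∈ Pr 5 P \ AA, U p ≤ 0.29 := by
  refine (sumT U uU 13 (by norm_num) (fun m hm ↦ U_uU hm) (fun m hm ↦ ?_) P).trans ?_
  · have hp' : (4001 : ℝ) ≤ m := by exact_mod_cast hm
    have hq1 : (0 : ℝ) < m - 1 := by linarith
    rw [U, mul_one_div]
    split_ifs
    · rw [div_add_div _ _ (by positivity) (by positivity), div_le_div_iff₀ (by positivity)
        (by positivity)]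
      have e : (12 * ((m : ℝ) - 1) * (m : ℝ) ^ 2 + (m : ℝ) ^ 2 * (m + 1) * 1) * (m * (m - 1)) =
        (m : ℝ) ^ 3 * ((13 * (m : ℝ) - 11) * (m - 1)) := by ring
      have e2 : 13 * ((m : ℝ) ^ 2 * (m + 1) * (m : ℝ) ^ 2) = (m : ℝ) ^ 3 * (13 * (m * (m + 1))) := by
        ring
      rw [e, e2]
      apply mul_le_mul_of_nonneg_left _ (by positivity)
      nlinarith
    · apply div_le_div_of_nonneg_right (by norm_num) (by positivity)
  · have hx2 := acc_uU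
    generalize acc uU 4001 = x at hx2 ⊢
    have : (x : ℝ) ≤ 282840000 := by exact_mod_cast hx2
    linarith

/-! ### The five small split primes -/

/-- replacement of the local data `(s, M)` by `(s', M')` -/
def RR (s M s' M' : ℝ) : Prop :=
  0 ≤ s ∧ 0 ≤ M ∧ 0 ≤ s' ∧ 0 ≤ M' ∧ ∀ b : ℝ, b ≤ 1 → s' * (b - M') ≤ s * (b - M)

lemma RR_five {s1 s2 s3 s4 s5 M1 M2 M3 M4 M5 t1 t2 t3 t4 t5 N1 N2 N3 N4 N5 : ℝ}
    (h1 : RR s1 M1 t1 N1) (h2 : RR s2 M2 t2 N2) (h3 : RR s3 M3 t3 N3) (h4 : RR s4 M4 t4 N4)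
    (h5 : RR s5 M5 t5 N5) {b : ℝ} (hb : b ≤ 1) :
    t1 * t2 * t3 * t4 * t5 * (b - (N1 + N2 + N3 + N4 + N5)) ≤
      s1 * s2 * s3 * s4 * s5 * (b - (M1 + M2 + M3 + M4 + M5)) := by
  obtain ⟨a1, b1, c1, d1, e1⟩ := h1
  obtain ⟨a2, b2, c2, d2, e2⟩ := h2
  obtain ⟨a3, b3, c3, d3, e3⟩ := h3
  obtain ⟨a4, b4, c4, d4, e4⟩ := h4
  obtain ⟨a5, b5, c5, d5, e5⟩ := h5
  have f1 := mul_le_mul_of_nonneg_left (e1 (b - (N2 + N3 + N4 + N5)) (by linarith))
    (by positivity : 0 ≤ t2 * t3 * t4 * t5)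
  have f2 := mul_le_mul_of_nonneg_left (e2 (b - (M1 + N3 + N4 + N5)) (by linarith))
    (by positivity : 0 ≤ s1 * t3 * t4 * t5)
  have f3 := mul_le_mul_of_nonneg_left (e3 (b - (M1 + M2 + N4 + N5)) (by linarith))
    (by positivity : 0 ≤ s1 * s2 * t4 * t5)
  have f4 := mul_le_mul_of_nonneg_left (e4 (b - (M1 + M2 + M3 + N5)) (by linarith))
    (by positivity : 0 ≤ s1 * s2 * s3 * t5)
  have f5 := mul_le_mul_of_nonneg_left (e5 (b - (M1 + M2 + M3 + M4)) (by linarith))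
    (by positivity : 0 ≤ s1 * s2 * s3 * s4)
  linarith

lemma RR_cases {p ν : ℕ} (hp : p.Prime) (h5 : 5 ≤ p) (hν : 1 ≤ ν) (h : p % 4 = 1) :
    RR (sp ν p) (Ml ν p) 1 (M0 p) ∨ RR (sp ν p) (Ml ν p) ((p : ℝ) / (p - 1)) (U p) := by
  have hp' : (5 : ℝ) ≤ p := by exact_mod_cast h5
  have hq1 : (0 : ℝ) < p - 1 := by linarith
  have hs : 0 ≤ sp ν p := le_trans zero_le_one (sv_ge_one p _)
  have hM := (Ml_bounds hp h5 hν)
  rcases locA hp h5 hν h with ⟨h1, h2⟩ | h1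
  · left
    refine ⟨hs, hM.1, zero_le_one, M0_nonneg h5, fun b _ ↦ ?_⟩
    rw [h1, h2]
  · right
    exact ⟨hs, hM.1, by positivity, hM.1.trans hM.2, h1⟩

lemma five {ν : ℕ} (hν : 1 ≤ ν) {k : ℝ} (hk : 0 ≤ k) (hk2 : k ≤ 0.04) :
    0.3664 - 1.46 * k ≤ sp ν 5 * sp ν 13 * sp ν 17 * sp ν 29 * sp ν 37 *
      (1 - k - 0.266692 - (Ml ν 5 + Ml ν 13 + Ml ν 17 + Ml ν 29 + Ml ν 37)) := by
  have hb : 1 - k - 0.266692 ≤ 1 := by linarith
  have a5 : M0 5 = 1 / 5 := by norm_num [M0]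
  have a13 : M0 13 = 3 / 91 := by norm_num [M0]
  have a17 : M0 17 = 1 / 51 := by norm_num [M0]
  have a29 : M0 29 = 1 / 145 := by norm_num [M0]
  have a37 : M0 37 = 3 / 703 := by norm_num [M0]
  have b5 : U 5 = 9 / 25 := by norm_num [U]
  have b13 : U 13 = 79 / 1183 := by norm_num [U]
  have b17 : U 17 = 35 / 867 := by norm_num [U]
  have b29 : U 29 = 61 / 4205 := by norm_num [U]
  have b37 : U 37 = 235 / 26011 := by norm_num [U]
  rcases RR_cases (by norm_num : Nat.Prime 5) (by norm_num) hν (by norm_num) with h1 | h1 <;>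
  rcases RR_cases (by norm_num : Nat.Prime 13) (by norm_num) hν (by norm_num) with h2 | h2 <;>
  rcases RR_cases (by norm_num : Nat.Prime 17) (by norm_num) hν (by norm_num) with h3 | h3 <;>
  rcases RR_cases (by norm_num : Nat.Prime 29) (by norm_num) hν (by norm_num) with h4 | h4 <;>
  rcases RR_cases (by norm_num : Nat.Prime 37) (by norm_num) hν (by norm_num) with h5 | h5 <;>
  · refine le_trans ?_ (RR_five h1 h2 h3 h4 h5 hb)
    simp only [a5, a13, a17, a29, a37, b5, b13, b17, b29, b37]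
    norm_num1
    linarith

end F4

/-- F4: the slack lemma -/
theorem stSlack : StSlack := by
  intro ν P k hν hk hk2
  -- enlarge the set of primes
  have hmono : ∑ p ∈ Pr 5 P, Mp ν p ≤ ∑ p ∈ Pr 5 (P + 37), Mp ν p := by
    apply Finset.sum_le_sum_of_subset_of_nonneg
    · intro p hp
      rw [Pr, mem_filter, mem_Icc] at hp ⊢
      exact ⟨⟨hp.1.1, by omega⟩, hp.2⟩
    · intro p hp _
      rw [Pr, mem_filter, mem_Icc] at hp
      rw [F4.Mp_eq hp.2 hp.1.1 hν]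
      exact mul_nonneg (le_trans zero_le_one (F4.gs_one_le hν)) (F4.Ml_bounds hp.2 hp.1.1 hν).1
  set L := Pr 5 (P + 37) with hL
  have hLp : ∀ p ∈ L, p.Prime ∧ 5 ≤ p := by
    intro p hp
    rw [hL, Pr, mem_filter, mem_Icc] at hp
    exact ⟨hp.2, hp.1.1⟩
  have hAL : F4.AA ⊆ L := by
    intro p hp
    rw [hL, Pr, mem_filter, mem_Icc]
    simp only [F4.AA, mem_insert, mem_singleton] at hp
    rcases hp with rfl | rfl | rfl | rfl | rfl <;> refine ⟨⟨by omega, by omega⟩, by norm_num⟩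
  have hsum : ∑ p ∈ L, Mp ν p = gs ν 6 * ∑ p ∈ L, F4.Ml ν p := by
    rw [Finset.mul_sum]
    exact Finset.sum_congr rfl fun p hp ↦ F4.Mp_eq (hLp p hp).1 (hLp p hp).2 hν
  set T := L \ F4.AA with hTdef
  have hT : ∀ p ∈ T, p.Prime ∧ 5 ≤ p ∧ (p % 4 = 1 → 41 ≤ p) := by
    intro p hp
    rw [hTdef, mem_sdiff] at hp
    obtain ⟨h1, h2⟩ := hLp p hp.1
    refine ⟨h1, h2, fun h4 ↦ ?_⟩
    by_contra hlt
    have h3 := hp.2
    simp only [F4.AA, mem_insert, mem_singleton, not_or] at h3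
    have h5 : p = 9 ∨ p = 21 ∨ p = 25 ∨ p = 33 := by omega
    rcases h5 with h | h | h | h <;> rw [h] at h1 <;> revert h1 <;> norm_num
  have hsumL : ∑ p ∈ L, F4.Ml ν p = ∑ p ∈ T, F4.Ml ν p +
      (F4.Ml ν 5 + F4.Ml ν 13 + F4.Ml ν 17 + F4.Ml ν 29 + F4.Ml ν 37) := by
    rw [← Finset.sum_sdiff hAL]
    congr 1
    simp [F4.AA]
    ring
  have hprodL : ∏ p ∈ L, F4.sp ν p = (∏ p ∈ T, F4.sp ν p) *
      (F4.sp ν 5 * F4.sp ν 13 * F4.sp ν 17 * F4.sp ν 29 * F4.sp ν 37) := by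
    rw [← Finset.prod_sdiff hAL]
    congr 1
    simp [F4.AA]
    ring
  have hg : ∏ p ∈ L, F4.sp ν p ≤ gs ν 6 :=
    F4.gs_prod hν L (fun p hp ↦ (hLp p hp).1) 6 fun p hp ↦ F4.ndvd6 (hLp p hp).1 (hLp p hp).2
  have b5 := (F4.Ml_bounds (by norm_num : Nat.Prime 5) (by norm_num) hν)
  have b13 := (F4.Ml_bounds (by norm_num : Nat.Prime 13) (by norm_num) hν)
  have b17 := (F4.Ml_bounds (by norm_num : Nat.Prime 17) (by norm_num) hν)
  have b29 := (F4.Ml_bounds (by norm_num : Nat.Prime 29) (by norm_num) hν)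
  have b37 := (F4.Ml_bounds (by norm_num : Nat.Prime 37) (by norm_num) hν)
  have u5 : F4.U 5 = 9 / 25 := by norm_num [F4.U]
  have u13 : F4.U 13 = 79 / 1183 := by norm_num [F4.U]
  have u17 : F4.U 17 = 35 / 867 := by norm_num [F4.U]
  have u29 : F4.U 29 = 61 / 4205 := by norm_num [F4.U]
  have u37 : F4.U 37 = 235 / 26011 := by norm_num [F4.U]
  rw [u5] at b5
  rw [u13] at b13
  rw [u17] at b17
  rw [u29] at b29
  rw [u37] at b37
  set A := F4.Ml ν 5 + F4.Ml ν 13 + F4.Ml ν 17 + F4.Ml ν 29 + F4.Ml ν 37 with hA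
  have hA0 : 0 ≤ A := by linarith [b5.1, b13.1, b17.1, b29.1, b37.1]
  have hA1 : A ≤ 0.4907 := by linarith [b5.2, b13.2, b17.2, b29.2, b37.2]
  have hU := F4.sumU (P + 37)
  have hM0 := F4.sumM0 (P + 37)
  rw [← hL, ← hTdef] at hU hM0
  have hP := F4.prodT hν T hT (1 - k - A) (by linarith) (by linarith)
  have hbr : 0 ≤ 1 - k - (∑ p ∈ T, F4.Ml ν p + A) := by
    have : ∑ p ∈ T, F4.Ml ν p ≤ ∑ p ∈ T, F4.U p :=
      Finset.sum_le_sum fun p hp ↦ (F4.Ml_bounds (hT p hp).1 (hT p hp).2.1 hν).2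
    linarith
  have hsA : 0 ≤ F4.sp ν 5 * F4.sp ν 13 * F4.sp ν 17 * F4.sp ν 29 * F4.sp ν 37 := by
    have h : ∀ p, 0 ≤ F4.sp ν p := fun p ↦ le_trans zero_le_one (F4.sv_ge_one p _)
    exact mul_nonneg (mul_nonneg (mul_nonneg (mul_nonneg (h 5) (h 13)) (h 17)) (h 29)) (h 37)
  have key := F4.five hν hk hk2
  have s1 := mul_le_mul_of_nonneg_left hP hsA
  have s2 := mul_le_mul_of_nonneg_right hg hbr
  rw [hprodL] at s2
  have s3 := mul_le_mul_of_nonneg_left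
    (by linarith : 1 - k - 0.266692 - A ≤ 1 - k - A - ∑ p ∈ T, F4.M0 p) hsA
  have e1 : gs ν 6 * (1 - k) - ∑ p ∈ L, Mp ν p =
      gs ν 6 * (1 - k - (∑ p ∈ T, F4.Ml ν p + A)) := by
    rw [hsum, hsumL]; ring
  have e2 : F4.sp ν 5 * F4.sp ν 13 * F4.sp ν 17 * F4.sp ν 29 * F4.sp ν 37 *
      ((∏ p ∈ T, F4.sp ν p) * (1 - k - A - ∑ p ∈ T, F4.Ml ν p)) =
      (∏ p ∈ T, F4.sp ν p) *
        (F4.sp ν 5 * F4.sp ν 13 * F4.sp ν 17 * F4.sp ν 29 * F4.sp ν 37) *
        (1 - k - (∑ p ∈ T, F4.Ml ν p + A)) := by ring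
  rw [e2] at s1
  linarith

end Pool.Agent.TFS
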