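import Pool.Agent.Lib.TFS.StmtsR

/-!
Module G1: the error terms of the small primes.
-/

set_option autoImplicit false

open Finset MeasureTheory

namespace Pool.Agent.TFS

open Pool.Agent.Lib.MP_0e0027_nt

namespace G1

theorem ch_ge (p : ℕ) : -1 ≤ ch p := by
  unfold ch
  have key : ∀ z : ZMod 4, (-1 : ℤ) ≤ ZMod.χ₄ z := by decide
  exact_mod_cast key _

theorem r4_le (ν : ℤ) {p : ℕ} (hp : 5 ≤ p) : r4 ν p ≤ 2 / (p : ℝ) ^ 2 := by
  have hp' : (5 : ℝ) ≤ p := by exact_mod_cast hp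
  have hp0 : (0 : ℝ) < p := by linarith
  unfold r4
  split_ifs with h1 h2
  · rw [div_le_div_iff₀ (by positivity) (by positivity)]
    nlinarith [pow_pos hp0 2]
  · positivity
  · have := ch_ge p
    rw [div_le_div_iff₀ (by positivity) (by positivity)]
    nlinarith [pow_pos hp0 2]

theorem FF_nonneg (ν : ℕ) : 0 ≤ FF ν := by
  unfold FF
  exact Finset.sum_nonneg fun _ _ => by positivity

theorem densU_nonneg (par m : ℕ) : 0 ≤ densU par m := by
  unfold densU
  split_ifs <;> norm_num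

theorem cU_nonneg (par m : ℕ) : 0 ≤ cU par m := by
  unfold cU
  split_ifs <;> norm_num

theorem Cp_nonneg (p : ℕ) : 0 ≤ Cp p := by
  unfold Cp
  split_ifs <;> positivity

/-- One type: bound of `6 * ErrN`. -/
theorem typ {par m κ p ν : ℕ} {w X y : ℝ} (hw : 1 ≤ w) (hκ : (κ : ℝ) = w ^ 4) (hX : 0 < X)
    (hν : (ν : ℝ) = X ^ 4) (hm : m ≠ 0) (hp : 5 ≤ p) (hy : FF ν ≤ 2.72 * y) (_hy0 : 0 ≤ y) :
    6 * ErrN par m κ p ν ≤
      48 * Real.pi * (densU par m * w) * X ^ 3 * 2.9 * (2.72 * y) * 2 *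
          (1 / ((p : ℝ) * √(p : ℝ))) +
        48 * (cU par m / w ^ 3) * X ^ 3 *
          (Cp p / √(p : ℝ) * (0.13 * Real.log ν + 0.6 - 0.26 * Real.log p)) := by
  have hp' : (5 : ℝ) ≤ p := by exact_mod_cast hp
  have hp0 : (0 : ℝ) < p := by linarith
  have hw0 : (0 : ℝ) < w := by linarith
  set s := √(p : ℝ) with hs
  have hs0 : 0 < s := Real.sqrt_pos.2 hp0
  have hs2 : s ^ 2 = p := Real.sq_sqrt hp0.le
  have e1 : √((ν : ℝ) / κ) = (X / w) ^ 2 := by
    rw [hν, hκ]
    have : X ^ 4 / w ^ 4 = ((X / w) ^ 2) ^ 2 := by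
      rw [← pow_mul, div_pow]
    rw [this, Real.sqrt_sq (by positivity)]
  have e2 : √((ν : ℝ) / κ) / p = (X / (w * s)) ^ 2 := by
    rw [e1, ← hs2]
    field_simp
  have e3 : √(√((ν : ℝ) / κ) / p) = X / (w * s) := by
    rw [e2, Real.sqrt_sq (by positivity)]
  have hlog : 0.26 * Real.log (√((ν : ℝ) / κ) / p) + 0.6 ≤
      0.13 * Real.log ν + 0.6 - 0.26 * Real.log p := by
    have h1 : Real.log (√((ν : ℝ) / κ) / p) = 2 * Real.log X - 2 * Real.log w - Real.log p := by
      rw [e1, Real.log_div (by positivity) (by positivity), Real.log_pow,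
        Real.log_div (by positivity) (by positivity)]
      push_cast
      ring
    have h2 : Real.log ν = 4 * Real.log X := by
      rw [hν, Real.log_pow]
      push_cast
      ring
    have h3 : 0 ≤ Real.log w := Real.log_nonneg hw
    rw [h1, h2]
    linarith
  unfold ErrN
  rw [if_neg hm]
  unfold SB6
  rw [e3]
  have hr := r4_le (ν : ℤ) hp
  have hF0 := FF_nonneg ν
  have hd := densU_nonneg par m
  have hc := cU_nonneg par m
  have hC := Cp_nonneg p
  -- first part
  have hA : 6 * (8 * Real.pi * densU par m * ν * (r4 ν p * 2.9 * FF ν / (X / (w * s)))) ≤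
      48 * Real.pi * (densU par m * w) * X ^ 3 * 2.9 * (2.72 * y) * 2 * (1 / ((p : ℝ) * s)) := by
    have hq : r4 ν p * FF ν ≤ 2 / (p : ℝ) ^ 2 * (2.72 * y) := by
      calc r4 ν p * FF ν ≤ 2 / (p : ℝ) ^ 2 * FF ν := mul_le_mul_of_nonneg_right hr hF0
        _ ≤ 2 / (p : ℝ) ^ 2 * (2.72 * y) := mul_le_mul_of_nonneg_left hy (by positivity)
    have e4 : 6 * (8 * Real.pi * densU par m * ν * (r4 ν p * 2.9 * FF ν / (X / (w * s)))) =
        (48 * Real.pi * (densU par m * w) * X ^ 3 * 2.9 * s) * (r4 ν p * FF ν) := by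
      rw [hν]
      field_simp
      ring
    have e5 : 48 * Real.pi * (densU par m * w) * X ^ 3 * 2.9 * (2.72 * y) * 2 *
        (1 / ((p : ℝ) * s)) =
        (48 * Real.pi * (densU par m * w) * X ^ 3 * 2.9 * s) * (2 / (p : ℝ) ^ 2 * (2.72 * y)) := by
      rw [← hs2]
      field_simp
    rw [e4, e5]
    exact mul_le_mul_of_nonneg_left hq (by positivity)
  have hB : 6 * (8 * cU par m * p * Cp p * (√((ν : ℝ) / κ) / p * (X / (w * s)) *
      (0.26 * Real.log (√((ν : ℝ) / κ) / p) + 0.6))) ≤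
      48 * (cU par m / w ^ 3) * X ^ 3 *
          (Cp p / s * (0.13 * Real.log ν + 0.6 - 0.26 * Real.log p)) := by
    have e4 : 6 * (8 * cU par m * p * Cp p * (√((ν : ℝ) / κ) / p * (X / (w * s)) *
        (0.26 * Real.log (√((ν : ℝ) / κ) / p) + 0.6))) =
        (48 * (cU par m / w ^ 3) * X ^ 3 * (Cp p / s)) *
          (0.26 * Real.log (√((ν : ℝ) / κ) / p) + 0.6) := by
      generalize Real.log (√((ν : ℝ) / κ) / p) = L
      rw [e2, ← hs2]
      field_simp
      ring
    rw [e4]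
    calc (48 * (cU par m / w ^ 3) * X ^ 3 * (Cp p / s)) *
          (0.26 * Real.log (√((ν : ℝ) / κ) / p) + 0.6)
        ≤ (48 * (cU par m / w ^ 3) * X ^ 3 * (Cp p / s)) *
          (0.13 * Real.log ν + 0.6 - 0.26 * Real.log p) :=
          mul_le_mul_of_nonneg_left hlog (by positivity)
      _ = _ := by ring
  rw [mul_add]
  exact add_le_add hA hB

end G1

open G1 in
theorem stG1 (hF : StFF) (h5 : StN5) : StG1 := by
  intro n P F hn hbig hFB
  have hν1 : 1 ≤ nu n := le_trans (by norm_num) hbig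
  have hν0 : (0 : ℝ) < nu n := by exact_mod_cast hν1
  set X : ℝ := (nu n : ℝ) ^ (1 / 4 : ℝ) with hX
  have hX0 : 0 < X := Real.rpow_pos_of_pos hν0 _
  have hν4 : (nu n : ℝ) = X ^ 4 := by
    rw [hX, ← Real.rpow_natCast, ← Real.rpow_mul hν0.le]
    norm_num
  have hXinv : (nu n : ℝ) ^ (-(1 / 4) : ℝ) = X⁻¹ := by
    rw [hX, Real.rpow_neg hν0.le]
  set y : ℝ := (nu n : ℝ) ^ (1 / 20 : ℝ) with hy
  have hy0 : 0 ≤ y := Real.rpow_nonneg hν0.le _
  have hFF := hF (nu n) hν1
  rw [← hy] at hFF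
  set k : ℝ := (2 : ℝ) ^ (1 / 4 : ℝ) with hk
  have hk0 : 0 < k := Real.rpow_pos_of_pos (by norm_num) _
  have hk4 : k ^ 4 = 2 := by
    rw [hk, ← Real.rpow_natCast, ← Real.rpow_mul (by norm_num)]
    norm_num
  have hk1 : 1 ≤ k := by
    by_contra hcon
    push Not at hcon
    have : k ^ 4 < 1 := by
      calc k ^ 4 < 1 ^ 4 := pow_lt_pow_left₀ hcon hk0.le (by norm_num)
        _ = 1 := by norm_num
    linarith
  have hk2 : k ≤ 1.18921 := by
    by_contra hcon
    push Not at hcon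
    have : (1.18921 : ℝ) ^ 4 < k ^ 4 := pow_lt_pow_left₀ hcon (by norm_num) (by norm_num)
    rw [hk4] at this
    norm_num at this
  have hk3 : 1 / k ^ 3 = k / 2 := by
    have : k ^ 3 ≠ 0 := by positivity
    field_simp
    linarith [hk4]
  have hF0 : 0 ≤ F := by
    have := hFB ∅ (by simp)
    simpa using this
  have hmem : ∀ p ∈ Pr 5 P, p.Prime ∧ 5 ≤ p ∧ p ≤ P := by
    intro p hp
    unfold Pr at hp
    rw [mem_filter, mem_Icc] at hp
    exact ⟨hp.2, hp.1.1, hp.1.2⟩
  have hs1 := h5 (Pr 5 P) (fun p hp => ⟨(hmem p hp).1, (hmem p hp).2.1⟩)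
  have hs2 := hFB (Pr 5 P) hmem
  set t : ℝ := 0.13 * Real.log (nu n) + 0.6 with ht
  have hπ := Real.pi_lt_d4
  have hπ0 := Real.pi_pos
  -- general conclusion
  have fin : ∀ d c : ℝ, 0 ≤ d → 0 ≤ c → c ≤ c3 n * Wn n → 48 * d ≤ c3 n * 2.1893 →
      (∀ p ∈ Pr 5 P, 6 * EA n p ≤
        48 * Real.pi * d * X ^ 3 * 2.9 * (2.72 * y) * 2 * (1 / ((p : ℝ) * √(p : ℝ))) +
        48 * c * X ^ 3 * (Cp p / √(p : ℝ) * (t - 0.26 * Real.log p))) →
      ∑ p ∈ Pr 5 P, 6 * EA n p ≤ c3 n * nu n * ((nu n : ℝ) ^ (-(1 / 4) : ℝ) *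
        (48 * Wn n * F + 34.8 * y)) := by
    intro d c hd hc hc1 hd1 hall
    have hX3 : 0 < X ^ 3 := by positivity
    have h1 : ∑ p ∈ Pr 5 P, 6 * EA n p ≤
        48 * Real.pi * d * X ^ 3 * 2.9 * (2.72 * y) * 2 * 0.32 + 48 * c * X ^ 3 * F := by
      calc ∑ p ∈ Pr 5 P, 6 * EA n p ≤ ∑ p ∈ Pr 5 P,
            (48 * Real.pi * d * X ^ 3 * 2.9 * (2.72 * y) * 2 * (1 / ((p : ℝ) * √(p : ℝ))) +
            48 * c * X ^ 3 * (Cp p / √(p : ℝ) * (t - 0.26 * Real.log p))) := sum_le_sum hall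
        _ = 48 * Real.pi * d * X ^ 3 * 2.9 * (2.72 * y) * 2 *
              ∑ p ∈ Pr 5 P, 1 / ((p : ℝ) * √(p : ℝ)) +
            48 * c * X ^ 3 * ∑ p ∈ Pr 5 P, (Cp p / √(p : ℝ) * (t - 0.26 * Real.log p)) := by
            rw [sum_add_distrib, mul_sum, mul_sum]
        _ ≤ _ := add_le_add (mul_le_mul_of_nonneg_left hs1 (by positivity))
            (mul_le_mul_of_nonneg_left hs2 (by positivity))
    refine h1.trans ?_
    have e : c3 n * nu n * ((nu n : ℝ) ^ (-(1 / 4) : ℝ) * (48 * Wn n * F + 34.8 * y)) =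
        X ^ 3 * (48 * (c3 n * Wn n) * F + c3 n * 34.8 * y) := by
      rw [hXinv, hν4]
      field_simp
    rw [e]
    have e' : 48 * Real.pi * d * X ^ 3 * 2.9 * (2.72 * y) * 2 * 0.32 + 48 * c * X ^ 3 * F =
        X ^ 3 * (48 * c * F + 48 * Real.pi * d * 2.9 * 2.72 * 2 * 0.32 * y) := by ring
    rw [e']
    refine mul_le_mul_of_nonneg_left (add_le_add ?_ ?_) hX3.le
    · exact mul_le_mul_of_nonneg_right (by linarith) hF0
    · refine mul_le_mul_of_nonneg_right ?_ hy0
      have h2 : 48 * Real.pi * d * 2.9 * 2.72 * 2 * 0.32 =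
          (48 * d) * (Real.pi * (2.9 * 2.72 * 2 * 0.32)) := by ring
      rw [h2]
      have hc30 : 0 < c3 n := by unfold c3; split_ifs <;> norm_num
      calc (48 * d) * (Real.pi * (2.9 * 2.72 * 2 * 0.32))
          ≤ (c3 n * 2.1893) * (3.1416 * (2.9 * 2.72 * 2 * 0.32)) :=
            mul_le_mul hd1 (mul_le_mul_of_nonneg_right hπ.le (by norm_num)) (by positivity)
              (by positivity)
        _ ≤ c3 n * 34.8 := by
            have : (2.1893 : ℝ) * (3.1416 * (2.9 * 2.72 * 2 * 0.32)) ≤ 34.8 := by norm_num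
            nlinarith
  have hm0 : mm n ≠ 0 := by
    unfold mm
    split_ifs <;> norm_num
  by_cases hodd : n % 2 = 1
  · refine fin (densU 1 (mm n) * 1 + densU (pt n) (mm n) * k)
      (cU 1 (mm n) / 1 ^ 3 + cU (pt n) (mm n) / k ^ 3)
      (add_nonneg (mul_nonneg (densU_nonneg _ _) zero_le_one)
        (mul_nonneg (densU_nonneg _ _) hk0.le))
      (add_nonneg (div_nonneg (cU_nonneg _ _) (by norm_num))
        (div_nonneg (cU_nonneg _ _) (by positivity))) ?_ ?_ ?_
    · have e1 : cU (pt n) (mm n) / k ^ 3 = cU (pt n) (mm n) * (k / 2) := by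
        rw [← hk3]; ring
      rw [e1]
      have hpt : pt n = 2 ∨ pt n = 3 := by
        unfold pt
        split_ifs <;> simp
      unfold c3 Wn mm
      by_cases h3 : n % 3 = 0
      · rcases hpt with h | h <;> rw [h] <;> simp only [cU, h3, hodd, if_true] <;> norm_num <;>
          linarith
      · rcases hpt with h | h <;> rw [h] <;> simp only [cU, h3, hodd, if_true, if_false] <;>
          norm_num <;> linarith
    · have hpt : pt n = 2 ∨ pt n = 3 := by
        unfold pt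
        split_ifs <;> simp
      unfold c3 mm
      by_cases h3 : n % 3 = 0
      · rcases hpt with h | h <;> rw [h] <;> simp only [densU, h3, hodd, if_true] <;> norm_num <;>
          linarith
      · rcases hpt with h | h <;> rw [h] <;> simp only [densU, h3, hodd, if_true, if_false] <;>
          norm_num <;> linarith
    · intro p hp
      have hp5 := (hmem p hp).2.1
      have t1 := typ (par := 1) (m := mm n) (κ := 1) (p := p) (ν := nu n) (w := 1) (X := X)
        (y := y) le_rfl (by norm_num) hX0 hν4 hm0 hp5 hFF hy0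
      have t2 := typ (par := pt n) (m := mm n) (κ := 2) (p := p) (ν := nu n) (w := k) (X := X)
        (y := y) hk1 (by rw [hk4]; norm_num) hX0 hν4 hm0 hp5 hFF hy0
      unfold EA
      rw [if_pos hodd, mul_add]
      refine (add_le_add t1 t2).trans (le_of_eq ?_)
      rw [ht]
      ring
  · refine fin (densU 4 (mm n) * 1) (cU 4 (mm n) / 1 ^ 3)
      (mul_nonneg (densU_nonneg _ _) zero_le_one)
      (div_nonneg (cU_nonneg _ _) (by norm_num)) ?_ ?_ ?_
    · unfold c3 Wn mm
      by_cases h3 : n % 3 = 0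
      · simp only [cU, h3, hodd, if_true, if_false]
        norm_num
      · simp only [cU, h3, hodd, if_false]
        norm_num
    · unfold c3 mm
      by_cases h3 : n % 3 = 0
      · simp only [densU, h3, if_true]
        norm_num
      · simp only [densU, h3, hodd, if_false]
        norm_num
    · intro p hp
      have hp5 := (hmem p hp).2.1
      have t1 := typ (par := 4) (m := mm n) (κ := 1) (p := p) (ν := nu n) (w := 1) (X := X)
        (y := y) le_rfl (by norm_num) hX0 hν4 hm0 hp5 hFF hy0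
      unfold EA
      rw [if_neg hodd]
      exact t1
end Pool.Agent.TFS
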