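import Pool.Agent.Lib.TFS.StmtsR

/-!
G2: the error term of `p = 3` (real algebra).
-/

set_option autoImplicit false

open Finset

namespace Pool.Agent.TFS

open Pool.Agent.Lib.MP_0e0027_nt

namespace G2

theorem ch_three : ch 3 = -1 := by
  unfold ch
  have : ZMod.χ₄ ((3 : ℕ) : ZMod 4) = -1 := by decide
  rw [this]
  norm_num

theorem r4_three (ν : ℕ) (h : ν % 3 ≠ 0) : r4 (ν : ℤ) 3 = 4 / 27 := by
  unfold r4
  have h1 : ¬ (((3 : ℕ) : ℤ) ∣ (ν : ℤ)) := by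
    intro h2
    omega
  rw [if_neg h1, ch_three]
  norm_num

theorem log_three_ge : (1.09748 : ℝ) ≤ Real.log 3 := by
  have h1 : Real.log ((2 : ℝ) ^ 19) ≤ Real.log ((3 : ℝ) ^ 12) :=
    Real.log_le_log (by norm_num) (by norm_num)
  rw [Real.log_pow, Real.log_pow] at h1
  push_cast at h1
  have h2 := Real.log_two_gt_d9
  linarith

theorem Cp_three (s : ℝ) (hs : s = √(3 : ℝ)) : Cp 3 = 2 * (1 + 1 / (3 * s)) := by
  unfold Cp
  rw [if_neg (by norm_num), hs]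
  norm_num

theorem err_one (par : ℕ) (ν : ℕ) (h3 : ν % 3 ≠ 0) (y s : ℝ) (hy : 0 < y) (hs : 0 < s)
    (hy4 : y ^ 4 = ν) (hs2 : s ^ 2 = 3) :
    ErrN par 0 1 3 ν = 8 * Real.pi * densU par 0 * (4 / 27) * 2.9 * s * (y ^ 3 * FF ν) +
      8 * cU par 0 * 3 * (2 * (1 + 1 / (3 * s))) * (y ^ 3 / (3 * s) *
        (0.6 * (1 / 2 * Real.log ν - Real.log 3) + 0.8)) := by
  have hs' : s = √(3 : ℝ) := by
    rw [← hs2, Real.sqrt_sq hs.le]
  have e1 : √((ν : ℝ) / ((1 : ℕ) : ℝ)) / ((3 : ℕ) : ℝ) = (y / s) ^ 2 := by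
    rw [← hy4]
    push_cast
    rw [div_one, show y ^ 4 = (y ^ 2) ^ 2 by ring, Real.sqrt_sq (by positivity), div_pow, hs2]
  have e2 : √((y / s) ^ 2) = y / s := Real.sqrt_sq (by positivity)
  have e3 : Real.log ((y / s) ^ 2) = 1 / 2 * Real.log ν - Real.log 3 := by
    rw [← hy4, Real.log_pow, Real.log_pow, Real.log_div hy.ne' hs.ne']
    have : Real.log 3 = 2 * Real.log s := by
      rw [← hs2, Real.log_pow]
      norm_num
    rw [this]
    push_cast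
    ring
  unfold ErrN
  rw [r4_three ν h3, Cp_three s hs', if_pos rfl]
  unfold SB2
  rw [e1, e2, e3]
  have hν : (ν : ℝ) = y ^ 4 := hy4.symm
  have e4 : (y / s) ^ 2 * (y / s) = y ^ 3 / (3 * s) := by
    rw [← hs2]
    field_simp
  rw [e4, hν]
  push_cast
  have e5 : y ^ 4 * (4 / 27 * 2.9 * FF ν / (y / s)) = 4 / 27 * 2.9 * s * (y ^ 3 * FF ν) := by
    field_simp
  rw [show 8 * Real.pi * densU par 0 * y ^ 4 * (4 / 27 * 2.9 * FF ν / (y / s)) =
    8 * Real.pi * densU par 0 * (y ^ 4 * (4 / 27 * 2.9 * FF ν / (y / s))) by ring, e5]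
  ring

theorem err_two (par : ℕ) (ν : ℕ) (h3 : ν % 3 ≠ 0) (y s a b : ℝ) (hy : 0 < y) (hs : 0 < s)
    (ha : 0 < a) (hb : 0 < b) (hy4 : y ^ 4 = ν) (hs2 : s ^ 2 = 3) (ha2 : a ^ 2 = 2)
    (hb2 : b ^ 2 = 3 * a) :
    ErrN par 0 2 3 ν = 8 * Real.pi * densU par 0 * (4 / 27) * 2.9 * b * (y ^ 3 * FF ν) +
      8 * cU par 0 * 3 * (2 * (1 + 1 / (3 * s))) * (y ^ 3 / (3 * a * b) *
        (0.6 * (1 / 2 * Real.log ν - Real.log 3 - 1 / 2 * Real.log 2) + 0.8)) := by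
  have hs' : s = √(3 : ℝ) := by
    rw [← hs2, Real.sqrt_sq hs.le]
  have e1 : √((ν : ℝ) / ((2 : ℕ) : ℝ)) / ((3 : ℕ) : ℝ) = (y / b) ^ 2 := by
    rw [← hy4]
    push_cast
    have : y ^ 4 / 2 = (y ^ 2 / a) ^ 2 := by
      rw [div_pow, ha2]; ring
    rw [this, Real.sqrt_sq (by positivity), div_pow, hb2]
    field_simp
  have e2 : √((y / b) ^ 2) = y / b := Real.sqrt_sq (by positivity)
  have e3 : Real.log ((y / b) ^ 2) = 1 / 2 * Real.log ν - Real.log 3 - 1 / 2 * Real.log 2 := by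
    rw [← hy4, Real.log_pow, Real.log_pow, Real.log_div hy.ne' hb.ne']
    have h1 : Real.log 2 = 2 * Real.log a := by
      have h := Real.log_pow a 2
      rw [ha2] at h
      exact_mod_cast h
    have h2 : 2 * Real.log b = Real.log 3 + Real.log a := by
      have : ((2 : ℕ) : ℝ) * Real.log b = Real.log (3 * a) := by rw [← Real.log_pow, hb2]
      rw [Real.log_mul (by norm_num) ha.ne'] at this
      push_cast at this
      exact this
    push_cast
    linarith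
  unfold ErrN
  rw [r4_three ν h3, Cp_three s hs', if_pos rfl]
  unfold SB2
  rw [e1, e2, e3]
  have hν : (ν : ℝ) = y ^ 4 := hy4.symm
  have e4 : (y / b) ^ 2 * (y / b) = y ^ 3 / (3 * a * b) := by
    rw [← hb2]
    field_simp
  rw [e4, hν]
  push_cast
  have e5 : y ^ 4 * (4 / 27 * 2.9 * FF ν / (y / b)) = 4 / 27 * 2.9 * b * (y ^ 3 * FF ν) := by
    field_simp
  rw [show 8 * Real.pi * densU par 0 * y ^ 4 * (4 / 27 * 2.9 * FF ν / (y / b)) =
    8 * Real.pi * densU par 0 * (y ^ 4 * (4 / 27 * 2.9 * FF ν / (y / b))) by ring, e5]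
  ring

end G2

open G2

theorem stG2 (hF : StFF) : StG2 := by
  intro n hadm hn3 hbig
  set ν := nu n with hν
  have hν3 : ν % 3 ≠ 0 := by
    rw [hν]
    unfold nu
    obtain ⟨h8, -⟩ := hadm
    split_ifs with h
    · omega
    · omega
  have hν1 : 1 ≤ ν := by omega
  have hx : (10 : ℝ) ^ 15 ≤ ν := by exact_mod_cast hbig
  have hx0 : (0 : ℝ) < ν := by linarith [show (0 : ℝ) < 10 ^ 15 by norm_num]
  -- the fourth root
  obtain ⟨y, hyd⟩ : ∃ y : ℝ, y = √(√(ν : ℝ)) := ⟨_, rfl⟩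
  have hy : 0 < y := by rw [hyd]; positivity
  have hy4 : y ^ 4 = ν := by
    rw [show y ^ 4 = (y ^ 2) ^ 2 by ring, hyd, Real.sq_sqrt (Real.sqrt_nonneg _),
      Real.sq_sqrt hx0.le]
  obtain ⟨s, hsd⟩ : ∃ s : ℝ, s = √(3 : ℝ) := ⟨_, rfl⟩
  have hs : 0 < s := by rw [hsd]; positivity
  have hs2 : s ^ 2 = 3 := by rw [hsd]; exact Real.sq_sqrt (by norm_num)
  obtain ⟨a, had⟩ : ∃ a : ℝ, a = √(2 : ℝ) := ⟨_, rfl⟩
  have ha : 0 < a := by rw [had]; positivity
  have ha2 : a ^ 2 = 2 := by rw [had]; exact Real.sq_sqrt (by norm_num)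
  obtain ⟨b, hbd⟩ : ∃ b : ℝ, b = √(3 * a) := ⟨_, rfl⟩
  have hb : 0 < b := by rw [hbd]; positivity
  have hb2 : b ^ 2 = 3 * a := by rw [hbd]; exact Real.sq_sqrt (by positivity)
  -- numerical bounds
  have s1 : s ≤ 1.7320509 := by nlinarith
  have s2 : 1.73205 ≤ s := by nlinarith
  have a1 : a ≤ 1.4142136 := by nlinarith
  have a2 : 1.41421 ≤ a := by nlinarith
  have b1 : b ≤ 2.05977 := by nlinarith
  have b2 : 2.05976 ≤ b := by nlinarith
  have pi1 := Real.pi_lt_d6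
  have pi0 := Real.pi_pos
  have l3 := log_three_ge
  have l2 : 0 ≤ Real.log 2 := Real.log_nonneg (by norm_num)
  have hL : 0 ≤ Real.log (ν : ℝ) := Real.log_nonneg (by linarith [show (1 : ℝ) ≤ 10 ^ 15 by norm_num])
  set L := Real.log (ν : ℝ) with hLd
  set R := (ν : ℝ) ^ (1 / 20 : ℝ) with hRd
  have hR : 0 < R := Real.rpow_pos_of_pos hx0 _
  have hFF : FF ν ≤ 2.72 * R := hF ν hν1
  have hFF0 : 0 ≤ FF ν := by
    unfold FF
    exact Finset.sum_nonneg (fun i _ ↦ by positivity)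
  -- the right-hand side
  have hr : (ν : ℝ) * ((ν : ℝ) ^ (-(1 / 4) : ℝ) * (14.2 * R + 3.2 * L + 1.5)) =
      y ^ 3 * (14.2 * R + 3.2 * L + 1.5) := by
    have e1 : (ν : ℝ) ^ (-(1 / 4) : ℝ) = y⁻¹ := by
      rw [← hy4, Real.rpow_neg (by positivity), ← Real.rpow_natCast, ← Real.rpow_mul hy.le]
      norm_num
    rw [e1, ← hy4]
    field_simp
  have hc : c3 n = 16 / 3 := by
    unfold c3
    rw [if_neg (by omega)]
  have q1 : 1 / (3 * s) ≤ 0.1924502 := by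
    rw [div_le_iff₀ (by positivity)]
    nlinarith
  have q2 : 1 / (3 * a * b) ≤ 0.114434 := by
    rw [div_le_iff₀ (by positivity)]
    nlinarith [mul_nonneg (sub_nonneg.2 a2) (sub_nonneg.2 b2)]
  have q10 : 0 < 1 / (3 * s) := by positivity
  have q20 : 0 < 1 / (3 * a * b) := by positivity
  rw [hc, mul_assoc, hr]
  have y3 : 0 < y ^ 3 := by positivity
  have M0 : 0.6 * (1 / 2 * L - Real.log 3) + 0.8 ≤ 0.3 * L + 0.141512 := by linarith
  have M2 : 0.6 * (1 / 2 * L - Real.log 3 - 1 / 2 * Real.log 2) + 0.8 ≤ 0.3 * L + 0.141512 := by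
    linarith
  have M1 : 0 ≤ 0.3 * L + 0.141512 := by linarith
  obtain ⟨u, hu⟩ : ∃ u : ℝ, u = 1 / (3 * s) := ⟨_, rfl⟩
  obtain ⟨v, hv⟩ : ∃ v : ℝ, v = 1 / (3 * a * b) := ⟨_, rfl⟩
  have f1 : ErrN 1 0 1 3 ν ≤ y ^ 3 * (8 * Real.pi * (1 / 4) * (4 / 27) * 2.9 * s * FF ν +
      8 * 3 * (2 * (1 + u)) * u * (0.3 * L + 0.141512)) := by
    rw [err_one 1 ν hν3 y s hy hs hy4 hs2]
    have d1 : densU 1 0 = 1 / 4 := by unfold densU; norm_num
    have d2 : cU 1 0 = 1 := by unfold cU; norm_num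
    rw [d1, d2]
    have e : y ^ 3 / (3 * s) = y ^ 3 * u := by rw [hu]; ring
    rw [e, ← hu, ← hLd]
    have g : y ^ 3 * u * (0.6 * (1 / 2 * L - Real.log 3) + 0.8) ≤
        y ^ 3 * u * (0.3 * L + 0.141512) :=
      mul_le_mul_of_nonneg_left M0 (by rw [hu]; positivity)
    have g2 : 0 ≤ 8 * 1 * 3 * (2 * (1 + u)) := by rw [hu]; positivity
    have g3 := mul_le_mul_of_nonneg_left g g2
    linarith
  have f2 : ∀ par : ℕ, (par = 2 ∨ par = 3) → ErrN par 0 2 3 ν ≤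
      y ^ 3 * (8 * Real.pi * (1 / 4) * (4 / 27) * 2.9 * b * FF ν +
      8 * (3 / 2) * 3 * (2 * (1 + u)) * v * (0.3 * L + 0.141512)) := by
    intro par hpar
    rw [err_two par ν hν3 y s a b hy hs ha hb hy4 hs2 ha2 hb2]
    have d1 : densU par 0 = 1 / 4 := by
      unfold densU
      rcases hpar with h | h <;> subst h <;> norm_num
    have d2 : cU par 0 = 3 / 2 := by
      unfold cU
      rw [if_pos hpar, if_pos rfl, mul_one]
    rw [d1, d2]
    have e : y ^ 3 / (3 * a * b) = y ^ 3 * v := by rw [hv]; ring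
    rw [e, ← hu, ← hLd]
    have g : y ^ 3 * v * (0.6 * (1 / 2 * L - Real.log 3 - 1 / 2 * Real.log 2) + 0.8) ≤
        y ^ 3 * v * (0.3 * L + 0.141512) :=
      mul_le_mul_of_nonneg_left M2 (by rw [hv]; positivity)
    have g2 : 0 ≤ 8 * (3 / 2) * 3 * (2 * (1 + u)) := by rw [hu]; positivity
    have g3 := mul_le_mul_of_nonneg_left g g2
    linarith
  have f4 : ErrN 4 0 1 3 ν ≤ y ^ 3 * (8 * Real.pi * (1 / 2) * (4 / 27) * 2.9 * s * FF ν +
      8 * 3 * (2 * (1 + u)) * u * (0.3 * L + 0.141512)) := by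
    rw [err_one 4 ν hν3 y s hy hs hy4 hs2]
    have d1 : densU 4 0 = 1 / 2 := by unfold densU; norm_num
    have d2 : cU 4 0 = 1 := by unfold cU; norm_num
    rw [d1, d2]
    have e : y ^ 3 / (3 * s) = y ^ 3 * u := by rw [hu]; ring
    rw [e, ← hu, ← hLd]
    have g : y ^ 3 * u * (0.6 * (1 / 2 * L - Real.log 3) + 0.8) ≤
        y ^ 3 * u * (0.3 * L + 0.141512) :=
      mul_le_mul_of_nonneg_left M0 (by rw [hu]; positivity)
    have g2 : 0 ≤ 8 * 1 * 3 * (2 * (1 + u)) := by rw [hu]; positivity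
    have g3 := mul_le_mul_of_nonneg_left g g2
    linarith
  rw [← hu] at q1 q10
  rw [← hv] at q2 q20
  -- constants
  have k1 : 8 * Real.pi * (1 / 4) * (4 / 27) * 2.9 * (s + b) ≤ 10.236 := by
    have h1 : s + b ≤ 3.7918209 := by linarith
    have h2 : Real.pi * (s + b) ≤ 3.141593 * 3.7918209 :=
      mul_le_mul pi1.le h1 (by positivity) (by norm_num)
    linarith
  have k4 : 8 * Real.pi * (1 / 2) * (4 / 27) * 2.9 * s ≤ 10.236 := by
    have h2 : Real.pi * s ≤ 3.141593 * 1.7320509 :=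
      mul_le_mul pi1.le s1 hs.le (by norm_num)
    linarith
  have k2 : 8 * 3 * (2 * (1 + u)) * u + 8 * (3 / 2) * 3 * (2 * (1 + u)) * v ≤ 20.8404 := by
    have h1 : 1 + u ≤ 1.1924502 := by linarith
    have h2 : 24 * u + 36 * v ≤ 24 * 0.1924502 + 36 * 0.114434 := by linarith
    have h3 : (1 + u) * (24 * u + 36 * v) ≤ 1.1924502 * (24 * 0.1924502 + 36 * 0.114434) :=
      mul_le_mul h1 h2 (by positivity) (by norm_num)
    linarith
  have k3 : 8 * 3 * (2 * (1 + u)) * u ≤ 20.8404 := by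
    have : 0 ≤ 8 * (3 / 2) * 3 * (2 * (1 + u)) * v := by positivity
    linarith
  have fin : ∀ K₁ K₂ : ℝ, K₁ ≤ 10.236 → K₂ ≤ 20.8404 →
      2.7 * (y ^ 3 * (K₁ * FF ν + K₂ * (0.3 * L + 0.141512))) ≤
        16 / 3 * (y ^ 3 * (14.2 * R + 3.2 * L + 1.5)) := by
    intro K₁ K₂ h1 h2
    have g1 : K₁ * FF ν ≤ 10.236 * (2.72 * R) :=
      (mul_le_mul_of_nonneg_right h1 hFF0).trans (mul_le_mul_of_nonneg_left hFF (by norm_num))
    have g2 : K₂ * (0.3 * L + 0.141512) ≤ 20.8404 * (0.3 * L + 0.141512) :=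
      mul_le_mul_of_nonneg_right h2 M1
    have g3 : 2.7 * (K₁ * FF ν + K₂ * (0.3 * L + 0.141512)) ≤
        16 / 3 * (14.2 * R + 3.2 * L + 1.5) := by
      linarith
    have g4 := mul_le_mul_of_nonneg_left g3 y3.le
    linarith
  unfold E3
  split_ifs with hodd
  · rw [← hν]
    have hp : pt n = 2 ∨ pt n = 3 := by
      unfold pt
      split_ifs
      · exact Or.inl rfl
      · exact Or.inr rfl
    have f2' := f2 (pt n) hp
    have := fin _ _ k1 k2
    linarith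
  · rw [← hν]
    have := fin _ _ k4 k3
    linarith

end Pool.Agent.TFS
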