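import Pool.Agent.Lib.TFS.StmtsR

/-!
G3: the terms of the master inequality with primes above `P₁`.
-/

set_option autoImplicit false

open Finset MeasureTheory

namespace Pool.Agent.TFS

open Pool.Agent.Lib.MP_0e0027_nt

theorem gs_nonneg' (ν w : ℕ) : 0 ≤ gs ν w := by
  unfold gs
  exact sum_nonneg (fun e _ ↦ by positivity)

theorem ch_bd (d : ℕ) : -1 ≤ ch d ∧ ch d ≤ 1 := by
  unfold ch
  rcases ZMod.isQuadratic_χ₄ (d : ZMod 4) with h | h | h <;> rw [h] <;> norm_num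

/-- the number of large primes dividing `ν` -/
theorem card_big (ν P r : ℕ) (hν : 0 < ν) (hP : ν < P ^ (r + 1)) (S : Finset ℕ)
    (hS : ∀ p ∈ S, p.Prime ∧ P ≤ p ∧ p ∣ ν) (hP0 : 0 < P) : S.card ≤ r := by
  by_contra hcon
  push Not at hcon
  have h1 : ∏ p ∈ S, p ∣ ν :=
    Finset.prod_primes_dvd ν (fun p hp ↦ (hS p hp).1.prime) (fun p hp ↦ (hS p hp).2.2)
  have h2 : P ^ S.card ≤ ∏ p ∈ S, p := Finset.pow_card_le_prod S _ P (fun p hp ↦ (hS p hp).2.1)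
  have h3 : ∏ p ∈ S, p ≤ ν := Nat.le_of_dvd hν h1
  have h4 : P ^ (r + 1) ≤ P ^ S.card := Nat.pow_le_pow_right hP0 hcon
  omega

theorem r4_bd (ν p P : ℕ) (hP : 1000 ≤ P) (h1 : P < p) :
    0 ≤ r4 ν p * ((p : ℝ) / (p - 1)) ∧
    r4 ν p * ((p : ℝ) / (p - 1)) ≤ 1.0021 * (1 / (p : ℝ) ^ 2) +
      (if p ∣ ν then 1 / (P : ℝ) ^ 2 else 0) := by
  have hp : (1000 : ℝ) < p := by exact_mod_cast lt_of_le_of_lt hP h1
  have hP' : (1000 : ℝ) ≤ P := by exact_mod_cast hP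
  have hPp : (P : ℝ) < p := by exact_mod_cast h1
  have hp1 : (0 : ℝ) < p - 1 := by linarith
  have hp0 : (0 : ℝ) < p := by linarith
  unfold r4
  have hiff : ((p : ℤ) ∣ (ν : ℤ)) ↔ p ∣ ν := Int.natCast_dvd_natCast
  by_cases hd : p ∣ ν
  · rw [if_pos (hiff.mpr hd), if_pos hd]
    have h2 : (1 : ℝ) / (p : ℝ) ^ 2 ≤ 1 / (P : ℝ) ^ 2 :=
      one_div_le_one_div_of_le (by positivity) (pow_le_pow_left₀ (by linarith) hPp.le 2)
    have h3 : (0 : ℝ) < 1 / (p : ℝ) ^ 2 := by positivity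
    split_ifs with h4
    · have h5 : 2 * ((p : ℝ) - 1) / (p : ℝ) ^ 3 * ((p : ℝ) / (p - 1)) = 2 * (1 / (p : ℝ) ^ 2) := by
        field_simp
      rw [h5]
      constructor
      · positivity
      · linarith
    · constructor
      · rw [zero_mul]
      · rw [zero_mul]; linarith
  · rw [if_neg (fun h ↦ hd (hiff.mp h)), if_neg hd]
    have h2 := ch_bd p
    have h5 : ((p : ℝ) - ch p) / (p : ℝ) ^ 3 * ((p : ℝ) / (p - 1)) =
        (((p : ℝ) - ch p) / (p - 1)) * (1 / (p : ℝ) ^ 2) := by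
      field_simp
    rw [h5, add_zero]
    have h6 : ((p : ℝ) - ch p) / (p - 1) ≤ 1.0021 := by
      rw [div_le_iff₀ hp1]
      linarith [h2.1]
    have h7 : 0 ≤ ((p : ℝ) - ch p) / (p - 1) := by
      apply div_nonneg _ hp1.le
      linarith [h2.2]
    constructor
    · positivity
    · exact mul_le_mul_of_nonneg_right h6 (by positivity)

theorem cp_term (ν p P : ℕ) (hP : 1000 ≤ P) (h1 : P < p) (h2 : (p : ℝ) ≤ √(ν : ℝ)) :
    6 * CPb ν p ≤ 409.92 * (ν * gs ν 6) * (0.8 + 0.143 * Real.log (√(ν : ℝ) / P)) *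
      (1.0021 * (1 / (p : ℝ) ^ 2) + (if p ∣ ν then 1 / (P : ℝ) ^ 2 else 0)) +
      78.3 * (√(ν : ℝ) * √(√(ν : ℝ))) * (1 / √(p : ℝ)) := by
  have hp : (1000 : ℝ) < p := by exact_mod_cast lt_of_le_of_lt hP h1
  have hP' : (1000 : ℝ) ≤ P := by exact_mod_cast hP
  have hPp : (P : ℝ) < p := by exact_mod_cast h1
  have hp0 : (0 : ℝ) < p := by linarith
  have hP0 : (0 : ℝ) < P := by linarith
  have hN : (0 : ℝ) < √(ν : ℝ) := by linarith
  have hG := gs_nonneg' ν 6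
  obtain ⟨hr0, hr1⟩ := r4_bd ν p P hP h1
  have hsp : (0 : ℝ) < √(p : ℝ) := Real.sqrt_pos.mpr hp0
  -- the logarithm
  have hL0 : 0 ≤ 0.8 + 0.143 * Real.log (√(ν : ℝ) / p) := by
    have : 0 ≤ Real.log (√(ν : ℝ) / p) := Real.log_nonneg (by rw [le_div_iff₀ hp0]; linarith)
    linarith
  have hL1 : 0.8 + 0.143 * Real.log (√(ν : ℝ) / p) ≤ 0.8 + 0.143 * Real.log (√(ν : ℝ) / P) := by
    have : Real.log (√(ν : ℝ) / p) ≤ Real.log (√(ν : ℝ) / P) := by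
      apply Real.log_le_log (by positivity)
      exact div_le_div_of_nonneg_left hN.le hP0 hPp.le
    linarith
  -- numbers
  have he : Real.exp 1 < 2.7182818286 := Real.exp_one_lt_d9
  have he0 : 0 < Real.exp 1 := Real.exp_pos 1
  have hpi : Real.pi < 3.141593 := Real.pi_lt_d6
  have hpi0 : 0 < Real.pi := Real.pi_pos
  have hep : 48 * Real.exp 1 * Real.pi ≤ 409.92 := by
    have h3 : Real.exp 1 * Real.pi ≤ 2.7182818286 * 3.141593 :=
      mul_le_mul he.le hpi.le hpi0.le (by norm_num)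
    have h4 : (48 : ℝ) * (2.7182818286 * 3.141593) ≤ 409.92 := by norm_num
    linarith
  have hCp : Cp p ≤ 2.0001 := by
    unfold Cp
    rw [if_neg (by rintro rfl; norm_num at hp)]
    have h3 : (1000 : ℝ) * 31 ≤ (p : ℝ) * √(p : ℝ) := by
      apply mul_le_mul hp.le _ (by norm_num) hp0.le
      apply Real.le_sqrt_of_sq_le
      linarith
    have h4 : (1 : ℝ) / ((p : ℝ) * √(p : ℝ)) ≤ 1 / (1000 * 31) :=
      one_div_le_one_div_of_le (by norm_num) h3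
    have h5 : (1 : ℝ) / (1000 * 31) ≤ 0.00005 := by norm_num
    linarith
  have hCp0 : 0 ≤ Cp p := by
    unfold Cp
    split_ifs
    · norm_num
    · positivity
  have hX : (p : ℝ) * Cp p * (0.3 * (√(ν : ℝ) / p) * √(√(ν : ℝ) / p)) =
      0.3 * Cp p * (√(ν : ℝ) * √(√(ν : ℝ))) * (1 / √(p : ℝ)) := by
    rw [Real.sqrt_div hN.le]
    field_simp
  unfold CPb
  rw [hX]
  have h3 : 6 * (8 * Real.exp 1 *
      (Real.pi * ν * (r4 ν p * ((p : ℝ) / (p - 1))) * gs ν 6 *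
        (0.8 + 0.143 * Real.log (√(ν : ℝ) / p)) +
      0.3 * Cp p * (√(ν : ℝ) * √(√(ν : ℝ))) * (1 / √(p : ℝ)))) =
      (48 * Real.exp 1 * Real.pi) * (ν * gs ν 6) * (0.8 + 0.143 * Real.log (√(ν : ℝ) / p)) *
        (r4 ν p * ((p : ℝ) / (p - 1))) +
      (48 * 0.3 * Real.exp 1 * Cp p) * (√(ν : ℝ) * √(√(ν : ℝ))) * (1 / √(p : ℝ)) := by ring
  rw [h3]
  have hee : 48 * 0.3 * Real.exp 1 * Cp p ≤ 78.3 := by
    have h4 : Real.exp 1 * Cp p ≤ 2.7182818286 * 2.0001 :=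
      mul_le_mul he.le hCp hCp0 (by norm_num)
    have h5 : (48 * 0.3 : ℝ) * (2.7182818286 * 2.0001) ≤ 78.3 := by norm_num
    nlinarith
  have hνG : (0 : ℝ) ≤ ν * gs ν 6 := mul_nonneg (Nat.cast_nonneg _) hG
  apply add_le_add
  · apply mul_le_mul _ hr1 hr0
    · exact mul_nonneg (mul_nonneg (by norm_num) hνG) (le_trans hL0 hL1)
    · apply mul_le_mul _ hL1 hL0
      · exact mul_nonneg (by norm_num) hνG
      · exact mul_le_mul_of_nonneg_right hep hνG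
  · apply mul_le_mul_of_nonneg_right _ (by positivity)
    exact mul_le_mul_of_nonneg_right hee (by positivity)

theorem stG3 : StG3 := by
  intro n P₁ P₂ r A B C _ hP₁ hP₁₂ hP₂ hr hA hB hC
  set ν := nu n with hν
  have hP₁' : (1000 : ℝ) ≤ P₁ := by exact_mod_cast hP₁
  have hP₁0 : (0 : ℝ) < P₁ := by linarith
  have hP₂' : (P₁ : ℝ) ≤ P₂ := by exact_mod_cast hP₁₂
  have hN : (0 : ℝ) < √(ν : ℝ) := by linarith
  have hν0' : (0 : ℝ) < ν := Real.sqrt_pos.mp hN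
  have hν0 : 0 < ν := by exact_mod_cast hν0'
  have hc3 : 0 < c3 n := by unfold c3; split_ifs <;> norm_num
  have hG := gs_nonneg' ν 6
  have hL : 0 ≤ 0.8 + 0.143 * Real.log (√(ν : ℝ) / P₁) := by
    have : 0 ≤ Real.log (√(ν : ℝ) / P₁) := Real.log_nonneg (by rw [le_div_iff₀ hP₁0]; linarith)
    linarith
  -- first sum
  have hT1 : ∑ p ∈ Pr (P₁ + 1) P₂, 6 * CPb ν p ≤
      409.92 * (ν * gs ν 6) * (0.8 + 0.143 * Real.log (√(ν : ℝ) / P₁)) *
        (1.0021 * A + r / (P₁ : ℝ) ^ 2) + 78.3 * (√(ν : ℝ) * √(√(ν : ℝ))) * B := by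
    have h1 : ∑ p ∈ Pr (P₁ + 1) P₂, 6 * CPb ν p ≤ ∑ p ∈ Pr (P₁ + 1) P₂,
        (409.92 * (ν * gs ν 6) * (0.8 + 0.143 * Real.log (√(ν : ℝ) / P₁)) *
          (1.0021 * (1 / (p : ℝ) ^ 2) + (if p ∣ ν then 1 / (P₁ : ℝ) ^ 2 else 0)) +
          78.3 * (√(ν : ℝ) * √(√(ν : ℝ))) * (1 / √(p : ℝ))) := by
      apply sum_le_sum
      intro p hp
      unfold Pr at hp
      rw [mem_filter, mem_Icc] at hp
      have h2 : (p : ℝ) ≤ P₂ := by exact_mod_cast hp.1.2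
      exact cp_term ν p P₁ hP₁ (by omega) (by linarith)
    refine le_trans h1 ?_
    rw [sum_add_distrib, ← mul_sum, ← mul_sum, sum_add_distrib, ← mul_sum]
    have h2 : ∑ p ∈ Pr (P₁ + 1) P₂, (if p ∣ ν then 1 / (P₁ : ℝ) ^ 2 else 0) ≤
        r / (P₁ : ℝ) ^ 2 := by
      rw [← sum_filter, sum_const, nsmul_eq_mul, mul_one_div]
      have h3 : ((Pr (P₁ + 1) P₂).filter (fun p ↦ p ∣ ν)).card ≤ r := by
        apply card_big ν P₁ r hν0 hr _ _ (by omega)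
        intro p hp
        unfold Pr at hp
        rw [mem_filter, mem_filter, mem_Icc] at hp
        exact ⟨hp.1.2, by omega, hp.2⟩
      have h4 : (((Pr (P₁ + 1) P₂).filter (fun p ↦ p ∣ ν)).card : ℝ) ≤ r := by exact_mod_cast h3
      exact div_le_div_of_nonneg_right h4 (by positivity)
    apply add_le_add
    · apply mul_le_mul_of_nonneg_left _
        (mul_nonneg (mul_nonneg (by norm_num) (mul_nonneg hν0'.le hG)) hL)
      linarith
    · exact mul_le_mul_of_nonneg_left hB (by positivity)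
  -- second sum
  have hT2 : ∑ p ∈ Pr (P₂ + 1) (Nat.sqrt n), 6 * TRb ν p ≤
      391.92 * ν * (ν : ℝ) ^ (1 / 6 : ℝ) * C := by
    have h1 : ∑ p ∈ Pr (P₂ + 1) (Nat.sqrt n), 6 * TRb ν p =
        391.92 * ν * (ν : ℝ) ^ (1 / 6 : ℝ) *
          ∑ p ∈ Pr (P₂ + 1) (Nat.sqrt n), 1 / (p : ℝ) ^ 2 := by
      rw [mul_sum]
      refine sum_congr rfl (fun p _ ↦ ?_)
      unfold TRb
      ring
    rw [h1]
    exact mul_le_mul_of_nonneg_left hC (by positivity)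
  -- third sum
  have hT3 : ∑ p ∈ (Pr (P₁ + 1) (Nat.sqrt n)).filter (fun p ↦ p ^ 2 ∣ ν),
      3 / 2 * c3 n * ν * gs ν 6 / (p : ℝ) ^ 2 ≤
      (3 / 2 * c3 n * ν * gs ν 6) * (r / (P₁ : ℝ) ^ 2) := by
    have hK : 0 ≤ 3 / 2 * c3 n * ν * gs ν 6 := by positivity
    have h1 : ∑ p ∈ (Pr (P₁ + 1) (Nat.sqrt n)).filter (fun p ↦ p ^ 2 ∣ ν),
        3 / 2 * c3 n * ν * gs ν 6 / (p : ℝ) ^ 2 ≤
        ∑ p ∈ (Pr (P₁ + 1) (Nat.sqrt n)).filter (fun p ↦ p ^ 2 ∣ ν),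
        3 / 2 * c3 n * ν * gs ν 6 / (P₁ : ℝ) ^ 2 := by
      apply sum_le_sum
      intro p hp
      unfold Pr at hp
      rw [mem_filter, mem_filter, mem_Icc] at hp
      have h2 : (P₁ : ℝ) ≤ p := by
        have : P₁ ≤ p := by omega
        exact_mod_cast this
      exact div_le_div_of_nonneg_left hK (by positivity) (pow_le_pow_left₀ hP₁0.le h2 2)
    refine le_trans h1 ?_
    rw [sum_const, nsmul_eq_mul]
    have h3 : ((Pr (P₁ + 1) (Nat.sqrt n)).filter (fun p ↦ p ^ 2 ∣ ν)).card ≤ r := by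
      apply card_big ν P₁ r hν0 hr _ _ (by omega)
      intro p hp
      unfold Pr at hp
      rw [mem_filter, mem_filter, mem_Icc] at hp
      exact ⟨hp.1.2, by omega, dvd_trans (dvd_pow_self p two_ne_zero) hp.2⟩
    have h4 : (((Pr (P₁ + 1) (Nat.sqrt n)).filter (fun p ↦ p ^ 2 ∣ ν)).card : ℝ) ≤ r := by
      exact_mod_cast h3
    calc _ ≤ (r : ℝ) * (3 / 2 * c3 n * ν * gs ν 6 / (P₁ : ℝ) ^ 2) :=
          mul_le_mul_of_nonneg_right h4 (by positivity)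
      _ = _ := by ring
  -- powers
  have hpow : (ν : ℝ) * (ν : ℝ) ^ (-(1 / 4) : ℝ) = √(ν : ℝ) * √(√(ν : ℝ)) := by
    have h1 : √(ν : ℝ) = (ν : ℝ) ^ (1 / 2 : ℝ) := Real.sqrt_eq_rpow _
    have h2 : √(√(ν : ℝ)) = (ν : ℝ) ^ (1 / 4 : ℝ) := by
      rw [Real.sqrt_eq_rpow √(ν : ℝ), h1, ← Real.rpow_mul hν0'.le]
      norm_num
    rw [h2, h1, ← Real.rpow_add hν0']
    nth_rewrite 1 [← Real.rpow_one (ν : ℝ)]
    rw [← Real.rpow_add hν0']
    norm_num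
  have hfin : c3 n * ν * (gs ν 6 * kk n P₁ r A + eL n B C) =
      (409.92 * (ν * gs ν 6) * (0.8 + 0.143 * Real.log (√(ν : ℝ) / P₁)) *
        (1.0021 * A + r / (P₁ : ℝ) ^ 2) + 78.3 * (√(ν : ℝ) * √(√(ν : ℝ))) * B) +
      391.92 * ν * (ν : ℝ) ^ (1 / 6 : ℝ) * C +
      (3 / 2 * c3 n * ν * gs ν 6) * (r / (P₁ : ℝ) ^ 2) := by
    rw [← hpow]
    unfold kk eL
    rw [← hν]
    field_simp
    ring
  rw [hfin]
  exact add_le_add (add_le_add hT1 hT2) hT3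

end Pool.Agent.TFS
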