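import Pool.Agent.Lib.TFS.StmtsR

/-!
Group R, module G4: the criterion `StCrit` from the master inequality, the slack lemma and the
bounds G1, G2, G3 of the error terms.
-/

set_option autoImplicit false

open Finset MeasureTheory

namespace Pool.Agent.TFS

open Pool.Agent.Lib.MP_0e0027_nt

theorem G4.c3_pos (n : ℕ) : 0 < c3 n := by
  unfold c3
  split_ifs <;> norm_num

theorem stCrit (hM : StMaster) (hS : StSlack) (h1 : StG1) (h2 : StG2) (h3 : StG3) : StCrit := by
  intro n P₁ P₂ r A B C F hAdm hnu hP1 hP12 h30 h1000 hr hFB hA hB hC hk0 hk4 hlt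
  by_contra hR
  have hc : 0 < c3 n := G4.c3_pos n
  have hnu1 : 1 ≤ nu n := le_trans (by norm_num) hnu
  have hnupos : (0 : ℝ) < nu n := by exact_mod_cast hnu1
  have hcn : 0 < c3 n * nu n := mul_pos hc hnupos
  have m := hM n P₁ P₂ hAdm hR (le_trans (by norm_num) hP1) hP12 h30 h1000
  have g1 := h1 n P₁ F hAdm hnu hFB
  have g3 := h3 n P₁ P₂ r A B C hAdm hP1 hP12 h1000 hr hA hB hC
  have s := hS (nu n) P₁ (kk n P₁ r A) hnu1 hk0 hk4
  have g2 : (if n % 3 = 1 then 2.7 * E3 n else 0) ≤ c3 n * nu n *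
      (if n % 3 = 1 then (nu n : ℝ) ^ (-(1 / 4) : ℝ) *
        (14.2 * (nu n : ℝ) ^ (1 / 20 : ℝ) + 3.2 * Real.log (nu n) + 1.5) else 0) := by
    split_ifs with h
    · exact h2 n hAdm h hnu
    · simp
  have key : c3 n * nu n * (gs (nu n) 6 - ∑ p ∈ Pr 5 P₁, Mp (nu n) p) ≤
      c3 n * nu n * (eT n F B C + gs (nu n) 6 * kk n P₁ r A) := by
    unfold eT
    linarith
  have key2 := le_of_mul_le_mul_left key hcn
  linarith

end Pool.Agent.TFS
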