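import Pool.Agent.Lib.TFS.StmtsN

/-!
N1: the sum over the primes up to 1000 (blueprint: team-store `tfs_N.md`).
-/

set_option autoImplicit false

open Finset

namespace Pool.Agent.TFS

namespace N1

/-- scaled upper bound for `Cp m / √m` -/
def aN (m : ℕ) : ℕ :=
  if m = 5 then 1162800 else 2 * 10 ^ 10 / Nat.sqrt (m * 10 ^ 8) + 1 + (2 * 10 ^ 6 / m ^ 2 + 1)

/-- scaled lower bound for `Cp m / √m * log m` -/
def bN (m : ℕ) : ℕ :=
  2 * 10 ^ 4 * (Nat.log2 (m ^ 64) * 693147) / ((Nat.sqrt (m * 10 ^ 8) + 1) * 64)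

/-- contains all the primes between 5 and 1000 -/
def PP (m : ℕ) : Prop := (31 < m ∧ Nat.gcd m 200560490130 = 1) ∨ m = 5 ∨ m = 7 ∨ m = 11 ∨ m = 13 ∨
  m = 17 ∨ m = 19 ∨ m = 23 ∨ m = 29 ∨ m = 31

instance (m : ℕ) : Decidable (PP m) := inferInstanceAs (Decidable (_ ∨ _))

set_option maxRecDepth 100000 in
theorem sumA : (∑ m ∈ range 1001, if PP m then aN m else 0) ≤ 23150000 := by decide +kernel

set_option maxRecDepth 100000 in
theorem sumB : 110500000 ≤ (∑ m ∈ range 1001, if PP m then bN m else 0) := by decide +kernel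

theorem PP_of_prime {p : ℕ} (hp : p.Prime) (h5 : 5 ≤ p) : PP p := by
  unfold PP
  by_cases h : 31 < p
  · left
    refine ⟨h, ?_⟩
    show Nat.Coprime p 200560490130
    rw [hp.coprime_iff_not_dvd]
    intro hd
    rw [show (200560490130 : ℕ) = 2 * 3 * 5 * 7 * 11 * 13 * 17 * 19 * 23 * 29 * 31 by norm_num] at hd
    simp only [hp.dvd_mul] at hd
    have key : ∀ q : ℕ, 0 < q → q ≤ 31 → p ∣ q → False := by
      intro q hq1 hq2 hq3
      have := Nat.le_of_dvd hq1 hq3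
      omega
    rcases hd with (((((((((hd | hd) | hd) | hd) | hd) | hd) | hd) | hd) | hd) | hd) | hd <;>
      exact key _ (by norm_num) (by norm_num) hd
  · right
    have h31 : p ≤ 31 := by omega
    interval_cases p <;> first | omega | (exfalso; revert hp; norm_num)

theorem PP_ge {m : ℕ} (h : PP m) : 5 ≤ m := by
  unfold PP at h
  omega

theorem sqrt_bounds (m : ℕ) : (Nat.sqrt (m * 10 ^ 8) : ℝ) ≤ 10 ^ 4 * √(m : ℝ) ∧
    10 ^ 4 * √(m : ℝ) ≤ (Nat.sqrt (m * 10 ^ 8) : ℝ) + 1 := by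
  have h1 : Nat.sqrt (m * 10 ^ 8) ^ 2 ≤ m * 10 ^ 8 := Nat.sqrt_le' _
  have h2 : m * 10 ^ 8 < (Nat.sqrt (m * 10 ^ 8) + 1) ^ 2 := Nat.lt_succ_sqrt' _
  have h1' : (Nat.sqrt (m * 10 ^ 8) : ℝ) ^ 2 ≤ m * 10 ^ 8 := by exact_mod_cast h1
  have h2' : (m : ℝ) * 10 ^ 8 ≤ ((Nat.sqrt (m * 10 ^ 8) : ℝ) + 1) ^ 2 := by exact_mod_cast h2.le
  have h3 : (10 ^ 4 * √(m : ℝ)) ^ 2 = m * 10 ^ 8 := by
    rw [mul_pow, Real.sq_sqrt (by positivity)]
    ring
  constructor
  · apply le_of_sq_le_sq _ (by positivity)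
    rw [h3]
    exact h1'
  · apply le_of_sq_le_sq _ (by positivity)
    rw [h3]
    exact h2'

theorem Cp_ge (m : ℕ) (hm : 5 ≤ m) : 2 ≤ Cp m := by
  unfold Cp
  split_ifs
  · norm_num
  · have : 0 ≤ 1 / ((m : ℝ) * √(m : ℝ)) := by positivity
    linarith

theorem boundA (m : ℕ) (hm : 5 ≤ m) : Cp m / √(m : ℝ) ≤ (aN m : ℝ) / 10 ^ 6 := by
  have hm0 : (0 : ℝ) < m := by
    have : 0 < m := by omega
    exact_mod_cast this
  have hs0 : 0 < √(m : ℝ) := Real.sqrt_pos.2 hm0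
  have hss : √(m : ℝ) * √(m : ℝ) = m := Real.mul_self_sqrt hm0.le
  unfold aN Cp
  split_ifs with h
  · subst h
    push_cast
    rw [div_le_div_iff₀ (by exact_mod_cast hs0) (by norm_num)]
    have : 2.236 ≤ √(5 : ℝ) := by
      apply Real.le_sqrt_of_sq_le
      norm_num
    nlinarith
  · have e : 2 * (1 + 1 / ((m : ℝ) * √(m : ℝ))) / √(m : ℝ) = 2 / √(m : ℝ) + 2 / (m : ℝ) ^ 2 := by
      have h3 : (m : ℝ) ^ 2 = √(m : ℝ) * √(m : ℝ) * m := by rw [hss]; ring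
      rw [h3]
      field_simp
    rw [e]
    obtain ⟨b1, b2⟩ := sqrt_bounds m
    have hsp : 0 < Nat.sqrt (m * 10 ^ 8) := Nat.sqrt_pos.2 (by omega)
    have hsp' : (0 : ℝ) < Nat.sqrt (m * 10 ^ 8) := by exact_mod_cast hsp
    have c1 : (2 * 10 ^ 10 : ℝ) / Nat.sqrt (m * 10 ^ 8) ≤
        ((2 * 10 ^ 10 / Nat.sqrt (m * 10 ^ 8) : ℕ) : ℝ) + 1 := by
      have := (Nat.lt_succ_floor ((2 * 10 ^ 10 : ℕ) / (Nat.sqrt (m * 10 ^ 8) : ℕ) : ℝ)).le
      rw [Nat.floor_div_eq_div] at this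
      push_cast at this ⊢
      linarith
    have c2 : (2 * 10 ^ 6 : ℝ) / (m : ℝ) ^ 2 ≤ ((2 * 10 ^ 6 / m ^ 2 : ℕ) : ℝ) + 1 := by
      have := (Nat.lt_succ_floor ((2 * 10 ^ 6 : ℕ) / (m ^ 2 : ℕ) : ℝ)).le
      rw [Nat.floor_div_eq_div] at this
      push_cast at this ⊢
      linarith
    have c3 : 2 / √(m : ℝ) ≤ (2 * 10 ^ 10 : ℝ) / Nat.sqrt (m * 10 ^ 8) / 10 ^ 6 := by
      rw [div_div, div_le_div_iff₀ hs0 (by positivity)]
      nlinarith
    have c4 : 2 / (m : ℝ) ^ 2 = (2 * 10 ^ 6 : ℝ) / (m : ℝ) ^ 2 / 10 ^ 6 := by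
      field_simp
    rw [c4]
    push_cast
    push_cast at c1 c2
    rw [add_div, add_div]
    have d1 : (2 * 10 ^ 10 : ℝ) / Nat.sqrt (m * 10 ^ 8) / 10 ^ 6 ≤
      (((2 * 10 ^ 10 / Nat.sqrt (m * 10 ^ 8) : ℕ) : ℝ) + 1) / 10 ^ 6 := by
      apply div_le_div_of_nonneg_right _ (by norm_num)
      push_cast
      exact c1
    have d2 : (2 * 10 ^ 6 : ℝ) / (m : ℝ) ^ 2 / 10 ^ 6 ≤ (((2 * 10 ^ 6 / m ^ 2 : ℕ) : ℝ) + 1) / 10 ^ 6 := by
      apply div_le_div_of_nonneg_right _ (by norm_num)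
      push_cast
      exact c2
    push_cast at d1 d2
    have d3 := c3.trans d1
    rw [add_div] at d3 d2
    linarith

theorem boundB (m : ℕ) (hm : 5 ≤ m) : (bN m : ℝ) / 10 ^ 6 ≤ Cp m / √(m : ℝ) * Real.log m := by
  have hm0 : (0 : ℝ) < m := by
    have : 0 < m := by omega
    exact_mod_cast this
  have hs0 : 0 < √(m : ℝ) := Real.sqrt_pos.2 hm0
  obtain ⟨b1, b2⟩ := sqrt_bounds m
  set s : ℕ := Nat.sqrt (m * 10 ^ 8) with hs
  set k : ℕ := Nat.log2 (m ^ 64) with hk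
  have hk1 : 2 ^ k ≤ m ^ 64 := Nat.log2_self_le (by positivity)
  have hk2 : (k : ℝ) * Real.log 2 ≤ 64 * Real.log m := by
    rw [← Real.log_pow, ← Nat.cast_ofNat (R := ℝ) (n := 64), ← Real.log_pow]
    apply Real.log_le_log (by positivity)
    exact_mod_cast hk1
  have hl2 := Real.log_two_gt_d9
  have c1 : (bN m : ℝ) ≤ (2 * 10 ^ 4 * (k * 693147) : ℝ) / ((s + 1) * 64) := by
    unfold bN
    rw [← hs, ← hk]
    have := Nat.cast_div_le (α := ℝ) (m := 2 * 10 ^ 4 * (k * 693147)) (n := (s + 1) * 64)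
    refine le_trans this (le_of_eq ?_)
    push_cast
    norm_num
  have hlog : (k : ℝ) * 0.693147 / 64 ≤ Real.log m := by
    have : (k : ℝ) * 0.693147 ≤ (k : ℝ) * Real.log 2 :=
      mul_le_mul_of_nonneg_left (by linarith) (by positivity)
    linarith
  have hC := Cp_ge m hm
  have c2 : (2 * 10 ^ 4 : ℝ) / (s + 1) ≤ Cp m / √(m : ℝ) := by
    rw [div_le_div_iff₀ (by positivity) hs0]
    nlinarith
  calc (bN m : ℝ) / 10 ^ 6 ≤ ((2 * 10 ^ 4 * (k * 693147) : ℝ) / ((s + 1) * 64)) / 10 ^ 6 := by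
        apply div_le_div_of_nonneg_right c1 (by norm_num)
    _ = (2 * 10 ^ 4 : ℝ) / (s + 1) * ((k : ℝ) * 0.693147 / 64) := by
        field_simp
        ring
    _ ≤ _ := mul_le_mul c2 hlog (by positivity) (by positivity)

end N1

open N1

theorem stN1 : StN1 := by
  classical
  intro t ht S hS
  set P : Finset ℕ := (range 1001).filter PP with hP
  have hsub : S ⊆ P := by
    intro p hp
    obtain ⟨h1, h2, h3⟩ := hS p hp
    rw [hP, Finset.mem_filter, Finset.mem_range]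
    exact ⟨by omega, PP_of_prime h1 h2⟩
  have hlog : Real.log 1000 ≤ 7 := by
    rw [Real.log_le_iff_le_exp (by norm_num)]
    have h1 := Real.exp_one_gt_d9
    have h2 : Real.exp 7 = Real.exp 1 ^ 7 := by
      rw [← Real.exp_nat_mul]
      norm_num
    rw [h2]
    have h3 : (2.7182818283 : ℝ) ^ 7 ≤ Real.exp 1 ^ 7 := pow_le_pow_left₀ (by norm_num) h1.le 7
    refine le_trans ?_ h3
    norm_num
  have hterm : ∀ m ∈ P, Cp m / √(m : ℝ) * (t - 0.26 * Real.log m) ≤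
      (aN m : ℝ) / 10 ^ 6 * t - 0.26 * ((bN m : ℝ) / 10 ^ 6) := by
    intro m hm
    rw [hP, Finset.mem_filter] at hm
    have h5 := PP_ge hm.2
    have h1 := boundA m h5
    have h2 := boundB m h5
    have h3 : Cp m / √(m : ℝ) * t ≤ (aN m : ℝ) / 10 ^ 6 * t :=
      mul_le_mul_of_nonneg_right h1 (by linarith)
    nlinarith
  have hpos : ∀ m ∈ P, 0 ≤ Cp m / √(m : ℝ) * (t - 0.26 * Real.log m) := by
    intro m hm
    rw [hP, Finset.mem_filter, Finset.mem_range] at hm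
    have h5 := PP_ge hm.2
    have h1 := Cp_ge m h5
    have h2 : Real.log m ≤ Real.log 1000 := by
      apply Real.log_le_log
      · have : 0 < m := by omega
        exact_mod_cast this
      · have : m ≤ 1000 := by omega
        exact_mod_cast this
    apply mul_nonneg
    · positivity
    · linarith
  have hA : (∑ m ∈ P, (aN m : ℝ)) ≤ 23150000 := by
    rw [hP, Finset.sum_filter]
    have := sumA
    exact_mod_cast this
  have hB : 110500000 ≤ (∑ m ∈ P, (bN m : ℝ)) := by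
    rw [hP, Finset.sum_filter]
    have := sumB
    exact_mod_cast this
  calc ∑ p ∈ S, Cp p / √(p : ℝ) * (t - 0.26 * Real.log p)
      ≤ ∑ p ∈ P, Cp p / √(p : ℝ) * (t - 0.26 * Real.log p) :=
        Finset.sum_le_sum_of_subset_of_nonneg hsub (fun m hm _ ↦ hpos m hm)
    _ ≤ ∑ m ∈ P, ((aN m : ℝ) / 10 ^ 6 * t - 0.26 * ((bN m : ℝ) / 10 ^ 6)) :=
        Finset.sum_le_sum hterm
    _ = (∑ m ∈ P, (aN m : ℝ)) / 10 ^ 6 * t - 0.26 * ((∑ m ∈ P, (bN m : ℝ)) / 10 ^ 6) := by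
        rw [Finset.sum_sub_distrib, ← Finset.sum_mul, ← Finset.mul_sum, Finset.sum_div,
          Finset.sum_div]
    _ ≤ 23.4 * t - 29 := by
        have h1 : (∑ m ∈ P, (aN m : ℝ)) / 10 ^ 6 * t ≤ 23.15 * t := by
          apply mul_le_mul_of_nonneg_right _ (by linarith)
          rw [div_le_iff₀ (by norm_num)]
          linarith
        have h2 : 110.5 ≤ (∑ m ∈ P, (bN m : ℝ)) / 10 ^ 6 := by
          rw [le_div_iff₀ (by norm_num)]
          linarith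
        linarith

end Pool.Agent.TFS
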