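import Pool.Agent.Lib.TFS.N2Cnt

/-!
N2: sums of `p ^ (-1/2)` over the primes between 1000 and 10^6.
-/

set_option autoImplicit false

open Finset

namespace Pool.Agent.TFS

theorem stN2 : StN2 := by
  intro S hS
  have key : ∀ (B v : ℕ), NK.Bd NK.fs (10 ^ 12) 768 B v → (∀ p ∈ S, p < B) →
      ∑ p ∈ S, 1 / √(p : ℝ) ≤ (v : ℝ) / 10 ^ 12 := by
    intro B v h hB
    refine h S (fun p hp ↦ ⟨(hS p hp).1, (hS p hp).2, ?_, hB p hp⟩)
    have := (hS p hp).2
    omega
  refine ⟨fun h ↦ ?_, fun h ↦ ?_, fun h ↦ ?_⟩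
  · refine (key _ _ NK.bs0_8 (fun p hp ↦ ?_)).trans ?_
    · have := h p hp
      omega
    · norm_num
  · refine (key _ _ (NK.bs0_8.trans NK.bs1_6) (fun p hp ↦ ?_)).trans ?_
    · have := h p hp
      omega
    · norm_num
  · refine (key _ _ ((NK.bs0_8.trans NK.bs1_6).trans NK.bs2_35) (fun p hp ↦ ?_)).trans ?_
    · have := h p hp
      omega
    · norm_num

end Pool.Agent.TFS
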