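import Pool.Agent.Lib.TFS.N3Cnt

/-!
N3: sums of `p ^ (-2)` over the primes above 1000.
-/

set_option autoImplicit false

open Finset

namespace Pool.Agent.TFS

theorem stN3 (h4 : StN4) : StN3 := by
  intro S hS
  -- the primes above 10^6
  have tail : ∀ T : Finset ℕ, (∀ p ∈ T, p.Prime ∧ 1000000 < p) →
      ∑ p ∈ T, 1 / (p : ℝ) ^ 2 ≤ 0.000000268 := by
    intro T hT
    have h := (h4 1000000 1000000 (by norm_num) le_rfl T
      (fun p hp ↦ ⟨(hT p hp).1, by exact_mod_cast (hT p hp).2⟩)).1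
    refine h.trans ?_
    norm_num
  have key : ∀ (A v : ℕ) (T : Finset ℕ), NK.Bd NK.fq (10 ^ 18) A 1007616 v →
      (∀ p ∈ T, p.Prime ∧ 1000 < p ∧ A ≤ p) →
      ∑ p ∈ T, 1 / (p : ℝ) ^ 2 ≤ (v : ℝ) / 10 ^ 18 + 0.000000268 := by
    intro A v T h hT
    rw [← Finset.sum_filter_add_sum_filter_not T (fun p ↦ p < 1007616)]
    refine add_le_add (h _ ?_) (tail _ ?_)
    · intro p hp
      rw [Finset.mem_filter] at hp
      exact ⟨(hT p hp.1).1, (hT p hp.1).2.1, (hT p hp.1).2.2, hp.2⟩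
    · intro p hp
      rw [Finset.mem_filter] at hp
      exact ⟨(hT p hp.1).1, by omega⟩
  refine ⟨fun h ↦ ?_, fun h ↦ ?_, fun h ↦ ?_, fun h ↦ ?_⟩
  · refine (key _ _ S ((NK.bq0_9.trans NK.bq1_6).trans NK.bq2_34) (fun p hp ↦ ?_)).trans ?_
    · have := h p hp
      exact ⟨hS p hp, by omega, by omega⟩
    · norm_num
  · refine (key _ _ S (NK.bq1_6.trans NK.bq2_34) (fun p hp ↦ ?_)).trans ?_
    · have := h p hp
      exact ⟨hS p hp, by omega, by omega⟩
    · norm_num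
  · refine (key _ _ S NK.bq2_34 (fun p hp ↦ ?_)).trans ?_
    · have := h p hp
      exact ⟨hS p hp, by omega, by omega⟩
    · norm_num
  · exact tail S (fun p hp ↦ ⟨hS p hp, h p hp⟩)

end Pool.Agent.TFS
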