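import Pool.Agent.Lib.TFS.StmtsN

/-!
N4: sums over primes compared with integrals (integers prime to 30).
-/

set_option autoImplicit false

open Finset

namespace Pool.Agent.TFS

/-- the number of integers `≤ n` prime to 30 -/
def wh (n : ℕ) : ℕ := ∑ k ∈ range (n + 1), if Nat.Coprime k 30 then 1 else 0

theorem wh_small : ∀ r : Fin 30, 15 * wh r ≤ 4 * r.val + 14 ∧ 4 * r.val ≤ 15 * wh r + 10 := by
  decide

theorem wh_29 : wh 29 = 8 := by decide

theorem cop_add (n k : ℕ) : Nat.Coprime (30 * n + k) 30 ↔ Nat.Coprime k 30 := by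
  unfold Nat.Coprime
  rw [show 30 * n + k = k + 30 * n by ring, Nat.gcd_add_mul_left_left]

theorem wh_add (q r : ℕ) (hr : r < 30) : wh (30 * q + r) = 8 * q + wh r := by
  have h0 : ∀ q : ℕ, wh (30 * q + 29) = 8 * q + 8 → ∀ r : ℕ, r < 30 →
      wh (30 * (q + 1) + r) = 8 * (q + 1) + wh r := by
    intro q hq r hr
    induction r with
    | zero =>
      have h1 : wh (30 * (q + 1) + 0) = wh (30 * q + 29) + 0 := by
        unfold wh
        rw [show 30 * (q + 1) + 0 + 1 = (30 * q + 29 + 1) + 1 by ring, sum_range_succ _ (30 * q + 29 + 1)]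
        congr 1
        rw [if_neg]
        rw [show 30 * q + 29 + 1 = 30 * (q + 1) + 0 by ring, cop_add]
        decide
      have h2 : wh 0 = 0 := by decide
      rw [h1, hq, h2]
      ring
    | succ r ih =>
      have h1 : wh (30 * (q + 1) + (r + 1)) = wh (30 * (q + 1) + r) +
          (if Nat.Coprime (30 * (q + 1) + (r + 1)) 30 then 1 else 0) := by
        unfold wh
        rw [show 30 * (q + 1) + (r + 1) + 1 = (30 * (q + 1) + r + 1) + 1 by ring,
          sum_range_succ _ (30 * (q + 1) + r + 1)]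
        congr 1
      have h2 : wh (r + 1) = wh r + (if Nat.Coprime (r + 1) 30 then 1 else 0) := by
        unfold wh
        rw [sum_range_succ _ (r + 1)]
      rw [h1, h2, ih (by omega)]
      simp only [cop_add]
      ring
  have h1 : ∀ q : ℕ, ∀ r : ℕ, r < 30 → wh (30 * q + r) = 8 * q + wh r := by
    intro q
    induction q with
    | zero => intro r _; rw [show 30 * 0 + r = r by ring]; ring
    | succ q ih =>
      exact h0 q (by rw [ih 29 (by norm_num), wh_29])
  exact h1 q r hr

theorem wh_bd (n : ℕ) : 15 * wh n ≤ 4 * n + 14 ∧ 4 * n ≤ 15 * wh n + 10 := by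
  have h1 : n = 30 * (n / 30) + n % 30 := (Nat.div_add_mod n 30).symm
  have hr : n % 30 < 30 := Nat.mod_lt _ (by norm_num)
  have h2 := wh_add (n / 30) (n % 30) hr
  rw [← h1] at h2
  have h3 := wh_small ⟨n % 30, hr⟩
  simp only at h3
  rw [h2]
  omega

/-- counting lemma -/
theorem count_cop (P : ℝ) (hP : 0 ≤ P) (m : ℕ) (S : Finset ℕ)
    (hS : ∀ k ∈ S, Nat.Coprime k 30 ∧ P < (k : ℝ) ∧ k ≤ m) (hSne : S.Nonempty) :
    (S.card : ℝ) ≤ (4 / 15) * ((m : ℝ) - P) + 2 := by
  set a : ℕ := ⌊P⌋₊ with ha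
  have ha1 : P < a + 1 := Nat.lt_floor_add_one P
  have ha2 : (a : ℝ) ≤ P := Nat.floor_le hP
  have hw : ∀ n : ℕ, wh n = ((range (n + 1)).filter (fun k ↦ Nat.Coprime k 30)).card := by
    intro n
    unfold wh
    rw [card_filter]
  have hdis : Disjoint S ((range (a + 1)).filter (fun k ↦ Nat.Coprime k 30)) := by
    rw [disjoint_left]
    intro k hk hk'
    rw [mem_filter, mem_range] at hk'
    have h1 := (hS k hk).2.1
    have h2 : (k : ℝ) ≤ a := by exact_mod_cast Nat.lt_succ_iff.mp hk'.1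
    linarith
  obtain ⟨k0, hk0⟩ := hSne
  have ham : a ≤ m := by
    have h1 := (hS k0 hk0).2.1
    have h2 := (hS k0 hk0).2.2
    have h3 : (a : ℝ) < k0 := by linarith
    have h4 : a < k0 := by exact_mod_cast h3
    omega
  have hsub : S ∪ ((range (a + 1)).filter (fun k ↦ Nat.Coprime k 30)) ⊆
      (range (m + 1)).filter (fun k ↦ Nat.Coprime k 30) := by
    intro k hk
    rw [mem_union] at hk
    rcases hk with hk | hk
    · rw [mem_filter, mem_range]
      exact ⟨Nat.lt_succ_iff.mpr (hS k hk).2.2, (hS k hk).1⟩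
    · rw [mem_filter, mem_range] at hk ⊢
      exact ⟨by omega, hk.2⟩
  have h1 := card_le_card hsub
  rw [card_union_of_disjoint hdis, ← hw, ← hw] at h1
  have h2 := (wh_bd m).1
  have h3 := (wh_bd a).2
  have h4 : 15 * S.card + 4 * a ≤ 4 * m + 24 := by omega
  have h5 : 15 * (S.card : ℝ) + 4 * a ≤ 4 * m + 24 := by exact_mod_cast h4
  linarith

/-- the general comparison of the sum with the integral -/
theorem wheel (f F : ℝ → ℝ) (P Q : ℝ) (hP : 0 ≤ P) (hPQ : P ≤ Q)
    (hanti : ∀ x y : ℝ, P ≤ x → x ≤ y → y ≤ Q → f y ≤ f x)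
    (hF : ∀ x : ℝ, P ≤ x → x ≤ Q → HasDerivAt F (f x) x)
    (h0 : ∀ x : ℝ, P ≤ x → x ≤ Q → 0 ≤ f x)
    (S : Finset ℕ) (hS : ∀ k ∈ S, Nat.Coprime k 30 ∧ P < (k : ℝ) ∧ (k : ℝ) ≤ Q) :
    ∑ k ∈ S, f k ≤ (4 / 15) * (F Q - F P) + 2 * f P := by
  have hint : ∀ x y : ℝ, P ≤ x → x ≤ y → y ≤ Q → f y * (y - x) ≤ F y - F x := by
    intro x y hx hxy hy
    apply (convex_Icc x y).mul_sub_le_image_sub_of_le_deriv
    · intro z hz
      exact (hF z (by linarith [hz.1]) (by linarith [hz.2])).continuousAt.continuousWithinAt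
    · intro z hz
      rw [interior_Icc] at hz
      exact (hF z (by linarith [hz.1]) (by linarith [hz.2])).differentiableAt.differentiableWithinAt
    · intro z hz
      rw [interior_Icc] at hz
      rw [(hF z (by linarith [hz.1]) (by linarith [hz.2])).deriv]
      exact hanti z y (by linarith [hz.1]) hz.2.le hy
    · exact Set.left_mem_Icc.mpr hxy
    · exact Set.right_mem_Icc.mpr hxy
    · exact hxy
  have hmono : ∀ x y : ℝ, P ≤ x → x ≤ y → y ≤ Q → F x ≤ F y := by
    intro x y hx hxy hy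
    have h1 := hint x y hx hxy hy
    have h2 := h0 y (by linarith) hy
    have h3 : 0 ≤ f y * (y - x) := mul_nonneg h2 (by linarith)
    linarith
  -- the induction
  have key : ∀ n : ℕ, ∀ S : Finset ℕ, S.card = n + 2 →
      (∀ k ∈ S, Nat.Coprime k 30 ∧ P < (k : ℝ) ∧ (k : ℝ) ≤ Q) →
      P + n * (15 / 4) ≤ Q ∧
      ∑ k ∈ S, f k ≤ (4 / 15) * (F (P + n * (15 / 4)) - F P) + 2 * f P := by
    intro n
    induction n with
    | zero =>
      intro S hcard hS
      refine ⟨by simpa using hPQ, ?_⟩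
      have h1 : ∑ k ∈ S, f k ≤ ∑ k ∈ S, f P :=
        sum_le_sum (fun k hk ↦ hanti P k le_rfl (hS k hk).2.1.le (hS k hk).2.2)
      rw [sum_const, hcard, nsmul_eq_mul] at h1
      push_cast at h1 ⊢
      rw [show P + 0 * (15 / 4) = P by ring]
      linarith
    | succ n ih =>
      intro S hcard hS
      have hne : S.Nonempty := by
        rw [← card_pos, hcard]; omega
      set m := S.max' hne with hm
      have hmS : m ∈ S := max'_mem S hne
      have hcount := count_cop P hP m S
        (fun k hk ↦ ⟨(hS k hk).1, (hS k hk).2.1, le_max' S k hk⟩) hne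
      rw [hcard] at hcount
      push_cast at hcount
      have hxm : P + ((n + 1 : ℕ) : ℝ) * (15 / 4) ≤ m := by
        push_cast
        linarith
      have hmQ : (m : ℝ) ≤ Q := (hS m hmS).2.2
      have hcard' : (S.erase m).card = n + 2 := by
        rw [card_erase_of_mem hmS, hcard]; rfl
      obtain ⟨h1, h2⟩ := ih (S.erase m) hcard' (fun k hk ↦ hS k (mem_of_mem_erase hk))
      refine ⟨le_trans hxm hmQ, ?_⟩
      rw [← add_sum_erase S (fun k ↦ f k) hmS]
      have hn0 : (0 : ℝ) ≤ n := Nat.cast_nonneg n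
      have h3 : f m ≤ f (P + ((n + 1 : ℕ) : ℝ) * (15 / 4)) :=
        hanti _ _ (by push_cast; linarith) hxm hmQ
      have h4 := hint (P + n * (15 / 4)) (P + ((n + 1 : ℕ) : ℝ) * (15 / 4)) (by linarith)
        (by push_cast; linarith) (le_trans hxm hmQ)
      have h5 : (P + ((n + 1 : ℕ) : ℝ) * (15 / 4)) - (P + n * (15 / 4)) = 15 / 4 := by
        push_cast; ring
      rw [h5] at h4
      linarith
  have hfP : 0 ≤ f P := h0 P le_rfl hPQ
  rcases Nat.lt_or_ge S.card 2 with hc | hc
  · have h1 : ∑ k ∈ S, f k ≤ ∑ k ∈ S, f P :=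
      sum_le_sum (fun k hk ↦ hanti P k le_rfl (hS k hk).2.1.le (hS k hk).2.2)
    rw [sum_const, nsmul_eq_mul] at h1
    have h2 : (S.card : ℝ) ≤ 2 := by exact_mod_cast hc.le
    have h3 : (S.card : ℝ) * f P ≤ 2 * f P := mul_le_mul_of_nonneg_right h2 hfP
    have h4 := hmono P Q le_rfl hPQ le_rfl
    linarith
  · obtain ⟨n, hn⟩ := Nat.exists_eq_add_of_le hc
    obtain ⟨h1, h2⟩ := key n S (by rw [hn]; ring) hS
    have h3 : F (P + n * (15 / 4)) ≤ F Q := by
      apply hmono _ _ _ h1 le_rfl
      have : (0 : ℝ) ≤ n := Nat.cast_nonneg n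
      linarith
    linarith

theorem prime_cop (p : ℕ) (hp : p.Prime) (P : ℝ) (hP : 30 ≤ P) (h : P < p) : Nat.Coprime p 30 := by
  rw [hp.coprime_iff_not_dvd]
  intro hd
  have h1 := Nat.le_of_dvd (by norm_num) hd
  have h2 : (p : ℝ) ≤ 30 := by exact_mod_cast h1
  linarith

theorem stN4 : StN4 := by
  intro P Q hP hPQ S hS
  have hP0 : 0 < P := by linarith
  refine ⟨?_, ?_⟩
  · -- sums of `p^(-2)`
    set Q' : ℝ := P + ∑ p ∈ S, (p : ℝ) with hQ'
    have hle : ∀ p ∈ S, (p : ℝ) ≤ Q' := by
      intro p hp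
      have h1 : (p : ℝ) ≤ ∑ p ∈ S, (p : ℝ) :=
        single_le_sum (f := fun p : ℕ ↦ (p : ℝ)) (fun i _ ↦ Nat.cast_nonneg i) hp
      linarith
    have hPQ' : P ≤ Q' := by
      have : 0 ≤ ∑ p ∈ S, (p : ℝ) := sum_nonneg (fun i _ ↦ Nat.cast_nonneg i)
      linarith
    have h1 := wheel (fun x ↦ 1 / x ^ 2) (fun x ↦ -(x⁻¹)) P Q' hP0.le hPQ'
      (by
        intro x y hx hxy _
        have hx0 : 0 < x := by linarith
        exact one_div_le_one_div_of_le (by positivity) (pow_le_pow_left₀ hx0.le hxy 2))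
      (by
        intro x hx _
        have hx0 : x ≠ 0 := by linarith
        have h2 := (hasDerivAt_inv hx0).neg
        rw [neg_neg] at h2
        rw [one_div]
        exact h2)
      (by intro x _ _; positivity) S
      (fun k hk ↦ ⟨prime_cop k (hS k hk).1 P hP (hS k hk).2, (hS k hk).2, hle k hk⟩)
    refine le_trans h1 ?_
    have h2 : 0 < Q'⁻¹ := inv_pos.mpr (by linarith)
    have h3 : (4 / 15 : ℝ) / P = (4 / 15) * P⁻¹ := by rw [div_eq_mul_inv]
    have h4 : (2 : ℝ) / P ^ 2 = 2 * (1 / P ^ 2) := by ring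
    rw [h3, h4]
    linarith
  · intro hQ
    refine ⟨?_, ?_⟩
    · have h1 := wheel (fun x ↦ 1 / √x) (fun x ↦ 2 * √x) P Q hP0.le hPQ
        (by
          intro x y hx hxy _
          have hx0 : 0 < x := by linarith
          exact one_div_le_one_div_of_le (Real.sqrt_pos.mpr hx0) (Real.sqrt_le_sqrt hxy))
        (by
          intro x hx _
          have hx0 : x ≠ 0 := by linarith
          have h2 := (Real.hasDerivAt_sqrt hx0).const_mul 2
          have h3 : 2 * (1 / (2 * √x)) = 1 / √x := by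
            have : √x ≠ 0 := (Real.sqrt_pos.mpr (by linarith)).ne'
            field_simp
          rw [h3] at h2
          exact h2)
        (by intro x _ _; positivity) S
        (fun k hk ↦ ⟨prime_cop k (hS k hk).1 P hP (hS k hk).2, (hS k hk).2, hQ k hk⟩)
      refine le_trans h1 (le_of_eq ?_)
      ring
    · intro t ht
      have hlog : ∀ x : ℝ, P ≤ x → x ≤ Q → 0 ≤ t - 0.26 * Real.log x := by
        intro x hx hxQ
        have h2 : Real.log x ≤ Real.log Q := Real.log_le_log (by linarith) hxQ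
        linarith
      have h1 := wheel (fun x ↦ 1 / √x * (t - 0.26 * Real.log x))
        (fun x ↦ 2 * √x * (t - 0.26 * Real.log x + 0.52)) P Q hP0.le hPQ
        (by
          intro x y hx hxy hy
          have hx0 : 0 < x := by linarith
          have h2 : 1 / √y ≤ 1 / √x :=
            one_div_le_one_div_of_le (Real.sqrt_pos.mpr hx0) (Real.sqrt_le_sqrt hxy)
          have h3 : t - 0.26 * Real.log y ≤ t - 0.26 * Real.log x := by
            have := Real.log_le_log hx0 hxy
            linarith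
          exact mul_le_mul h2 h3 (hlog y (by linarith) hy) (by positivity))
        (by
          intro x hx _
          have hx0 : x ≠ 0 := by linarith
          have hxp : 0 < x := by linarith
          have hsx : √x ≠ 0 := (Real.sqrt_pos.mpr hxp).ne'
          have h2 := (Real.hasDerivAt_sqrt hx0).const_mul 2
          have h3 : HasDerivAt (fun x ↦ t - 0.26 * Real.log x + 0.52) (-(0.26 * x⁻¹)) x := by
            have h4 := (Real.hasDerivAt_log hx0).const_mul (0.26 : ℝ)
            exact (h4.const_sub t).add_const _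
          have h4 := h2.mul h3
          refine h4.congr_deriv ?_
          have hsq : √x * √x = x := Real.mul_self_sqrt hxp.le
          have h5 : x⁻¹ = (√x)⁻¹ * (√x)⁻¹ := by
            rw [← mul_inv, hsq]
          rw [h5]
          field_simp
          ring)
        (by
          intro x hx hxQ
          exact mul_nonneg (by positivity) (hlog x hx hxQ)) S
        (fun k hk ↦ ⟨prime_cop k (hS k hk).1 P hP (hS k hk).2, (hS k hk).2, hQ k hk⟩)
      refine le_trans h1 (le_of_eq ?_)
      ring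

end Pool.Agent.TFS
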