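import Pool.Agent.Lib.TFS.StmtsR

/-!
N5: the sum of `p^(-3/2)` over the primes `p ≥ 5` is at most `0.32`.
-/

set_option autoImplicit false

open Finset MeasureTheory

namespace Pool.Agent.TFS

namespace N5Aux

/-- `p^(-3/2)` -/
noncomputable def w (p : ℕ) : ℝ := 1 / ((p : ℝ) * √(p : ℝ))

theorem w_nonneg (p : ℕ) : 0 ≤ w p := by
  unfold w
  positivity

theorem w_tel {m : ℕ} (hm : 2 ≤ m) :
    w m ≤ 1 / √((m : ℝ) - 1) - 1 / √((m : ℝ) + 1) := by
  have hm' : (2 : ℝ) ≤ m := by exact_mod_cast hm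
  set a := √((m : ℝ) - 1) with ha
  set b := √((m : ℝ) + 1) with hb
  set c := √(m : ℝ) with hc
  have ha0 : 0 < a := Real.sqrt_pos.2 (by linarith)
  have hb0 : 0 < b := Real.sqrt_pos.2 (by linarith)
  have hc0 : 0 < c := Real.sqrt_pos.2 (by linarith)
  have ha2 : a ^ 2 = m - 1 := Real.sq_sqrt (by linarith)
  have hb2 : b ^ 2 = m + 1 := Real.sq_sqrt (by linarith)
  have hc2 : c ^ 2 = m := Real.sq_sqrt (by linarith)
  have h1 : a * b ≤ c ^ 2 := by nlinarith [sq_nonneg (a - b)]
  have h2 : a + b ≤ 2 * c := by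
    rw [← pow_le_pow_iff_left₀ (by positivity) (by positivity) two_ne_zero]
    nlinarith [sq_nonneg (a - b)]
  have hab : a ≤ b := Real.sqrt_le_sqrt (by linarith)
  have h3 : 1 ≤ c * (b - a) := by
    have h4 : (a + b) * (b - a) = 2 := by linear_combination hb2 - ha2
    have h5 : (a + b) * (b - a) ≤ (2 * c) * (b - a) :=
      mul_le_mul_of_nonneg_right h2 (by linarith)
    linarith
  have h4 : c ^ 2 * 1 ≤ c ^ 2 * (c * (b - a)) := mul_le_mul_of_nonneg_left h3 (by positivity)
  unfold w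
  rw [← hc, div_sub_div _ _ ha0.ne' hb0.ne', div_le_div_iff₀ (by positivity) (by positivity)]
  have h5 : (m : ℝ) * c = c ^ 2 * c := by rw [hc2]
  rw [h5]
  linarith

/-- `(1/√(x-2) - 1/√(x+2)) ≤ (2/3) (1/√(x-3) - 1/√(x+3))` -/
theorem conv {x : ℝ} (hx : 4 ≤ x) :
    1 / √(x - 2) - 1 / √(x + 2) ≤ 2 / 3 * (1 / √(x - 3) - 1 / √(x + 3)) := by
  set a := √(x - 3) with ha
  set b := √(x + 3) with hb
  set c := √(x - 2) with hc
  set d := √(x + 2) with hd
  have ha0 : 0 < a := Real.sqrt_pos.2 (by linarith)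
  have hb0 : 0 < b := Real.sqrt_pos.2 (by linarith)
  have hc0 : 0 < c := Real.sqrt_pos.2 (by linarith)
  have hd0 : 0 < d := Real.sqrt_pos.2 (by linarith)
  have ha2 : a ^ 2 = x - 3 := Real.sq_sqrt (by linarith)
  have hb2 : b ^ 2 = x + 3 := Real.sq_sqrt (by linarith)
  have hc2 : c ^ 2 = x - 2 := Real.sq_sqrt (by linarith)
  have hd2 : d ^ 2 = x + 2 := Real.sq_sqrt (by linarith)
  have h1 : a * b ≤ c * d := by
    rw [← pow_le_pow_iff_left₀ (by positivity) (by positivity) two_ne_zero, mul_pow, mul_pow,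
      ha2, hb2, hc2, hd2]
    nlinarith
  have h2 : a + b ≤ c + d := by
    rw [← pow_le_pow_iff_left₀ (by positivity) (by positivity) two_ne_zero]
    nlinarith
  have h3 : a * b * (a + b) ≤ c * d * (c + d) := mul_le_mul h1 h2 (by positivity) (by positivity)
  have e1 : 1 / c - 1 / d = 4 / (c * d * (c + d)) := by
    rw [div_sub_div _ _ hc0.ne' hd0.ne', div_eq_div_iff (by positivity) (by positivity)]
    linear_combination (c * d) * hd2 - (c * d) * hc2
  have e2 : 1 / a - 1 / b = 6 / (a * b * (a + b)) := by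
    rw [div_sub_div _ _ ha0.ne' hb0.ne', div_eq_div_iff (by positivity) (by positivity)]
    linear_combination (a * b) * hb2 - (a * b) * ha2
  rw [e1, e2]
  have h4 : 4 / (c * d * (c + d)) ≤ 4 / (a * b * (a + b)) :=
    div_le_div_of_nonneg_left (by norm_num) (by positivity) h3
  refine h4.trans (le_of_eq ?_)
  ring

theorem w_tail (J : ℕ) : ∑ j ∈ range J, (w (1025 + 6 * j) + w (1027 + 6 * j)) ≤
    2 / 3 * (1 / √(1023 : ℝ) - 1 / √(1023 + 6 * J : ℝ)) := by
  induction J with
  | zero => simp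
  | succ J ih =>
    rw [sum_range_succ]
    have h1 := w_tel (m := 1025 + 6 * J) (by omega)
    have h2 := w_tel (m := 1027 + 6 * J) (by omega)
    have h3 := conv (x := 1026 + 6 * (J : ℝ)) (by
      have : (0 : ℝ) ≤ J := Nat.cast_nonneg J
      linarith)
    push_cast at h1 h2 ⊢
    rw [show (1025 + 6 * (J : ℝ) - 1) = 1026 + 6 * J - 2 by ring,
      show (1025 + 6 * (J : ℝ) + 1) = 1026 + 6 * J by ring] at h1
    rw [show (1027 + 6 * (J : ℝ) - 1) = 1026 + 6 * J by ring,
      show (1027 + 6 * (J : ℝ) + 1) = 1026 + 6 * J + 2 by ring] at h2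
    rw [show (1026 + 6 * (J : ℝ) - 3) = 1023 + 6 * J by ring,
      show (1026 + 6 * (J : ℝ) + 3) = 1023 + 6 * (J + 1) by ring] at h3
    linarith

/-- five times an approximation of the square root -/
def na (p : ℕ) : ℕ := if p < 8 then 12 else if p < 16 then 18 else if p < 32 then 24
  else if p < 64 then 34 else if p < 128 then 48 else if p < 256 then 68
  else if p < 512 then 96 else 136

theorem na_pos (p : ℕ) : 0 < na p := by
  unfold na
  split_ifs <;> norm_num

/-- upper bound for `10^9 p^(-3/2)` -/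
def v (p : ℕ) : ℕ := (10 ^ 9 * (25 * p + na p ^ 2)) / (10 * p ^ 2 * na p) + 1

/-- not divisible by a small prime other than itself -/
def ok (p : ℕ) : Bool := [2, 3, 5, 7, 11, 13, 17, 19, 23, 29, 31].all (fun d => p % d != 0 || p == d)

theorem ok_of_prime {p : ℕ} (hp : p.Prime) : ok p = true := by
  unfold ok
  rw [List.all_eq_true]
  intro d hd
  have hd1 : d ≠ 1 := by
    rintro rfl
    simp at hd
  rw [Bool.or_eq_true, bne_iff_ne, beq_iff_eq]
  by_cases h : p % d = 0
  · right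
    rcases (Nat.dvd_prime hp).1 (Nat.dvd_of_mod_eq_zero h) with h1 | h1
    · exact absurd h1 hd1
    · exact h1.symm
  · exact Or.inl h

theorem small_n : ∑ p ∈ (Icc 5 1023).filter (fun p => ok p = true), v p ≤ 298000000 := by
  decide +kernel

theorem w_le_v {p : ℕ} (hp : 1 ≤ p) : w p ≤ (v p : ℝ) / 10 ^ 9 := by
  have hn : (0 : ℝ) < na p := by exact_mod_cast na_pos p
  have hp0 : (0 : ℝ) < p := by exact_mod_cast hp
  have hs : 0 < √(p : ℝ) := Real.sqrt_pos.2 hp0
  have hs2 : √(p : ℝ) ^ 2 = p := Real.sq_sqrt hp0.le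
  set a : ℝ := (na p : ℝ) / 5 with had
  have ha : 0 < a := by positivity
  set s := √(p : ℝ) with hsd
  have h1 : 1 / s ≤ (1 / a + a / p) / 2 := by
    rw [← hs2]
    rw [div_add_div _ _ ha.ne' (by positivity), div_div, div_le_div_iff₀ hs (by positivity)]
    nlinarith [sq_nonneg (a - s)]
  have h2 : w p = 1 / p * (1 / s) := by
    unfold w
    rw [← hsd, one_div_mul_one_div]
  rw [h2]
  have h3 := mul_le_mul_of_nonneg_left h1 (show (0 : ℝ) ≤ 1 / p by positivity)
  refine h3.trans ?_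
  have h4 : 1 / (p : ℝ) * ((1 / a + a / p) / 2) = (25 * p + (na p : ℝ) ^ 2) / (10 * p ^ 2 * na p) := by
    rw [had]
    field_simp
    ring
  rw [h4]
  have h5 := Nat.lt_mul_div_succ (10 ^ 9 * (25 * p + na p ^ 2))
    (show 0 < 10 * p ^ 2 * na p from mul_pos (by positivity) (na_pos p))
  have h6 : ((10 ^ 9 * (25 * p + na p ^ 2) : ℕ) : ℝ) ≤ ((10 * p ^ 2 * na p : ℕ) : ℝ) * (v p : ℝ) := by
    unfold v
    exact_mod_cast h5.le
  push_cast at h6
  rw [div_le_div_iff₀ (by positivity) (by positivity)]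
  linarith

theorem sqrt_1023 : 2 / 3 * (1 / √(1023 : ℝ)) ≤ 0.021 := by
  have h1 : (31.9 : ℝ) ≤ √1023 := by
    rw [show (31.9 : ℝ) = √(31.9 ^ 2) by rw [Real.sqrt_sq (by norm_num)]]
    exact Real.sqrt_le_sqrt (by norm_num)
  have h2 : 1 / √(1023 : ℝ) ≤ 1 / 31.9 := one_div_le_one_div_of_le (by norm_num) h1
  norm_num at h2 ⊢
  linarith

end N5Aux

open N5Aux in
theorem stN5 : StN5 := by
  intro S hS
  change ∑ p ∈ S, w p ≤ 0.32
  rw [← sum_filter_add_sum_filter_not S (fun p => p ≤ 1023)]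
  have h1 : ∑ p ∈ S.filter (fun p => p ≤ 1023), w p ≤ 0.298 := by
    have h2 : ∑ p ∈ S.filter (fun p => p ≤ 1023), w p ≤
        ∑ p ∈ (Icc 5 1023).filter (fun p => ok p = true), w p := by
      refine sum_le_sum_of_subset_of_nonneg ?_ fun p _ _ => w_nonneg p
      intro p hp
      rw [mem_filter] at hp
      rw [mem_filter, mem_Icc]
      exact ⟨⟨(hS p hp.1).2, hp.2⟩, ok_of_prime (hS p hp.1).1⟩
    refine h2.trans ?_
    refine (sum_le_sum fun p hp => w_le_v (by
      have := (mem_Icc.1 (mem_filter.1 hp).1).1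
      omega)).trans ?_
    rw [← sum_div, div_le_iff₀ (by positivity)]
    have h3 : ((∑ p ∈ (Icc 5 1023).filter (fun p => ok p = true), v p : ℕ) : ℝ) ≤
        ((298000000 : ℕ) : ℝ) := by
      exact_mod_cast small_n
    rw [Nat.cast_sum] at h3
    refine h3.trans ?_
    norm_num
  have h4 : ∑ p ∈ S.filter (fun p => ¬ p ≤ 1023), w p ≤ 0.021 := by
    obtain ⟨B, hB⟩ : ∃ B : ℕ, ∀ p ∈ S, p ≤ B := ⟨S.sup id, fun p hp => le_sup (f := id) hp⟩
    have h5 : ∑ p ∈ S.filter (fun p => ¬ p ≤ 1023), w p ≤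
        ∑ p ∈ (range (B + 1)).image (fun j => 1025 + 6 * j) ∪
          (range (B + 1)).image (fun j => 1027 + 6 * j), w p := by
      refine sum_le_sum_of_subset_of_nonneg ?_ fun p _ _ => w_nonneg p
      intro p hp
      rw [mem_filter] at hp
      have hpr := (hS p hp.1).1
      have hpB := hB p hp.1
      have h2 : p % 2 ≠ 0 := by
        intro h
        have := (Nat.prime_dvd_prime_iff_eq Nat.prime_two hpr).1 (Nat.dvd_of_mod_eq_zero h)
        omega
      have h3 : p % 3 ≠ 0 := by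
        intro h
        have := (Nat.prime_dvd_prime_iff_eq Nat.prime_three hpr).1 (Nat.dvd_of_mod_eq_zero h)
        omega
      rw [mem_union, mem_image, mem_image]
      by_cases h6 : p % 6 = 5
      · exact Or.inl ⟨(p - 1025) / 6, mem_range.2 (by omega), by omega⟩
      · have h7 : p % 6 = 1 := by omega
        have h8 : 1023 < p := by omega
        have h9 : 1027 ≤ p := by omega
        exact Or.inr ⟨(p - 1027) / 6, mem_range.2 (by omega), by omega⟩
    refine h5.trans ?_
    rw [sum_union, sum_image (fun a _ b _ h => by simpa using h),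
      sum_image (fun a _ b _ h => by simpa using h), ← sum_add_distrib]
    · refine (w_tail (B + 1)).trans ?_
      have h6 := sqrt_1023
      have h7 : 0 ≤ 1 / √(1023 + 6 * ((B + 1 : ℕ) : ℝ)) := by positivity
      rw [mul_sub]
      linarith
    · rw [disjoint_left]
      intro p hp hq
      rw [mem_image] at hp hq
      obtain ⟨a, -, ha⟩ := hp
      obtain ⟨b, -, hb⟩ := hq
      omega
  norm_num at h1 h4 ⊢
  linarith

end Pool.Agent.TFS
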