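import Pool.Agent.Lib.TFS.StmtsR

/-!
R1: the range `ν ≤ 10^18` for `n = 1 mod 3` (`stR1`, `stR2p`).
-/

set_option autoImplicit false

open Finset MeasureTheory

namespace Pool.Agent.TFS

open Pool.Agent.Lib.MP_0e0027_nt

/-- verification of the criterion from numerical bounds -/
theorem r1_core (hC : StCrit) (h1 : StN1) (h2 : StN2) (h3 : StN3) (n : ℕ) (hA : Ex.Adm n)
    (hm : n % 3 = 1) (hlo : 40000000000000000 ≤ nu n) (hhi : nu n ≤ 10 ^ 18) (W q Lq p s l : ℝ)
    (hW : Wn n = W) (hW0 : 0 ≤ W) (hW1 : W ≤ 1)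
    (hq : (nu n : ℝ) ^ (-(1 / 4) : ℝ) ≤ q)
    (hLq : Real.log (nu n) * (nu n : ℝ) ^ (-(1 / 4) : ℝ) ≤ Lq)
    (hp : (nu n : ℝ) ^ (-(1 / 4) : ℝ) * (nu n : ℝ) ^ (1 / 20 : ℝ) ≤ p)
    (hs : (nu n : ℝ) ^ (1 / 6 : ℝ) ≤ s)
    (hl : Real.log (√(nu n : ℝ) / 1000) ≤ l)
    (hK : 76.86 * (0.8 + 0.143 * l) * 0.000136273 + 0.000009 ≤ 0.04)
    (hE : (48 * W * 3.042 + 3.2) * Lq + (1190.68125 - 48 * W * 14.96) * q + 49 * p +
      73.485 * s * 0.00000059 +
      1.46 * (76.86 * (0.8 + 0.143 * l) * 0.000136273 + 0.000009) < 0.3664) : Ex.Rep4 n := by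
  have hlo' : (40000000000000000 : ℝ) ≤ nu n := by exact_mod_cast hlo
  have hhi' : (nu n : ℝ) ≤ 1000000000000000000 := by
    have : ((nu n : ℕ) : ℝ) ≤ ((10 ^ 18 : ℕ) : ℝ) := by exact_mod_cast hhi
    refine this.trans (by norm_num)
  have hc3 : c3 n = 16 / 3 := by unfold c3; rw [if_neg (by omega)]
  have hsq : (200000000 : ℝ) ≤ √(nu n : ℝ) := Real.le_sqrt_of_sq_le (by norm_num; linarith)
  have hlog0 : 0 ≤ Real.log (√(nu n : ℝ) / 1000) := by
    apply Real.log_nonneg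
    rw [le_div_iff₀ (by norm_num)]
    linarith
  have hlog1 : (12 : ℝ) ≤ Real.log (nu n : ℝ) := by
    rw [Real.le_log_iff_exp_le (by linarith)]
    have e : Real.exp 12 = Real.exp 1 ^ 12 := by rw [← Real.exp_nat_mul]; norm_num
    rw [e]
    calc Real.exp 1 ^ 12 ≤ 3 ^ 12 := by
          gcongr
          exact Real.exp_one_lt_three.le
      _ ≤ 40000000000000000 := by norm_num
      _ ≤ _ := hlo'
  have hkk : kk n 1000 6 0.00013 =
      76.86 * (0.8 + 0.143 * Real.log (√(nu n : ℝ) / 1000)) * 0.000136273 + 0.000009 := by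
    unfold kk
    rw [hc3]
    push_cast
    norm_num
  have hkkle : kk n 1000 6 0.00013 ≤ 76.86 * (0.8 + 0.143 * l) * 0.000136273 + 0.000009 := by
    rw [hkk]
    gcongr
  refine hC n 1000 200000 6 0.00013 81 0.00000059
    (23.4 * (0.13 * Real.log (nu n) + 0.6) - 29) hA (by omega) le_rfl (by norm_num) ?_ ?_ ?_ ?_ ?_ ?_ ?_
    ?_ ?_ ?_
  · refine Real.le_sqrt_of_sq_le ?_
    push_cast
    norm_num
    linarith
  · push_cast
    linarith
  · calc nu n ≤ 10 ^ 18 := hhi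
      _ < 1000 ^ (6 + 1) := by norm_num
  · intro S hS
    exact h1 _ (by linarith) S (fun x hx ↦ hS x hx)
  · exact (h3 _ (fun x hx ↦ by
      unfold Pr at hx; rw [mem_filter] at hx; exact hx.2)).1 (fun x hx ↦ by
      unfold Pr at hx; rw [mem_filter, mem_Icc] at hx; omega)
  · exact (h2 _ (fun x hx ↦ by
      unfold Pr at hx; rw [mem_filter, mem_Icc] at hx; exact ⟨hx.2, by omega⟩)).2.1 (fun x hx ↦ by
      unfold Pr at hx; rw [mem_filter, mem_Icc] at hx; omega)
  · exact (h3 _ (fun x hx ↦ by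
      unfold Pr at hx; rw [mem_filter] at hx; exact hx.2)).2.2.1 (fun x hx ↦ by
      unfold Pr at hx; rw [mem_filter, mem_Icc] at hx; omega)
  · rw [hkk]
    nlinarith
  · exact hkkle.trans hK
  · have heT : eT n (23.4 * (0.13 * Real.log (nu n) + 0.6) - 29) 81 0.00000059 =
        (48 * W * 3.042 + 3.2) * (Real.log (nu n) * (nu n : ℝ) ^ (-(1 / 4) : ℝ)) +
        (1190.68125 - 48 * W * 14.96) * (nu n : ℝ) ^ (-(1 / 4) : ℝ) +
        49 * ((nu n : ℝ) ^ (-(1 / 4) : ℝ) * (nu n : ℝ) ^ (1 / 20 : ℝ)) +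
        73.485 * (nu n : ℝ) ^ (1 / 6 : ℝ) * 0.00000059 := by
      unfold eT eL
      rw [if_pos hm, hc3, hW]
      ring
    rw [heT]
    have a1 : (48 * W * 3.042 + 3.2) * (Real.log (nu n) * (nu n : ℝ) ^ (-(1 / 4) : ℝ)) ≤
        (48 * W * 3.042 + 3.2) * Lq := mul_le_mul_of_nonneg_left hLq (by positivity)
    have a2 : (1190.68125 - 48 * W * 14.96) * (nu n : ℝ) ^ (-(1 / 4) : ℝ) ≤
        (1190.68125 - 48 * W * 14.96) * q := mul_le_mul_of_nonneg_left hq (by nlinarith)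
    nlinarith

/-- bounds for the decreasing and increasing functions -/
theorem r1_bounds (x : ℝ) (a y : ℕ) (m k : ℕ) (ha : (10 : ℝ) ≤ a) (hy : (1 : ℝ) ≤ y)
    (hx : (a : ℝ) ^ 4 ≤ x) (hy5 : (y : ℝ) ^ 5 ≤ x)
    (hm : (a : ℝ) ^ 4 ≤ 2.718 ^ m) (hk : x / 1000000 ≤ 2.718 ^ k) :
    x ^ (-(1 / 4) : ℝ) ≤ 1 / a ∧ Real.log x * x ^ (-(1 / 4) : ℝ) ≤ m / a ∧
    x ^ (-(1 / 4) : ℝ) * x ^ (1 / 20 : ℝ) ≤ 1 / y ∧ Real.log (√x / 1000) ≤ k / 2 := by
  have ha0 : (0 : ℝ) < a := by linarith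
  have hy0 : (0 : ℝ) < y := by linarith
  have hx0 : 0 < x := lt_of_lt_of_le (by positivity) hx
  have he : (2.718 : ℝ) ≤ Real.exp 1 := by
    have := Real.exp_one_gt_d9; linarith
  have ha4 : ((a : ℝ) ^ 4) ^ (-(1 / 4) : ℝ) = 1 / a := by
    rw [← Real.rpow_natCast, ← Real.rpow_mul ha0.le]
    norm_num
    rw [Real.rpow_neg_one]
  have q1 : x ^ (-(1 / 4) : ℝ) ≤ 1 / a := by
    rw [← ha4]
    exact Real.rpow_le_rpow_of_nonpos (by positivity) hx (by norm_num)
  refine ⟨q1, ?_, ?_, ?_⟩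
  · have h1 := Real.log_div_self_rpow_antitoneOn (a := 1 / 4) (by norm_num)
    have hmem : ∀ z : ℝ, (a : ℝ) ^ 4 ≤ z → z ∈ Set.Ici (Real.exp (1 / 4)⁻¹) := by
      intro z hz
      rw [Set.mem_Ici]
      have e : Real.exp (1 / 4)⁻¹ = Real.exp 1 ^ 4 := by
        rw [← Real.exp_nat_mul]; norm_num
      rw [e]
      refine le_trans ?_ hz
      have : Real.exp 1 ≤ a := by
        have := Real.exp_one_lt_three; linarith
      gcongr
    have h2 := h1 (hmem _ le_rfl) (hmem x hx) hx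
    simp only at h2
    have e1 : Real.log x * x ^ (-(1 / 4) : ℝ) = Real.log x / x ^ (1 / 4 : ℝ) := by
      rw [Real.rpow_neg hx0.le]
      exact (div_eq_mul_inv _ _).symm
    have e2 : ((a : ℝ) ^ 4) ^ (1 / 4 : ℝ) = a := by
      rw [← Real.rpow_natCast, ← Real.rpow_mul ha0.le]
      norm_num
    rw [e1]
    refine h2.trans ?_
    rw [e2]
    gcongr
    have h3 : Real.log ((a : ℝ) ^ 4) ≤ Real.log (2.718 ^ m) := Real.log_le_log (by positivity) hm
    refine h3.trans ?_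
    rw [Real.log_pow]
    have h4 : Real.log 2.718 ≤ 1 := by
      rw [Real.log_le_iff_le_exp (by norm_num)]; exact he
    have : (0 : ℝ) ≤ m := Nat.cast_nonneg _
    nlinarith
  · rw [← Real.rpow_add hx0]
    have e3 : (-(1 / 4) + 1 / 20 : ℝ) = -(1 / 5) := by norm_num
    rw [e3]
    have e4 : ((y : ℝ) ^ 5) ^ (-(1 / 5) : ℝ) = 1 / y := by
      rw [← Real.rpow_natCast, ← Real.rpow_mul hy0.le]
      norm_num
      rw [Real.rpow_neg_one]
    rw [← e4]
    exact Real.rpow_le_rpow_of_nonpos (by positivity) hy5 (by norm_num)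
  · have e5 : Real.log (√x / 1000) = Real.log (x / 1000000) / 2 := by
      have : √x / 1000 = √(x / 1000000) := by
        rw [Real.sqrt_div hx0.le]
        congr 1
        rw [show (1000000 : ℝ) = 1000 ^ 2 by norm_num, Real.sqrt_sq (by norm_num)]
      rw [this, Real.log_sqrt (by positivity)]
    rw [e5]
    gcongr
    have h3 : Real.log (x / 1000000) ≤ Real.log (2.718 ^ k) := Real.log_le_log (by positivity) hk
    refine h3.trans ?_
    rw [Real.log_pow]
    have h4 : Real.log 2.718 ≤ 1 := by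
      rw [Real.log_le_iff_le_exp (by norm_num)]; exact he
    have : (0 : ℝ) ≤ k := Nat.cast_nonneg _
    nlinarith

theorem r1_sixth (x s : ℝ) (hx : 0 ≤ x) (hs : 0 ≤ s) (h : x ≤ s ^ 6) : x ^ (1 / 6 : ℝ) ≤ s := by
  have e : (s ^ 6) ^ (1 / 6 : ℝ) = s := by
    rw [← Real.rpow_natCast, ← Real.rpow_mul hs]
    norm_num
  rw [← e]
  exact Real.rpow_le_rpow hx h (by norm_num)

theorem stR1 (hC : StCrit) (h1 : StN1) (h2 : StN2) (h3 : StN3) : StR1 := by
  intro n hA hm ho hlo hhi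
  have hnu : nu n = n := by unfold nu; rw [if_pos ho]
  have hW : Wn n = 0.7883 := by unfold Wn; rw [if_neg (by omega), if_pos ho]
  have hlo' : (190000000000000000 : ℝ) ≤ nu n := by rw [hnu]; exact_mod_cast hlo
  have hhi' : (nu n : ℝ) ≤ 1000000000000000000 := by
    have : ((nu n : ℕ) : ℝ) ≤ ((10 ^ 18 : ℕ) : ℝ) := by exact_mod_cast hhi
    refine this.trans (by norm_num)
  have hx0 : (0 : ℝ) ≤ nu n := by linarith
  rcases le_total (nu n : ℝ) 500000000000000000 with h | h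
  · obtain ⟨b1, b2, b3, b4⟩ := r1_bounds (nu n) 20877 2855 40 27 (by norm_num) (by norm_num)
      (le_trans (by norm_num) hlo') (le_trans (by norm_num) hlo') (by norm_num)
      (by
        calc (nu n : ℝ) / 1000000 ≤ 500000000000000000 / 1000000 := by gcongr
          _ ≤ _ := by norm_num)
    have b5 := r1_sixth (nu n) 891 hx0 (by norm_num) (h.trans (by norm_num))
    refine r1_core hC h1 h2 h3 n hA hm (by omega) hhi 0.7883 (1 / 20877) (40 / 20877) (1 / 2855) 891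
      (27 / 2) hW (by norm_num) (by norm_num) (by exact_mod_cast b1) (by exact_mod_cast b2)
      (by exact_mod_cast b3) b5 (by exact_mod_cast b4) (by norm_num) (by norm_num)
  · obtain ⟨b1, b2, b3, b4⟩ := r1_bounds (nu n) 26591 3465 41 28 (by norm_num) (by norm_num)
      (le_trans (by norm_num) h) (le_trans (by norm_num) h) (by norm_num)
      (by
        calc (nu n : ℝ) / 1000000 ≤ 1000000000000000000 / 1000000 := by gcongr
          _ ≤ _ := by norm_num)
    have b5 := r1_sixth (nu n) 1000 hx0 (by norm_num) (hhi'.trans (by norm_num))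
    refine r1_core hC h1 h2 h3 n hA hm (by omega) hhi 0.7883 (1 / 26591) (41 / 26591) (1 / 3465) 1000
      (28 / 2) hW (by norm_num) (by norm_num) (by exact_mod_cast b1) (by exact_mod_cast b2)
      (by exact_mod_cast b3) b5 (by exact_mod_cast b4) (by norm_num) (by norm_num)

theorem stR2p (hC : StCrit) (h1 : StN1) (h2 : StN2) (h3 : StN3) : StR2p := by
  intro n hA hm ho hlo hhi
  have hnu : nu n = n / 2 := by unfold nu; rw [if_neg (by omega)]
  have hW : Wn n = 0.4167 := by unfold Wn; rw [if_neg (by omega), if_neg (by omega)]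
  have hlo1 : 95000000000000000 ≤ nu n := by rw [hnu]; omega
  have hlo' : (95000000000000000 : ℝ) ≤ nu n := by exact_mod_cast hlo1
  have hhi' : (nu n : ℝ) ≤ 1000000000000000000 := by
    have : ((nu n : ℕ) : ℝ) ≤ ((10 ^ 18 : ℕ) : ℝ) := by exact_mod_cast hhi
    refine this.trans (by norm_num)
  have hx0 : (0 : ℝ) ≤ nu n := by linarith
  obtain ⟨b1, b2, b3, b4⟩ := r1_bounds (nu n) 17556 2486 40 28 (by norm_num) (by norm_num)
    (le_trans (by norm_num) hlo') (le_trans (by norm_num) hlo') (by norm_num)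
    (by
      calc (nu n : ℝ) / 1000000 ≤ 1000000000000000000 / 1000000 := by gcongr
        _ ≤ _ := by norm_num)
  have b5 := r1_sixth (nu n) 1000 hx0 (by norm_num) (hhi'.trans (by norm_num))
  refine r1_core hC h1 h2 h3 n hA hm (by omega) hhi 0.4167 (1 / 17556) (40 / 17556) (1 / 2486) 1000
    (28 / 2) hW (by norm_num) (by norm_num) (by exact_mod_cast b1) (by exact_mod_cast b2)
    (by exact_mod_cast b3) b5 (by exact_mod_cast b4) (by norm_num) (by norm_num)

end Pool.Agent.TFS
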