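import Pool.Agent.Lib.TFS.StmtsR

/-!
R3: the range `n ≡ 0 mod 3`, `ν ≤ 10^18` (blueprint: team-store `tfs_R.md`).
-/

set_option autoImplicit false

open Finset MeasureTheory

namespace Pool.Agent.TFS

open Pool.Agent.Lib.MP_0e0027_nt

namespace R3

theorem log_le (x y : ℝ) (hx : 0 < x) (hy : 0 < y) : Real.log x ≤ Real.log y + (x / y - 1) := by
  have h := Real.log_le_sub_one_of_pos (div_pos hx hy)
  rw [Real.log_div hx.ne' hy.ne'] at h
  linarith

/-- the numerical inequality -/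
theorem num (N W : ℝ) (h0 : 5750000000000000 ≤ N) (h1 : N ≤ 10 ^ 18) (hW0 : 0 ≤ W)
    (hW : W ≤ 0.3154) :
    N ^ (-(1 / 4) : ℝ) * (48 * W * (23.4 * (0.13 * Real.log N + 0.6) - 29) +
      34.8 * N ^ (1 / 20 : ℝ)) + 0 + (N ^ (-(1 / 4) : ℝ) * (78.3 / (32 / 3) * 49.2) +
      391.92 / (32 / 3) * N ^ (1 / 6 : ℝ) * 0.00000142) ≤ 0.2845 := by
  have hN : 0 < N := by linarith
  set y : ℝ := N ^ (1 / 4 : ℝ) with hy
  have hy0 : 8707 ≤ y := by
    rw [hy]
    have e : (8707 : ℝ) = (8707 ^ (4 : ℝ)) ^ (1 / 4 : ℝ) := by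
      rw [← Real.rpow_mul (by norm_num)]
      norm_num
    rw [e]
    apply Real.rpow_le_rpow (by positivity) _ (by norm_num)
    have : (8707 : ℝ) ^ (4 : ℝ) = 8707 ^ 4 := by
      rw [← Real.rpow_natCast]
      norm_num
    rw [this]
    refine le_trans ?_ h0
    norm_num
  have hypos : 0 < y := by linarith
  have e1 : N ^ (-(1 / 4) : ℝ) = 1 / y := by
    rw [Real.rpow_neg hN.le]
    exact (one_div y).symm
  have hlogy : Real.log N = 4 * Real.log y := by
    rw [hy, Real.log_rpow hN]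
    ring
  have hl8707 : Real.log 8707 ≤ 9.0738 := by
    have h2 := log_le 8707 8192 (by norm_num) (by norm_num)
    have h3 : Real.log 8192 = 13 * Real.log 2 := by
      rw [show (8192 : ℝ) = 2 ^ 13 by norm_num, Real.log_pow]
      norm_num
    have h4 := Real.log_two_lt_d9
    rw [h3] at h2
    norm_num at h2 ⊢
    linarith
  have hly := log_le y 8707 hypos (by norm_num)
  have hF : (23.4 * (0.13 * Real.log N + 0.6) - 29) / y ≤ 0.010963 := by
    rw [div_le_iff₀ hypos, hlogy]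
    have h2 : y / 8707 * 12.168 ≤ 0.0013976 * y := by
      linarith
    nlinarith
  have hF0 : 0 ≤ 23.4 * (0.13 * Real.log N + 0.6) - 29 := by
    have h2 : Real.log 8192 ≤ Real.log y := Real.log_le_log (by norm_num) (by linarith)
    have h3 : Real.log 8192 = 13 * Real.log 2 := by
      rw [show (8192 : ℝ) = 2 ^ 13 by norm_num, Real.log_pow]
      norm_num
    have h4 := Real.log_two_gt_d9
    rw [hlogy]
    linarith
  have h5 : N ^ (-(1 / 4) : ℝ) * N ^ (1 / 20 : ℝ) ≤ 1 / 1413 := by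
    rw [← Real.rpow_add hN]
    have e : (-(1 / 4) + 1 / 20 : ℝ) = -(1 / 5) := by norm_num
    rw [e, Real.rpow_neg hN.le, ← one_div]
    apply one_div_le_one_div_of_le (by norm_num)
    have e : (1413 : ℝ) = (1413 ^ (5 : ℝ)) ^ (1 / 5 : ℝ) := by
      rw [← Real.rpow_mul (by norm_num)]
      norm_num
    rw [e]
    apply Real.rpow_le_rpow (by positivity) _ (by norm_num)
    have : (1413 : ℝ) ^ (5 : ℝ) = 1413 ^ 5 := by
      rw [← Real.rpow_natCast]
      norm_num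
    rw [this]
    refine le_trans ?_ h0
    norm_num
  have h6 : N ^ (1 / 6 : ℝ) ≤ 1000 := by
    have e : (1000 : ℝ) = ((10 : ℝ) ^ 18) ^ (1 / 6 : ℝ) := by
      rw [← Real.rpow_natCast, ← Real.rpow_mul (by norm_num)]
      norm_num
    rw [e]
    exact Real.rpow_le_rpow hN.le h1 (by norm_num)
  have h7 : 1 / y ≤ 1 / 8707 := one_div_le_one_div_of_le (by norm_num) hy0
  have h8 : W * ((23.4 * (0.13 * Real.log N + 0.6) - 29) / y) ≤ 0.3154 * 0.010963 :=
    mul_le_mul hW hF (div_nonneg hF0 hypos.le) (by norm_num)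
  have e2 : N ^ (-(1 / 4) : ℝ) * (48 * W * (23.4 * (0.13 * Real.log N + 0.6) - 29) +
      34.8 * N ^ (1 / 20 : ℝ)) = 48 * (W * ((23.4 * (0.13 * Real.log N + 0.6) - 29) / y)) +
      34.8 * (N ^ (-(1 / 4) : ℝ) * N ^ (1 / 20 : ℝ)) := by
    rw [mul_add, e1]
    ring
  rw [e2]
  rw [e1] at h5 ⊢
  norm_num at *
  nlinarith

theorem kkb (N : ℝ) (h1 : N ≤ 10 ^ 18) (h0 : 5750000000000000 ≤ N) :
    0 ≤ 409.92 / (32 / 3) * (0.8 + 0.143 * Real.log (√N / (1000 : ℕ))) *
      (1.0021 * 0.00013 + ((6 : ℕ) : ℝ) / ((1000 : ℕ) : ℝ) ^ 2) +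
      1.5 * ((6 : ℕ) : ℝ) / ((1000 : ℕ) : ℝ) ^ 2 ∧
    409.92 / (32 / 3) * (0.8 + 0.143 * Real.log (√N / (1000 : ℕ))) *
      (1.0021 * 0.00013 + ((6 : ℕ) : ℝ) / ((1000 : ℕ) : ℝ) ^ 2) +
      1.5 * ((6 : ℕ) : ℝ) / ((1000 : ℕ) : ℝ) ^ 2 ≤ 0.0146 := by
  have hs1 : √N ≤ 10 ^ 9 := by
    rw [Real.sqrt_le_iff]
    refine ⟨by norm_num, h1.trans (le_of_eq (by norm_num))⟩
  have hs0 : 1000 ≤ √N := by
    apply Real.le_sqrt_of_sq_le
    linarith
  have hl0 : 0 ≤ Real.log (√N / (1000 : ℕ)) := by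
    apply Real.log_nonneg
    push_cast
    rw [le_div_iff₀ (by norm_num)]
    linarith
  have hl1 : Real.log (√N / (1000 : ℕ)) ≤ 13.863 := by
    have h2 : Real.log (√N / (1000 : ℕ)) ≤ Real.log (2 ^ 20) := by
      apply Real.log_le_log
      · push_cast
        positivity
      · push_cast
        rw [div_le_iff₀ (by norm_num)]
        linarith
    rw [Real.log_pow] at h2
    have h4 := Real.log_two_lt_d9
    push_cast at h2
    linarith
  push_cast at hl0 hl1 ⊢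
  constructor
  · have : 0 ≤ 0.8 + 0.143 * Real.log (√N / 1000) := by linarith
    positivity
  · norm_num at hl1 ⊢
    linarith

end R3

open R3

theorem stR3 (hC : StCrit) (h1 : StN1) (h2 : StN2) (h3 : StN3) : StR3 := by
  intro n hA hn3 hn hnu
  have hn2 : n % 2 = 0 ∨ n % 2 = 1 := by omega
  have hnu0 : 5750000000000000 ≤ nu n := by
    unfold nu
    split_ifs <;> omega
  have hnu0' : (5750000000000000 : ℝ) ≤ (nu n : ℝ) := by exact_mod_cast hnu0
  have hnu1 : (nu n : ℝ) ≤ 10 ^ 18 := by exact_mod_cast hnu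
  have hc3 : c3 n = 32 / 3 := by
    unfold c3
    rw [if_pos hn3]
  have hW0 : 0 ≤ Wn n := by
    unfold Wn
    split_ifs <;> norm_num
  have hW1 : Wn n ≤ 0.3154 := by
    unfold Wn
    rw [if_pos hn3]
    split_ifs <;> norm_num
  have hlog : 11 ≤ Real.log (nu n) := by
    have h5 : Real.log (2 ^ 16) ≤ Real.log (nu n) := Real.log_le_log (by norm_num) (by linarith)
    rw [Real.log_pow] at h5
    have h4 := Real.log_two_gt_d9
    push_cast at h5
    linarith
  have hPr : ∀ a b p : ℕ, p ∈ Pr a b → p.Prime ∧ a ≤ p ∧ p ≤ b := by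
    intro a b p hp
    unfold Pr at hp
    rw [Finset.mem_filter, Finset.mem_Icc] at hp
    exact ⟨hp.2, hp.1.1, hp.1.2⟩
  have hk := kkb (nu n : ℝ) hnu1 hnu0'
  have hkk : kk n 1000 6 0.00013 = 409.92 / (32 / 3) *
      (0.8 + 0.143 * Real.log (√(nu n : ℝ) / (1000 : ℕ))) *
      (1.0021 * 0.00013 + ((6 : ℕ) : ℝ) / ((1000 : ℕ) : ℝ) ^ 2) +
      1.5 * ((6 : ℕ) : ℝ) / ((1000 : ℕ) : ℝ) ^ 2 := by
    unfold kk
    rw [hc3]
  rw [← hkk] at hk
  refine hC n 1000 70000 6 0.00013 49.2 0.00000142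
    (23.4 * (0.13 * Real.log (nu n) + 0.6) - 29) hA (by omega) (le_refl _) (by norm_num) ?_ ?_ ?_
    ?_ ?_ ?_ ?_ hk.1 (hk.2.trans (by norm_num)) ?_
  · apply Real.le_sqrt_of_sq_le
    push_cast
    linarith
  · apply Real.le_sqrt_of_sq_le
    push_cast
    linarith
  · refine lt_of_le_of_lt hnu (by norm_num)
  · intro S hS
    apply h1
    · linarith
    · exact hS
  · refine (h3 _ ?_).1 ?_
    · intro p hp
      exact (hPr _ _ _ hp).1
    · intro p hp
      have := (hPr _ _ _ hp).2.1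
      omega
  · refine (h2 _ ?_).1 ?_
    · intro p hp
      have := (hPr _ _ _ hp).2.1
      exact ⟨(hPr _ _ _ hp).1, by omega⟩
    · intro p hp
      exact (hPr _ _ _ hp).2.2
  · refine (h3 _ ?_).2.1 ?_
    · intro p hp
      exact (hPr _ _ _ hp).1
    · intro p hp
      have := (hPr _ _ _ hp).2.1
      omega
  · have h5 := num (nu n : ℝ) (Wn n) hnu0' hnu1 hW0 hW1
    have h6 : eT n (23.4 * (0.13 * Real.log (nu n) + 0.6) - 29) 49.2 0.00000142 ≤ 0.2845 := by
      unfold eT eL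
      rw [hc3, if_neg (by omega : ¬ n % 3 = 1)]
      exact h5
    have h7 := hk.2
    norm_num at *
    linarith

end Pool.Agent.TFS
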