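import Pool.Agent.Lib.TFS.StmtsR

/-!
R4: the numerical range `10^18 ≤ nu ≤ 10^20`.
-/

set_option autoImplicit false

open Finset MeasureTheory

namespace Pool.Agent.TFS

open Pool.Agent.Lib.MP_0e0027_nt

theorem R4.log10_le : Real.log 10 ≤ 2.3105 := by
  have h : 3 * Real.log 10 ≤ 10 * Real.log 2 := by
    rw [← Nat.cast_ofNat (n := 3), ← Real.log_rpow (by norm_num), ← Nat.cast_ofNat (n := 10),
      ← Real.log_rpow (by norm_num)]
    apply Real.log_le_log
    · positivity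
    · norm_num
  have h2 := Real.log_two_lt_d9
  linarith

theorem R4.log10_ge : 2.079 ≤ Real.log 10 := by
  have h : 3 * Real.log 2 ≤ Real.log 10 := by
    rw [← Nat.cast_ofNat (n := 3), ← Real.log_rpow (by norm_num)]
    apply Real.log_le_log
    · positivity
    · norm_num
  have h2 := Real.log_two_gt_d9
  linarith

theorem stR4 (hC : StCrit) (h1 : StN1) (h2 : StN2) (h3 : StN3) : StR4 := by
  intro n hA hlo hhi
  obtain ⟨x, hx⟩ : ∃ x : ℝ, x = (nu n : ℝ) := ⟨_, rfl⟩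
  have hxlo : (10 : ℝ) ^ 18 ≤ x := by rw [hx]; exact_mod_cast hlo
  have hxhi : x ≤ (10 : ℝ) ^ 20 := by rw [hx]; exact_mod_cast hhi
  have hx0 : 0 < x := lt_of_lt_of_le (by norm_num) hxlo
  -- logarithms
  have hLhi : Real.log x ≤ 46.22 := by
    have h4 : Real.log x ≤ Real.log ((10 : ℝ) ^ 20) := Real.log_le_log hx0 hxhi
    rw [Real.log_pow] at h4
    have := R4.log10_le
    push_cast at h4
    linarith
  have hLlo : 37 ≤ Real.log x := by
    have h4 : Real.log ((10 : ℝ) ^ 18) ≤ Real.log x := Real.log_le_log (by norm_num) hxlo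
    rw [Real.log_pow] at h4
    have := R4.log10_ge
    push_cast at h4
    linarith
  have hsq1 : (10 : ℝ) ^ 9 ≤ √x := by
    apply Real.le_sqrt_of_sq_le
    calc ((10 : ℝ) ^ 9) ^ 2 = 10 ^ 18 := by norm_num
      _ ≤ x := hxlo
  have hsq2 : √x ≤ (10 : ℝ) ^ 10 := by
    apply Real.sqrt_le_iff.2
    refine ⟨by norm_num, ?_⟩
    calc x ≤ (10 : ℝ) ^ 20 := hxhi
      _ = ((10 : ℝ) ^ 10) ^ 2 := by norm_num
  have hls0 : 0 ≤ Real.log (√x / 1000) := by
    apply Real.log_nonneg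
    rw [le_div_iff₀ (by norm_num)]
    linarith
  have hls1 : Real.log (√x / 1000) ≤ 16.1735 := by
    have h4 : Real.log (√x / 1000) ≤ Real.log ((10 : ℝ) ^ 7) := by
      apply Real.log_le_log
      · have : 0 < √x := Real.sqrt_pos.2 hx0
        positivity
      · rw [div_le_iff₀ (by norm_num)]
        calc √x ≤ (10 : ℝ) ^ 10 := hsq2
          _ = 10 ^ 7 * 1000 := by norm_num
    rw [Real.log_pow] at h4
    have := R4.log10_le
    push_cast at h4
    linarith
  -- powers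
  have ha0 : 0 ≤ x ^ (-(1 / 4) : ℝ) := Real.rpow_nonneg hx0.le _
  have ha1 : x ^ (-(1 / 4) : ℝ) ≤ 1 / 31622 := by
    have h5 : (31622 : ℝ) ≤ x ^ (1 / 4 : ℝ) := by
      have h6 : ((31622 : ℝ) ^ (4 : ℕ)) ^ (1 / 4 : ℝ) = 31622 := by
        rw [← Real.rpow_natCast, ← Real.rpow_mul (by norm_num)]
        norm_num
      rw [← h6]
      apply Real.rpow_le_rpow (by positivity) _ (by norm_num)
      refine le_trans ?_ hxlo
      norm_num
    rw [Real.rpow_neg hx0.le, one_div (31622 : ℝ)]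
    exact inv_anti₀ (by norm_num) h5
  have hb0 : 0 ≤ x ^ (1 / 20 : ℝ) := Real.rpow_nonneg hx0.le _
  have hb1 : x ^ (1 / 20 : ℝ) ≤ 10 := by
    have h6 : ((10 : ℝ) ^ (20 : ℕ)) ^ (1 / 20 : ℝ) = 10 := by
      rw [← Real.rpow_natCast, ← Real.rpow_mul (by norm_num)]
      norm_num
    rw [← h6]
    exact Real.rpow_le_rpow hx0.le hxhi (by norm_num)
  have hc0 : 0 ≤ x ^ (1 / 6 : ℝ) := Real.rpow_nonneg hx0.le _
  have hc1 : x ^ (1 / 6 : ℝ) ≤ 2155 := by
    have h6 : ((2155 : ℝ) ^ (6 : ℕ)) ^ (1 / 6 : ℝ) = 2155 := by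
      rw [← Real.rpow_natCast, ← Real.rpow_mul (by norm_num)]
      norm_num
    rw [← h6]
    refine Real.rpow_le_rpow hx0.le (hxhi.trans ?_) (by norm_num)
    norm_num
  -- the classes
  have hc3 : (16 : ℝ) / 3 ≤ c3 n := by
    unfold c3
    split_ifs <;> norm_num
  have hc3p : 0 < c3 n := lt_of_lt_of_le (by norm_num) hc3
  have hW0 : 0 ≤ Wn n := by
    unfold Wn
    split_ifs <;> norm_num
  have hW1 : Wn n ≤ 0.7883 := by
    unfold Wn
    split_ifs <;> norm_num
  have hinv : ∀ k : ℝ, 0 ≤ k → k / c3 n ≤ k * (3 / 16) := by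
    intro k hk
    rw [div_le_iff₀ hc3p]
    nlinarith
  have hinv0 : ∀ k : ℝ, 0 ≤ k → 0 ≤ k / c3 n := fun k hk => div_nonneg hk hc3p.le
  have hP : ∀ a b p : ℕ, p ∈ Pr a b → p.Prime ∧ a ≤ p ∧ p ≤ b := by
    intro a b p hp
    unfold Pr at hp
    rw [mem_filter, mem_Icc] at hp
    exact ⟨hp.2, hp.1.1, hp.1.2⟩
  have hkk0 : 0 ≤ kk n 1000 6 0.00013 := by
    unfold kk
    rw [← hx]
    have := hinv0 409.92 (by norm_num)
    push_cast
    positivity
  have hkk1 : kk n 1000 6 0.00013 ≤ 0.03262 := by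
    unfold kk
    rw [← hx]
    have e1 := hinv 409.92 (by norm_num)
    have e2 := hinv0 409.92 (by norm_num)
    push_cast
    have e3 : 409.92 / c3 n * (0.8 + 0.143 * Real.log (√x / 1000)) ≤
        409.92 * (3 / 16) * (0.8 + 0.143 * 16.1735) := by
      apply mul_le_mul e1 (by linarith) (by positivity) (by norm_num)
    have e4 : (0 : ℝ) ≤ 1.0021 * 0.00013 + 6 / 1000 ^ 2 := by norm_num
    have e5 := mul_le_mul_of_nonneg_right e3 e4
    refine (add_le_add_left e5 _).trans ?_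
    norm_num
  refine hC n 1000 1000000 6 0.00013 167 0.000000268
    (23.4 * (0.13 * Real.log (nu n) + 0.6) - 29) hA (le_trans (by norm_num) hlo) le_rfl
    (by norm_num) ?_ ?_ ?_ ?_ ?_ ?_ ?_ hkk0 (hkk1.trans (by norm_num)) ?_
  · rw [← hx]
    apply Real.le_sqrt_of_sq_le
    push_cast
    calc (30000 * (1000 : ℝ)) ^ 2 ≤ 10 ^ 18 / 2 := by norm_num
      _ ≤ x / 2 := by linarith
  · rw [← hx]
    push_cast
    calc (1000 : ℝ) * 1000000 = 10 ^ 9 := by norm_num
      _ ≤ √x := hsq1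
  · exact lt_of_le_of_lt hhi (by norm_num)
  · intro S hS
    exact h1 _ (by rw [← hx]; linarith) S hS
  · refine (h3 _ ?_).1 ?_
    · intro p hp; exact (hP _ _ p hp).1
    · intro p hp; exact (hP _ _ p hp).2.1
  · refine (h2 _ ?_).2.2 ?_
    · intro p hp; exact ⟨(hP _ _ p hp).1, (hP _ _ p hp).2.1⟩
    · intro p hp; exact (hP _ _ p hp).2.2
  · refine (h3 _ ?_).2.2.2 ?_
    · intro p hp; exact (hP _ _ p hp).1
    · intro p hp; exact (hP _ _ p hp).2.1
  · unfold eT eL
    rw [← hx]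
    have hF0 : 0 ≤ 23.4 * (0.13 * Real.log x + 0.6) - 29 := by linarith
    have hF1 : 23.4 * (0.13 * Real.log x + 0.6) - 29 ≤ 125.65 := by linarith
    have t1 : x ^ (-(1 / 4) : ℝ) * (48 * Wn n * (23.4 * (0.13 * Real.log x + 0.6) - 29) +
        34.8 * x ^ (1 / 20 : ℝ)) ≤ 1 / 31622 * (48 * 0.7883 * 125.65 + 34.8 * 10) := by
      apply mul_le_mul ha1 _ (by positivity) (by norm_num)
      apply add_le_add
      · exact mul_le_mul (by linarith) hF1 hF0 (by norm_num)
      · linarith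
    have t2 : (if n % 3 = 1 then x ^ (-(1 / 4) : ℝ) *
        (14.2 * x ^ (1 / 20 : ℝ) + 3.2 * Real.log x + 1.5) else 0) ≤
        1 / 31622 * (14.2 * 10 + 3.2 * 46.22 + 1.5) := by
      split_ifs
      · apply mul_le_mul ha1 (by linarith) (by linarith [hb0]) (by norm_num)
      · norm_num
    have t3 : x ^ (-(1 / 4) : ℝ) * (78.3 / c3 n * 167) ≤ 1 / 31622 * (78.3 * (3 / 16) * 167) := by
      apply mul_le_mul ha1 _ _ (by norm_num)
      · have := hinv 78.3 (by norm_num)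
        linarith
      · have := hinv0 78.3 (by norm_num)
        positivity
    have t4 : 391.92 / c3 n * x ^ (1 / 6 : ℝ) * 0.000000268 ≤
        391.92 * (3 / 16) * 2155 * 0.000000268 := by
      apply mul_le_mul_of_nonneg_right _ (by norm_num)
      exact mul_le_mul (hinv _ (by norm_num)) hc1 hc0 (by norm_num)
    have e : (1 : ℝ) / 31622 * (48 * 0.7883 * 125.65 + 34.8 * 10) +
        1 / 31622 * (14.2 * 10 + 3.2 * 46.22 + 1.5) +
        (1 / 31622 * (78.3 * (3 / 16) * 167) + 391.92 * (3 / 16) * 2155 * 0.000000268) +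
        1.46 * 0.03262 < 0.3664 := by norm_num
    linarith

end Pool.Agent.TFS
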