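import Pool.Agent.Lib.TFS.StmtsR

/-!
R5: all `n` with `nu n ≥ 10^20`.
-/

set_option autoImplicit false

open Finset MeasureTheory

namespace Pool.Agent.TFS

open Pool.Agent.Lib.MP_0e0027_nt

namespace R5Aux

lemma cp_le {p : ℕ} (hp : 1000 < p) : Cp p ≤ 2.0001 := by
  unfold Cp
  rw [if_neg (by omega)]
  have hpR : (1000 : ℝ) ≤ p := by exact_mod_cast hp.le
  have h1 : (31 : ℝ) ≤ √(p : ℝ) := by
    rw [show (31 : ℝ) = √(31 ^ 2) by rw [Real.sqrt_sq (by norm_num)]]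
    apply Real.sqrt_le_sqrt
    norm_num
    linarith
  have h2 : (31000 : ℝ) ≤ p * √(p : ℝ) := by nlinarith
  have h3 : 1 / ((p : ℝ) * √(p : ℝ)) ≤ 1 / 31000 := one_div_le_one_div_of_le (by norm_num) h2
  norm_num at h3 ⊢
  linarith

lemma cp_nonneg (p : ℕ) : 0 ≤ Cp p := by
  unfold Cp
  split_ifs
  · norm_num
  · positivity

lemma log_ten : Real.log 10 ≤ 2.3105 := by
  have h1 : Real.log ((10 : ℝ) ^ 3) ≤ Real.log ((2 : ℝ) ^ 10) :=
    Real.log_le_log (by norm_num) (by norm_num)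
  rw [Real.log_pow, Real.log_pow] at h1
  have h2 := Real.log_two_lt_d9
  push_cast at h1
  linarith

lemma c3_ge (n : ℕ) : 16 / 3 ≤ c3 n := by
  unfold c3
  split_ifs <;> norm_num

lemma Wn_le (n : ℕ) : 0 ≤ Wn n ∧ Wn n ≤ 0.7883 := by
  unfold Wn
  split_ifs <;> norm_num

/-- basic facts about `w = nu ^ (1/80)` -/
structure Wd (ν w L : ℝ) : Prop where
  pos : 0 < w
  pw : ν = w ^ 80
  ten : 10 ≤ w ^ 4
  hL : L = Real.log w

lemma exists_w {ν : ℝ} (h : (10 : ℝ) ^ 20 ≤ ν) : ∃ w L : ℝ, Wd ν w L := by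
  have h0 : 0 ≤ ν := by positivity
  have hν : 0 < ν := by
    have : (0 : ℝ) < 10 ^ 20 := by norm_num
    linarith
  refine ⟨ν ^ (((80 : ℕ) : ℝ)⁻¹), _, Real.rpow_pos_of_pos hν _, ?_, ?_, rfl⟩
  · rw [Real.rpow_inv_natCast_pow h0 (by norm_num)]
  · by_contra hc
    push Not at hc
    have h1 : (ν ^ (((80 : ℕ) : ℝ)⁻¹)) ^ 80 = ν := Real.rpow_inv_natCast_pow h0 (by norm_num)
    have h2 : ((ν ^ (((80 : ℕ) : ℝ)⁻¹)) ^ 4) ^ 20 < 10 ^ 20 :=
      pow_lt_pow_left₀ hc (by positivity) (by norm_num)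
    rw [← pow_mul] at h2
    norm_num only at h2 h1
    rw [h1] at h2
    norm_num only at h
    linarith

variable {ν w L : ℝ}

lemma Wd.one (h : Wd ν w L) : 1 ≤ w := by
  by_contra hc
  push Not at hc
  have := pow_lt_one₀ h.pos.le hc (n := 4) (by norm_num)
  linarith [h.ten]

lemma Wd.w2 (h : Wd ν w L) : 3.1622 ≤ w ^ 2 := by
  by_contra hc
  push Not at hc
  have h1 : 0 < w ^ 2 := pow_pos h.pos 2
  have h2 := h.ten
  have h3 : w ^ 4 = w ^ 2 * w ^ 2 := by ring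
  rw [h3] at h2
  nlinarith

lemma Wd.w14 (h : Wd ν w L) : 3162.2 ≤ w ^ 14 := by
  have h1 : (10 : ℝ) ^ 3 ≤ (w ^ 4) ^ 3 := pow_le_pow_left₀ (by norm_num) h.ten 3
  have h2 := h.w2
  calc (3162.2 : ℝ) = 10 ^ 3 * 3.1622 := by norm_num
    _ ≤ (w ^ 4) ^ 3 * w ^ 2 := mul_le_mul h1 h2 (by norm_num) (by positivity)
    _ = w ^ 14 := by ring

lemma Wd.w24 (h : Wd ν w L) : 1000000 ≤ w ^ 24 := by
  have h1 : (10 : ℝ) ^ 6 ≤ (w ^ 4) ^ 6 := pow_le_pow_left₀ (by norm_num) h.ten 6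
  calc (1000000 : ℝ) = 10 ^ 6 := by norm_num
    _ ≤ (w ^ 4) ^ 6 := h1
    _ = w ^ 24 := by ring

lemma Wd.w12 (h : Wd ν w L) : w ^ 12 ≤ w ^ 14 - 1 := by
  have h1 := h.w2
  have h2 : (1 : ℝ) ≤ w ^ 12 := one_le_pow₀ h.one
  have h3 : w ^ 14 = w ^ 12 * w ^ 2 := by ring
  nlinarith

lemma Wd.Lle (h : Wd ν w L) : L ≤ w ^ 4 / 40 + 0.3277 := by
  have h1 : Real.log (w ^ 4 / 10) ≤ w ^ 4 / 10 - 1 :=
    Real.log_le_sub_one_of_pos (by have := h.ten; positivity)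
  have hw := h.pos
  rw [Real.log_div (by positivity) (by norm_num), Real.log_pow, ← h.hL] at h1
  have := log_ten
  push_cast at h1
  linarith

lemma Wd.Lge (h : Wd ν w L) : 0.5 ≤ L := by
  have h1 : Real.log ((2 : ℝ) ^ 3) ≤ Real.log (w ^ 4) :=
    Real.log_le_log (by norm_num) (by have := h.ten; norm_num; linarith)
  rw [Real.log_pow, Real.log_pow, ← h.hL] at h1
  have := Real.log_two_gt_d9
  push_cast at h1
  linarith

lemma Wd.sq (h : Wd ν w L) : √ν = w ^ 40 := by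
  rw [h.pw, show w ^ 80 = (w ^ 40) ^ 2 by ring, Real.sqrt_sq (pow_nonneg h.pos.le _)]

lemma Wd.log (h : Wd ν w L) : Real.log ν = 80 * L := by
  rw [h.pw, Real.log_pow, ← h.hL]
  push_cast
  ring

lemma Wd.rq (h : Wd ν w L) : ν ^ (-(1 / 4) : ℝ) = (w⁻¹) ^ 20 := by
  rw [h.pw, ← Real.rpow_natCast w 80, ← Real.rpow_mul h.pos.le, inv_pow,
    ← Real.rpow_natCast w 20, ← Real.rpow_neg h.pos.le]
  norm_num

lemma Wd.r20 (h : Wd ν w L) : ν ^ (1 / 20 : ℝ) = w ^ 4 := by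
  rw [h.pw, ← Real.rpow_natCast w 80, ← Real.rpow_mul h.pos.le, ← Real.rpow_natCast w 4]
  norm_num

lemma Wd.r6 (h : Wd ν w L) : ν ^ (1 / 6 : ℝ) ≤ w ^ 14 := by
  rw [h.pw, ← Real.rpow_natCast w 80, ← Real.rpow_mul h.pos.le, ← Real.rpow_natCast w 14]
  apply Real.rpow_le_rpow_of_exponent_le h.one
  norm_num

/-! ### `P₁ = ⌊w^14⌋`, `P₂ = ⌊w^24⌋` -/

lemma floor_bounds {x : ℝ} (hx : 0 ≤ x) : ((⌊x⌋₊ : ℕ) : ℝ) ≤ x ∧ x - 1 < ((⌊x⌋₊ : ℕ) : ℝ) :=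
  ⟨Nat.floor_le hx, by linarith [Nat.lt_floor_add_one x]⟩

/-- bound for the small primes -/
lemma fb (h1 : StN1) (h4 : StN4) (h : Wd ν w L) {P : ℕ} (hP : P = ⌊w ^ 14⌋₊) :
    FB P (0.13 * Real.log ν + 0.6) (w ^ 7 * (7.212 * L + 1.195)) := by
  have hw := h.pos
  obtain ⟨b1, b2⟩ := floor_bounds (x := w ^ 14) (by positivity)
  rw [← hP] at b1 b2
  have w14 := h.w14
  have hPR : (3161 : ℝ) ≤ P := by linarith
  have hP0 : (0 : ℝ) < P := by linarith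
  have hLge := h.Lge
  rw [h.log]
  set t : ℝ := 0.13 * (80 * L) + 0.6 with ht
  have hlogP : Real.log P ≤ 14 * L := by
    have : Real.log P ≤ Real.log (w ^ 14) := Real.log_le_log hP0 b1
    rw [Real.log_pow, ← h.hL] at this
    push_cast at this
    exact this
  have hlogP' : 14 * L - 0.00032 ≤ Real.log P := by
    have h3 : Real.log (w ^ 14 / P) ≤ w ^ 14 / P - 1 :=
      Real.log_le_sub_one_of_pos (by positivity)
    rw [Real.log_div (by positivity) hP0.ne', Real.log_pow, ← h.hL] at h3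
    push_cast at h3
    have h4 : w ^ 14 / P - 1 ≤ 0.00032 := by
      rw [sub_le_iff_le_add, div_le_iff₀ hP0]
      linarith
    linarith
  intro S hS
  rw [← Finset.sum_filter_add_sum_filter_not S (fun p ↦ p ≤ 1000)]
  have s1 := h1 t (by rw [ht]; linarith) (S.filter (fun p ↦ p ≤ 1000)) (by
    intro p hp
    rw [mem_filter] at hp
    exact ⟨(hS p hp.1).1, (hS p hp.1).2.1, hp.2⟩)
  have s2 : ∑ p ∈ S.filter (fun p ↦ ¬ p ≤ 1000), Cp p / √(p : ℝ) * (t - 0.26 * Real.log p) ≤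
      2.0001 * ∑ p ∈ S.filter (fun p ↦ ¬ p ≤ 1000), 1 / √(p : ℝ) * (t - 0.26 * Real.log p) := by
    rw [Finset.mul_sum]
    refine Finset.sum_le_sum fun p hp ↦ ?_
    rw [mem_filter] at hp
    have hp1 : 1000 < p := by omega
    have hp2 := (hS p hp.1).2.2
    have hpp : (0 : ℝ) < p := by
      have : 0 < p := by omega
      exact_mod_cast this
    have hlp : Real.log p ≤ Real.log P := Real.log_le_log hpp (by exact_mod_cast hp2)
    have hn : 0 ≤ t - 0.26 * Real.log p := by rw [ht]; linarith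
    have hs : 0 ≤ 1 / √(p : ℝ) := by positivity
    rw [div_eq_mul_one_div (Cp p), mul_assoc]
    exact mul_le_mul_of_nonneg_right (cp_le hp1) (mul_nonneg hs hn)
  have s3 := ((h4 1000 P (by norm_num) (by linarith) (S.filter (fun p ↦ ¬ p ≤ 1000)) (by
    intro p hp
    rw [mem_filter] at hp
    refine ⟨(hS p hp.1).1, ?_⟩
    have : 1000 < p := by omega
    exact_mod_cast this)).2 (by
    intro p hp
    rw [mem_filter] at hp
    exact_mod_cast (hS p hp.1).2.2)).2 t (by rw [ht]; linarith)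
  have hsP : √(P : ℝ) ≤ w ^ 7 := by
    rw [show w ^ 7 = √((w ^ 7) ^ 2) by rw [Real.sqrt_sq (by positivity)]]
    apply Real.sqrt_le_sqrt
    rw [← pow_mul]
    exact b1
  have hl3 : Real.log 1000 ≤ 6.9315 := by
    rw [show (1000 : ℝ) = 10 ^ 3 by norm_num, Real.log_pow]
    have := log_ten
    push_cast
    linarith
  set τ : ℝ := t - 0.26 * Real.log 1000 with hτ
  have hτ0 : 0 ≤ τ := by rw [hτ, ht]; linarith
  have hs31 : (31 : ℝ) ≤ √(1000 : ℝ) := by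
    rw [show (31 : ℝ) = √(31 ^ 2) by rw [Real.sqrt_sq (by norm_num)]]
    apply Real.sqrt_le_sqrt
    norm_num
  have k1 : √(P : ℝ) * (t - 0.26 * Real.log P + 0.52) ≤ w ^ 7 * (6.76 * L + 1.1201) := by
    apply mul_le_mul hsP
    · rw [ht]; linarith
    · rw [ht]; linarith
    · positivity
  have k2 : 31 * (τ + 0.52) ≤ √(1000 : ℝ) * (τ + 0.52) :=
    mul_le_mul_of_nonneg_right hs31 (by linarith)
  have k3 : 2 / √(1000 : ℝ) * τ ≤ 2 / 31 * τ :=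
    mul_le_mul_of_nonneg_right (div_le_div_of_nonneg_left (by norm_num) (by norm_num) hs31) hτ0
  have k4 : t ≤ τ + 1.8022 := by rw [hτ]; linarith
  have hw7 : (1 : ℝ) ≤ w ^ 7 := one_le_pow₀ h.one
  have k5 : 2.0001 * (8 / 15) * (w ^ 7 * (6.76 * L + 1.1201)) ≤ w ^ 7 * (7.212 * L + 1.195) := by
    have : 0 ≤ w ^ 7 * ((7.212 * L + 1.195) - 2.0001 * (8 / 15) * (6.76 * L + 1.1201)) := by
      apply mul_nonneg (by positivity)
      linarith
    linarith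
  linarith

/-- the error terms -/
lemma numeric {v W c : ℝ} (hv : 0 < v) (hvw : v * w = 1) (h4 : v ^ 4 ≤ 1 / 10) (hL0 : 0 ≤ L)
    (hL : L ≤ w ^ 4 / 40 + 0.3277) (hW0 : 0 ≤ W) (hW : W ≤ 0.7883) (hc : 16 / 3 ≤ c) :
    v ^ 20 * (48 * W * (w ^ 7 * (7.212 * L + 1.195)) + 34.8 * w ^ 4) +
      v ^ 20 * (14.2 * w ^ 4 + 3.2 * (80 * L) + 1.5) +
      (v ^ 20 * (78.3 / c * (8 / 15 * w ^ 12)) + 391.92 / c * w ^ 14 * (0.2668 * v ^ 24)) +
      1.46 * (409.92 / c * (0.8 + 0.143 * (26 * L + 0.00032)) *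
        (1.0021 * (0.2674 * v ^ 14) + 0.0019 * v ^ 14) + 1.5 * (0.0019 * v ^ 14)) < 0.3664 ∧
    409.92 / c * (0.8 + 0.143 * (26 * L + 0.00032)) *
        (1.0021 * (0.2674 * v ^ 14) + 0.0019 * v ^ 14) + 1.5 * (0.0019 * v ^ 14) ≤ 0.04 := by
  have e1 : v ^ 20 * w ^ 7 = v ^ 13 := by
    calc v ^ 20 * w ^ 7 = v ^ 13 * (v * w) ^ 7 := by ring
      _ = v ^ 13 := by rw [hvw, one_pow, mul_one]
  have e2 : v ^ 20 * w ^ 4 = v ^ 16 := by
    calc v ^ 20 * w ^ 4 = v ^ 16 * (v * w) ^ 4 := by ring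
      _ = v ^ 16 := by rw [hvw, one_pow, mul_one]
  have e3 : v ^ 20 * w ^ 12 = v ^ 8 := by
    calc v ^ 20 * w ^ 12 = v ^ 8 * (v * w) ^ 12 := by ring
      _ = v ^ 8 := by rw [hvw, one_pow, mul_one]
  have e4 : w ^ 14 * v ^ 24 = v ^ 10 := by
    calc w ^ 14 * v ^ 24 = v ^ 10 * (v * w) ^ 14 := by ring
      _ = v ^ 10 := by rw [hvw, one_pow, mul_one]
  have l13 : v ^ 13 * L ≤ v ^ 9 / 40 + 0.3277 * v ^ 13 := by
    calc v ^ 13 * L ≤ v ^ 13 * (w ^ 4 / 40 + 0.3277) := by gcongr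
      _ = v ^ 9 * (v * w) ^ 4 / 40 + 0.3277 * v ^ 13 := by ring
      _ = _ := by rw [hvw, one_pow, mul_one]
  have l20 : v ^ 20 * L ≤ v ^ 16 / 40 + 0.3277 * v ^ 20 := by
    calc v ^ 20 * L ≤ v ^ 20 * (w ^ 4 / 40 + 0.3277) := by gcongr
      _ = v ^ 16 * (v * w) ^ 4 / 40 + 0.3277 * v ^ 20 := by ring
      _ = _ := by rw [hvw, one_pow, mul_one]
  have l14 : v ^ 14 * L ≤ v ^ 10 / 40 + 0.3277 * v ^ 14 := by
    calc v ^ 14 * L ≤ v ^ 14 * (w ^ 4 / 40 + 0.3277) := by gcongr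
      _ = v ^ 10 * (v * w) ^ 4 / 40 + 0.3277 * v ^ 14 := by ring
      _ = _ := by rw [hvw, one_pow, mul_one]
  -- sizes
  have v1 : v ≤ 0.5624 := by
    by_contra hc'
    push Not at hc'
    have : (0.5624 : ℝ) ^ 4 < v ^ 4 := pow_lt_pow_left₀ hc' (by norm_num) (by norm_num)
    norm_num at this h4
    linarith
  have v2 : v ^ 2 ≤ 0.3163 := by
    have : v ^ 2 ≤ (0.5624 : ℝ) ^ 2 := pow_le_pow_left₀ hv.le v1 2
    norm_num at this ⊢
    linarith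
  have p8 : v ^ 8 ≤ 0.01 := by
    have : (v ^ 4) ^ 2 ≤ (1 / 10 : ℝ) ^ 2 := pow_le_pow_left₀ (by positivity) h4 2
    rw [← pow_mul] at this
    norm_num at this ⊢
    linarith
  have p12 : v ^ 12 ≤ 0.001 := by
    have : (v ^ 4) ^ 3 ≤ (1 / 10 : ℝ) ^ 3 := pow_le_pow_left₀ (by positivity) h4 3
    rw [← pow_mul] at this
    norm_num at this ⊢
    linarith
  have p16 : v ^ 16 ≤ 0.0001 := by
    have : (v ^ 4) ^ 4 ≤ (1 / 10 : ℝ) ^ 4 := pow_le_pow_left₀ (by positivity) h4 4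
    rw [← pow_mul] at this
    norm_num at this ⊢
    linarith
  have p20 : v ^ 20 ≤ 0.00001 := by
    have : (v ^ 4) ^ 5 ≤ (1 / 10 : ℝ) ^ 5 := pow_le_pow_left₀ (by positivity) h4 5
    rw [← pow_mul] at this
    norm_num at this ⊢
    linarith
  have p9 : v ^ 9 ≤ 0.005624 := by
    calc v ^ 9 = v ^ 8 * v := by ring
      _ ≤ 0.01 * 0.5624 := mul_le_mul p8 v1 hv.le (by norm_num)
      _ = 0.005624 := by norm_num
  have p13 : v ^ 13 ≤ 0.0005624 := by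
    calc v ^ 13 = v ^ 12 * v := by ring
      _ ≤ 0.001 * 0.5624 := mul_le_mul p12 v1 hv.le (by norm_num)
      _ = 0.0005624 := by norm_num
  have p10 : v ^ 10 ≤ 0.003163 := by
    calc v ^ 10 = v ^ 8 * v ^ 2 := by ring
      _ ≤ 0.01 * 0.3163 := mul_le_mul p8 v2 (by positivity) (by norm_num)
      _ = 0.003163 := by norm_num
  have p14 : v ^ 14 ≤ 0.0003163 := by
    calc v ^ 14 = v ^ 12 * v ^ 2 := by ring
      _ ≤ 0.001 * 0.3163 := mul_le_mul p12 v2 (by positivity) (by norm_num)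
      _ = 0.0003163 := by norm_num
  have c0 : 0 < c := by linarith
  have c1 : 78.3 / c ≤ 14.6813 := by
    rw [div_le_iff₀ c0]; linarith
  have c2 : 391.92 / c ≤ 73.485 := by
    rw [div_le_iff₀ c0]; linarith
  have c4 : 409.92 / c ≤ 76.86 := by
    rw [div_le_iff₀ c0]; linarith
  -- the terms
  have t1 : v ^ 20 * (48 * W * (w ^ 7 * (7.212 * L + 1.195)) + 34.8 * w ^ 4) ≤ 0.1180 := by
    have : v ^ 20 * (48 * W * (w ^ 7 * (7.212 * L + 1.195)) + 34.8 * w ^ 4) =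
        48 * W * (7.212 * (v ^ 13 * L) + 1.195 * v ^ 13) + 34.8 * v ^ 16 := by
      rw [← e1, ← e2]; ring
    rw [this]
    have h1 : 48 * W * (7.212 * (v ^ 13 * L) + 1.195 * v ^ 13) ≤
        48 * 0.7883 * (7.212 * (v ^ 13 * L) + 1.195 * v ^ 13) := by gcongr
    linarith
  have t2 : v ^ 20 * (14.2 * w ^ 4 + 3.2 * (80 * L) + 1.5) ≤ 0.00295 := by
    have : v ^ 20 * (14.2 * w ^ 4 + 3.2 * (80 * L) + 1.5) =
        14.2 * v ^ 16 + 256 * (v ^ 20 * L) + 1.5 * v ^ 20 := by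
      rw [← e2]; ring
    rw [this]
    linarith
  have t3 : v ^ 20 * (78.3 / c * (8 / 15 * w ^ 12)) ≤ 0.0784 := by
    have : v ^ 20 * (78.3 / c * (8 / 15 * w ^ 12)) = 78.3 / c * (8 / 15 * v ^ 8) := by
      rw [← e3]; ring
    rw [this]
    have h1 : 78.3 / c * (8 / 15 * v ^ 8) ≤ 14.6813 * (8 / 15 * v ^ 8) := by gcongr
    linarith
  have t4 : 391.92 / c * w ^ 14 * (0.2668 * v ^ 24) ≤ 0.0621 := by
    have : 391.92 / c * w ^ 14 * (0.2668 * v ^ 24) = 391.92 / c * (0.2668 * v ^ 10) := by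
      rw [← e4]; ring
    rw [this]
    have h1 : 391.92 / c * (0.2668 * v ^ 10) ≤ 73.485 * (0.2668 * v ^ 10) := by gcongr
    linarith
  have t5 : 409.92 / c * (0.8 + 0.143 * (26 * L + 0.00032)) *
        (1.0021 * (0.2674 * v ^ 14) + 0.0019 * v ^ 14) + 1.5 * (0.0019 * v ^ 14) ≤ 0.0195 := by
    have h1 : 409.92 / c * (0.8 + 0.143 * (26 * L + 0.00032)) *
        (1.0021 * (0.2674 * v ^ 14) + 0.0019 * v ^ 14) ≤
        76.86 * (0.8 + 0.143 * (26 * L + 0.00032)) *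
        (1.0021 * (0.2674 * v ^ 14) + 0.0019 * v ^ 14) := by gcongr
    have h2 : 76.86 * (0.8 + 0.143 * (26 * L + 0.00032)) *
        (1.0021 * (0.2674 * v ^ 14) + 0.0019 * v ^ 14) =
        76.86 * 0.26986154 * ((0.8 + 0.143 * 0.00032) * v ^ 14 + 0.143 * 26 * (v ^ 14 * L)) := by
      ring
    rw [h2] at h1
    linarith
  constructor
  · linarith
  · linarith

end R5Aux

open R5Aux

theorem stR5 (hC : StCrit) (h1 : StN1) (h4 : StN4) : StR5 := by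
  intro n hA hn
  have hνR : (10 : ℝ) ^ 20 ≤ (nu n : ℝ) := by exact_mod_cast hn
  obtain ⟨w, L, h⟩ := exists_w hνR
  have hw := h.pos
  set v : ℝ := w⁻¹ with hv
  have hv0 : 0 < v := by positivity
  have hvw : v * w = 1 := by rw [hv, inv_mul_cancel₀ hw.ne']
  have hv4 : v ^ 4 ≤ 1 / 10 := by
    rw [hv, inv_pow, ← one_div]
    exact one_div_le_one_div_of_le (by norm_num) h.ten
  have w14 := h.w14
  have w24 := h.w24
  obtain ⟨P₁, hP₁⟩ : ∃ P : ℕ, P = ⌊w ^ 14⌋₊ := ⟨_, rfl⟩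
  obtain ⟨P₂, hP₂⟩ : ∃ P : ℕ, P = ⌊w ^ 24⌋₊ := ⟨_, rfl⟩
  obtain ⟨a1, a2⟩ := floor_bounds (x := w ^ 14) (by positivity)
  obtain ⟨b1, b2⟩ := floor_bounds (x := w ^ 24) (by positivity)
  rw [← hP₁] at a1 a2
  rw [← hP₂] at b1 b2
  have hP1R : (3161.2 : ℝ) ≤ P₁ := by linarith
  have hP1N : 3162 ≤ P₁ := by
    have : (3161 : ℝ) < P₁ := by linarith
    have : 3161 < P₁ := by exact_mod_cast this
    omega
  have hP1R' : (3162 : ℝ) ≤ P₁ := by exact_mod_cast hP1N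
  have hP2R : (999999 : ℝ) ≤ P₂ := by linarith
  have hP10 : (0 : ℝ) < P₁ := by linarith
  have hP20 : (0 : ℝ) < P₂ := by linarith
  have hw14v : w ^ 14 * v ^ 14 = 1 := by rw [← mul_pow, mul_comm w v, hvw, one_pow]
  have hw24v : w ^ 24 * v ^ 24 = 1 := by rw [← mul_pow, mul_comm w v, hvw, one_pow]
  have v14 : 0 < v ^ 14 := by positivity
  have v24 : 0 < v ^ 24 := by positivity
  -- inverse powers
  have i1 : 1 / (P₁ : ℝ) ≤ 1.000317 * v ^ 14 := by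
    rw [div_le_iff₀ hP10]
    have : v ^ 14 * P₁ ≥ v ^ 14 * (w ^ 14 - 1) := by
      apply mul_le_mul_of_nonneg_left _ v14.le
      linarith
    have h5 : v ^ 14 * (w ^ 14 - 1) = 1 - v ^ 14 := by
      rw [mul_sub, mul_comm, hw14v, mul_one]
    have h6 : v ^ 14 ≤ 1 / 3162.2 := by
      rw [le_div_iff₀ (by norm_num)]
      calc v ^ 14 * 3162.2 ≤ v ^ 14 * w ^ 14 := by gcongr
        _ = 1 := by rw [mul_comm, hw14v]
    norm_num at h6
    nlinarith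
  have i2 : 1 / (P₂ : ℝ) ≤ 1.000002 * v ^ 24 := by
    rw [div_le_iff₀ hP20]
    have : v ^ 24 * P₂ ≥ v ^ 24 * (w ^ 24 - 1) := by
      apply mul_le_mul_of_nonneg_left _ v24.le
      linarith
    have h5 : v ^ 24 * (w ^ 24 - 1) = 1 - v ^ 24 := by
      rw [mul_sub, mul_comm, hw24v, mul_one]
    have h6 : v ^ 24 ≤ 1 / 1000000 := by
      rw [le_div_iff₀ (by norm_num)]
      calc v ^ 24 * 1000000 ≤ v ^ 24 * w ^ 24 := by gcongr
        _ = 1 := by rw [mul_comm, hw24v]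
    norm_num at h6
    nlinarith
  have j1 : 1 / (P₁ : ℝ) ^ 2 ≤ 0.00031636 * v ^ 14 := by
    have h5 : 1 / (P₁ : ℝ) ≤ 1 / 3162 := one_div_le_one_div_of_le (by norm_num) hP1R'
    have h6 : 1 / (P₁ : ℝ) ^ 2 = 1 / (P₁ : ℝ) * (1 / (P₁ : ℝ)) := by
      rw [one_div_mul_one_div, sq]
    rw [h6]
    calc 1 / (P₁ : ℝ) * (1 / (P₁ : ℝ)) ≤ 1 / 3162 * (1.000317 * v ^ 14) :=
          mul_le_mul h5 i1 (by positivity) (by norm_num)
      _ ≤ 0.00031636 * v ^ 14 := by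
          rw [← mul_assoc]
          apply mul_le_mul_of_nonneg_right _ v14.le
          norm_num
  have j2 : 1 / (P₂ : ℝ) ^ 2 ≤ 0.000002 * v ^ 24 := by
    have h5 : 1 / (P₂ : ℝ) ≤ 1 / 999999 := one_div_le_one_div_of_le (by norm_num) hP2R
    have h6 : 1 / (P₂ : ℝ) ^ 2 = 1 / (P₂ : ℝ) * (1 / (P₂ : ℝ)) := by
      rw [one_div_mul_one_div, sq]
    rw [h6]
    calc 1 / (P₂ : ℝ) * (1 / (P₂ : ℝ)) ≤ 1 / 999999 * (1.000002 * v ^ 24) :=
          mul_le_mul h5 i2 (by positivity) (by norm_num)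
      _ ≤ 0.000002 * v ^ 24 := by
          rw [← mul_assoc]
          apply mul_le_mul_of_nonneg_right _ v24.le
          norm_num
  have hP12 : (P₁ : ℝ) ≤ P₂ := by
    have h5 : w ^ 14 * 3.1622 ≤ w ^ 24 := by
      have h6 : (3.1622 : ℝ) ≤ w ^ 10 := by
        have := h.w2
        have h7 : (1 : ℝ) ≤ w ^ 8 := one_le_pow₀ h.one
        have h8 : w ^ 10 = w ^ 8 * w ^ 2 := by ring
        nlinarith
      calc w ^ 14 * 3.1622 ≤ w ^ 14 * w ^ 10 := by gcongr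
        _ = w ^ 24 := by ring
    linarith
  have hP12N : P₁ ≤ P₂ := by exact_mod_cast hP12
  -- the sums over primes
  have hS1 := h4 P₁ P₂ (by linarith) hP12 (Pr (P₁ + 1) P₂) (by
    intro p hp
    unfold Pr at hp
    rw [mem_filter, mem_Icc] at hp
    refine ⟨hp.2, ?_⟩
    have : P₁ < p := by omega
    exact_mod_cast this)
  have hS2 := h4 P₂ P₂ (by linarith) le_rfl (Pr (P₂ + 1) (Nat.sqrt n)) (by
    intro p hp
    unfold Pr at hp
    rw [mem_filter, mem_Icc] at hp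
    refine ⟨hp.2, ?_⟩
    have : P₂ < p := by omega
    exact_mod_cast this)
  have sA : ∑ p ∈ Pr (P₁ + 1) P₂, 1 / (p : ℝ) ^ 2 ≤ 0.2674 * v ^ 14 := by
    refine hS1.1.trans ?_
    have e1 : (4 / 15 : ℝ) / P₁ = (4 / 15) * (1 / P₁) := by ring
    have e2 : (2 : ℝ) / (P₁ : ℝ) ^ 2 = 2 * (1 / (P₁ : ℝ) ^ 2) := by ring
    rw [e1, e2]
    linarith
  have sC : ∑ p ∈ Pr (P₂ + 1) (Nat.sqrt n), 1 / (p : ℝ) ^ 2 ≤ 0.2668 * v ^ 24 := by
    refine hS2.1.trans ?_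
    have e1 : (4 / 15 : ℝ) / P₂ = (4 / 15) * (1 / P₂) := by ring
    have e2 : (2 : ℝ) / (P₂ : ℝ) ^ 2 = 2 * (1 / (P₂ : ℝ) ^ 2) := by ring
    rw [e1, e2]
    linarith
  have sB : ∑ p ∈ Pr (P₁ + 1) P₂, 1 / √(p : ℝ) ≤ 8 / 15 * w ^ 12 := by
    refine (hS1.2 (by
      intro p hp
      unfold Pr at hp
      rw [mem_filter, mem_Icc] at hp
      exact_mod_cast hp.1.2)).1.trans ?_
    have h5 : √(P₂ : ℝ) ≤ w ^ 12 := by
      rw [show w ^ 12 = √((w ^ 12) ^ 2) by rw [Real.sqrt_sq (by positivity)]]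
      apply Real.sqrt_le_sqrt
      rw [← pow_mul]
      exact b1
    have h6 : (50 : ℝ) ≤ √(P₁ : ℝ) := by
      rw [show (50 : ℝ) = √(50 ^ 2) by rw [Real.sqrt_sq (by norm_num)]]
      apply Real.sqrt_le_sqrt
      norm_num
      linarith
    have h7 : 2 / √(P₁ : ℝ) ≤ 2 / 50 :=
      div_le_div_of_nonneg_left (by norm_num) (by norm_num) h6
    linarith
  -- conditions on the size of `P₁`, `P₂`
  have q1 : 30000 * (P₁ : ℝ) ≤ √((nu n : ℝ) / 2) := by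
    apply Real.le_sqrt_of_sq_le
    rw [h.pw]
    have h5 : (30000 * (P₁ : ℝ)) ^ 2 ≤ (30000 * w ^ 14) ^ 2 := by gcongr
    refine h5.trans ?_
    have h6 : (10 : ℝ) ^ 13 ≤ (w ^ 4) ^ 13 := pow_le_pow_left₀ (by norm_num) h.ten 13
    have h7 : w ^ 80 = w ^ 28 * (w ^ 4) ^ 13 := by ring
    have h8 : (30000 * w ^ 14) ^ 2 = 900000000 * w ^ 28 := by ring
    rw [h7, h8]
    have h9 : (0 : ℝ) < w ^ 28 := by positivity
    nlinarith
  have q2 : 1000 * (P₂ : ℝ) ≤ √(nu n : ℝ) := by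
    rw [h.sq]
    have h6 : (10 : ℝ) ^ 4 ≤ (w ^ 4) ^ 4 := pow_le_pow_left₀ (by norm_num) h.ten 4
    have h7 : w ^ 40 = w ^ 24 * (w ^ 4) ^ 4 := by ring
    rw [h7]
    have h9 : (0 : ℝ) < w ^ 24 := by positivity
    nlinarith
  have q3 : nu n < P₁ ^ (6 + 1) := by
    have h5 : (nu n : ℝ) < (P₁ : ℝ) ^ (6 + 1) := by
      rw [h.pw]
      have h6 : w ^ 12 ≤ P₁ := by linarith [h.w12]
      have h7 : (w ^ 12) ^ (6 + 1) ≤ (P₁ : ℝ) ^ (6 + 1) := pow_le_pow_left₀ (by positivity) h6 _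
      refine lt_of_lt_of_le ?_ h7
      have h8 : (w ^ 12) ^ (6 + 1) = w ^ 80 * w ^ 4 := by ring
      rw [h8]
      have h9 : (0 : ℝ) < w ^ 80 := by positivity
      have := h.ten
      nlinarith
    exact_mod_cast h5
  have hLge := h.Lge
  obtain ⟨hW0, hW1⟩ := Wn_le n
  have hc := c3_ge n
  have hc0 : 0 < c3 n := by linarith
  obtain ⟨N1, N2⟩ := numeric hv0 hvw hv4 (by linarith) h.Lle hW0 hW1 hc
  -- the coefficient `kk`
  have hlog : Real.log (√(nu n : ℝ) / P₁) ≤ 26 * L + 0.00032 := by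
    rw [h.sq, Real.log_div (by positivity) hP10.ne', Real.log_pow, ← h.hL]
    have h3 : Real.log (w ^ 14 / P₁) ≤ w ^ 14 / P₁ - 1 :=
      Real.log_le_sub_one_of_pos (by positivity)
    rw [Real.log_div (by positivity) hP10.ne', Real.log_pow, ← h.hL] at h3
    push_cast at h3 ⊢
    have h5 : w ^ 14 / P₁ - 1 ≤ 0.00032 := by
      rw [sub_le_iff_le_add, div_le_iff₀ hP10]
      linarith
    linarith
  have hlog0 : 0 ≤ Real.log (√(nu n : ℝ) / P₁) := by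
    apply Real.log_nonneg
    rw [le_div_iff₀ hP10]
    linarith
  have k0 : 0 ≤ kk n P₁ 6 (0.2674 * v ^ 14) := by
    unfold kk
    positivity
  have k1 : kk n P₁ 6 (0.2674 * v ^ 14) ≤
      409.92 / c3 n * (0.8 + 0.143 * (26 * L + 0.00032)) *
        (1.0021 * (0.2674 * v ^ 14) + 0.0019 * v ^ 14) + 1.5 * (0.0019 * v ^ 14) := by
    unfold kk
    have h5 : ((6 : ℕ) : ℝ) / (P₁ : ℝ) ^ 2 ≤ 0.0019 * v ^ 14 := by
      have e2 : ((6 : ℕ) : ℝ) / (P₁ : ℝ) ^ 2 = 6 * (1 / (P₁ : ℝ) ^ 2) := by push_cast; ring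
      rw [e2]
      linarith
    have h6 : 1.5 * ((6 : ℕ) : ℝ) / (P₁ : ℝ) ^ 2 ≤ 1.5 * (0.0019 * v ^ 14) := by
      rw [mul_div_assoc]
      gcongr
    refine add_le_add ?_ h6
    gcongr
  refine hC n P₁ P₂ 6 (0.2674 * v ^ 14) (8 / 15 * w ^ 12) (0.2668 * v ^ 24)
    (w ^ 7 * (7.212 * L + 1.195)) hA (le_trans (by norm_num) hn) (by omega) hP12N q1 q2 q3
    (fb h1 h4 h hP₁) sA sB sC k0 (k1.trans N2) ?_
  have k2 : 1.46 * kk n P₁ 6 (0.2674 * v ^ 14) ≤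
      1.46 * (409.92 / c3 n * (0.8 + 0.143 * (26 * L + 0.00032)) *
        (1.0021 * (0.2674 * v ^ 14) + 0.0019 * v ^ 14) + 1.5 * (0.0019 * v ^ 14)) := by
    gcongr
  have k3 : eT n (w ^ 7 * (7.212 * L + 1.195)) (8 / 15 * w ^ 12) (0.2668 * v ^ 24) ≤
      v ^ 20 * (48 * Wn n * (w ^ 7 * (7.212 * L + 1.195)) + 34.8 * w ^ 4) +
      v ^ 20 * (14.2 * w ^ 4 + 3.2 * (80 * L) + 1.5) +
      (v ^ 20 * (78.3 / c3 n * (8 / 15 * w ^ 12)) +
        391.92 / c3 n * w ^ 14 * (0.2668 * v ^ 24)) := by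
    unfold eT eL
    rw [h.rq, h.r20, h.log, ← hv]
    refine add_le_add (add_le_add le_rfl ?_) (add_le_add le_rfl ?_)
    · split_ifs
      · exact le_rfl
      · positivity
    · have := h.r6
      gcongr
  linarith

end Pool.Agent.TFS
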