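import Pool.Agent.Lib.TFS.Asm
import Pool.Agent.Lib.TFS.Big
import Pool.Agent.Lib.TFS.F4
import Pool.Agent.Lib.TFS.N1
import Pool.Agent.Lib.TFS.N2
import Pool.Agent.Lib.TFS.N3
import Pool.Agent.Lib.TFS.N4
import Pool.Agent.Lib.TFS.N5
import Pool.Agent.Lib.TFS.G1
import Pool.Agent.Lib.TFS.G2
import Pool.Agent.Lib.TFS.G3
import Pool.Agent.Lib.TFS.G4
import Pool.Agent.Lib.TFS.R1
import Pool.Agent.Lib.TFS.R3
import Pool.Agent.Lib.TFS.R4
import Pool.Agent.Lib.TFS.R5
import Pool.Agent.Lib.TFS.T3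

/-!
Assembly of the analytic result: every admissible `n` above the thresholds is represented.
-/

set_option autoImplicit false

namespace Pool.Agent.TFS

open Pool.Agent.Lib.MP_0e0027_nt

theorem critAll : StCrit := stCrit masterAll stSlack (stG1 stFF stN5) (stG2 stFF) stG3

theorem bigAll : StBig :=
  stBig (stR1 critAll stN1 stN2 (stN3 stN4)) (stR2p critAll stN1 stN2 (stN3 stN4))
    (stR3 critAll stN1 stN2 (stN3 stN4)) (stR4 critAll stN1 stN2 (stN3 stN4))
    (stR5 critAll stN1 stN4)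

end Pool.Agent.TFS
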