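import Pool.Agent.Lib.MP_0e0027_nt.Kloosterman
import Pool.Agent.Lib.MP_0e0027_nt.TwoSquares

/-!
Four pairwise coprime squares, explicit analytic part: definitions.
Blueprint: team-store `tfs_A.md`.
-/

set_option autoImplicit false

open Finset MeasureTheory

namespace Pool.Agent.TFS

open Pool.Agent.Lib.MP_0e0027_nt

/-- Gaussian integers -/
abbrev GI := GaussianInt

/-- the norm `x₁² + x₂²` -/
def N2 (x : GI) : ℤ := x.re ^ 2 + x.im ^ 2

/-- `n` divides both coordinates (i.e. `n ∣ x` in `ℤ[i]`) -/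
def dv (n : ℤ) (x : GI) : Prop := n ∣ x.re ∧ n ∣ x.im

instance (n : ℤ) (x : GI) : Decidable (dv n x) := inferInstanceAs (Decidable (_ ∧ _))

/-- the character modulo 4 on natural numbers, real valued -/
noncomputable def ch (d : ℕ) : ℝ := ((ZMod.χ₄ (d : ZMod 4) : ℤ) : ℝ)

/-! ### Exponential sums over the circle modulo `q` -/

/-- all solutions of `x₁² + x₂² = ν` modulo `q` -/
def SolF (ν : ℤ) (q : ℕ) [NeZero q] : Finset (ZMod q × ZMod q) :=
  univ.filter (fun x ↦ x.1 ^ 2 + x.2 ^ 2 = (ν : ZMod q))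

/-- the solutions which are not divisible by `p` (for `p ∣ q`) -/
def SolS (ν : ℤ) (p q : ℕ) [NeZero q] : Finset (ZMod q × ZMod q) :=
  univ.filter (fun x ↦ x.1 ^ 2 + x.2 ^ 2 = (ν : ZMod q) ∧ ¬ (p ∣ x.1.val ∧ p ∣ x.2.val))

/-- number of nonsingular solutions -/
def rhoS (ν : ℤ) (p q : ℕ) [NeZero q] : ℕ := (SolS ν p q).card

/-- number of solutions -/
def rhoF (ν : ℤ) (q : ℕ) [NeZero q] : ℕ := (SolF ν q).card

/-- exponential sum over all solutions -/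
noncomputable def TF (ν : ℤ) (q : ℕ) [NeZero q] (h : GI) : ℂ :=
  ∑ x ∈ SolF ν q, ZMod.stdAddChar ((h.re : ZMod q) * x.1 + (h.im : ZMod q) * x.2)

/-- exponential sum over the solutions not divisible by `p` -/
noncomputable def TS (ν : ℤ) (p q : ℕ) [NeZero q] (h : GI) : ℂ :=
  ∑ x ∈ SolS ν p q, ZMod.stdAddChar ((h.re : ZMod q) * x.1 + (h.im : ZMod q) * x.2)

/-- `T` is dominated by a combination of indicator functions of ideals containing `q`, of total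
density `B` -/
def Dom (T : GI → ℝ) (q : ℕ) (B : ℝ) : Prop :=
  ∃ (k : ℕ) (γ : Fin k → GI) (c : Fin k → ℝ), (∀ i, γ i ≠ 0 ∧ 0 ≤ c i ∧ γ i ∣ (q : GI)) ∧
    (∀ h : GI, T h ≤ ∑ i, open Classical in if γ i ∣ h then c i else 0) ∧
    ∑ i, c i / (N2 (γ i) : ℝ) ≤ B

/-- local factor `1 + ℓ^(-3/2)/2` -/
noncomputable def hl (l : ℕ) : ℝ := 1 + 1 / (2 * ((l : ℝ) * √(l : ℝ)))

/-- `∏_{ℓ ∣ d} (1 + ℓ^(-3/2)/2)` -/
noncomputable def hh (d : ℕ) : ℝ := ∏ l ∈ d.primeFactors, hl l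

/-- number of divisors -/
def tau (d : ℕ) : ℕ := d.divisors.card

/-- the constant at `p` -/
noncomputable def Cp (p : ℕ) : ℝ := if p = 5 then 2.6 else 2 * (1 + 1 / ((p : ℝ) * √(p : ℝ)))

/-- the bound for the domination constant modulo `p² d` -/
noncomputable def Bq (p d : ℕ) : ℝ := p * √(d : ℝ) * Cp p * tau d * hh d

/-! ### Residue classes -/

/-- parity condition: 0 none, 1 both odd, 2 norm 1 mod 8, 3 norm 5 mod 8, 4 norm odd -/
def UP (par : ℕ) (x : GI) : Prop :=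
  if par = 1 then N2 x % 4 = 2 else if par = 2 then N2 x % 8 = 1 else
    if par = 3 then N2 x % 8 = 5 else if par = 4 then N2 x % 2 = 1 else True

/-- condition modulo 3: 0 none, 1 norm 2, 2 norm not 0, 3 norm 1 -/
def UM (m : ℕ) (x : GI) : Prop :=
  if m = 1 then N2 x % 3 = 2 else if m = 2 then N2 x % 3 ≠ 0 else
    if m = 3 then N2 x % 3 = 1 else True

/-- modulus of the classes -/
def MU (par m : ℕ) : ℕ :=
  (if par = 0 then 1 else if par = 1 ∨ par = 4 then 2 else 4) *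
    (if m = 0 then 1 else 3)

/-- bound for the Fourier transform of the parity class -/
noncomputable def G2 (par : ℕ) (h : GI) : ℝ :=
  if par = 4 then (if N2 h % 2 = 0 then 2 else 0) else
    if par = 2 ∨ par = 3 then
      (if N2 h % 2 = 1 then 2 else if dv 2 h ∧ N2 h % 8 = 0 then 4 else 0) else 1

/-- bound for the Fourier transform of the class modulo 3 -/
noncomputable def G3 (m : ℕ) (h : GI) : ℝ :=
  if m = 0 then 1 else if m = 2 then (if dv 3 h then 8 else 1) else (if dv 3 h then 4 else 2)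

/-- densities -/
noncomputable def densU (par m : ℕ) : ℝ :=
  (if par = 0 then 1 else if par = 4 then 1 / 2 else 1 / 4) *
    (if m = 0 then 1 else if m = 2 then 8 / 9 else 4 / 9)

/-- Fourier constants -/
noncomputable def cU (par m : ℕ) : ℝ :=
  (if par = 2 ∨ par = 3 then 3 / 2 else 1) *
    (if m = 0 then 1 else if m = 2 then 16 / 9 else 20 / 9)

/-- the set of lattice points attached to the modulus `q` -/
def WU (par m : ℕ) (ν : ℤ) (p q : ℕ) : Set GI :=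
  {x | UP par x ∧ UM m x ∧ (q : ℤ) ∣ ν - N2 x ∧ ¬ dv p x}

/-- approximate Gaussian counting: `∑_{x ∈ W} exp(-π z N(x)) = D₀/z + O(E₀ |z| / Re z)` -/
def GC (W : Set GI) (D₀ E₀ : ℝ) : Prop := ∀ z : ℂ, 0 < z.re →
  Summable (fun x : W ↦ Complex.exp (-(Real.pi * z * (N2 x : ℂ)))) ∧
  ‖(∑' x : W, Complex.exp (-(Real.pi * z * (N2 x : ℂ)))) - D₀ / z‖ ≤ E₀ * (‖z‖ / z.re)

/-! ### The smoothing function -/

/-- `Φ(y) = ∫_{-∞}^y exp(-π t²) dt` -/
noncomputable def Phi (y : ℝ) : ℝ := ∫ t in Set.Iic y, Real.exp (-(Real.pi * t ^ 2))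

/-- `H(y) = ∫_{-∞}^y Φ` -/
noncomputable def Hf (y : ℝ) : ℝ := ∫ t in Set.Iic y, Phi t

/-- the error function `K` -/
noncomputable def Kf (η Y : ℝ) : ℝ :=
  Real.exp (Real.pi * η ^ 2 + 2 * Real.pi * η * Y) / (2 * Real.pi * η)

/-- `J(s) = 4 s H((1/s - s)/4)` -/
noncomputable def Jf (s : ℝ) : ℝ := 4 * s * Hf ((1 / s - s) / 4)

/-! ### Counting functions -/

/-- admissible combinations of parity type, condition mod 3, `κ` and `ν` -/
def HypU (par m κ : ℕ) (ν : ℕ) : Prop :=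
  ((par = 1 ∧ κ = 1 ∧ ν % 4 = 3) ∨ (par = 2 ∧ κ = 2 ∧ ν % 8 = 3) ∨ (par = 3 ∧ κ = 2 ∧ ν % 8 = 7) ∨
    (par = 4 ∧ κ = 1 ∧ ν % 4 = 2)) ∧
  (m = 0 ∨ (m = 1 ∧ ν % 3 = 1) ∨ (m = 2 ∧ ν % 3 = 0) ∨ (m = 3 ∧ ν % 3 = 2))

/-- pairs `(x, y)` with `N(x) + κ p² N(y) = ν`, `x` in the class and not divisible by `p` -/
def NS (par m κ p : ℕ) (ν : ℕ) : Set (GI × GI) :=
  {u | UP par u.1 ∧ UM m u.1 ∧ ¬ dv p u.1 ∧
    N2 u.1 + κ * p ^ 2 * N2 u.2 = ν}

/-- the moduli `d` that occur: odd, and prime to 3 if there is a condition modulo 3 -/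
def DD (m d : ℕ) : Prop := d % 2 = 1 ∧ (m ≠ 0 → d % 3 ≠ 0)

/-- `∑_{e ∣ ν, (e, w) = 1} 1/e` -/
noncomputable def gs (ν w : ℕ) : ℝ := ∑ e ∈ ν.divisors.filter (fun e ↦ e.Coprime w), (1 : ℝ) / e

/-- number of solutions of `x₁² + x₂² = ν` modulo `q` which are not divisible by `p` -/
def rhoN (ν : ℤ) (p q : ℕ) : ℕ :=
  ((range q ×ˢ range q).filter (fun x ↦ (q : ℤ) ∣ ν - ((x.1 : ℤ) ^ 2 + (x.2 : ℤ) ^ 2) ∧
    ¬ (p ∣ x.1 ∧ p ∣ x.2))).card

/-- `ρ*(p²)/p⁴` -/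
noncomputable def r4 (ν : ℤ) (p : ℕ) : ℝ :=
  if (p : ℤ) ∣ ν then (if p % 4 = 1 then 2 * ((p : ℝ) - 1) / (p : ℝ) ^ 3 else 0)
  else ((p : ℝ) - ch p) / (p : ℝ) ^ 3

/-- `∑_{a ∣ ν, (a, 6) = 1} a^(-1/2)` -/
noncomputable def FF (ν : ℕ) : ℝ :=
  ∑ a ∈ ν.divisors.filter (fun a ↦ a.Coprime 6), 1 / √(a : ℝ)

/-- the error sum bounds -/
noncomputable def SB6 (D : ℝ) : ℝ := D * √D * (0.26 * Real.log D + 0.6)
noncomputable def SB2 (D : ℝ) : ℝ := D * √D * (0.6 * Real.log D + 0.8)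

/-- numbers composed of primes `1 mod 4` -/
def P1s (d : ℕ) : Prop := d ≠ 0 ∧ ∀ l : ℕ, l.Prime → l ∣ d → l % 4 = 1

end Pool.Agent.TFS
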