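import Pool.Agent.Lib.MP_0e0027_nt.TwoSquares

/-! Jacobi's four-square theorem: statements of the modules J1, J2. -/

set_option autoImplicit false

open Finset

namespace Pool.Agent.TFS

/-- all representations of `n` as an ordered sum of four squares of integers -/
def Q4 (n : ℤ) : Set ((ℤ × ℤ) × (ℤ × ℤ)) :=
  {u | u.1.1 ^ 2 + u.1.2 ^ 2 + (u.2.1 ^ 2 + u.2.2 ^ 2) = n}

/-- representations by four odd squares -/
def Q4o (n : ℤ) : Set ((ℤ × ℤ) × (ℤ × ℤ)) :=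
  {u | u ∈ Q4 n ∧ u.1.1 % 2 = 1 ∧ u.1.2 % 2 = 1 ∧ u.2.1 % 2 = 1 ∧ u.2.2 % 2 = 1}

/-- J1: four odd squares -/
def StJacO : Prop := ∀ m : ℕ, m % 2 = 1 →
  (Q4o (4 * m)).ncard = 16 * ArithmeticFunction.sigma 1 m

/-- J2: four squares, odd numbers -/
def StJac : Prop := ∀ m : ℕ, m % 2 = 1 → (Q4 m).ncard = 8 * ArithmeticFunction.sigma 1 m

end Pool.Agent.TFS
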