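import Pool.Agent.Lib.MP_0e0027_nt.Kloosterman

/-! Weil bound for Kloosterman sums: statements of the modules W1-W5. -/

set_option autoImplicit false

open Finset Polynomial

namespace Pool.Agent.TFS

/-- Kloosterman sum over a finite field, with additive character `ψ` -/
noncomputable def KF {F : Type} [Field F] [Fintype F] [DecidableEq F] (ψ : AddChar F ℂ) (a b : F) : ℂ :=
  ∑ x : Fˣ, ψ (a * (x : F) + b * ((x⁻¹ : Fˣ) : F))

/-- the additive character `x ↦ e(Tr x / p)` of a finite field of characteristic `p` -/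
noncomputable def trChar (p : ℕ) [Fact p.Prime] (F : Type) [Field F] [Algebra (ZMod p) F] :
    AddChar F ℂ :=
  (ZMod.stdAddChar (N := p)).compAddMonoidHom (Algebra.trace (ZMod p) F).toAddMonoidHom

/-- W1 (Stepanov): quadratic character sums of a squarefree polynomial -/
def StStep : Prop := ∀ D : ℕ, 1 ≤ D → ∃ C : ℝ, 0 < C ∧
  ∀ (F : Type) [Field F] [Fintype F] [DecidableEq F], ringChar F ≠ 2 →
  ∀ f : F[X], f.natDegree = D → f.eval 0 ≠ 0 → Squarefree f →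
  |∑ y : F, ((quadraticChar F (f.eval y) : ℤ) : ℝ)| ≤ C * √(Fintype.card F : ℝ)

/-- W1a: Hasse derivatives of `s * f ^ N` -/
def StDer : Prop := ∀ (F : Type) [Field F] (f : F[X]) (k N : ℕ), 1 ≤ f.natDegree → k ≤ N →
  ∃ E : F[X] →ₗ[F] F[X], (∀ s : F[X], hasseDeriv k (s * f ^ N) = f ^ (N - k) * E s) ∧
    ∀ s : F[X], (E s).natDegree ≤ s.natDegree + k * (f.natDegree - 1)

/-- W1b: the auxiliary polynomial does not vanish identically -/
def StNonv : Prop := ∀ (F : Type) [Field F] [Fintype F], ringChar F ≠ 2 →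
  ∀ f : F[X], 1 ≤ f.natDegree → f.eval 0 ≠ 0 → Squarefree f →
  ∀ A J : ℕ, 2 * A + f.natDegree ≤ Fintype.card F + 1 →
  ∀ r s : ℕ → F[X], (∀ j, (r j).degree < A) → (∀ j, (s j).degree < A) →
  ∑ j ∈ range J, (r j + s j * f ^ ((Fintype.card F - 1) / 2)) * X ^ (j * Fintype.card F) = 0 →
  ∀ j < J, r j = 0 ∧ s j = 0

/-- W2: the polynomial `(Y^p - Y + z)^2 - c` -/
def StPolF : Prop := ∀ (p : ℕ) [Fact p.Prime], p ≠ 2 →
  ∀ (F : Type) [Field F] [CharP F p] (z c : F), c ≠ 0 → z ^ 2 ≠ c →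
  (((X ^ p - X + C z) ^ 2 - C c : F[X]).natDegree = 2 * p) ∧
  ((X ^ p - X + C z) ^ 2 - C c : F[X]).eval 0 ≠ 0 ∧
  Squarefree ((X ^ p - X + C z) ^ 2 - C c : F[X])

/-- W3: square root cancellation with a bad constant, uniformly over all finite extensions -/
def StBd : Prop := ∀ (p : ℕ) [Fact p.Prime], p ≠ 2 → ∃ C : ℝ, 0 < C ∧
  ∀ (F : Type) [Field F] [Fintype F] [DecidableEq F] [Algebra (ZMod p) F],
  ∀ a b : F, a ≠ 0 → b ≠ 0 → ‖KF (trChar p F) a b‖ ≤ C * √(Fintype.card F : ℝ)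

/-- W4: Kloosterman sums in a quadratic extension -/
def StQuad : Prop := ∀ (F F' : Type) [Field F] [Fintype F] [DecidableEq F]
  [Field F'] [Fintype F'] [DecidableEq F'] [Algebra F F'], ringChar F ≠ 2 →
  Module.finrank F F' = 2 → ∀ ψ : AddChar F ℂ, ψ ≠ 1 → ∀ a b : F, a ≠ 0 → b ≠ 0 →
  KF (ψ.compAddMonoidHom (Algebra.trace F F').toAddMonoidHom) (algebraMap F F' a) (algebraMap F F' b) =
    2 * (Fintype.card F : ℂ) - (KF ψ a b) ^ 2

/-- W5: the Weil bound -/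
def StWeil : Prop := ∀ (p : ℕ) [Fact p.Prime], p ≠ 2 → ∀ a b : ZMod p, a ≠ 0 → b ≠ 0 →
  ‖Pool.Agent.Lib.MP_0e0027_nt.Kl a b‖ ≤ 2 * √(p : ℝ)

end Pool.Agent.TFS
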