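import Pool.Agent.Lib.TFS.StmtsA

/-!
M1: local densities (blueprint: team-store `tfs_A.md`).
-/

set_option autoImplicit false

open Finset

namespace Pool.Agent.TFS

open Pool.Agent.Lib.MP_0e0027_nt

/-! ### Counting all solutions by Ramanujan sums -/

theorem M1.sum_period (F : ℕ → ℝ) (g m : ℕ) (hF : ∀ u, F (u + g) = F u) :
    ∑ u ∈ range (m * g), F u = m * ∑ u ∈ range g, F u := by
  have h1 : ∀ (m u : ℕ), F (m * g + u) = F u := by
    intro m
    induction m with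
    | zero => intro u; simp
    | succ m ih =>
      intro u
      have e : (m + 1) * g + u = (m * g + u) + g := by ring
      rw [e, hF, ih]
  induction m with
  | zero => simp
  | succ m ih =>
    rw [Nat.succ_mul, sum_range_add, ih]
    rw [sum_congr rfl (fun u _ ↦ h1 m u)]
    push_cast
    ring

theorem M1.sum_range_zmod (g : ℕ) [NeZero g] (F : ZMod g → ℂ) :
    ∑ u ∈ range g, F (u : ZMod g) = ∑ x : ZMod g, F x := by
  apply sum_bij (fun (u : ℕ) _ ↦ (u : ZMod g))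
  · intro u _
    exact mem_univ _
  · intro u hu v hv h
    rw [mem_range] at hu hv
    have h1 := congrArg ZMod.val h
    rwa [ZMod.val_natCast_of_lt hu, ZMod.val_natCast_of_lt hv] at h1
  · intro x _
    exact ⟨x.val, mem_range.mpr (ZMod.val_lt x), ZMod.natCast_zmod_val x⟩
  · intro u _
    rfl

theorem M1.conic (g : ℕ) [NeZero g] (hg : Odd g) (ν : ZMod g) :
    ∑ x : ZMod g, ∑ y : ZMod g, Kl (ν - (x ^ 2 + y ^ 2)) 0 =
      ((ZMod.χ₄ (g : ZMod 4) : ℤ) : ℂ) * g * Kl ν 0 := by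
  have h1 : ∀ x y : ZMod g, Kl (ν - (x ^ 2 + y ^ 2)) 0 = ∑ a : (ZMod g)ˣ,
      (ZMod.stdAddChar (ν * (a : ZMod g) + 0 * ((a⁻¹ : (ZMod g)ˣ) : ZMod g)) : ℂ) *
      (ZMod.stdAddChar (-(a : ZMod g) * x ^ 2) * ZMod.stdAddChar (-(a : ZMod g) * y ^ 2)) := by
    intro x y
    unfold Kl
    refine sum_congr rfl (fun a _ ↦ ?_)
    rw [← AddChar.map_add_eq_mul, ← AddChar.map_add_eq_mul]
    congr 1
    ring
  simp only [h1]
  have h2 : ∀ x : ZMod g, ∑ y : ZMod g, ∑ a : (ZMod g)ˣ,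
      (ZMod.stdAddChar (ν * (a : ZMod g) + 0 * ((a⁻¹ : (ZMod g)ˣ) : ZMod g)) : ℂ) *
      (ZMod.stdAddChar (-(a : ZMod g) * x ^ 2) * ZMod.stdAddChar (-(a : ZMod g) * y ^ 2)) =
      ∑ a : (ZMod g)ˣ,
      (ZMod.stdAddChar (ν * (a : ZMod g) + 0 * ((a⁻¹ : (ZMod g)ˣ) : ZMod g)) : ℂ) *
      (ZMod.stdAddChar (-(a : ZMod g) * x ^ 2) * Gs (-(a : ZMod g))) := by
    intro x
    rw [sum_comm]
    refine sum_congr rfl (fun a _ ↦ ?_)
    unfold Gs
    rw [mul_sum, mul_sum]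
  simp only [h2]
  rw [sum_comm]
  unfold Kl
  rw [mul_sum]
  refine sum_congr rfl (fun a _ ↦ ?_)
  rw [← mul_sum, ← sum_mul]
  have h3 := Gs_sq hg (-(a : ZMod g)) a.isUnit.neg
  have h4 : ∑ x : ZMod g, (ZMod.stdAddChar (-(a : ZMod g) * x ^ 2) : ℂ) = Gs (-(a : ZMod g)) := rfl
  rw [h4, ← sq, h3]
  ring

theorem M1.rc_period (g : ℕ) (k t : ℤ) : rc g (k + g * t) = rc g k := by
  unfold rc
  refine sum_congr rfl (fun x hx ↦ ?_)
  have h1 : (x.2 : ℤ) ∣ (g : ℤ) * t := by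
    rw [Nat.mem_divisorsAntidiagonal] at hx
    apply Dvd.dvd.mul_right
    exact_mod_cast Dvd.intro_left _ hx.1
  have h2 : (x.2 : ℤ) ∣ k + g * t ↔ (x.2 : ℤ) ∣ k := dvd_add_left h1
  simp only [h2]

/-- sum of Ramanujan sums over a period -/
theorem M1.sum_rc_period (g : ℕ) (hg0 : 0 < g) (hg : Odd g) (ν : ℤ) :
    ∑ u ∈ range g, ∑ v ∈ range g, (rc g (ν - ((u : ℤ) ^ 2 + (v : ℤ) ^ 2)) : ℝ) =
      ch g * g * rc g ν := by
  have : NeZero g := ⟨hg0.ne'⟩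
  have h1 : ((∑ u ∈ range g, ∑ v ∈ range g, (rc g (ν - ((u : ℤ) ^ 2 + (v : ℤ) ^ 2)) : ℝ) : ℝ) : ℂ) =
      ((ch g * g * rc g ν : ℝ) : ℂ) := by
    push_cast
    have h2 := M1.conic g hg (ν : ZMod g)
    rw [Kl_zero_eq] at h2
    have h3 : ((ch g : ℝ) : ℂ) = ((ZMod.χ₄ (g : ZMod 4) : ℤ) : ℂ) := by
      unfold ch
      push_cast
      rfl
    rw [h3, ← h2]
    rw [← M1.sum_range_zmod g (fun x ↦ ∑ y : ZMod g, Kl ((ν : ZMod g) - (x ^ 2 + y ^ 2)) 0)]
    refine sum_congr rfl (fun u _ ↦ ?_)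
    rw [← M1.sum_range_zmod g (fun y ↦ Kl ((ν : ZMod g) - ((u : ZMod g) ^ 2 + y ^ 2)) 0)]
    refine sum_congr rfl (fun v _ ↦ ?_)
    rw [← Kl_zero_eq]
    push_cast
    rfl
  exact_mod_cast h1

/-- number of all solutions of `x₁² + x₂² = ν` modulo `q` -/
def M1.rA (ν : ℤ) (q : ℕ) : ℕ :=
  ((range q ×ˢ range q).filter (fun x ↦ (q : ℤ) ∣ ν - ((x.1 : ℤ) ^ 2 + (x.2 : ℤ) ^ 2))).card

theorem M1.rA_eq (q : ℕ) (hq0 : 0 < q) (hq : Odd q) (ν : ℤ) :
    (q : ℝ) * M1.rA ν q = ∑ g ∈ q.divisors, ((q / g : ℕ) : ℝ) ^ 2 * (ch g * g * rc g ν) := by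
  have h1 : (q : ℝ) * M1.rA ν q = ∑ u ∈ range q, ∑ v ∈ range q, ∑ g ∈ q.divisors,
      (rc g (ν - ((u : ℤ) ^ 2 + (v : ℤ) ^ 2)) : ℝ) := by
    unfold M1.rA
    rw [card_filter, sum_product]
    push_cast
    rw [mul_sum]
    refine sum_congr rfl (fun u _ ↦ ?_)
    rw [mul_sum]
    refine sum_congr rfl (fun v _ ↦ ?_)
    have h2 := sum_rc (ν - ((u : ℤ) ^ 2 + (v : ℤ) ^ 2)) q hq0
    have h3 : ((∑ g ∈ q.divisors, rc g (ν - ((u : ℤ) ^ 2 + (v : ℤ) ^ 2)) : ℤ) : ℝ) =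
        ((if (q : ℤ) ∣ ν - ((u : ℤ) ^ 2 + (v : ℤ) ^ 2) then (q : ℤ) else 0 : ℤ) : ℝ) := by rw [h2]
    rw [Int.cast_sum] at h3
    rw [h3]
    split_ifs <;> simp
  rw [h1]
  have h4 : ∀ u ∈ range q, ∑ v ∈ range q, ∑ g ∈ q.divisors,
      (rc g (ν - ((u : ℤ) ^ 2 + (v : ℤ) ^ 2)) : ℝ) = ∑ g ∈ q.divisors, ∑ v ∈ range q,
      (rc g (ν - ((u : ℤ) ^ 2 + (v : ℤ) ^ 2)) : ℝ) := fun u _ ↦ sum_comm
  rw [sum_congr rfl h4, sum_comm]
  refine sum_congr rfl (fun g hg ↦ ?_)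
  have hgq := Nat.dvd_of_mem_divisors hg
  have hg0 := Nat.pos_of_dvd_of_pos hgq hq0
  have hq' : q = (q / g) * g := (Nat.div_mul_cancel hgq).symm
  have h5 : ∀ u : ℕ, ∑ v ∈ range q, (rc g (ν - ((u : ℤ) ^ 2 + (v : ℤ) ^ 2)) : ℝ) =
      ((q / g : ℕ) : ℝ) * ∑ v ∈ range g, (rc g (ν - ((u : ℤ) ^ 2 + (v : ℤ) ^ 2)) : ℝ) := by
    intro u
    conv_lhs => rw [hq']
    apply M1.sum_period
    intro v
    have e : ν - ((u : ℤ) ^ 2 + ((v + g : ℕ) : ℤ) ^ 2) = (ν - ((u : ℤ) ^ 2 + (v : ℤ) ^ 2)) +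
        g * (-(2 * v + g)) := by push_cast; ring
    rw [e, M1.rc_period]
  rw [sum_congr rfl (fun u _ ↦ h5 u), ← mul_sum]
  have h6 : ∑ u ∈ range q, ∑ v ∈ range g, (rc g (ν - ((u : ℤ) ^ 2 + (v : ℤ) ^ 2)) : ℝ) =
      ((q / g : ℕ) : ℝ) * ∑ u ∈ range g, ∑ v ∈ range g,
        (rc g (ν - ((u : ℤ) ^ 2 + (v : ℤ) ^ 2)) : ℝ) := by
    conv_lhs => rw [hq']
    apply M1.sum_period
    intro u
    refine sum_congr rfl (fun v _ ↦ ?_)
    have e : ν - (((u + g : ℕ) : ℤ) ^ 2 + (v : ℤ) ^ 2) = (ν - ((u : ℤ) ^ 2 + (v : ℤ) ^ 2)) +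
        g * (-(2 * u + g)) := by push_cast; ring
    rw [e, M1.rc_period]
  rw [h6, M1.sum_rc_period g hg0 (hq.of_dvd_nat hgq)]
  ring

/-! ### The singular solutions -/

theorem M1.rA_split (p : ℕ) (hp : p.Prime) (d : ℕ) (ν : ℕ) :
    (M1.rA ν (p ^ 2 * d) : ℝ) = rhoN ν p (p ^ 2 * d) +
      if p ^ 2 ∣ ν then (p : ℝ) ^ 2 * M1.rA ((ν / p ^ 2 : ℕ) : ℤ) d else 0 := by
  classical
  have hp0 : 0 < p := hp.pos
  have h1 : M1.rA ν (p ^ 2 * d) = rhoN ν p (p ^ 2 * d) +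
      ((range (p ^ 2 * d) ×ˢ range (p ^ 2 * d)).filter (fun x ↦
        ((p ^ 2 * d : ℕ) : ℤ) ∣ (ν : ℤ) - ((x.1 : ℤ) ^ 2 + (x.2 : ℤ) ^ 2) ∧
        (p ∣ x.1 ∧ p ∣ x.2))).card := by
    unfold M1.rA rhoN
    rw [← card_filter_add_card_filter_not (s := (range (p ^ 2 * d) ×ˢ range (p ^ 2 * d)).filter (fun x ↦
        ((p ^ 2 * d : ℕ) : ℤ) ∣ (ν : ℤ) - ((x.1 : ℤ) ^ 2 + (x.2 : ℤ) ^ 2)))
        (fun x : ℕ × ℕ ↦ ¬ (p ∣ x.1 ∧ p ∣ x.2))]
    congr 1
    · rw [filter_filter]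
    · rw [filter_filter]
      simp only [not_not]
  have h2 : ((range (p ^ 2 * d) ×ˢ range (p ^ 2 * d)).filter (fun x ↦
        ((p ^ 2 * d : ℕ) : ℤ) ∣ (ν : ℤ) - ((x.1 : ℤ) ^ 2 + (x.2 : ℤ) ^ 2) ∧
        (p ∣ x.1 ∧ p ∣ x.2))).card = ((range (p * d) ×ˢ range (p * d)).filter (fun y ↦
        ((p ^ 2 * d : ℕ) : ℤ) ∣ (ν : ℤ) - (p : ℤ) ^ 2 * ((y.1 : ℤ) ^ 2 + (y.2 : ℤ) ^ 2))).card := by
    symm
    apply card_bij (fun (y : ℕ × ℕ) _ ↦ (p * y.1, p * y.2))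
    · intro y hy
      simp only [mem_filter, mem_product, mem_range] at hy ⊢
      refine ⟨⟨?_, ?_⟩, ?_, dvd_mul_right _ _, dvd_mul_right _ _⟩
      · calc p * y.1 < p * (p * d) := Nat.mul_lt_mul_of_pos_left hy.1.1 hp0
          _ = p ^ 2 * d := by ring
      · calc p * y.2 < p * (p * d) := Nat.mul_lt_mul_of_pos_left hy.1.2 hp0
          _ = p ^ 2 * d := by ring
      · have e : (ν : ℤ) - (((p * y.1 : ℕ) : ℤ) ^ 2 + ((p * y.2 : ℕ) : ℤ) ^ 2) =
            (ν : ℤ) - (p : ℤ) ^ 2 * ((y.1 : ℤ) ^ 2 + (y.2 : ℤ) ^ 2) := by push_cast; ring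
        rw [e]
        exact hy.2
    · intro y _ y' _ h
      simp only [Prod.mk.injEq] at h
      ext
      · exact Nat.eq_of_mul_eq_mul_left hp0 h.1
      · exact Nat.eq_of_mul_eq_mul_left hp0 h.2
    · intro x hx
      simp only [mem_filter, mem_product, mem_range] at hx
      obtain ⟨⟨hx1, hx2⟩, hx3, ⟨y1, hy1⟩, ⟨y2, hy2⟩⟩ := hx
      refine ⟨(y1, y2), ?_, ?_⟩
      · simp only [mem_filter, mem_product, mem_range]
        refine ⟨⟨?_, ?_⟩, ?_⟩
        · have : p * y1 < p * (p * d) := by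
            rw [← hy1]
            calc x.1 < p ^ 2 * d := hx1
              _ = p * (p * d) := by ring
          exact lt_of_mul_lt_mul_left this (Nat.zero_le _)
        · have : p * y2 < p * (p * d) := by
            rw [← hy2]
            calc x.2 < p ^ 2 * d := hx2
              _ = p * (p * d) := by ring
          exact lt_of_mul_lt_mul_left this (Nat.zero_le _)
        · rw [hy1, hy2] at hx3
          have e : (ν : ℤ) - (((p * y1 : ℕ) : ℤ) ^ 2 + ((p * y2 : ℕ) : ℤ) ^ 2) =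
            (ν : ℤ) - (p : ℤ) ^ 2 * ((y1 : ℤ) ^ 2 + (y2 : ℤ) ^ 2) := by push_cast; ring
          rwa [e] at hx3
      · ext
        · exact hy1.symm
        · exact hy2.symm
  have h3 : (((range (p * d) ×ˢ range (p * d)).filter (fun y ↦
        ((p ^ 2 * d : ℕ) : ℤ) ∣ (ν : ℤ) - (p : ℤ) ^ 2 * ((y.1 : ℤ) ^ 2 + (y.2 : ℤ) ^ 2))).card : ℝ) =
      if p ^ 2 ∣ ν then (p : ℝ) ^ 2 * M1.rA ((ν / p ^ 2 : ℕ) : ℤ) d else 0 := by
    split_ifs with hpν
    · obtain ⟨ν', rfl⟩ := hpν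
      have hpp : 0 < p ^ 2 := by positivity
      rw [Nat.mul_div_cancel_left _ hpp]
      have hiff : ∀ y : ℕ × ℕ, (((p ^ 2 * d : ℕ) : ℤ) ∣ ((p ^ 2 * ν' : ℕ) : ℤ) - (p : ℤ) ^ 2 *
          ((y.1 : ℤ) ^ 2 + (y.2 : ℤ) ^ 2)) ↔ (d : ℤ) ∣ (ν' : ℤ) - ((y.1 : ℤ) ^ 2 + (y.2 : ℤ) ^ 2) := by
        intro y
        have e : ((p ^ 2 * ν' : ℕ) : ℤ) - (p : ℤ) ^ 2 * ((y.1 : ℤ) ^ 2 + (y.2 : ℤ) ^ 2) =
            (p : ℤ) ^ 2 * ((ν' : ℤ) - ((y.1 : ℤ) ^ 2 + (y.2 : ℤ) ^ 2)) := by push_cast; ring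
        rw [e]
        push_cast
        apply mul_dvd_mul_iff_left
        have : (0 : ℤ) < (p : ℤ) ^ 2 := by exact_mod_cast hpp
        exact this.ne'
      simp only [hiff]
      unfold M1.rA
      rw [card_filter, card_filter, sum_product, sum_product]
      push_cast
      have h5 : ∀ u : ℕ, ∑ v ∈ range (p * d), (if (d : ℤ) ∣ (ν' : ℤ) - ((u : ℤ) ^ 2 + (v : ℤ) ^ 2) then
          (1 : ℝ) else 0) = p * ∑ v ∈ range d,
            (if (d : ℤ) ∣ (ν' : ℤ) - ((u : ℤ) ^ 2 + (v : ℤ) ^ 2) then (1 : ℝ) else 0) := by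
        intro u
        apply M1.sum_period
        intro v
        have e : (ν' : ℤ) - ((u : ℤ) ^ 2 + ((v + d : ℕ) : ℤ) ^ 2) =
            ((ν' : ℤ) - ((u : ℤ) ^ 2 + (v : ℤ) ^ 2)) + d * (-(2 * v + d)) := by push_cast; ring
        have e2 : (d : ℤ) ∣ (ν' : ℤ) - ((u : ℤ) ^ 2 + ((v + d : ℕ) : ℤ) ^ 2) ↔
            (d : ℤ) ∣ (ν' : ℤ) - ((u : ℤ) ^ 2 + (v : ℤ) ^ 2) := by
          rw [e]
          exact dvd_add_left (dvd_mul_right _ _)
        simp only [e2]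
      rw [sum_congr rfl (fun u _ ↦ h5 u), ← mul_sum]
      have h6 : ∑ u ∈ range (p * d), ∑ v ∈ range d,
            (if (d : ℤ) ∣ (ν' : ℤ) - ((u : ℤ) ^ 2 + (v : ℤ) ^ 2) then (1 : ℝ) else 0) =
            p * ∑ u ∈ range d, ∑ v ∈ range d,
            (if (d : ℤ) ∣ (ν' : ℤ) - ((u : ℤ) ^ 2 + (v : ℤ) ^ 2) then (1 : ℝ) else 0) := by
        apply M1.sum_period
        intro u
        refine sum_congr rfl (fun v _ ↦ ?_)
        have e : (ν' : ℤ) - (((u + d : ℕ) : ℤ) ^ 2 + (v : ℤ) ^ 2) =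
            ((ν' : ℤ) - ((u : ℤ) ^ 2 + (v : ℤ) ^ 2)) + d * (-(2 * u + d)) := by push_cast; ring
        have e2 : (d : ℤ) ∣ (ν' : ℤ) - (((u + d : ℕ) : ℤ) ^ 2 + (v : ℤ) ^ 2) ↔
            (d : ℤ) ∣ (ν' : ℤ) - ((u : ℤ) ^ 2 + (v : ℤ) ^ 2) := by
          rw [e]
          exact dvd_add_left (dvd_mul_right _ _)
        simp only [e2]
      rw [h6]
      ring
    · rw [filter_eq_empty_iff.mpr, card_empty, Nat.cast_zero]
      intro y _ hy
      apply hpν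
      have h7 : ((p : ℤ) ^ 2) ∣ (ν : ℤ) := by
        have h8 : ((p : ℤ) ^ 2) ∣ (ν : ℤ) - (p : ℤ) ^ 2 * ((y.1 : ℤ) ^ 2 + (y.2 : ℤ) ^ 2) := by
          refine dvd_trans ?_ hy
          push_cast
          exact dvd_mul_right _ _
        exact (dvd_sub_left (dvd_mul_right _ _)).mp h8
      exact_mod_cast h7
  rw [h1, h2, Nat.cast_add, h3]

/-! ### Arithmetic functions -/

/-- `[a ∣ ν] / a` -/
noncomputable def M1.al (ν : ℕ) : ArithmeticFunction ℝ :=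
  ⟨fun a ↦ if a ∣ ν then 1 / (a : ℝ) else 0, by simp⟩

/-- `[a ∣ ν, p² ∤ a] / a` -/
noncomputable def M1.al1 (ν p : ℕ) : ArithmeticFunction ℝ :=
  ⟨fun a ↦ if a ∣ ν ∧ ¬ p ^ 2 ∣ a then 1 / (a : ℝ) else 0, by simp⟩

/-- `[a ∣ ν, (a, p) = 1] / a` -/
noncomputable def M1.al2 (ν p : ℕ) : ArithmeticFunction ℝ :=
  ⟨fun a ↦ if a ∣ ν ∧ a.Coprime p then 1 / (a : ℝ) else 0, by simp⟩

/-- `μ(b) / b²` -/
noncomputable def M1.be : ArithmeticFunction ℝ :=
  ⟨fun b ↦ (ArithmeticFunction.moebius b : ℝ) / (b : ℝ) ^ 2, by simp⟩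

/-- `[(b, p) = 1] μ(b) / b²` -/
noncomputable def M1.be2 (p : ℕ) : ArithmeticFunction ℝ :=
  ⟨fun b ↦ if b.Coprime p then (ArithmeticFunction.moebius b : ℝ) / (b : ℝ) ^ 2 else 0, by simp⟩

/-- `χ(f) / f` -/
noncomputable def M1.fF : ArithmeticFunction ℝ := ⟨fun f ↦ ch f / f, by simp⟩

theorem M1.ch_c4 (n : ℕ) : ch n = (c4 n : ℝ) := rfl

theorem M1.ch_mul (m n : ℕ) : ch (m * n) = ch m * ch n := by
  rw [M1.ch_c4, M1.ch_c4, M1.ch_c4, c4_mul]
  push_cast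
  rfl

theorem M1.ch_one : ch 1 = 1 := by unfold ch; simp

theorem M1.ch_sq {n : ℕ} (h : n % 2 = 1) : ch n * ch n = 1 := by
  rw [M1.ch_c4]
  exact_mod_cast c4_sq_odd h

theorem M1.ch_pow (m n : ℕ) : ch (m ^ n) = ch m ^ n := by
  induction n with
  | zero => simp [M1.ch_one]
  | succ n ih => rw [pow_succ, M1.ch_mul, ih, pow_succ]

theorem M1.al1_mult (ν p : ℕ) (hp : p.Prime) : (M1.al1 ν p).IsMultiplicative := by
  rw [ArithmeticFunction.IsMultiplicative.iff_ne_zero]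
  have hp2 := hp.two_le
  constructor
  · have : ¬ p ^ 2 ∣ 1 := by
      intro h
      have h1 := Nat.le_of_dvd one_pos h
      nlinarith
    simp only [M1.al1, ArithmeticFunction.coe_mk, one_dvd, true_and, this, not_false_eq_true, if_true]
    simp
  · intro m n _ _ hmn
    simp only [M1.al1, ArithmeticFunction.coe_mk]
    have h1 : m * n ∣ ν ↔ m ∣ ν ∧ n ∣ ν := by
      constructor
      · intro h
        exact ⟨(dvd_mul_right _ _).trans h, (dvd_mul_left _ _).trans h⟩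
      · rintro ⟨h, h'⟩
        exact hmn.mul_dvd_of_dvd_of_dvd h h'
    have h2 : p ^ 2 ∣ m * n ↔ p ^ 2 ∣ m ∨ p ^ 2 ∣ n := hmn.isPrimePow_dvd_mul (hp.isPrimePow.pow (by norm_num))
    simp only [h1, h2]
    by_cases a1 : m ∣ ν <;> by_cases a2 : n ∣ ν <;> by_cases a3 : p ^ 2 ∣ m <;>
      by_cases a4 : p ^ 2 ∣ n <;> simp [a1, a2, a3, a4]
    ring

theorem M1.al2_mult (ν p : ℕ) : (M1.al2 ν p).IsMultiplicative := by
  rw [ArithmeticFunction.IsMultiplicative.iff_ne_zero]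
  constructor
  · simp [M1.al2]
  · intro m n _ _ hmn
    simp only [M1.al2, ArithmeticFunction.coe_mk]
    have h1 : m * n ∣ ν ↔ m ∣ ν ∧ n ∣ ν := by
      constructor
      · intro h
        exact ⟨(dvd_mul_right _ _).trans h, (dvd_mul_left _ _).trans h⟩
      · rintro ⟨h, h'⟩
        exact hmn.mul_dvd_of_dvd_of_dvd h h'
    simp only [h1, Nat.coprime_mul_iff_left]
    simp only [Nat.Coprime]
    by_cases a1 : m ∣ ν <;> by_cases a2 : n ∣ ν <;> by_cases a3 : m.gcd p = 1 <;>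
      by_cases a4 : n.gcd p = 1 <;> simp [a1, a2, a3, a4]
    ring

theorem M1.be_mult : M1.be.IsMultiplicative := by
  rw [ArithmeticFunction.IsMultiplicative.iff_ne_zero]
  constructor
  · simp [M1.be]
  · intro m n _ _ hmn
    simp only [M1.be, ArithmeticFunction.coe_mk]
    rw [ArithmeticFunction.isMultiplicative_moebius.map_mul_of_coprime hmn]
    push_cast
    rw [mul_pow, mul_div_mul_comm]

theorem M1.be2_mult (p : ℕ) : (M1.be2 p).IsMultiplicative := by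
  rw [ArithmeticFunction.IsMultiplicative.iff_ne_zero]
  constructor
  · simp [M1.be2]
  · intro m n _ _ hmn
    simp only [M1.be2, ArithmeticFunction.coe_mk]
    simp only [ArithmeticFunction.isMultiplicative_moebius.map_mul_of_coprime hmn,
      Nat.coprime_mul_iff_left]
    simp only [Nat.Coprime]
    by_cases a3 : m.gcd p = 1 <;> by_cases a4 : n.gcd p = 1 <;> simp [a3, a4]
    rw [mul_pow, mul_div_mul_comm]

theorem M1.fF_mult : M1.fF.IsMultiplicative := by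
  rw [ArithmeticFunction.IsMultiplicative.iff_ne_zero]
  constructor
  · simp [M1.fF, M1.ch_one]
  · intro m n _ _ _
    simp only [M1.fF, ArithmeticFunction.coe_mk]
    rw [M1.ch_mul]
    push_cast
    rw [mul_div_mul_comm]

/-- the density of all solutions as a convolution -/
theorem M1.density (q : ℕ) (hq0 : 0 < q) (hq : Odd q) (ν : ℕ) :
    ch q * M1.rA ν q / (q : ℝ) ^ 2 = (M1.al ν * (M1.be * M1.fF)) q := by
  have hq' : (0 : ℝ) < q := by exact_mod_cast hq0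
  have h1 := M1.rA_eq q hq0 hq ν
  have h2 : M1.al ν * (M1.be * M1.fF) = M1.fF * (M1.be * M1.al ν) := by ring
  have h3 : ∀ g : ℕ, 0 < g → (M1.be * M1.al ν) g = rc g ν / (g : ℝ) ^ 2 := by
    intro g hg
    rw [ArithmeticFunction.mul_apply]
    unfold rc
    push_cast
    rw [sum_div]
    refine sum_congr rfl (fun x hx ↦ ?_)
    rw [Nat.mem_divisorsAntidiagonal] at hx
    have hx1 : (0 : ℝ) < x.1 := by
      have : 0 < x.1 := Nat.pos_of_ne_zero (by rintro h; rw [h, zero_mul] at hx; exact hx.2 hx.1.symm)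
      exact_mod_cast this
    have hx2 : (0 : ℝ) < x.2 := by
      have : 0 < x.2 := Nat.pos_of_ne_zero (by rintro h; rw [h, mul_zero] at hx; exact hx.2 hx.1.symm)
      exact_mod_cast this
    have hgx : (g : ℝ) = x.1 * x.2 := by exact_mod_cast hx.1.symm
    simp only [M1.be, M1.al, ArithmeticFunction.coe_mk]
    have hdv : ((x.2 : ℤ) ∣ (ν : ℤ)) ↔ x.2 ∣ ν := Int.natCast_dvd_natCast
    rw [hgx]
    by_cases h : x.2 ∣ ν
    · rw [if_pos h, if_pos (hdv.mpr h)]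
      field_simp
    · rw [if_neg h, if_neg (fun h' ↦ h (hdv.mp h'))]
      simp
  rw [h2, ArithmeticFunction.mul_apply]
  have h4 : ch q * M1.rA ν q / (q : ℝ) ^ 2 = ch q / (q : ℝ) ^ 3 * ((q : ℝ) * M1.rA ν q) := by
    field_simp
  rw [h4, h1, mul_sum]
  rw [Nat.sum_divisorsAntidiagonal' (fun a b ↦ M1.fF a * (M1.be * M1.al ν) b)]
  refine sum_congr rfl (fun g hg ↦ ?_)
  have hgq := Nat.dvd_of_mem_divisors hg
  have hg0 := Nat.pos_of_dvd_of_pos hgq hq0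
  obtain ⟨f, rfl⟩ := hgq
  have hf0 : 0 < f := Nat.pos_of_ne_zero (by rintro rfl; simp at hq0)
  have hg' : (0 : ℝ) < g := by exact_mod_cast hg0
  have hf' : (0 : ℝ) < f := by exact_mod_cast hf0
  rw [Nat.mul_div_cancel_left _ hg0, h3 g hg0]
  simp only [M1.fF, ArithmeticFunction.coe_mk]
  have hgo : g % 2 = 1 := Nat.odd_iff.mp (Nat.odd_mul.mp hq).1
  have hc := M1.ch_sq hgo
  rw [M1.ch_mul]
  push_cast
  field_simp
  linear_combination (ch f * (rc g ν : ℝ)) * hc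

/-- splitting off the part with `p² ∣ a` -/
theorem M1.split_al (ν p : ℕ) (hp : p.Prime) (d : ℕ) (hd : 0 < d) (G : ArithmeticFunction ℝ) :
    (M1.al ν * G) (p ^ 2 * d) = (M1.al1 ν p * G) (p ^ 2 * d) +
      if p ^ 2 ∣ ν then (M1.al (ν / p ^ 2) * G) d / (p : ℝ) ^ 2 else 0 := by
  have hp0 : 0 < p := hp.pos
  have hp' : (0 : ℝ) < p := by exact_mod_cast hp0
  have hpp : 0 < p ^ 2 := by positivity
  have h1 : (M1.al ν * G) (p ^ 2 * d) = (M1.al1 ν p * G) (p ^ 2 * d) +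
      ∑ x ∈ (p ^ 2 * d).divisorsAntidiagonal,
        (if x.1 ∣ ν ∧ p ^ 2 ∣ x.1 then 1 / (x.1 : ℝ) else 0) * G x.2 := by
    rw [ArithmeticFunction.mul_apply, ArithmeticFunction.mul_apply, ← sum_add_distrib]
    refine sum_congr rfl (fun x _ ↦ ?_)
    simp only [M1.al, M1.al1, ArithmeticFunction.coe_mk]
    by_cases a1 : x.1 ∣ ν <;> by_cases a2 : p ^ 2 ∣ x.1 <;> simp [a1, a2]
  rw [h1]
  congr 1
  split_ifs with hpν
  · obtain ⟨ν', rfl⟩ := hpν
    rw [Nat.mul_div_cancel_left _ hpp, ArithmeticFunction.mul_apply, sum_div]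
    -- keep only the terms with `p² ∣ x.1`
    rw [← sum_filter_of_ne (p := fun x : ℕ × ℕ ↦ p ^ 2 ∣ x.1)]
    · symm
      apply sum_bij (fun (x : ℕ × ℕ) _ ↦ (p ^ 2 * x.1, x.2))
      · intro x hx
        rw [Nat.mem_divisorsAntidiagonal] at hx
        rw [mem_filter, Nat.mem_divisorsAntidiagonal]
        refine ⟨⟨?_, ?_⟩, dvd_mul_right _ _⟩
        · rw [← hx.1]; ring
        · exact (Nat.mul_pos hpp hd).ne'
      · intro x _ y _ h
        simp only [Prod.mk.injEq] at h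
        ext
        · exact Nat.eq_of_mul_eq_mul_left hpp h.1
        · exact h.2
      · intro x hx
        rw [mem_filter, Nat.mem_divisorsAntidiagonal] at hx
        obtain ⟨⟨h2, h3⟩, y, hy⟩ := hx
        refine ⟨(y, x.2), ?_, ?_⟩
        · rw [Nat.mem_divisorsAntidiagonal]
          refine ⟨?_, hd.ne'⟩
          rw [hy, mul_assoc] at h2
          exact Nat.eq_of_mul_eq_mul_left hpp h2
        · ext
          · exact hy.symm
          · rfl
      · intro x _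
        simp only [M1.al, ArithmeticFunction.coe_mk]
        have e : p ^ 2 * x.1 ∣ p ^ 2 * ν' ↔ x.1 ∣ ν' := Nat.mul_dvd_mul_iff_left hpp
        simp only [e, dvd_mul_right, and_true]
        push_cast
        split_ifs
        · by_cases hx0 : (x.1 : ℝ) = 0
          · rw [hx0]; simp
          · field_simp
        · simp
    · intro x _ hx
      by_contra h
      apply hx
      rw [if_neg (fun h' ↦ h h'.2), zero_mul]
  · apply sum_eq_zero
    intro x _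
    rw [if_neg, zero_mul]
    rintro ⟨h2, h3⟩
    exact hpν (h3.trans h2)

/-- convolution at a prime power when the first factor lives on `1, p` -/
theorem M1.conv_pp (f G : ArithmeticFunction ℝ) (p : ℕ) (hp : p.Prime) (m : ℕ) (hf1 : f 1 = 1)
    (hf : ∀ i : ℕ, f (p ^ (i + 2)) = 0) : (f * G) (p ^ (m + 1)) = G (p ^ (m + 1)) + f p * G (p ^ m) := by
  rw [ArithmeticFunction.mul_apply, Nat.sum_divisorsAntidiagonal (fun a b ↦ f a * G b),
    Nat.sum_divisors_prime_pow hp]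
  have h1 : range (m + 1 + 1) = insert 0 (insert 1 ((range m).image (fun i ↦ i + 2))) := by
    ext i
    simp only [mem_insert, mem_image, mem_range]
    constructor
    · intro hi
      rcases Nat.lt_or_ge i 2 with h | h
      · omega
      · right; right; exact ⟨i - 2, by omega, by omega⟩
    · rintro (h | h | ⟨j, hj, h⟩) <;> omega
  rw [h1, sum_insert, sum_insert, sum_image]
  · have h2 : ∑ x ∈ range m, f (p ^ (x + 2)) * G (p ^ (m + 1) / p ^ (x + 2)) = 0 := by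
      apply sum_eq_zero
      intro i _
      rw [hf, zero_mul]
    rw [h2, pow_zero, hf1, one_mul, Nat.div_one, pow_one, add_zero]
    congr 2
    rw [pow_succ, Nat.mul_div_cancel _ hp.pos]
  · intro i _ j _ h
    simpa using h
  · simp
  · simp

theorem M1.conv_pp0 (f G : ArithmeticFunction ℝ) (p : ℕ) (hp : p.Prime) (m : ℕ) (hf1 : f 1 = 1)
    (hf : ∀ i : ℕ, f (p ^ (i + 1)) = 0) : (f * G) (p ^ m) = G (p ^ m) := by
  rw [ArithmeticFunction.mul_apply, Nat.sum_divisorsAntidiagonal (fun a b ↦ f a * G b),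
    Nat.sum_divisors_prime_pow hp, sum_range_succ']
  rw [sum_eq_zero (fun i _ ↦ by rw [hf, zero_mul]), pow_zero, hf1, one_mul, Nat.div_one, zero_add]

theorem M1.conv_congr (f f' G G' : ArithmeticFunction ℝ) (n : ℕ) (hf : ∀ a, a ∣ n → f a = f' a)
    (hG : ∀ a, a ∣ n → G a = G' a) : (f * G) n = (f' * G') n := by
  rw [ArithmeticFunction.mul_apply, ArithmeticFunction.mul_apply]
  refine sum_congr rfl (fun x hx ↦ ?_)
  rw [Nat.mem_divisorsAntidiagonal] at hx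
  rw [hf x.1 ⟨x.2, hx.1.symm⟩, hG x.2 ⟨x.1, by rw [mul_comm]; exact hx.1.symm⟩]

theorem M1.key (ν p : ℕ) (hp : p.Prime) (hp2 : p ≠ 2) (d : ℕ) (hd : 0 < d) :
    (M1.al1 ν p * (M1.be * M1.fF)) (p ^ 2 * d) =
      r4 ν p * (M1.al2 ν p * (M1.be2 p * M1.fF)) d := by
  have hp' : (0 : ℝ) < p := by exact_mod_cast hp.pos
  obtain ⟨k, d', hd', rfl⟩ := Nat.exists_eq_pow_mul_and_not_dvd hd.ne' p hp.ne_one
  have hcop : ∀ j : ℕ, Nat.Coprime (p ^ j) d' := fun j ↦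
    Nat.Coprime.pow_left j ((Nat.Prime.coprime_iff_not_dvd hp).mpr hd')
  have m1 := (M1.al1_mult ν p hp).mul (M1.be_mult.mul M1.fF_mult)
  have m2 := (M1.al2_mult ν p).mul ((M1.be2_mult p).mul M1.fF_mult)
  rw [← mul_assoc (p ^ 2), ← pow_add, m1.map_mul_of_coprime (hcop _), m2.map_mul_of_coprime (hcop _)]
  have hdiv : ∀ a, a ∣ d' → a.Coprime p ∧ ¬ p ^ 2 ∣ a := by
    intro a ha
    constructor
    · rw [Nat.coprime_comm, Nat.Prime.coprime_iff_not_dvd hp]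
      exact fun h ↦ hd' (h.trans ha)
    · exact fun h ↦ hd' (((dvd_pow_self p (by norm_num)).trans h).trans ha)
  have h1 : (M1.al1 ν p * (M1.be * M1.fF)) d' = (M1.al2 ν p * (M1.be2 p * M1.fF)) d' := by
    apply M1.conv_congr
    · intro a ha
      simp only [M1.al1, M1.al2, ArithmeticFunction.coe_mk]
      by_cases h : a ∣ ν
      · rw [if_pos ⟨h, (hdiv a ha).2⟩, if_pos ⟨h, (hdiv a ha).1⟩]
      · rw [if_neg (fun h' ↦ h h'.1), if_neg (fun h' ↦ h h'.1)]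
    · intro a ha
      apply M1.conv_congr
      · intro b hb
        simp only [M1.be, M1.be2, ArithmeticFunction.coe_mk]
        rw [if_pos (hdiv b (hb.trans ha)).1]
      · intro b _
        rfl
  rw [h1, ← mul_assoc (r4 _ _)]
  congr 1
  -- the prime power computation
  have e2 : 2 + k = (k + 1) + 1 := by ring
  have hfp : ∀ m : ℕ, M1.fF (p ^ m) = (ch p / p) ^ m := by
    intro m
    simp only [M1.fF, ArithmeticFunction.coe_mk]
    rw [M1.ch_pow]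
    push_cast
    rw [div_pow]
  have hbe : M1.be p = -(1 / (p : ℝ) ^ 2) := by
    simp only [M1.be, ArithmeticFunction.coe_mk]
    rw [ArithmeticFunction.moebius_apply_prime hp]
    push_cast
    ring
  have hbe1 : M1.be 1 = 1 := by simp [M1.be]
  have hbe0 : ∀ i : ℕ, M1.be (p ^ (i + 2)) = 0 := by
    intro i
    simp only [M1.be, ArithmeticFunction.coe_mk]
    rw [ArithmeticFunction.moebius_apply_prime_pow hp (by omega), if_neg (by omega)]
    simp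
  have hal1 : M1.al1 ν p 1 = 1 := (M1.al1_mult ν p hp).map_one
  have halp : M1.al1 ν p p = if p ∣ ν then 1 / (p : ℝ) else 0 := by
    simp only [M1.al1, ArithmeticFunction.coe_mk]
    have : ¬ p ^ 2 ∣ p := by
      intro h
      have h1 := Nat.le_of_dvd hp.pos h
      have h2 := hp.two_le
      nlinarith
    simp only [this, not_false_eq_true, and_true]
  have hal0 : ∀ i : ℕ, M1.al1 ν p (p ^ (i + 2)) = 0 := by
    intro i
    simp only [M1.al1, ArithmeticFunction.coe_mk]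
    rw [if_neg]
    rintro ⟨_, h⟩
    exact h (pow_dvd_pow p (by omega))
  rw [e2, M1.conv_pp _ _ p hp _ hal1 hal0, M1.conv_pp _ _ p hp _ hbe1 hbe0,
    M1.conv_pp _ _ p hp _ hbe1 hbe0, halp, hbe]
  have h21 : M1.al2 ν p 1 = 1 := (M1.al2_mult ν p).map_one
  have h20 : ∀ i : ℕ, M1.al2 ν p (p ^ (i + 1)) = 0 := by
    intro i
    simp only [M1.al2, ArithmeticFunction.coe_mk]
    rw [if_neg]
    rintro ⟨_, h⟩
    have h1 : p.Coprime p := Nat.Coprime.coprime_dvd_left (dvd_pow_self p (by omega)) h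
    rw [Nat.coprime_self] at h1
    exact hp.one_lt.ne' h1
  have h31 : M1.be2 p 1 = 1 := (M1.be2_mult p).map_one
  have h30 : ∀ i : ℕ, M1.be2 p (p ^ (i + 1)) = 0 := by
    intro i
    simp only [M1.be2, ArithmeticFunction.coe_mk]
    rw [if_neg]
    intro h
    have h1 : p.Coprime p := Nat.Coprime.coprime_dvd_left (dvd_pow_self p (by omega)) h
    rw [Nat.coprime_self] at h1
    exact hp.one_lt.ne' h1
  rw [M1.conv_pp0 _ _ p hp _ h21 h20, M1.conv_pp0 _ _ p hp _ h31 h30]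
  simp only [hfp]
  have hodd : p % 2 = 1 := Nat.odd_iff.mp (hp.odd_of_ne_two hp2)
  have hc := M1.ch_sq hodd
  unfold r4
  have hdv : ((p : ℤ) ∣ (ν : ℤ)) ↔ p ∣ ν := Int.natCast_dvd_natCast
  by_cases h : p ∣ ν
  · rw [if_pos h, if_pos (hdv.mpr h)]
    rcases (by omega : p % 4 = 1 ∨ p % 4 = 3) with h4 | h4
    · have hc1 : ch p = 1 := by
        unfold ch
        rw [ZMod.χ₄_nat_one_mod_four h4]
        simp
      rw [hc1, if_pos h4]
      rw [pow_succ, pow_succ]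
      field_simp
      ring
    · have hc1 : ch p = -1 := by
        unfold ch
        rw [ZMod.χ₄_nat_three_mod_four h4]
        simp
      rw [hc1, if_neg (by omega)]
      rw [pow_succ, pow_succ]
      field_simp
      ring
  · rw [if_neg h, if_neg (fun h' ↦ h (hdv.mp h'))]
    rw [pow_succ, pow_succ]
    have : (ch p / p) ^ k * (ch p / p) * (ch p / (p : ℝ)) + -(1 / (p : ℝ) ^ 2) *
        ((ch p / p) ^ k * (ch p / p)) + 0 * ((ch p / p) ^ k * (ch p / p) + -(1 / (p : ℝ) ^ 2) *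
        (ch p / p) ^ k) = (ch p / p) ^ k * ((ch p * ch p) / (p : ℝ) ^ 2 - ch p / (p : ℝ) ^ 3) := by
      field_simp
      ring
    rw [this, hc]
    field_simp

theorem stRho : StRho := by
  intro p _ d hp2 hd ν hν
  have hp : p.Prime := Fact.out
  have hd0 : 0 < d := by omega
  have hp' : (0 : ℝ) < p := by exact_mod_cast hp.pos
  have hd' : (0 : ℝ) < d := by exact_mod_cast hd0
  have hpodd : Odd p := hp.odd_of_ne_two hp2
  have hdodd : Odd d := Nat.odd_iff.mpr hd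
  have hodd : Odd (p ^ 2 * d) := (hpodd.pow).mul hdodd
  have hpos : 0 < p ^ 2 * d := Nat.mul_pos (pow_pos hp.pos 2) hd0
  -- the right hand side as a convolution
  have hR : (M1.al2 ν p * (M1.be2 p * M1.fF)) d =
      ∑ a ∈ d.divisors.filter (fun a ↦ a ∣ ν ∧ a.Coprime p),
      ∑ b ∈ (d / a).divisors.filter (fun b ↦ b.Coprime p),
        (ArithmeticFunction.moebius b : ℝ) / ((a : ℝ) * (b : ℝ) ^ 2) *
          (ch (d / a / b) / ((d / a / b : ℕ) : ℝ)) := by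
    rw [ArithmeticFunction.mul_apply, Nat.sum_divisorsAntidiagonal
      (fun a b ↦ M1.al2 ν p a * (M1.be2 p * M1.fF) b), sum_filter]
    refine sum_congr rfl (fun a _ ↦ ?_)
    simp only [M1.al2, ArithmeticFunction.coe_mk]
    split_ifs with h
    · rw [ArithmeticFunction.mul_apply, Nat.sum_divisorsAntidiagonal
        (fun a b ↦ M1.be2 p a * M1.fF b), sum_filter, mul_sum]
      refine sum_congr rfl (fun b _ ↦ ?_)
      simp only [M1.be2, M1.fF, ArithmeticFunction.coe_mk]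
      split_ifs with h'
      · rw [← mul_assoc]
        congr 1
        rw [one_div, inv_mul_eq_div, div_div, mul_comm (a : ℝ)]
      · simp
    · rw [zero_mul]
  rw [← hR, ← M1.key ν p hp hp2 d hd0]
  have h1 := M1.density (p ^ 2 * d) hpos hodd ν
  have h2 := M1.rA_split p hp d ν
  have h3 := M1.split_al ν p hp d hd0 (M1.be * M1.fF)
  have hch : ch (p ^ 2 * d) = ch d := by
    rw [M1.ch_mul, M1.ch_pow, sq, M1.ch_sq (Nat.odd_iff.mp hpodd), one_mul]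
  rw [h3, hch, h2] at h1
  have h4 : ch d * rhoN ν p (p ^ 2 * d) / ((p ^ 2 * d : ℕ) : ℝ) ^ 2 =
      ch d * (rhoN ν p (p ^ 2 * d) + if p ^ 2 ∣ ν then (p : ℝ) ^ 2 * M1.rA ((ν / p ^ 2 : ℕ) : ℤ) d else 0) /
        ((p ^ 2 * d : ℕ) : ℝ) ^ 2 -
      if p ^ 2 ∣ ν then (M1.al (ν / p ^ 2) * (M1.be * M1.fF)) d / (p : ℝ) ^ 2 else 0 := by
    rw [← M1.density d hd0 hdodd (ν / p ^ 2)]
    push_cast
    split_ifs
    · field_simp
      ring
    · ring
  rw [h4, h1]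
  ring

end Pool.Agent.TFS
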