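import Pool.Agent.Lib.TFS.StmtsC

/-!
Bounds for multiplicative functions from bounds at prime powers.
-/

set_option autoImplicit false

open Finset

namespace Pool.Agent.TFS

theorem mult_bound_aux (f : ℕ → ℝ) (s : ℝ) (c : ℕ → ℝ) (hf1 : f 1 = 1) (hf0 : ∀ n, 0 ≤ f n)
    (hmul : ∀ m n : ℕ, m.Coprime n → f (m * n) = f m * f n)
    (h : ∀ p a : ℕ, p.Prime → 0 < a → f (p ^ a) ≤ c p * ((p ^ a : ℕ) : ℝ) ^ s) :
    ∀ m : ℕ, m ≠ 0 → f m ≤ (∏ p ∈ m.primeFactors, c p) * (m : ℝ) ^ s := by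
  intro m
  induction m using Nat.recOnPosPrimePosCoprime with
  | prime_pow p n hp hn =>
    intro _
    rw [Nat.primeFactors_prime_pow hn.ne' hp, prod_singleton]
    exact h p n hp hn
  | zero => intro h0; exact absurd rfl h0
  | one => intro _; simp [hf1]
  | coprime a b ha hb hab iha ihb =>
    intro _
    have h1 := iha (by omega)
    have h2 := ihb (by omega)
    rw [hmul a b hab, hab.primeFactors_mul, prod_union hab.disjoint_primeFactors]
    push_cast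
    rw [Real.mul_rpow (Nat.cast_nonneg _) (Nat.cast_nonneg _)]
    calc f a * f b ≤ ((∏ p ∈ a.primeFactors, c p) * (a : ℝ) ^ s) *
        ((∏ p ∈ b.primeFactors, c p) * (b : ℝ) ^ s) :=
          mul_le_mul h1 h2 (hf0 _) ((hf0 _).trans h1)
      _ = _ := by ring

/-- bound of a multiplicative function from bounds at prime powers -/
theorem mult_bound (f : ℕ → ℝ) (s : ℝ) (c : ℕ → ℝ) (S : Finset ℕ) (hf1 : f 1 = 1)
    (hf0 : ∀ n, 0 ≤ f n) (hmul : ∀ m n : ℕ, m.Coprime n → f (m * n) = f m * f n)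
    (hc : ∀ p ∈ S, 1 ≤ c p)
    (h1 : ∀ p a : ℕ, p.Prime → 0 < a → p ∈ S → f (p ^ a) ≤ c p * ((p ^ a : ℕ) : ℝ) ^ s)
    (h2 : ∀ p a : ℕ, p.Prime → 0 < a → p ∉ S → f (p ^ a) ≤ ((p ^ a : ℕ) : ℝ) ^ s) :
    ∀ m : ℕ, m ≠ 0 → f m ≤ (∏ p ∈ S, c p) * (m : ℝ) ^ s := by
  intro m hm
  have h3 := mult_bound_aux f s (fun p ↦ if p ∈ S then c p else 1) hf1 hf0 hmul (by
    intro p a hp ha
    by_cases hpS : p ∈ S
    · simpa [hpS] using h1 p a hp ha hpS
    · simpa [hpS] using h2 p a hp ha hpS) m hm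
  refine h3.trans (mul_le_mul_of_nonneg_right ?_ (Real.rpow_nonneg (Nat.cast_nonneg _) _))
  rw [prod_ite, prod_const_one, mul_one]
  have hsub : m.primeFactors.filter (fun p ↦ p ∈ S) ⊆ S := by
    intro p hp
    rw [mem_filter] at hp
    exact hp.2
  have hpos : 0 ≤ ∏ p ∈ m.primeFactors.filter (fun p ↦ p ∈ S), c p :=
    prod_nonneg fun p hp ↦ le_trans zero_le_one (hc p (hsub hp))
  have h4 : (1 : ℝ) ≤ ∏ p ∈ S \ m.primeFactors.filter (fun p ↦ p ∈ S), c p := by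
    rw [← prod_const_one (s := S \ m.primeFactors.filter (fun p ↦ p ∈ S)) (ι := ℕ)]
    exact prod_le_prod (fun _ _ ↦ zero_le_one) (fun p hp ↦ hc p (mem_sdiff.1 hp).1)
  rw [← prod_sdiff hsub]
  nlinarith

end Pool.Agent.TFS
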