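import Pool.Agent.Lib.TFS.StmtsN

/-!
N2, N3: weighted sums over the primes between 1000 and 10^6, kernel friendly definitions.
-/

set_option autoImplicit false

open Finset

namespace Pool.Agent.TFS

namespace NK

/-- the product of the primes up to 997 -/
def PP : ℕ := 19590340644999083431262508198206381046123972390589368223882605328968666316379870661851951648789482321596229559115436019149189529725215266728292282990852649023362731392404017939142010958261393634959471483757196721672243410067118516227661133135192488848989914892157188308679896875137439519338903968094905549750386407106033836586660683539201011635917900039904495065203299749542985993134669814805318474080581207891125910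

/-- the weight of a candidate -/
def tw (g : ℕ → ℕ) (x : ℕ) : ℕ := cond (Nat.beq (Nat.gcd x PP) 1) (g x) 0

/-- the weighted sum over the candidates in `[a, a + 6 * 2 ^ k)` -/
noncomputable def sm (g : ℕ → ℕ) (k : ℕ) : ℕ → ℕ :=
  Nat.rec (fun a ↦ tw g (a + 1) + tw g (a + 5)) (fun k ih a ↦ ih a + ih (a + 6 * 2 ^ k)) k

/-- weight for `x ^ (-1/2)`, scaled by `10 ^ 12` -/
def gs (s x : ℕ) : ℕ := 10 ^ 12 * (x + s * s) / (2 * s * x) + 1

/-- weight for `x ^ (-2)`, scaled by `10 ^ 18` -/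
def gq (x : ℕ) : ℕ := 10 ^ 18 / (x * x) + 1

theorem sm_zero (g : ℕ → ℕ) (a : ℕ) : sm g 0 a = tw g (a + 1) + tw g (a + 5) := rfl

theorem sm_succ (g : ℕ → ℕ) (k a : ℕ) : sm g (k + 1) a = sm g k a + sm g k (a + 6 * 2 ^ k) := rfl

theorem PP_dvd : PP ∣ Nat.factorial 1000 := by decide +kernel

theorem tw_prime (g : ℕ → ℕ) (p : ℕ) (hp : p.Prime) (h : 1000 < p) : tw g p = g p := by
  have h1 : Nat.gcd p PP = 1 := by
    rw [← Nat.coprime_iff_gcd_eq_one, hp.coprime_iff_not_dvd]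
    intro h2
    have h3 := (hp.dvd_factorial).1 (h2.trans PP_dvd)
    omega
  unfold tw
  rw [h1]
  rfl

theorem prime_mod_six (p : ℕ) (hp : p.Prime) (h : 1000 < p) : p % 6 = 1 ∨ p % 6 = 5 := by
  have h2 : ¬ 2 ∣ p := by
    intro h2
    have := (Nat.prime_dvd_prime_iff_eq Nat.prime_two hp).1 h2
    omega
  have h3 : ¬ 3 ∣ p := by
    intro h2
    have := (Nat.prime_dvd_prime_iff_eq Nat.prime_three hp).1 h2
    omega
  omega

theorem sm_bound (g : ℕ → ℕ) (k : ℕ) : ∀ (a : ℕ), a % 6 = 0 → ∀ S : Finset ℕ,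
    (∀ p ∈ S, p.Prime ∧ 1000 < p ∧ a ≤ p ∧ p < a + 6 * 2 ^ k) → ∑ p ∈ S, g p ≤ sm g k a := by
  induction k with
  | zero =>
    intro a ha S hS
    rw [sm_zero]
    have h1 : ∑ p ∈ S, g p = ∑ p ∈ S, tw g p := by
      refine Finset.sum_congr rfl (fun p hp ↦ ?_)
      rw [tw_prime g p (hS p hp).1 (hS p hp).2.1]
    rw [h1]
    have h2 : S ⊆ {a + 1, a + 5} := by
      intro p hp
      obtain ⟨q1, q2, q3, q4⟩ := hS p hp
      have := prime_mod_six p q1 q2
      simp only [Finset.mem_insert, Finset.mem_singleton]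
      simp only [pow_zero] at q4
      omega
    calc ∑ p ∈ S, tw g p ≤ ∑ p ∈ {a + 1, a + 5}, tw g p :=
          Finset.sum_le_sum_of_subset h2
      _ = tw g (a + 1) + tw g (a + 5) := by
          rw [Finset.sum_pair (by omega)]
  | succ k ih =>
    intro a ha S hS
    rw [sm_succ, ← Finset.sum_filter_add_sum_filter_not S (fun p ↦ p < a + 6 * 2 ^ k)]
    refine Nat.add_le_add (ih a ha _ ?_) (ih _ ?_ _ ?_)
    · intro p hp
      rw [Finset.mem_filter] at hp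
      obtain ⟨q1, q2, q3, q4⟩ := hS p hp.1
      exact ⟨q1, q2, q3, hp.2⟩
    · omega
    · intro p hp
      rw [Finset.mem_filter] at hp
      obtain ⟨q1, q2, q3, q4⟩ := hS p hp.1
      rw [pow_succ] at q4
      exact ⟨q1, q2, by omega, by omega⟩

/-- the sum of `F` over the primes in `[A, B)` above 1000 is at most `v / D` -/
def Bd (F : ℕ → ℝ) (D : ℝ) (A B v : ℕ) : Prop := ∀ S : Finset ℕ,
  (∀ p ∈ S, p.Prime ∧ 1000 < p ∧ A ≤ p ∧ p < B) → ∑ p ∈ S, F p ≤ (v : ℝ) / D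

theorem Bd.trans {F : ℕ → ℝ} {D : ℝ} {A B C v w : ℕ} (h1 : Bd F D A B v) (h2 : Bd F D B C w) :
    Bd F D A C (v + w) := by
  intro S hS
  rw [← Finset.sum_filter_add_sum_filter_not S (fun p ↦ p < B)]
  have e : ((v + w : ℕ) : ℝ) / D = (v : ℝ) / D + (w : ℝ) / D := by push_cast; ring
  rw [e]
  refine add_le_add (h1 _ ?_) (h2 _ ?_)
  · intro p hp
    rw [Finset.mem_filter] at hp
    obtain ⟨q1, q2, q3, q4⟩ := hS p hp.1
    exact ⟨q1, q2, q3, hp.2⟩
  · intro p hp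
    rw [Finset.mem_filter] at hp
    obtain ⟨q1, q2, q3, q4⟩ := hS p hp.1
    exact ⟨q1, q2, by omega, q4⟩

theorem Bd.piece (F : ℕ → ℝ) (D : ℝ) (g : ℕ → ℕ) (hD : 0 < D)
    (hF : ∀ x : ℕ, 1000 < x → F x ≤ (g x : ℝ) / D) (k a v : ℕ) (ha : a % 6 = 0)
    (h : sm g k a ≤ v) : Bd F D a (a + 6 * 2 ^ k) v := by
  intro S hS
  have h1 := sm_bound g k a ha S hS
  calc ∑ p ∈ S, F p ≤ ∑ p ∈ S, (g p : ℝ) / D := Finset.sum_le_sum (fun p hp ↦ hF p (hS p hp).2.1)
    _ = ((∑ p ∈ S, g p : ℕ) : ℝ) / D := by rw [← Finset.sum_div]; push_cast; rfl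
    _ ≤ (v : ℝ) / D := by
        refine div_le_div_of_nonneg_right ?_ hD.le
        exact_mod_cast h1.trans h

/-- the function `x ^ (-1/2)` -/
noncomputable def fs (x : ℕ) : ℝ := 1 / √(x : ℝ)

/-- the function `x ^ (-2)` -/
noncomputable def fq (x : ℕ) : ℝ := 1 / (x : ℝ) ^ 2

theorem cast_div_le (a b : ℕ) : (a : ℝ) / b ≤ ((a / b + 1 : ℕ) : ℝ) := by
  have h6 := Nat.lt_floor_add_one ((a : ℝ) / b)
  rw [Nat.floor_div_eq_div] at h6
  push_cast
  exact h6.le

theorem fs_le (s : ℕ) (hs : 0 < s) (x : ℕ) (hx : 1000 < x) : fs x ≤ (gs s x : ℝ) / 10 ^ 12 := by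
  have hx0 : (0 : ℝ) < x := by exact_mod_cast (by omega : 0 < x)
  have hs0 : (0 : ℝ) < s := by exact_mod_cast hs
  have h1 : fs x ≤ ((x : ℝ) + s * s) / (2 * s * x) := by
    unfold fs
    have hsq : 0 < √(x : ℝ) := Real.sqrt_pos.2 hx0
    have hsx : √(x : ℝ) * √(x : ℝ) = x := Real.mul_self_sqrt hx0.le
    rw [div_le_div_iff₀ hsq (by positivity)]
    have h3 : 2 * s * √(x : ℝ) ≤ x + s * s := by nlinarith [sq_nonneg (√(x : ℝ) - s)]
    have h4 : 1 * (2 * (s : ℝ) * x) = √(x : ℝ) * (2 * s * √(x : ℝ)) := by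
      rw [show √(x : ℝ) * (2 * s * √(x : ℝ)) = 2 * s * (√(x : ℝ) * √(x : ℝ)) by ring, hsx]; ring
    rw [h4, mul_comm ((x : ℝ) + s * s)]
    exact mul_le_mul_of_nonneg_left h3 hsq.le
  refine h1.trans ?_
  rw [le_div_iff₀ (by positivity)]
  have h5 : (10 ^ 12 * ((x : ℝ) + s * s)) / (2 * s * x) ≤ (gs s x : ℝ) := by
    have h6 := cast_div_le (10 ^ 12 * (x + s * s)) (2 * s * x)
    unfold gs
    refine le_trans (le_of_eq ?_) h6
    push_cast
    norm_num
  calc ((x : ℝ) + s * s) / (2 * s * x) * 10 ^ 12 = (10 ^ 12 * ((x : ℝ) + s * s)) / (2 * s * x) := by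
        ring
    _ ≤ _ := h5

theorem fq_le (x : ℕ) (hx : 1000 < x) : fq x ≤ (gq x : ℝ) / 10 ^ 18 := by
  have hx0 : (0 : ℝ) < x := by exact_mod_cast (by omega : 0 < x)
  unfold fq
  rw [le_div_iff₀ (by positivity)]
  have h5 : (10 ^ 18) / ((x : ℝ) * x) ≤ (gq x : ℝ) := by
    have h6 := cast_div_le (10 ^ 18) (x * x)
    unfold gq
    refine le_trans (le_of_eq ?_) h6
    push_cast
    norm_num
  calc 1 / (x : ℝ) ^ 2 * 10 ^ 18 = (10 ^ 18) / ((x : ℝ) * x) := by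
        rw [pow_two]; ring
    _ ≤ _ := h5

theorem Bd.ps (s k a v : ℕ) (hs : 0 < s) (ha : a % 6 = 0) (h : sm (gs s) k a ≤ v) :
    Bd fs (10 ^ 12) a (a + 6 * 2 ^ k) v :=
  Bd.piece fs (10 ^ 12) (gs s) (by norm_num) (fs_le s hs) k a v ha h

theorem Bd.pq (k a v : ℕ) (ha : a % 6 = 0) (h : sm gq k a ≤ v) :
    Bd fq (10 ^ 18) a (a + 6 * 2 ^ k) v :=
  Bd.piece fq (10 ^ 18) gq (by norm_num) fq_le k a v ha h

end NK

end Pool.Agent.TFS
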