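import Pool.Agent.Lib.TFS.N2Base

/-!
Kernel computations for N2.
-/

set_option autoImplicit false

open Finset

namespace Pool.Agent.TFS

namespace NK

theorem c0_0 : sm (gs 33) 7 768 ≤ 2103287265634 := by decide +kernel

theorem c0_1 : sm (gs 47) 8 1536 ≤ 4197014555255 := by decide +kernel

theorem c0_2 : sm (gs 67) 9 3072 ≤ 5446184954264 := by decide +kernel

theorem c0_3 : sm (gs 95) 10 6144 ≤ 7112832023122 := by decide +kernel

theorem c0_4 : sm (gs 134) 11 12288 ≤ 9451067890094 := by decide +kernel

theorem c0_5 : sm (gs 189) 12 24576 ≤ 12372511816238 := by decide +kernel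

theorem c0_6 : sm (gs 232) 11 49152 ≤ 4809643727491 := by decide +kernel

theorem c0_7 : sm (gs 250) 10 61440 ≤ 2185912665650 := by decide +kernel

theorem c0_8 : sm (gs 259) 9 67584 ≤ 1008013415283 := by decide +kernel

theorem bs0_0 : Bd fs (10 ^ 12) 768 1536 2103287265634 := (Bd.ps 33 7 768 2103287265634 (by norm_num) (by norm_num) c0_0)

theorem bs0_1 : Bd fs (10 ^ 12) 768 3072 6300301820889 := bs0_0.trans (Bd.ps 47 8 1536 4197014555255 (by norm_num) (by norm_num) c0_1)

theorem bs0_2 : Bd fs (10 ^ 12) 768 6144 11746486775153 := bs0_1.trans (Bd.ps 67 9 3072 5446184954264 (by norm_num) (by norm_num) c0_2)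

theorem bs0_3 : Bd fs (10 ^ 12) 768 12288 18859318798275 := bs0_2.trans (Bd.ps 95 10 6144 7112832023122 (by norm_num) (by norm_num) c0_3)

theorem bs0_4 : Bd fs (10 ^ 12) 768 24576 28310386688369 := bs0_3.trans (Bd.ps 134 11 12288 9451067890094 (by norm_num) (by norm_num) c0_4)

theorem bs0_5 : Bd fs (10 ^ 12) 768 49152 40682898504607 := bs0_4.trans (Bd.ps 189 12 24576 12372511816238 (by norm_num) (by norm_num) c0_5)

theorem bs0_6 : Bd fs (10 ^ 12) 768 61440 45492542232098 := bs0_5.trans (Bd.ps 232 11 49152 4809643727491 (by norm_num) (by norm_num) c0_6)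

theorem bs0_7 : Bd fs (10 ^ 12) 768 67584 47678454897748 := bs0_6.trans (Bd.ps 250 10 61440 2185912665650 (by norm_num) (by norm_num) c0_7)

theorem bs0_8 : Bd fs (10 ^ 12) 768 70656 48686468313031 := bs0_7.trans (Bd.ps 259 9 67584 1008013415283 (by norm_num) (by norm_num) c0_8)

theorem c1_0 : sm (gs 284) 12 70656 ≤ 7603984570013 := by decide +kernel

theorem c1_1 : sm (gs 323) 12 95232 ≤ 6426493071280 := by decide +kernel

theorem c1_2 : sm (gs 358) 12 119808 ≤ 5761626060139 := by decide +kernel

theorem c1_3 : sm (gs 390) 12 144384 ≤ 5152147025555 := by decide +kernel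

theorem c1_4 : sm (gs 419) 12 168960 ≤ 4817589622506 := by decide +kernel

theorem c1_5 : sm (gs 437) 10 193536 ≤ 1127787966395 := by decide +kernel

theorem c1_6 : sm (gs 441) 7 199680 ≤ 145337460364 := by decide +kernel

theorem bs1_0 : Bd fs (10 ^ 12) 70656 95232 7603984570013 := (Bd.ps 284 12 70656 7603984570013 (by norm_num) (by norm_num) c1_0)

theorem bs1_1 : Bd fs (10 ^ 12) 70656 119808 14030477641293 := bs1_0.trans (Bd.ps 323 12 95232 6426493071280 (by norm_num) (by norm_num) c1_1)

theorem bs1_2 : Bd fs (10 ^ 12) 70656 144384 19792103701432 := bs1_1.trans (Bd.ps 358 12 119808 5761626060139 (by norm_num) (by norm_num) c1_2)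

theorem bs1_3 : Bd fs (10 ^ 12) 70656 168960 24944250726987 := bs1_2.trans (Bd.ps 390 12 144384 5152147025555 (by norm_num) (by norm_num) c1_3)

theorem bs1_4 : Bd fs (10 ^ 12) 70656 193536 29761840349493 := bs1_3.trans (Bd.ps 419 12 168960 4817589622506 (by norm_num) (by norm_num) c1_4)

theorem bs1_5 : Bd fs (10 ^ 12) 70656 199680 30889628315888 := bs1_4.trans (Bd.ps 437 10 193536 1127787966395 (by norm_num) (by norm_num) c1_5)

theorem bs1_6 : Bd fs (10 ^ 12) 70656 200448 31034965776252 := bs1_5.trans (Bd.ps 441 7 199680 145337460364 (by norm_num) (by norm_num) c1_6)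

theorem c2_0 : sm (gs 454) 12 200448 ≤ 4336887366195 := by decide +kernel

theorem c2_1 : sm (gs 480) 12 225024 ≤ 4093047631101 := by decide +kernel

theorem c2_2 : sm (gs 504) 12 249600 ≤ 3829452164355 := by decide +kernel

theorem c2_3 : sm (gs 527) 12 274176 ≤ 3608125301050 := by decide +kernel

theorem c2_4 : sm (gs 549) 12 298752 ≤ 3524617647728 := by decide +kernel

theorem c2_5 : sm (gs 571) 12 323328 ≤ 3348471955086 := by decide +kernel

theorem c2_6 : sm (gs 591) 12 347904 ≤ 3165807300699 := by decide +kernel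

theorem c2_7 : sm (gs 611) 12 372480 ≤ 3096187491465 := by decide +kernel

theorem c2_8 : sm (gs 630) 12 397056 ≤ 2946852806189 := by decide +kernel

theorem c2_9 : sm (gs 649) 12 421632 ≤ 2912416078911 := by decide +kernel

theorem c2_10 : sm (gs 667) 12 446208 ≤ 2751554495637 := by decide +kernel

theorem c2_11 : sm (gs 685) 12 470784 ≤ 2714170621901 := by decide +kernel

theorem c2_12 : sm (gs 702) 12 495360 ≤ 2636275219144 := by decide +kernel

theorem c2_13 : sm (gs 719) 12 519936 ≤ 2546100157031 := by decide +kernel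

theorem c2_14 : sm (gs 735) 12 544512 ≤ 2461004515287 := by decide +kernel

theorem c2_15 : sm (gs 751) 12 569088 ≤ 2464864824627 := by decide +kernel

theorem c2_16 : sm (gs 767) 12 593664 ≤ 2385838195655 := by decide +kernel

theorem c2_17 : sm (gs 782) 12 618240 ≤ 2254746014762 := by decide +kernel

theorem c2_18 : sm (gs 797) 12 642816 ≤ 2281237884422 := by decide +kernel

theorem c2_19 : sm (gs 812) 12 667392 ≤ 2218881224958 := by decide +kernel

theorem c2_20 : sm (gs 827) 12 691968 ≤ 2190555625689 := by decide +kernel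

theorem c2_21 : sm (gs 841) 12 716544 ≤ 2134484687078 := by decide +kernel

theorem c2_22 : sm (gs 855) 12 741120 ≤ 2074956333447 := by decide +kernel

theorem c2_23 : sm (gs 869) 12 765696 ≤ 2058105389978 := by decide +kernel

theorem c2_24 : sm (gs 882) 12 790272 ≤ 2025309141539 := by decide +kernel

theorem c2_25 : sm (gs 896) 12 814848 ≤ 1982897588776 := by decide +kernel

theorem c2_26 : sm (gs 909) 12 839424 ≤ 1943154471892 := by decide +kernel

theorem c2_27 : sm (gs 922) 12 864000 ≤ 1942463930748 := by decide +kernel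

theorem c2_28 : sm (gs 935) 12 888576 ≤ 1891360146569 := by decide +kernel

theorem c2_29 : sm (gs 947) 12 913152 ≤ 1847435340768 := by decide +kernel

theorem c2_30 : sm (gs 960) 12 937728 ≤ 1813151314721 := by decide +kernel

theorem c2_31 : sm (gs 972) 12 962304 ≤ 1791220240079 := by decide +kernel

theorem c2_32 : sm (gs 981) 11 986880 ≤ 886167935272 := by decide +kernel

theorem c2_33 : sm (gs 986) 10 999168 ≤ 447553712838 := by decide +kernel

theorem c2_34 : sm (gs 988) 8 1005312 ≤ 114665838557 := by decide +kernel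

theorem c2_35 : sm (gs 988) 7 1006848 ≤ 55806014781 := by decide +kernel

theorem bs2_0 : Bd fs (10 ^ 12) 200448 225024 4336887366195 := (Bd.ps 454 12 200448 4336887366195 (by norm_num) (by norm_num) c2_0)

theorem bs2_1 : Bd fs (10 ^ 12) 200448 249600 8429934997296 := bs2_0.trans (Bd.ps 480 12 225024 4093047631101 (by norm_num) (by norm_num) c2_1)

theorem bs2_2 : Bd fs (10 ^ 12) 200448 274176 12259387161651 := bs2_1.trans (Bd.ps 504 12 249600 3829452164355 (by norm_num) (by norm_num) c2_2)

theorem bs2_3 : Bd fs (10 ^ 12) 200448 298752 15867512462701 := bs2_2.trans (Bd.ps 527 12 274176 3608125301050 (by norm_num) (by norm_num) c2_3)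

theorem bs2_4 : Bd fs (10 ^ 12) 200448 323328 19392130110429 := bs2_3.trans (Bd.ps 549 12 298752 3524617647728 (by norm_num) (by norm_num) c2_4)

theorem bs2_5 : Bd fs (10 ^ 12) 200448 347904 22740602065515 := bs2_4.trans (Bd.ps 571 12 323328 3348471955086 (by norm_num) (by norm_num) c2_5)

theorem bs2_6 : Bd fs (10 ^ 12) 200448 372480 25906409366214 := bs2_5.trans (Bd.ps 591 12 347904 3165807300699 (by norm_num) (by norm_num) c2_6)

theorem bs2_7 : Bd fs (10 ^ 12) 200448 397056 29002596857679 := bs2_6.trans (Bd.ps 611 12 372480 3096187491465 (by norm_num) (by norm_num) c2_7)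

theorem bs2_8 : Bd fs (10 ^ 12) 200448 421632 31949449663868 := bs2_7.trans (Bd.ps 630 12 397056 2946852806189 (by norm_num) (by norm_num) c2_8)

theorem bs2_9 : Bd fs (10 ^ 12) 200448 446208 34861865742779 := bs2_8.trans (Bd.ps 649 12 421632 2912416078911 (by norm_num) (by norm_num) c2_9)

theorem bs2_10 : Bd fs (10 ^ 12) 200448 470784 37613420238416 := bs2_9.trans (Bd.ps 667 12 446208 2751554495637 (by norm_num) (by norm_num) c2_10)

theorem bs2_11 : Bd fs (10 ^ 12) 200448 495360 40327590860317 := bs2_10.trans (Bd.ps 685 12 470784 2714170621901 (by norm_num) (by norm_num) c2_11)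

theorem bs2_12 : Bd fs (10 ^ 12) 200448 519936 42963866079461 := bs2_11.trans (Bd.ps 702 12 495360 2636275219144 (by norm_num) (by norm_num) c2_12)

theorem bs2_13 : Bd fs (10 ^ 12) 200448 544512 45509966236492 := bs2_12.trans (Bd.ps 719 12 519936 2546100157031 (by norm_num) (by norm_num) c2_13)

theorem bs2_14 : Bd fs (10 ^ 12) 200448 569088 47970970751779 := bs2_13.trans (Bd.ps 735 12 544512 2461004515287 (by norm_num) (by norm_num) c2_14)

theorem bs2_15 : Bd fs (10 ^ 12) 200448 593664 50435835576406 := bs2_14.trans (Bd.ps 751 12 569088 2464864824627 (by norm_num) (by norm_num) c2_15)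

theorem bs2_16 : Bd fs (10 ^ 12) 200448 618240 52821673772061 := bs2_15.trans (Bd.ps 767 12 593664 2385838195655 (by norm_num) (by norm_num) c2_16)

theorem bs2_17 : Bd fs (10 ^ 12) 200448 642816 55076419786823 := bs2_16.trans (Bd.ps 782 12 618240 2254746014762 (by norm_num) (by norm_num) c2_17)

theorem bs2_18 : Bd fs (10 ^ 12) 200448 667392 57357657671245 := bs2_17.trans (Bd.ps 797 12 642816 2281237884422 (by norm_num) (by norm_num) c2_18)

theorem bs2_19 : Bd fs (10 ^ 12) 200448 691968 59576538896203 := bs2_18.trans (Bd.ps 812 12 667392 2218881224958 (by norm_num) (by norm_num) c2_19)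

theorem bs2_20 : Bd fs (10 ^ 12) 200448 716544 61767094521892 := bs2_19.trans (Bd.ps 827 12 691968 2190555625689 (by norm_num) (by norm_num) c2_20)

theorem bs2_21 : Bd fs (10 ^ 12) 200448 741120 63901579208970 := bs2_20.trans (Bd.ps 841 12 716544 2134484687078 (by norm_num) (by norm_num) c2_21)

theorem bs2_22 : Bd fs (10 ^ 12) 200448 765696 65976535542417 := bs2_21.trans (Bd.ps 855 12 741120 2074956333447 (by norm_num) (by norm_num) c2_22)

theorem bs2_23 : Bd fs (10 ^ 12) 200448 790272 68034640932395 := bs2_22.trans (Bd.ps 869 12 765696 2058105389978 (by norm_num) (by norm_num) c2_23)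

theorem bs2_24 : Bd fs (10 ^ 12) 200448 814848 70059950073934 := bs2_23.trans (Bd.ps 882 12 790272 2025309141539 (by norm_num) (by norm_num) c2_24)

theorem bs2_25 : Bd fs (10 ^ 12) 200448 839424 72042847662710 := bs2_24.trans (Bd.ps 896 12 814848 1982897588776 (by norm_num) (by norm_num) c2_25)

theorem bs2_26 : Bd fs (10 ^ 12) 200448 864000 73986002134602 := bs2_25.trans (Bd.ps 909 12 839424 1943154471892 (by norm_num) (by norm_num) c2_26)

theorem bs2_27 : Bd fs (10 ^ 12) 200448 888576 75928466065350 := bs2_26.trans (Bd.ps 922 12 864000 1942463930748 (by norm_num) (by norm_num) c2_27)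

theorem bs2_28 : Bd fs (10 ^ 12) 200448 913152 77819826211919 := bs2_27.trans (Bd.ps 935 12 888576 1891360146569 (by norm_num) (by norm_num) c2_28)

theorem bs2_29 : Bd fs (10 ^ 12) 200448 937728 79667261552687 := bs2_28.trans (Bd.ps 947 12 913152 1847435340768 (by norm_num) (by norm_num) c2_29)

theorem bs2_30 : Bd fs (10 ^ 12) 200448 962304 81480412867408 := bs2_29.trans (Bd.ps 960 12 937728 1813151314721 (by norm_num) (by norm_num) c2_30)

theorem bs2_31 : Bd fs (10 ^ 12) 200448 986880 83271633107487 := bs2_30.trans (Bd.ps 972 12 962304 1791220240079 (by norm_num) (by norm_num) c2_31)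

theorem bs2_32 : Bd fs (10 ^ 12) 200448 999168 84157801042759 := bs2_31.trans (Bd.ps 981 11 986880 886167935272 (by norm_num) (by norm_num) c2_32)

theorem bs2_33 : Bd fs (10 ^ 12) 200448 1005312 84605354755597 := bs2_32.trans (Bd.ps 986 10 999168 447553712838 (by norm_num) (by norm_num) c2_33)

theorem bs2_34 : Bd fs (10 ^ 12) 200448 1006848 84720020594154 := bs2_33.trans (Bd.ps 988 8 1005312 114665838557 (by norm_num) (by norm_num) c2_34)

theorem bs2_35 : Bd fs (10 ^ 12) 200448 1007616 84775826608935 := bs2_34.trans (Bd.ps 988 7 1006848 55806014781 (by norm_num) (by norm_num) c2_35)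

end NK

end Pool.Agent.TFS
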