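import Pool.Agent.Lib.TFS.N2Base

/-!
Kernel computations for N3.
-/

set_option autoImplicit false

open Finset

namespace Pool.Agent.TFS

namespace NK

theorem d0_0 : sm gq 7 768 ≤ 48642993019793 := by decide +kernel

theorem d0_1 : sm gq 8 1536 ≤ 42260684121375 := by decide +kernel

theorem d0_2 : sm gq 9 3072 ≤ 19291398291300 := by decide +kernel

theorem d0_3 : sm gq 10 6144 ≤ 8932664743097 := by decide +kernel

theorem d0_4 : sm gq 11 12288 ≤ 4191561857879 := by decide +kernel

theorem d0_5 : sm gq 12 24576 ≤ 1937020857866 := by decide +kernel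

theorem d0_6 : sm gq 11 49152 ≤ 374282697230 := by decide +kernel

theorem d0_7 : sm gq 10 61440 ≤ 133591761245 := by decide +kernel

theorem d0_8 : sm gq 8 67584 ≤ 27836057054 := by decide +kernel

theorem d0_9 : sm gq 7 69120 ≤ 13046252769 := by decide +kernel

theorem bq0_0 : Bd fq (10 ^ 18) 768 1536 48642993019793 := (Bd.pq 7 768 48642993019793 (by norm_num) d0_0)

theorem bq0_1 : Bd fq (10 ^ 18) 768 3072 90903677141168 := bq0_0.trans (Bd.pq 8 1536 42260684121375 (by norm_num) d0_1)

theorem bq0_2 : Bd fq (10 ^ 18) 768 6144 110195075432468 := bq0_1.trans (Bd.pq 9 3072 19291398291300 (by norm_num) d0_2)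

theorem bq0_3 : Bd fq (10 ^ 18) 768 12288 119127740175565 := bq0_2.trans (Bd.pq 10 6144 8932664743097 (by norm_num) d0_3)

theorem bq0_4 : Bd fq (10 ^ 18) 768 24576 123319302033444 := bq0_3.trans (Bd.pq 11 12288 4191561857879 (by norm_num) d0_4)

theorem bq0_5 : Bd fq (10 ^ 18) 768 49152 125256322891310 := bq0_4.trans (Bd.pq 12 24576 1937020857866 (by norm_num) d0_5)

theorem bq0_6 : Bd fq (10 ^ 18) 768 61440 125630605588540 := bq0_5.trans (Bd.pq 11 49152 374282697230 (by norm_num) d0_6)

theorem bq0_7 : Bd fq (10 ^ 18) 768 67584 125764197349785 := bq0_6.trans (Bd.pq 10 61440 133591761245 (by norm_num) d0_7)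

theorem bq0_8 : Bd fq (10 ^ 18) 768 69120 125792033406839 := bq0_7.trans (Bd.pq 8 67584 27836057054 (by norm_num) d0_8)

theorem bq0_9 : Bd fq (10 ^ 18) 768 69888 125805079659608 := bq0_8.trans (Bd.pq 7 69120 13046252769 (by norm_num) d0_9)

theorem d1_0 : sm gq 12 69888 ≤ 331528415903 := by decide +kernel

theorem d1_1 : sm gq 12 94464 ≤ 187513251293 := by decide +kernel

theorem d1_2 : sm gq 12 119040 ≤ 122680949022 := by decide +kernel

theorem d1_3 : sm gq 12 143616 ≤ 84480336885 := by decide +kernel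

theorem d1_4 : sm gq 12 168192 ≤ 63010673977 := by decide +kernel

theorem d1_5 : sm gq 10 192768 ≤ 13142717653 := by decide +kernel

theorem d1_6 : sm gq 7 198912 ≤ 1510592999 := by decide +kernel

theorem bq1_0 : Bd fq (10 ^ 18) 69888 94464 331528415903 := (Bd.pq 12 69888 331528415903 (by norm_num) d1_0)

theorem bq1_1 : Bd fq (10 ^ 18) 69888 119040 519041667196 := bq1_0.trans (Bd.pq 12 94464 187513251293 (by norm_num) d1_1)

theorem bq1_2 : Bd fq (10 ^ 18) 69888 143616 641722616218 := bq1_1.trans (Bd.pq 12 119040 122680949022 (by norm_num) d1_2)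

theorem bq1_3 : Bd fq (10 ^ 18) 69888 168192 726202953103 := bq1_2.trans (Bd.pq 12 143616 84480336885 (by norm_num) d1_3)

theorem bq1_4 : Bd fq (10 ^ 18) 69888 192768 789213627080 := bq1_3.trans (Bd.pq 12 168192 63010673977 (by norm_num) d1_4)

theorem bq1_5 : Bd fq (10 ^ 18) 69888 198912 802356344733 := bq1_4.trans (Bd.pq 10 192768 13142717653 (by norm_num) d1_5)

theorem bq1_6 : Bd fq (10 ^ 18) 69888 199680 803866937732 := bq1_5.trans (Bd.pq 7 198912 1510592999 (by norm_num) d1_6)

theorem d2_0 : sm gq 12 199680 ≤ 44730304514 := by decide +kernel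

theorem d2_1 : sm gq 12 224256 ≤ 35650171790 := by decide +kernel

theorem d2_2 : sm gq 12 248832 ≤ 28909883330 := by decide +kernel

theorem d2_3 : sm gq 12 273408 ≤ 23649721777 := by decide +kernel

theorem d2_4 : sm gq 12 297984 ≤ 20476514453 := by decide +kernel

theorem d2_5 : sm gq 12 322560 ≤ 17284390941 := by decide +kernel

theorem d2_6 : sm gq 12 347136 ≤ 14729342274 := by decide +kernel

theorem d2_7 : sm gq 12 371712 ≤ 13046342236 := by decide +kernel

theorem d2_8 : sm gq 12 396288 ≤ 11320695005 := by decide +kernel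

theorem d2_9 : sm gq 12 420864 ≤ 10222153794 := by decide +kernel

theorem d2_10 : sm gq 12 445440 ≤ 8822880923 := by decide +kernel

theorem d2_11 : sm gq 12 470016 ≤ 8142614637 := by decide +kernel

theorem d2_12 : sm gq 12 494592 ≤ 7329348972 := by decide +kernel

theorem d2_13 : sm gq 12 519168 ≤ 6593668883 := by decide +kernel

theorem d2_14 : sm gq 12 543744 ≤ 5941006897 := by decide +kernel

theorem d2_15 : sm gq 12 568320 ≤ 5539217322 := by decide +kernel

theorem d2_16 : sm gq 12 592896 ≤ 5112561559 := by decide +kernel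

theorem d2_17 : sm gq 12 617472 ≤ 4520170797 := by decide +kernel

theorem d2_18 : sm gq 12 642048 ≤ 4301325267 := by decide +kernel

theorem d2_19 : sm gq 12 666624 ≤ 3965064434 := by decide +kernel

theorem d2_20 : sm gq 12 691200 ≤ 3713355467 := by decide +kernel

theorem d2_21 : sm gq 12 715776 ≤ 3447253128 := by decide +kernel

theorem d2_22 : sm gq 12 740352 ≤ 3161134037 := by decide +kernel

theorem d2_23 : sm gq 12 764928 ≤ 3020882461 := by decide +kernel

theorem d2_24 : sm gq 12 789504 ≤ 2822842534 := by decide +kernel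

theorem d2_25 : sm gq 12 814080 ≤ 2647124240 := by decide +kernel

theorem d2_26 : sm gq 12 838656 ≤ 2481851101 := by decide +kernel

theorem d2_27 : sm gq 12 863232 ≤ 2357922617 := by decide +kernel

theorem d2_28 : sm gq 12 887808 ≤ 2218044922 := by decide +kernel

theorem d2_29 : sm gq 12 912384 ≤ 2084212484 := by decide +kernel

theorem d2_30 : sm gq 12 936960 ≤ 1949206501 := by decide +kernel

theorem d2_31 : sm gq 12 961536 ≤ 1866265767 := by decide +kernel

theorem d2_32 : sm gq 11 986112 ≤ 900851625 := by decide +kernel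

theorem d2_33 : sm gq 10 998400 ≤ 450672153 := by decide +kernel

theorem d2_34 : sm gq 9 1004544 ≤ 221297864 := by decide +kernel

theorem bq2_0 : Bd fq (10 ^ 18) 199680 224256 44730304514 := (Bd.pq 12 199680 44730304514 (by norm_num) d2_0)

theorem bq2_1 : Bd fq (10 ^ 18) 199680 248832 80380476304 := bq2_0.trans (Bd.pq 12 224256 35650171790 (by norm_num) d2_1)

theorem bq2_2 : Bd fq (10 ^ 18) 199680 273408 109290359634 := bq2_1.trans (Bd.pq 12 248832 28909883330 (by norm_num) d2_2)

theorem bq2_3 : Bd fq (10 ^ 18) 199680 297984 132940081411 := bq2_2.trans (Bd.pq 12 273408 23649721777 (by norm_num) d2_3)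

theorem bq2_4 : Bd fq (10 ^ 18) 199680 322560 153416595864 := bq2_3.trans (Bd.pq 12 297984 20476514453 (by norm_num) d2_4)

theorem bq2_5 : Bd fq (10 ^ 18) 199680 347136 170700986805 := bq2_4.trans (Bd.pq 12 322560 17284390941 (by norm_num) d2_5)

theorem bq2_6 : Bd fq (10 ^ 18) 199680 371712 185430329079 := bq2_5.trans (Bd.pq 12 347136 14729342274 (by norm_num) d2_6)

theorem bq2_7 : Bd fq (10 ^ 18) 199680 396288 198476671315 := bq2_6.trans (Bd.pq 12 371712 13046342236 (by norm_num) d2_7)

theorem bq2_8 : Bd fq (10 ^ 18) 199680 420864 209797366320 := bq2_7.trans (Bd.pq 12 396288 11320695005 (by norm_num) d2_8)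

theorem bq2_9 : Bd fq (10 ^ 18) 199680 445440 220019520114 := bq2_8.trans (Bd.pq 12 420864 10222153794 (by norm_num) d2_9)

theorem bq2_10 : Bd fq (10 ^ 18) 199680 470016 228842401037 := bq2_9.trans (Bd.pq 12 445440 8822880923 (by norm_num) d2_10)

theorem bq2_11 : Bd fq (10 ^ 18) 199680 494592 236985015674 := bq2_10.trans (Bd.pq 12 470016 8142614637 (by norm_num) d2_11)

theorem bq2_12 : Bd fq (10 ^ 18) 199680 519168 244314364646 := bq2_11.trans (Bd.pq 12 494592 7329348972 (by norm_num) d2_12)

theorem bq2_13 : Bd fq (10 ^ 18) 199680 543744 250908033529 := bq2_12.trans (Bd.pq 12 519168 6593668883 (by norm_num) d2_13)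

theorem bq2_14 : Bd fq (10 ^ 18) 199680 568320 256849040426 := bq2_13.trans (Bd.pq 12 543744 5941006897 (by norm_num) d2_14)

theorem bq2_15 : Bd fq (10 ^ 18) 199680 592896 262388257748 := bq2_14.trans (Bd.pq 12 568320 5539217322 (by norm_num) d2_15)

theorem bq2_16 : Bd fq (10 ^ 18) 199680 617472 267500819307 := bq2_15.trans (Bd.pq 12 592896 5112561559 (by norm_num) d2_16)

theorem bq2_17 : Bd fq (10 ^ 18) 199680 642048 272020990104 := bq2_16.trans (Bd.pq 12 617472 4520170797 (by norm_num) d2_17)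

theorem bq2_18 : Bd fq (10 ^ 18) 199680 666624 276322315371 := bq2_17.trans (Bd.pq 12 642048 4301325267 (by norm_num) d2_18)

theorem bq2_19 : Bd fq (10 ^ 18) 199680 691200 280287379805 := bq2_18.trans (Bd.pq 12 666624 3965064434 (by norm_num) d2_19)

theorem bq2_20 : Bd fq (10 ^ 18) 199680 715776 284000735272 := bq2_19.trans (Bd.pq 12 691200 3713355467 (by norm_num) d2_20)

theorem bq2_21 : Bd fq (10 ^ 18) 199680 740352 287447988400 := bq2_20.trans (Bd.pq 12 715776 3447253128 (by norm_num) d2_21)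

theorem bq2_22 : Bd fq (10 ^ 18) 199680 764928 290609122437 := bq2_21.trans (Bd.pq 12 740352 3161134037 (by norm_num) d2_22)

theorem bq2_23 : Bd fq (10 ^ 18) 199680 789504 293630004898 := bq2_22.trans (Bd.pq 12 764928 3020882461 (by norm_num) d2_23)

theorem bq2_24 : Bd fq (10 ^ 18) 199680 814080 296452847432 := bq2_23.trans (Bd.pq 12 789504 2822842534 (by norm_num) d2_24)

theorem bq2_25 : Bd fq (10 ^ 18) 199680 838656 299099971672 := bq2_24.trans (Bd.pq 12 814080 2647124240 (by norm_num) d2_25)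

theorem bq2_26 : Bd fq (10 ^ 18) 199680 863232 301581822773 := bq2_25.trans (Bd.pq 12 838656 2481851101 (by norm_num) d2_26)

theorem bq2_27 : Bd fq (10 ^ 18) 199680 887808 303939745390 := bq2_26.trans (Bd.pq 12 863232 2357922617 (by norm_num) d2_27)

theorem bq2_28 : Bd fq (10 ^ 18) 199680 912384 306157790312 := bq2_27.trans (Bd.pq 12 887808 2218044922 (by norm_num) d2_28)

theorem bq2_29 : Bd fq (10 ^ 18) 199680 936960 308242002796 := bq2_28.trans (Bd.pq 12 912384 2084212484 (by norm_num) d2_29)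

theorem bq2_30 : Bd fq (10 ^ 18) 199680 961536 310191209297 := bq2_29.trans (Bd.pq 12 936960 1949206501 (by norm_num) d2_30)

theorem bq2_31 : Bd fq (10 ^ 18) 199680 986112 312057475064 := bq2_30.trans (Bd.pq 12 961536 1866265767 (by norm_num) d2_31)

theorem bq2_32 : Bd fq (10 ^ 18) 199680 998400 312958326689 := bq2_31.trans (Bd.pq 11 986112 900851625 (by norm_num) d2_32)

theorem bq2_33 : Bd fq (10 ^ 18) 199680 1004544 313408998842 := bq2_32.trans (Bd.pq 10 998400 450672153 (by norm_num) d2_33)

theorem bq2_34 : Bd fq (10 ^ 18) 199680 1007616 313630296706 := bq2_33.trans (Bd.pq 9 1004544 221297864 (by norm_num) d2_34)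

end NK

end Pool.Agent.TFS
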