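import Pool.Agent.Lib.TFS.StmtsS

/-!
TFS, S9: Chinese remainder theorem for the sums `TF`, `TS`.
-/

set_option autoImplicit false

open Finset

namespace Pool.Agent.TFS

namespace S9

/-- splitting of the standard character -/
theorem char_split (q₁ q₂ : ℕ) [NeZero q₁] [NeZero q₂] [NeZero (q₁ * q₂)] (a b : ℤ)
    (hab : a * q₁ + b * q₂ = 1) (e : ZMod (q₁ * q₂) ≃+* ZMod q₁ × ZMod q₂) (y : ZMod (q₁ * q₂)) :
    ZMod.stdAddChar y = ZMod.stdAddChar ((b : ZMod q₁) * (e y).1) *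
      ZMod.stdAddChar ((a : ZMod q₂) * (e y).2) := by
  obtain ⟨n, rfl⟩ : ∃ n : ℤ, y = (n : ZMod (q₁ * q₂)) := ⟨(y.val : ℤ), by simp⟩
  rw [map_intCast e]
  simp only [Prod.fst_intCast, Prod.snd_intCast]
  rw [← Int.cast_mul, ← Int.cast_mul, ZMod.stdAddChar_coe, ZMod.stdAddChar_coe,
    ZMod.stdAddChar_coe, ← Complex.exp_add]
  congr 1
  have h1 : (q₁ : ℂ) ≠ 0 := Nat.cast_ne_zero.2 (NeZero.ne q₁)
  have h2 : (q₂ : ℂ) ≠ 0 := Nat.cast_ne_zero.2 (NeZero.ne q₂)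
  have h3 : (a : ℂ) * q₁ + b * q₂ = 1 := by exact_mod_cast hab
  push_cast
  field_simp
  linear_combination (-(n : ℂ)) * h3

theorem val_dvd (q₁ q₂ : ℕ) [NeZero q₁] [NeZero q₂] [NeZero (q₁ * q₂)]
    (e : ZMod (q₁ * q₂) ≃+* ZMod q₁ × ZMod q₂) (p : ℕ) (hp : p ∣ q₁) (y : ZMod (q₁ * q₂)) :
    p ∣ (e y).1.val ↔ p ∣ y.val := by
  have h : (e y).1 = ((y.val : ℕ) : ZMod q₁) := by
    conv_lhs => rw [← ZMod.natCast_zmod_val y, map_natCast]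
    simp
  rw [h, ZMod.val_natCast, Nat.dvd_mod_iff hp]

/-- the equivalence of pairs -/
def E (q₁ q₂ : ℕ) (e : ZMod (q₁ * q₂) ≃+* ZMod q₁ × ZMod q₂) :
    ZMod (q₁ * q₂) × ZMod (q₁ * q₂) ≃ (ZMod q₁ × ZMod q₁) × (ZMod q₂ × ZMod q₂) :=
  (Equiv.prodCongr e.toEquiv e.toEquiv).trans (Equiv.prodProdProdComm _ _ _ _)

theorem E_apply (q₁ q₂ : ℕ) (e : ZMod (q₁ * q₂) ≃+* ZMod q₁ × ZMod q₂)
    (x : ZMod (q₁ * q₂) × ZMod (q₁ * q₂)) :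
    E q₁ q₂ e x = (((e x.1).1, (e x.2).1), ((e x.1).2, (e x.2).2)) := rfl

theorem norm_iff (q₁ q₂ : ℕ) (e : ZMod (q₁ * q₂) ≃+* ZMod q₁ × ZMod q₂) (ν : ℤ)
    (x : ZMod (q₁ * q₂) × ZMod (q₁ * q₂)) : x.1 ^ 2 + x.2 ^ 2 = (ν : ZMod (q₁ * q₂)) ↔
    (e x.1).1 ^ 2 + (e x.2).1 ^ 2 = (ν : ZMod q₁) ∧
    (e x.1).2 ^ 2 + (e x.2).2 ^ 2 = (ν : ZMod q₂) := by
  rw [← e.injective.eq_iff, map_add, map_pow, map_pow, map_intCast, Prod.ext_iff]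
  simp

/-- the terms -/
theorem term (q₁ q₂ : ℕ) [NeZero q₁] [NeZero q₂] [NeZero (q₁ * q₂)] (a b : ℤ)
    (hab : a * q₁ + b * q₂ = 1) (e : ZMod (q₁ * q₂) ≃+* ZMod q₁ × ZMod q₂) (h : GI)
    (x : ZMod (q₁ * q₂) × ZMod (q₁ * q₂)) :
    ZMod.stdAddChar ((h.re : ZMod (q₁ * q₂)) * x.1 + (h.im : ZMod (q₁ * q₂)) * x.2) =
    ZMod.stdAddChar (((((b : GI) * h).re : ℤ) : ZMod q₁) * (E q₁ q₂ e x).1.1 +
      ((((b : GI) * h).im : ℤ) : ZMod q₁) * (E q₁ q₂ e x).1.2) *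
    ZMod.stdAddChar (((((a : GI) * h).re : ℤ) : ZMod q₂) * (E q₁ q₂ e x).2.1 +
      ((((a : GI) * h).im : ℤ) : ZMod q₂) * (E q₁ q₂ e x).2.2) := by
  rw [char_split q₁ q₂ a b hab e]
  have h1 : ∀ u : ℤ, ((u : GI) * h).re = u * h.re := fun u => by simp
  have h2 : ∀ u : ℤ, ((u : GI) * h).im = u * h.im := fun u => by simp
  rw [h1, h2, h1, h2, E_apply, map_add e, map_mul e, map_mul e, map_intCast e, map_intCast e]
  simp only [Prod.fst_add, Prod.snd_add, Prod.fst_mul, Prod.snd_mul, Prod.fst_intCast,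
    Prod.snd_intCast]
  congr 2
  · push_cast; ring
  · push_cast; ring

end S9

/-- S9: Chinese remainder theorem -/
theorem stCRT : StCRT := by
  intro q₁ q₂ _ _ _ hco
  obtain ⟨a, b, hab⟩ := Nat.isCoprime_iff_coprime.2 hco
  refine ⟨b, a, ⟨q₂, a, by linarith⟩, ⟨q₁, b, by linarith⟩, fun ν h => ?_⟩
  let e := ZMod.chineseRemainder hco
  refine ⟨?_, fun p hp => ?_⟩
  · unfold TF
    rw [Finset.sum_mul_sum, ← Finset.sum_product']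
    refine Finset.sum_equiv (S9.E q₁ q₂ e) (fun x => ?_) (fun x _ => S9.term q₁ q₂ a b hab e h x)
    rw [Finset.mem_product, SolF, SolF, SolF, S9.E_apply]
    simp only [Finset.mem_filter, Finset.mem_univ, true_and]
    exact S9.norm_iff q₁ q₂ e ν x
  · unfold TF TS
    rw [Finset.sum_mul_sum, ← Finset.sum_product']
    refine Finset.sum_equiv (S9.E q₁ q₂ e) (fun x => ?_) (fun x _ => S9.term q₁ q₂ a b hab e h x)
    rw [Finset.mem_product, SolF, SolS, SolS, S9.E_apply]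
    simp only [Finset.mem_filter, Finset.mem_univ, true_and]
    rw [S9.norm_iff q₁ q₂ e ν x, S9.val_dvd q₁ q₂ e p hp, S9.val_dvd q₁ q₂ e p hp]
    tauto

end Pool.Agent.TFS
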