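import Pool.Agent.Lib.TFS.StmtsS

/-!
Groups P, A, M: Poisson summation, smoothing, error sums, main terms.
Blueprint: team-store `tfs_A.md`.
-/

set_option autoImplicit false

open Finset MeasureTheory

namespace Pool.Agent.TFS

open Pool.Agent.Lib.MP_0e0027_nt

/-! ### Group P -/

/-- P1: theta inequalities -/
def StTh : Prop := ∀ γ : GI, γ ≠ 0 → ∀ y : ℝ, 0 < y →
  Summable (fun h : GI ↦ Real.exp (-(Real.pi * y * (N2 h : ℝ)))) ∧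
  (∑' h : GI, (open Classical in if γ ∣ h ∧ h ≠ 0 then Real.exp (-(Real.pi * y * (N2 h : ℝ))) else 0)) ≤
    1 / (y * (N2 γ : ℝ)) ∧
  (N2 γ % 2 = 1 →
    (∑' h : GI, (open Classical in
      if γ ∣ h ∧ N2 h % 2 = 1 then Real.exp (-(Real.pi * y * (N2 h : ℝ))) else 0)) ≤
    1 / (2 * y * (N2 γ : ℝ)))

/-- P2: Poisson summation for periodic weights -/
def StPS : Prop := ∀ (Q : ℕ) [NeZero Q] (w : ZMod Q × ZMod Q → ℂ) (z : ℂ), 0 < z.re →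
  Summable (fun x : GI ↦ w ((x.re : ZMod Q), (x.im : ZMod Q)) *
    Complex.exp (-(Real.pi * z * (N2 x : ℂ)))) ∧
  Summable (fun h : GI ↦ (∑ a : ZMod Q × ZMod Q, w a *
      ZMod.stdAddChar ((h.re : ZMod Q) * a.1 + (h.im : ZMod Q) * a.2)) *
    Complex.exp (-(Real.pi * (N2 h : ℂ) / (z * (Q : ℂ) ^ 2)))) ∧
  ∑' x : GI, w ((x.re : ZMod Q), (x.im : ZMod Q)) * Complex.exp (-(Real.pi * z * (N2 x : ℂ))) =
    (1 / (z * (Q : ℂ) ^ 2)) * ∑' h : GI, (∑ a : ZMod Q × ZMod Q, w a *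
      ZMod.stdAddChar ((h.re : ZMod Q) * a.1 + (h.im : ZMod Q) * a.2)) *
    Complex.exp (-(Real.pi * (N2 h : ℂ) / (z * (Q : ℂ) ^ 2)))

/-- P3: the residue classes modulo `MU`, their number and Fourier transform -/
def StUd : Prop := ∀ par m : ℕ, par ≤ 4 → m ≤ 3 → ∀ [NeZero (MU par m)],
  (∀ x y : GI, ((MU par m : ℕ) : ℤ) ∣ x.re - y.re → ((MU par m : ℕ) : ℤ) ∣ x.im - y.im →
    ((UP par x ∧ UM m x) ↔ (UP par y ∧ UM m y))) ∧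
  ∃ S : Finset (ZMod (MU par m) × ZMod (MU par m)),
    (∀ x : GI, ((x.re : ZMod (MU par m)), (x.im : ZMod (MU par m))) ∈ S ↔ UP par x ∧ UM m x) ∧
    (S.card : ℝ) = densU par m * (MU par m : ℝ) ^ 2 ∧
    ∀ h : GI, ‖∑ a ∈ S, (ZMod.stdAddChar ((h.re : ZMod (MU par m)) * a.1 +
      (h.im : ZMod (MU par m)) * a.2) : ℂ)‖ ≤ G2 par h * G3 m h

/-- P4: Gaussian counting in the sets `WU` -/
def StPoi : Prop := ∀ (par m p q : ℕ) [Fact p.Prime] [NeZero q] (ν : ℤ) (B : ℝ), par ≤ 4 → m ≤ 3 →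
  q % 2 = 1 → p ∣ q → (m ≠ 0 → ¬ 3 ∣ q) → Dom (fun h ↦ ‖TS ν p q h‖) q B →
  GC (WU par m ν p q) (densU par m * rhoN ν p q / (q : ℝ) ^ 2) (cU par m * B)

/-! ### Group A -/

/-- A1: properties of the smoothing function -/
def StPhi : Prop :=
  (∀ y : ℝ, Phi y + Phi (-y) = 1) ∧ (∀ y : ℝ, 0 ≤ Phi y) ∧ Monotone Phi ∧
  (∀ y : ℝ, 0 ≤ y → Phi (-y) ≤ Real.exp (-(Real.pi * y ^ 2)) / 2) ∧
  (∀ y : ℝ, HasDerivAt Phi (Real.exp (-(Real.pi * y ^ 2))) y) ∧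
  (∀ y : ℝ, HasDerivAt Hf (Phi y) y) ∧ (∀ y : ℝ, 0 ≤ Hf y) ∧
  (∀ y : ℝ, Hf y - Hf (-y) = y) ∧
  (∀ y : ℝ, Hf y = y * Phi y + Real.exp (-(Real.pi * y ^ 2)) / (2 * Real.pi)) ∧
  (∀ y : ℝ, 0 ≤ y → Hf (-y) ≤ Real.exp (-(Real.pi * y ^ 2)) / (2 * Real.pi)) ∧
  (∀ η y : ℝ, 0 < η →
    Integrable (fun t : ℝ ↦ Complex.exp (Real.pi * ((η : ℂ) + t * Complex.I) ^ 2 +
        2 * Real.pi * ((η : ℂ) + t * Complex.I) * y) / (2 * Real.pi * ((η : ℂ) + t * Complex.I))) ∧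
    (Phi y : ℂ) = ∫ t : ℝ, Complex.exp (Real.pi * ((η : ℂ) + t * Complex.I) ^ 2 +
        2 * Real.pi * ((η : ℂ) + t * Complex.I) * y) / (2 * Real.pi * ((η : ℂ) + t * Complex.I)) ∧
    (Hf y : ℂ) = ∫ t : ℝ, Complex.exp (Real.pi * ((η : ℂ) + t * Complex.I) ^ 2 +
        2 * Real.pi * ((η : ℂ) + t * Complex.I) * y) /
          (2 * Real.pi * ((η : ℂ) + t * Complex.I)) ^ 2)

/-- A2: from Gaussian counting to counting with the smoothing function -/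
def StD : Prop := ∀ (W : Set GI) (D₀ E₀ : ℝ), GC W D₀ E₀ → 0 ≤ E₀ → ∀ X σ : ℝ, 0 < σ →
  Summable (fun x : W ↦ Phi ((X - (N2 x : ℝ)) / σ)) ∧
  ∀ η : ℝ, 0 < η → |(∑' x : W, Phi ((X - (N2 x : ℝ)) / σ)) - D₀ * Real.pi * σ * Hf (X / σ)| ≤
    E₀ * Kf η (X / σ)

/-- A3: the divisor-switching identity -/
def StSW : Prop := ∀ (par m κ p ν : ℕ) [Fact p.Prime], p ≠ 2 → (m ≠ 0 → p ≠ 3) → HypU par m κ ν →
  ∀ Δ : ℝ, 0 < Δ → (NS par m κ p ν).Finite ∧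
  Summable (fun d : ℕ ↦ open Classical in if DD m d then ch d *
    ∑' x : WU par m ν p (p ^ 2 * d),
      Phi (((ν : ℝ) - (N2 x : ℝ) - κ * p ^ 2 * d ^ 2) / (κ * p ^ 2 * d * Δ)) else 0) ∧
  ((NS par m κ p ν).ncard : ℝ) = 8 * ∑' d : ℕ, (open Classical in if DD m d then ch d *
    ∑' x : WU par m ν p (p ^ 2 * d),
      Phi (((ν : ℝ) - (N2 x : ℝ) - κ * p ^ 2 * d ^ 2) / (κ * p ^ 2 * d * Δ)) else 0)

/-- A4: divisor sums over `(d, 6) = 1` and over odd `d` -/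
def StMdiv : Prop :=
  (∀ x : ℝ, 1 ≤ x → ∑ d ∈ (Icc 1 ⌊x⌋₊).filter (fun d ↦ d.Coprime 6), (tau d : ℝ) * hh d ≤
    0.115 * x * (Real.log x + 2.65) + 2 * √x + 2) ∧
  (∀ x : ℝ, 1 ≤ x → ∑ d ∈ (Icc 1 ⌊x⌋₊).filter (fun d ↦ d % 2 = 1), (tau d : ℝ) * hh d ≤
    0.275 * x * (Real.log x + 1.55) + 3 * √x + 3)

/-- A5: the error sums -/
def StES : Prop := ∀ D : ℝ, 10000 ≤ D → ∃ η : ℕ → ℝ, (∀ d, 0 < η d) ∧
  (Summable (fun d : ℕ ↦ if d.Coprime 6 then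
    √(d : ℝ) * tau d * hh d * Kf (η d) ((D / d - d / D) / 4) else 0) ∧
   ∑' d : ℕ, (if d.Coprime 6 then
    √(d : ℝ) * tau d * hh d * Kf (η d) ((D / d - d / D) / 4) else 0) ≤ SB6 D) ∧
  (Summable (fun d : ℕ ↦ if d % 2 = 1 then
    √(d : ℝ) * tau d * hh d * Kf (η d) ((D / d - d / D) / 4) else 0) ∧
   ∑' d : ℕ, (if d % 2 = 1 then
    √(d : ℝ) * tau d * hh d * Kf (η d) ((D / d - d / D) / 4) else 0) ≤ SB2 D)

/-! ### Group M -/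

/-- M1: local densities -/
def StRho : Prop := ∀ (p : ℕ) [Fact p.Prime] (d : ℕ), p ≠ 2 → d % 2 = 1 → ∀ ν : ℕ, 1 ≤ ν →
  ch d * rhoN ν p (p ^ 2 * d) / ((p ^ 2 * d : ℕ) : ℝ) ^ 2 =
    r4 ν p * ∑ a ∈ d.divisors.filter (fun a ↦ a ∣ ν ∧ a.Coprime p),
      ∑ b ∈ (d / a).divisors.filter (fun b ↦ b.Coprime p),
        (ArithmeticFunction.moebius b : ℝ) / ((a : ℝ) * (b : ℝ) ^ 2) *
          (ch (d / a / b) / ((d / a / b : ℕ) : ℝ))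

/-- value of the `L`-series -/
noncomputable def Lm (m : ℕ) : ℝ := if m = 0 then Real.pi / 4 else Real.pi / 3

/-- M2: the inner sums -/
def StInner : Prop := ∀ (m : ℕ) (ε : ℝ), 0 < ε →
  Summable (fun f : ℕ ↦ open Classical in if DD m f then ch f / f * Jf (ε * f) else 0) ∧
  Summable (fun f : ℕ ↦ open Classical in if DD m f then 1 / (f : ℝ) * Jf (ε * f) else 0) ∧
  |(∑' f : ℕ, (open Classical in if DD m f then ch f / f * Jf (ε * f) else 0)) - Lm m| ≤ 2.1 * √ε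

/-- M3: the zeta factor -/
def StZeta : Prop := ∀ (p : ℕ) [Fact p.Prime], p ≠ 2 →
  ∑' b : ℕ, (if b.Coprime (6 * p) then (ArithmeticFunction.moebius b : ℝ) / (b : ℝ) ^ 2 else 0) =
    (9 / Real.pi ^ 2) * (if p = 3 then 1 else 1 / (1 - 1 / (p : ℝ) ^ 2)) ∧
  Summable (fun b : ℕ ↦ if b.Coprime 6 ∧ Squarefree b then 1 / ((b : ℝ) * √(b : ℝ)) else 0) ∧
  ∑' b : ℕ, (if b.Coprime 6 ∧ Squarefree b then 1 / ((b : ℝ) * √(b : ℝ)) else 0) ≤ 1.38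

/-- the constant of the main term -/
noncomputable def KM (m p : ℕ) : ℝ :=
  if m = 0 then 9 / (4 * Real.pi) else 3 / (Real.pi * (1 - 1 / (p : ℝ) ^ 2))

/-- M4: the main term sum -/
def StMT : Prop := ∀ (m p ν : ℕ) [Fact p.Prime] (D : ℝ), p ≠ 2 → (m = 0 ↔ p = 3) → 1 ≤ ν → 0 < D →
  Summable (fun d : ℕ ↦ open Classical in if DD m d then
    ch d * rhoN ν p (p ^ 2 * d) / ((p ^ 2 * d : ℕ) : ℝ) ^ 2 * Jf (d / D) else 0) ∧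
  |(∑' d : ℕ, (open Classical in if DD m d then
    ch d * rhoN ν p (p ^ 2 * d) / ((p ^ 2 * d : ℕ) : ℝ) ^ 2 * Jf (d / D) else 0)) -
    r4 ν p * KM m p * gs ν (6 * p)| ≤ r4 ν p * 2.9 * FF ν / √D

/-- the error term of the asymptotic formula -/
noncomputable def ErrN (par m κ p ν : ℕ) : ℝ :=
  8 * Real.pi * densU par m * ν * (r4 ν p * 2.9 * FF ν / √(√((ν : ℝ) / κ) / p)) +
    8 * cU par m * p * Cp p *
      (if m = 0 then SB2 (√((ν : ℝ) / κ) / p) else SB6 (√((ν : ℝ) / κ) / p))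

/-- A6: the asymptotic formula (two-sided) -/
def StAs : Prop := ∀ (par m κ p ν : ℕ) [Fact p.Prime], p ≠ 2 → (m = 0 ↔ p = 3) → HypU par m κ ν →
  10000 ≤ √((ν : ℝ) / κ) / p → (NS par m κ p ν).Finite ∧
  |((NS par m κ p ν).ncard : ℝ) -
    8 * Real.pi * densU par m * ν * (r4 ν p * KM m p * gs ν (6 * p))| ≤ ErrN par m κ p ν

end Pool.Agent.TFS
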