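import Pool.Agent.Lib.TFS.StmtsA

/-!
Groups C, T: upper bounds for large primes.  Blueprint: team-store `tfs_C.md`.
-/

set_option autoImplicit false

open Finset MeasureTheory

namespace Pool.Agent.TFS

open Pool.Agent.Lib.MP_0e0027_nt

/-- C1: error sum over numbers composed of primes `1 mod 4` -/
def StSC : Prop := ∀ D : ℝ, 1000 ≤ D →
  Summable (fun d : ℕ ↦ open Classical in if P1s d then
    √(d : ℝ) * tau d * hh d * Real.exp (-((d : ℝ) / D) ^ 2) else 0) ∧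
  ∑' d : ℕ, (open Classical in if P1s d then
    √(d : ℝ) * tau d * hh d * Real.exp (-((d : ℝ) / D) ^ 2) else 0) ≤ 0.3 * D * √D

/-- C2: main sum over numbers composed of primes `1 mod 4` -/
def StLB : Prop := ∀ D : ℝ, 1000 ≤ D →
  Summable (fun d : ℕ ↦ open Classical in if P1s d then
    (Nat.totient d : ℝ) / (d : ℝ) ^ 2 * Real.exp (-((d : ℝ) / D) ^ 2) else 0) ∧
  ∑' d : ℕ, (open Classical in if P1s d then
    (Nat.totient d : ℝ) / (d : ℝ) ^ 2 * Real.exp (-((d : ℝ) / D) ^ 2) else 0) ≤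
    0.8 + 0.143 * Real.log D

/-- pairs `(x, y)` with `N(x) + p² N(y) = ν`, `p ∤ x`, `y ≠ 0` -/
def NC (p ν : ℕ) : Set (GI × GI) :=
  {u | ¬ dv p u.1 ∧ u.2 ≠ 0 ∧ N2 u.1 + (p : ℤ) ^ 2 * N2 u.2 = ν}

/-- C3: the divisor majorant -/
def StR2maj : Prop := ∀ a : ℕ, 1 ≤ a →
  (r2set a).card ≤ 8 * (open Classical in (a.divisors.filter (fun d ↦ P1s d ∧ d ^ 2 ≤ a))).card

/-- C4: the upper bound for medium primes -/
def StCP : Prop := ∀ (p ν : ℕ) [Fact p.Prime], 5 ≤ p → 1 ≤ ν → 1000 ≤ √(ν : ℝ) / p →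
  (NC p ν).Finite ∧ ((NC p ν).ncard : ℝ) ≤ 8 * Real.exp 1 *
    (Real.pi * ν * (r4 ν p * ((p : ℝ) / (p - 1))) * gs ν 6 * (0.8 + 0.143 * Real.log (√(ν : ℝ) / p)) +
      p * Cp p * (0.3 * (√(ν : ℝ) / p) * √(√(ν : ℝ) / p)))

/-- T1: pointwise bound for the number of representations by two squares -/
def StR2 : Prop := ∀ m : ℕ, 1 ≤ m → ((r2set m).card : ℝ) ≤ 16.33 * (m : ℝ) ^ (1 / 6 : ℝ)

/-- T2: the trivial bound for large primes -/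
def StTriv : Prop := ∀ p ν : ℕ, 1 ≤ p → 1 ≤ ν →
  ({u : GI × GI | u.2 ≠ 0 ∧ N2 u.1 + (p : ℤ) ^ 2 * N2 u.2 = ν}).Finite ∧
  (({u : GI × GI | u.2 ≠ 0 ∧ N2 u.1 + (p : ℤ) ^ 2 * N2 u.2 = ν}).ncard : ℝ) ≤
    4 * ((ν : ℝ) / p ^ 2) * (16.33 * (ν : ℝ) ^ (1 / 6 : ℝ))

/-- T3: bound for `FF` -/
def StFF : Prop := ∀ ν : ℕ, 1 ≤ ν → FF ν ≤ 2.72 * (ν : ℝ) ^ (1 / 20 : ℝ)

end Pool.Agent.TFS
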