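import Pool.Agent.Lib.TFS.StmtsC
import Pool.Agent.Lib.TFS.DefsJ
import Pool.Agent.Lib.MP_0e0027_nt.Ex.StmtsV

/-!
Group F: union bound, transfer to the analytic counting functions, slack lemma, master inequality.
Blueprint: team-store `tfs_F.md`.
-/

set_option autoImplicit false

open Finset MeasureTheory

namespace Pool.Agent.TFS

open Pool.Agent.Lib.MP_0e0027_nt

/-- the argument of the analytic part: `n` for odd `n`, `n / 2` for even `n` -/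
def nu (n : ℕ) : ℕ := if n % 2 = 1 then n else n / 2

/-- `32/3` if `3 ∣ n`, else `16/3` -/
noncomputable def c3 (n : ℕ) : ℝ := if n % 3 = 0 then 32 / 3 else 16 / 3

/-- condition modulo 3 -/
def mm (n : ℕ) : ℕ := if n % 3 = 0 then 2 else if n % 2 = 1 then 1 else 3

/-- the second parity type for odd `n` -/
def pt (n : ℕ) : ℕ := if n % 8 = 3 then 2 else 3

/-- primes in `[a, b]` -/
def Pr (a b : ℕ) : Finset ℕ := (Icc a b).filter Nat.Prime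

/-- at most one coordinate is divisible by 3 -/
def At3 (u : (ℤ × ℤ) × (ℤ × ℤ)) : Prop :=
  ¬ ((3 : ℤ) ∣ u.1.1 ∧ (3 : ℤ) ∣ u.1.2) ∧ ¬ ((3 : ℤ) ∣ u.1.1 ∧ (3 : ℤ) ∣ u.2.1) ∧
  ¬ ((3 : ℤ) ∣ u.1.1 ∧ (3 : ℤ) ∣ u.2.2) ∧ ¬ ((3 : ℤ) ∣ u.1.2 ∧ (3 : ℤ) ∣ u.2.1) ∧
  ¬ ((3 : ℤ) ∣ u.1.2 ∧ (3 : ℤ) ∣ u.2.2) ∧ ¬ ((3 : ℤ) ∣ u.2.1 ∧ (3 : ℤ) ∣ u.2.2)

/-- the quadruples which are admissible at 2 and 3 -/
def Om (n : ℕ) : Set ((ℤ × ℤ) × (ℤ × ℤ)) :=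
  {u | u ∈ Q4 n ∧ At3 u ∧ (n % 2 = 0 → u ∈ Q4o n)}

/-- the quadruples whose second pair is divisible by `p`, but not the first -/
def As (n p : ℕ) : Set ((ℤ × ℤ) × (ℤ × ℤ)) :=
  {u | u ∈ Om n ∧ (p : ℤ) ∣ u.2.1 ∧ (p : ℤ) ∣ u.2.2 ∧ ¬ ((p : ℤ) ∣ u.1.1 ∧ (p : ℤ) ∣ u.1.2)}

/-- F1: the union bound -/
def StUB : Prop := ∀ n : ℕ, Ex.Adm n → ¬ Ex.Rep4 n → (Om n).Finite ∧
  ((Om n).ncard : ℝ) ≤ ∑ p ∈ Pr 5 (Nat.sqrt n), (6 * ((As n p).ncard : ℝ) +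
    if p ^ 2 ∣ n then ((Om (n / p ^ 2)).ncard : ℝ) else 0)

/-- F2: transfer to Gaussian integers -/
def StAN : Prop := ∀ n p : ℕ, p.Prime → 5 ≤ p → Ex.Adm n →
  (n % 2 = 1 → (As n p).ncard ≤ (NS 1 (mm n) 1 p (nu n)).ncard + (NS (pt n) (mm n) 2 p (nu n)).ncard) ∧
  (n % 2 = 0 → (As n p).ncard ≤ (NS 4 (mm n) 1 p (nu n)).ncard) ∧
  (As n p).ncard ≤ (NC p (nu n)).ncard

/-- quadruples with three coordinates divisible by 3 (half of them) -/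
noncomputable def N3 (n : ℕ) : ℝ :=
  if n % 2 = 1 then ((NS 1 0 1 3 (nu n)).ncard : ℝ) + ((NS (pt n) 0 2 3 (nu n)).ncard : ℝ)
  else ((NS 4 0 1 3 (nu n)).ncard : ℝ)

/-- F3: the number of quadruples admissible at 2 and 3 -/
def StOmc : Prop := ∀ n : ℕ, Ex.Adm n →
  (n % 3 = 0 → ((Om n).ncard : ℝ) = 32 / 3 * nu n * gs (nu n) 6) ∧
  (n % 3 = 1 → ((Om n).ncard : ℝ) = 8 * nu n * gs (nu n) 6 - 2 * N3 n)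

/-- the relative main term at `p` (times `gs ν 6`) -/
noncomputable def Mp (ν p : ℕ) : ℝ :=
  6 * r4 ν p * gs ν (6 * p) / (1 - 1 / (p : ℝ) ^ 2) +
    (if p ^ 2 ∣ ν then gs (ν / p ^ 2) 6 / (p : ℝ) ^ 2 else 0)

/-- F4: the slack lemma -/
def StSlack : Prop := ∀ (ν P : ℕ) (k : ℝ), 1 ≤ ν → 0 ≤ k → k ≤ 0.04 →
  0.3664 - 1.46 * k ≤ gs ν 6 * (1 - k) - ∑ p ∈ Pr 5 P, Mp ν p

/-- error term for `N3` -/
noncomputable def E3 (n : ℕ) : ℝ :=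
  if n % 2 = 1 then ErrN 1 0 1 3 (nu n) + ErrN (pt n) 0 2 3 (nu n) else ErrN 4 0 1 3 (nu n)

/-- error term at a small prime `p` -/
noncomputable def EA (n p : ℕ) : ℝ :=
  if n % 2 = 1 then ErrN 1 (mm n) 1 p (nu n) + ErrN (pt n) (mm n) 2 p (nu n)
  else ErrN 4 (mm n) 1 p (nu n)

/-- the bound of `StCP` -/
noncomputable def CPb (ν p : ℕ) : ℝ := 8 * Real.exp 1 *
  (Real.pi * ν * (r4 ν p * ((p : ℝ) / (p - 1))) * gs ν 6 * (0.8 + 0.143 * Real.log (√(ν : ℝ) / p)) +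
    p * Cp p * (0.3 * (√(ν : ℝ) / p) * √(√(ν : ℝ) / p)))

/-- the bound of `StTriv` -/
noncomputable def TRb (ν p : ℕ) : ℝ := 4 * ((ν : ℝ) / p ^ 2) * (16.33 * (ν : ℝ) ^ (1 / 6 : ℝ))

/-- F5: the master inequality -/
def StMaster : Prop := ∀ n P₁ P₂ : ℕ, Ex.Adm n → ¬ Ex.Rep4 n → 5 ≤ P₁ → P₁ ≤ P₂ →
  30000 * (P₁ : ℝ) ≤ √((nu n : ℝ) / 2) → 1000 * (P₂ : ℝ) ≤ √(nu n : ℝ) →
  c3 n * nu n * (gs (nu n) 6 - ∑ p ∈ Pr 5 P₁, Mp (nu n) p) ≤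
    (if n % 3 = 1 then 2.7 * E3 n else 0) + ∑ p ∈ Pr 5 P₁, 6 * EA n p +
    ∑ p ∈ Pr (P₁ + 1) P₂, 6 * CPb (nu n) p + ∑ p ∈ Pr (P₂ + 1) (Nat.sqrt n), 6 * TRb (nu n) p +
    ∑ p ∈ (Pr (P₁ + 1) (Nat.sqrt n)).filter (fun p ↦ p ^ 2 ∣ nu n),
      3 / 2 * c3 n * nu n * gs (nu n) 6 / (p : ℝ) ^ 2

/-- the analytic result -/
def StBig : Prop := ∀ n : ℕ, Ex.Adm n → (n % 3 = 1 → 190000000000000000 ≤ n) →
  (n % 3 = 0 → 11500000000000000 ≤ n) → Ex.Rep4 n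

end Pool.Agent.TFS
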