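import Pool.Agent.Lib.TFS.Defs

/-!
Group N: sums over primes (numerical part of the final inequality).
Blueprint: team-store `tfs_N.md`.
-/

set_option autoImplicit false

open Finset

namespace Pool.Agent.TFS

/-- N1: the primes up to 1000 -/
def StN1 : Prop := ∀ t : ℝ, 2 ≤ t → ∀ S : Finset ℕ, (∀ p ∈ S, p.Prime ∧ 5 ≤ p ∧ p ≤ 1000) →
  ∑ p ∈ S, Cp p / √(p : ℝ) * (t - 0.26 * Real.log p) ≤ 23.4 * t - 29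

/-- N2: sums of `p^(-1/2)` over the primes between 1000 and 10^6 -/
def StN2 : Prop := ∀ S : Finset ℕ, (∀ p ∈ S, p.Prime ∧ 1000 < p) →
  ((∀ p ∈ S, p ≤ 70000) → ∑ p ∈ S, 1 / √(p : ℝ) ≤ 49.2) ∧
  ((∀ p ∈ S, p ≤ 200000) → ∑ p ∈ S, 1 / √(p : ℝ) ≤ 81) ∧
  ((∀ p ∈ S, p ≤ 1000000) → ∑ p ∈ S, 1 / √(p : ℝ) ≤ 167)

/-- N3: sums of `p^(-2)` over the primes above 1000 -/
def StN3 : Prop := ∀ S : Finset ℕ, (∀ p ∈ S, p.Prime) →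
  ((∀ p ∈ S, 1000 < p) → ∑ p ∈ S, 1 / (p : ℝ) ^ 2 ≤ 0.00013) ∧
  ((∀ p ∈ S, 70000 < p) → ∑ p ∈ S, 1 / (p : ℝ) ^ 2 ≤ 0.00000142) ∧
  ((∀ p ∈ S, 200000 < p) → ∑ p ∈ S, 1 / (p : ℝ) ^ 2 ≤ 0.00000059) ∧
  ((∀ p ∈ S, 1000000 < p) → ∑ p ∈ S, 1 / (p : ℝ) ^ 2 ≤ 0.000000268)

/-- N4: wheel sums (integers prime to 30) -/
def StN4 : Prop := ∀ (P Q : ℝ), 30 ≤ P → P ≤ Q → ∀ S : Finset ℕ, (∀ p ∈ S, p.Prime ∧ P < (p : ℝ)) →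
  ∑ p ∈ S, 1 / (p : ℝ) ^ 2 ≤ (4 / 15) / P + 2 / P ^ 2 ∧
  ((∀ p ∈ S, (p : ℝ) ≤ Q) →
    ∑ p ∈ S, 1 / √(p : ℝ) ≤ (8 / 15) * (√Q - √P) + 2 / √P ∧
    ∀ t : ℝ, 0.26 * Real.log Q ≤ t →
      ∑ p ∈ S, 1 / √(p : ℝ) * (t - 0.26 * Real.log p) ≤
        (8 / 15) * (√Q * (t - 0.26 * Real.log Q + 0.52) - √P * (t - 0.26 * Real.log P + 0.52)) +
          2 / √P * (t - 0.26 * Real.log P))

end Pool.Agent.TFS
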