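import Pool.Agent.Lib.TFS.StmtsF
import Pool.Agent.Lib.TFS.StmtsN

/-!
Group R: numerical end of the analytic part, from the master inequality to `StBig`.
Blueprint: team-store `tfs_R.md`.
-/

set_option autoImplicit false

open Finset MeasureTheory

namespace Pool.Agent.TFS

open Pool.Agent.Lib.MP_0e0027_nt

/-- N5: sum of `p^(-3/2)` -/
def StN5 : Prop := ∀ S : Finset ℕ, (∀ p ∈ S, p.Prime ∧ 5 ≤ p) →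
  ∑ p ∈ S, 1 / ((p : ℝ) * √(p : ℝ)) ≤ 0.32

/-- the weight of the small primes in the error term -/
noncomputable def Wn (n : ℕ) : ℝ :=
  if n % 3 = 0 then (if n % 2 = 1 then 0.3154 else 0.1667)
  else (if n % 2 = 1 then 0.7883 else 0.4167)

/-- `F` bounds the sum of `Cp p / √p (t - 0.26 log p)` over the primes up to `P` -/
def FB (P : ℕ) (t F : ℝ) : Prop := ∀ S : Finset ℕ, (∀ p ∈ S, p.Prime ∧ 5 ≤ p ∧ p ≤ P) →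
  ∑ p ∈ S, Cp p / √(p : ℝ) * (t - 0.26 * Real.log p) ≤ F

/-- G1: the error terms of the small primes -/
def StG1 : Prop := ∀ (n P : ℕ) (F : ℝ), Ex.Adm n → 10 ^ 15 ≤ nu n →
  FB P (0.13 * Real.log (nu n) + 0.6) F →
  ∑ p ∈ Pr 5 P, 6 * EA n p ≤ c3 n * nu n * ((nu n : ℝ) ^ (-(1 / 4) : ℝ) *
    (48 * Wn n * F + 34.8 * (nu n : ℝ) ^ (1 / 20 : ℝ)))

/-- G2: the error term of `p = 3` -/
def StG2 : Prop := ∀ n : ℕ, Ex.Adm n → n % 3 = 1 → 10 ^ 15 ≤ nu n →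
  2.7 * E3 n ≤ c3 n * nu n * ((nu n : ℝ) ^ (-(1 / 4) : ℝ) *
    (14.2 * (nu n : ℝ) ^ (1 / 20 : ℝ) + 3.2 * Real.log (nu n) + 1.5))

/-- coefficient of `gs` contributed by the primes above `P₁` -/
noncomputable def kk (n P₁ r : ℕ) (A : ℝ) : ℝ :=
  409.92 / c3 n * (0.8 + 0.143 * Real.log (√(nu n : ℝ) / P₁)) * (1.0021 * A + r / (P₁ : ℝ) ^ 2) +
    1.5 * r / (P₁ : ℝ) ^ 2

/-- error contributed by the primes above `P₁` -/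
noncomputable def eL (n : ℕ) (B C : ℝ) : ℝ :=
  (nu n : ℝ) ^ (-(1 / 4) : ℝ) * (78.3 / c3 n * B) + 391.92 / c3 n * (nu n : ℝ) ^ (1 / 6 : ℝ) * C

/-- G3: the terms of the master inequality with primes above `P₁` -/
def StG3 : Prop := ∀ (n P₁ P₂ r : ℕ) (A B C : ℝ), Ex.Adm n → 1000 ≤ P₁ → P₁ ≤ P₂ →
  1000 * (P₂ : ℝ) ≤ √(nu n : ℝ) → nu n < P₁ ^ (r + 1) →
  ∑ p ∈ Pr (P₁ + 1) P₂, 1 / (p : ℝ) ^ 2 ≤ A → ∑ p ∈ Pr (P₁ + 1) P₂, 1 / √(p : ℝ) ≤ B →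
  ∑ p ∈ Pr (P₂ + 1) (Nat.sqrt n), 1 / (p : ℝ) ^ 2 ≤ C →
  ∑ p ∈ Pr (P₁ + 1) P₂, 6 * CPb (nu n) p + ∑ p ∈ Pr (P₂ + 1) (Nat.sqrt n), 6 * TRb (nu n) p +
    ∑ p ∈ (Pr (P₁ + 1) (Nat.sqrt n)).filter (fun p ↦ p ^ 2 ∣ nu n),
      3 / 2 * c3 n * nu n * gs (nu n) 6 / (p : ℝ) ^ 2 ≤
  c3 n * nu n * (gs (nu n) 6 * kk n P₁ r A + eL n B C)

/-- total error in units of `c3 n * nu n` -/
noncomputable def eT (n : ℕ) (F B C : ℝ) : ℝ :=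
  (nu n : ℝ) ^ (-(1 / 4) : ℝ) * (48 * Wn n * F + 34.8 * (nu n : ℝ) ^ (1 / 20 : ℝ)) +
  (if n % 3 = 1 then (nu n : ℝ) ^ (-(1 / 4) : ℝ) *
    (14.2 * (nu n : ℝ) ^ (1 / 20 : ℝ) + 3.2 * Real.log (nu n) + 1.5) else 0) + eL n B C

/-- G4: the criterion -/
def StCrit : Prop := ∀ (n P₁ P₂ r : ℕ) (A B C F : ℝ), Ex.Adm n → 10 ^ 15 ≤ nu n →
  1000 ≤ P₁ → P₁ ≤ P₂ → 30000 * (P₁ : ℝ) ≤ √((nu n : ℝ) / 2) → 1000 * (P₂ : ℝ) ≤ √(nu n : ℝ) →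
  nu n < P₁ ^ (r + 1) → FB P₁ (0.13 * Real.log (nu n) + 0.6) F →
  ∑ p ∈ Pr (P₁ + 1) P₂, 1 / (p : ℝ) ^ 2 ≤ A → ∑ p ∈ Pr (P₁ + 1) P₂, 1 / √(p : ℝ) ≤ B →
  ∑ p ∈ Pr (P₂ + 1) (Nat.sqrt n), 1 / (p : ℝ) ^ 2 ≤ C →
  0 ≤ kk n P₁ r A → kk n P₁ r A ≤ 0.04 → eT n F B C + 1.46 * kk n P₁ r A < 0.3664 → Ex.Rep4 n

/-- G5: `n = 1 mod 3`, `n` odd, below `10^18` -/
def StR1 : Prop := ∀ n : ℕ, Ex.Adm n → n % 3 = 1 → n % 2 = 1 → 190000000000000000 ≤ n →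
  nu n ≤ 10 ^ 18 → Ex.Rep4 n

/-- G6: `n = 1 mod 3`, `n` even, below `10^18` -/
def StR2p : Prop := ∀ n : ℕ, Ex.Adm n → n % 3 = 1 → n % 2 = 0 → 190000000000000000 ≤ n →
  nu n ≤ 10 ^ 18 → Ex.Rep4 n

/-- G7: `n = 0 mod 3`, below `10^18` -/
def StR3 : Prop := ∀ n : ℕ, Ex.Adm n → n % 3 = 0 → 11500000000000000 ≤ n →
  nu n ≤ 10 ^ 18 → Ex.Rep4 n

/-- G8: between `10^18` and `10^20` -/
def StR4 : Prop := ∀ n : ℕ, Ex.Adm n → 10 ^ 18 ≤ nu n → nu n ≤ 10 ^ 20 → Ex.Rep4 n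

/-- G9: above `10^20` -/
def StR5 : Prop := ∀ n : ℕ, Ex.Adm n → 10 ^ 20 ≤ nu n → Ex.Rep4 n

end Pool.Agent.TFS
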