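import Pool.Agent.Lib.TFS.Defs
import Pool.Agent.Lib.TFS.DefsW

/-!
Group S: exponential sums `∑ e(h·x/q)` over `x₁² + x₂² = ν` modulo `q` and their domination by
indicator functions of Gaussian ideals.  Blueprint: team-store `tfs_S.md`.
-/

set_option autoImplicit false

open Finset

namespace Pool.Agent.TFS

open Pool.Agent.Lib.MP_0e0027_nt

/-- S1: Gauss sums modulo a prime -/
def StT1 : Prop := ∀ (l : ℕ) [Fact l.Prime], l ≠ 2 → ∀ (ν : ℤ) (h : GI),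
  TF ν l h = (if dv l h then (l : ℂ) else 0) +
    (ch l : ℂ) * Kl (ν : ZMod l) ((N2 h : ZMod l) * (4 : ZMod l)⁻¹)

/-- S2: domination modulo a prime -/
def StDom1 : Prop := ∀ (l : ℕ) [Fact l.Prime], l ≠ 2 → ∀ ν : ℤ,
  Dom (fun h ↦ ‖TF ν l h‖) l (2 * √(l : ℝ) * hl l)

/-- S3: prime powers, `ℓ ∤ ν`: stationary phase -/
def StT2 : Prop := ∀ (l : ℕ) [Fact l.Prime] (k : ℕ) [NeZero (l ^ k)], l ≠ 2 → 2 ≤ k → ∀ (ν : ℤ) (h : GI),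
  ¬ (l : ℤ) ∣ ν → ¬ dv l h → ‖TF ν (l ^ k) h‖ ≤ 2 * √(l : ℝ) ^ k

/-- S4: nonsingular solutions lift in exactly `ℓ` ways; multiples of `ℓ` -/
def StLift : Prop := ∀ (l : ℕ) [Fact l.Prime] (k : ℕ) [NeZero (l ^ k)] [NeZero (l ^ (k + 1))], l ≠ 2 →
  1 ≤ k → ∀ (ν : ℤ) (h : GI),
  TS ν l (l ^ (k + 1)) ((l : GI) * h) = l * TS ν l (l ^ k) h ∧
  rhoS ν l (l ^ (k + 1)) = l * rhoS ν l (l ^ k)

/-- S5: one-dimensional Kloosterman sums modulo prime powers -/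
def StKpp : Prop := ∀ (l : ℕ) [Fact l.Prime] (r : ℕ) [NeZero (l ^ r)], l ≠ 2 → 2 ≤ r → ∀ m n : ℤ,
  (¬ (l : ℤ) ∣ m → ¬ (l : ℤ) ∣ n → ‖Kl (m : ZMod (l ^ r)) (n : ZMod (l ^ r))‖ ≤ 2 * √(l : ℝ) ^ r) ∧
  ((l : ℤ) ∣ m → ¬ (l : ℤ) ∣ n → Kl (m : ZMod (l ^ r)) (n : ZMod (l ^ r)) = 0) ∧
  (¬ (l : ℤ) ∣ m → (l : ℤ) ∣ n → Kl (m : ZMod (l ^ r)) (n : ZMod (l ^ r)) = 0) ∧
  ∀ [NeZero (l ^ (r - 1))], Kl ((l * m : ℤ) : ZMod (l ^ r)) ((l * n : ℤ) : ZMod (l ^ r)) =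
    l * Kl (m : ZMod (l ^ (r - 1))) (n : ZMod (l ^ (r - 1)))

/-- S6: nonsingular solutions for split `ℓ ∣ ν` -/
def StSplit : Prop := ∀ (l : ℕ) [Fact l.Prime] (k : ℕ) [NeZero (l ^ k)], l % 4 = 1 → 2 ≤ k → ∀ ν : ℤ,
  (l : ℤ) ∣ ν → Dom (fun h ↦ ‖TS ν l (l ^ k) h‖) (l ^ k) ((4 / √(l : ℝ) + 4 / l) * √(l : ℝ) ^ k)

/-- S7: domination for the nonsingular solutions modulo `p^k`, `k ≥ 2` -/
def StDomP : Prop := ∀ (p : ℕ) [Fact p.Prime] (k : ℕ) [NeZero (p ^ k)], p ≠ 2 → 2 ≤ k → ∀ ν : ℤ,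
  Dom (fun h ↦ ‖TS ν p (p ^ k) h‖) (p ^ k) (Cp p * √(p : ℝ) ^ k)

/-- S8: domination for all solutions modulo `ℓ^k`, `k ≥ 1` -/
def StDomL : Prop := ∀ (l : ℕ) [Fact l.Prime] (k : ℕ) [NeZero (l ^ k)], l ≠ 2 → 1 ≤ k → ∀ ν : ℤ,
  Dom (fun h ↦ ‖TF ν (l ^ k) h‖) (l ^ k) ((k + 1) * hl l * √(l : ℝ) ^ k)

/-- S9: Chinese remainder theorem -/
def StCRT : Prop := ∀ (q₁ q₂ : ℕ) [NeZero q₁] [NeZero q₂] [NeZero (q₁ * q₂)], q₁.Coprime q₂ →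
  ∃ u₁ u₂ : ℤ, IsCoprime u₁ q₁ ∧ IsCoprime u₂ q₂ ∧ ∀ (ν : ℤ) (h : GI),
    TF ν (q₁ * q₂) h = TF ν q₁ ((u₁ : GI) * h) * TF ν q₂ ((u₂ : GI) * h) ∧
    ∀ p : ℕ, p ∣ q₁ → TS ν p (q₁ * q₂) h = TS ν p q₁ ((u₁ : GI) * h) * TF ν q₂ ((u₂ : GI) * h)

/-- S10: the global domination -/
def StDOM : Prop := ∀ (p : ℕ) [Fact p.Prime] (d : ℕ) [NeZero (p ^ 2 * d)], p ≠ 2 → d % 2 = 1 →
  ∀ ν : ℤ, Dom (fun h ↦ ‖TS ν p (p ^ 2 * d) h‖) (p ^ 2 * d) (Bq p d)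

end Pool.Agent.TFS
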