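import Pool.Agent.Lib.TFS.MB

/-!
Module T3: `FF ν ≤ 2.72 ν^(1/20)`.
-/

set_option autoImplicit false

open Finset

namespace Pool.Agent.TFS

namespace T3

/-- the summand -/
noncomputable def gA : ArithmeticFunction ℝ :=
  ⟨fun a ↦ if a.Coprime 6 then 1 / √(a : ℝ) else 0, by simp⟩

theorem gA_apply (a : ℕ) : gA a = if a.Coprime 6 then 1 / √(a : ℝ) else 0 := rfl

theorem gA_mult : gA.IsMultiplicative := by
  refine ⟨by simp [gA_apply], ?_⟩
  intro m n _
  rw [gA_apply, gA_apply, gA_apply]
  by_cases h1 : m.Coprime 6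
  · by_cases h2 : n.Coprime 6
    · rw [if_pos h1, if_pos h2, if_pos (Nat.Coprime.mul_left h1 h2)]
      push_cast
      rw [Real.sqrt_mul (Nat.cast_nonneg _)]
      field_simp
    · rw [if_neg h2, if_neg, mul_zero]
      exact fun h ↦ h2 (Nat.Coprime.coprime_mul_left h)
  · rw [if_neg h1, if_neg, zero_mul]
    exact fun h ↦ h1 (Nat.Coprime.coprime_mul_right h)

theorem FF_eq (n : ℕ) : FF n = (gA * (ArithmeticFunction.zeta : ArithmeticFunction ℝ)) n := by
  rw [ArithmeticFunction.coe_mul_zeta_apply, FF, sum_filter]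
  rfl

theorem FF_mul (m n : ℕ) (h : m.Coprime n) : FF (m * n) = FF m * FF n := by
  rw [FF_eq, FF_eq, FF_eq]
  exact (gA_mult.mul ArithmeticFunction.isMultiplicative_zeta.natCast).map_mul_of_coprime h

theorem FF_nonneg (n : ℕ) : 0 ≤ FF n := by
  unfold FF
  exact sum_nonneg fun _ _ ↦ by positivity

theorem FF_one : FF 1 = 1 := by
  rw [FF_eq, ArithmeticFunction.coe_mul_zeta_apply, Nat.divisors_one, sum_singleton, gA_apply]
  simp

theorem FF_pp (p a : ℕ) (hp : p.Prime) :
    FF (p ^ a) = ∑ i ∈ range (a + 1), gA (p ^ i) := by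
  rw [FF_eq, ArithmeticFunction.coe_mul_zeta_apply, Nat.sum_divisors_prime_pow hp]

theorem FF_pp_le (p a : ℕ) (hp : p.Prime) (x : ℝ) (hx : 1 / √(p : ℝ) ≤ x) :
    FF (p ^ a) ≤ ∑ i ∈ range (a + 1), x ^ i := by
  rw [FF_pp p a hp]
  apply sum_le_sum
  intro i _
  have h0 : 0 ≤ 1 / √(p : ℝ) := by positivity
  rw [gA_apply]
  split_ifs
  · push_cast
    have : √((p : ℝ) ^ i) = √(p : ℝ) ^ i := by
      rw [Real.sqrt_eq_iff_mul_self_eq (by positivity) (by positivity), ← mul_pow,
        Real.mul_self_sqrt (Nat.cast_nonneg _)]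
    rw [this, ← one_div_pow]
    exact pow_le_pow_left₀ h0 hx i
  · exact pow_nonneg (h0.trans hx) i

theorem FF_pp_23 (p a : ℕ) (hp : p.Prime) (h : p = 2 ∨ p = 3) : FF (p ^ a) ≤ 1 := by
  rw [FF_pp p a hp, sum_range_succ']
  have h1 : ∀ i ∈ range a, gA (p ^ (i + 1)) = 0 := by
    intro i _
    rw [gA_apply, if_neg]
    intro hc
    rw [Nat.coprime_pow_left_iff (by omega)] at hc
    rcases h with rfl | rfl <;> revert hc <;> decide
  rw [sum_eq_zero h1, gA_apply]
  simp

theorem rpow_pow_aux (p a : ℕ) (s : ℝ) : ((p ^ a : ℕ) : ℝ) ^ s = ((p : ℝ) ^ s) ^ a := by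
  push_cast
  rw [← Real.rpow_natCast, ← Real.rpow_natCast, ← Real.rpow_mul (Nat.cast_nonneg _),
    ← Real.rpow_mul (Nat.cast_nonneg _), mul_comm]

theorem root_ge (t : ℝ) (p : ℕ) (ht : 0 ≤ t) (h : t ^ 20 ≤ p) : t ≤ (p : ℝ) ^ (1 / 20 : ℝ) := by
  have h1 : t = (t ^ 20) ^ (1 / 20 : ℝ) := by
    rw [← Real.rpow_natCast, ← Real.rpow_mul ht]
    norm_num
  rw [h1]
  exact Real.rpow_le_rpow (by positivity) h (by norm_num)

theorem pp_le (p a : ℕ) (hp : p.Prime) (c t : ℝ) (ht : 1 < t) (hc : 0 < c) (hr : t ^ 20 ≤ p)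
    (k : ℕ) (h1 : 1 / (1 - 1 / t ^ 10) ≤ c * t ^ k)
    (h3 : ∀ j < k, 0 < j → ∑ i ∈ range (j + 1), (1 / t ^ 10) ^ i ≤ c * t ^ j) (ha : 0 < a) :
    FF (p ^ a) ≤ c * ((p ^ a : ℕ) : ℝ) ^ (1 / 20 : ℝ) := by
  have hr' := root_ge t p (by linarith) hr
  have ht0 : 0 < t := by linarith
  have h10 : t ^ 10 ≤ √(p : ℝ) := by
    apply Real.le_sqrt_of_sq_le
    refine le_trans (le_of_eq ?_) hr
    ring
  have h5 := FF_pp_le p a hp (1 / t ^ 10) (one_div_le_one_div_of_le (by positivity) h10)
  have hx1 : 1 / t ^ 10 < 1 := by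
    rw [div_lt_one (by positivity)]
    exact one_lt_pow₀ ht (by norm_num)
  have hx0 : 0 < 1 / t ^ 10 := by positivity
  have h6 : ∑ i ∈ range (a + 1), (1 / t ^ 10) ^ i ≤ c * t ^ a := by
    rcases Nat.lt_or_ge a k with h | h
    · exact h3 a h ha
    · have h7 : ∑ i ∈ range (a + 1), (1 / t ^ 10) ^ i ≤ 1 / (1 - 1 / t ^ 10) := by
        rw [geom_sum_eq hx1.ne, ← neg_div_neg_eq, neg_sub, neg_sub]
        have : 0 ≤ (1 / t ^ 10) ^ (a + 1) := by positivity
        exact div_le_div_of_nonneg_right (by linarith) (by linarith)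
      refine h7.trans (h1.trans ?_)
      have : t ^ k ≤ t ^ a := pow_le_pow_right₀ ht.le h
      gcongr
  rw [rpow_pow_aux]
  calc FF (p ^ a) ≤ c * t ^ a := h5.trans h6
    _ ≤ _ := by gcongr

/-- the constants -/
noncomputable def c1 (p : ℕ) : ℝ :=
  if p = 5 then 1.4025 else if p = 7 then 1.252 else if p = 11 then 1.1545 else
    if p = 13 then 1.1237 else if p = 17 then 1.0785 else if p = 19 then 1.0612 else
      if p = 23 then 1.0332 else if p = 29 then 1.002 else 1

/-- the exceptional primes -/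
def S1 : Finset ℕ := {5, 7, 11, 13, 17, 19, 23, 29}

end T3

open T3 in
/-- T3 -/
theorem stFF : StFF := by
  intro m hm
  have key := mult_bound FF (1 / 20) c1 S1 FF_one FF_nonneg FF_mul (by
      intro p hp
      simp only [S1, mem_insert, mem_singleton] at hp
      rcases hp with rfl | rfl | rfl | rfl | rfl | rfl | rfl | rfl <;> simp only [c1] <;> norm_num) (by
      intro p a hp ha hpS
      simp only [S1, mem_insert, mem_singleton] at hpS
      rcases hpS with rfl | rfl | rfl | rfl | rfl | rfl | rfl | rfl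
      · refine pp_le 5 a hp (c1 5) 1.08379 (by norm_num) (by norm_num [c1]) (by norm_num) 4
          (by norm_num [c1]) ?_ ha
        intro j hj hj0
        interval_cases j <;> norm_num [c1, sum_range_succ]
      · refine pp_le 7 a hp (c1 7) 1.10218 (by norm_num) (by norm_num [c1]) (by norm_num) 3
          (by norm_num [c1]) ?_ ha
        intro j hj hj0
        interval_cases j <;> norm_num [c1, sum_range_succ]
      · refine pp_le 11 a hp (c1 11) 1.12737 (by norm_num) (by norm_num [c1]) (by norm_num) 2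
          (by norm_num [c1]) ?_ ha
        intro j hj hj0
        interval_cases j <;> norm_num [c1, sum_range_succ]
      · refine pp_le 13 a hp (c1 13) 1.13683 (by norm_num) (by norm_num [c1]) (by norm_num) 2
          (by norm_num [c1]) ?_ ha
        intro j hj hj0
        interval_cases j <;> norm_num [c1, sum_range_succ]
      · refine pp_le 17 a hp (c1 17) 1.15218 (by norm_num) (by norm_num [c1]) (by norm_num) 2
          (by norm_num [c1]) ?_ ha
        intro j hj hj0
        interval_cases j <;> norm_num [c1, sum_range_succ]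
      · refine pp_le 19 a hp (c1 19) 1.15861 (by norm_num) (by norm_num [c1]) (by norm_num) 2
          (by norm_num [c1]) ?_ ha
        intro j hj hj0
        interval_cases j <;> norm_num [c1, sum_range_succ]
      · refine pp_le 23 a hp (c1 23) 1.16973 (by norm_num) (by norm_num [c1]) (by norm_num) 2
          (by norm_num [c1]) ?_ ha
        intro j hj hj0
        interval_cases j <;> norm_num [c1, sum_range_succ]
      · refine pp_le 29 a hp (c1 29) 1.18336 (by norm_num) (by norm_num [c1]) (by norm_num) 2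
          (by norm_num [c1]) ?_ ha
        intro j hj hj0
        interval_cases j <;> norm_num [c1, sum_range_succ]) (by
      intro p a hp ha hpS
      by_cases h23 : p = 2 ∨ p = 3
      · refine (FF_pp_23 p a hp h23).trans (Real.one_le_rpow ?_ (by norm_num))
        exact_mod_cast Nat.one_le_pow _ _ hp.pos
      · have h31 : 31 ≤ p := by
          by_contra hlt
          push Not at hlt
          interval_cases p <;> first | omega | (revert hp; norm_num; done) | (revert hpS; simp [S1])
        have := pp_le p a hp 1 1.18732 (by norm_num) (by norm_num) (by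
          have h : (31 : ℝ) ≤ p := by exact_mod_cast h31
          refine le_trans ?_ h
          norm_num) 2 (by norm_num) (by
            intro j hj hj0
            interval_cases j
            norm_num [sum_range_succ]) ha
        rwa [one_mul] at this) m (by omega)
  refine key.trans (mul_le_mul_of_nonneg_right ?_ (Real.rpow_nonneg (Nat.cast_nonneg _) _))
  simp only [S1]
  rw [prod_insert (by decide), prod_insert (by decide), prod_insert (by decide),
    prod_insert (by decide), prod_insert (by decide), prod_insert (by decide),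
    prod_insert (by decide), prod_singleton]
  norm_num [c1]

end Pool.Agent.TFS
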